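import Pool.Agent.H38.FM.GoodMk

/-!
# Reduction of the family `M1` to normal forms whose parameters are moduli
-/

noncomputable section

set_option linter.unusedSimpArgs false
set_option linter.unusedVariables false

namespace Pool.Agent.H38.FM

open FM67 Matrix

/-- Translation `y ↦ y + t`. -/
theorem rel_m1_tr (t b0 b1 b2 w a0 a1 a2 c0 c1 : ℂ) :
    Rel (fM1 b0 b1 b2 w a0 a1 a2 c0 c1)
      (fM1 (b0 - b1 * t + b2 * t ^ 2 - w / 2 * t ^ 3) (b1 - 2 * b2 * t + 3 * w / 2 * t ^ 2)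
        (b2 - 3 * w / 2 * t) w (a0 - a1 * t + a2 * t ^ 2) (a1 - 2 * a2 * t) a2
        (c0 - c1 * t + w * t ^ 2) (c1 - 2 * w * t)) := by
  refine rel_mk 1 0 0 0 1 t 0 0 1 1 0 0 0 1 (-t) 0 0 1 1
    (by ring) (by ring) (by ring) (by ring) (by ring) (by ring) (by ring) (by ring) (by ring)
    (by ring) one_ne_zero ?_
  intro X Y Z X' Y' Z' hX hY hZ
  subst hX; subst hY; subst hZ
  refine ⟨?_, ?_, ?_, ?_, ?_, ?_⟩ <;>
    simp only [ha, hb, hc, hd, he, hf, fM1, zeroPar] <;> ring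

/-- Scaling `x ↦ al x`, `y ↦ ka y`. -/
theorem rel_m1_sc (al ka b0 b1 b2 w a0 a1 a2 c0 c1 : ℂ) (hal : al ≠ 0) (hka : ka ≠ 0) :
    Rel (fM1 b0 b1 b2 w a0 a1 a2 c0 c1)
      (fM1 (al * ka * b0) (al * b1) (al * b2 / ka) (al * w / ka ^ 2) (al ^ 2 * a0)
        (al ^ 2 * a1 / ka) (al ^ 2 * a2 / ka ^ 2) (al * c0) (al * c1 / ka)) := by
  refine rel_mk al 0 0 0 ka 0 0 0 1 ka 0 0 0 al 0 0 0 (al * ka) (al * ka)
    (by ring) (by ring) (by ring) (by ring) (by ring) (by ring) (by ring) (by ring) (by ring)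
    (by ring) (mul_ne_zero hal hka) ?_
  intro X Y Z X' Y' Z' hX hY hZ
  subst hX; subst hY; subst hZ
  refine ⟨?_, ?_, ?_, ?_, ?_, ?_⟩ <;>
    simp only [ha, hb, hc, hd, he, hf, fM1, zeroPar] <;> field_simp <;> ring

/-- Inversion `y ↦ 1 / y`, `x ↦ x / y`. -/
theorem rel_m1_inv (b0 b1 b2 w a0 a1 a2 c0 c1 : ℂ) :
    Rel (fM1 b0 b1 b2 w a0 a1 a2 c0 c1)
      (fM1 (-(w / 2)) (-b2) (-b1) (-2 * b0) a2 a1 a0 (c1 - 2 * b2) (c0 - 2 * b1)) := by
  refine rel_mk 1 0 0 0 0 1 0 1 0 (-1) 0 0 0 0 (-1) 0 (-1) 0 (-1)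
    (by ring) (by ring) (by ring) (by ring) (by ring) (by ring) (by ring) (by ring) (by ring)
    (by ring) (by norm_num) ?_
  intro X Y Z X' Y' Z' hX hY hZ
  subst hX; subst hY; subst hZ
  refine ⟨?_, ?_, ?_, ?_, ?_, ?_⟩ <;>
    simp only [ha, hb, hc, hd, he, hf, fM1, zeroPar] <;> ring

/-- Translation `x ↦ x + l0 + l1 y`. -/
theorem rel_m1_la (l0 l1 b0 b1 b2 w a0 a1 a2 c0 c1 : ℂ) :
    Rel (fM1 b0 b1 b2 w a0 a1 a2 c0 c1)
      (fM1 b0 b1 b2 w (a0 - l0 * c0 + 2 * l1 * b0) (a1 - (l0 * c1 + l1 * c0) + 2 * l1 * b1)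
        (a2 - (l0 * w + l1 * c1) + 2 * l1 * b2) c0 c1) := by
  refine rel_mk 1 l1 l0 0 1 0 0 0 1 1 (-l1) (-l0) 0 1 0 0 0 1 1
    (by ring) (by ring) (by ring) (by ring) (by ring) (by ring) (by ring) (by ring) (by ring)
    (by ring) one_ne_zero ?_
  intro X Y Z X' Y' Z' hX hY hZ
  subst hX; subst hY; subst hZ
  refine ⟨?_, ?_, ?_, ?_, ?_, ?_⟩ <;>
    simp only [ha, hb, hc, hd, he, hf, fM1, zeroPar] <;> ring

/-- The normal forms of the family `M1`. -/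
inductive M1N : Par → Prop
  | a (c0 c1 ga : ℂ) (h0 : c1 ≠ 0) (h2 : c1 ≠ 2) : M1N (fM1 0 (-1) 1 0 ga 0 0 c0 c1)
  | b (al be : ℂ) : M1N (fM1 0 (-1) 1 0 al be 0 0 0)
  | c (c0 ga : ℂ) : M1N (fM1 0 1 0 0 ga 0 0 c0 1)
  | d0 (c0 : ℂ) : M1N (fM1 0 1 0 0 0 0 0 c0 0)
  | d1 (c0 : ℂ) : M1N (fM1 0 1 0 0 0 0 1 c0 0)
  | e0 (ga : ℂ) (h : ga ≠ 0) : M1N (fM1 0 1 0 0 ga 0 0 0 0)
  | e1 (ga : ℂ) (h : ga ≠ 0) : M1N (fM1 0 1 0 0 ga 0 1 0 0)
  | f (ga : ℂ) : M1N (fM1 0 1 0 0 0 1 ga 2 0)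
  | g (ga : ℂ) : M1N (fM1 1 0 0 0 ga 0 0 0 1)
  | h (ga : ℂ) : M1N (fM1 1 0 0 0 0 0 ga 1 0)
  | i0 : M1N (fM1 1 0 0 0 0 0 0 0 0)
  | i1 : M1N (fM1 1 0 0 0 0 1 0 0 0)
  | i2 : M1N (fM1 1 0 0 0 0 0 1 0 0)

/-- Equivalent to one of the normal forms. -/
def M1G (p : Par) : Prop := ∃ q, M1N q ∧ Rel p q

theorem M1G.of {p q : Par} (h : Rel p q) (hq : M1G q) : M1G p := by
  obtain ⟨r, hr, h2⟩ := hq
  exact ⟨r, hr, h.trans h2⟩

theorem M1N.good {p : Par} (h : M1N p) : M1G p := ⟨p, h, Rel.refl p⟩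

theorem exists_root_poly {f : Polynomial ℂ} (h : 0 < f.degree) : ∃ z, f.eval z = 0 := by
  obtain ⟨z, hz⟩ := Complex.exists_root h
  exact ⟨z, hz⟩

theorem root_cubic (b0 b1 b2 b3 : ℂ) (h : b3 ≠ 0) :
    ∃ z : ℂ, b0 + b1 * z + b2 * z ^ 2 + b3 * z ^ 3 = 0 := by
  have hd : (Polynomial.C b3 * Polynomial.X ^ 3 + Polynomial.C b2 * Polynomial.X ^ 2
      + Polynomial.C b1 * Polynomial.X + Polynomial.C b0).degree = 3 :=
    Polynomial.degree_cubic h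
  obtain ⟨z, hz⟩ := exists_root_poly (f := Polynomial.C b3 * Polynomial.X ^ 3
    + Polynomial.C b2 * Polynomial.X ^ 2 + Polynomial.C b1 * Polynomial.X + Polynomial.C b0)
    (by rw [hd]; norm_num)
  refine ⟨z, ?_⟩
  simp only [Polynomial.eval_add, Polynomial.eval_mul, Polynomial.eval_C, Polynomial.eval_pow,
    Polynomial.eval_X] at hz
  linear_combination hz

theorem root_quad (b0 b1 b2 : ℂ) (h : b2 ≠ 0) : ∃ z : ℂ, b0 + b1 * z + b2 * z ^ 2 = 0 := by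
  have hd : (Polynomial.C b2 * Polynomial.X ^ 2
      + Polynomial.C b1 * Polynomial.X + Polynomial.C b0).degree = 2 :=
    Polynomial.degree_quadratic h
  obtain ⟨z, hz⟩ := exists_root_poly (f := Polynomial.C b2 * Polynomial.X ^ 2
    + Polynomial.C b1 * Polynomial.X + Polynomial.C b0) (by rw [hd]; norm_num)
  refine ⟨z, ?_⟩
  simp only [Polynomial.eval_add, Polynomial.eval_mul, Polynomial.eval_C, Polynomial.eval_pow,
    Polynomial.eval_X] at hz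
  linear_combination hz

theorem exists_pow_eq (n : ℕ) (hn : 0 < n) {z : ℂ} (hz : z ≠ 0) : ∃ k : ℂ, k ≠ 0 ∧ k ^ n = z := by
  obtain ⟨k, hk⟩ := IsAlgClosed.exists_pow_nat_eq z hn
  refine ⟨k, ?_, hk⟩
  rintro rfl
  rw [zero_pow hn.ne'] at hk
  exact hz hk.symm

/-- Change the parameters along equalities. -/
theorem M1G.congr {b0 b1 b2 w a0 a1 a2 c0 c1 b0' b1' b2' w' a0' a1' a2' c0' c1' : ℂ}
    (hG : M1G (fM1 b0' b1' b2' w' a0' a1' a2' c0' c1'))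
    (e0 : b0 = b0') (e1 : b1 = b1') (e2 : b2 = b2') (e3 : w = w') (e4 : a0 = a0')
    (e5 : a1 = a1') (e6 : a2 = a2') (e7 : c0 = c0') (e8 : c1 = c1') :
    M1G (fM1 b0 b1 b2 w a0 a1 a2 c0 c1) := by
  subst e0; subst e1; subst e2; subst e3; subst e4; subst e5; subst e6; subst e7; subst e8
  exact hG

/-! ### Type `B = Z³` -/

theorem type3_c1 (a0 a1 a2 c0 : ℂ) : M1G (fM1 1 0 0 0 a0 a1 a2 c0 1) := by
  refine M1G.of (rel_m1_tr c0 ..) (M1G.of (rel_m1_la (a1 - 2 * a2 * c0) a2 ..)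
    (M1G.congr (M1N.g (a0 - a1 * c0 + a2 * c0 ^ 2 + 2 * a2)).good ?_ ?_ ?_ ?_ ?_ ?_ ?_ ?_ ?_)) <;>
    ring

theorem type3_c0 (a0 a1 a2 : ℂ) : M1G (fM1 1 0 0 0 a0 a1 a2 1 0) := by
  refine M1G.of (rel_m1_la (a0 + 2 * a1) a1 ..)
    (M1G.congr (M1N.h a2).good ?_ ?_ ?_ ?_ ?_ ?_ ?_ ?_ ?_) <;>
    ring

theorem type3 (b0 a0 a1 a2 c0 c1 : ℂ) (hb : b0 ≠ 0) : M1G (fM1 b0 0 0 0 a0 a1 a2 c0 c1) := by
  by_cases h1 : c1 = 0
  · subst h1
    by_cases h0 : c0 = 0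
    · subst h0
      -- kill a0
      have key : M1G (fM1 b0 0 0 0 0 a1 a2 0 0) := by
        by_cases h2 : a2 = 0
        · subst h2
          by_cases h3 : a1 = 0
          · subst h3
            refine M1G.of (rel_m1_sc (1 / b0) 1 _ _ _ _ _ _ _ _ _ (by simpa using hb) one_ne_zero)
              (M1G.congr M1N.i0.good ?_ ?_ ?_ ?_ ?_ ?_ ?_ ?_ ?_) <;> field_simp <;> ring
          · obtain ⟨k, hk, hk3⟩ := exists_pow_eq 3 (by norm_num)
              (div_ne_zero h3 (pow_ne_zero 2 hb))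
            have hk' : k ^ 3 * b0 ^ 2 = a1 := by rw [hk3]; field_simp
            refine M1G.of (rel_m1_sc (1 / (k * b0)) k _ _ _ _ _ _ _ _ _
              (by simpa using ⟨hb, hk⟩) hk)
              (M1G.congr M1N.i1.good ?_ ?_ ?_ ?_ ?_ ?_ ?_ ?_ ?_)
            · field_simp
            · ring
            · ring
            · ring
            · ring
            · rw [← hk']; field_simp
            · ring
            · ring
            · ring
        · have key2 : ∀ z : ℂ, M1G (fM1 b0 0 0 0 z 0 a2 0 0) := by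
            intro z
            obtain ⟨k, hk, hk4⟩ := exists_pow_eq 4 (by norm_num)
              (div_ne_zero h2 (pow_ne_zero 2 hb))
            have hk' : k ^ 4 * b0 ^ 2 = a2 := by rw [hk4]; field_simp
            refine M1G.of (rel_m1_la 0 (-z / (2 * b0)) ..) (M1G.of (rel_m1_sc (1 / (k * b0)) k
              _ _ _ _ _ _ _ _ _ (by simpa using ⟨hb, hk⟩) hk)
              (M1G.congr M1N.i2.good ?_ ?_ ?_ ?_ ?_ ?_ ?_ ?_ ?_))
            · field_simp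
            · ring
            · ring
            · ring
            · field_simp; ring
            · ring
            · rw [← hk']; field_simp; ring
            · ring
            · ring
          refine M1G.of (rel_m1_tr (a1 / (2 * a2)) ..) (M1G.congr
            (key2 (0 - a1 * (a1 / (2 * a2)) + a2 * (a1 / (2 * a2)) ^ 2))
            ?_ ?_ ?_ ?_ ?_ ?_ ?_ ?_ ?_)
          · ring
          · ring
          · ring
          · ring
          · ring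
          · field_simp; ring
          · ring
          · ring
          · ring
      refine M1G.of (rel_m1_la 0 (-a0 / (2 * b0)) ..) (M1G.congr key ?_ ?_ ?_ ?_ ?_ ?_ ?_ ?_ ?_)
      · ring
      · ring
      · ring
      · ring
      · field_simp; ring
      · ring
      · ring
      · ring
      · ring
    · refine M1G.of (rel_m1_sc (1 / c0) (c0 / b0) _ _ _ _ _ _ _ _ _ (by simpa using h0)
        (div_ne_zero h0 hb)) (M1G.congr (type3_c0 _ _ _) ?_ ?_ ?_ ?_ rfl rfl rfl ?_ ?_)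
      · field_simp
      · ring
      · ring
      · ring
      · field_simp
      · ring
  · obtain ⟨k, hk, hk2⟩ := exists_pow_eq 2 (by norm_num) (div_ne_zero h1 hb)
    have hk' : k ^ 2 * b0 = c1 := by rw [hk2]; field_simp
    refine M1G.of (rel_m1_sc (k / c1) k _ _ _ _ _ _ _ _ _ (div_ne_zero hk h1) hk)
      (M1G.congr (type3_c1 _ _ _ _) ?_ ?_ ?_ ?_ rfl rfl rfl rfl ?_)
    · field_simp; exact hk'
    · ring
    · ring
    · ring
    · field_simp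

/-! ### Type `B = Y Z²` -/

theorem type21_c1 (a0 a1 a2 c0 : ℂ) : M1G (fM1 0 1 0 0 a0 a1 a2 c0 1) := by
  refine M1G.of (rel_m1_la (a1 - a2 * (c0 - 2)) a2 ..)
    (M1G.congr (M1N.c c0 (a0 - (a1 - a2 * (c0 - 2)) * c0)).good ?_ ?_ ?_ ?_ ?_ ?_ ?_ ?_ ?_) <;>
    ring

theorem type21_d (a2 c0 : ℂ) : M1G (fM1 0 1 0 0 0 0 a2 c0 0) := by
  by_cases h2 : a2 = 0
  · subst h2; exact (M1N.d0 c0).good
  · obtain ⟨k, hk, hk2⟩ := exists_pow_eq 2 (by norm_num) h2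
    refine M1G.of (rel_m1_sc 1 k _ _ _ _ _ _ _ _ _ one_ne_zero hk)
      (M1G.congr (M1N.d1 c0).good ?_ ?_ ?_ ?_ ?_ ?_ ?_ ?_ ?_)
    · ring
    · ring
    · ring
    · ring
    · ring
    · ring
    · rw [← hk2]; field_simp
    · ring
    · ring

theorem type21_1 (a0 a1 a2 c0 c1 : ℂ) : M1G (fM1 0 1 0 0 a0 a1 a2 c0 c1) := by
  by_cases h1 : c1 = 0
  · subst h1
    by_cases h0 : c0 = 0
    · subst h0
      by_cases h3 : a0 = 0
      · subst h3
        refine M1G.of (rel_m1_la 0 (-a1 / 2) ..) (M1G.congr (type21_d a2 0)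
          ?_ ?_ ?_ ?_ ?_ ?_ ?_ ?_ ?_) <;> ring
      · by_cases h2 : a2 = 0
        · subst h2
          refine M1G.of (rel_m1_la 0 (-a1 / 2) ..) (M1G.congr (M1N.e0 a0 h3).good
            ?_ ?_ ?_ ?_ ?_ ?_ ?_ ?_ ?_) <;> ring
        · obtain ⟨k, hk, hk2⟩ := exists_pow_eq 2 (by norm_num) h2
          refine M1G.of (rel_m1_la 0 (-a1 / 2) ..) (M1G.of
            (rel_m1_sc 1 k _ _ _ _ _ _ _ _ _ one_ne_zero hk) (M1G.congr (M1N.e1 a0 h3).good
            ?_ ?_ ?_ ?_ ?_ ?_ ?_ ?_ ?_))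
          · ring
          · ring
          · ring
          · ring
          · ring
          · ring
          · rw [← hk2]; field_simp; ring
          · ring
          · ring
    · by_cases h2 : c0 = 2
      · subst h2
        by_cases h3 : a1 = 0
        · subst h3
          refine M1G.of (rel_m1_la (a0 / 2) 0 ..) (M1G.congr (type21_d a2 2)
            ?_ ?_ ?_ ?_ ?_ ?_ ?_ ?_ ?_) <;> ring
        · refine M1G.of (rel_m1_la (a0 / 2) 0 ..) (M1G.of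
            (rel_m1_sc 1 a1 _ _ _ _ _ _ _ _ _ one_ne_zero h3)
            (M1G.congr (M1N.f (a2 / a1 ^ 2)).good ?_ ?_ ?_ ?_ ?_ ?_ ?_ ?_ ?_))
          · ring
          · ring
          · ring
          · ring
          · ring
          · field_simp; ring
          · ring
          · ring
          · ring
      · have h3 : c0 - 2 ≠ 0 := sub_ne_zero.mpr h2
        refine M1G.of (rel_m1_la (a0 / c0) (a1 / (c0 - 2)) ..) (M1G.congr (type21_d a2 c0)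
          ?_ ?_ ?_ ?_ ?_ ?_ ?_ ?_ ?_)
        · ring
        · ring
        · ring
        · ring
        · field_simp; ring
        · field_simp; ring
        · ring
        · ring
        · ring
  · refine M1G.of (rel_m1_sc 1 c1 _ _ _ _ _ _ _ _ _ one_ne_zero h1)
      (M1G.congr (type21_c1 _ _ _ _) ?_ ?_ ?_ ?_ rfl rfl rfl rfl ?_)
    · ring
    · ring
    · ring
    · ring
    · field_simp

theorem type21 (b1 a0 a1 a2 c0 c1 : ℂ) (hb : b1 ≠ 0) :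
    M1G (fM1 0 b1 0 0 a0 a1 a2 c0 c1) := by
  refine M1G.of (rel_m1_sc (1 / b1) 1 _ _ _ _ _ _ _ _ _ (by simpa using hb) one_ne_zero)
    (M1G.congr (type21_1 _ _ _ _ _) ?_ ?_ ?_ ?_ rfl rfl rfl rfl rfl)
  · ring
  · field_simp
  · ring
  · ring

/-! ### Type `B = Y Z (Y - Z)` -/

theorem type111_a (a0 a1 a2 c0 c1 : ℂ) (h0 : c1 ≠ 0) (h2 : c1 ≠ 2) :
    M1G (fM1 0 (-1) 1 0 a0 a1 a2 c0 c1) := by
  have h3 : c1 - 2 ≠ 0 := sub_ne_zero.mpr h2
  refine M1G.of (rel_m1_la ((a1 - a2 / (c1 - 2) * (c0 + 2)) / c1) (a2 / (c1 - 2)) ..)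
    (M1G.congr (M1N.a c0 c1 (a0 - (a1 - a2 / (c1 - 2) * (c0 + 2)) / c1 * c0) h0 h2).good
      ?_ ?_ ?_ ?_ ?_ ?_ ?_ ?_ ?_)
  · ring
  · ring
  · ring
  · ring
  · ring
  · field_simp; ring
  · field_simp; ring
  · ring
  · ring

theorem type111_b (a0 a1 a2 : ℂ) : M1G (fM1 0 (-1) 1 0 a0 a1 a2 0 0) := by
  refine M1G.of (rel_m1_la 0 (-a2 / 2) ..)
    (M1G.congr (M1N.b a0 (a1 + a2)).good ?_ ?_ ?_ ?_ ?_ ?_ ?_ ?_ ?_) <;> ring

/-- Inversion. -/
theorem type111_inv {a0 a1 a2 c0 c1 : ℂ} (h : M1G (fM1 0 (-1) 1 0 a2 a1 a0 (c1 - 2) (c0 + 2))) :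
    M1G (fM1 0 (-1) 1 0 a0 a1 a2 c0 c1) := by
  refine M1G.of (rel_m1_inv ..) (M1G.congr h ?_ ?_ ?_ ?_ ?_ ?_ ?_ ?_ ?_) <;> ring

/-- The involution `y ↦ 1 - y`. -/
theorem type111_sig {a0 a1 a2 c0 c1 : ℂ}
    (h : M1G (fM1 0 (-1) 1 0 (a0 + a1 + a2) (-a1 - 2 * a2) a2 (-(c0 + c1)) c1)) :
    M1G (fM1 0 (-1) 1 0 a0 a1 a2 c0 c1) := by
  refine M1G.of (rel_m1_sc (-1) (-1) _ _ _ _ _ _ _ _ _ (by norm_num) (by norm_num))
    (M1G.of (rel_m1_tr 1 ..) (M1G.congr h ?_ ?_ ?_ ?_ ?_ ?_ ?_ ?_ ?_)) <;> ring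

theorem type111_1 (a0 a1 a2 c0 c1 : ℂ) : M1G (fM1 0 (-1) 1 0 a0 a1 a2 c0 c1) := by
  by_cases h1 : c1 = 0
  · subst h1
    by_cases h0 : c0 = 0
    · subst h0; exact type111_b _ _ _
    · by_cases h2 : c0 = -2
      · subst h2
        refine type111_sig (type111_inv (type111_a _ _ _ _ _ ?_ ?_)) <;> norm_num
      · refine type111_inv (type111_a _ _ _ _ _ ?_ ?_)
        · intro h; apply h2; linear_combination h
        · intro h; apply h0; linear_combination h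
  · by_cases h3 : c1 = 2
    · subst h3
      by_cases h0 : c0 = 0
      · subst h0
        refine type111_sig (type111_inv ?_)
        refine M1G.congr (type111_b _ _ _) ?_ ?_ ?_ ?_ rfl rfl rfl ?_ ?_ <;> norm_num
      · by_cases h2 : c0 = -2
        · subst h2
          refine type111_inv ?_
          refine M1G.congr (type111_b _ _ _) ?_ ?_ ?_ ?_ rfl rfl rfl ?_ ?_ <;> norm_num
        · refine type111_inv (type111_a _ _ _ _ _ ?_ ?_)
          · intro h; apply h2; linear_combination h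
          · intro h; apply h0; linear_combination h
    · exact type111_a _ _ _ _ _ h1 h3

theorem type111 (b1 b2 a0 a1 a2 c0 c1 : ℂ) (h1 : b1 ≠ 0) (h2 : b2 ≠ 0) :
    M1G (fM1 0 b1 b2 0 a0 a1 a2 c0 c1) := by
  refine M1G.of (rel_m1_sc (-1 / b1) (-b2 / b1) _ _ _ _ _ _ _ _ _
    (div_ne_zero (by norm_num) h1) (div_ne_zero (neg_ne_zero.mpr h2) h1))
    (M1G.congr (type111_1 _ _ _ _ _) ?_ ?_ ?_ ?_ rfl rfl rfl rfl rfl)
  · ring
  · field_simp
  · field_simp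
  · ring

/-! ### Assembly -/

theorem m1_quad (b0 b1 b2 a0 a1 a2 c0 c1 : ℂ) (h : b0 ≠ 0 ∨ b1 ≠ 0 ∨ b2 ≠ 0) :
    M1G (fM1 b0 b1 b2 0 a0 a1 a2 c0 c1) := by
  by_cases h2 : b2 = 0
  · subst h2
    by_cases h1 : b1 = 0
    · subst h1
      refine type3 _ _ _ _ _ _ ?_
      simpa using h
    · refine M1G.of (rel_m1_tr (b0 / b1) ..) (M1G.congr (type21 b1 _ _ _ _ _ h1)
        ?_ ?_ ?_ ?_ rfl rfl rfl rfl rfl)
      · field_simp; ring
      · ring
      · ring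
      · ring
  · obtain ⟨r, hr⟩ := root_quad b0 b1 b2 h2
    by_cases h1 : b1 + 2 * b2 * r = 0
    · have key : ∀ u0 u1 u2 v0 v1 : ℂ, M1G (fM1 0 0 b2 0 u0 u1 u2 v0 v1) := by
        intro u0 u1 u2 v0 v1
        refine M1G.of (rel_m1_inv ..) (M1G.congr (type21 (-b2) _ _ _ _ _ (neg_ne_zero.mpr h2))
          ?_ ?_ ?_ ?_ rfl rfl rfl rfl rfl) <;> ring
      refine M1G.of (rel_m1_tr (-r) ..) (M1G.congr (key _ _ _ _ _)
        ?_ ?_ ?_ ?_ rfl rfl rfl rfl rfl)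
      · linear_combination hr
      · linear_combination h1
      · ring
      · ring
    · refine M1G.of (rel_m1_tr (-r) ..) (M1G.congr (type111 (b1 + 2 * b2 * r) b2 _ _ _ _ _ h1 h2)
        ?_ ?_ ?_ ?_ rfl rfl rfl rfl rfl)
      · linear_combination hr
      · ring
      · ring
      · ring

/-- Every nondegenerate metric of the family `M1` is equivalent to one of the normal forms. -/
theorem m1_sharp (b0 b1 b2 w a0 a1 a2 c0 c1 : ℂ) (h : b0 ≠ 0 ∨ b1 ≠ 0 ∨ b2 ≠ 0 ∨ w ≠ 0) :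
    M1G (fM1 b0 b1 b2 w a0 a1 a2 c0 c1) := by
  by_cases hw : w = 0
  · subst hw
    refine m1_quad _ _ _ _ _ _ _ _ ?_
    simpa using h
  · obtain ⟨r, hr⟩ := root_cubic b0 b1 b2 (w / 2) (div_ne_zero hw two_ne_zero)
    have key : ∀ v1 v2 u0 u1 u2 d0 d1 : ℂ, M1G (fM1 0 v1 v2 w u0 u1 u2 d0 d1) := by
      intro v1 v2 u0 u1 u2 d0 d1
      refine M1G.of (rel_m1_inv ..) (M1G.congr (m1_quad (-(w / 2)) (-v2) (-v1) _ _ _ _ _
        (Or.inl (neg_ne_zero.mpr (div_ne_zero hw two_ne_zero)))) ?_ ?_ ?_ ?_ rfl rfl rfl rfl rfl)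
        <;> ring
    refine M1G.of (rel_m1_tr (-r) ..) (M1G.congr (key _ _ _ _ _ _ _)
      ?_ rfl rfl rfl rfl rfl rfl rfl rfl)
    linear_combination hr

end Pool.Agent.H38.FM
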