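import Pool.Agent.H67.FM.Base

/-!
# Criteria for a parameter to be equivalent to a normal form
-/

noncomputable section

namespace Pool.Agent.H38.FM

open FM67 Matrix

/-- The six identities of the transformation law with matrix `m` and adjugate `k`. -/
def SixId (p q : Par) (m00 m01 m02 m10 m11 m12 m20 m21 m22
    k00 k01 k02 k10 k11 k12 k20 k21 k22 : ℂ) : Prop :=
  ∀ X Y Z X' Y' Z' : ℂ, X' = m00 * X + m01 * Y + m02 * Z → Y' = m10 * X + m11 * Y + m12 * Z →
      Z' = m20 * X + m21 * Y + m22 * Z →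
      hc q X' Y' Z' = k00 * k00 * hc p X Y Z + k10 * k10 * ha p X Y Z + k20 * k20 * hf p X Y Z
          - 2 * (k00 * k10) * hb p X Y Z + 2 * (k00 * k20) * hd p X Y Z
          + 2 * (k10 * k20) * he p X Y Z ∧
      -hb q X' Y' Z' = k00 * k01 * hc p X Y Z + k10 * k11 * ha p X Y Z + k20 * k21 * hf p X Y Z
          - (k00 * k11 + k10 * k01) * hb p X Y Z + (k00 * k21 + k20 * k01) * hd p X Y Z
          + (k10 * k21 + k20 * k11) * he p X Y Z ∧
      ha q X' Y' Z' = k01 * k01 * hc p X Y Z + k11 * k11 * ha p X Y Z + k21 * k21 * hf p X Y Z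
          - 2 * (k01 * k11) * hb p X Y Z + 2 * (k01 * k21) * hd p X Y Z
          + 2 * (k11 * k21) * he p X Y Z ∧
      hd q X' Y' Z' = k00 * k02 * hc p X Y Z + k10 * k12 * ha p X Y Z + k20 * k22 * hf p X Y Z
          - (k00 * k12 + k10 * k02) * hb p X Y Z + (k00 * k22 + k20 * k02) * hd p X Y Z
          + (k10 * k22 + k20 * k12) * he p X Y Z ∧
      he q X' Y' Z' = k01 * k02 * hc p X Y Z + k11 * k12 * ha p X Y Z + k21 * k22 * hf p X Y Z
          - (k01 * k12 + k11 * k02) * hb p X Y Z + (k01 * k22 + k21 * k02) * hd p X Y Z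
          + (k11 * k22 + k21 * k12) * he p X Y Z ∧
      hf q X' Y' Z' = k02 * k02 * hc p X Y Z + k12 * k12 * ha p X Y Z + k22 * k22 * hf p X Y Z
          - 2 * (k02 * k12) * hb p X Y Z + 2 * (k02 * k22) * hd p X Y Z
          + 2 * (k12 * k22) * he p X Y Z

theorem rel_mk {p q : Par} (m00 m01 m02 m10 m11 m12 m20 m21 m22 : ℂ)
    (k00 k01 k02 k10 k11 k12 k20 k21 k22 dd : ℂ)
    (e00 : k00 = m11 * m22 - m12 * m21) (e01 : k01 = -(m01 * m22) + m02 * m21)
    (e02 : k02 = m01 * m12 - m02 * m11)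
    (e10 : k10 = -(m10 * m22) + m12 * m20) (e11 : k11 = m00 * m22 - m02 * m20)
    (e12 : k12 = -(m00 * m12) + m02 * m10)
    (e20 : k20 = m10 * m21 - m11 * m20) (e21 : k21 = -(m00 * m21) + m01 * m20)
    (e22 : k22 = m00 * m11 - m01 * m10)
    (hdd : dd = m00 * k00 + m01 * k10 + m02 * k20) (hd0 : dd ≠ 0)
    (h : SixId p q m00 m01 m02 m10 m11 m12 m20 m21 m22 k00 k01 k02 k10 k11 k12 k20 k21 k22) :
    Rel p q := by
  refine ⟨_, ?_, act_mk m00 m01 m02 m10 m11 m12 m20 m21 m22 k00 k01 k02 k10 k11 k12 k20 k21 k22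
    e00 e01 e02 e10 e11 e12 e20 e21 e22 h⟩
  intro h0
  apply hd0
  rw [hdd, e00, e10, e20, ← h0, Matrix.det_fin_three]
  simp
  ring

theorem good_to {p q : Par} (hq : NF q) (h : Rel p q) : Good p := ⟨q, hq, h⟩

theorem good_from {p q : Par} (hq : NF q) (h : Rel q p) : Good p := ⟨q, hq, h.symm⟩

end Pool.Agent.H38.FM
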