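import Pool.Agent.H38.FM.Bridge
import Pool.Agent.H38.FM.SharpM1
import Pool.Agent.H67.FM.Sharp
import Pool.Agent.H38.FM.List

/-!
# The classification with the sharp list
-/

noncomputable section

namespace Pool.Agent.H38.FlatMet

open Pool.Agent.H38.FM FM67 MvPolynomial

set_option linter.unusedSimpArgs false

/-- The metric of a parameter. -/
def toM (p : Par) : Met := ⟨p.a, p.b, p.c⟩

theorem inFamily_toM (p : Par) : InFamily (toM p) := FlatMetric.inFamily_toMet p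

theorem exists_parM {g : Met} (h : InFamily g) : ∃ p : Par, g = toM p := by
  obtain ⟨p, hp⟩ := FlatMetric.exists_par (g := ⟨g.a, g.b, g.c⟩) h
  refine ⟨p, ?_⟩
  obtain ⟨a, b, c⟩ := g
  simp only [FlatMetric.toMet, FlatMetric.Met.mk.injEq] at hp
  simp only [toM, Met.mk.injEq]
  exact hp

theorem flat_toM (p : Par) : Flat (toM p) ↔ FM67.Flat p.a p.b p.c := Iff.rfl

theorem nondeg_toM (p : Par) : Nondeg (toM p) ↔ p.Nondeg := Iff.rfl

theorem equivalent_toM (p q : Par) : Equivalent (toM p) (toM q) ↔ Rel p q :=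
  (Iff.rfl : Equivalent (toM p) (toM q) ↔ FM67.Equ p q).trans equ_iff_rel

theorem toM_ext {p : Par} {a b c : ℂ → ℂ → ℂ} (ha : ∀ x y, a x y = p.a x y)
    (hb : ∀ x y, b x y = p.b x y) (hc : ∀ x y, c x y = p.c x y) : (⟨a, b, c⟩ : Met) = toM p := by
  simp only [toM, Met.mk.injEq]
  exact ⟨funext fun x => funext fun y => ha x y, funext fun x => funext fun y => hb x y,
    funext fun x => funext fun y => hc x y⟩

/-- `S2` in the simpler form: `a = y + (al + be) x²`, `b = 2 be x y`, `c = 4 be y²`. -/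
def fS2' (al be : ℂ) : Par :=
  { zeroPar with a01 := 1, a20 := al + be, b11 := 2 * be, c02 := 4 * be }

/-- The map `(x, y) ↦ (1 / y, x / y)`. -/
theorem rel_s2 (al be : ℂ) : Rel (fS2 al be) (fS2' al be) := by
  refine rel_mk 0 0 1 1 0 0 0 1 0 0 1 0 0 0 1 1 0 0 1
    (by ring) (by ring) (by ring) (by ring) (by ring) (by ring) (by ring) (by ring) (by ring)
    (by ring) one_ne_zero ?_
  intro X Y Z X' Y' Z' hX hY hZ
  subst hX; subst hY; subst hZ
  refine ⟨?_, ?_, ?_, ?_, ?_, ?_⟩ <;>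
    simp only [ha, hb, hc, hd, he, hf, fS2, fS2', zeroPar] <;> ring

theorem rel_const : Rel (fM1 1 0 0 0 0 0 0 0 0) (fSEP 1 0 0 1 0 0) := by
  have hi : Complex.I ^ 2 = -1 := Complex.I_sq
  refine rel_mk 1 (1 / 2) 0 Complex.I (-Complex.I / 2) 0 0 0 1 (-Complex.I / 2) (-1 / 2) 0
    (-Complex.I) 1 0 0 0 (-Complex.I) (-Complex.I)
    (by ring) (by ring) (by ring) (by ring) (by ring) (by ring) (by ring) (by ring) (by ring)
    (by ring) (neg_ne_zero.mpr Complex.I_ne_zero) ?_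
  intro X Y Z X' Y' Z' hX hY hZ
  subst hX; subst hY; subst hZ
  refine ⟨?_, ?_, ?_, ?_, ?_, ?_⟩ <;>
    simp only [ha, hb, hc, hd, he, hf, fM1, fSEP, zeroPar]
  · linear_combination (Z ^ 4) * hi
  · ring
  · ring
  · linear_combination (-(X + 1 / 2 * Y) * Z ^ 3) * hi
  · ring
  · linear_combination ((X + 1 / 2 * Y) ^ 2 * Z ^ 2) * hi

theorem rel_tu_m6 {be : ℂ} (h : be ≠ 0) : Rel (fTU 0 be 1) (fM1 0 1 0 0 (1 / be ^ 2) 0 0 0 0) := by
  refine rel_mk 0 (1 / be) 0 1 0 0 0 0 1 0 (-1 / be) 0 (-1) 0 0 0 0 (-1 / be) (-1 / be)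
    (by ring) (by ring) (by ring) (by ring) (by ring) (by ring) (by ring) (by ring) (by ring)
    (by ring) (div_ne_zero (by norm_num) h) ?_
  intro X Y Z X' Y' Z' hX hY hZ
  subst hX; subst hY; subst hZ
  refine ⟨?_, ?_, ?_, ?_, ?_, ?_⟩ <;>
    simp only [ha, hb, hc, hd, he, hf, fM1, fTU, zeroPar] <;>
    first | ring1 | (field_simp; ring1)

theorem rel_tu_m4 : Rel (fTU 0 1 0) (fM1 0 1 0 0 0 0 0 0 0) := by
  refine rel_mk 0 1 0 1 0 0 0 0 1 0 (-1) 0 (-1) 0 0 0 0 (-1) (-1)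
    (by ring) (by ring) (by ring) (by ring) (by ring) (by ring) (by ring) (by ring) (by ring)
    (by ring) (by norm_num) ?_
  intro X Y Z X' Y' Z' hX hY hZ
  subst hX; subst hY; subst hZ
  refine ⟨?_, ?_, ?_, ?_, ?_, ?_⟩ <;>
    simp only [ha, hb, hc, hd, he, hf, fM1, fTU, zeroPar] <;> ring1

theorem rel_bc1 : Rel (fBC 1 0 0 0 0) (fF8 (-1 / 2)) := by
  obtain ⟨s, hs0, hs⟩ := exists_pow_eq 2 (by norm_num) (show (1 / 2 : ℂ) ≠ 0 by norm_num)
  refine rel_mk s 0 0 0 (-1 / 2) 0 0 0 1 (-1 / 2) 0 0 0 s 0 0 0 (-s / 2) (-s / 2)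
    (by ring) (by ring) (by ring) (by ring) (by ring) (by ring) (by ring) (by ring) (by ring)
    (by ring) (by simpa using hs0) ?_
  intro X Y Z X' Y' Z' hX hY hZ
  subst hX; subst hY; subst hZ
  refine ⟨?_, ?_, ?_, ?_, ?_, ?_⟩ <;>
    simp only [ha, hb, hc, hd, he, hf, fBC, fF8, zeroPar]
  · linear_combination (1 / 2 * X ^ 2 * Z ^ 2) * hs
  · ring
  · linear_combination (-2 * Z ^ 4) * hs
  · linear_combination (-(1 / 2) * s * X ^ 3 * Z) * hs
  · linear_combination (-(Y * Z ^ 3)) * hs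
  · linear_combination ((s ^ 2 * X ^ 4 - Y ^ 2 * Z ^ 2) / 2) * hs

theorem rel_bcd {k : ℂ} (hk : k ≠ 0) : Rel (fBC 0 0 k 0 0) (fS2' (k / 2) (k / 2)) := by
  refine rel_mk 1 0 0 0 (-2 * k) 0 0 0 1 (-2 * k) 0 0 0 1 0 0 0 (-2 * k) (-2 * k)
    (by ring) (by ring) (by ring) (by ring) (by ring) (by ring) (by ring) (by ring) (by ring)
    (by ring) (mul_ne_zero (by norm_num) hk) ?_
  intro X Y Z X' Y' Z' hX hY hZ
  subst hX; subst hY; subst hZ
  refine ⟨?_, ?_, ?_, ?_, ?_, ?_⟩ <;>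
    simp only [ha, hb, hc, hd, he, hf, fBC, fS2', zeroPar] <;> ring1

/-! ### The metrics on the list as parameters -/

theorem met_sep (f0 f1 f2 g0 g1 g2 : ℂ) :
    (⟨fun x _ => f0 + f1 * x + f2 * x ^ 2, fun _ _ => 0,
      fun _ y => g0 + g1 * y + g2 * y ^ 2⟩ : Met) = toM (fSEP f0 f1 f2 g0 g1 g2) := by
  apply toM_ext <;> intro x y <;>
    simp only [fSEP, zeroPar, Par.a, Par.b, Par.c, Par.U, Par.V, Par.Q] <;> ring

theorem met_tor (al be ga : ℂ) :
    (⟨fun x _ => al * x ^ 2, fun x y => be * x * y, fun _ y => ga * y ^ 2⟩ : Met)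
      = toM (fTOR al be ga) := by
  apply toM_ext <;> intro x y <;>
    simp only [fTOR, zeroPar, Par.a, Par.b, Par.c, Par.U, Par.V, Par.Q] <;> ring

theorem met_tu (al be ga : ℂ) :
    (⟨fun x _ => al * x ^ 2, fun x _ => be * x, fun _ _ => ga⟩ : Met)
      = toM (fTU al be ga) := by
  apply toM_ext <;> intro x y <;>
    simp only [fTU, zeroPar, Par.a, Par.b, Par.c, Par.U, Par.V, Par.Q] <;> ring

theorem met_tu0 (al : ℂ) :
    (⟨fun x _ => al * x ^ 2, fun x _ => x, fun _ _ => 0⟩ : Met) = toM (fTU al 1 0) := by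
  apply toM_ext <;> intro x y <;>
    simp only [fTU, zeroPar, Par.a, Par.b, Par.c, Par.U, Par.V, Par.Q] <;> ring

theorem met_u2 (ga : ℂ) :
    (⟨fun _ _ => 1, fun x _ => x, fun x _ => x ^ 2 + ga⟩ : Met) = toM (fU2 ga) := by
  apply toM_ext <;> intro x y <;>
    simp only [fU2, zeroPar, Par.a, Par.b, Par.c, Par.U, Par.V, Par.Q] <;> ring

theorem met_f8 (m : ℂ) :
    (⟨fun _ _ => 1, fun x _ => m * x, fun x y => (m ^ 2 - m / 2) * x ^ 2 + y⟩ : Met)
      = toM (fF8 m) := by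
  apply toM_ext <;> intro x y <;>
    simp only [fF8, zeroPar, Par.a, Par.b, Par.c, Par.U, Par.V, Par.Q] <;> ring

theorem met_s2 (al be : ℂ) :
    (⟨fun x y => y + (al + be) * x ^ 2, fun x y => 2 * be * x * y, fun _ y => 4 * be * y ^ 2⟩ : Met)
      = toM (fS2' al be) := by
  apply toM_ext <;> intro x y <;>
    simp only [fS2', zeroPar, Par.a, Par.b, Par.c, Par.U, Par.V, Par.Q] <;> ring

theorem met_bc (k l : ℂ) :
    (⟨fun x y => k * (l * x - (1 + l) * (x ^ 2 - 2 * y) + x ^ 3 - 3 * x * y),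
      fun x y => k * y * (2 * l - (1 + l) * x + x ^ 2 - 2 * y),
      fun x y => k * y * (l * x - 2 * (1 + l) * y + x * y)⟩ : Met)
      = toM (fBC 0 (k * l) (-(k * (1 + l))) k 0) := by
  apply toM_ext <;> intro x y <;>
    simp only [fBC, zeroPar, Par.a, Par.b, Par.c, Par.U, Par.V, Par.Q] <;> ring

theorem met_bc3 (k : ℂ) :
    (⟨fun x y => k * (x ^ 2 - 2 * y - x), fun x y => k * (x * y - 2 * y),
      fun x y => k * (2 * y ^ 2 - x * y)⟩ : Met) = toM (fBC 0 (-k) k 0 0) := by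
  apply toM_ext <;> intro x y <;>
    simp only [fBC, zeroPar, Par.a, Par.b, Par.c, Par.U, Par.V, Par.Q] <;> ring

theorem met_bc2 :
    (⟨fun x _ => x, fun _ y => 2 * y, fun x y => x * y⟩ : Met) = toM (fBC 0 1 0 0 0) := by
  apply toM_ext <;> intro x y <;>
    simp only [fBC, zeroPar, Par.a, Par.b, Par.c, Par.U, Par.V, Par.Q] <;> ring

theorem met_a2 (r s : ℂ) :
    (⟨fun x y => x + r * y ^ 2 - 3 * r * x ^ 3 + s * x * y ^ 2 - s * x ^ 4 + r ^ 2 * x ^ 2 * y ^ 2,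
      fun x y => 3 / 2 * y - 7 / 2 * r * x ^ 2 * y + s / 2 * y ^ 3 - s * x ^ 3 * y
        + r ^ 2 * x * y ^ 3,
      fun x y => x ^ 2 - 4 * r * x * y ^ 2 - s * x ^ 2 * y ^ 2 + r ^ 2 * y ^ 4⟩ : Met)
      = toM (fA2 r s) := by
  apply toM_ext <;> intro x y <;>
    simp only [fA2, zeroPar, Par.a, Par.b, Par.c, Par.U, Par.V, Par.Q] <;> ring

theorem met_rs (e : ℂ) :
    (⟨fun x _ => x, fun x y => y - x ^ 2 / 4, fun x y => -x * (y + e)⟩ : Met)
      = toM (fRS e) := by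
  apply toM_ext <;> intro x y <;>
    simp only [fRS, zeroPar, Par.a, Par.b, Par.c, Par.U, Par.V, Par.Q] <;> ring

theorem met_null {a : ℂ → ℂ → ℂ} {b : ℂ → ℂ} (h : NullForm a b) :
    ∃ b0 b1 b2 a0 a1 a2 c0 c1 : ℂ, (b0 ≠ 0 ∨ b1 ≠ 0 ∨ b2 ≠ 0) ∧
      (⟨a, fun _ y => b y, fun _ _ => 0⟩ : Met) = toM (fM1 b0 b1 b2 0 a0 a1 a2 c0 c1) := by
  have key : ∀ {b0 b1 b2 a0 a1 a2 c0 c1 : ℂ}, (b0 ≠ 0 ∨ b1 ≠ 0 ∨ b2 ≠ 0) →
      (∀ x y, a x y = a0 + a1 * y + a2 * y ^ 2 + x * (c0 + c1 * y)) →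
      (∀ y, b y = b0 + b1 * y + b2 * y ^ 2) →
      ∃ b0 b1 b2 a0 a1 a2 c0 c1 : ℂ, (b0 ≠ 0 ∨ b1 ≠ 0 ∨ b2 ≠ 0) ∧
      (⟨a, fun _ y => b y, fun _ _ => 0⟩ : Met) = toM (fM1 b0 b1 b2 0 a0 a1 a2 c0 c1) := by
    intro b0 b1 b2 a0 a1 a2 c0 c1 h0 h1 h2
    refine ⟨b0, b1, b2, a0, a1, a2, c0, c1, h0, toM_ext (fun x y => ?_) (fun x y => ?_)
      (fun x y => ?_)⟩
    · rw [h1]; simp only [fM1, zeroPar, Par.a, Par.b, Par.c, Par.U, Par.V, Par.Q]; ring
    · rw [h2]; simp only [fM1, zeroPar, Par.a, Par.b, Par.c, Par.U, Par.V, Par.Q]; ring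
    · simp only [fM1, zeroPar, Par.a, Par.b, Par.c, Par.U, Par.V, Par.Q]; ring
  cases h with
  | m1 c d e h0 h2 =>
    exact key (b0 := 0) (b1 := -1) (b2 := 1) (a0 := c) (a1 := 0) (a2 := 0) (c0 := d) (c1 := e)
      (by simp) (fun x y => by ring) (fun y => by ring)
  | m2 c d =>
    exact key (b0 := 0) (b1 := -1) (b2 := 1) (a0 := c) (a1 := d) (a2 := 0) (c0 := 0) (c1 := 0)
      (by simp) (fun x y => by ring) (fun y => by ring)
  | m3 c d =>
    exact key (b0 := 0) (b1 := 1) (b2 := 0) (a0 := c) (a1 := 0) (a2 := 0) (c0 := d) (c1 := 1)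
      (by simp) (fun x y => by ring) (fun y => by ring)
  | m4 d =>
    exact key (b0 := 0) (b1 := 1) (b2 := 0) (a0 := 0) (a1 := 0) (a2 := 0) (c0 := d) (c1 := 0)
      (by simp) (fun x y => by ring) (fun y => by ring)
  | m5 d =>
    exact key (b0 := 0) (b1 := 1) (b2 := 0) (a0 := 0) (a1 := 0) (a2 := 1) (c0 := d) (c1 := 0)
      (by simp) (fun x y => by ring) (fun y => by ring)
  | m6 c h =>
    exact key (b0 := 0) (b1 := 1) (b2 := 0) (a0 := c) (a1 := 0) (a2 := 0) (c0 := 0) (c1 := 0)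
      (by simp) (fun x y => by ring) (fun y => by ring)
  | m7 c h =>
    exact key (b0 := 0) (b1 := 1) (b2 := 0) (a0 := c) (a1 := 0) (a2 := 1) (c0 := 0) (c1 := 0)
      (by simp) (fun x y => by ring) (fun y => by ring)
  | m8 c =>
    exact key (b0 := 0) (b1 := 1) (b2 := 0) (a0 := 0) (a1 := 1) (a2 := c) (c0 := 2) (c1 := 0)
      (by simp) (fun x y => by ring) (fun y => by ring)
  | m9 c =>
    exact key (b0 := 1) (b1 := 0) (b2 := 0) (a0 := c) (a1 := 0) (a2 := 0) (c0 := 0) (c1 := 1)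
      (by simp) (fun x y => by ring) (fun y => by ring)
  | m10 c =>
    exact key (b0 := 1) (b1 := 0) (b2 := 0) (a0 := 0) (a1 := 0) (a2 := c) (c0 := 1) (c1 := 0)
      (by simp) (fun x y => by ring) (fun y => by ring)
  | m11 =>
    exact key (b0 := 1) (b1 := 0) (b2 := 0) (a0 := 0) (a1 := 1) (a2 := 0) (c0 := 0) (c1 := 0)
      (by simp) (fun x y => by ring) (fun y => by ring)
  | m12 =>
    exact key (b0 := 1) (b1 := 0) (b2 := 0) (a0 := 0) (a1 := 0) (a2 := 1) (c0 := 0) (c1 := 0)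
      (by simp) (fun x y => by ring) (fun y => by ring)

theorem quadForm_coeff {f : ℂ → ℂ} (h : QuadForm f) :
    ∃ f0 f1 f2 : ℂ, (f0 ≠ 0 ∨ f1 ≠ 0 ∨ f2 ≠ 0) ∧ f = fun t => f0 + f1 * t + f2 * t ^ 2 := by
  cases h with
  | one => exact ⟨1, 0, 0, by simp, funext fun t => by ring⟩
  | lin => exact ⟨0, 1, 0, by simp, funext fun t => by ring⟩
  | dbl k hk => exact ⟨0, 0, k, by simp [hk], funext fun t => by ring⟩
  | two k hk => exact ⟨0, -k, k, by simp [hk], funext fun t => by ring⟩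

theorem quadForm_of {f0 f1 f2 : ℂ} (h : QuadNF f0 f1 f2) :
    QuadForm fun t => f0 + f1 * t + f2 * t ^ 2 := by
  cases h with
  | two k hk =>
    have e : (fun t : ℂ => (0 : ℂ) + -f2 * t + f2 * t ^ 2) = fun t => f2 * t * (t - 1) :=
      funext fun t => by ring
    rw [e]; exact QuadForm.two f2 hk
  | dbl k hk =>
    have e : (fun t : ℂ => (0 : ℂ) + 0 * t + f2 * t ^ 2) = fun t => f2 * t ^ 2 :=
      funext fun t => by ring
    rw [e]; exact QuadForm.dbl f2 hk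
  | lin =>
    have e : (fun t : ℂ => (0 : ℂ) + 1 * t + 0 * t ^ 2) = fun t => t :=
      funext fun t => by ring
    rw [e]; exact QuadForm.lin
  | one =>
    have e : (fun t : ℂ => (1 : ℂ) + 0 * t + 0 * t ^ 2) = fun _ => 1 :=
      funext fun t => by ring
    rw [e]; exact QuadForm.one

/-- Everything on the list is the metric of a nondegenerate flat parameter. -/
theorem normalForm_par {h : Met} (hh : NormalForm h) :
    ∃ q : Par, h = toM q ∧ q.Nondeg ∧ FM67.Flat q.a q.b q.c := by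
  have key : ∀ {q : Par}, Normal q → h = toM q →
      ∃ q : Par, h = toM q ∧ q.Nondeg ∧ FM67.Flat q.a q.b q.c := fun {q} hq e =>
    ⟨q, e, normal_nondeg hq, normal_flat hq⟩
  cases hh with
  | sep hf hg =>
    obtain ⟨f0, f1, f2, hf0, rfl⟩ := quadForm_coeff hf
    obtain ⟨g0, g1, g2, hg0, rfl⟩ := quadForm_coeff hg
    exact key (Normal.sep f0 f1 f2 g0 g1 g2 hf0 hg0) (met_sep ..)
  | tor al be ga h0 h => exact key (Normal.tor al be ga h) (met_tor ..)
  | tu al be ha hb h =>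
    exact key (Normal.tu al be 1 (by rw [mul_one]; exact h)) (met_tu ..)
  | tu0 al ha => exact key (Normal.tu al 1 0 (by simp)) (met_tu0 ..)
  | u2 ga h => exact key (Normal.u2 ga h) (met_u2 ..)
  | f8 m h => exact key (Normal.f8 m) (met_f8 ..)
  | s2 al be h =>
    have h1 := Normal.s2 al be h
    obtain ⟨M, hM, hact⟩ := rel_s2 al be
    exact ⟨fS2' al be, met_s2 .., nondeg_of_Act hM hact (normal_nondeg h1),
      flatP_of_Act hM hact (normal_nondeg h1) (normal_flat h1)⟩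
  | bc k l hk h0 h1 =>
    exact key (Normal.bc 0 (k * l) (-(k * (1 + l))) k 0 (by simp [hk])) (met_bc ..)
  | bc3 k hk => exact key (Normal.bc 0 (-k) k 0 0 (by simp [hk])) (met_bc3 ..)
  | bc2 => exact key (Normal.bc 0 1 0 0 0 (by simp)) met_bc2
  | a2 r s => exact key (Normal.a2 r s) (met_a2 ..)
  | rs e => exact key (Normal.rs e) (met_rs ..)
  | null h =>
    obtain ⟨b0, b1, b2, a0, a1, a2, c0, c1, hb, e⟩ := met_null h
    exact key (Normal.m1 b0 b1 b2 0 a0 a1 a2 c0 c1 (by tauto)) e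

/-! ### Every normal form of the coarse list is equivalent to one on the sharp list -/

/-- Equivalent to a metric on the sharp list. -/
def Hit (p : Par) : Prop := ∃ q : Par, NormalForm (toM q) ∧ Rel p q

theorem Hit.of {p q : Par} (h : Rel p q) (hq : Hit q) : Hit p := by
  obtain ⟨r, hr, h2⟩ := hq
  exact ⟨r, hr, h.trans h2⟩

theorem Hit.mk {p : Par} {h : Met} (hn : NormalForm h) (e : h = toM p) : Hit p :=
  ⟨p, e ▸ hn, Rel.refl p⟩

theorem hit_null {b0 b1 b2 a0 a1 a2 c0 c1 : ℂ} {a : ℂ → ℂ → ℂ} {b : ℂ → ℂ} (h : NullForm a b)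
    (h1 : ∀ x y, a x y = a0 + a1 * y + a2 * y ^ 2 + x * (c0 + c1 * y))
    (h2 : ∀ y, b y = b0 + b1 * y + b2 * y ^ 2) : Hit (fM1 b0 b1 b2 0 a0 a1 a2 c0 c1) := by
  refine Hit.mk (NormalForm.null h) (toM_ext (fun x y => ?_) (fun x y => ?_) (fun x y => ?_))
  · rw [h1]; simp only [fM1, zeroPar, Par.a, Par.b, Par.c, Par.U, Par.V, Par.Q]; ring
  · rw [h2]; simp only [fM1, zeroPar, Par.a, Par.b, Par.c, Par.U, Par.V, Par.Q]; ring
  · simp only [fM1, zeroPar, Par.a, Par.b, Par.c, Par.U, Par.V, Par.Q]; ring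

theorem hit_sep {f0 f1 f2 g0 g1 g2 : ℂ} (hf : QuadNF f0 f1 f2) (hg : QuadNF g0 g1 g2) :
    Hit (fSEP f0 f1 f2 g0 g1 g2) :=
  Hit.mk (NormalForm.sep (quadForm_of hf) (quadForm_of hg)) (met_sep ..)

theorem hit_m1N {q : Par} (h : M1N q) : Hit q := by
  cases h with
  | a c0 c1 ga h0 h2 =>
    exact hit_null (NullForm.m1 ga c0 c1 h0 h2) (fun x y => by ring) (fun y => by ring)
  | b al be => exact hit_null (NullForm.m2 al be) (fun x y => by ring) (fun y => by ring)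
  | c c0 ga => exact hit_null (NullForm.m3 ga c0) (fun x y => by ring) (fun y => by ring)
  | d0 c0 => exact hit_null (NullForm.m4 c0) (fun x y => by ring) (fun y => by ring)
  | d1 c0 => exact hit_null (NullForm.m5 c0) (fun x y => by ring) (fun y => by ring)
  | e0 ga h => exact hit_null (NullForm.m6 ga h) (fun x y => by ring) (fun y => by ring)
  | e1 ga h => exact hit_null (NullForm.m7 ga h) (fun x y => by ring) (fun y => by ring)
  | f ga => exact hit_null (NullForm.m8 ga) (fun x y => by ring) (fun y => by ring)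
  | g ga => exact hit_null (NullForm.m9 ga) (fun x y => by ring) (fun y => by ring)
  | h ga => exact hit_null (NullForm.m10 ga) (fun x y => by ring) (fun y => by ring)
  | i0 => exact Hit.of rel_const (hit_sep QuadNF.one QuadNF.one)
  | i1 => exact hit_null NullForm.m11 (fun x y => by ring) (fun y => by ring)
  | i2 => exact hit_null NullForm.m12 (fun x y => by ring) (fun y => by ring)

theorem hit_tu1 {al be : ℂ} (h : al ≠ be ^ 2) : Hit (fTU al be 1) := by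
  by_cases hb : be = 0
  · subst hb
    have ha : al ≠ 0 := by simpa using h
    have e : fTU al 0 1 = fSEP 0 0 al 1 0 0 := rfl
    rw [e]
    exact hit_sep (QuadNF.dbl al ha) QuadNF.one
  · by_cases ha : al = 0
    · subst ha
      exact Hit.of (rel_tu_m6 hb) (hit_m1N (M1N.e0 _ (div_ne_zero one_ne_zero (pow_ne_zero 2 hb))))
    · exact Hit.mk (NormalForm.tu al be ha hb h) (met_tu ..)

theorem hit_tu0 (al : ℂ) : Hit (fTU al 1 0) := by
  by_cases ha : al = 0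
  · subst ha
    exact Hit.of rel_tu_m4 (hit_m1N (M1N.d0 0))
  · exact Hit.mk (NormalForm.tu0 al ha) (met_tu0 ..)

theorem hit_f8 (m : ℂ) : Hit (fF8 m) := by
  by_cases hm : m = 0
  · subst hm
    have e : fF8 0 = fSEP 1 0 0 0 1 0 := by simp [fF8, fSEP, zeroPar]
    rw [e]
    exact hit_sep QuadNF.one QuadNF.lin
  · exact Hit.mk (NormalForm.f8 m hm) (met_f8 m)

theorem hit_s2' {al be : ℂ} (h : be ≠ 0) : Hit (fS2' al be) :=
  Hit.mk (NormalForm.s2 al be h) (met_s2 ..)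

theorem hit_bc {p0 p1 p2 p3 p4 : ℂ} (h : QuartNF p0 p1 p2 p3 p4) : Hit (fBC p0 p1 p2 p3 p4) := by
  cases h with
  | four k m hk h0 h1 => exact Hit.mk (NormalForm.bc p3 m hk h0 h1) (met_bc ..)
  | quad h =>
    cases h with
    | two k hk => exact Hit.mk (NormalForm.bc3 p2 hk) (met_bc3 p2)
    | dbl k hk => exact Hit.of (rel_bcd hk) (hit_s2' (div_ne_zero hk two_ne_zero))
    | lin => exact Hit.mk NormalForm.bc2 met_bc2
    | one => exact Hit.of rel_bc1 (hit_f8 _)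

theorem hit_normal {q : Par} (h : Normal q) : Hit q := by
  cases h with
  | m1 b0 b1 b2 w a0 a1 a2 c0 c1 h =>
    obtain ⟨r, hr, hrel⟩ := m1_sharp b0 b1 b2 w a0 a1 a2 c0 c1 h
    exact Hit.of hrel (hit_m1N hr)
  | sep f0 f1 f2 g0 g1 g2 hf hg =>
    obtain ⟨a0, a1, a2, c0, c1, c2, h1, h2, h3⟩ := sharp_sep hf hg
    exact Hit.of h3 (hit_sep h1 h2)
  | tor al be ga h =>
    by_cases hb : be = 0
    · subst hb
      have h0 : al * ga ≠ 0 := by simpa using h
      have e : fTOR al 0 ga = fSEP 0 0 al 0 0 ga := rfl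
      rw [e]
      exact hit_sep (QuadNF.dbl al (left_ne_zero_of_mul h0)) (QuadNF.dbl ga
        (right_ne_zero_of_mul h0))
    · exact Hit.mk (NormalForm.tor al be ga hb h) (met_tor ..)
  | tu al be ga h =>
    rcases sharp_tu h with ⟨be', h1, h2⟩ | h2
    · exact Hit.of h2 (hit_tu1 h1)
    · exact Hit.of h2 (hit_tu0 al)
  | u2 ga h => exact Hit.mk (NormalForm.u2 ga h) (met_u2 ga)
  | s2 al be h => exact Hit.of (rel_s2 al be) (hit_s2' h)
  | bc p0 p1 p2 p3 p4 h =>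
    obtain ⟨q0, q1, q2, q3, q4, h1, h2⟩ := sharp_bc h
    exact Hit.of h2 (hit_bc h1)
  | f8 m => exact hit_f8 m
  | a2 A U => exact Hit.mk (NormalForm.a2 A U) (met_a2 ..)
  | rs ep => exact Hit.mk (NormalForm.rs ep) (met_rs ep)

/-- The classification with the sharp list. -/
theorem classification :
    (∀ h : Met, NormalForm h → InFamily h ∧ Nondeg h ∧ Flat h) ∧
      ∀ g : Met, InFamily g → Nondeg g →
        (Flat g ↔ ∃ h : Met, NormalForm h ∧ Equivalent g h) := by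
  refine ⟨fun h hh => ?_, fun g hg hn => ?_⟩
  · obtain ⟨q, rfl, h1, h2⟩ := normalForm_par hh
    exact ⟨inFamily_toM q, h1, h2⟩
  · obtain ⟨p, rfl⟩ := exists_parM hg
    constructor
    · intro hf
      obtain ⟨q, hq, he⟩ := (main.2 p hn).mp hf
      obtain ⟨r, hr, hrel⟩ := hit_normal hq
      exact ⟨toM r, hr, (equivalent_toM p r).mpr ((equ_iff_rel.mp he).trans hrel)⟩
    · rintro ⟨h, hh, he⟩
      obtain ⟨q, rfl, h1, h2⟩ := normalForm_par hh
      obtain ⟨M, hM, hact⟩ := ((equivalent_toM p q).mp he).symm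
      exact flatP_of_Act hM hact h1 h2

end Pool.Agent.H38.FlatMet
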