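import Mathlib

/-!
# Flat metrics in the two-variable quasi-exactly solvable family: definitions

All definitions needed to state the classification; everything is literal.
-/

noncomputable section

namespace Pool.Agent.H38.FlatMetric

/-- A contravariant metric in two variables: `g^{11} = a`, `g^{12} = g^{21} = b`, `g^{22} = c`. -/
structure Met where
  (a b c : ℂ → ℂ → ℂ)

/-- The family of the problem: `a = x² Q + x U + A`, `b = x y Q + (y U + x V) / 2 + B`,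
`c = y² Q + y V + C`, with quadratic forms `Q, U, V` and polynomials `A, B, C` of degree `≤ 2`. -/
def InFamily (g : Met) : Prop :=
  ∃ (q1 q2 q3 z1 z2 z3 z4 z5 z6 : ℂ) (A B C : MvPolynomial (Fin 2) ℂ),
    A.totalDegree ≤ 2 ∧ B.totalDegree ≤ 2 ∧ C.totalDegree ≤ 2 ∧
    ∀ x y : ℂ,
      g.a x y = x ^ 2 * (q1 * x ^ 2 + q2 * x * y + q3 * y ^ 2)
          + x * (z1 * x ^ 2 + z2 * x * y + z3 * y ^ 2) + MvPolynomial.eval ![x, y] A ∧
      g.b x y = x * y * (q1 * x ^ 2 + q2 * x * y + q3 * y ^ 2)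
          + 1 / 2 * (y * (z1 * x ^ 2 + z2 * x * y + z3 * y ^ 2)
            + x * (z4 * x ^ 2 + z5 * x * y + z6 * y ^ 2)) + MvPolynomial.eval ![x, y] B ∧
      g.c x y = y ^ 2 * (q1 * x ^ 2 + q2 * x * y + q3 * y ^ 2)
          + y * (z4 * x ^ 2 + z5 * x * y + z6 * y ^ 2) + MvPolynomial.eval ![x, y] C

/-- The determinant `D = a c - b²` is not identically zero. -/
def Nondeg (g : Met) : Prop := ∃ x y : ℂ, g.a x y * g.c x y - g.b x y ^ 2 ≠ 0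

/-- The matrix `(g^{kl})` at a point. -/
def Met.up (g : Met) (x y : ℂ) : Matrix (Fin 2) (Fin 2) ℂ := !![g.a x y, g.b x y; g.b x y, g.c x y]

/-- The matrix `(g_{kl})`, the inverse of `(g^{kl})`. -/
def Met.lo (g : Met) (x y : ℂ) : Matrix (Fin 2) (Fin 2) ℂ := (g.up x y)⁻¹

/-- Partial derivative in the `k`-th variable. -/
def pd (k : Fin 2) (F : ℂ → ℂ → ℂ) (x y : ℂ) : ℂ :=
  if k = 0 then deriv (fun t => F t y) x else deriv (fun t => F x t) y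

/-- Christoffel symbols of the Levi-Civita connection,
`Γ^k_{ij} = 1/2 ∑_l g^{kl} (∂_i g_{jl} + ∂_j g_{il} - ∂_l g_{ij})`. -/
def Met.Gam (g : Met) (k i j : Fin 2) (x y : ℂ) : ℂ :=
  1 / 2 * ∑ l, g.up x y k l *
    (pd i (fun x y => g.lo x y j l) x y + pd j (fun x y => g.lo x y i l) x y
      - pd l (fun x y => g.lo x y i j) x y)

/-- The Riemann tensor
`R^l_{kij} = ∂_i Γ^l_{jk} - ∂_j Γ^l_{ik} + ∑_m (Γ^l_{im} Γ^m_{jk} - Γ^l_{jm} Γ^m_{ik})`. -/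
def Met.Riem (g : Met) (l k i j : Fin 2) (x y : ℂ) : ℂ :=
  pd i (g.Gam l j k) x y - pd j (g.Gam l i k) x y
    + ∑ m, (g.Gam l i m x y * g.Gam m j k x y - g.Gam l j m x y * g.Gam m i k x y)

/-- The metric is flat: its Riemann tensor vanishes at all points where it is nondegenerate. -/
def Flat (g : Met) : Prop :=
  ∀ x y : ℂ, g.a x y * g.c x y - g.b x y ^ 2 ≠ 0 → ∀ l k i j, g.Riem l k i j x y = 0

/-- The components `x̃` (`i = 0`) and `ỹ` (`i = 1`) of the projective change of coordinates with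
matrix `M`, whose rows are `(α₁, α₂, α₃)`, `(β₁, β₂, β₃)`, `(γ₁, γ₂, γ₃)`. -/
def proj (M : Matrix (Fin 3) (Fin 3) ℂ) (i : Fin 2) (x y : ℂ) : ℂ :=
  (M i.castSucc 0 * x + M i.castSucc 1 * y + M i.castSucc 2) / (M 2 0 * x + M 2 1 * y + M 2 2)

/-- Equivalence: some projective change of coordinates carries `g` to `h`, the metrics being
transformed as contravariant symmetric 2-tensors. -/
def Equivalent (g h : Met) : Prop :=
  ∃ M : Matrix (Fin 3) (Fin 3) ℂ, M.det ≠ 0 ∧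
    ∀ x y : ℂ, M 2 0 * x + M 2 1 * y + M 2 2 ≠ 0 → ∀ i j : Fin 2,
      h.up (proj M 0 x y) (proj M 1 x y) i j
        = ∑ k, ∑ l, pd k (proj M i) x y * pd l (proj M j) x y * g.up x y k l

/-- The list of normal forms: ten families. -/
inductive NormalForm : Met → Prop
  | m1 (b0 b1 b2 b3 a0 a1 a2 c0 c1 : ℂ) (h : b0 ≠ 0 ∨ b1 ≠ 0 ∨ b2 ≠ 0 ∨ b3 ≠ 0) :
      NormalForm
        ⟨fun x y => a0 + a1 * y + a2 * y ^ 2 + x * (c0 + c1 * y + 2 * b3 * y ^ 2),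
         fun _ y => b0 + b1 * y + b2 * y ^ 2 + b3 * y ^ 3,
         fun _ _ => 0⟩
  | sep (f0 f1 f2 g0 g1 g2 : ℂ) (hf : f0 ≠ 0 ∨ f1 ≠ 0 ∨ f2 ≠ 0) (hg : g0 ≠ 0 ∨ g1 ≠ 0 ∨ g2 ≠ 0) :
      NormalForm
        ⟨fun x _ => f0 + f1 * x + f2 * x ^ 2, fun _ _ => 0, fun _ y => g0 + g1 * y + g2 * y ^ 2⟩
  | tor (al be ga : ℂ) (h : al * ga ≠ be ^ 2) :
      NormalForm ⟨fun x _ => al * x ^ 2, fun x y => be * x * y, fun _ y => ga * y ^ 2⟩
  | tu (al be ga : ℂ) (h : al * ga ≠ be ^ 2) :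
      NormalForm ⟨fun x _ => al * x ^ 2, fun x _ => be * x, fun _ _ => ga⟩
  | u2 (ga : ℂ) (h : ga ≠ 0) :
      NormalForm ⟨fun _ _ => 1, fun x _ => x, fun x _ => x ^ 2 + ga⟩
  | s2 (al be : ℂ) (h : be ≠ 0) :
      NormalForm
        ⟨fun x y => x ^ 3 * y + (al + be) * x ^ 2,
         fun x y => x ^ 2 * y ^ 2 + (al - be) * x * y,
         fun x y => x * y ^ 3 + (al + be) * y ^ 2⟩
  | bc (p0 p1 p2 p3 p4 : ℂ) (h : p0 ≠ 0 ∨ p1 ≠ 0 ∨ p2 ≠ 0 ∨ p3 ≠ 0 ∨ p4 ≠ 0) :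
      NormalForm
        ⟨fun x y => 2 * p0 + p1 * x + p2 * (x ^ 2 - 2 * y) + p3 * (x ^ 3 - 3 * x * y)
            + p4 * (x ^ 4 - 4 * x ^ 2 * y + 2 * y ^ 2),
         fun x y => p0 * x + 2 * p1 * y + p2 * x * y + p3 * y * (x ^ 2 - 2 * y)
            + p4 * y * (x ^ 3 - 3 * x * y),
         fun x y => p0 * (x ^ 2 - 2 * y) + p1 * x * y + 2 * p2 * y ^ 2 + p3 * x * y ^ 2
            + p4 * y ^ 2 * (x ^ 2 - 2 * y)⟩
  | f8 (m : ℂ) :
      NormalForm ⟨fun _ _ => 1, fun x _ => m * x, fun x y => (m ^ 2 - m / 2) * x ^ 2 + y⟩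
  | a2 (r s : ℂ) :
      NormalForm
        ⟨fun x y => x + r * y ^ 2 - 3 * r * x ^ 3 + s * x * y ^ 2 - s * x ^ 4 + r ^ 2 * x ^ 2 * y ^ 2,
         fun x y => 3 / 2 * y - 7 / 2 * r * x ^ 2 * y + s / 2 * y ^ 3 - s * x ^ 3 * y
            + r ^ 2 * x * y ^ 3,
         fun x y => x ^ 2 - 4 * r * x * y ^ 2 - s * x ^ 2 * y ^ 2 + r ^ 2 * y ^ 4⟩
  | rs (e : ℂ) :
      NormalForm ⟨fun x _ => x, fun x y => y - x ^ 2 / 4, fun x y => -x * (y + e)⟩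

end Pool.Agent.H38.FlatMetric
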