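import Pool.Agent.H38.FM.Local
import Pool.Agent.H38.FM.Defs

/-!
# The classification in terms of the literal definitions
-/

noncomputable section

namespace Pool.Agent.H38.FlatMetric

open Pool.Agent.H38.FM MvPolynomial

/-- The metric of a parameter. -/
def toMet (p : Par) : Met := ⟨p.a, p.b, p.c⟩

/-- The exponent `(i, j)`. -/
def ex (i j : ℕ) : Fin 2 →₀ ℕ := Finsupp.single 0 i + Finsupp.single 1 j

theorem ex_zero (i j : ℕ) : ex i j 0 = i := by simp [ex]
theorem ex_one (i j : ℕ) : ex i j 1 = j := by simp [ex]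

theorem ex_self (d : Fin 2 →₀ ℕ) : ex (d 0) (d 1) = d := by
  ext k
  fin_cases k
  · exact ex_zero _ _
  · exact ex_one _ _

theorem ex_inj {i j k l : ℕ} : ex i j = ex k l ↔ i = k ∧ j = l := by
  constructor
  · intro h
    have h0 := congrArg (fun d => d 0) h
    have h1 := congrArg (fun d => d 1) h
    simp only [ex_zero, ex_one] at h0 h1
    exact ⟨h0, h1⟩
  · rintro ⟨rfl, rfl⟩; rfl

/-- A polynomial of degree at most two in two variables is given by six coefficients. -/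
theorem eval_deg_two (A : MvPolynomial (Fin 2) ℂ) (hA : A.totalDegree ≤ 2) (x y : ℂ) :
    eval ![x, y] A = A.coeff (ex 0 0) + A.coeff (ex 1 0) * x + A.coeff (ex 0 1) * y
      + A.coeff (ex 2 0) * x ^ 2 + A.coeff (ex 1 1) * x * y + A.coeff (ex 0 2) * y ^ 2 := by
  classical
  set S : Finset (Fin 2 →₀ ℕ) := {ex 0 0, ex 1 0, ex 0 1, ex 2 0, ex 1 1, ex 0 2} with hS
  have hsub : A.support ⊆ S := by
    intro d hd
    have h2 : d 0 + d 1 ≤ 2 := by
      have h := (le_totalDegree hd).trans hA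
      rw [Finsupp.sum_fintype _ _ (fun _ => rfl), Fin.sum_univ_two] at h
      exact h
    rw [← ex_self d, hS]
    simp only [Finset.mem_insert, Finset.mem_singleton, ex_inj]
    omega
  rw [eval_eq', Finset.sum_subset hsub]
  · rw [hS, Finset.sum_insert, Finset.sum_insert, Finset.sum_insert, Finset.sum_insert,
      Finset.sum_insert, Finset.sum_singleton]
    · simp only [Fin.prod_univ_two, ex_zero, ex_one, Matrix.cons_val_zero, Matrix.cons_val_one]
      ring
    all_goals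
      simp only [Finset.mem_insert, Finset.mem_singleton, ex_inj]
      omega
  · intro d _ hd
    rw [notMem_support_iff.mp hd, zero_mul]

/-- The polynomial with six given coefficients. -/
def quad (k00 k10 k01 k20 k11 k02 : ℂ) : MvPolynomial (Fin 2) ℂ :=
  C k00 + C k10 * X 0 + C k01 * X 1 + C k20 * X 0 ^ 2 + C k11 * X 0 * X 1 + C k02 * X 1 ^ 2

theorem eval_quad (k00 k10 k01 k20 k11 k02 x y : ℂ) :
    eval ![x, y] (quad k00 k10 k01 k20 k11 k02)
      = k00 + k10 * x + k01 * y + k20 * x ^ 2 + k11 * x * y + k02 * y ^ 2 := by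
  simp [quad]

theorem totalDegree_quad (k00 k10 k01 k20 k11 k02 : ℂ) :
    (quad k00 k10 k01 k20 k11 k02).totalDegree ≤ 2 := by
  have hC : ∀ k : ℂ, (C k : MvPolynomial (Fin 2) ℂ).totalDegree ≤ 0 := fun k => by
    rw [totalDegree_C]
  have hX : ∀ i : Fin 2, (X i : MvPolynomial (Fin 2) ℂ).totalDegree ≤ 1 := fun i => by
    rw [totalDegree_X]
  have hX2 : ∀ i : Fin 2, ((X i : MvPolynomial (Fin 2) ℂ) ^ 2).totalDegree ≤ 2 := fun i =>
    (totalDegree_pow _ _).trans (by have := hX i; omega)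
  have h1 : ∀ (k : ℂ) (i : Fin 2), (C k * X i : MvPolynomial (Fin 2) ℂ).totalDegree ≤ 2 :=
    fun k i => (totalDegree_mul _ _).trans (by have := hC k; have := hX i; omega)
  have h2 : ∀ (k : ℂ) (i : Fin 2), (C k * X i ^ 2 : MvPolynomial (Fin 2) ℂ).totalDegree ≤ 2 :=
    fun k i => (totalDegree_mul _ _).trans (by have := hC k; have := hX2 i; omega)
  have h3 : (C k11 * X 0 * X 1 : MvPolynomial (Fin 2) ℂ).totalDegree ≤ 2 := by
    refine (totalDegree_mul _ _).trans ?_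
    have h4 := totalDegree_mul (C k11 : MvPolynomial (Fin 2) ℂ) (X 0)
    have h5 := hC k11
    have h6 := hX 0
    have h7 := hX 1
    omega
  refine (totalDegree_add _ _).trans (max_le ?_ (h2 _ _))
  refine (totalDegree_add _ _).trans (max_le ?_ h3)
  refine (totalDegree_add _ _).trans (max_le ?_ (h2 _ _))
  refine (totalDegree_add _ _).trans (max_le ?_ (h1 _ _))
  refine (totalDegree_add _ _).trans (max_le ?_ (h1 _ _))
  exact (hC _).trans (by omega)

/-- The metric of a parameter is in the family. -/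
theorem inFamily_toMet (p : Par) : InFamily (toMet p) := by
  refine ⟨p.q20, p.q11, p.q02, p.u20, p.u11, p.u02, p.v20, p.v11, p.v02,
    quad p.a00 p.a10 p.a01 p.a20 p.a11 p.a02, quad p.b00 p.b10 p.b01 p.b20 p.b11 p.b02,
    quad p.c00 p.c10 p.c01 p.c20 p.c11 p.c02, totalDegree_quad .., totalDegree_quad ..,
    totalDegree_quad .., fun x y => ⟨?_, ?_, ?_⟩⟩
  · simp only [toMet, eval_quad, Par.a, Par.U, Par.Q]; ring
  · simp only [toMet, eval_quad, Par.b, Par.U, Par.V, Par.Q]; ring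
  · simp only [toMet, eval_quad, Par.c, Par.V, Par.Q]; ring

/-- The parameter with given forms and polynomials. -/
def mkPar (q1 q2 q3 z1 z2 z3 z4 z5 z6 : ℂ) (A B C : MvPolynomial (Fin 2) ℂ) : Par :=
  { a00 := A.coeff (ex 0 0), a10 := A.coeff (ex 1 0), a01 := A.coeff (ex 0 1),
    a20 := A.coeff (ex 2 0), a11 := A.coeff (ex 1 1), a02 := A.coeff (ex 0 2),
    b00 := B.coeff (ex 0 0), b10 := B.coeff (ex 1 0), b01 := B.coeff (ex 0 1),
    b20 := B.coeff (ex 2 0), b11 := B.coeff (ex 1 1), b02 := B.coeff (ex 0 2),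
    c00 := C.coeff (ex 0 0), c10 := C.coeff (ex 1 0), c01 := C.coeff (ex 0 1),
    c20 := C.coeff (ex 2 0), c11 := C.coeff (ex 1 1), c02 := C.coeff (ex 0 2),
    q20 := q1, q11 := q2, q02 := q3, u20 := z1, u11 := z2, u02 := z3,
    v20 := z4, v11 := z5, v02 := z6 }

/-- Every metric of the family is the metric of a parameter. -/
theorem exists_par {g : Met} (h : InFamily g) : ∃ p : Par, g = toMet p := by
  obtain ⟨q1, q2, q3, z1, z2, z3, z4, z5, z6, A, B, C', hA, hB, hC, h⟩ := h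
  refine ⟨mkPar q1 q2 q3 z1 z2 z3 z4 z5 z6 A B C', ?_⟩
  obtain ⟨a, b, c⟩ := g
  simp only [toMet, Met.mk.injEq]
  refine ⟨?_, ?_, ?_⟩
  · funext x y
    rw [show a x y = _ from (h x y).1, eval_deg_two A hA]
    simp only [mkPar, Par.a, Par.U, Par.Q]
    ring
  · funext x y
    rw [show b x y = _ from (h x y).2.1, eval_deg_two B hB]
    simp only [mkPar, Par.b, Par.U, Par.V, Par.Q]
    ring
  · funext x y
    rw [show c x y = _ from (h x y).2.2, eval_deg_two C' hC]
    simp only [mkPar, Par.c, Par.V, Par.Q]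
    ring

theorem flat_toMet (p : Par) : Flat (toMet p) ↔ FM67.Flat p.a p.b p.c := Iff.rfl

theorem nondeg_toMet (p : Par) : Nondeg (toMet p) ↔ p.Nondeg := Iff.rfl

theorem equivalent_toMet (p q : Par) : Equivalent (toMet p) (toMet q) ↔ FM67.Equ p q := Iff.rfl

theorem toMet_ext {p : Par} {a b c : ℂ → ℂ → ℂ} (ha : ∀ x y, a x y = p.a x y)
    (hb : ∀ x y, b x y = p.b x y) (hc : ∀ x y, c x y = p.c x y) : (⟨a, b, c⟩ : Met) = toMet p := by
  simp only [toMet, Met.mk.injEq]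
  exact ⟨funext fun x => funext fun y => ha x y, funext fun x => funext fun y => hb x y,
    funext fun x => funext fun y => hc x y⟩

theorem met_m1 (b0 b1 b2 b3 a0 a1 a2 c0 c1 : ℂ) :
    (⟨fun x y => a0 + a1 * y + a2 * y ^ 2 + x * (c0 + c1 * y + 2 * b3 * y ^ 2),
      fun _ y => b0 + b1 * y + b2 * y ^ 2 + b3 * y ^ 3, fun _ _ => 0⟩ : Met)
      = toMet (fM1 b0 b1 b2 (2 * b3) a0 a1 a2 c0 c1) := by
  apply toMet_ext <;> intro x y <;>
    simp only [fM1, zeroPar, Par.a, Par.b, Par.c, Par.U, Par.V, Par.Q] <;> ring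

theorem met_sep (f0 f1 f2 g0 g1 g2 : ℂ) :
    (⟨fun x _ => f0 + f1 * x + f2 * x ^ 2, fun _ _ => 0,
      fun _ y => g0 + g1 * y + g2 * y ^ 2⟩ : Met) = toMet (fSEP f0 f1 f2 g0 g1 g2) := by
  apply toMet_ext <;> intro x y <;>
    simp only [fSEP, zeroPar, Par.a, Par.b, Par.c, Par.U, Par.V, Par.Q] <;> ring

theorem met_tor (al be ga : ℂ) :
    (⟨fun x _ => al * x ^ 2, fun x y => be * x * y, fun _ y => ga * y ^ 2⟩ : Met)
      = toMet (fTOR al be ga) := by
  apply toMet_ext <;> intro x y <;>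
    simp only [fTOR, zeroPar, Par.a, Par.b, Par.c, Par.U, Par.V, Par.Q] <;> ring

theorem met_tu (al be ga : ℂ) :
    (⟨fun x _ => al * x ^ 2, fun x _ => be * x, fun _ _ => ga⟩ : Met)
      = toMet (fTU al be ga) := by
  apply toMet_ext <;> intro x y <;>
    simp only [fTU, zeroPar, Par.a, Par.b, Par.c, Par.U, Par.V, Par.Q] <;> ring

theorem met_u2 (ga : ℂ) :
    (⟨fun _ _ => 1, fun x _ => x, fun x _ => x ^ 2 + ga⟩ : Met) = toMet (fU2 ga) := by
  apply toMet_ext <;> intro x y <;>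
    simp only [fU2, zeroPar, Par.a, Par.b, Par.c, Par.U, Par.V, Par.Q] <;> ring

theorem met_s2 (al be : ℂ) :
    (⟨fun x y => x ^ 3 * y + (al + be) * x ^ 2, fun x y => x ^ 2 * y ^ 2 + (al - be) * x * y,
      fun x y => x * y ^ 3 + (al + be) * y ^ 2⟩ : Met) = toMet (fS2 al be) := by
  apply toMet_ext <;> intro x y <;>
    simp only [fS2, zeroPar, Par.a, Par.b, Par.c, Par.U, Par.V, Par.Q] <;> ring

theorem met_bc (p0 p1 p2 p3 p4 : ℂ) :
    (⟨fun x y => 2 * p0 + p1 * x + p2 * (x ^ 2 - 2 * y) + p3 * (x ^ 3 - 3 * x * y)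
        + p4 * (x ^ 4 - 4 * x ^ 2 * y + 2 * y ^ 2),
      fun x y => p0 * x + 2 * p1 * y + p2 * x * y + p3 * y * (x ^ 2 - 2 * y)
        + p4 * y * (x ^ 3 - 3 * x * y),
      fun x y => p0 * (x ^ 2 - 2 * y) + p1 * x * y + 2 * p2 * y ^ 2 + p3 * x * y ^ 2
        + p4 * y ^ 2 * (x ^ 2 - 2 * y)⟩ : Met) = toMet (fBC p0 p1 p2 p3 p4) := by
  apply toMet_ext <;> intro x y <;>
    simp only [fBC, zeroPar, Par.a, Par.b, Par.c, Par.U, Par.V, Par.Q] <;> ring

theorem met_f8 (m : ℂ) :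
    (⟨fun _ _ => 1, fun x _ => m * x, fun x y => (m ^ 2 - m / 2) * x ^ 2 + y⟩ : Met)
      = toMet (fF8 m) := by
  apply toMet_ext <;> intro x y <;>
    simp only [fF8, zeroPar, Par.a, Par.b, Par.c, Par.U, Par.V, Par.Q] <;> ring

theorem met_a2 (r s : ℂ) :
    (⟨fun x y => x + r * y ^ 2 - 3 * r * x ^ 3 + s * x * y ^ 2 - s * x ^ 4 + r ^ 2 * x ^ 2 * y ^ 2,
      fun x y => 3 / 2 * y - 7 / 2 * r * x ^ 2 * y + s / 2 * y ^ 3 - s * x ^ 3 * y
        + r ^ 2 * x * y ^ 3,
      fun x y => x ^ 2 - 4 * r * x * y ^ 2 - s * x ^ 2 * y ^ 2 + r ^ 2 * y ^ 4⟩ : Met)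
      = toMet (fA2 r s) := by
  apply toMet_ext <;> intro x y <;>
    simp only [fA2, zeroPar, Par.a, Par.b, Par.c, Par.U, Par.V, Par.Q] <;> ring

theorem met_rs (e : ℂ) :
    (⟨fun x _ => x, fun x y => y - x ^ 2 / 4, fun x y => -x * (y + e)⟩ : Met)
      = toMet (fRS e) := by
  apply toMet_ext <;> intro x y <;>
    simp only [fRS, zeroPar, Par.a, Par.b, Par.c, Par.U, Par.V, Par.Q] <;> ring

theorem normalForm_iff (g : Met) : NormalForm g ↔ ∃ q : Par, Normal q ∧ g = toMet q := by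
  constructor
  · intro h
    cases h with
    | m1 b0 b1 b2 b3 a0 a1 a2 c0 c1 h =>
      refine ⟨_, Normal.m1 b0 b1 b2 (2 * b3) a0 a1 a2 c0 c1 ?_, met_m1 ..⟩
      rcases h with h | h | h | h
      · exact Or.inl h
      · exact Or.inr (Or.inl h)
      · exact Or.inr (Or.inr (Or.inl h))
      · exact Or.inr (Or.inr (Or.inr (mul_ne_zero two_ne_zero h)))
    | sep f0 f1 f2 g0 g1 g2 hf hg => exact ⟨_, Normal.sep f0 f1 f2 g0 g1 g2 hf hg, met_sep ..⟩
    | tor al be ga h => exact ⟨_, Normal.tor al be ga h, met_tor ..⟩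
    | tu al be ga h => exact ⟨_, Normal.tu al be ga h, met_tu ..⟩
    | u2 ga h => exact ⟨_, Normal.u2 ga h, met_u2 ..⟩
    | s2 al be h => exact ⟨_, Normal.s2 al be h, met_s2 ..⟩
    | bc p0 p1 p2 p3 p4 h => exact ⟨_, Normal.bc p0 p1 p2 p3 p4 h, met_bc ..⟩
    | f8 m => exact ⟨_, Normal.f8 m, met_f8 ..⟩
    | a2 r s => exact ⟨_, Normal.a2 r s, met_a2 ..⟩
    | rs e => exact ⟨_, Normal.rs e, met_rs ..⟩
  · rintro ⟨q, hq, rfl⟩
    cases hq with
    | m1 b0 b1 b2 w a0 a1 a2 c0 c1 h =>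
      have hw : w = 2 * (w / 2) := by ring
      rw [hw, ← met_m1]
      refine NormalForm.m1 _ _ _ _ _ _ _ _ _ ?_
      rcases h with h | h | h | h
      · exact Or.inl h
      · exact Or.inr (Or.inl h)
      · exact Or.inr (Or.inr (Or.inl h))
      · exact Or.inr (Or.inr (Or.inr (div_ne_zero h two_ne_zero)))
    | sep f0 f1 f2 g0 g1 g2 hf hg => rw [← met_sep]; exact NormalForm.sep _ _ _ _ _ _ hf hg
    | tor al be ga h => rw [← met_tor]; exact NormalForm.tor _ _ _ h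
    | tu al be ga h => rw [← met_tu]; exact NormalForm.tu _ _ _ h
    | u2 ga h => rw [← met_u2]; exact NormalForm.u2 _ h
    | s2 al be h => rw [← met_s2]; exact NormalForm.s2 _ _ h
    | bc p0 p1 p2 p3 p4 h => rw [← met_bc]; exact NormalForm.bc _ _ _ _ _ h
    | f8 m => rw [← met_f8]; exact NormalForm.f8 m
    | a2 r s => rw [← met_a2]; exact NormalForm.a2 r s
    | rs e => rw [← met_rs]; exact NormalForm.rs e

/-- The classification. -/
theorem classification :
    (∀ g : Met, NormalForm g → InFamily g ∧ Nondeg g ∧ Flat g) ∧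
      ∀ g : Met, InFamily g → Nondeg g →
        (Flat g ↔ ∃ h : Met, NormalForm h ∧ Equivalent g h) := by
  obtain ⟨h1, h2⟩ := main
  refine ⟨fun g hg => ?_, fun g hg hn => ?_⟩
  · obtain ⟨q, hq, rfl⟩ := (normalForm_iff g).mp hg
    exact ⟨inFamily_toMet q, (h1 q hq).1, (h1 q hq).2⟩
  · obtain ⟨p, rfl⟩ := exists_par hg
    rw [flat_toMet, h2 p hn]
    constructor
    · rintro ⟨q, hq, he⟩
      exact ⟨toMet q, (normalForm_iff _).mpr ⟨q, hq, rfl⟩, he⟩
    · rintro ⟨h, hh, he⟩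
      obtain ⟨q, hq, rfl⟩ := (normalForm_iff h).mp hh
      exact ⟨q, hq, he⟩

end Pool.Agent.H38.FlatMetric
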