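import Pool.Agent.H38.FM.Par

/-!
# The coefficient equations of the reduced system at a zero of the metric
-/

set_option linter.unusedSimpArgs false

noncomputable section

namespace Pool.Agent.H38.FM

def ce1_1_0 (p : Par) (s : SPar) : ℂ := p.a10 * s.s1 + p.a01 * p.c10 - p.b10 * p.b01
    + p.b10 * s.s2
def ce1_0_1 (p : Par) (s : SPar) : ℂ := p.a10 * p.b01 - p.a01 * p.b10 + p.a01 * p.c01
    + p.a01 * s.s1 - p.b01 ^ 2 + p.b01 * s.s2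
def ce1_2_0 (p : Par) (s : SPar) : ℂ := -p.a10 * p.b20 + p.a10 * s.s11 + p.a01 * p.c20
    + p.b10 * p.a20 - p.b10 * p.b11 + p.b10 * s.s21 - p.b01 * p.b20 + p.c10 * p.a11
    + p.a20 * s.s1 + p.b20 * s.s2
def ce1_1_1 (p : Par) (s : SPar) : ℂ := p.a10 * s.s12 - 2 * p.a01 * p.b20 + p.a01 * p.c11
    + p.a01 * s.s11 - 2 * p.b10 * p.b02 + p.b10 * s.s22 + 2 * p.b01 * p.a20
    - 2 * p.b01 * p.b11 + p.b01 * s.s21 + 2 * p.c10 * p.a02 + p.c01 * p.a11 + p.a11 * s.s1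
    + p.b11 * s.s2
def ce1_0_2 (p : Par) (s : SPar) : ℂ := p.a10 * p.b02 - p.a01 * p.b11 + p.a01 * p.c02
    + p.a01 * s.s12 - p.b10 * p.a02 + p.b01 * p.a11 - 3 * p.b01 * p.b02 + p.b01 * s.s22
    + 2 * p.c01 * p.a02 + p.a02 * s.s1 + p.b02 * s.s2
def ce1_3_0 (p : Par) (s : SPar) : ℂ := -3 / 2 * p.a10 * p.v20 + 2 * p.b10 * p.u20
    - 1 / 2 * p.b10 * p.v11 - p.b10 * s.l1 - 1 / 2 * p.b01 * p.v20 + p.c10 * p.u11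
    + p.a20 * s.s11 + p.a11 * p.c20 - p.b20 * p.b11 + p.b20 * s.s21 + p.u20 * s.s1
    + 1 / 2 * p.v20 * s.s2
def ce1_2_1 (p : Par) (s : SPar) : ℂ := -1 / 2 * p.a10 * p.u20 - p.a10 * p.v11 + p.a10 * s.l1
    - p.a01 * p.v20 + 1 / 2 * p.b10 * p.u11 - p.b10 * p.v02 - p.b10 * s.l2
    + 5 / 2 * p.b01 * p.u20 - p.b01 * p.v11 - p.b01 * s.l1 + 2 * p.c10 * p.u02
    + p.c01 * p.u11 + p.a20 * p.b11 + p.a20 * s.s12 - p.a11 * p.b20 + p.a11 * p.c11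
    + p.a11 * s.s11 + 2 * p.a02 * p.c20 - 2 * p.b20 * p.b02 + p.b20 * s.s22 - p.b11 ^ 2
    + p.b11 * s.s21 + 1 / 2 * p.u20 * s.s2 + p.u11 * s.s1 + 1 / 2 * p.v11 * s.s2
def ce1_1_2 (p : Par) (s : SPar) : ℂ := -1 / 2 * p.a10 * p.v02 + p.a10 * s.l2 - p.a01 * p.u20
    - 1 / 2 * p.a01 * p.v11 + p.a01 * s.l1 - p.b10 * p.u02 + p.b01 * p.u11
    - 3 / 2 * p.b01 * p.v02 - p.b01 * s.l2 + 2 * p.c01 * p.u02 + 2 * p.a20 * p.b02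
    + p.a11 * p.c02 + p.a11 * s.s12 - 2 * p.a02 * p.b20 + 2 * p.a02 * p.c11 + p.a02 * s.s11
    - 3 * p.b11 * p.b02 + p.b11 * s.s22 + p.b02 * s.s21 + 1 / 2 * p.u11 * s.s2 + p.u02 * s.s1
    + 1 / 2 * p.v02 * s.s2
def ce1_0_3 (p : Par) (s : SPar) : ℂ := 1 / 2 * p.a10 * p.u02 - 1 / 2 * p.a01 * p.u11
    + p.a01 * s.l2 - 1 / 2 * p.b01 * p.u02 + p.a11 * p.b02 - p.a02 * p.b11
    + 2 * p.a02 * p.c02 + p.a02 * s.s12 - 2 * p.b02 ^ 2 + p.b02 * s.s22 + 1 / 2 * p.u02 * s.s2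
def ce1_4_0 (p : Par) (s : SPar) : ℂ := 3 * p.b10 * p.q20 + p.c10 * p.q11 - p.a20 * p.v20
    + p.b20 * p.u20 - 1 / 2 * p.b20 * p.v11 - p.b20 * s.l1 - 1 / 2 * p.b11 * p.v20
    + p.c20 * p.u11 + p.u20 * s.s11 + 1 / 2 * p.v20 * s.s21 + p.q20 * s.s1
def ce1_3_1 (p : Par) (s : SPar) : ℂ := -3 * p.a10 * p.q20 + p.b10 * p.q11
    + 3 * p.b01 * p.q20 + 2 * p.c10 * p.q02 + p.c01 * p.q11 - 1 / 2 * p.a20 * p.v11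
    + p.a20 * s.l1 - 1 / 2 * p.a11 * p.v20 - 1 / 2 * p.b20 * p.u11 - p.b20 * p.v02
    - p.b20 * s.l2 + 3 / 2 * p.b11 * p.u20 - p.b11 * p.v11 - p.b11 * s.l1 - p.b02 * p.v20
    + 2 * p.c20 * p.u02 + p.c11 * p.u11 + p.u20 * s.s12 + 1 / 2 * p.u20 * s.s21
    + p.u11 * s.s11 + 1 / 2 * p.v20 * s.s22 + 1 / 2 * p.v11 * s.s21 + p.q20 * s.s2 + p.q11 * s.s1
def ce1_2_2 (p : Par) (s : SPar) : ℂ := -2 * p.a10 * p.q11 - 3 * p.a01 * p.q20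
    - p.b10 * p.q02 + p.b01 * p.q11 + 2 * p.c01 * p.q02 + 1 / 2 * p.a20 * p.u11
    + p.a20 * s.l2 - 1 / 2 * p.a11 * p.u20 + p.a11 * s.l1 - 2 * p.b20 * p.u02
    - 3 / 2 * p.b11 * p.v02 - p.b11 * s.l2 + 2 * p.b02 * p.u20 - 3 / 2 * p.b02 * p.v11
    - p.b02 * s.l1 + 2 * p.c11 * p.u02 + p.c02 * p.u11 + 1 / 2 * p.u20 * s.s22
    + p.u11 * s.s12 + 1 / 2 * p.u11 * s.s21 + p.u02 * s.s11 + 1 / 2 * p.v11 * s.s22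
    + 1 / 2 * p.v02 * s.s21 + p.q11 * s.s2 + p.q02 * s.s1
def ce1_1_3 (p : Par) (s : SPar) : ℂ := -p.a10 * p.q02 - 2 * p.a01 * p.q11 - p.b01 * p.q02
    + p.a20 * p.u02 + 1 / 2 * p.a11 * p.v02 + p.a11 * s.l2 - p.a02 * p.u20
    + 1 / 2 * p.a02 * p.v11 + p.a02 * s.l1 - 3 / 2 * p.b11 * p.u02 + 1 / 2 * p.b02 * p.u11
    - 2 * p.b02 * p.v02 - p.b02 * s.l2 + 2 * p.c02 * p.u02 + 1 / 2 * p.u11 * s.s22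
    + p.u02 * s.s12 + 1 / 2 * p.u02 * s.s21 + 1 / 2 * p.v02 * s.s22 + p.q02 * s.s2
def ce1_0_4 (p : Par) (s : SPar) : ℂ := -p.a01 * p.q02 + 1 / 2 * p.a11 * p.u02
    - 1 / 2 * p.a02 * p.u11 + p.a02 * p.v02 + p.a02 * s.l2 - p.b02 * p.u02 + 1 / 2 * p.u02 * s.s22
def ce1_5_0 (p : Par) (s : SPar) : ℂ := 2 * p.b20 * p.q20 + p.c20 * p.q11
    - 1 / 2 * p.u20 * p.v20 - 1 / 4 * p.v20 * p.v11 - 1 / 2 * p.v20 * s.l1 + p.q20 * s.s11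
def ce1_4_1 (p : Par) (s : SPar) : ℂ := -2 * p.a20 * p.q20 + 2 * p.b11 * p.q20
    + 2 * p.c20 * p.q02 + p.c11 * p.q11 + 1 / 2 * p.u20 ^ 2 - 1 / 4 * p.u20 * p.v11
    + 1 / 2 * p.u20 * s.l1 - 1 / 4 * p.u11 * p.v20 - 1 / 2 * p.v20 * p.v02
    - 1 / 2 * p.v20 * s.l2 - 1 / 4 * p.v11 ^ 2 - 1 / 2 * p.v11 * s.l1 + p.q20 * s.s12
    + p.q20 * s.s21 + p.q11 * s.s11
def ce1_3_2 (p : Par) (s : SPar) : ℂ := -p.a20 * p.q11 - 2 * p.a11 * p.q20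
    - 2 * p.b20 * p.q02 + 2 * p.b02 * p.q20 + 2 * p.c11 * p.q02 + p.c02 * p.q11
    + 3 / 4 * p.u20 * p.u11 + 1 / 2 * p.u20 * s.l2 + 1 / 2 * p.u11 * s.l1
    - 3 / 4 * p.v11 * p.v02 - 1 / 2 * p.v11 * s.l2 - 1 / 2 * p.v02 * s.l1 + p.q20 * s.s22
    + p.q11 * s.s12 + p.q11 * s.s21 + p.q02 * s.s11
def ce1_2_3 (p : Par) (s : SPar) : ℂ := -p.a11 * p.q11 - 2 * p.a02 * p.q20
    - 2 * p.b11 * p.q02 + 2 * p.c02 * p.q02 + 1 / 2 * p.u20 * p.u02 + 1 / 4 * p.u11 ^ 2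
    + 1 / 4 * p.u11 * p.v02 + 1 / 2 * p.u11 * s.l2 + 1 / 4 * p.u02 * p.v11
    + 1 / 2 * p.u02 * s.l1 - 1 / 2 * p.v02 ^ 2 - 1 / 2 * p.v02 * s.l2 + p.q11 * s.s22
    + p.q02 * s.s12 + p.q02 * s.s21
def ce1_1_4 (p : Par) (s : SPar) : ℂ := -p.a02 * p.q11 - 2 * p.b02 * p.q02
    + 1 / 4 * p.u11 * p.u02 + 1 / 2 * p.u02 * p.v02 + 1 / 2 * p.u02 * s.l2 + p.q02 * s.s22
def ce2_1_0 (p : Par) (s : SPar) : ℂ := -p.a10 * p.c10 + p.b10 ^ 2 - p.b10 * p.c01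
    + p.b10 * s.s1 + p.b01 * p.c10 + p.c10 * s.s2
def ce2_0_1 (p : Par) (s : SPar) : ℂ := -p.a01 * p.c10 + p.b10 * p.b01 + p.b01 * s.s1
    + p.c01 * s.s2
def ce2_2_0 (p : Par) (s : SPar) : ℂ := -2 * p.a10 * p.c20 + 3 * p.b10 * p.b20
    - p.b10 * p.c11 + p.b10 * s.s11 + p.b01 * p.c20 - p.c10 * p.a20 + p.c10 * p.b11
    + p.c10 * s.s21 - p.c01 * p.b20 + p.b20 * s.s1 + p.c20 * s.s2
def ce2_1_1 (p : Par) (s : SPar) : ℂ := -p.a10 * p.c11 - 2 * p.a01 * p.c20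
    + 2 * p.b10 * p.b11 - 2 * p.b10 * p.c02 + p.b10 * s.s12 + 2 * p.b01 * p.b20
    + p.b01 * s.s11 - p.c10 * p.a11 + 2 * p.c10 * p.b02 + p.c10 * s.s22 + p.c01 * s.s21
    + p.b11 * s.s1 + p.c11 * s.s2
def ce2_0_2 (p : Par) (s : SPar) : ℂ := -p.a01 * p.c11 + p.b10 * p.b02 + p.b01 * p.b11
    - p.b01 * p.c02 + p.b01 * s.s12 - p.c10 * p.a02 + p.c01 * p.b02 + p.c01 * s.s22
    + p.b02 * s.s1 + p.c02 * s.s2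
def ce2_3_0 (p : Par) (s : SPar) : ℂ := 1 / 2 * p.b10 * p.v20 + 1 / 2 * p.c10 * p.v11
    - p.c10 * s.l1 - 1 / 2 * p.c01 * p.v20 - 2 * p.a20 * p.c20 + 2 * p.b20 ^ 2
    - p.b20 * p.c11 + p.b20 * s.s11 + p.b11 * p.c20 + p.c20 * s.s21 + 1 / 2 * p.v20 * s.s1
def ce2_2_1 (p : Par) (s : SPar) : ℂ := -2 * p.a10 * p.v20 + 3 / 2 * p.b10 * p.u20
    - p.b10 * p.v11 + p.b10 * s.l1 + p.b01 * p.v20 + 1 / 2 * p.c10 * p.u11 + p.c10 * p.v02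
    - p.c10 * s.l2 + 1 / 2 * p.c01 * p.u20 - p.c01 * s.l1 - p.a20 * p.c11 - 2 * p.a11 * p.c20
    + 3 * p.b20 * p.b11 - 2 * p.b20 * p.c02 + p.b20 * s.s12 + p.b11 * s.s11
    + 2 * p.b02 * p.c20 + p.c20 * s.s22 + p.c11 * s.s21 + 1 / 2 * p.u20 * s.s1 + p.v20 * s.s2
    + 1 / 2 * p.v11 * s.s1
def ce2_1_2 (p : Par) (s : SPar) : ℂ := -p.a10 * p.v11 - 2 * p.a01 * p.v20 + p.b10 * p.u11
    - 5 / 2 * p.b10 * p.v02 + p.b10 * s.l2 + p.b01 * p.u20 - 1 / 2 * p.b01 * p.v11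
    + p.b01 * s.l1 + p.c10 * p.u02 + p.c01 * p.u11 + 1 / 2 * p.c01 * p.v02 - p.c01 * s.l2
    - p.a11 * p.c11 - 2 * p.a02 * p.c20 + 2 * p.b20 * p.b02 + p.b11 ^ 2 - p.b11 * p.c02
    + p.b11 * s.s12 + p.b02 * p.c11 + p.b02 * s.s11 + p.c11 * s.s22 + p.c02 * s.s21
    + 1 / 2 * p.u11 * s.s1 + p.v11 * s.s2 + 1 / 2 * p.v02 * s.s1
def ce2_0_3 (p : Par) (s : SPar) : ℂ := -p.a01 * p.v11 + 1 / 2 * p.b10 * p.u02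
    + 1 / 2 * p.b01 * p.u11 - 2 * p.b01 * p.v02 + p.b01 * s.l2 + 3 / 2 * p.c01 * p.u02
    - p.a02 * p.c11 + p.b11 * p.b02 + p.b02 * s.s12 + p.c02 * s.s22 + 1 / 2 * p.u02 * s.s1
    + p.v02 * s.s2
def ce2_4_0 (p : Par) (s : SPar) : ℂ := p.c10 * p.q20 + p.b20 * p.v20 - p.c20 * p.u20
    + 1 / 2 * p.c20 * p.v11 - p.c20 * s.l1 - 1 / 2 * p.c11 * p.v20 + 1 / 2 * p.v20 * s.s11
def ce2_3_1 (p : Par) (s : SPar) : ℂ := p.b10 * p.q20 + 2 * p.c10 * p.q11 + p.c01 * p.q20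
    - 2 * p.a20 * p.v20 + 2 * p.b20 * p.u20 - 1 / 2 * p.b20 * p.v11 + p.b20 * s.l1
    + 3 / 2 * p.b11 * p.v20 - 1 / 2 * p.c20 * p.u11 + p.c20 * p.v02 - p.c20 * s.l2
    - 1 / 2 * p.c11 * p.u20 - p.c11 * s.l1 - p.c02 * p.v20 + 1 / 2 * p.u20 * s.s11
    + 1 / 2 * p.v20 * s.s12 + p.v20 * s.s21 + 1 / 2 * p.v11 * s.s11 + p.q20 * s.s1
def ce2_2_2 (p : Par) (s : SPar) : ℂ := -2 * p.a10 * p.q20 - p.b10 * p.q11 + p.b01 * p.q20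
    + 3 * p.c10 * p.q02 + 2 * p.c01 * p.q11 - p.a20 * p.v11 - 2 * p.a11 * p.v20
    + 3 / 2 * p.b20 * p.u11 - 2 * p.b20 * p.v02 + p.b20 * s.l2 + 3 / 2 * p.b11 * p.u20
    + p.b11 * s.l1 + 2 * p.b02 * p.v20 + 1 / 2 * p.c11 * p.v02 - p.c11 * s.l2
    - 1 / 2 * p.c02 * p.v11 - p.c02 * s.l1 + 1 / 2 * p.u20 * s.s12 + 1 / 2 * p.u11 * s.s11
    + p.v20 * s.s22 + 1 / 2 * p.v11 * s.s12 + p.v11 * s.s21 + 1 / 2 * p.v02 * s.s11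
    + p.q20 * s.s2 + p.q11 * s.s1
def ce2_1_3 (p : Par) (s : SPar) : ℂ := -p.a10 * p.q11 - 2 * p.a01 * p.q20
    - 3 * p.b10 * p.q02 - p.b01 * p.q11 + 3 * p.c01 * p.q02 - p.a11 * p.v11
    - 2 * p.a02 * p.v20 + p.b20 * p.u02 + p.b11 * p.u11 - 3 / 2 * p.b11 * p.v02
    + p.b11 * s.l2 + p.b02 * p.u20 + 1 / 2 * p.b02 * p.v11 + p.b02 * s.l1
    + 1 / 2 * p.c11 * p.u02 + 1 / 2 * p.c02 * p.u11 - p.c02 * s.l2 + 1 / 2 * p.u11 * s.s12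
    + 1 / 2 * p.u02 * s.s11 + p.v11 * s.s22 + 1 / 2 * p.v02 * s.s12 + p.v02 * s.s21
    + p.q11 * s.s2 + p.q02 * s.s1
def ce2_0_4 (p : Par) (s : SPar) : ℂ := -p.a01 * p.q11 - 3 * p.b01 * p.q02 - p.a02 * p.v11
    + 1 / 2 * p.b11 * p.u02 + 1 / 2 * p.b02 * p.u11 - p.b02 * p.v02 + p.b02 * s.l2
    + p.c02 * p.u02 + 1 / 2 * p.u02 * s.s12 + p.v02 * s.s22 + p.q02 * s.s2
def ce2_4_1 (p : Par) (s : SPar) : ℂ := 2 * p.b20 * p.q20 + p.c20 * p.q11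
    - 1 / 2 * p.u20 * p.v20 - 1 / 4 * p.v20 * p.v11 - 1 / 2 * p.v20 * s.l1 + p.q20 * s.s11
def ce2_3_2 (p : Par) (s : SPar) : ℂ := -2 * p.a20 * p.q20 + 2 * p.b11 * p.q20
    + 2 * p.c20 * p.q02 + p.c11 * p.q11 + 1 / 2 * p.u20 ^ 2 - 1 / 4 * p.u20 * p.v11
    + 1 / 2 * p.u20 * s.l1 - 1 / 4 * p.u11 * p.v20 - 1 / 2 * p.v20 * p.v02
    - 1 / 2 * p.v20 * s.l2 - 1 / 4 * p.v11 ^ 2 - 1 / 2 * p.v11 * s.l1 + p.q20 * s.s12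
    + p.q20 * s.s21 + p.q11 * s.s11
def ce2_2_3 (p : Par) (s : SPar) : ℂ := -p.a20 * p.q11 - 2 * p.a11 * p.q20
    - 2 * p.b20 * p.q02 + 2 * p.b02 * p.q20 + 2 * p.c11 * p.q02 + p.c02 * p.q11
    + 3 / 4 * p.u20 * p.u11 + 1 / 2 * p.u20 * s.l2 + 1 / 2 * p.u11 * s.l1
    - 3 / 4 * p.v11 * p.v02 - 1 / 2 * p.v11 * s.l2 - 1 / 2 * p.v02 * s.l1 + p.q20 * s.s22
    + p.q11 * s.s12 + p.q11 * s.s21 + p.q02 * s.s11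
def ce2_1_4 (p : Par) (s : SPar) : ℂ := -p.a11 * p.q11 - 2 * p.a02 * p.q20
    - 2 * p.b11 * p.q02 + 2 * p.c02 * p.q02 + 1 / 2 * p.u20 * p.u02 + 1 / 4 * p.u11 ^ 2
    + 1 / 4 * p.u11 * p.v02 + 1 / 2 * p.u11 * s.l2 + 1 / 4 * p.u02 * p.v11
    + 1 / 2 * p.u02 * s.l1 - 1 / 2 * p.v02 ^ 2 - 1 / 2 * p.v02 * s.l2 + p.q11 * s.s22
    + p.q02 * s.s12 + p.q02 * s.s21
def ce2_0_5 (p : Par) (s : SPar) : ℂ := -p.a02 * p.q11 - 2 * p.b02 * p.q02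
    + 1 / 4 * p.u11 * p.u02 + 1 / 2 * p.u02 * p.v02 + 1 / 2 * p.u02 * s.l2 + p.q02 * s.s22
def cf_1_0 (p : Par) (s : SPar) : ℂ := -2 * p.a10 * p.c10 * s.s2 + p.a10 * p.c01 * s.s1
    + p.a01 * p.c10 * s.s1 + 2 * p.b10 ^ 2 * s.s2 - 2 * p.b10 * p.b01 * s.s1
def cf_0_1 (p : Par) (s : SPar) : ℂ := -p.a10 * p.c01 * s.s2 - p.a01 * p.c10 * s.s2
    + 2 * p.a01 * p.c01 * s.s1 + 2 * p.b10 * p.b01 * s.s2 - 2 * p.b01 ^ 2 * s.s1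
def cf_2_0 (p : Par) (s : SPar) : ℂ := p.a10 * p.b01 * p.c20 - 2 * p.a10 * p.c10 * s.s12
    - p.a10 * p.c01 * p.b20 + p.a10 * p.c01 * s.s11 - 3 * p.a10 * p.c20 * s.s2
    + p.a10 * p.c11 * s.s1 - p.a01 * p.b10 * p.c20 + p.a01 * p.c10 * p.b20
    + p.a01 * p.c10 * s.s11 + p.a01 * p.c20 * s.s1 + 2 * p.b10 ^ 2 * s.s12
    - 2 * p.b10 * p.b01 * s.s11 + p.b10 * p.c01 * p.a20 + 6 * p.b10 * p.b20 * s.s2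
    - 2 * p.b10 * p.b11 * s.s1 - p.b01 * p.c10 * p.a20 - 2 * p.b01 * p.b20 * s.s1
    - 3 * p.c10 * p.a20 * s.s2 + p.c10 * p.a11 * s.s1 + p.c01 * p.a20 * s.s1
def cf_1_1 (p : Par) (s : SPar) : ℂ := p.a10 * p.b01 * p.c11 - 2 * p.a10 * p.c10 * s.s22
    - p.a10 * p.c01 * p.b11 - p.a10 * p.c01 * s.s12 + p.a10 * p.c01 * s.s21
    - 2 * p.a10 * p.c11 * s.s2 + 2 * p.a10 * p.c02 * s.s1 - p.a01 * p.b10 * p.c11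
    + p.a01 * p.c10 * p.b11 - p.a01 * p.c10 * s.s12 + p.a01 * p.c10 * s.s21
    + 2 * p.a01 * p.c01 * s.s11 - 2 * p.a01 * p.c20 * s.s2 + 2 * p.a01 * p.c11 * s.s1
    + 2 * p.b10 ^ 2 * s.s22 + 2 * p.b10 * p.b01 * s.s12 - 2 * p.b10 * p.b01 * s.s21
    + p.b10 * p.c01 * p.a11 + 4 * p.b10 * p.b11 * s.s2 - 4 * p.b10 * p.b02 * s.s1
    - 2 * p.b01 ^ 2 * s.s11 - p.b01 * p.c10 * p.a11 + 4 * p.b01 * p.b20 * s.s2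
    - 4 * p.b01 * p.b11 * s.s1 - 2 * p.c10 * p.a11 * s.s2 + 2 * p.c10 * p.a02 * s.s1
    - 2 * p.c01 * p.a20 * s.s2 + 2 * p.c01 * p.a11 * s.s1
def cf_0_2 (p : Par) (s : SPar) : ℂ := p.a10 * p.b01 * p.c02 - p.a10 * p.c01 * p.b02
    - p.a10 * p.c01 * s.s22 - p.a10 * p.c02 * s.s2 - p.a01 * p.b10 * p.c02
    + p.a01 * p.c10 * p.b02 - p.a01 * p.c10 * s.s22 + 2 * p.a01 * p.c01 * s.s21
    - p.a01 * p.c11 * s.s2 + 3 * p.a01 * p.c02 * s.s1 + 2 * p.b10 * p.b01 * s.s22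
    + p.b10 * p.c01 * p.a02 + 2 * p.b10 * p.b02 * s.s2 - 2 * p.b01 ^ 2 * s.s21
    - p.b01 * p.c10 * p.a02 + 2 * p.b01 * p.b11 * s.s2 - 6 * p.b01 * p.b02 * s.s1
    - p.c10 * p.a02 * s.s2 - p.c01 * p.a11 * s.s2 + 3 * p.c01 * p.a02 * s.s1
def cf_3_0 (p : Par) (s : SPar) : ℂ := p.a10 * p.c10 * p.u20 + p.a10 * p.c10 * p.v11
    - 4 * p.a10 * p.c10 * s.l1 - 3 / 2 * p.a10 * p.c01 * p.v20 - p.a10 * p.b20 * p.c11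
    + p.a10 * p.b11 * p.c20 - 2 * p.a10 * p.c20 * s.s12 - p.a10 * p.c20 * s.s21
    + p.a10 * p.c11 * s.s11 + p.a10 * p.v20 * s.s1 + 1 / 2 * p.a01 * p.c10 * p.v20
    + p.a01 * p.c20 * s.s11 - p.b10 ^ 2 * p.u20 - p.b10 ^ 2 * p.v11 + 4 * p.b10 ^ 2 * s.l1
    + p.b10 * p.b01 * p.v20 + 2 * p.b10 * p.c01 * p.u20 + p.b10 * p.a20 * p.c11
    - p.b10 * p.a11 * p.c20 + 4 * p.b10 * p.b20 * s.s12 + 2 * p.b10 * p.b20 * s.s21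
    - 2 * p.b10 * p.b11 * s.s11 - p.b10 * p.u20 * s.s1 + 4 * p.b10 * p.v20 * s.s2
    - p.b10 * p.v11 * s.s1 - 2 * p.b01 * p.c10 * p.u20 - 2 * p.b01 * p.b20 * s.s11
    - p.b01 * p.v20 * s.s1 - p.c10 * p.a20 * p.b11 - 2 * p.c10 * p.a20 * s.s12
    - p.c10 * p.a20 * s.s21 + p.c10 * p.a11 * p.b20 + p.c10 * p.a11 * s.s11
    - 4 * p.c10 * p.u20 * s.s2 + p.c10 * p.u11 * s.s1 + p.c01 * p.a20 * s.s11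
    + p.c01 * p.u20 * s.s1 - 4 * p.a20 * p.c20 * s.s2 + p.a20 * p.c11 * s.s1
    + p.a11 * p.c20 * s.s1 + 4 * p.b20 ^ 2 * s.s2 - 2 * p.b20 * p.b11 * s.s1
def cf_2_1 (p : Par) (s : SPar) : ℂ := 2 * p.a10 * p.b01 * p.v20 + 2 * p.a10 * p.c10 * p.v02
    - 4 * p.a10 * p.c10 * s.l2 + 1 / 2 * p.a10 * p.c01 * p.u20
    - 1 / 2 * p.a10 * p.c01 * p.v11 - 4 * p.a10 * p.c01 * s.l1 - 2 * p.a10 * p.b20 * p.c02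
    + 2 * p.a10 * p.b02 * p.c20 - 3 * p.a10 * p.c20 * s.s22 - p.a10 * p.c11 * s.s12
    + 2 * p.a10 * p.c02 * s.s11 - 3 * p.a10 * p.v20 * s.s2 + 2 * p.a10 * p.v11 * s.s1
    - 2 * p.a01 * p.b10 * p.v20 + 5 / 2 * p.a01 * p.c10 * p.u20
    + 3 / 2 * p.a01 * p.c10 * p.v11 - 4 * p.a01 * p.c10 * s.l1 - p.a01 * p.c01 * p.v20
    - p.a01 * p.b20 * p.c11 + p.a01 * p.b11 * p.c20 - p.a01 * p.c20 * s.s12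
    + 2 * p.a01 * p.c11 * s.s11 + 2 * p.a01 * p.v20 * s.s1 - 2 * p.b10 ^ 2 * p.v02
    + 4 * p.b10 ^ 2 * s.l2 - 3 * p.b10 * p.b01 * p.u20 - p.b10 * p.b01 * p.v11
    + 8 * p.b10 * p.b01 * s.l1 + 2 * p.b10 * p.c01 * p.u11 + 2 * p.b10 * p.a20 * p.c02
    - 2 * p.b10 * p.a02 * p.c20 + 6 * p.b10 * p.b20 * s.s22 + 2 * p.b10 * p.b11 * s.s12
    - 4 * p.b10 * p.b02 * s.s11 + 3 * p.b10 * p.u20 * s.s2 - 2 * p.b10 * p.u11 * s.s1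
    + 3 * p.b10 * p.v11 * s.s2 - 2 * p.b10 * p.v02 * s.s1 + p.b01 ^ 2 * p.v20
    - 2 * p.b01 * p.c10 * p.u11 + p.b01 * p.a20 * p.c11 - p.b01 * p.a11 * p.c20
    + 2 * p.b01 * p.b20 * s.s12 - 4 * p.b01 * p.b11 * s.s11 - 2 * p.b01 * p.u20 * s.s1
    + 3 * p.b01 * p.v20 * s.s2 - 2 * p.b01 * p.v11 * s.s1 - 2 * p.c10 * p.a20 * p.b02
    - 3 * p.c10 * p.a20 * s.s22 - p.c10 * p.a11 * s.s12 + 2 * p.c10 * p.a02 * p.b20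
    + 2 * p.c10 * p.a02 * s.s11 - 3 * p.c10 * p.u11 * s.s2 + 2 * p.c10 * p.u02 * s.s1
    - p.c01 * p.a20 * p.b11 - p.c01 * p.a20 * s.s12 + p.c01 * p.a11 * p.b20
    + 2 * p.c01 * p.a11 * s.s11 - 3 * p.c01 * p.u20 * s.s2 + 2 * p.c01 * p.u11 * s.s1
    - 3 * p.a20 * p.c11 * s.s2 + 2 * p.a20 * p.c02 * s.s1 - 3 * p.a11 * p.c20 * s.s2
    + 2 * p.a11 * p.c11 * s.s1 + 2 * p.a02 * p.c20 * s.s1 + 6 * p.b20 * p.b11 * s.s2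
    - 4 * p.b20 * p.b02 * s.s1 - 2 * p.b11 ^ 2 * s.s1
def cf_1_2 (p : Par) (s : SPar) : ℂ := 2 * p.a10 * p.b01 * p.v11 - p.a10 * p.c10 * p.u02
    - 1 / 2 * p.a10 * p.c01 * p.u11 + 1 / 2 * p.a10 * p.c01 * p.v02
    - 4 * p.a10 * p.c01 * s.l2 - p.a10 * p.b11 * p.c02 + p.a10 * p.b02 * p.c11
    - 2 * p.a10 * p.c11 * s.s22 + p.a10 * p.c02 * s.s21 - 2 * p.a10 * p.v11 * s.s2
    + 3 * p.a10 * p.v02 * s.s1 - 2 * p.a01 * p.b10 * p.v11 + 3 / 2 * p.a01 * p.c10 * p.u11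
    + 5 / 2 * p.a01 * p.c10 * p.v02 - 4 * p.a01 * p.c10 * s.l2 + 2 * p.a01 * p.c01 * p.u20
    - 4 * p.a01 * p.c01 * s.l1 - 2 * p.a01 * p.b20 * p.c02 + 2 * p.a01 * p.b02 * p.c20
    - 2 * p.a01 * p.c20 * s.s22 + p.a01 * p.c11 * s.s21 + 3 * p.a01 * p.c02 * s.s11
    - 2 * p.a01 * p.v20 * s.s2 + 3 * p.a01 * p.v11 * s.s1 + p.b10 ^ 2 * p.u02
    - p.b10 * p.b01 * p.u11 - 3 * p.b10 * p.b01 * p.v02 + 8 * p.b10 * p.b01 * s.l2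
    + 2 * p.b10 * p.c01 * p.u02 + p.b10 * p.a11 * p.c02 - p.b10 * p.a02 * p.c11
    + 4 * p.b10 * p.b11 * s.s22 - 2 * p.b10 * p.b02 * s.s21 + 2 * p.b10 * p.u11 * s.s2
    - 3 * p.b10 * p.u02 * s.s1 + 2 * p.b10 * p.v02 * s.s2 - 2 * p.b01 ^ 2 * p.u20
    + 4 * p.b01 ^ 2 * s.l1 - 2 * p.b01 * p.c10 * p.u02 + 2 * p.b01 * p.a20 * p.c02
    - 2 * p.b01 * p.a02 * p.c20 + 4 * p.b01 * p.b20 * s.s22 - 2 * p.b01 * p.b11 * s.s21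
    - 6 * p.b01 * p.b02 * s.s11 + 2 * p.b01 * p.u20 * s.s2 - 3 * p.b01 * p.u11 * s.s1
    + 2 * p.b01 * p.v11 * s.s2 - 3 * p.b01 * p.v02 * s.s1 - p.c10 * p.a11 * p.b02
    - 2 * p.c10 * p.a11 * s.s22 + p.c10 * p.a02 * p.b11 + p.c10 * p.a02 * s.s21
    - 2 * p.c10 * p.u02 * s.s2 - 2 * p.c01 * p.a20 * p.b02 - 2 * p.c01 * p.a20 * s.s22
    + p.c01 * p.a11 * s.s21 + 2 * p.c01 * p.a02 * p.b20 + 3 * p.c01 * p.a02 * s.s11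
    - 2 * p.c01 * p.u11 * s.s2 + 3 * p.c01 * p.u02 * s.s1 - 2 * p.a20 * p.c02 * s.s2
    - 2 * p.a11 * p.c11 * s.s2 + 3 * p.a11 * p.c02 * s.s1 - 2 * p.a02 * p.c20 * s.s2
    + 3 * p.a02 * p.c11 * s.s1 + 4 * p.b20 * p.b02 * s.s2 + 2 * p.b11 ^ 2 * s.s2
    - 6 * p.b11 * p.b02 * s.s1
def cf_0_3 (p : Par) (s : SPar) : ℂ := 2 * p.a10 * p.b01 * p.v02
    - 3 / 2 * p.a10 * p.c01 * p.u02 - p.a10 * p.c02 * s.s22 - p.a10 * p.v02 * s.s2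
    - 2 * p.a01 * p.b10 * p.v02 + 1 / 2 * p.a01 * p.c10 * p.u02 + p.a01 * p.c01 * p.u11
    + p.a01 * p.c01 * p.v02 - 4 * p.a01 * p.c01 * s.l2 - p.a01 * p.b11 * p.c02
    + p.a01 * p.b02 * p.c11 - p.a01 * p.c11 * s.s22 + p.a01 * p.c02 * s.s12
    + 2 * p.a01 * p.c02 * s.s21 - p.a01 * p.v11 * s.s2 + 4 * p.a01 * p.v02 * s.s1
    + p.b10 * p.b01 * p.u02 + 2 * p.b10 * p.b02 * s.s22 + p.b10 * p.u02 * s.s2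
    - p.b01 ^ 2 * p.u11 - p.b01 ^ 2 * p.v02 + 4 * p.b01 ^ 2 * s.l2 + p.b01 * p.a11 * p.c02
    - p.b01 * p.a02 * p.c11 + 2 * p.b01 * p.b11 * s.s22 - 2 * p.b01 * p.b02 * s.s12
    - 4 * p.b01 * p.b02 * s.s21 + p.b01 * p.u11 * s.s2 - 4 * p.b01 * p.u02 * s.s1
    + p.b01 * p.v02 * s.s2 - p.c10 * p.a02 * s.s22 - p.c01 * p.a11 * p.b02
    - p.c01 * p.a11 * s.s22 + p.c01 * p.a02 * p.b11 + p.c01 * p.a02 * s.s12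
    + 2 * p.c01 * p.a02 * s.s21 - p.c01 * p.u02 * s.s2 - p.a11 * p.c02 * s.s2
    - p.a02 * p.c11 * s.s2 + 4 * p.a02 * p.c02 * s.s1 + 2 * p.b11 * p.b02 * s.s2
    - 4 * p.b02 ^ 2 * s.s1
def cf_4_0 (p : Par) (s : SPar) : ℂ := 6 * p.a10 * p.c10 * p.q20 - p.a10 * p.b20 * p.v20
    + p.a10 * p.c20 * p.u20 + 3 / 2 * p.a10 * p.c20 * p.v11 - 3 * p.a10 * p.c20 * s.l1
    - 3 / 2 * p.a10 * p.c11 * p.v20 + p.a10 * p.v20 * s.s11 - 6 * p.b10 ^ 2 * p.q20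
    + 3 * p.b10 * p.c01 * p.q20 + p.b10 * p.a20 * p.v20 - p.b10 * p.b20 * p.u20
    - 2 * p.b10 * p.b20 * p.v11 + 6 * p.b10 * p.b20 * s.l1 + p.b10 * p.b11 * p.v20
    - p.b10 * p.c20 * p.u11 + 2 * p.b10 * p.c11 * p.u20 - p.b10 * p.u20 * s.s11
    + 2 * p.b10 * p.v20 * s.s12 + 2 * p.b10 * p.v20 * s.s21 - p.b10 * p.v11 * s.s11
    - 2 * p.b10 * p.q20 * s.s1 - 3 * p.b01 * p.c10 * p.q20 + p.b01 * p.b20 * p.v20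
    - p.b01 * p.c20 * p.u20 - p.b01 * p.v20 * s.s11 + 1 / 2 * p.c10 * p.a20 * p.v11
    - 3 * p.c10 * p.a20 * s.l1 + 1 / 2 * p.c10 * p.a11 * p.v20 + p.c10 * p.b20 * p.u11
    - 2 * p.c10 * p.b11 * p.u20 - 2 * p.c10 * p.u20 * s.s12 - 2 * p.c10 * p.u20 * s.s21
    + p.c10 * p.u11 * s.s11 - 5 * p.c10 * p.q20 * s.s2 + p.c10 * p.q11 * s.s1
    - p.c01 * p.a20 * p.v20 + p.c01 * p.b20 * p.u20 + p.c01 * p.u20 * s.s11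
    + p.c01 * p.q20 * s.s1 - 2 * p.a20 * p.c20 * s.s12 - 2 * p.a20 * p.c20 * s.s21
    + p.a20 * p.c11 * s.s11 + p.a20 * p.v20 * s.s1 + p.a11 * p.c20 * s.s11
    + 2 * p.b20 ^ 2 * s.s12 + 2 * p.b20 ^ 2 * s.s21 - 2 * p.b20 * p.b11 * s.s11
    - p.b20 * p.u20 * s.s1 + 5 * p.b20 * p.v20 * s.s2 - p.b20 * p.v11 * s.s1
    - p.b11 * p.v20 * s.s1 - 5 * p.c20 * p.u20 * s.s2 + p.c20 * p.u11 * s.s1
    + p.c11 * p.u20 * s.s1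
def cf_3_1 (p : Par) (s : SPar) : ℂ := 6 * p.a10 * p.c10 * p.q11 + 3 * p.a10 * p.c01 * p.q20
    - 2 * p.a10 * p.b20 * p.v11 + p.a10 * p.b11 * p.v20 + 1 / 2 * p.a10 * p.c20 * p.u11
    + 3 * p.a10 * p.c20 * p.v02 - 3 * p.a10 * p.c20 * s.l2 + 1 / 2 * p.a10 * p.c11 * p.u20
    - 3 * p.a10 * p.c11 * s.l1 - 3 * p.a10 * p.c02 * p.v20 - p.a10 * p.v20 * s.s12
    - p.a10 * p.v20 * s.s21 + 2 * p.a10 * p.v11 * s.s11 + 2 * p.a10 * p.q20 * s.s1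
    + 9 * p.a01 * p.c10 * p.q20 - 2 * p.a01 * p.b20 * p.v20 + 2 * p.a01 * p.c20 * p.u20
    + 3 / 2 * p.a01 * p.c20 * p.v11 - 3 * p.a01 * p.c20 * s.l1
    - 3 / 2 * p.a01 * p.c11 * p.v20 + 2 * p.a01 * p.v20 * s.s11 - 6 * p.b10 ^ 2 * p.q11
    - 12 * p.b10 * p.b01 * p.q20 + 3 * p.b10 * p.c01 * p.q11 + 2 * p.b10 * p.a20 * p.v11
    - p.b10 * p.a11 * p.v20 + p.b10 * p.b20 * p.u11 - 4 * p.b10 * p.b20 * p.v02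
    + 6 * p.b10 * p.b20 * s.l2 - 2 * p.b10 * p.b11 * p.u20 - p.b10 * p.b11 * p.v11
    + 6 * p.b10 * p.b11 * s.l1 + 2 * p.b10 * p.b02 * p.v20 - 2 * p.b10 * p.c20 * p.u02
    + p.b10 * p.c11 * p.u11 + 4 * p.b10 * p.c02 * p.u20 + p.b10 * p.u20 * s.s12
    + p.b10 * p.u20 * s.s21 - 2 * p.b10 * p.u11 * s.s11 + 4 * p.b10 * p.v20 * s.s22
    + p.b10 * p.v11 * s.s12 + p.b10 * p.v11 * s.s21 - 2 * p.b10 * p.v02 * s.s11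
    + 8 * p.b10 * p.q20 * s.s2 - 4 * p.b10 * p.q11 * s.s1 - 3 * p.b01 * p.c10 * p.q11
    + 2 * p.b01 * p.a20 * p.v20 - 2 * p.b01 * p.b20 * p.u20 - p.b01 * p.b20 * p.v11
    + 6 * p.b01 * p.b20 * s.l1 + 2 * p.b01 * p.b11 * p.v20 - 2 * p.b01 * p.c20 * p.u11
    + p.b01 * p.c11 * p.u20 - 2 * p.b01 * p.u20 * s.s11 + p.b01 * p.v20 * s.s12
    + p.b01 * p.v20 * s.s21 - 2 * p.b01 * p.v11 * s.s11 - 4 * p.b01 * p.q20 * s.s1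
    - 3 / 2 * p.c10 * p.a20 * p.u11 + p.c10 * p.a20 * p.v02 - 3 * p.c10 * p.a20 * s.l2
    + 3 / 2 * p.c10 * p.a11 * p.u20 + p.c10 * p.a11 * p.v11 - 3 * p.c10 * p.a11 * s.l1
    + p.c10 * p.a02 * p.v20 + 2 * p.c10 * p.b20 * p.u02 - p.c10 * p.b11 * p.u11
    - 4 * p.c10 * p.b02 * p.u20 - 4 * p.c10 * p.u20 * s.s22 - p.c10 * p.u11 * s.s12
    - p.c10 * p.u11 * s.s21 + 2 * p.c10 * p.u02 * s.s11 - 4 * p.c10 * p.q11 * s.s2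
    + 2 * p.c10 * p.q02 * s.s1 - 1 / 2 * p.c01 * p.a20 * p.v11 - 3 * p.c01 * p.a20 * s.l1
    - 1 / 2 * p.c01 * p.a11 * p.v20 + 2 * p.c01 * p.b20 * p.u11 - p.c01 * p.b11 * p.u20
    - p.c01 * p.u20 * s.s12 - p.c01 * p.u20 * s.s21 + 2 * p.c01 * p.u11 * s.s11
    - 4 * p.c01 * p.q20 * s.s2 + 2 * p.c01 * p.q11 * s.s1 - 4 * p.a20 * p.c20 * s.s22
    - p.a20 * p.c11 * s.s12 - p.a20 * p.c11 * s.s21 + 2 * p.a20 * p.c02 * s.s11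
    - 4 * p.a20 * p.v20 * s.s2 + 2 * p.a20 * p.v11 * s.s1 - p.a11 * p.c20 * s.s12
    - p.a11 * p.c20 * s.s21 + 2 * p.a11 * p.c11 * s.s11 + 2 * p.a11 * p.v20 * s.s1
    + 2 * p.a02 * p.c20 * s.s11 + 4 * p.b20 ^ 2 * s.s22 + 2 * p.b20 * p.b11 * s.s12
    + 2 * p.b20 * p.b11 * s.s21 - 4 * p.b20 * p.b02 * s.s11 + 4 * p.b20 * p.u20 * s.s2
    - 2 * p.b20 * p.u11 * s.s1 + 4 * p.b20 * p.v11 * s.s2 - 2 * p.b20 * p.v02 * s.s1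
    - 2 * p.b11 ^ 2 * s.s11 - 2 * p.b11 * p.u20 * s.s1 + 4 * p.b11 * p.v20 * s.s2
    - 2 * p.b11 * p.v11 * s.s1 - 2 * p.b02 * p.v20 * s.s1 - 4 * p.c20 * p.u11 * s.s2
    + 2 * p.c20 * p.u02 * s.s1 - 4 * p.c11 * p.u20 * s.s2 + 2 * p.c11 * p.u11 * s.s1
    + 2 * p.c02 * p.u20 * s.s1
def cf_2_2 (p : Par) (s : SPar) : ℂ := 3 * p.a10 * p.b01 * p.q20 + 6 * p.a10 * p.c10 * p.q02
    + 3 * p.a10 * p.c01 * p.q11 - 3 * p.a10 * p.b20 * p.v02 + 3 * p.a10 * p.b02 * p.v20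
    + 3 / 2 * p.a10 * p.c11 * p.v02 - 3 * p.a10 * p.c11 * s.l2
    - 3 / 2 * p.a10 * p.c02 * p.v11 - 3 * p.a10 * p.c02 * s.l1 - 3 * p.a10 * p.v20 * s.s22
    + 3 * p.a10 * p.v02 * s.s11 - 3 * p.a10 * p.q20 * s.s2 + 3 * p.a10 * p.q11 * s.s1
    - 3 * p.a01 * p.b10 * p.q20 + 9 * p.a01 * p.c10 * p.q11 + 6 * p.a01 * p.c01 * p.q20
    - 3 * p.a01 * p.b20 * p.v11 + 3 / 2 * p.a01 * p.c20 * p.u11 + 3 * p.a01 * p.c20 * p.v02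
    - 3 * p.a01 * p.c20 * s.l2 + 3 / 2 * p.a01 * p.c11 * p.u20 - 3 * p.a01 * p.c11 * s.l1
    - 3 * p.a01 * p.c02 * p.v20 + 3 * p.a01 * p.v11 * s.s11 + 3 * p.a01 * p.q20 * s.s1
    - 6 * p.b10 ^ 2 * p.q02 - 12 * p.b10 * p.b01 * p.q11 + 3 * p.b10 * p.c01 * p.q02
    + 3 * p.b10 * p.a20 * p.v02 - 3 * p.b10 * p.a02 * p.v20 + 3 * p.b10 * p.b20 * p.u02
    - 3 * p.b10 * p.b11 * p.v02 + 6 * p.b10 * p.b11 * s.l2 - 3 * p.b10 * p.b02 * p.u20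
    + 6 * p.b10 * p.b02 * s.l1 + 3 * p.b10 * p.c02 * p.u11 + 3 * p.b10 * p.u20 * s.s22
    - 3 * p.b10 * p.u02 * s.s11 + 3 * p.b10 * p.v11 * s.s22 + 6 * p.b10 * p.q11 * s.s2
    - 6 * p.b10 * p.q02 * s.s1 - 6 * p.b01 ^ 2 * p.q20 - 3 * p.b01 * p.c10 * p.q02
    + 3 * p.b01 * p.a20 * p.v11 - 3 * p.b01 * p.b20 * p.v02 + 6 * p.b01 * p.b20 * s.l2
    - 3 * p.b01 * p.b11 * p.u20 + 6 * p.b01 * p.b11 * s.l1 + 3 * p.b01 * p.b02 * p.v20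
    - 3 * p.b01 * p.c20 * p.u02 + 3 * p.b01 * p.c02 * p.u20 - 3 * p.b01 * p.u11 * s.s11
    + 3 * p.b01 * p.v20 * s.s22 - 3 * p.b01 * p.v02 * s.s11 + 6 * p.b01 * p.q20 * s.s2
    - 6 * p.b01 * p.q11 * s.s1 - 3 * p.c10 * p.a20 * p.u02 + 3 / 2 * p.c10 * p.a11 * p.v02
    - 3 * p.c10 * p.a11 * s.l2 + 3 * p.c10 * p.a02 * p.u20 + 3 / 2 * p.c10 * p.a02 * p.v11
    - 3 * p.c10 * p.a02 * s.l1 - 3 * p.c10 * p.b02 * p.u11 - 3 * p.c10 * p.u11 * s.s22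
    - 3 * p.c10 * p.q02 * s.s2 - 3 / 2 * p.c01 * p.a20 * p.u11 - 3 * p.c01 * p.a20 * s.l2
    + 3 / 2 * p.c01 * p.a11 * p.u20 - 3 * p.c01 * p.a11 * s.l1 + 3 * p.c01 * p.b20 * p.u02
    - 3 * p.c01 * p.b02 * p.u20 - 3 * p.c01 * p.u20 * s.s22 + 3 * p.c01 * p.u02 * s.s11
    - 3 * p.c01 * p.q11 * s.s2 + 3 * p.c01 * p.q02 * s.s1 - 3 * p.a20 * p.c11 * s.s22
    - 3 * p.a20 * p.v11 * s.s2 + 3 * p.a20 * p.v02 * s.s1 - 3 * p.a11 * p.c20 * s.s22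
    + 3 * p.a11 * p.c02 * s.s11 - 3 * p.a11 * p.v20 * s.s2 + 3 * p.a11 * p.v11 * s.s1
    + 3 * p.a02 * p.c11 * s.s11 + 3 * p.a02 * p.v20 * s.s1 + 6 * p.b20 * p.b11 * s.s22
    + 3 * p.b20 * p.u11 * s.s2 - 3 * p.b20 * p.u02 * s.s1 + 3 * p.b20 * p.v02 * s.s2
    - 6 * p.b11 * p.b02 * s.s11 + 3 * p.b11 * p.u20 * s.s2 - 3 * p.b11 * p.u11 * s.s1
    + 3 * p.b11 * p.v11 * s.s2 - 3 * p.b11 * p.v02 * s.s1 - 3 * p.b02 * p.u20 * s.s1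
    + 3 * p.b02 * p.v20 * s.s2 - 3 * p.b02 * p.v11 * s.s1 - 3 * p.c20 * p.u02 * s.s2
    - 3 * p.c11 * p.u11 * s.s2 + 3 * p.c11 * p.u02 * s.s1 - 3 * p.c02 * p.u20 * s.s2
    + 3 * p.c02 * p.u11 * s.s1
def cf_1_3 (p : Par) (s : SPar) : ℂ := 3 * p.a10 * p.b01 * p.q11 + 3 * p.a10 * p.c01 * p.q02
    - p.a10 * p.b11 * p.v02 + 2 * p.a10 * p.b02 * p.v11 - 1 / 2 * p.a10 * p.c11 * p.u02
    - 1 / 2 * p.a10 * p.c02 * p.u11 - 3 * p.a10 * p.c02 * s.l2 - 2 * p.a10 * p.v11 * s.s22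
    + p.a10 * p.v02 * s.s12 + p.a10 * p.v02 * s.s21 - 2 * p.a10 * p.q11 * s.s2
    + 4 * p.a10 * p.q02 * s.s1 - 3 * p.a01 * p.b10 * p.q11 + 9 * p.a01 * p.c10 * p.q02
    + 6 * p.a01 * p.c01 * p.q11 - 4 * p.a01 * p.b20 * p.v02 - p.a01 * p.b11 * p.v11
    + 2 * p.a01 * p.b02 * p.v20 + p.a01 * p.c20 * p.u02 + p.a01 * p.c11 * p.u11
    + 3 / 2 * p.a01 * p.c11 * p.v02 - 3 * p.a01 * p.c11 * s.l2 + p.a01 * p.c02 * p.u20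
    - 3 / 2 * p.a01 * p.c02 * p.v11 - 3 * p.a01 * p.c02 * s.l1 - 2 * p.a01 * p.v20 * s.s22
    + p.a01 * p.v11 * s.s12 + p.a01 * p.v11 * s.s21 + 4 * p.a01 * p.v02 * s.s11
    - 2 * p.a01 * p.q20 * s.s2 + 4 * p.a01 * p.q11 * s.s1 - 12 * p.b10 * p.b01 * p.q02
    + p.b10 * p.a11 * p.v02 - 2 * p.b10 * p.a02 * p.v11 + 2 * p.b10 * p.b11 * p.u02
    - p.b10 * p.b02 * p.u11 - 2 * p.b10 * p.b02 * p.v02 + 6 * p.b10 * p.b02 * s.l2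
    + 2 * p.b10 * p.c02 * p.u02 + 2 * p.b10 * p.u11 * s.s22 - p.b10 * p.u02 * s.s12
    - p.b10 * p.u02 * s.s21 + 2 * p.b10 * p.v02 * s.s22 + 4 * p.b10 * p.q02 * s.s2
    - 6 * p.b01 ^ 2 * p.q11 + 4 * p.b01 * p.a20 * p.v02 + p.b01 * p.a11 * p.v11
    - 2 * p.b01 * p.a02 * p.v20 + 2 * p.b01 * p.b20 * p.u02 - p.b01 * p.b11 * p.u11
    - 2 * p.b01 * p.b11 * p.v02 + 6 * p.b01 * p.b11 * s.l2 - 4 * p.b01 * p.b02 * p.u20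
    + p.b01 * p.b02 * p.v11 + 6 * p.b01 * p.b02 * s.l1 - p.b01 * p.c11 * p.u02
    + 2 * p.b01 * p.c02 * p.u11 + 2 * p.b01 * p.u20 * s.s22 - p.b01 * p.u11 * s.s12
    - p.b01 * p.u11 * s.s21 - 4 * p.b01 * p.u02 * s.s11 + 2 * p.b01 * p.v11 * s.s22
    - p.b01 * p.v02 * s.s12 - p.b01 * p.v02 * s.s21 + 4 * p.b01 * p.q11 * s.s2
    - 8 * p.b01 * p.q02 * s.s1 - 3 / 2 * p.c10 * p.a11 * p.u02
    + 3 / 2 * p.c10 * p.a02 * p.u11 + 2 * p.c10 * p.a02 * p.v02 - 3 * p.c10 * p.a02 * s.l2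
    - 2 * p.c10 * p.b02 * p.u02 - 2 * p.c10 * p.u02 * s.s22 - 3 * p.c01 * p.a20 * p.u02
    + 1 / 2 * p.c01 * p.a11 * p.v02 - 3 * p.c01 * p.a11 * s.l2 + 3 * p.c01 * p.a02 * p.u20
    + 1 / 2 * p.c01 * p.a02 * p.v11 - 3 * p.c01 * p.a02 * s.l1 + p.c01 * p.b11 * p.u02
    - 2 * p.c01 * p.b02 * p.u11 - 2 * p.c01 * p.u11 * s.s22 + p.c01 * p.u02 * s.s12
    + p.c01 * p.u02 * s.s21 - 2 * p.c01 * p.q02 * s.s2 - 2 * p.a20 * p.c02 * s.s22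
    - 2 * p.a20 * p.v02 * s.s2 - 2 * p.a11 * p.c11 * s.s22 + p.a11 * p.c02 * s.s12
    + p.a11 * p.c02 * s.s21 - 2 * p.a11 * p.v11 * s.s2 + 4 * p.a11 * p.v02 * s.s1
    - 2 * p.a02 * p.c20 * s.s22 + p.a02 * p.c11 * s.s12 + p.a02 * p.c11 * s.s21
    + 4 * p.a02 * p.c02 * s.s11 - 2 * p.a02 * p.v20 * s.s2 + 4 * p.a02 * p.v11 * s.s1
    + 4 * p.b20 * p.b02 * s.s22 + 2 * p.b20 * p.u02 * s.s2 + 2 * p.b11 ^ 2 * s.s22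
    - 2 * p.b11 * p.b02 * s.s12 - 2 * p.b11 * p.b02 * s.s21 + 2 * p.b11 * p.u11 * s.s2
    - 4 * p.b11 * p.u02 * s.s1 + 2 * p.b11 * p.v02 * s.s2 - 4 * p.b02 ^ 2 * s.s11
    + 2 * p.b02 * p.u20 * s.s2 - 4 * p.b02 * p.u11 * s.s1 + 2 * p.b02 * p.v11 * s.s2
    - 4 * p.b02 * p.v02 * s.s1 - 2 * p.c11 * p.u02 * s.s2 - 2 * p.c02 * p.u11 * s.s2
    + 4 * p.c02 * p.u02 * s.s1
def cf_0_4 (p : Par) (s : SPar) : ℂ := 3 * p.a10 * p.b01 * p.q02 + p.a10 * p.b02 * p.v02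
    - p.a10 * p.c02 * p.u02 - p.a10 * p.v02 * s.s22 - p.a10 * p.q02 * s.s2
    - 3 * p.a01 * p.b10 * p.q02 + 6 * p.a01 * p.c01 * p.q02 - 2 * p.a01 * p.b11 * p.v02
    + p.a01 * p.b02 * p.v11 + 1 / 2 * p.a01 * p.c11 * p.u02 + 1 / 2 * p.a01 * p.c02 * p.u11
    - 3 * p.a01 * p.c02 * s.l2 - p.a01 * p.v11 * s.s22 + 2 * p.a01 * p.v02 * s.s12
    + 2 * p.a01 * p.v02 * s.s21 - p.a01 * p.q11 * s.s2 + 5 * p.a01 * p.q02 * s.s1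
    - p.b10 * p.a02 * p.v02 + p.b10 * p.b02 * p.u02 + p.b10 * p.u02 * s.s22
    - 6 * p.b01 ^ 2 * p.q02 + 2 * p.b01 * p.a11 * p.v02 - p.b01 * p.a02 * p.v11
    + p.b01 * p.b11 * p.u02 - 2 * p.b01 * p.b02 * p.u11 - p.b01 * p.b02 * p.v02
    + 6 * p.b01 * p.b02 * s.l2 + p.b01 * p.c02 * p.u02 + p.b01 * p.u11 * s.s22
    - 2 * p.b01 * p.u02 * s.s12 - 2 * p.b01 * p.u02 * s.s21 + p.b01 * p.v02 * s.s22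
    + 2 * p.b01 * p.q02 * s.s2 - 3 / 2 * p.c01 * p.a11 * p.u02
    + 3 / 2 * p.c01 * p.a02 * p.u11 + p.c01 * p.a02 * p.v02 - 3 * p.c01 * p.a02 * s.l2
    - p.c01 * p.b02 * p.u02 - p.c01 * p.u02 * s.s22 - p.a11 * p.c02 * s.s22
    - p.a11 * p.v02 * s.s2 - p.a02 * p.c11 * s.s22 + 2 * p.a02 * p.c02 * s.s12
    + 2 * p.a02 * p.c02 * s.s21 - p.a02 * p.v11 * s.s2 + 5 * p.a02 * p.v02 * s.s1
    + 2 * p.b11 * p.b02 * s.s22 + p.b11 * p.u02 * s.s2 - 2 * p.b02 ^ 2 * s.s12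
    - 2 * p.b02 ^ 2 * s.s21 + p.b02 * p.u11 * s.s2 - 5 * p.b02 * p.u02 * s.s1
    + p.b02 * p.v02 * s.s2 - p.c02 * p.u02 * s.s2
def cf_5_0 (p : Par) (s : SPar) : ℂ := 6 * p.a10 * p.c20 * p.q20 - 3 / 2 * p.a10 * p.v20 ^ 2
    - 10 * p.b10 * p.b20 * p.q20 - p.b10 * p.c20 * p.q11 + 3 * p.b10 * p.c11 * p.q20
    + 5 / 2 * p.b10 * p.u20 * p.v20 - 1 / 2 * p.b10 * p.v20 * p.v11
    + 2 * p.b10 * p.v20 * s.l1 - 2 * p.b10 * p.q20 * s.s11 - 2 * p.b01 * p.c20 * p.q20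
    + 1 / 2 * p.b01 * p.v20 ^ 2 + 4 * p.c10 * p.a20 * p.q20 + p.c10 * p.b20 * p.q11
    - 3 * p.c10 * p.b11 * p.q20 - p.c10 * p.u20 ^ 2 - 2 * p.c10 * p.u20 * s.l1
    + 1 / 2 * p.c10 * p.u11 * p.v20 - 2 * p.c10 * p.q20 * s.s12 - 3 * p.c10 * p.q20 * s.s21
    + p.c10 * p.q11 * s.s11 + 2 * p.c01 * p.b20 * p.q20 - 1 / 2 * p.c01 * p.u20 * p.v20
    + p.c01 * p.q20 * s.s11 + p.a20 * p.c20 * p.v11 - 2 * p.a20 * p.c20 * s.l1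
    - p.a20 * p.c11 * p.v20 + p.a20 * p.v20 * s.s11 - p.b20 ^ 2 * p.v11
    + 2 * p.b20 ^ 2 * s.l1 + p.b20 * p.b11 * p.v20 + p.b20 * p.c11 * p.u20
    - p.b20 * p.u20 * s.s11 + 2 * p.b20 * p.v20 * s.s12 + 3 * p.b20 * p.v20 * s.s21
    - p.b20 * p.v11 * s.s11 - 2 * p.b20 * p.q20 * s.s1 - p.b11 * p.c20 * p.u20
    - p.b11 * p.v20 * s.s11 - 2 * p.c20 * p.u20 * s.s12 - 3 * p.c20 * p.u20 * s.s21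
    + p.c20 * p.u11 * s.s11 - 6 * p.c20 * p.q20 * s.s2 + p.c20 * p.q11 * s.s1
    + p.c11 * p.u20 * s.s11 + p.c11 * p.q20 * s.s1 + 1 / 2 * p.u20 * p.v20 * s.s1
    + 3 / 2 * p.v20 ^ 2 * s.s2 - 1 / 2 * p.v20 * p.v11 * s.s1
def cf_4_1 (p : Par) (s : SPar) : ℂ := -2 * p.a10 * p.b20 * p.q20 + 7 * p.a10 * p.c20 * p.q11
    + 3 * p.a10 * p.c11 * p.q20 + 1 / 2 * p.a10 * p.u20 * p.v20
    - 5 / 2 * p.a10 * p.v20 * p.v11 - 2 * p.a10 * p.v20 * s.l1 + 2 * p.a10 * p.q20 * s.s11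
    + 8 * p.a01 * p.c20 * p.q20 - 2 * p.a01 * p.v20 ^ 2 + 2 * p.b10 * p.a20 * p.q20
    - 10 * p.b10 * p.b20 * p.q11 - 10 * p.b10 * p.b11 * p.q20 - 2 * p.b10 * p.c20 * p.q02
    + 2 * p.b10 * p.c11 * p.q11 + 6 * p.b10 * p.c02 * p.q20 - 1 / 2 * p.b10 * p.u20 ^ 2
    + 3 * p.b10 * p.u20 * p.v11 + 2 * p.b10 * p.u20 * s.l1 + 2 * p.b10 * p.u11 * p.v20
    - p.b10 * p.v20 * p.v02 + 2 * p.b10 * p.v20 * s.l2 - 1 / 2 * p.b10 * p.v11 ^ 2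
    + 2 * p.b10 * p.v11 * s.l1 + 2 * p.b10 * p.q20 * s.s12 + 4 * p.b10 * p.q20 * s.s21
    - 4 * p.b10 * p.q11 * s.s11 - 10 * p.b01 * p.b20 * p.q20 - 3 * p.b01 * p.c20 * p.q11
    + p.b01 * p.c11 * p.q20 + 5 / 2 * p.b01 * p.u20 * p.v20 + 1 / 2 * p.b01 * p.v20 * p.v11
    + 2 * p.b01 * p.v20 * s.l1 - 4 * p.b01 * p.q20 * s.s11 + 3 * p.c10 * p.a20 * p.q11
    + 7 * p.c10 * p.a11 * p.q20 + 2 * p.c10 * p.b20 * p.q02 - 2 * p.c10 * p.b11 * p.q11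
    - 6 * p.c10 * p.b02 * p.q20 - 5 / 2 * p.c10 * p.u20 * p.u11 - 2 * p.c10 * p.u20 * s.l2
    + 1 / 2 * p.c10 * p.u11 * p.v11 - 2 * p.c10 * p.u11 * s.l1 + p.c10 * p.u02 * p.v20
    - 5 * p.c10 * p.q20 * s.s22 - p.c10 * p.q11 * s.s12 - 2 * p.c10 * p.q11 * s.s21
    + 2 * p.c10 * p.q02 * s.s11 + 2 * p.c01 * p.a20 * p.q20 + 3 * p.c01 * p.b20 * p.q11
    - p.c01 * p.b11 * p.q20 - 1 / 2 * p.c01 * p.u20 ^ 2 - 1 / 2 * p.c01 * p.u20 * p.v11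
    - 2 * p.c01 * p.u20 * s.l1 - p.c01 * p.q20 * s.s12 - 2 * p.c01 * p.q20 * s.s21
    + 2 * p.c01 * p.q11 * s.s11 + p.a20 * p.b11 * p.v20 - p.a20 * p.c20 * p.u11
    + 2 * p.a20 * p.c20 * p.v02 - 2 * p.a20 * p.c20 * s.l2 - 2 * p.a20 * p.c11 * s.l1
    - 2 * p.a20 * p.c02 * p.v20 - p.a20 * p.v20 * s.s12 - 2 * p.a20 * p.v20 * s.s21
    + 2 * p.a20 * p.v11 * s.s11 + 2 * p.a20 * p.q20 * s.s1 - p.a11 * p.b20 * p.v20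
    + p.a11 * p.c20 * p.u20 + p.a11 * p.c20 * p.v11 - 2 * p.a11 * p.c20 * s.l1
    - p.a11 * p.c11 * p.v20 + 2 * p.a11 * p.v20 * s.s11 + p.b20 ^ 2 * p.u11
    - 2 * p.b20 ^ 2 * p.v02 + 2 * p.b20 ^ 2 * s.l2 - p.b20 * p.b11 * p.u20
    - p.b20 * p.b11 * p.v11 + 4 * p.b20 * p.b11 * s.l1 + 2 * p.b20 * p.b02 * p.v20
    + p.b20 * p.c11 * p.u11 + 2 * p.b20 * p.c02 * p.u20 + p.b20 * p.u20 * s.s12
    + 2 * p.b20 * p.u20 * s.s21 - 2 * p.b20 * p.u11 * s.s11 + 5 * p.b20 * p.v20 * s.s22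
    + p.b20 * p.v11 * s.s12 + 2 * p.b20 * p.v11 * s.s21 - 2 * p.b20 * p.v02 * s.s11
    + 10 * p.b20 * p.q20 * s.s2 - 4 * p.b20 * p.q11 * s.s1 + p.b11 ^ 2 * p.v20
    - p.b11 * p.c20 * p.u11 - 2 * p.b11 * p.u20 * s.s11 + p.b11 * p.v20 * s.s12
    + 2 * p.b11 * p.v20 * s.s21 - 2 * p.b11 * p.v11 * s.s11 - 4 * p.b11 * p.q20 * s.s1
    - 2 * p.b02 * p.c20 * p.u20 - 2 * p.b02 * p.v20 * s.s11 - 5 * p.c20 * p.u20 * s.s22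
    - p.c20 * p.u11 * s.s12 - 2 * p.c20 * p.u11 * s.s21 + 2 * p.c20 * p.u02 * s.s11
    - 5 * p.c20 * p.q11 * s.s2 + 2 * p.c20 * p.q02 * s.s1 - p.c11 * p.u20 * s.s12
    - 2 * p.c11 * p.u20 * s.s21 + 2 * p.c11 * p.u11 * s.s11 - 5 * p.c11 * p.q20 * s.s2
    + 2 * p.c11 * p.q11 * s.s1 + 2 * p.c02 * p.u20 * s.s11 + 2 * p.c02 * p.q20 * s.s1
    - 1 / 2 * p.u20 ^ 2 * s.s1 - 5 / 2 * p.u20 * p.v20 * s.s2 + p.u20 * p.v11 * s.s1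
    + p.u11 * p.v20 * s.s1 + 5 / 2 * p.v20 * p.v11 * s.s2 - p.v20 * p.v02 * s.s1
    - 1 / 2 * p.v11 ^ 2 * s.s1
def cf_3_2 (p : Par) (s : SPar) : ℂ := -3 * p.a10 * p.b20 * p.q11 + p.a10 * p.b11 * p.q20
    + 8 * p.a10 * p.c20 * p.q02 + 4 * p.a10 * p.c11 * p.q11 + 1 / 2 * p.a10 * p.u11 * p.v20
    - 2 * p.a10 * p.v20 * p.v02 - 2 * p.a10 * p.v20 * s.l2 - p.a10 * p.v11 ^ 2
    - 2 * p.a10 * p.v11 * s.l1 - p.a10 * p.q20 * s.s21 + 3 * p.a10 * p.q11 * s.s11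
    - 4 * p.a01 * p.b20 * p.q20 + 9 * p.a01 * p.c20 * p.q11 + 5 * p.a01 * p.c11 * p.q20
    + p.a01 * p.u20 * p.v20 - 7 / 2 * p.a01 * p.v20 * p.v11 - 2 * p.a01 * p.v20 * s.l1
    + 3 * p.a01 * p.q20 * s.s11 + 3 * p.b10 * p.a20 * p.q11 - p.b10 * p.a11 * p.q20
    - 10 * p.b10 * p.b20 * p.q02 - 10 * p.b10 * p.b11 * p.q11 - 10 * p.b10 * p.b02 * p.q20
    + p.b10 * p.c11 * p.q02 + 5 * p.b10 * p.c02 * p.q11 - 1 / 2 * p.b10 * p.u20 * p.u11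
    + 7 / 2 * p.b10 * p.u20 * p.v02 + 2 * p.b10 * p.u20 * s.l2
    + 5 / 2 * p.b10 * p.u11 * p.v11 + 2 * p.b10 * p.u11 * s.l1
    + 3 / 2 * p.b10 * p.u02 * p.v20 - 3 / 2 * p.b10 * p.v11 * p.v02
    + 2 * p.b10 * p.v11 * s.l2 + 2 * p.b10 * p.v02 * s.l1 + 8 * p.b10 * p.q20 * s.s22
    + 2 * p.b10 * p.q11 * s.s21 - 6 * p.b10 * p.q02 * s.s11 + 4 * p.b01 * p.a20 * p.q20
    - 10 * p.b01 * p.b20 * p.q11 - 10 * p.b01 * p.b11 * p.q20 - 4 * p.b01 * p.c20 * p.q02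
    + 4 * p.b01 * p.c02 * p.q20 - p.b01 * p.u20 ^ 2 + 3 * p.b01 * p.u20 * p.v11
    + 2 * p.b01 * p.u20 * s.l1 + 2 * p.b01 * p.u11 * p.v20 + 2 * p.b01 * p.v20 * s.l2
    + 2 * p.b01 * p.v11 * s.l1 + 2 * p.b01 * p.q20 * s.s21 - 6 * p.b01 * p.q11 * s.s11
    + 2 * p.c10 * p.a20 * p.q02 + 6 * p.c10 * p.a11 * p.q11 + 10 * p.c10 * p.a02 * p.q20
    - p.c10 * p.b11 * p.q02 - 5 * p.c10 * p.b02 * p.q11 - 3 * p.c10 * p.u20 * p.u02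
    - 3 / 2 * p.c10 * p.u11 ^ 2 + 1 / 2 * p.c10 * p.u11 * p.v02 - 2 * p.c10 * p.u11 * s.l2
    + p.c10 * p.u02 * p.v11 - 2 * p.c10 * p.u02 * s.l1 - 4 * p.c10 * p.q11 * s.s22
    - p.c10 * p.q02 * s.s21 + p.c01 * p.a20 * p.q11 + 5 * p.c01 * p.a11 * p.q20
    + 4 * p.c01 * p.b20 * p.q02 - 4 * p.c01 * p.b02 * p.q20 - 3 / 2 * p.c01 * p.u20 * p.u11
    - 1 / 2 * p.c01 * p.u20 * p.v02 - 2 * p.c01 * p.u20 * s.l2 - 2 * p.c01 * p.u11 * s.l1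
    + 1 / 2 * p.c01 * p.u02 * p.v20 - 4 * p.c01 * p.q20 * s.s22 - p.c01 * p.q11 * s.s21
    + 3 * p.c01 * p.q02 * s.s11 + p.a20 * p.b11 * p.v11 + 2 * p.a20 * p.b02 * p.v20
    - 2 * p.a20 * p.c20 * p.u02 - p.a20 * p.c11 * p.u11 + p.a20 * p.c11 * p.v02
    - 2 * p.a20 * p.c11 * s.l2 - p.a20 * p.c02 * p.v11 - 2 * p.a20 * p.c02 * s.l1
    - 4 * p.a20 * p.v20 * s.s22 - p.a20 * p.v11 * s.s21 + 3 * p.a20 * p.v02 * s.s11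
    - 4 * p.a20 * p.q20 * s.s2 + 3 * p.a20 * p.q11 * s.s1 - p.a11 * p.b20 * p.v11
    + 2 * p.a11 * p.c20 * p.v02 - 2 * p.a11 * p.c20 * s.l2 + p.a11 * p.c11 * p.u20
    - 2 * p.a11 * p.c11 * s.l1 - 2 * p.a11 * p.c02 * p.v20 - p.a11 * p.v20 * s.s21
    + 3 * p.a11 * p.v11 * s.s11 + 3 * p.a11 * p.q20 * s.s1 - 2 * p.a02 * p.b20 * p.v20
    + 2 * p.a02 * p.c20 * p.u20 + p.a02 * p.c20 * p.v11 - 2 * p.a02 * p.c20 * s.l1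
    - p.a02 * p.c11 * p.v20 + 3 * p.a02 * p.v20 * s.s11 + 2 * p.b20 ^ 2 * p.u02
    + p.b20 * p.b11 * p.u11 - 3 * p.b20 * p.b11 * p.v02 + 4 * p.b20 * p.b11 * s.l2
    - 2 * p.b20 * p.b02 * p.u20 + 4 * p.b20 * p.b02 * s.l1 + p.b20 * p.c11 * p.u02
    + 2 * p.b20 * p.c02 * p.u11 + 4 * p.b20 * p.u20 * s.s22 + p.b20 * p.u11 * s.s21
    - 3 * p.b20 * p.u02 * s.s11 + 4 * p.b20 * p.v11 * s.s22 + p.b20 * p.v02 * s.s21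
    + 8 * p.b20 * p.q11 * s.s2 - 6 * p.b20 * p.q02 * s.s1 - p.b11 ^ 2 * p.u20
    + 2 * p.b11 ^ 2 * s.l1 + 3 * p.b11 * p.b02 * p.v20 - p.b11 * p.c20 * p.u02
    + p.b11 * p.c02 * p.u20 + p.b11 * p.u20 * s.s21 - 3 * p.b11 * p.u11 * s.s11
    + 4 * p.b11 * p.v20 * s.s22 + p.b11 * p.v11 * s.s21 - 3 * p.b11 * p.v02 * s.s11
    + 8 * p.b11 * p.q20 * s.s2 - 6 * p.b11 * p.q11 * s.s1 - 2 * p.b02 * p.c20 * p.u11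
    - p.b02 * p.c11 * p.u20 - 3 * p.b02 * p.u20 * s.s11 + p.b02 * p.v20 * s.s21
    - 3 * p.b02 * p.v11 * s.s11 - 6 * p.b02 * p.q20 * s.s1 - 4 * p.c20 * p.u11 * s.s22
    - p.c20 * p.u02 * s.s21 - 4 * p.c20 * p.q02 * s.s2 - 4 * p.c11 * p.u20 * s.s22
    - p.c11 * p.u11 * s.s21 + 3 * p.c11 * p.u02 * s.s11 - 4 * p.c11 * p.q11 * s.s2
    + 3 * p.c11 * p.q02 * s.s1 - p.c02 * p.u20 * s.s21 + 3 * p.c02 * p.u11 * s.s11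
    - 4 * p.c02 * p.q20 * s.s2 + 3 * p.c02 * p.q11 * s.s1 + p.u20 ^ 2 * s.s2
    - 3 / 2 * p.u20 * p.u11 * s.s1 - 2 * p.u20 * p.v11 * s.s2 + 3 / 2 * p.u20 * p.v02 * s.s1
    - 2 * p.u11 * p.v20 * s.s2 + 3 / 2 * p.u11 * p.v11 * s.s1 + 3 / 2 * p.u02 * p.v20 * s.s1
    + 2 * p.v20 * p.v02 * s.s2 + p.v11 ^ 2 * s.s2 - 3 / 2 * p.v11 * p.v02 * s.s1
def cf_2_3 (p : Par) (s : SPar) : ℂ := -4 * p.a10 * p.b20 * p.q02 + 4 * p.a10 * p.b02 * p.q20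
    + 5 * p.a10 * p.c11 * p.q02 + p.a10 * p.c02 * p.q11 - 1 / 2 * p.a10 * p.u20 * p.v02
    + 1 / 2 * p.a10 * p.u02 * p.v20 - 3 / 2 * p.a10 * p.v11 * p.v02
    - 2 * p.a10 * p.v11 * s.l2 - 2 * p.a10 * p.v02 * s.l1 - 3 * p.a10 * p.q20 * s.s22
    + p.a10 * p.q11 * s.s12 + 4 * p.a10 * p.q02 * s.s11 - 5 * p.a01 * p.b20 * p.q11
    - p.a01 * p.b11 * p.q20 + 10 * p.a01 * p.c20 * p.q02 + 6 * p.a01 * p.c11 * p.q11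
    + 2 * p.a01 * p.c02 * p.q20 + 1 / 2 * p.a01 * p.u20 * p.v11 + p.a01 * p.u11 * p.v20
    - 3 * p.a01 * p.v20 * p.v02 - 2 * p.a01 * p.v20 * s.l2 - 3 / 2 * p.a01 * p.v11 ^ 2
    - 2 * p.a01 * p.v11 * s.l1 + p.a01 * p.q20 * s.s12 + 4 * p.a01 * p.q11 * s.s11
    + 4 * p.b10 * p.a20 * p.q02 - 4 * p.b10 * p.a02 * p.q20 - 10 * p.b10 * p.b11 * p.q02
    - 10 * p.b10 * p.b02 * p.q11 + 4 * p.b10 * p.c02 * p.q02 + 3 * p.b10 * p.u11 * p.v02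
    + 2 * p.b10 * p.u11 * s.l2 + 2 * p.b10 * p.u02 * p.v11 + 2 * p.b10 * p.u02 * s.l1
    - p.b10 * p.v02 ^ 2 + 2 * p.b10 * p.v02 * s.l2 + 6 * p.b10 * p.q11 * s.s22
    - 2 * p.b10 * p.q02 * s.s12 + 5 * p.b01 * p.a20 * p.q11 + p.b01 * p.a11 * p.q20
    - 10 * p.b01 * p.b20 * p.q02 - 10 * p.b01 * p.b11 * p.q11 - 10 * p.b01 * p.b02 * p.q20
    - p.b01 * p.c11 * p.q02 + 3 * p.b01 * p.c02 * p.q11 - 3 / 2 * p.b01 * p.u20 * p.u11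
    + 7 / 2 * p.b01 * p.u20 * p.v02 + 2 * p.b01 * p.u20 * s.l2
    + 5 / 2 * p.b01 * p.u11 * p.v11 + 2 * p.b01 * p.u11 * s.l1
    + 3 / 2 * p.b01 * p.u02 * p.v20 - 1 / 2 * p.b01 * p.v11 * p.v02
    + 2 * p.b01 * p.v11 * s.l2 + 2 * p.b01 * p.v02 * s.l1 + 6 * p.b01 * p.q20 * s.s22
    - 2 * p.b01 * p.q11 * s.s12 - 8 * p.b01 * p.q02 * s.s11 + 5 * p.c10 * p.a11 * p.q02
    + 9 * p.c10 * p.a02 * p.q11 - 4 * p.c10 * p.b02 * p.q02 - 7 / 2 * p.c10 * p.u11 * p.u02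
    + p.c10 * p.u02 * p.v02 - 2 * p.c10 * p.u02 * s.l2 - 3 * p.c10 * p.q02 * s.s22
    + 4 * p.c01 * p.a11 * p.q11 + 8 * p.c01 * p.a02 * p.q20 + p.c01 * p.b11 * p.q02
    - 3 * p.c01 * p.b02 * p.q11 - 2 * p.c01 * p.u20 * p.u02 - p.c01 * p.u11 ^ 2
    - 2 * p.c01 * p.u11 * s.l2 + 1 / 2 * p.c01 * p.u02 * p.v11 - 2 * p.c01 * p.u02 * s.l1
    - 3 * p.c01 * p.q11 * s.s22 + p.c01 * p.q02 * s.s12 + p.a20 * p.b11 * p.v02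
    + 2 * p.a20 * p.b02 * p.v11 - 2 * p.a20 * p.c11 * p.u02 - p.a20 * p.c02 * p.u11
    - 2 * p.a20 * p.c02 * s.l2 - 3 * p.a20 * p.v11 * s.s22 + p.a20 * p.v02 * s.s12
    - 3 * p.a20 * p.q11 * s.s2 + 4 * p.a20 * p.q02 * s.s1 - p.a11 * p.b20 * p.v02
    + p.a11 * p.b02 * p.v20 - p.a11 * p.c20 * p.u02 + p.a11 * p.c11 * p.v02
    - 2 * p.a11 * p.c11 * s.l2 + p.a11 * p.c02 * p.u20 - p.a11 * p.c02 * p.v11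
    - 2 * p.a11 * p.c02 * s.l1 - 3 * p.a11 * p.v20 * s.s22 + p.a11 * p.v11 * s.s12
    + 4 * p.a11 * p.v02 * s.s11 - 3 * p.a11 * p.q20 * s.s2 + 4 * p.a11 * p.q11 * s.s1
    - 2 * p.a02 * p.b20 * p.v11 - p.a02 * p.b11 * p.v20 + p.a02 * p.c20 * p.u11
    + 2 * p.a02 * p.c20 * p.v02 - 2 * p.a02 * p.c20 * s.l2 + 2 * p.a02 * p.c11 * p.u20
    - 2 * p.a02 * p.c11 * s.l1 - 2 * p.a02 * p.c02 * p.v20 + p.a02 * p.v20 * s.s12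
    + 4 * p.a02 * p.v11 * s.s11 + 4 * p.a02 * p.q20 * s.s1 + 3 * p.b20 * p.b11 * p.u02
    - 2 * p.b20 * p.b02 * p.v02 + 4 * p.b20 * p.b02 * s.l2 + 2 * p.b20 * p.c02 * p.u02
    + 3 * p.b20 * p.u11 * s.s22 - p.b20 * p.u02 * s.s12 + 3 * p.b20 * p.v02 * s.s22
    + 6 * p.b20 * p.q02 * s.s2 - p.b11 ^ 2 * p.v02 + 2 * p.b11 ^ 2 * s.l2
    - 3 * p.b11 * p.b02 * p.u20 + p.b11 * p.b02 * p.v11 + 4 * p.b11 * p.b02 * s.l1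
    + p.b11 * p.c02 * p.u11 + 3 * p.b11 * p.u20 * s.s22 - p.b11 * p.u11 * s.s12
    - 4 * p.b11 * p.u02 * s.s11 + 3 * p.b11 * p.v11 * s.s22 - p.b11 * p.v02 * s.s12
    + 6 * p.b11 * p.q11 * s.s2 - 8 * p.b11 * p.q02 * s.s1 + 2 * p.b02 ^ 2 * p.v20
    - 2 * p.b02 * p.c20 * p.u02 - p.b02 * p.c11 * p.u11 - p.b02 * p.u20 * s.s12
    - 4 * p.b02 * p.u11 * s.s11 + 3 * p.b02 * p.v20 * s.s22 - p.b02 * p.v11 * s.s12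
    - 4 * p.b02 * p.v02 * s.s11 + 6 * p.b02 * p.q20 * s.s2 - 8 * p.b02 * p.q11 * s.s1
    - 3 * p.c20 * p.u02 * s.s22 - 3 * p.c11 * p.u11 * s.s22 + p.c11 * p.u02 * s.s12
    - 3 * p.c11 * p.q02 * s.s2 - 3 * p.c02 * p.u20 * s.s22 + p.c02 * p.u11 * s.s12
    + 4 * p.c02 * p.u02 * s.s11 - 3 * p.c02 * p.q11 * s.s2 + 4 * p.c02 * p.q02 * s.s1
    + 3 / 2 * p.u20 * p.u11 * s.s2 - 2 * p.u20 * p.u02 * s.s1 - 3 / 2 * p.u20 * p.v02 * s.s2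
    - p.u11 ^ 2 * s.s1 - 3 / 2 * p.u11 * p.v11 * s.s2 + 2 * p.u11 * p.v02 * s.s1
    - 3 / 2 * p.u02 * p.v20 * s.s2 + 2 * p.u02 * p.v11 * s.s1 + 3 / 2 * p.v11 * p.v02 * s.s2
    - p.v02 ^ 2 * s.s1
def cf_1_4 (p : Par) (s : SPar) : ℂ := -p.a10 * p.b11 * p.q02 + 3 * p.a10 * p.b02 * p.q11
    + 2 * p.a10 * p.c02 * p.q02 - 1 / 2 * p.a10 * p.u11 * p.v02 - 1 / 2 * p.a10 * p.v02 ^ 2
    - 2 * p.a10 * p.v02 * s.l2 - 2 * p.a10 * p.q11 * s.s22 + 2 * p.a10 * p.q02 * s.s12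
    + p.a10 * p.q02 * s.s21 - 6 * p.a01 * p.b20 * p.q02 - 2 * p.a01 * p.b11 * p.q11
    + 2 * p.a01 * p.b02 * p.q20 + 7 * p.a01 * p.c11 * p.q02 + 3 * p.a01 * p.c02 * p.q11
    + 1 / 2 * p.a01 * p.u11 * p.v11 + p.a01 * p.u02 * p.v20 - 5 / 2 * p.a01 * p.v11 * p.v02
    - 2 * p.a01 * p.v11 * s.l2 - 2 * p.a01 * p.v02 * s.l1 - 2 * p.a01 * p.q20 * s.s22
    + 2 * p.a01 * p.q11 * s.s12 + p.a01 * p.q11 * s.s21 + 5 * p.a01 * p.q02 * s.s11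
    + p.b10 * p.a11 * p.q02 - 3 * p.b10 * p.a02 * p.q11 - 10 * p.b10 * p.b02 * p.q02
    + 1 / 2 * p.b10 * p.u11 * p.u02 + 5 / 2 * p.b10 * p.u02 * p.v02
    + 2 * p.b10 * p.u02 * s.l2 + 4 * p.b10 * p.q02 * s.s22 + 6 * p.b01 * p.a20 * p.q02
    + 2 * p.b01 * p.a11 * p.q11 - 2 * p.b01 * p.a02 * p.q20 - 10 * p.b01 * p.b11 * p.q02
    - 10 * p.b01 * p.b02 * p.q11 + 2 * p.b01 * p.c02 * p.q02 - p.b01 * p.u20 * p.u02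
    - 1 / 2 * p.b01 * p.u11 ^ 2 + 3 * p.b01 * p.u11 * p.v02 + 2 * p.b01 * p.u11 * s.l2
    + 2 * p.b01 * p.u02 * p.v11 + 2 * p.b01 * p.u02 * s.l1 - 1 / 2 * p.b01 * p.v02 ^ 2
    + 2 * p.b01 * p.v02 * s.l2 + 4 * p.b01 * p.q11 * s.s22 - 4 * p.b01 * p.q02 * s.s12
    - 2 * p.b01 * p.q02 * s.s21 + 8 * p.c10 * p.a02 * p.q02 - 2 * p.c10 * p.u02 ^ 2
    + 3 * p.c01 * p.a11 * p.q02 + 7 * p.c01 * p.a02 * p.q11 - 2 * p.c01 * p.b02 * p.q02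
    - 5 / 2 * p.c01 * p.u11 * p.u02 + 1 / 2 * p.c01 * p.u02 * p.v02
    - 2 * p.c01 * p.u02 * s.l2 - 2 * p.c01 * p.q02 * s.s22 + 2 * p.a20 * p.b02 * p.v02
    - 2 * p.a20 * p.c02 * p.u02 - 2 * p.a20 * p.v02 * s.s22 - 2 * p.a20 * p.q02 * s.s2
    + p.a11 * p.b02 * p.v11 - p.a11 * p.c11 * p.u02 - 2 * p.a11 * p.c02 * s.l2
    - 2 * p.a11 * p.v11 * s.s22 + 2 * p.a11 * p.v02 * s.s12 + p.a11 * p.v02 * s.s21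
    - 2 * p.a11 * p.q11 * s.s2 + 5 * p.a11 * p.q02 * s.s1 - 2 * p.a02 * p.b20 * p.v02
    - p.a02 * p.b11 * p.v11 + p.a02 * p.c11 * p.u11 + p.a02 * p.c11 * p.v02
    - 2 * p.a02 * p.c11 * s.l2 + 2 * p.a02 * p.c02 * p.u20 - p.a02 * p.c02 * p.v11
    - 2 * p.a02 * p.c02 * s.l1 - 2 * p.a02 * p.v20 * s.s22 + 2 * p.a02 * p.v11 * s.s12
    + p.a02 * p.v11 * s.s21 + 5 * p.a02 * p.v02 * s.s11 - 2 * p.a02 * p.q20 * s.s2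
    + 5 * p.a02 * p.q11 * s.s1 + 2 * p.b20 * p.b02 * p.u02 + 2 * p.b20 * p.u02 * s.s22
    + p.b11 ^ 2 * p.u02 - p.b11 * p.b02 * p.u11 - p.b11 * p.b02 * p.v02
    + 4 * p.b11 * p.b02 * s.l2 + p.b11 * p.c02 * p.u02 + 2 * p.b11 * p.u11 * s.s22
    - 2 * p.b11 * p.u02 * s.s12 - p.b11 * p.u02 * s.s21 + 2 * p.b11 * p.v02 * s.s22
    + 4 * p.b11 * p.q02 * s.s2 - 2 * p.b02 ^ 2 * p.u20 + p.b02 ^ 2 * p.v11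
    + 2 * p.b02 ^ 2 * s.l1 - p.b02 * p.c11 * p.u02 + 2 * p.b02 * p.u20 * s.s22
    - 2 * p.b02 * p.u11 * s.s12 - p.b02 * p.u11 * s.s21 - 5 * p.b02 * p.u02 * s.s11
    + 2 * p.b02 * p.v11 * s.s22 - 2 * p.b02 * p.v02 * s.s12 - p.b02 * p.v02 * s.s21
    + 4 * p.b02 * p.q11 * s.s2 - 10 * p.b02 * p.q02 * s.s1 - 2 * p.c11 * p.u02 * s.s22
    - 2 * p.c02 * p.u11 * s.s22 + 2 * p.c02 * p.u02 * s.s12 + p.c02 * p.u02 * s.s21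
    - 2 * p.c02 * p.q02 * s.s2 + p.u20 * p.u02 * s.s2 + 1 / 2 * p.u11 ^ 2 * s.s2
    - 5 / 2 * p.u11 * p.u02 * s.s1 - p.u11 * p.v02 * s.s2 - p.u02 * p.v11 * s.s2
    + 5 / 2 * p.u02 * p.v02 * s.s1 + 1 / 2 * p.v02 ^ 2 * s.s2
def cf_0_5 (p : Par) (s : SPar) : ℂ := 2 * p.a10 * p.b02 * p.q02
    - 1 / 2 * p.a10 * p.u02 * p.v02 - p.a10 * p.q02 * s.s22 - 3 * p.a01 * p.b11 * p.q02
    + p.a01 * p.b02 * p.q11 + 4 * p.a01 * p.c02 * p.q02 + 1 / 2 * p.a01 * p.u02 * p.v11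
    - p.a01 * p.v02 ^ 2 - 2 * p.a01 * p.v02 * s.l2 - p.a01 * p.q11 * s.s22
    + 3 * p.a01 * p.q02 * s.s12 + 2 * p.a01 * p.q02 * s.s21 - 2 * p.b10 * p.a02 * p.q02
    + 1 / 2 * p.b10 * p.u02 ^ 2 + 3 * p.b01 * p.a11 * p.q02 - p.b01 * p.a02 * p.q11
    - 10 * p.b01 * p.b02 * p.q02 - 1 / 2 * p.b01 * p.u11 * p.u02
    + 5 / 2 * p.b01 * p.u02 * p.v02 + 2 * p.b01 * p.u02 * s.l2 + 2 * p.b01 * p.q02 * s.s22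
    + 6 * p.c01 * p.a02 * p.q02 - 3 / 2 * p.c01 * p.u02 ^ 2 + p.a11 * p.b02 * p.v02
    - p.a11 * p.c02 * p.u02 - p.a11 * p.v02 * s.s22 - p.a11 * p.q02 * s.s2
    - p.a02 * p.b11 * p.v02 + p.a02 * p.c02 * p.u11 - 2 * p.a02 * p.c02 * s.l2
    - p.a02 * p.v11 * s.s22 + 3 * p.a02 * p.v02 * s.s12 + 2 * p.a02 * p.v02 * s.s21
    - p.a02 * p.q11 * s.s2 + 6 * p.a02 * p.q02 * s.s1 + p.b11 * p.b02 * p.u02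
    + p.b11 * p.u02 * s.s22 - p.b02 ^ 2 * p.u11 + 2 * p.b02 ^ 2 * s.l2
    + p.b02 * p.u11 * s.s22 - 3 * p.b02 * p.u02 * s.s12 - 2 * p.b02 * p.u02 * s.s21
    + p.b02 * p.v02 * s.s22 + 2 * p.b02 * p.q02 * s.s2 - p.c02 * p.u02 * s.s22
    + 1 / 2 * p.u11 * p.u02 * s.s2 - 3 / 2 * p.u02 ^ 2 * s.s1 - 1 / 2 * p.u02 * p.v02 * s.s2
def cf_6_0 (p : Par) (s : SPar) : ℂ := 1 / 2 * p.c10 * p.v20 * p.q11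
    - 1 / 2 * p.c10 * p.v11 * p.q20 - p.c10 * p.q20 * s.l1 + 4 * p.a20 * p.c20 * p.q20
    - p.a20 * p.v20 ^ 2 - 4 * p.b20 ^ 2 * p.q20 + 2 * p.b20 * p.c11 * p.q20
    + 2 * p.b20 * p.u20 * p.v20 - 1 / 2 * p.b20 * p.v20 * p.v11 + p.b20 * p.v20 * s.l1
    - 2 * p.b20 * p.q20 * s.s11 - 2 * p.b11 * p.c20 * p.q20 + 1 / 2 * p.b11 * p.v20 ^ 2
    - p.c20 * p.u20 ^ 2 + 1 / 2 * p.c20 * p.u20 * p.v11 - p.c20 * p.u20 * s.l1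
    - 2 * p.c20 * p.q20 * s.s12 - 4 * p.c20 * p.q20 * s.s21 + p.c20 * p.q11 * s.s11
    - 1 / 2 * p.c11 * p.u20 * p.v20 + p.c11 * p.q20 * s.s11 + 1 / 2 * p.u20 * p.v20 * s.s11
    + 1 / 2 * p.v20 ^ 2 * s.s12 + p.v20 ^ 2 * s.s21 - 1 / 2 * p.v20 * p.v11 * s.s11
def cf_5_1 (p : Par) (s : SPar) : ℂ := -p.b10 * p.v20 * p.q11 + p.b10 * p.v11 * p.q20
    + 2 * p.b10 * p.q20 * s.l1 - 1 / 2 * p.c10 * p.u20 * p.q11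
    + 1 / 2 * p.c10 * p.u11 * p.q20 + p.c10 * p.v20 * p.q02 - p.c10 * p.v02 * p.q20
    - p.c10 * p.q20 * s.l2 - p.c10 * p.q11 * s.l1 + 1 / 2 * p.c01 * p.v20 * p.q11
    - 1 / 2 * p.c01 * p.v11 * p.q20 - p.c01 * p.q20 * s.l1 + 4 * p.a20 * p.c20 * p.q11
    + 2 * p.a20 * p.c11 * p.q20 - 3 / 2 * p.a20 * p.v20 * p.v11 - p.a20 * p.v20 * s.l1
    + 2 * p.a20 * p.q20 * s.s11 + 6 * p.a11 * p.c20 * p.q20 - 3 / 2 * p.a11 * p.v20 ^ 2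
    - 4 * p.b20 ^ 2 * p.q11 - 8 * p.b20 * p.b11 * p.q20 + 2 * p.b20 * p.c11 * p.q11
    + 4 * p.b20 * p.c02 * p.q20 + 3 / 2 * p.b20 * p.u20 * p.v11 + p.b20 * p.u20 * s.l1
    + 5 / 2 * p.b20 * p.u11 * p.v20 - p.b20 * p.v20 * p.v02 + p.b20 * p.v20 * s.l2
    - 1 / 2 * p.b20 * p.v11 ^ 2 + p.b20 * p.v11 * s.l1 + 2 * p.b20 * p.q20 * s.s12
    + 6 * p.b20 * p.q20 * s.s21 - 4 * p.b20 * p.q11 * s.s11 - 2 * p.b11 * p.c20 * p.q11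
    + 2 * p.b11 * p.u20 * p.v20 + 1 / 2 * p.b11 * p.v20 * p.v11 + p.b11 * p.v20 * s.l1
    - 4 * p.b11 * p.q20 * s.s11 - 4 * p.b02 * p.c20 * p.q20 + p.b02 * p.v20 ^ 2
    - 5 / 2 * p.c20 * p.u20 * p.u11 + p.c20 * p.u20 * p.v02 - p.c20 * p.u20 * s.l2
    + 1 / 2 * p.c20 * p.u11 * p.v11 - p.c20 * p.u11 * s.l1 - 6 * p.c20 * p.q20 * s.s22
    - p.c20 * p.q11 * s.s12 - 3 * p.c20 * p.q11 * s.s21 + 2 * p.c20 * p.q02 * s.s11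
    - 1 / 2 * p.c11 * p.u20 ^ 2 - p.c11 * p.u20 * s.l1 - 1 / 2 * p.c11 * p.u11 * p.v20
    - p.c11 * p.q20 * s.s12 - 3 * p.c11 * p.q20 * s.s21 + 2 * p.c11 * p.q11 * s.s11
    - p.c02 * p.u20 * p.v20 + 2 * p.c02 * p.q20 * s.s11 - 1 / 2 * p.u20 ^ 2 * s.s11
    - 1 / 2 * p.u20 * p.v20 * s.s12 - 3 / 2 * p.u20 * p.v20 * s.s21 + p.u20 * p.v11 * s.s11
    + p.u11 * p.v20 * s.s11 + 3 / 2 * p.v20 ^ 2 * s.s22 + 1 / 2 * p.v20 * p.v11 * s.s12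
    + 3 / 2 * p.v20 * p.v11 * s.s21 - p.v20 * p.v02 * s.s11 - 1 / 2 * p.v11 ^ 2 * s.s11
def cf_4_2 (p : Par) (s : SPar) : ℂ := 1 / 2 * p.a10 * p.v20 * p.q11
    - 1 / 2 * p.a10 * p.v11 * p.q20 - p.a10 * p.q20 * s.l1 + p.b10 * p.u20 * p.q11
    - p.b10 * p.u11 * p.q20 - 2 * p.b10 * p.v20 * p.q02 + 2 * p.b10 * p.v02 * p.q20
    + 2 * p.b10 * p.q20 * s.l2 + 2 * p.b10 * p.q11 * s.l1 - p.b01 * p.v20 * p.q11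
    + p.b01 * p.v11 * p.q20 + 2 * p.b01 * p.q20 * s.l1 - p.c10 * p.u20 * p.q02
    + p.c10 * p.u02 * p.q20 + 1 / 2 * p.c10 * p.v11 * p.q02 - 1 / 2 * p.c10 * p.v02 * p.q11
    - p.c10 * p.q11 * s.l2 - p.c10 * p.q02 * s.l1 - 1 / 2 * p.c01 * p.u20 * p.q11
    + 1 / 2 * p.c01 * p.u11 * p.q20 + p.c01 * p.v20 * p.q02 - p.c01 * p.v02 * p.q20
    - p.c01 * p.q20 * s.l2 - p.c01 * p.q11 * s.l1 + 2 * p.a20 * p.b11 * p.q20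
    + 4 * p.a20 * p.c20 * p.q02 + 2 * p.a20 * p.c11 * p.q11 - 1 / 2 * p.a20 * p.u11 * p.v20
    - p.a20 * p.v20 * p.v02 - p.a20 * p.v20 * s.l2 - 1 / 2 * p.a20 * p.v11 ^ 2
    - p.a20 * p.v11 * s.l1 - 2 * p.a20 * p.q20 * s.s21 + 3 * p.a20 * p.q11 * s.s11
    - 2 * p.a11 * p.b20 * p.q20 + 6 * p.a11 * p.c20 * p.q11 + 4 * p.a11 * p.c11 * p.q20
    + 1 / 2 * p.a11 * p.u20 * p.v20 - 5 / 2 * p.a11 * p.v20 * p.v11 - p.a11 * p.v20 * s.l1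
    + 3 * p.a11 * p.q20 * s.s11 + 8 * p.a02 * p.c20 * p.q20 - 2 * p.a02 * p.v20 ^ 2
    - 4 * p.b20 ^ 2 * p.q02 - 8 * p.b20 * p.b11 * p.q11 - 8 * p.b20 * p.b02 * p.q20
    + 2 * p.b20 * p.c11 * p.q02 + 4 * p.b20 * p.c02 * p.q11 + 1 / 2 * p.b20 * p.u20 * p.u11
    + p.b20 * p.u20 * p.v02 + p.b20 * p.u20 * s.l2 + 2 * p.b20 * p.u11 * p.v11
    + p.b20 * p.u11 * s.l1 + 3 * p.b20 * p.u02 * p.v20 - 3 / 2 * p.b20 * p.v11 * p.v02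
    + p.b20 * p.v11 * s.l2 + p.b20 * p.v02 * s.l1 + 10 * p.b20 * p.q20 * s.s22
    + 4 * p.b20 * p.q11 * s.s21 - 6 * p.b20 * p.q02 * s.s11 - 4 * p.b11 ^ 2 * p.q20
    - 2 * p.b11 * p.c20 * p.q02 + 2 * p.b11 * p.c02 * p.q20 - 1 / 2 * p.b11 * p.u20 ^ 2
    + 3 / 2 * p.b11 * p.u20 * p.v11 + p.b11 * p.u20 * s.l1 + 5 / 2 * p.b11 * p.u11 * p.v20
    + p.b11 * p.v20 * s.l2 + p.b11 * p.v11 * s.l1 + 4 * p.b11 * p.q20 * s.s21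
    - 6 * p.b11 * p.q11 * s.s11 - 4 * p.b02 * p.c20 * p.q11 - 2 * p.b02 * p.c11 * p.q20
    + 2 * p.b02 * p.u20 * p.v20 + 3 / 2 * p.b02 * p.v20 * p.v11 + p.b02 * p.v20 * s.l1
    - 6 * p.b02 * p.q20 * s.s11 - 3 * p.c20 * p.u20 * p.u02 - 3 / 2 * p.c20 * p.u11 ^ 2
    + p.c20 * p.u11 * p.v02 - p.c20 * p.u11 * s.l2 + 1 / 2 * p.c20 * p.u02 * p.v11
    - p.c20 * p.u02 * s.l1 - 5 * p.c20 * p.q11 * s.s22 - 2 * p.c20 * p.q02 * s.s21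
    - 3 / 2 * p.c11 * p.u20 * p.u11 + 1 / 2 * p.c11 * p.u20 * p.v02 - p.c11 * p.u20 * s.l2
    - p.c11 * p.u11 * s.l1 - 1 / 2 * p.c11 * p.u02 * p.v20 - 5 * p.c11 * p.q20 * s.s22
    - 2 * p.c11 * p.q11 * s.s21 + 3 * p.c11 * p.q02 * s.s11 - 1 / 2 * p.c02 * p.u20 * p.v11
    - p.c02 * p.u20 * s.l1 - p.c02 * p.u11 * p.v20 - 2 * p.c02 * p.q20 * s.s21
    + 3 * p.c02 * p.q11 * s.s11 + 1 / 2 * p.u20 ^ 2 * s.s21 - 3 / 2 * p.u20 * p.u11 * s.s11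
    - 5 / 2 * p.u20 * p.v20 * s.s22 - p.u20 * p.v11 * s.s21 + 3 / 2 * p.u20 * p.v02 * s.s11
    - p.u11 * p.v20 * s.s21 + 3 / 2 * p.u11 * p.v11 * s.s11 + 3 / 2 * p.u02 * p.v20 * s.s11
    + 5 / 2 * p.v20 * p.v11 * s.s22 + p.v20 * p.v02 * s.s21 + 1 / 2 * p.v11 ^ 2 * s.s21
    - 3 / 2 * p.v11 * p.v02 * s.s11
def cf_3_3 (p : Par) (s : SPar) : ℂ := -1 / 2 * p.a10 * p.u20 * p.q11
    + 1 / 2 * p.a10 * p.u11 * p.q20 + p.a10 * p.v20 * p.q02 - p.a10 * p.v02 * p.q20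
    - p.a10 * p.q20 * s.l2 - p.a10 * p.q11 * s.l1 + 1 / 2 * p.a01 * p.v20 * p.q11
    - 1 / 2 * p.a01 * p.v11 * p.q20 - p.a01 * p.q20 * s.l1 + 2 * p.b10 * p.u20 * p.q02
    - 2 * p.b10 * p.u02 * p.q20 - p.b10 * p.v11 * p.q02 + p.b10 * p.v02 * p.q11
    + 2 * p.b10 * p.q11 * s.l2 + 2 * p.b10 * p.q02 * s.l1 + p.b01 * p.u20 * p.q11
    - p.b01 * p.u11 * p.q20 - 2 * p.b01 * p.v20 * p.q02 + 2 * p.b01 * p.v02 * p.q20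
    + 2 * p.b01 * p.q20 * s.l2 + 2 * p.b01 * p.q11 * s.l1 - 1 / 2 * p.c10 * p.u11 * p.q02
    + 1 / 2 * p.c10 * p.u02 * p.q11 - p.c10 * p.q02 * s.l2 - p.c01 * p.u20 * p.q02
    + p.c01 * p.u02 * p.q20 + 1 / 2 * p.c01 * p.v11 * p.q02 - 1 / 2 * p.c01 * p.v02 * p.q11
    - p.c01 * p.q11 * s.l2 - p.c01 * p.q02 * s.l1 + 2 * p.a20 * p.b11 * p.q11
    + 4 * p.a20 * p.b02 * p.q20 + 2 * p.a20 * p.c11 * p.q02 - 1 / 2 * p.a20 * p.u11 * p.v11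
    - p.a20 * p.u02 * p.v20 - 1 / 2 * p.a20 * p.v11 * p.v02 - p.a20 * p.v11 * s.l2
    - p.a20 * p.v02 * s.l1 - 4 * p.a20 * p.q20 * s.s22 + p.a20 * p.q11 * s.s12
    - p.a20 * p.q11 * s.s21 + 4 * p.a20 * p.q02 * s.s11 - 2 * p.a11 * p.b20 * p.q11
    + 6 * p.a11 * p.c20 * p.q02 + 4 * p.a11 * p.c11 * p.q11 + 2 * p.a11 * p.c02 * p.q20
    + 1 / 2 * p.a11 * p.u20 * p.v11 - 2 * p.a11 * p.v20 * p.v02 - p.a11 * p.v20 * s.l2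
    - p.a11 * p.v11 ^ 2 - p.a11 * p.v11 * s.l1 + p.a11 * p.q20 * s.s12
    - p.a11 * p.q20 * s.s21 + 4 * p.a11 * p.q11 * s.s11 - 4 * p.a02 * p.b20 * p.q20
    + 8 * p.a02 * p.c20 * p.q11 + 6 * p.a02 * p.c11 * p.q20 + p.a02 * p.u20 * p.v20
    - 7 / 2 * p.a02 * p.v20 * p.v11 - p.a02 * p.v20 * s.l1 + 4 * p.a02 * p.q20 * s.s11
    - 8 * p.b20 * p.b11 * p.q02 - 8 * p.b20 * p.b02 * p.q11 + 4 * p.b20 * p.c02 * p.q02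
    + p.b20 * p.u20 * p.u02 + 1 / 2 * p.b20 * p.u11 ^ 2 + 3 / 2 * p.b20 * p.u11 * p.v02
    + p.b20 * p.u11 * s.l2 + 5 / 2 * p.b20 * p.u02 * p.v11 + p.b20 * p.u02 * s.l1
    - p.b20 * p.v02 ^ 2 + p.b20 * p.v02 * s.l2 + 8 * p.b20 * p.q11 * s.s22
    - 2 * p.b20 * p.q02 * s.s12 + 2 * p.b20 * p.q02 * s.s21 - 4 * p.b11 ^ 2 * p.q11
    - 8 * p.b11 * p.b02 * p.q20 + 2 * p.b11 * p.c02 * p.q11 - 1 / 2 * p.b11 * p.u20 * p.u11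
    + p.b11 * p.u20 * p.v02 + p.b11 * p.u20 * s.l2 + 2 * p.b11 * p.u11 * p.v11
    + p.b11 * p.u11 * s.l1 + 3 * p.b11 * p.u02 * p.v20 - 1 / 2 * p.b11 * p.v11 * p.v02
    + p.b11 * p.v11 * s.l2 + p.b11 * p.v02 * s.l1 + 8 * p.b11 * p.q20 * s.s22
    - 2 * p.b11 * p.q11 * s.s12 + 2 * p.b11 * p.q11 * s.s21 - 8 * p.b11 * p.q02 * s.s11
    - 4 * p.b02 * p.c20 * p.q02 - 2 * p.b02 * p.c11 * p.q11 - p.b02 * p.u20 ^ 2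
    + 3 / 2 * p.b02 * p.u20 * p.v11 + p.b02 * p.u20 * s.l1 + 5 / 2 * p.b02 * p.u11 * p.v20
    + p.b02 * p.v20 * p.v02 + p.b02 * p.v20 * s.l2 + 1 / 2 * p.b02 * p.v11 ^ 2
    + p.b02 * p.v11 * s.l1 - 2 * p.b02 * p.q20 * s.s12 + 2 * p.b02 * p.q20 * s.s21
    - 8 * p.b02 * p.q11 * s.s11 - 7 / 2 * p.c20 * p.u11 * p.u02 + p.c20 * p.u02 * p.v02
    - p.c20 * p.u02 * s.l2 - 4 * p.c20 * p.q02 * s.s22 - 2 * p.c11 * p.u20 * p.u02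
    - p.c11 * p.u11 ^ 2 + 1 / 2 * p.c11 * p.u11 * p.v02 - p.c11 * p.u11 * s.l2
    - p.c11 * p.u02 * s.l1 - 4 * p.c11 * p.q11 * s.s22 + p.c11 * p.q02 * s.s12
    - p.c11 * p.q02 * s.s21 - 1 / 2 * p.c02 * p.u20 * p.u11 - p.c02 * p.u20 * s.l2
    - 1 / 2 * p.c02 * p.u11 * p.v11 - p.c02 * p.u11 * s.l1 - p.c02 * p.u02 * p.v20
    - 4 * p.c02 * p.q20 * s.s22 + p.c02 * p.q11 * s.s12 - p.c02 * p.q11 * s.s21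
    + 4 * p.c02 * p.q02 * s.s11 + p.u20 ^ 2 * s.s22 - 1 / 2 * p.u20 * p.u11 * s.s12
    + 1 / 2 * p.u20 * p.u11 * s.s21 - 2 * p.u20 * p.u02 * s.s11 - 2 * p.u20 * p.v11 * s.s22
    + 1 / 2 * p.u20 * p.v02 * s.s12 - 1 / 2 * p.u20 * p.v02 * s.s21 - p.u11 ^ 2 * s.s11
    - 2 * p.u11 * p.v20 * s.s22 + 1 / 2 * p.u11 * p.v11 * s.s12
    - 1 / 2 * p.u11 * p.v11 * s.s21 + 2 * p.u11 * p.v02 * s.s11
    + 1 / 2 * p.u02 * p.v20 * s.s12 - 1 / 2 * p.u02 * p.v20 * s.s21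
    + 2 * p.u02 * p.v11 * s.s11 + 2 * p.v20 * p.v02 * s.s22 + p.v11 ^ 2 * s.s22
    - 1 / 2 * p.v11 * p.v02 * s.s12 + 1 / 2 * p.v11 * p.v02 * s.s21 - p.v02 ^ 2 * s.s11
def cf_2_4 (p : Par) (s : SPar) : ℂ := -p.a10 * p.u20 * p.q02 + p.a10 * p.u02 * p.q20
    + 1 / 2 * p.a10 * p.v11 * p.q02 - 1 / 2 * p.a10 * p.v02 * p.q11 - p.a10 * p.q11 * s.l2
    - p.a10 * p.q02 * s.l1 - 1 / 2 * p.a01 * p.u20 * p.q11 + 1 / 2 * p.a01 * p.u11 * p.q20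
    + p.a01 * p.v20 * p.q02 - p.a01 * p.v02 * p.q20 - p.a01 * p.q20 * s.l2
    - p.a01 * p.q11 * s.l1 + p.b10 * p.u11 * p.q02 - p.b10 * p.u02 * p.q11
    + 2 * p.b10 * p.q02 * s.l2 + 2 * p.b01 * p.u20 * p.q02 - 2 * p.b01 * p.u02 * p.q20
    - p.b01 * p.v11 * p.q02 + p.b01 * p.v02 * p.q11 + 2 * p.b01 * p.q11 * s.l2
    + 2 * p.b01 * p.q02 * s.l1 - 1 / 2 * p.c01 * p.u11 * p.q02
    + 1 / 2 * p.c01 * p.u02 * p.q11 - p.c01 * p.q02 * s.l2 + 2 * p.a20 * p.b11 * p.q02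
    + 4 * p.a20 * p.b02 * p.q11 - 1 / 2 * p.a20 * p.u11 * p.v02 - p.a20 * p.u02 * p.v11
    - p.a20 * p.v02 * s.l2 - 3 * p.a20 * p.q11 * s.s22 + 2 * p.a20 * p.q02 * s.s12
    - 2 * p.a11 * p.b20 * p.q02 + 2 * p.a11 * p.b02 * p.q20 + 4 * p.a11 * p.c11 * p.q02
    + 2 * p.a11 * p.c02 * p.q11 + 1 / 2 * p.a11 * p.u20 * p.v02
    - 1 / 2 * p.a11 * p.u02 * p.v20 - 3 / 2 * p.a11 * p.v11 * p.v02 - p.a11 * p.v11 * s.l2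
    - p.a11 * p.v02 * s.l1 - 3 * p.a11 * p.q20 * s.s22 + 2 * p.a11 * p.q11 * s.s12
    + 5 * p.a11 * p.q02 * s.s11 - 4 * p.a02 * p.b20 * p.q11 - 2 * p.a02 * p.b11 * p.q20
    + 8 * p.a02 * p.c20 * p.q02 + 6 * p.a02 * p.c11 * p.q11 + 4 * p.a02 * p.c02 * p.q20
    + p.a02 * p.u20 * p.v11 + 1 / 2 * p.a02 * p.u11 * p.v20 - 3 * p.a02 * p.v20 * p.v02
    - p.a02 * p.v20 * s.l2 - 3 / 2 * p.a02 * p.v11 ^ 2 - p.a02 * p.v11 * s.l1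
    + 2 * p.a02 * p.q20 * s.s12 + 5 * p.a02 * p.q11 * s.s11 - 8 * p.b20 * p.b02 * p.q02
    + 3 / 2 * p.b20 * p.u11 * p.u02 + 2 * p.b20 * p.u02 * p.v02 + p.b20 * p.u02 * s.l2
    + 6 * p.b20 * p.q02 * s.s22 - 4 * p.b11 ^ 2 * p.q02 - 8 * p.b11 * p.b02 * p.q11
    + 2 * p.b11 * p.c02 * p.q02 + 3 / 2 * p.b11 * p.u11 * p.v02 + p.b11 * p.u11 * s.l2
    + 5 / 2 * p.b11 * p.u02 * p.v11 + p.b11 * p.u02 * s.l1 - 1 / 2 * p.b11 * p.v02 ^ 2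
    + p.b11 * p.v02 * s.l2 + 6 * p.b11 * p.q11 * s.s22 - 4 * p.b11 * p.q02 * s.s12
    - 4 * p.b02 ^ 2 * p.q20 - 2 * p.b02 * p.c11 * p.q02 - 3 / 2 * p.b02 * p.u20 * p.u11
    + p.b02 * p.u20 * p.v02 + p.b02 * p.u20 * s.l2 + 2 * p.b02 * p.u11 * p.v11
    + p.b02 * p.u11 * s.l1 + 3 * p.b02 * p.u02 * p.v20 + 1 / 2 * p.b02 * p.v11 * p.v02
    + p.b02 * p.v11 * s.l2 + p.b02 * p.v02 * s.l1 + 6 * p.b02 * p.q20 * s.s22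
    - 4 * p.b02 * p.q11 * s.s12 - 10 * p.b02 * p.q02 * s.s11 - 2 * p.c20 * p.u02 ^ 2
    - 5 / 2 * p.c11 * p.u11 * p.u02 + 1 / 2 * p.c11 * p.u02 * p.v02 - p.c11 * p.u02 * s.l2
    - 3 * p.c11 * p.q02 * s.s22 - p.c02 * p.u20 * p.u02 - 1 / 2 * p.c02 * p.u11 ^ 2
    - p.c02 * p.u11 * s.l2 - 1 / 2 * p.c02 * p.u02 * p.v11 - p.c02 * p.u02 * s.l1
    - 3 * p.c02 * p.q11 * s.s22 + 2 * p.c02 * p.q02 * s.s12 + 3 / 2 * p.u20 * p.u11 * s.s22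
    - p.u20 * p.u02 * s.s12 - 3 / 2 * p.u20 * p.v02 * s.s22 - 1 / 2 * p.u11 ^ 2 * s.s12
    - 5 / 2 * p.u11 * p.u02 * s.s11 - 3 / 2 * p.u11 * p.v11 * s.s22 + p.u11 * p.v02 * s.s12
    - 3 / 2 * p.u02 * p.v20 * s.s22 + p.u02 * p.v11 * s.s12 + 5 / 2 * p.u02 * p.v02 * s.s11
    + 3 / 2 * p.v11 * p.v02 * s.s22 - 1 / 2 * p.v02 ^ 2 * s.s12
def cf_1_5 (p : Par) (s : SPar) : ℂ := -1 / 2 * p.a10 * p.u11 * p.q02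
    + 1 / 2 * p.a10 * p.u02 * p.q11 - p.a10 * p.q02 * s.l2 - p.a01 * p.u20 * p.q02
    + p.a01 * p.u02 * p.q20 + 1 / 2 * p.a01 * p.v11 * p.q02 - 1 / 2 * p.a01 * p.v02 * p.q11
    - p.a01 * p.q11 * s.l2 - p.a01 * p.q02 * s.l1 + p.b01 * p.u11 * p.q02
    - p.b01 * p.u02 * p.q11 + 2 * p.b01 * p.q02 * s.l2 + 4 * p.a20 * p.b02 * p.q02
    - p.a20 * p.u02 * p.v02 - 2 * p.a20 * p.q02 * s.s22 + 2 * p.a11 * p.b02 * p.q11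
    + 2 * p.a11 * p.c02 * p.q02 - 1 / 2 * p.a11 * p.u02 * p.v11 - 1 / 2 * p.a11 * p.v02 ^ 2
    - p.a11 * p.v02 * s.l2 - 2 * p.a11 * p.q11 * s.s22 + 3 * p.a11 * p.q02 * s.s12
    + p.a11 * p.q02 * s.s21 - 4 * p.a02 * p.b20 * p.q02 - 2 * p.a02 * p.b11 * p.q11
    + 6 * p.a02 * p.c11 * p.q02 + 4 * p.a02 * p.c02 * p.q11 + p.a02 * p.u20 * p.v02
    + 1 / 2 * p.a02 * p.u11 * p.v11 - 5 / 2 * p.a02 * p.v11 * p.v02 - p.a02 * p.v11 * s.l2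
    - p.a02 * p.v02 * s.l1 - 2 * p.a02 * p.q20 * s.s22 + 3 * p.a02 * p.q11 * s.s12
    + p.a02 * p.q11 * s.s21 + 6 * p.a02 * p.q02 * s.s11 + p.b20 * p.u02 ^ 2
    - 8 * p.b11 * p.b02 * p.q02 + 1 / 2 * p.b11 * p.u11 * p.u02 + 2 * p.b11 * p.u02 * p.v02
    + p.b11 * p.u02 * s.l2 + 4 * p.b11 * p.q02 * s.s22 - 4 * p.b02 ^ 2 * p.q11
    - p.b02 * p.u20 * p.u02 - 1 / 2 * p.b02 * p.u11 ^ 2 + 3 / 2 * p.b02 * p.u11 * p.v02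
    + p.b02 * p.u11 * s.l2 + 5 / 2 * p.b02 * p.u02 * p.v11 + p.b02 * p.u02 * s.l1
    + p.b02 * p.v02 * s.l2 + 4 * p.b02 * p.q11 * s.s22 - 6 * p.b02 * p.q02 * s.s12
    - 2 * p.b02 * p.q02 * s.s21 - 3 / 2 * p.c11 * p.u02 ^ 2 - 3 / 2 * p.c02 * p.u11 * p.u02
    - p.c02 * p.u02 * s.l2 - 2 * p.c02 * p.q02 * s.s22 + p.u20 * p.u02 * s.s22
    + 1 / 2 * p.u11 ^ 2 * s.s22 - 3 / 2 * p.u11 * p.u02 * s.s12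
    - 1 / 2 * p.u11 * p.u02 * s.s21 - p.u11 * p.v02 * s.s22 - 3 / 2 * p.u02 ^ 2 * s.s11
    - p.u02 * p.v11 * s.s22 + 3 / 2 * p.u02 * p.v02 * s.s12 + 1 / 2 * p.u02 * p.v02 * s.s21
    + 1 / 2 * p.v02 ^ 2 * s.s22
def cf_0_6 (p : Par) (s : SPar) : ℂ := -1 / 2 * p.a01 * p.u11 * p.q02
    + 1 / 2 * p.a01 * p.u02 * p.q11 - p.a01 * p.q02 * s.l2 + 2 * p.a11 * p.b02 * p.q02
    - 1 / 2 * p.a11 * p.u02 * p.v02 - p.a11 * p.q02 * s.s22 - 2 * p.a02 * p.b11 * p.q02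
    + 4 * p.a02 * p.c02 * p.q02 + 1 / 2 * p.a02 * p.u11 * p.v02 - p.a02 * p.v02 ^ 2
    - p.a02 * p.v02 * s.l2 - p.a02 * p.q11 * s.s22 + 4 * p.a02 * p.q02 * s.s12
    + 2 * p.a02 * p.q02 * s.s21 + 1 / 2 * p.b11 * p.u02 ^ 2 - 4 * p.b02 ^ 2 * p.q02
    - 1 / 2 * p.b02 * p.u11 * p.u02 + 2 * p.b02 * p.u02 * p.v02 + p.b02 * p.u02 * s.l2
    + 2 * p.b02 * p.q02 * s.s22 - p.c02 * p.u02 ^ 2 + 1 / 2 * p.u11 * p.u02 * s.s22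
    - p.u02 ^ 2 * s.s12 - 1 / 2 * p.u02 ^ 2 * s.s21 - 1 / 2 * p.u02 * p.v02 * s.s22

theorem coef_one {n : ℕ} {d : ℕ → ℂ} (h : ∀ x : ℂ, ∑ i ∈ Finset.range n, d i * x ^ i = 0) :
    ∀ i < n, d i = 0 := by
  intro i hi
  have h0 : (∑ i ∈ Finset.range n, Polynomial.C (d i) * Polynomial.X ^ i : Polynomial ℂ) = 0 := by
    apply Polynomial.funext
    intro x
    have := h x
    simpa [Polynomial.eval_finsetSum] using this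
  have h1 := congrArg (fun P => Polynomial.coeff P i) h0
  simpa [Polynomial.finsetSum_coeff, Polynomial.coeff_C_mul, Polynomial.coeff_X_pow,
    Finset.sum_ite_eq, hi] using h1

theorem coef_two {n : ℕ} {c : ℕ → ℕ → ℂ}
    (h : ∀ x y : ℂ, ∑ i ∈ Finset.range n, ∑ j ∈ Finset.range n, c i j * x ^ i * y ^ j = 0) :
    ∀ i < n, ∀ j < n, c i j = 0 := by
  intro i hi
  apply coef_one
  intro y
  have h1 := coef_one (n := n) (d := fun i => ∑ j ∈ Finset.range n, c i j * y ^ j) (by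
    intro x
    rw [← h x y]
    refine Finset.sum_congr rfl fun i _ => ?_
    rw [Finset.sum_mul]
    refine Finset.sum_congr rfl fun j _ => by ring) i hi
  exact h1

/-- Coefficients of `E1`. -/
def Ce1 (p : Par) (s : SPar) : ℕ → ℕ → ℂ
  | 0, 1 => ce1_0_1 p s
  | 0, 2 => ce1_0_2 p s
  | 0, 3 => ce1_0_3 p s
  | 0, 4 => ce1_0_4 p s
  | 1, 0 => ce1_1_0 p s
  | 1, 1 => ce1_1_1 p s
  | 1, 2 => ce1_1_2 p s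
  | 1, 3 => ce1_1_3 p s
  | 1, 4 => ce1_1_4 p s
  | 2, 0 => ce1_2_0 p s
  | 2, 1 => ce1_2_1 p s
  | 2, 2 => ce1_2_2 p s
  | 2, 3 => ce1_2_3 p s
  | 3, 0 => ce1_3_0 p s
  | 3, 1 => ce1_3_1 p s
  | 3, 2 => ce1_3_2 p s
  | 4, 0 => ce1_4_0 p s
  | 4, 1 => ce1_4_1 p s
  | 5, 0 => ce1_5_0 p s
  | _, _ => 0

theorem sum_e1 (p : Par) (s : SPar) (ha : p.a00 = 0) (hb : p.b00 = 0) (hc : p.c00 = 0) (x y : ℂ) :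
    ∑ i ∈ Finset.range 6, ∑ j ∈ Finset.range 6, Ce1 p s i j * x ^ i * y ^ j = E1 p s x y := by
  simp only [Finset.sum_range_succ, Finset.sum_range_zero, Ce1]
  simp only [E1, Par.a, Par.b, Par.c, Par.ax, Par.ay, Par.bx, Par.bY, Par.cx, Par.cy, Par.U,
    Par.V, Par.Q, Par.Ux, Par.Uy, Par.Vx, Par.Vy, Par.Qx, Par.Qy, S1, S2, S1y, S2x, Par.D, Par.Dx,
    Par.Dy, ha, hb, hc,
    ce1_1_0, ce1_0_1, ce1_2_0, ce1_1_1, ce1_0_2, ce1_3_0, ce1_2_1, ce1_1_2, ce1_0_3,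
    ce1_4_0, ce1_3_1, ce1_2_2, ce1_1_3, ce1_0_4, ce1_5_0, ce1_4_1, ce1_3_2, ce1_2_3,
    ce1_1_4]
  ring

/-- Coefficients of `E2`. -/
def Ce2 (p : Par) (s : SPar) : ℕ → ℕ → ℂ
  | 0, 1 => ce2_0_1 p s
  | 0, 2 => ce2_0_2 p s
  | 0, 3 => ce2_0_3 p s
  | 0, 4 => ce2_0_4 p s
  | 0, 5 => ce2_0_5 p s
  | 1, 0 => ce2_1_0 p s
  | 1, 1 => ce2_1_1 p s
  | 1, 2 => ce2_1_2 p s
  | 1, 3 => ce2_1_3 p s
  | 1, 4 => ce2_1_4 p s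
  | 2, 0 => ce2_2_0 p s
  | 2, 1 => ce2_2_1 p s
  | 2, 2 => ce2_2_2 p s
  | 2, 3 => ce2_2_3 p s
  | 3, 0 => ce2_3_0 p s
  | 3, 1 => ce2_3_1 p s
  | 3, 2 => ce2_3_2 p s
  | 4, 0 => ce2_4_0 p s
  | 4, 1 => ce2_4_1 p s
  | _, _ => 0

theorem sum_e2 (p : Par) (s : SPar) (ha : p.a00 = 0) (hb : p.b00 = 0) (hc : p.c00 = 0) (x y : ℂ) :
    ∑ i ∈ Finset.range 6, ∑ j ∈ Finset.range 6, Ce2 p s i j * x ^ i * y ^ j = E2 p s x y := by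
  simp only [Finset.sum_range_succ, Finset.sum_range_zero, Ce2]
  simp only [E2, Par.a, Par.b, Par.c, Par.ax, Par.ay, Par.bx, Par.bY, Par.cx, Par.cy, Par.U,
    Par.V, Par.Q, Par.Ux, Par.Uy, Par.Vx, Par.Vy, Par.Qx, Par.Qy, S1, S2, S1y, S2x, Par.D, Par.Dx,
    Par.Dy, ha, hb, hc,
    ce2_1_0, ce2_0_1, ce2_2_0, ce2_1_1, ce2_0_2, ce2_3_0, ce2_2_1, ce2_1_2, ce2_0_3,
    ce2_4_0, ce2_3_1, ce2_2_2, ce2_1_3, ce2_0_4, ce2_4_1, ce2_3_2, ce2_2_3, ce2_1_4,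
    ce2_0_5]
  ring

/-- Coefficients of `FF`. -/
def Cf (p : Par) (s : SPar) : ℕ → ℕ → ℂ
  | 0, 1 => cf_0_1 p s
  | 0, 2 => cf_0_2 p s
  | 0, 3 => cf_0_3 p s
  | 0, 4 => cf_0_4 p s
  | 0, 5 => cf_0_5 p s
  | 0, 6 => cf_0_6 p s
  | 1, 0 => cf_1_0 p s
  | 1, 1 => cf_1_1 p s
  | 1, 2 => cf_1_2 p s
  | 1, 3 => cf_1_3 p s
  | 1, 4 => cf_1_4 p s
  | 1, 5 => cf_1_5 p s
  | 2, 0 => cf_2_0 p s
  | 2, 1 => cf_2_1 p s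
  | 2, 2 => cf_2_2 p s
  | 2, 3 => cf_2_3 p s
  | 2, 4 => cf_2_4 p s
  | 3, 0 => cf_3_0 p s
  | 3, 1 => cf_3_1 p s
  | 3, 2 => cf_3_2 p s
  | 3, 3 => cf_3_3 p s
  | 4, 0 => cf_4_0 p s
  | 4, 1 => cf_4_1 p s
  | 4, 2 => cf_4_2 p s
  | 5, 0 => cf_5_0 p s
  | 5, 1 => cf_5_1 p s
  | 6, 0 => cf_6_0 p s
  | _, _ => 0

theorem sum_f (p : Par) (s : SPar) (ha : p.a00 = 0) (hb : p.b00 = 0) (hc : p.c00 = 0) (x y : ℂ) :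
    ∑ i ∈ Finset.range 7, ∑ j ∈ Finset.range 7, Cf p s i j * x ^ i * y ^ j = FF p s x y := by
  simp only [Finset.sum_range_succ, Finset.sum_range_zero, Cf]
  simp only [FF, Par.a, Par.b, Par.c, Par.ax, Par.ay, Par.bx, Par.bY, Par.cx, Par.cy, Par.U,
    Par.V, Par.Q, Par.Ux, Par.Uy, Par.Vx, Par.Vy, Par.Qx, Par.Qy, S1, S2, S1y, S2x, Par.D, Par.Dx,
    Par.Dy, ha, hb, hc,
    cf_1_0, cf_0_1, cf_2_0, cf_1_1, cf_0_2, cf_3_0, cf_2_1, cf_1_2, cf_0_3,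
    cf_4_0, cf_3_1, cf_2_2, cf_1_3, cf_0_4, cf_5_0, cf_4_1, cf_3_2, cf_2_3,
    cf_1_4, cf_0_5, cf_6_0, cf_5_1, cf_4_2, cf_3_3, cf_2_4, cf_1_5, cf_0_6]
  ring

/-- The coefficient equations. -/
structure Facts (p : Par) (s : SPar) : Prop where
  e1_1_0 : ce1_1_0 p s = 0
  e1_0_1 : ce1_0_1 p s = 0
  e1_2_0 : ce1_2_0 p s = 0
  e1_1_1 : ce1_1_1 p s = 0
  e1_0_2 : ce1_0_2 p s = 0
  e1_3_0 : ce1_3_0 p s = 0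
  e1_2_1 : ce1_2_1 p s = 0
  e1_1_2 : ce1_1_2 p s = 0
  e1_0_3 : ce1_0_3 p s = 0
  e1_4_0 : ce1_4_0 p s = 0
  e1_3_1 : ce1_3_1 p s = 0
  e1_2_2 : ce1_2_2 p s = 0
  e1_1_3 : ce1_1_3 p s = 0
  e1_0_4 : ce1_0_4 p s = 0
  e1_5_0 : ce1_5_0 p s = 0
  e1_4_1 : ce1_4_1 p s = 0
  e1_3_2 : ce1_3_2 p s = 0
  e1_2_3 : ce1_2_3 p s = 0
  e1_1_4 : ce1_1_4 p s = 0
  e2_1_0 : ce2_1_0 p s = 0
  e2_0_1 : ce2_0_1 p s = 0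
  e2_2_0 : ce2_2_0 p s = 0
  e2_1_1 : ce2_1_1 p s = 0
  e2_0_2 : ce2_0_2 p s = 0
  e2_3_0 : ce2_3_0 p s = 0
  e2_2_1 : ce2_2_1 p s = 0
  e2_1_2 : ce2_1_2 p s = 0
  e2_0_3 : ce2_0_3 p s = 0
  e2_4_0 : ce2_4_0 p s = 0
  e2_3_1 : ce2_3_1 p s = 0
  e2_2_2 : ce2_2_2 p s = 0
  e2_1_3 : ce2_1_3 p s = 0
  e2_0_4 : ce2_0_4 p s = 0
  e2_4_1 : ce2_4_1 p s = 0
  e2_3_2 : ce2_3_2 p s = 0
  e2_2_3 : ce2_2_3 p s = 0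
  e2_1_4 : ce2_1_4 p s = 0
  e2_0_5 : ce2_0_5 p s = 0
  f_1_0 : cf_1_0 p s = 0
  f_0_1 : cf_0_1 p s = 0
  f_2_0 : cf_2_0 p s = 0
  f_1_1 : cf_1_1 p s = 0
  f_0_2 : cf_0_2 p s = 0
  f_3_0 : cf_3_0 p s = 0
  f_2_1 : cf_2_1 p s = 0
  f_1_2 : cf_1_2 p s = 0
  f_0_3 : cf_0_3 p s = 0
  f_4_0 : cf_4_0 p s = 0
  f_3_1 : cf_3_1 p s = 0
  f_2_2 : cf_2_2 p s = 0
  f_1_3 : cf_1_3 p s = 0
  f_0_4 : cf_0_4 p s = 0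
  f_5_0 : cf_5_0 p s = 0
  f_4_1 : cf_4_1 p s = 0
  f_3_2 : cf_3_2 p s = 0
  f_2_3 : cf_2_3 p s = 0
  f_1_4 : cf_1_4 p s = 0
  f_0_5 : cf_0_5 p s = 0
  f_6_0 : cf_6_0 p s = 0
  f_5_1 : cf_5_1 p s = 0
  f_4_2 : cf_4_2 p s = 0
  f_3_3 : cf_3_3 p s = 0
  f_2_4 : cf_2_4 p s = 0
  f_1_5 : cf_1_5 p s = 0
  f_0_6 : cf_0_6 p s = 0

theorem facts_of_sys {p : Par} {s : SPar} (h : Sys p s) (ha : p.a00 = 0) (hb : p.b00 = 0)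
    (hc : p.c00 = 0) : Facts p s := by
  have h1 : ∀ i < 6, ∀ j < 6, Ce1 p s i j = 0 := coef_two (fun x y => by
    rw [sum_e1 p s ha hb hc]; exact (h x y).1)
  have h2 : ∀ i < 6, ∀ j < 6, Ce2 p s i j = 0 := coef_two (fun x y => by
    rw [sum_e2 p s ha hb hc]; exact (h x y).2.1)
  have h3 : ∀ i < 7, ∀ j < 7, Cf p s i j = 0 := coef_two (fun x y => by
    rw [sum_f p s ha hb hc]; exact (h x y).2.2)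
  exact {
    e1_1_0 := h1 1 (by norm_num) 0 (by norm_num)
    e1_0_1 := h1 0 (by norm_num) 1 (by norm_num)
    e1_2_0 := h1 2 (by norm_num) 0 (by norm_num)
    e1_1_1 := h1 1 (by norm_num) 1 (by norm_num)
    e1_0_2 := h1 0 (by norm_num) 2 (by norm_num)
    e1_3_0 := h1 3 (by norm_num) 0 (by norm_num)
    e1_2_1 := h1 2 (by norm_num) 1 (by norm_num)
    e1_1_2 := h1 1 (by norm_num) 2 (by norm_num)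
    e1_0_3 := h1 0 (by norm_num) 3 (by norm_num)
    e1_4_0 := h1 4 (by norm_num) 0 (by norm_num)
    e1_3_1 := h1 3 (by norm_num) 1 (by norm_num)
    e1_2_2 := h1 2 (by norm_num) 2 (by norm_num)
    e1_1_3 := h1 1 (by norm_num) 3 (by norm_num)
    e1_0_4 := h1 0 (by norm_num) 4 (by norm_num)
    e1_5_0 := h1 5 (by norm_num) 0 (by norm_num)
    e1_4_1 := h1 4 (by norm_num) 1 (by norm_num)
    e1_3_2 := h1 3 (by norm_num) 2 (by norm_num)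
    e1_2_3 := h1 2 (by norm_num) 3 (by norm_num)
    e1_1_4 := h1 1 (by norm_num) 4 (by norm_num)
    e2_1_0 := h2 1 (by norm_num) 0 (by norm_num)
    e2_0_1 := h2 0 (by norm_num) 1 (by norm_num)
    e2_2_0 := h2 2 (by norm_num) 0 (by norm_num)
    e2_1_1 := h2 1 (by norm_num) 1 (by norm_num)
    e2_0_2 := h2 0 (by norm_num) 2 (by norm_num)
    e2_3_0 := h2 3 (by norm_num) 0 (by norm_num)
    e2_2_1 := h2 2 (by norm_num) 1 (by norm_num)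
    e2_1_2 := h2 1 (by norm_num) 2 (by norm_num)
    e2_0_3 := h2 0 (by norm_num) 3 (by norm_num)
    e2_4_0 := h2 4 (by norm_num) 0 (by norm_num)
    e2_3_1 := h2 3 (by norm_num) 1 (by norm_num)
    e2_2_2 := h2 2 (by norm_num) 2 (by norm_num)
    e2_1_3 := h2 1 (by norm_num) 3 (by norm_num)
    e2_0_4 := h2 0 (by norm_num) 4 (by norm_num)
    e2_4_1 := h2 4 (by norm_num) 1 (by norm_num)
    e2_3_2 := h2 3 (by norm_num) 2 (by norm_num)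
    e2_2_3 := h2 2 (by norm_num) 3 (by norm_num)
    e2_1_4 := h2 1 (by norm_num) 4 (by norm_num)
    e2_0_5 := h2 0 (by norm_num) 5 (by norm_num)
    f_1_0 := h3 1 (by norm_num) 0 (by norm_num)
    f_0_1 := h3 0 (by norm_num) 1 (by norm_num)
    f_2_0 := h3 2 (by norm_num) 0 (by norm_num)
    f_1_1 := h3 1 (by norm_num) 1 (by norm_num)
    f_0_2 := h3 0 (by norm_num) 2 (by norm_num)
    f_3_0 := h3 3 (by norm_num) 0 (by norm_num)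
    f_2_1 := h3 2 (by norm_num) 1 (by norm_num)
    f_1_2 := h3 1 (by norm_num) 2 (by norm_num)
    f_0_3 := h3 0 (by norm_num) 3 (by norm_num)
    f_4_0 := h3 4 (by norm_num) 0 (by norm_num)
    f_3_1 := h3 3 (by norm_num) 1 (by norm_num)
    f_2_2 := h3 2 (by norm_num) 2 (by norm_num)
    f_1_3 := h3 1 (by norm_num) 3 (by norm_num)
    f_0_4 := h3 0 (by norm_num) 4 (by norm_num)
    f_5_0 := h3 5 (by norm_num) 0 (by norm_num)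
    f_4_1 := h3 4 (by norm_num) 1 (by norm_num)
    f_3_2 := h3 3 (by norm_num) 2 (by norm_num)
    f_2_3 := h3 2 (by norm_num) 3 (by norm_num)
    f_1_4 := h3 1 (by norm_num) 4 (by norm_num)
    f_0_5 := h3 0 (by norm_num) 5 (by norm_num)
    f_6_0 := h3 6 (by norm_num) 0 (by norm_num)
    f_5_1 := h3 5 (by norm_num) 1 (by norm_num)
    f_4_2 := h3 4 (by norm_num) 2 (by norm_num)
    f_3_3 := h3 3 (by norm_num) 3 (by norm_num)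
    f_2_4 := h3 2 (by norm_num) 4 (by norm_num)
    f_1_5 := h3 1 (by norm_num) 5 (by norm_num)
    f_0_6 := h3 0 (by norm_num) 6 (by norm_num)
  }

end Pool.Agent.H38.FM
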