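import Pool.Agent.H38.FM.Gen

/-!
# The ten families of normal forms
-/

noncomputable section

namespace Pool.Agent.H38.FM

open FM67 Matrix

/-- All parameters zero. -/
def zeroPar : Par := ⟨0, 0, 0, 0, 0, 0, 0, 0, 0, 0, 0, 0, 0, 0, 0, 0, 0, 0, 0, 0, 0, 0, 0, 0, 0, 0, 0⟩

/-- `M1`: `c = 0`, `b = b0 + b1 y + b2 y² + w y³/2`, `a = a0 + a1 y + a2 y² + x (c0 + c1 y + w y²)`. -/
def fM1 (b0 b1 b2 w a0 a1 a2 c0 c1 : ℂ) : Par :=
  { zeroPar with b00 := b0, b01 := b1, b02 := b2, u02 := w, a00 := a0, a01 := a1, a02 := a2,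
                 a10 := c0, a11 := c1 }

/-- `SEP`: `a = f0 + f1 x + f2 x²`, `b = 0`, `c = g0 + g1 y + g2 y²`. -/
def fSEP (f0 f1 f2 g0 g1 g2 : ℂ) : Par :=
  { zeroPar with a00 := f0, a10 := f1, a20 := f2, c00 := g0, c01 := g1, c02 := g2 }

/-- `TOR`: `a = al x²`, `b = be x y`, `c = ga y²`. -/
def fTOR (al be ga : ℂ) : Par :=
  { zeroPar with a20 := al, b11 := be, c02 := ga }

/-- `TU`: `a = al x²`, `b = be x`, `c = ga`. -/
def fTU (al be ga : ℂ) : Par :=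
  { zeroPar with a20 := al, b10 := be, c00 := ga }

/-- `U2`: `a = 1`, `b = x`, `c = x² + ga`. -/
def fU2 (ga : ℂ) : Par :=
  { zeroPar with a00 := 1, b10 := 1, c20 := 1, c00 := ga }

/-- `S2`: `a = x³ y + (al + be) x²`, `b = x² y² + (al - be) x y`, `c = x y³ + (al + be) y²`. -/
def fS2 (al be : ℂ) : Par :=
  { zeroPar with a20 := al + be, b11 := al - be, c02 := al + be, q11 := 1 }

/-- `BC2`: the five-parameter family
`a = 2 p0 + p1 x + p2 (x² - 2y) + p3 (x³ - 3xy) + p4 (x⁴ - 4x²y + 2y²)`,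
`b = p0 x + 2 p1 y + p2 x y + p3 y (x² - 2y) + p4 y (x³ - 3xy)`,
`c = p0 (x² - 2y) + p1 x y + 2 p2 y² + p3 x y² + p4 y² (x² - 2y)`. -/
def fBC (p0 p1 p2 p3 p4 : ℂ) : Par :=
  { zeroPar with a00 := 2 * p0, a10 := p1, a20 := p2, a01 := -2 * p2, u20 := p3, a11 := -3 * p3,
                 q20 := p4, u11 := -4 * p4, a02 := 2 * p4, b10 := p0, b01 := 2 * p1, b11 := p2,
                 v11 := p3, b02 := -2 * p3, v02 := -2 * p4, c20 := p0, c01 := -2 * p0, c11 := p1,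
                 c02 := 2 * p2 }

/-- `F8`: `a = 1`, `b = m x`, `c = (m² - m/2) x² + y`. -/
def fF8 (m : ℂ) : Par :=
  { zeroPar with a00 := 1, b10 := m, c20 := m ^ 2 - m / 2, c01 := 1 }

/-- `A2`: `a = A² x² y² - U x⁴ - 3 A x³ + U x y² + A y² + x`,
`b = A² x y³ - U x³ y - (7/2) A x² y + (1/2) U y³ + (3/2) y`,
`c = A² y⁴ - U x² y² - 4 A x y² + x²`. -/
def fA2 (A U : ℂ) : Par :=
  { zeroPar with q02 := A ^ 2, q20 := -U, u20 := -3 * A, u02 := U, a02 := A, a10 := 1,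
                 v11 := -4 * A, b01 := 3 / 2, c20 := 1 }

/-- `RS`: `a = x`, `b = y - x²/4`, `c = -x (y + ep)`. -/
def fRS (ep : ℂ) : Par :=
  { zeroPar with a10 := 1, b01 := 1, b20 := -1 / 4, c11 := -1, c10 := -ep }

/-- The list of normal forms. -/
inductive NF : Par → Prop
  | m1 (b0 b1 b2 w a0 a1 a2 c0 c1 : ℂ) : NF (fM1 b0 b1 b2 w a0 a1 a2 c0 c1)
  | sep (f0 f1 f2 g0 g1 g2 : ℂ) : NF (fSEP f0 f1 f2 g0 g1 g2)
  | tor (al be ga : ℂ) : NF (fTOR al be ga)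
  | tu (al be ga : ℂ) : NF (fTU al be ga)
  | u2 (ga : ℂ) : NF (fU2 ga)
  | s2 (al be : ℂ) : NF (fS2 al be)
  | bc (p0 p1 p2 p3 p4 : ℂ) : NF (fBC p0 p1 p2 p3 p4)
  | f8 (m : ℂ) : NF (fF8 m)
  | a2 (A U : ℂ) : NF (fA2 A U)
  | rs (ep : ℂ) : NF (fRS ep)

/-- Projective equivalence in the homogeneous form. -/
def Rel (p q : Par) : Prop := ∃ M : Matrix (Fin 3) (Fin 3) ℂ, M.det ≠ 0 ∧ Act M p q

/-- A parameter is good if it is equivalent to a normal form. -/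
def Good (p : Par) : Prop := ∃ q, NF q ∧ Rel p q

end Pool.Agent.H38.FM
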