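import Pool.Agent.H38.FM.Hom

/-!
# Generators of the stabiliser of the origin: shears, swap, scalings, gauge
-/

noncomputable section

namespace Pool.Agent.H38.FM

open FM67 Matrix

/-- Shear `x ↦ x + ka y`. -/
def shear (ka : ℂ) (p : Par) : Par where
  a00 := ka ^ 2 * p.c00 + 2 * ka * p.b00 + p.a00
  b00 := ka * p.c00 + p.b00
  c00 := p.c00
  a10 := ka ^ 2 * p.c10 + 2 * ka * p.b10 + p.a10
  a01 := -ka ^ 3 * p.c10 - 2 * ka ^ 2 * p.b10 + ka ^ 2 * p.c01 - ka * p.a10 + 2 * ka * p.b01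
      + p.a01
  b10 := ka * p.c10 + p.b10
  b01 := -ka ^ 2 * p.c10 - ka * p.b10 + ka * p.c01 + p.b01
  c10 := p.c10
  c01 := -ka * p.c10 + p.c01
  a20 := ka ^ 2 * p.c20 + 2 * ka * p.b20 + p.a20
  a11 := -2 * ka ^ 3 * p.c20 - 4 * ka ^ 2 * p.b20 + ka ^ 2 * p.c11 - 2 * ka * p.a20
      + 2 * ka * p.b11 + p.a11
  a02 := ka ^ 4 * p.c20 + 2 * ka ^ 3 * p.b20 - ka ^ 3 * p.c11 + ka ^ 2 * p.a20
      - 2 * ka ^ 2 * p.b11 + ka ^ 2 * p.c02 - ka * p.a11 + 2 * ka * p.b02 + p.a02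
  b20 := ka * p.c20 + p.b20
  b11 := -2 * ka ^ 2 * p.c20 - 2 * ka * p.b20 + ka * p.c11 + p.b11
  b02 := ka ^ 3 * p.c20 + ka ^ 2 * p.b20 - ka ^ 2 * p.c11 - ka * p.b11 + ka * p.c02 + p.b02
  c20 := p.c20
  c11 := -2 * ka * p.c20 + p.c11
  c02 := ka ^ 2 * p.c20 - ka * p.c11 + p.c02
  u20 := ka * p.v20 + p.u20
  u11 := -2 * ka ^ 2 * p.v20 - 2 * ka * p.u20 + ka * p.v11 + p.u11
  u02 := ka ^ 3 * p.v20 + ka ^ 2 * p.u20 - ka ^ 2 * p.v11 - ka * p.u11 + ka * p.v02 + p.u02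
  v20 := p.v20
  v11 := -2 * ka * p.v20 + p.v11
  v02 := ka ^ 2 * p.v20 - ka * p.v11 + p.v02
  q20 := p.q20
  q11 := -2 * ka * p.q20 + p.q11
  q02 := ka ^ 2 * p.q20 - ka * p.q11 + p.q02

/-- Projective gauge `x ↦ x / (1 + la x + mu y)`. -/
def gau (la mu : ℂ) (p : Par) : Par where
  a00 := p.a00
  b00 := p.b00
  c00 := p.c00
  a10 := -4 * la * p.a00 - 2 * mu * p.b00 + p.a10
  a01 := -2 * mu * p.a00 + p.a01
  b10 := -3 * la * p.b00 - mu * p.c00 + p.b10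
  b01 := -la * p.a00 - 3 * mu * p.b00 + p.b01
  c10 := -2 * la * p.c00 + p.c10
  c01 := -2 * la * p.b00 - 4 * mu * p.c00 + p.c01
  a20 := 6 * la ^ 2 * p.a00 + 6 * la * mu * p.b00 + mu ^ 2 * p.c00 - 3 * la * p.a10
      - 2 * mu * p.b10 + p.a20
  a11 := 6 * la * mu * p.a00 + 4 * mu ^ 2 * p.b00 - 3 * la * p.a01 - mu * p.a10
      - 2 * mu * p.b01 + p.a11
  a02 := mu ^ 2 * p.a00 - mu * p.a01 + p.a02
  b20 := 3 * la ^ 2 * p.b00 + 2 * la * mu * p.c00 - 2 * la * p.b10 - mu * p.c10 + p.b20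
  b11 := 3 * la ^ 2 * p.a00 + 8 * la * mu * p.b00 + 3 * mu ^ 2 * p.c00 - la * p.a10
      - 2 * la * p.b01 - 2 * mu * p.b10 - mu * p.c01 + p.b11
  b02 := 2 * la * mu * p.a00 + 3 * mu ^ 2 * p.b00 - la * p.a01 - 2 * mu * p.b01 + p.b02
  c20 := la ^ 2 * p.c00 - la * p.c10 + p.c20
  c11 := 4 * la ^ 2 * p.b00 + 6 * la * mu * p.c00 - 2 * la * p.b10 - la * p.c01
      - 3 * mu * p.c10 + p.c11
  c02 := la ^ 2 * p.a00 + 6 * la * mu * p.b00 + 6 * mu ^ 2 * p.c00 - 2 * la * p.b01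
      - 3 * mu * p.c01 + p.c02
  u20 := -4 * la ^ 3 * p.a00 - 6 * la ^ 2 * mu * p.b00 - 2 * la * mu ^ 2 * p.c00
      + 3 * la ^ 2 * p.a10 + 4 * la * mu * p.b10 + mu ^ 2 * p.c10 - 2 * la * p.a20
      - 2 * mu * p.b20 + p.u20
  u11 := -6 * la ^ 2 * mu * p.a00 - 8 * la * mu ^ 2 * p.b00 - 2 * mu ^ 3 * p.c00
      + 3 * la ^ 2 * p.a01 + 2 * la * mu * p.a10 + 4 * la * mu * p.b01 + 2 * mu ^ 2 * p.b10
      + mu ^ 2 * p.c01 - 2 * la * p.a11 - 2 * mu * p.b11 + p.u11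
  u02 := -2 * la * mu ^ 2 * p.a00 - 2 * mu ^ 3 * p.b00 + 2 * la * mu * p.a01
      + 2 * mu ^ 2 * p.b01 - 2 * la * p.a02 - 2 * mu * p.b02 + p.u02
  v20 := -2 * la ^ 3 * p.b00 - 2 * la ^ 2 * mu * p.c00 + 2 * la ^ 2 * p.b10
      + 2 * la * mu * p.c10 - 2 * la * p.b20 - 2 * mu * p.c20 + p.v20
  v11 := -2 * la ^ 3 * p.a00 - 8 * la ^ 2 * mu * p.b00 - 6 * la * mu ^ 2 * p.c00
      + la ^ 2 * p.a10 + 2 * la ^ 2 * p.b01 + 4 * la * mu * p.b10 + 2 * la * mu * p.c01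
      + 3 * mu ^ 2 * p.c10 - 2 * la * p.b11 - 2 * mu * p.c11 + p.v11
  v02 := -2 * la ^ 2 * mu * p.a00 - 6 * la * mu ^ 2 * p.b00 - 4 * mu ^ 3 * p.c00
      + la ^ 2 * p.a01 + 4 * la * mu * p.b01 + 3 * mu ^ 2 * p.c01 - 2 * la * p.b02
      - 2 * mu * p.c02 + p.v02
  q20 := la ^ 4 * p.a00 + 2 * la ^ 3 * mu * p.b00 + la ^ 2 * mu ^ 2 * p.c00 - la ^ 3 * p.a10
      - 2 * la ^ 2 * mu * p.b10 - la * mu ^ 2 * p.c10 + la ^ 2 * p.a20 + 2 * la * mu * p.b20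
      + mu ^ 2 * p.c20 - la * p.u20 - mu * p.v20 + p.q20
  q11 := 2 * la ^ 3 * mu * p.a00 + 4 * la ^ 2 * mu ^ 2 * p.b00 + 2 * la * mu ^ 3 * p.c00
      - la ^ 3 * p.a01 - la ^ 2 * mu * p.a10 - 2 * la ^ 2 * mu * p.b01
      - 2 * la * mu ^ 2 * p.b10 - la * mu ^ 2 * p.c01 - mu ^ 3 * p.c10 + la ^ 2 * p.a11
      + 2 * la * mu * p.b11 + mu ^ 2 * p.c11 - la * p.u11 - mu * p.v11 + p.q11
  q02 := la ^ 2 * mu ^ 2 * p.a00 + 2 * la * mu ^ 3 * p.b00 + mu ^ 4 * p.c00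
      - la ^ 2 * mu * p.a01 - 2 * la * mu ^ 2 * p.b01 - mu ^ 3 * p.c01 + la ^ 2 * p.a02
      + 2 * la * mu * p.b02 + mu ^ 2 * p.c02 - la * p.u02 - mu * p.v02 + p.q02

/-- Swap of the coordinates. -/
def swp (p : Par) : Par where
  a00 := p.c00
  b00 := p.b00
  c00 := p.a00
  a10 := p.c01
  a01 := p.c10
  b10 := p.b01
  b01 := p.b10
  c10 := p.a01
  c01 := p.a10
  a20 := p.c02
  a11 := p.c11
  a02 := p.c20
  b20 := p.b02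
  b11 := p.b11
  b02 := p.b20
  c20 := p.a02
  c11 := p.a11
  c02 := p.a20
  u20 := p.v02
  u11 := p.v11
  u02 := p.v20
  v20 := p.u02
  v11 := p.u11
  v02 := p.u20
  q20 := p.q02
  q11 := p.q11
  q02 := p.q20

/-- Scaling `x ↦ la x`, `y ↦ mu y`. -/
def scal (la mu : ℂ) (p : Par) : Par where
  a00 := la ^ 2 * p.a00
  b00 := la * mu * p.b00
  c00 := mu ^ 2 * p.c00
  a10 := la * p.a10
  a01 := la ^ 2 * p.a01 / mu
  b10 := mu * p.b10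
  b01 := la * p.b01
  c10 := mu ^ 2 * p.c10 / la
  c01 := mu * p.c01
  a20 := p.a20
  a11 := la * p.a11 / mu
  a02 := la ^ 2 * p.a02 / mu ^ 2
  b20 := mu * p.b20 / la
  b11 := p.b11
  b02 := la * p.b02 / mu
  c20 := mu ^ 2 * p.c20 / la ^ 2
  c11 := mu * p.c11 / la
  c02 := p.c02
  u20 := p.u20 / la
  u11 := p.u11 / mu
  u02 := la * p.u02 / mu ^ 2
  v20 := mu * p.v20 / la ^ 2
  v11 := p.v11 / la
  v02 := p.v02 / mu
  q20 := p.q20 / la ^ 2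
  q11 := p.q11 / (la * mu)
  q02 := p.q02 / mu ^ 2

theorem act_shear (ka : ℂ) (p : Par) :
    Act !![1, ka, 0; 0, 1, 0; 0, 0, 1] p (shear ka p) := by
  refine act_mk 1 ka 0 0 1 0 0 0 1 1 (-ka) 0 0 1 0 0 0 1
    (by ring) (by ring) (by ring) (by ring) (by ring) (by ring) (by ring) (by ring) (by ring) ?_
  intro X Y Z X' Y' Z' hX hY hZ
  subst hX; subst hY; subst hZ
  refine ⟨?_, ?_, ?_, ?_, ?_, ?_⟩ <;>
    simp only [ha, hb, hc, hd, he, hf, shear] <;> ring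

theorem act_gau (la mu : ℂ) (p : Par) :
    Act !![1, 0, 0; 0, 1, 0; la, mu, 1] p (gau la mu p) := by
  refine act_mk 1 0 0 0 1 0 la mu 1 1 0 0 0 1 0 (-la) (-mu) 1
    (by ring) (by ring) (by ring) (by ring) (by ring) (by ring) (by ring) (by ring) (by ring) ?_
  intro X Y Z X' Y' Z' hX hY hZ
  subst hX; subst hY; subst hZ
  refine ⟨?_, ?_, ?_, ?_, ?_, ?_⟩ <;>
    simp only [ha, hb, hc, hd, he, hf, gau] <;> ring

theorem act_swp (p : Par) :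
    Act !![0, 1, 0; 1, 0, 0; 0, 0, 1] p (swp p) := by
  refine act_mk 0 1 0 1 0 0 0 0 1 0 (-1) 0 (-1) 0 0 0 0 (-1)
    (by ring) (by ring) (by ring) (by ring) (by ring) (by ring) (by ring) (by ring) (by ring) ?_
  intro X Y Z X' Y' Z' hX hY hZ
  subst hX; subst hY; subst hZ
  refine ⟨?_, ?_, ?_, ?_, ?_, ?_⟩ <;>
    simp only [ha, hb, hc, hd, he, hf, swp] <;> ring

theorem act_scal (la mu : ℂ) (hl : la ≠ 0) (hm : mu ≠ 0) (p : Par) :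
    Act !![la, 0, 0; 0, mu, 0; 0, 0, 1] p (scal la mu p) := by
  refine act_mk la 0 0 0 mu 0 0 0 1 mu 0 0 0 la 0 0 0 (la * mu)
    (by ring) (by ring) (by ring) (by ring) (by ring) (by ring) (by ring) (by ring) (by ring) ?_
  intro X Y Z X' Y' Z' hX hY hZ
  subst hX; subst hY; subst hZ
  refine ⟨?_, ?_, ?_, ?_, ?_, ?_⟩ <;>
    simp only [ha, hb, hc, hd, he, hf, scal] <;> field_simp <;> ring

end Pool.Agent.H38.FM
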