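import Pool.Agent.H67.FM.Equ

/-!
# Homogeneous entries of the quartic matrix and a criterion for `Act`
-/

noncomputable section

namespace Pool.Agent.H38.FM

open FM67 Matrix

/-- Homogenised `a`. -/
def ha (p : Par) (X Y Z : ℂ) : ℂ :=
  p.a00 * Z ^ 4 + (p.a10 * X + p.a01 * Y) * Z ^ 3
    + (p.a20 * X ^ 2 + p.a11 * X * Y + p.a02 * Y ^ 2) * Z ^ 2
    + X * (p.u20 * X ^ 2 + p.u11 * X * Y + p.u02 * Y ^ 2) * Z
    + X ^ 2 * (p.q20 * X ^ 2 + p.q11 * X * Y + p.q02 * Y ^ 2)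
/-- Homogenised `b`. -/
def hb (p : Par) (X Y Z : ℂ) : ℂ :=
  p.b00 * Z ^ 4 + (p.b10 * X + p.b01 * Y) * Z ^ 3
    + (p.b20 * X ^ 2 + p.b11 * X * Y + p.b02 * Y ^ 2) * Z ^ 2
    + (Y * (p.u20 * X ^ 2 + p.u11 * X * Y + p.u02 * Y ^ 2)
      + X * (p.v20 * X ^ 2 + p.v11 * X * Y + p.v02 * Y ^ 2)) / 2 * Z
    + X * Y * (p.q20 * X ^ 2 + p.q11 * X * Y + p.q02 * Y ^ 2)
/-- Homogenised `c`. -/
def hc (p : Par) (X Y Z : ℂ) : ℂ :=
  p.c00 * Z ^ 4 + (p.c10 * X + p.c01 * Y) * Z ^ 3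
    + (p.c20 * X ^ 2 + p.c11 * X * Y + p.c02 * Y ^ 2) * Z ^ 2
    + Y * (p.v20 * X ^ 2 + p.v11 * X * Y + p.v02 * Y ^ 2) * Z
    + Y ^ 2 * (p.q20 * X ^ 2 + p.q11 * X * Y + p.q02 * Y ^ 2)
/-- Entry `(0,2)`. -/
def hd (p : Par) (X Y Z : ℂ) : ℂ :=
  -(X * (p.c00 * Z ^ 3 + (p.c10 * X + p.c01 * Y) * Z ^ 2
      + (p.c20 * X ^ 2 + p.c11 * X * Y + p.c02 * Y ^ 2) * Z)
    - Y * (p.b00 * Z ^ 3 + (p.b10 * X + p.b01 * Y) * Z ^ 2
      + (p.b20 * X ^ 2 + p.b11 * X * Y + p.b02 * Y ^ 2) * Z)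
    + (X * Y * (p.v20 * X ^ 2 + p.v11 * X * Y + p.v02 * Y ^ 2)
      - Y ^ 2 * (p.u20 * X ^ 2 + p.u11 * X * Y + p.u02 * Y ^ 2)) / 2)
/-- Entry `(1,2)`. -/
def he (p : Par) (X Y Z : ℂ) : ℂ :=
  X * (p.b00 * Z ^ 3 + (p.b10 * X + p.b01 * Y) * Z ^ 2
      + (p.b20 * X ^ 2 + p.b11 * X * Y + p.b02 * Y ^ 2) * Z)
    - Y * (p.a00 * Z ^ 3 + (p.a10 * X + p.a01 * Y) * Z ^ 2
      + (p.a20 * X ^ 2 + p.a11 * X * Y + p.a02 * Y ^ 2) * Z)
    + (X ^ 2 * (p.v20 * X ^ 2 + p.v11 * X * Y + p.v02 * Y ^ 2)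
      - X * Y * (p.u20 * X ^ 2 + p.u11 * X * Y + p.u02 * Y ^ 2)) / 2
/-- Entry `(2,2)`. -/
def hf (p : Par) (X Y Z : ℂ) : ℂ :=
  X ^ 2 * (p.c00 * Z ^ 2 + (p.c10 * X + p.c01 * Y) * Z
      + (p.c20 * X ^ 2 + p.c11 * X * Y + p.c02 * Y ^ 2))
    - 2 * X * Y * (p.b00 * Z ^ 2 + (p.b10 * X + p.b01 * Y) * Z
      + (p.b20 * X ^ 2 + p.b11 * X * Y + p.b02 * Y ^ 2))
    + Y ^ 2 * (p.a00 * Z ^ 2 + (p.a10 * X + p.a01 * Y) * Z
      + (p.a20 * X ^ 2 + p.a11 * X * Y + p.a02 * Y ^ 2))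

theorem Hp_hom (p : Par) (X Y Z : ℂ) :
    Hp p ![X, Y, Z] = !![hc p X Y Z, -hb p X Y Z, hd p X Y Z;
      -hb p X Y Z, ha p X Y Z, he p X Y Z;
      hd p X Y Z, he p X Y Z, hf p X Y Z] := by
  ext i j
  simp only [Hp, Hf, Matrix.mul_apply, Fin.sum_univ_three, Matrix.transpose_apply]
  fin_cases i <;> fin_cases j <;>
    simp [Gf, toT, Kx, Fin.sum_univ_three, ha, hb, hc, hd, he, hf] <;> ring

/-- Criterion for the transformation law. -/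
theorem act_mk {p q : Par} (m00 m01 m02 m10 m11 m12 m20 m21 m22 : ℂ)
    (k00 k01 k02 k10 k11 k12 k20 k21 k22 : ℂ)
    (e00 : k00 = m11 * m22 - m12 * m21) (e01 : k01 = -(m01 * m22) + m02 * m21)
    (e02 : k02 = m01 * m12 - m02 * m11)
    (e10 : k10 = -(m10 * m22) + m12 * m20) (e11 : k11 = m00 * m22 - m02 * m20)
    (e12 : k12 = -(m00 * m12) + m02 * m10)
    (e20 : k20 = m10 * m21 - m11 * m20) (e21 : k21 = -(m00 * m21) + m01 * m20)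
    (e22 : k22 = m00 * m11 - m01 * m10)
    (h : ∀ X Y Z X' Y' Z' : ℂ, X' = m00 * X + m01 * Y + m02 * Z → Y' = m10 * X + m11 * Y + m12 * Z →
      Z' = m20 * X + m21 * Y + m22 * Z →
      hc q X' Y' Z' = k00 * k00 * hc p X Y Z + k10 * k10 * ha p X Y Z + k20 * k20 * hf p X Y Z
          - 2 * (k00 * k10) * hb p X Y Z + 2 * (k00 * k20) * hd p X Y Z
          + 2 * (k10 * k20) * he p X Y Z ∧
      -hb q X' Y' Z' = k00 * k01 * hc p X Y Z + k10 * k11 * ha p X Y Z + k20 * k21 * hf p X Y Z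
          - (k00 * k11 + k10 * k01) * hb p X Y Z + (k00 * k21 + k20 * k01) * hd p X Y Z
          + (k10 * k21 + k20 * k11) * he p X Y Z ∧
      ha q X' Y' Z' = k01 * k01 * hc p X Y Z + k11 * k11 * ha p X Y Z + k21 * k21 * hf p X Y Z
          - 2 * (k01 * k11) * hb p X Y Z + 2 * (k01 * k21) * hd p X Y Z
          + 2 * (k11 * k21) * he p X Y Z ∧
      hd q X' Y' Z' = k00 * k02 * hc p X Y Z + k10 * k12 * ha p X Y Z + k20 * k22 * hf p X Y Z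
          - (k00 * k12 + k10 * k02) * hb p X Y Z + (k00 * k22 + k20 * k02) * hd p X Y Z
          + (k10 * k22 + k20 * k12) * he p X Y Z ∧
      he q X' Y' Z' = k01 * k02 * hc p X Y Z + k11 * k12 * ha p X Y Z + k21 * k22 * hf p X Y Z
          - (k01 * k12 + k11 * k02) * hb p X Y Z + (k01 * k22 + k21 * k02) * hd p X Y Z
          + (k11 * k22 + k21 * k12) * he p X Y Z ∧
      hf q X' Y' Z' = k02 * k02 * hc p X Y Z + k12 * k12 * ha p X Y Z + k22 * k22 * hf p X Y Z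
          - 2 * (k02 * k12) * hb p X Y Z + 2 * (k02 * k22) * hd p X Y Z
          + 2 * (k12 * k22) * he p X Y Z) :
    Act !![m00, m01, m02; m10, m11, m12; m20, m21, m22] p q := by
  intro W
  obtain ⟨x, y, z, rfl⟩ : ∃ x y z, W = ![x, y, z] :=
    ⟨W 0, W 1, W 2, by ext i; fin_cases i <;> rfl⟩
  obtain ⟨h1, h2, h3, h4, h5, h6⟩ := h x y z _ _ _ rfl rfl rfl
  have hM : (!![m00, m01, m02; m10, m11, m12; m20, m21, m22] : Matrix (Fin 3) (Fin 3) ℂ).mulVec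
      ![x, y, z] = ![m00 * x + m01 * y + m02 * z, m10 * x + m11 * y + m12 * z,
        m20 * x + m21 * y + m22 * z] := by
    ext i
    fin_cases i <;> simp [Matrix.mulVec, dotProduct, Fin.sum_univ_three]
  have hK : (!![m00, m01, m02; m10, m11, m12; m20, m21, m22] : Matrix (Fin 3) (Fin 3) ℂ).adjugate
      = !![k00, k01, k02; k10, k11, k12; k20, k21, k22] := by
    rw [Matrix.adjugate_fin_three, e00, e01, e02, e10, e11, e12, e20, e21, e22]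
    ext i j
    fin_cases i <;> fin_cases j <;> simp
  rw [hM, hK, Hp_hom, Hp_hom, h1, h2, h3, h4, h5, h6]
  ext i j
  fin_cases i <;> fin_cases j <;>
    simp [Matrix.mul_apply, Fin.sum_univ_three] <;> ring

end Pool.Agent.H38.FM
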