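import Pool.Agent.H38.FM.GoodMk

/-!
# Leaf lemmas for type `A1` (generated)
-/

set_option linter.unusedVariables false
set_option linter.unusedSimpArgs false
set_option linter.style.longLine false

noncomputable section

namespace Pool.Agent.H38.FM

theorem leaf_A1_0 {p : Par} (h_a00 : p.a00 = 0) (h_b00 : p.b00 = 0) (h_c00 : p.c00 = 0) (h_a10 :
    p.a10 = 0) (h_a01 : p.a01 = 0) (h_b10 : p.b10 = 0) (h_b01 : p.b01 = 0) (h_c10 : p.c10 = 0)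
    (h_c01 : p.c01 = 0) (h_a11 : p.a11 = 0) (h_a02 : p.a02 = 0) (h_b20 : p.b20 = 0) (h_b02 :
    p.b02 = 0) (h_c20 : p.c20 = 0) (h_c11 : p.c11 = 0) (h_u20 : p.u20 = 0) (h_u11 : p.u11 = 0)
    (h_u02 : p.u02 = 0) (h_v20 : p.v20 = 0) (h_v11 : p.v11 = 0) (h_v02 : p.v02 = 0) (h_q20 :
    p.q20 = 0) (h_q11 : p.q11 = 0) (h_q02 : p.q02 = 0) (n0 : p.a20 ≠ 0) (n1 : p.c02 ≠ 0) : Good p
    := by
  refine good_to (NF.tor p.a20 p.b11 p.c02) (rel_mk 1 0 0 0 1 0 0 0 1 1 0 0 0 1 0 0 0 1 1 (by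
      ring) (by ring) (by ring) (by ring) (by ring) (by ring) (by ring) (by ring) (by ring) (by
      ring) ?_ ?_)
  · norm_num
  · intro X Y Z X' Y' Z' hX hY hZ
    subst hX; subst hY; subst hZ
    refine ⟨?_, ?_, ?_, ?_, ?_, ?_⟩ <;>
      simp only [ha, hb, hc, hd, he, hf, fTOR, zeroPar, h_a00, h_b00, h_c00, h_a10, h_a01, h_b10,
        h_b01, h_c10, h_c01, h_a11, h_a02, h_b20, h_b02, h_c20, h_c11, h_u20, h_u11, h_u02,
        h_v20, h_v11, h_v02, h_q20, h_q11, h_q02] <;>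
      first | ring1 | (field_simp; ring1)

theorem leaf_A1_1 {p : Par} (h_a00 : p.a00 = 0) (h_b00 : p.b00 = 0) (h_c00 : p.c00 = 0) (h_a10 :
    p.a10 = 0) (h_a01 : p.a01 = 0) (h_b10 : p.b10 = 0) (h_b01 : p.b01 = 0) (h_c10 : p.c10 = 0)
    (h_c01 : p.c01 = 0) (h_a11 : p.a11 = 0) (h_a02 : p.a02 = 0) (h_b20 : p.b20 = 0) (h_b11 :
    p.b11 = p.c02) (h_b02 : p.b02 = 0) (h_c20 : p.c20 = 0) (h_c11 : p.c11 = 0) (h_u20 : p.u20 =
    0) (h_u11 : p.u11 = 0) (h_u02 : p.u02 = 0) (h_v20 : p.v20 = 0) (h_v11 : p.v11 = 0) (h_v02 :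
    p.v02 = 0) (h_q20 : p.q20 = 0) (h_q11 : p.q11 = 0) (n0 : p.a20 ≠ 0) (n1 : p.c02 ≠ 0) (n2 :
    p.q02 ≠ 0) : Good p := by
  refine good_from (NF.sep p.q02 0 p.c02 0 0 (p.a20-p.c02)) (rel_mk 0 1 0 0 0 1 1 0 0 0 0 1 1 0 0
      0 1 0 1 (by ring) (by ring) (by ring) (by ring) (by ring) (by ring) (by ring) (by ring) (by
      ring) (by ring) ?_ ?_)
  · norm_num
  · intro X Y Z X' Y' Z' hX hY hZ
    subst hX; subst hY; subst hZ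
    refine ⟨?_, ?_, ?_, ?_, ?_, ?_⟩ <;>
      simp only [ha, hb, hc, hd, he, hf, fSEP, zeroPar, h_a00, h_b00, h_c00, h_a10, h_a01, h_b10,
        h_b01, h_c10, h_c01, h_a11, h_a02, h_b20, h_b11, h_b02, h_c20, h_c11, h_u20, h_u11,
        h_u02, h_v20, h_v11, h_v02, h_q20, h_q11] <;>
      first | ring1 | (field_simp; ring1)

theorem leaf_A1_2 {p : Par} (h_a00 : p.a00 = 0) (h_b00 : p.b00 = 0) (h_c00 : p.c00 = 0) (h_a10 :
    p.a10 = 0) (h_a01 : p.a01 = 0) (h_b10 : p.b10 = 0) (h_b01 : p.b01 = 0) (h_c10 : p.c10 = 0)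
    (h_c01 : p.c01 = 0) (h_a11 : p.a11 = 0) (h_a02 : p.a02 = 0) (h_b20 : p.b20 = 0) (h_b02 :
    p.b02 = 0) (h_c20 : p.c20 = 0) (h_c11 : p.c11 = 0) (h_c02 : p.c02 = p.a20) (h_u20 : p.u20 =
    0) (h_u11 : p.u11 = 0) (h_u02 : p.u02 = 0) (h_v20 : p.v20 = 0) (h_v11 : p.v11 = 0) (h_v02 :
    p.v02 = 0) (h_q20 : p.q20 = 0) (h_q02 : p.q02 = 0) (n0 : p.a20 ≠ 0) (n1 : p.q11 ≠ 0) : Good p
    := by
  refine good_to (NF.s2 ((p.a20+p.b11)/2) ((p.a20-p.b11)/2)) (rel_mk p.q11 0 0 0 1 0 0 0 1 1 0 0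
      0 p.q11 0 0 0 p.q11 p.q11 (by ring) (by ring) (by ring) (by ring) (by ring) (by ring) (by
      ring) (by ring) (by ring) (by ring) ?_ ?_)
  · simp [n1]
  · intro X Y Z X' Y' Z' hX hY hZ
    subst hX; subst hY; subst hZ
    refine ⟨?_, ?_, ?_, ?_, ?_, ?_⟩ <;>
      simp only [ha, hb, hc, hd, he, hf, fS2, zeroPar, h_a00, h_b00, h_c00, h_a10, h_a01, h_b10,
        h_b01, h_c10, h_c01, h_a11, h_a02, h_b20, h_b02, h_c20, h_c11, h_c02, h_u20, h_u11,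
        h_u02, h_v20, h_v11, h_v02, h_q20, h_q02] <;>
      first | ring1 | (field_simp; ring1)

theorem leaf_A1_3 {p : Par} (h_a00 : p.a00 = 0) (h_b00 : p.b00 = 0) (h_c00 : p.c00 = 0) (h_a10 :
    p.a10 = 0) (h_a01 : p.a01 = 0) (h_b10 : p.b10 = 0) (h_b01 : p.b01 = 0) (h_c10 : p.c10 = 0)
    (h_c01 : p.c01 = 0) (h_a11 : p.a11 = 0) (h_a02 : p.a02 = 0) (h_b20 : p.b20 = 0) (h_b11 :
    p.b11 = p.a20) (h_b02 : p.b02 = 0) (h_c20 : p.c20 = 0) (h_c11 : p.c11 = 0) (h_u20 : p.u20 =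
    0) (h_u11 : p.u11 = 0) (h_u02 : p.u02 = 0) (h_v20 : p.v20 = 0) (h_v11 : p.v11 = 0) (h_v02 :
    p.v02 = 0) (h_q11 : p.q11 = 0) (h_q02 : p.q02 = 0) (n0 : p.a20 ≠ 0) (n1 : p.c02 ≠ 0) (n2 :
    p.q20 ≠ 0) : Good p := by
  refine good_from (NF.sep p.q20 0 p.a20 0 0 (p.c02-p.a20)) (rel_mk 0 0 1 0 1 0 1 0 0 0 0 (-1) 0
      (-1) 0 (-1) 0 0 (-1) (by ring) (by ring) (by ring) (by ring) (by ring) (by ring) (by ring)
      (by ring) (by ring) (by ring) ?_ ?_)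
  · norm_num
  · intro X Y Z X' Y' Z' hX hY hZ
    subst hX; subst hY; subst hZ
    refine ⟨?_, ?_, ?_, ?_, ?_, ?_⟩ <;>
      simp only [ha, hb, hc, hd, he, hf, fSEP, zeroPar, h_a00, h_b00, h_c00, h_a10, h_a01, h_b10,
        h_b01, h_c10, h_c01, h_a11, h_a02, h_b20, h_b11, h_b02, h_c20, h_c11, h_u20, h_u11,
        h_u02, h_v20, h_v11, h_v02, h_q11, h_q02] <;>
      first | ring1 | (field_simp; ring1)

end Pool.Agent.H38.FM
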