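import Pool.Agent.H38.FM.GoodMk

/-!
# Leaf lemmas for type `Bz3` (generated)
-/

set_option linter.unusedVariables false
set_option linter.unusedSimpArgs false
set_option linter.style.longLine false

noncomputable section

namespace Pool.Agent.H38.FM

theorem leaf_Bz3_0 {p : Par} (h_a00 : p.a00 = 0) (h_b00 : p.b00 = 0) (h_c00 : p.c00 = 0) (h_a10 :
    p.a10 = 0) (h_a01 : p.a01 = 0) (h_b10 : p.b10 = 0) (h_b01 : p.b01 = 0) (h_c10 : p.c10 = 0)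
    (h_c01 : p.c01 = 0) (h_a20 : p.a20 = 0) (h_a11 : p.a11 = 0) (h_b20 : p.b20 = 0) (h_b11 :
    p.b11 = 0) (h_b02 : p.b02 = 0) (h_c20 : p.c20 = 0) (h_c11 : p.c11 = 0) (h_c02 : p.c02 = 0)
    (h_u20 : p.u20 = 0) (h_u11 : p.u11 = 0) (h_u02 : p.u02 = 0) (h_v20 : p.v20 = 0) (h_v11 :
    p.v11 = 0) (h_v02 : p.v02 = 0) (h_q20 : p.q20 = 0) (h_q11 : p.q11 = 0) (n0 : p.a02 ≠ 0) (n1 :
    p.q02 ≠ 0) : Good p := by
  refine good_from (NF.sep p.q02 0 0 p.a02 0 0) (rel_mk 0 1 0 0 0 1 1 0 0 0 0 1 1 0 0 0 1 0 1 (by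
      ring) (by ring) (by ring) (by ring) (by ring) (by ring) (by ring) (by ring) (by ring) (by
      ring) ?_ ?_)
  · norm_num
  · intro X Y Z X' Y' Z' hX hY hZ
    subst hX; subst hY; subst hZ
    refine ⟨?_, ?_, ?_, ?_, ?_, ?_⟩ <;>
      simp only [ha, hb, hc, hd, he, hf, fSEP, zeroPar, h_a00, h_b00, h_c00, h_a10, h_a01, h_b10,
        h_b01, h_c10, h_c01, h_a20, h_a11, h_b20, h_b11, h_b02, h_c20, h_c11, h_c02, h_u20,
        h_u11, h_u02, h_v20, h_v11, h_v02, h_q20, h_q11] <;>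
      first | ring1 | (field_simp; ring1)

theorem leaf_Bz3_1 {p : Par} (h_a00 : p.a00 = 0) (h_b00 : p.b00 = 0) (h_c00 : p.c00 = 0) (h_a10 :
    p.a10 = 0) (h_a01 : p.a01 = 0) (h_b10 : p.b10 = 0) (h_b01 : p.b01 = 0) (h_c10 : p.c10 = 0)
    (h_c01 : p.c01 = 0) (h_a20 : p.a20 = 0) (h_a11 : p.a11 = 0) (h_b20 : p.b20 = 0) (h_b11 :
    p.b11 = 0) (h_b02 : p.b02 = 0) (h_c20 : p.c20 = 0) (h_c11 : p.c11 = 0) (h_c02 : p.c02 = 0)
    (h_u20 : p.u20 = 0) (h_u02 : p.u02 = 0) (h_v20 : p.v20 = 0) (h_v11 : p.v11 = 0) (h_v02 :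
    p.v02 = 0) (h_q11 : p.q11 = 0) (hrel : 4 * p.a02 * p.q20 - p.u11 ^ 2 = 0) (n0 : p.a02 ≠ 0)
    (n1 : p.u11 ≠ 0) (n2 : p.q02 ≠ 0) : Good p := by
  obtain ⟨r, hr⟩ := IsAlgClosed.exists_pow_nat_eq (p.a02) (n := 2) (by norm_num)
  have hm : p.a02 = r ^ 2 := hr.symm
  have hr0 : r ≠ 0 := by
    intro h0
    apply n0
    rw [hm, h0]
    norm_num
  have hv : p.q20 = p.u11 ^ 2/(4 * r ^ 2) := by
    rw [hm] at hrel
    field_simp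
    linear_combination hrel
  refine good_from (NF.u2 (4 * p.q02/p.u11 ^ 2)) (rel_mk (2 * r) 0 0 0 0 (-2) 0 p.u11 0 (2 *
      p.u11) 0 0 0 0 (4 * r) 0 (-2 * p.u11 * r) 0 (4 * p.u11 * r) (by ring) (by ring) (by ring)
      (by ring) (by ring) (by ring) (by ring) (by ring) (by ring) (by ring) ?_ ?_)
  · simp [n1, hr0]
  · intro X Y Z X' Y' Z' hX hY hZ
    subst hX; subst hY; subst hZ
    refine ⟨?_, ?_, ?_, ?_, ?_, ?_⟩ <;>
      simp only [ha, hb, hc, hd, he, hf, fU2, zeroPar, h_a00, h_b00, h_c00, h_a10, h_a01, h_b10,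
        h_b01, h_c10, h_c01, h_a20, h_a11, h_b20, h_b11, h_b02, h_c20, h_c11, h_c02, h_u20,
        h_u02, h_v20, h_v11, h_v02, h_q11, hm, hv] <;>
      first | ring1 | (field_simp; ring1)

theorem leaf_Bz3_2 {p : Par} (h_a00 : p.a00 = 0) (h_b00 : p.b00 = 0) (h_c00 : p.c00 = 0) (h_a10 :
    p.a10 = 0) (h_a01 : p.a01 = 0) (h_b10 : p.b10 = 0) (h_b01 : p.b01 = 0) (h_c10 : p.c10 = 0)
    (h_c01 : p.c01 = 0) (h_a20 : p.a20 = 0) (h_a11 : p.a11 = 0) (h_b20 : p.b20 = 0) (h_b11 :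
    p.b11 = 0) (h_b02 : p.b02 = 0) (h_c20 : p.c20 = 0) (h_c11 : p.c11 = 0) (h_c02 : p.c02 = 0)
    (h_u20 : p.u20 = 0) (h_u02 : p.u02 = 0) (h_v20 : p.v20 = 0) (h_v11 : p.v11 = 0) (h_q11 :
    p.q11 = 0) (hrel : 4 * p.a02 * p.q20 - p.u11 ^ 2 + p.u11 * p.v02 = 0) (n0 : p.a02 ≠ 0) (n1 :
    p.v02 ≠ 0) : Good p := by
  obtain ⟨r, hr⟩ := IsAlgClosed.exists_pow_nat_eq (p.a02) (n := 2) (by norm_num)
  have hm : p.a02 = r ^ 2 := hr.symm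
  have hr0 : r ≠ 0 := by
    intro h0
    apply n0
    rw [hm, h0]
    norm_num
  have hv : p.q20 = (p.u11 ^ 2-p.u11 * p.v02)/(4 * r ^ 2) := by
    rw [hm] at hrel
    field_simp
    linear_combination hrel
  refine good_from (NF.f8 ((1-p.u11/p.v02)/2)) (rel_mk (p.v02 * r) 0 0 0 0 p.v02 0 (p.v02 ^ 2)
      (-p.q02) (-p.v02 ^ 3) 0 0 0 (-p.v02 * p.q02 * r) (-p.v02 ^ 2 * r) 0 (-p.v02 ^ 3 * r) 0
      (-p.v02 ^ 4 * r) (by ring) (by ring) (by ring) (by ring) (by ring) (by ring) (by ring) (by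
      ring) (by ring) (by ring) ?_ ?_)
  · simp [n1, hr0]
  · intro X Y Z X' Y' Z' hX hY hZ
    subst hX; subst hY; subst hZ
    refine ⟨?_, ?_, ?_, ?_, ?_, ?_⟩ <;>
      simp only [ha, hb, hc, hd, he, hf, fF8, zeroPar, h_a00, h_b00, h_c00, h_a10, h_a01, h_b10,
        h_b01, h_c10, h_c01, h_a20, h_a11, h_b20, h_b11, h_b02, h_c20, h_c11, h_c02, h_u20,
        h_u02, h_v20, h_v11, h_q11, hm, hv] <;>
      first | ring1 | (field_simp; ring1)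

end Pool.Agent.H38.FM
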