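import Pool.Agent.H38.FM.GoodMk

/-!
# Leaf lemmas for type `C1` (generated)
-/

set_option linter.unusedVariables false
set_option linter.unusedSimpArgs false
set_option linter.style.longLine false

noncomputable section

namespace Pool.Agent.H38.FM

theorem leaf_C1_0 {p : Par} (h_a00 : p.a00 = 0) (h_b00 : p.b00 = 0) (h_c00 : p.c00 = 0) (h_a10 :
    p.a10 = 0) (h_a01 : p.a01 = 0) (h_b10 : p.b10 = 0) (h_b01 : p.b01 = 0) (h_c10 : p.c10 = 0)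
    (h_c01 : p.c01 = 0) (h_a20 : p.a20 = 0) (h_a11 : p.a11 = 0) (h_a02 : p.a02 = 0) (h_b20 :
    p.b20 = 0) (h_b11 : p.b11 = 0) (h_c20 : p.c20 = 0) (h_c11 : p.c11 = 0) (h_c02 : p.c02 = 0)
    (h_u20 : p.u20 = 0) (h_u11 : p.u11 = 0) (h_u02 : p.u02 = 0) (h_v20 : p.v20 = 0) (h_v11 :
    p.v11 = 0) (h_v02 : p.v02 = 0) (h_q20 : p.q20 = 0) (h_q11 : p.q11 = 0) (n0 : p.b02 ≠ 0) :
    Good p := by
  by_cases hs : p.q02 = 0
  · refine good_to (NF.m1 0 0 p.b02 0 0 0 0 0 0) (rel_mk 1 0 0 0 1 0 0 0 1 1 0 0 0 1 0 0 0 1 1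
        (by ring) (by ring) (by ring) (by ring) (by ring) (by ring) (by ring) (by ring) (by ring)
        (by ring) ?_ ?_)
    · norm_num
    · intro X Y Z X' Y' Z' hX hY hZ
      subst hX; subst hY; subst hZ
      refine ⟨?_, ?_, ?_, ?_, ?_, ?_⟩ <;>
        simp only [ha, hb, hc, hd, he, hf, fM1, zeroPar, h_a00, h_b00, h_c00, h_a10, h_a01,
          h_b10, h_b01, h_c10, h_c01, h_a20, h_a11, h_a02, h_b20, h_b11, h_c20, h_c11, h_c02,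
          h_u20, h_u11, h_u02, h_v20, h_v11, h_v02, h_q20, h_q11, hs] <;>
        first | ring1 | (field_simp; ring1)
  · obtain ⟨r, hr⟩ := IsAlgClosed.exists_pow_nat_eq (p.q02) (n := 2) (by norm_num)
    have hm : p.q02 = r ^ 2 := hr.symm
    have hr0 : r ≠ 0 := by
      intro h0
      apply hs
      rw [hm, h0]
      norm_num
    refine good_from (NF.f8 (1/2)) (rel_mk 0 (-2 * p.b02) 0 0 0 1 r 0 0 0 0 (-2 * p.b02) r 0 0 0
        (-2 * p.b02 * r) 0 (-2 * p.b02 * r) (by ring) (by ring) (by ring) (by ring) (by ring) (by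
        ring) (by ring) (by ring) (by ring) (by ring) ?_ ?_)
    · simp [n0, hr0]
    · intro X Y Z X' Y' Z' hX hY hZ
      subst hX; subst hY; subst hZ
      refine ⟨?_, ?_, ?_, ?_, ?_, ?_⟩ <;>
        simp only [ha, hb, hc, hd, he, hf, fF8, zeroPar, h_a00, h_b00, h_c00, h_a10, h_a01,
          h_b10, h_b01, h_c10, h_c01, h_a20, h_a11, h_a02, h_b20, h_b11, h_c20, h_c11, h_c02,
          h_u20, h_u11, h_u02, h_v20, h_v11, h_v02, h_q20, h_q11, hm] <;>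
        first | ring1 | (field_simp; ring1)

theorem leaf_C1_1 {p : Par} (h_a00 : p.a00 = 0) (h_b00 : p.b00 = 0) (h_c00 : p.c00 = 0) (h_a10 :
    p.a10 = 0) (h_a01 : p.a01 = 0) (h_b10 : p.b10 = 0) (h_b01 : p.b01 = 0) (h_c10 : p.c10 = 0)
    (h_c01 : p.c01 = 0) (h_a20 : p.a20 = 0) (h_a02 : p.a02 = 0) (h_b20 : p.b20 = 0) (h_b11 :
    p.b11 = 0) (h_b02 : p.b02 = 1 / 2 * p.a11) (h_c20 : p.c20 = 0) (h_c11 : p.c11 = 0) (h_c02 :
    p.c02 = 0) (h_u20 : p.u20 = 0) (h_u11 : p.u11 = 0) (h_u02 : p.u02 = 0) (h_v20 : p.v20 = 0)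
    (h_v11 : p.v11 = 0) (h_v02 : p.v02 = 0) (h_q20 : p.q20 = 0) (h_q11 : p.q11 = 0) (h_q02 :
    p.q02 = 0) (n0 : p.a11 ≠ 0) : Good p := by
  refine good_to (NF.m1 0 0 (1/2 * p.a11) 0 0 0 0 0 p.a11) (rel_mk 1 0 0 0 1 0 0 0 1 1 0 0 0 1 0
      0 0 1 1 (by ring) (by ring) (by ring) (by ring) (by ring) (by ring) (by ring) (by ring) (by
      ring) (by ring) ?_ ?_)
  · norm_num
  · intro X Y Z X' Y' Z' hX hY hZ
    subst hX; subst hY; subst hZ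
    refine ⟨?_, ?_, ?_, ?_, ?_, ?_⟩ <;>
      simp only [ha, hb, hc, hd, he, hf, fM1, zeroPar, h_a00, h_b00, h_c00, h_a10, h_a01, h_b10,
        h_b01, h_c10, h_c01, h_a20, h_a02, h_b20, h_b11, h_b02, h_c20, h_c11, h_c02, h_u20,
        h_u11, h_u02, h_v20, h_v11, h_v02, h_q20, h_q11, h_q02] <;>
      first | ring1 | (field_simp; ring1)

theorem leaf_C1_2 {p : Par} (h_a00 : p.a00 = 0) (h_b00 : p.b00 = 0) (h_c00 : p.c00 = 0) (h_a10 :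
    p.a10 = 0) (h_a01 : p.a01 = 0) (h_b10 : p.b10 = 0) (h_b01 : p.b01 = 0) (h_c10 : p.c10 = 0)
    (h_c01 : p.c01 = 0) (h_a20 : p.a20 = 0) (h_a02 : p.a02 = 0) (h_b20 : p.b20 = 0) (h_b11 :
    p.b11 = 0) (h_c20 : p.c20 = 0) (h_c11 : p.c11 = 0) (h_c02 : p.c02 = 0) (h_u20 : p.u20 = 0)
    (h_u11 : p.u11 = 0) (h_u02 : p.u02 = 0) (h_v20 : p.v20 = 0) (h_v11 : p.v11 = 0) (h_v02 :
    p.v02 = 0) (h_q20 : p.q20 = 0) (h_q11 : p.q11 = 0) (h_q02 : p.q02 = 0) (n0 : p.b02 ≠ 0) (n1 :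
    p.a11 ≠ 0) (n2 : p.a11 - 2 * p.b02 ≠ 0) : Good p := by
  refine good_to (NF.m1 0 0 p.b02 0 0 0 0 0 p.a11) (rel_mk 1 0 0 0 1 0 0 0 1 1 0 0 0 1 0 0 0 1 1
      (by ring) (by ring) (by ring) (by ring) (by ring) (by ring) (by ring) (by ring) (by ring)
      (by ring) ?_ ?_)
  · norm_num
  · intro X Y Z X' Y' Z' hX hY hZ
    subst hX; subst hY; subst hZ
    refine ⟨?_, ?_, ?_, ?_, ?_, ?_⟩ <;>
      simp only [ha, hb, hc, hd, he, hf, fM1, zeroPar, h_a00, h_b00, h_c00, h_a10, h_a01, h_b10,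
        h_b01, h_c10, h_c01, h_a20, h_a02, h_b20, h_b11, h_c20, h_c11, h_c02, h_u20, h_u11,
        h_u02, h_v20, h_v11, h_v02, h_q20, h_q11, h_q02] <;>
      first | ring1 | (field_simp; ring1)

theorem leaf_C1_3 {p : Par} (h_a00 : p.a00 = 0) (h_b00 : p.b00 = 0) (h_c00 : p.c00 = 0) (h_a10 :
    p.a10 = 0) (h_a01 : p.a01 = 0) (h_b10 : p.b10 = 0) (h_b01 : p.b01 = 0) (h_c10 : p.c10 = 0)
    (h_c01 : p.c01 = 0) (h_a20 : p.a20 = 0) (h_a02 : p.a02 = 0) (h_b20 : p.b20 = 0) (h_b11 :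
    p.b11 = 0) (h_b02 : p.b02 = p.a11) (h_c20 : p.c20 = 0) (h_c11 : p.c11 = 0) (h_c02 : p.c02 =
    0) (h_u20 : p.u20 = 1 / 2 * p.v11) (h_u11 : p.u11 = 0) (h_u02 : p.u02 = 0) (h_v20 : p.v20 =
    0) (h_v02 : p.v02 = 0) (h_q20 : p.q20 = 0) (h_q11 : p.q11 = 0) (h_q02 : p.q02 = 0) (n0 :
    p.a11 ≠ 0) (n1 : p.v11 ≠ 0) : Good p := by
  refine good_from (NF.rs 0) (rel_mk (-p.a11) 0 0 0 0 1 0 (p.a11 * p.v11) 0 (-p.a11 * p.v11) 0 0
      0 0 p.a11 0 (p.a11 ^ 2 * p.v11) 0 (p.a11 ^ 2 * p.v11) (by ring) (by ring) (by ring) (by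
      ring) (by ring) (by ring) (by ring) (by ring) (by ring) (by ring) ?_ ?_)
  · simp [n0, n1]
  · intro X Y Z X' Y' Z' hX hY hZ
    subst hX; subst hY; subst hZ
    refine ⟨?_, ?_, ?_, ?_, ?_, ?_⟩ <;>
      simp only [ha, hb, hc, hd, he, hf, fRS, zeroPar, h_a00, h_b00, h_c00, h_a10, h_a01, h_b10,
        h_b01, h_c10, h_c01, h_a20, h_a02, h_b20, h_b11, h_b02, h_c20, h_c11, h_c02, h_u20,
        h_u11, h_u02, h_v20, h_v02, h_q20, h_q11, h_q02] <;>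
      first | ring1 | (field_simp; ring1)

theorem leaf_C1_4 {p : Par} (h_a00 : p.a00 = 0) (h_b00 : p.b00 = 0) (h_c00 : p.c00 = 0) (h_a10 :
    p.a10 = 0) (h_a01 : p.a01 = 0) (h_b10 : p.b10 = 0) (h_b01 : p.b01 = 0) (h_c10 : p.c10 = 0)
    (h_c01 : p.c01 = 0) (h_a20 : p.a20 = 0) (h_a02 : p.a02 = 0) (h_b20 : p.b20 = 0) (h_b11 :
    p.b11 = 0) (h_b02 : p.b02 = 2 / 3 * p.a11) (h_c20 : p.c20 = 0) (h_c11 : p.c11 = 0) (h_c02 :
    p.c02 = 0) (h_u20 : p.u20 = p.v11) (h_u11 : p.u11 = 0) (h_u02 : p.u02 = 0) (h_v20 : p.v20 =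
    0) (h_v02 : p.v02 = 0) (h_q20 : p.q20 = 0) (h_q11 : p.q11 = 0) (h_q02 : p.q02 = 0) (n0 :
    p.a11 ≠ 0) (n1 : p.v11 ≠ 0) : Good p := by
  refine good_from (NF.bc 0 1 0 0 0) (rel_mk p.a11 0 0 0 0 (-3) 0 (p.a11 * p.v11) 0 (3 * p.a11 *
      p.v11) 0 0 0 0 (3 * p.a11) 0 (-p.a11 ^ 2 * p.v11) 0 (3 * p.a11 ^ 2 * p.v11) (by ring) (by
      ring) (by ring) (by ring) (by ring) (by ring) (by ring) (by ring) (by ring) (by ring) ?_ ?_)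
  · simp [n0, n1]
  · intro X Y Z X' Y' Z' hX hY hZ
    subst hX; subst hY; subst hZ
    refine ⟨?_, ?_, ?_, ?_, ?_, ?_⟩ <;>
      simp only [ha, hb, hc, hd, he, hf, fBC, zeroPar, h_a00, h_b00, h_c00, h_a10, h_a01, h_b10,
        h_b01, h_c10, h_c01, h_a20, h_a02, h_b20, h_b11, h_b02, h_c20, h_c11, h_c02, h_u20,
        h_u11, h_u02, h_v20, h_v02, h_q20, h_q11, h_q02] <;>
      first | ring1 | (field_simp; ring1)

theorem leaf_C1_5 {p : Par} (h_a00 : p.a00 = 0) (h_b00 : p.b00 = 0) (h_c00 : p.c00 = 0) (h_a10 :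
    p.a10 = 0) (h_a01 : p.a01 = 0) (h_b10 : p.b10 = 0) (h_b01 : p.b01 = 0) (h_c10 : p.c10 = 0)
    (h_c01 : p.c01 = 0) (h_a20 : p.a20 = 0) (h_a02 : p.a02 = 0) (h_b20 : p.b20 = 0) (h_b11 :
    p.b11 = 0) (h_b02 : p.b02 = p.a11) (h_c20 : p.c20 = 0) (h_c11 : p.c11 = 0) (h_c02 : p.c02 =
    0) (h_u20 : p.u20 = 1 / 2 * p.v11) (h_u11 : p.u11 = 0) (h_u02 : p.u02 = 0) (h_v20 : p.v20 =
    0) (h_v02 : p.v02 = 0) (h_q20 : p.q20 = 0) (h_q02 : p.q02 = 0) (n0 : p.a11 ≠ 0) (n1 : p.q11 ≠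
    0) : Good p := by
  by_cases hs : p.v11 = 0
  · obtain ⟨k, hr⟩ := IsAlgClosed.exists_pow_nat_eq (-p.a11/p.q11) (n := 2) (by norm_num)
    have hm : p.a11 = -p.q11 * k ^ 2 := by
      rw [hr]
      field_simp
    have hr0 : k ≠ 0 := by
      intro h0
      apply n0
      rw [hm, h0]
      norm_num
    refine good_to (NF.sep 0 (2 * p.q11 * k ^ 2) 0 0 (2 * p.q11 * k ^ 2) 0) (rel_mk 1 0 (-k) 1 0
        k 0 1 0 (-k) (-k) 0 0 0 (-2 * k) 1 (-1) 0 (-2 * k) (by ring) (by ring) (by ring) (by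
        ring) (by ring) (by ring) (by ring) (by ring) (by ring) (by ring) ?_ ?_)
    · simp [hr0]
    · intro X Y Z X' Y' Z' hX hY hZ
      subst hX; subst hY; subst hZ
      refine ⟨?_, ?_, ?_, ?_, ?_, ?_⟩ <;>
        simp only [ha, hb, hc, hd, he, hf, fSEP, zeroPar, h_a00, h_b00, h_c00, h_a10, h_a01,
          h_b10, h_b01, h_c10, h_c01, h_a20, h_a02, h_b20, h_b11, h_b02, h_c20, h_c11, h_c02,
          h_u20, h_u11, h_u02, h_v20, h_v02, h_q20, h_q02, hs, hm] <;>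
        first | ring1 | (field_simp; ring1)
  · refine good_from (NF.rs (p.q11/(p.a11 * p.v11 ^ 2))) (rel_mk (-p.a11) 0 0 0 0 1 0 (p.a11 *
        p.v11) 0 (-p.a11 * p.v11) 0 0 0 0 p.a11 0 (p.a11 ^ 2 * p.v11) 0 (p.a11 ^ 2 * p.v11) (by
        ring) (by ring) (by ring) (by ring) (by ring) (by ring) (by ring) (by ring) (by ring) (by
        ring) ?_ ?_)
    · simp [n0, hs]
    · intro X Y Z X' Y' Z' hX hY hZ
      subst hX; subst hY; subst hZ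
      refine ⟨?_, ?_, ?_, ?_, ?_, ?_⟩ <;>
        simp only [ha, hb, hc, hd, he, hf, fRS, zeroPar, h_a00, h_b00, h_c00, h_a10, h_a01,
          h_b10, h_b01, h_c10, h_c01, h_a20, h_a02, h_b20, h_b11, h_b02, h_c20, h_c11, h_c02,
          h_u20, h_u11, h_u02, h_v20, h_v02, h_q20, h_q02] <;>
        first | ring1 | (field_simp; ring1)

theorem leaf_C1_6 {p : Par} (h_a00 : p.a00 = 0) (h_b00 : p.b00 = 0) (h_c00 : p.c00 = 0) (h_a10 :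
    p.a10 = 0) (h_a01 : p.a01 = 0) (h_b10 : p.b10 = 0) (h_b01 : p.b01 = 0) (h_c10 : p.c10 = 0)
    (h_c01 : p.c01 = 0) (h_a20 : p.a20 = 0) (h_a02 : p.a02 = 0) (h_b20 : p.b20 = 0) (h_b11 :
    p.b11 = 0) (h_b02 : p.b02 = 3 / 4 * p.a11) (h_c20 : p.c20 = 0) (h_c11 : p.c11 = 0) (h_c02 :
    p.c02 = 0) (h_u20 : p.u20 = 0) (h_u11 : p.u11 = 0) (h_u02 : p.u02 = 0) (h_v20 : p.v20 = 0)
    (h_v11 : p.v11 = 0) (h_v02 : p.v02 = 0) (h_q11 : p.q11 = 0) (h_q02 : p.q02 = 0) (n0 : p.a11 ≠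
    0) (n1 : p.q20 ≠ 0) : Good p := by
  obtain ⟨r, hr⟩ := IsAlgClosed.exists_pow_nat_eq (p.q20) (n := 2) (by norm_num)
  have hm : p.q20 = r ^ 2 := hr.symm
  have hr0 : r ≠ 0 := by
    intro h0
    apply n1
    rw [hm, h0]
    norm_num
  refine good_from (NF.a2 0 0) (rel_mk p.a11 0 0 0 0 (-2) 0 (p.a11 * r) 0 (2 * p.a11 * r) 0 0 0 0
      (2 * p.a11) 0 (-p.a11 ^ 2 * r) 0 (2 * p.a11 ^ 2 * r) (by ring) (by ring) (by ring) (by
      ring) (by ring) (by ring) (by ring) (by ring) (by ring) (by ring) ?_ ?_)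
  · simp [n0, hr0]
  · intro X Y Z X' Y' Z' hX hY hZ
    subst hX; subst hY; subst hZ
    refine ⟨?_, ?_, ?_, ?_, ?_, ?_⟩ <;>
      simp only [ha, hb, hc, hd, he, hf, fA2, zeroPar, h_a00, h_b00, h_c00, h_a10, h_a01, h_b10,
        h_b01, h_c10, h_c01, h_a20, h_a02, h_b20, h_b11, h_b02, h_c20, h_c11, h_c02, h_u20,
        h_u11, h_u02, h_v20, h_v11, h_v02, h_q11, h_q02, hm] <;>
      first | ring1 | (field_simp; ring1)

end Pool.Agent.H38.FM
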