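import Pool.Agent.H38.FM.GoodMk

/-!
# Leaf lemmas for type `C2` (generated)
-/

set_option linter.unusedVariables false
set_option linter.unusedSimpArgs false
set_option linter.style.longLine false

noncomputable section

namespace Pool.Agent.H38.FM

theorem leaf_C2_0 {p : Par} (h_a00 : p.a00 = 0) (h_b00 : p.b00 = 0) (h_c00 : p.c00 = 0) (h_a10 :
    p.a10 = 0) (h_a01 : p.a01 = 0) (h_b10 : p.b10 = 0) (h_b01 : p.b01 = 0) (h_c10 : p.c10 = 0)
    (h_c01 : p.c01 = 0) (h_a20 : p.a20 = 0) (h_a11 : p.a11 = 2 * p.b02) (h_b20 : p.b20 = 0)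
    (h_b11 : p.b11 = 0) (h_c20 : p.c20 = 0) (h_c11 : p.c11 = 0) (h_c02 : p.c02 = 0) (h_u20 :
    p.u20 = 0) (h_u11 : p.u11 = 0) (h_u02 : p.u02 = 0) (h_v20 : p.v20 = 0) (h_v11 : p.v11 = 0)
    (h_v02 : p.v02 = 0) (h_q20 : p.q20 = 0) (h_q11 : p.q11 = 0) (h_q02 : p.q02 = 0) (n0 : p.b02 ≠
    0) (n1 : p.a02 ≠ 0) : Good p := by
  refine good_to (NF.m1 0 0 p.b02 0 0 0 p.a02 0 (2 * p.b02)) (rel_mk 1 0 0 0 1 0 0 0 1 1 0 0 0 1
      0 0 0 1 1 (by ring) (by ring) (by ring) (by ring) (by ring) (by ring) (by ring) (by ring)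
      (by ring) (by ring) ?_ ?_)
  · norm_num
  · intro X Y Z X' Y' Z' hX hY hZ
    subst hX; subst hY; subst hZ
    refine ⟨?_, ?_, ?_, ?_, ?_, ?_⟩ <;>
      simp only [ha, hb, hc, hd, he, hf, fM1, zeroPar, h_a00, h_b00, h_c00, h_a10, h_a01, h_b10,
        h_b01, h_c10, h_c01, h_a20, h_a11, h_b20, h_b11, h_c20, h_c11, h_c02, h_u20, h_u11,
        h_u02, h_v20, h_v11, h_v02, h_q20, h_q11, h_q02] <;>
      first | ring1 | (field_simp; ring1)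

end Pool.Agent.H38.FM
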