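import Pool.Agent.H38.FM.GoodMk

/-!
# Leaf lemmas for type `L` (generated)
-/

set_option linter.unusedVariables false
set_option linter.unusedSimpArgs false
set_option linter.style.longLine false

noncomputable section

namespace Pool.Agent.H38.FM

theorem leaf_L_0 {p : Par} (h_a00 : p.a00 = 0) (h_b00 : p.b00 = 0) (h_c00 : p.c00 = 0) (h_a10 :
    p.a10 = 1) (h_a01 : p.a01 = 0) (h_b10 : p.b10 = 0) (h_b01 : p.b01 = 1 / 2) (h_c10 : p.c10 =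
    0) (h_c01 : p.c01 = 0) (h_a20 : p.a20 = 0) (h_a11 : p.a11 = 0) (h_a02 : p.a02 = 0) (h_b20 :
    p.b20 = 0) (h_b11 : p.b11 = 0) (h_b02 : p.b02 = 0) (h_c20 : p.c20 = 0) (h_c11 : p.c11 = 0)
    (h_c02 : p.c02 = 0) (h_u20 : p.u20 = 0) (h_u11 : p.u11 = 0) (h_v20 : p.v20 = 0) (h_v11 :
    p.v11 = 0) (h_v02 : p.v02 = 0) (h_q20 : p.q20 = 0) (h_q11 : p.q11 = 0) (h_q02 : p.q02 = 0) :
    Good p := by
  refine good_to (NF.m1 0 (1/2) 0 p.u02 0 0 0 1 0) (rel_mk 1 0 0 0 1 0 0 0 1 1 0 0 0 1 0 0 0 1 1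
      (by ring) (by ring) (by ring) (by ring) (by ring) (by ring) (by ring) (by ring) (by ring)
      (by ring) ?_ ?_)
  · norm_num
  · intro X Y Z X' Y' Z' hX hY hZ
    subst hX; subst hY; subst hZ
    refine ⟨?_, ?_, ?_, ?_, ?_, ?_⟩ <;>
      simp only [ha, hb, hc, hd, he, hf, fM1, zeroPar, h_a00, h_b00, h_c00, h_a10, h_a01, h_b10,
        h_b01, h_c10, h_c01, h_a20, h_a11, h_a02, h_b20, h_b11, h_b02, h_c20, h_c11, h_c02,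
        h_u20, h_u11, h_v20, h_v11, h_v02, h_q20, h_q11, h_q02] <;>
      first | ring1 | (field_simp; ring1)

theorem leaf_L_1 {p : Par} (mu : ℂ) (h_a00 : p.a00 = 0) (h_b00 : p.b00 = 0) (h_c00 : p.c00 = 0)
    (h_a10 : p.a10 = 1) (h_a01 : p.a01 = 0) (h_b10 : p.b10 = 0) (h_b01 : p.b01 = mu) (h_c10 :
    p.c10 = 0) (h_c01 : p.c01 = 0) (h_a20 : p.a20 = 0) (h_a11 : p.a11 = 0) (h_a02 : p.a02 = 0)
    (h_b20 : p.b20 = 0) (h_b11 : p.b11 = 0) (h_b02 : p.b02 = 0) (h_c20 : p.c20 = 0) (h_c11 :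
    p.c11 = 0) (h_c02 : p.c02 = 0) (h_u20 : p.u20 = 0) (h_u11 : p.u11 = 0) (h_v20 : p.v20 = 0)
    (h_v11 : p.v11 = 0) (h_v02 : p.v02 = 0) (h_q20 : p.q20 = 0) (h_q11 : p.q11 = 0) (h_q02 :
    p.q02 = 0) (n0 : mu ≠ 0) (n1 : mu - 2 ≠ 0) (n2 : 2 * mu - 1 ≠ 0) : Good p := by
  refine good_to (NF.m1 0 mu 0 p.u02 0 0 0 1 0) (rel_mk 1 0 0 0 1 0 0 0 1 1 0 0 0 1 0 0 0 1 1 (by
      ring) (by ring) (by ring) (by ring) (by ring) (by ring) (by ring) (by ring) (by ring) (by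
      ring) ?_ ?_)
  · norm_num
  · intro X Y Z X' Y' Z' hX hY hZ
    subst hX; subst hY; subst hZ
    refine ⟨?_, ?_, ?_, ?_, ?_, ?_⟩ <;>
      simp only [ha, hb, hc, hd, he, hf, fM1, zeroPar, h_a00, h_b00, h_c00, h_a10, h_a01, h_b10,
        h_b01, h_c10, h_c01, h_a20, h_a11, h_a02, h_b20, h_b11, h_b02, h_c20, h_c11, h_c02,
        h_u20, h_u11, h_v20, h_v11, h_v02, h_q20, h_q11, h_q02] <;>
      first | ring1 | (field_simp; ring1)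

theorem leaf_L_2 {p : Par} (h_a00 : p.a00 = 0) (h_b00 : p.b00 = 0) (h_c00 : p.c00 = 0) (h_a10 :
    p.a10 = 1) (h_a01 : p.a01 = 0) (h_b10 : p.b10 = 0) (h_b01 : p.b01 = -1 / 2) (h_c10 : p.c10 =
    0) (h_c01 : p.c01 = 0) (h_a20 : p.a20 = 0) (h_a11 : p.a11 = 0) (h_a02 : p.a02 = 0) (h_b20 :
    p.b20 = 0) (h_b11 : p.b11 = 0) (h_b02 : p.b02 = 0) (h_c20 : p.c20 = 0) (h_c11 : p.c11 = 0)
    (h_c02 : p.c02 = 0) (h_u20 : p.u20 = 0) (h_u11 : p.u11 = -p.v02) (h_v20 : p.v20 = 0) (h_v11 :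
    p.v11 = 0) (h_q20 : p.q20 = 0) (h_q11 : p.q11 = 0) (h_q02 : p.q02 = 0) (n0 : p.v02 ≠ 0) :
    Good p := by
  refine good_from (NF.rs (-p.u02/(4 * p.v02 ^ 2))) (rel_mk 0 (-4 * p.v02 ^ 2) p.u02 0 0 (2 *
      p.v02) (2 * p.v02 ^ 2) 0 0 0 0 (-8 * p.v02 ^ 3) (4 * p.v02 ^ 3) (-2 * p.u02 * p.v02 ^ 2) 0
      0 (-8 * p.v02 ^ 4) 0 (-16 * p.v02 ^ 5) (by ring) (by ring) (by ring) (by ring) (by ring)
      (by ring) (by ring) (by ring) (by ring) (by ring) ?_ ?_)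
  · simp [n0]
  · intro X Y Z X' Y' Z' hX hY hZ
    subst hX; subst hY; subst hZ
    refine ⟨?_, ?_, ?_, ?_, ?_, ?_⟩ <;>
      simp only [ha, hb, hc, hd, he, hf, fRS, zeroPar, h_a00, h_b00, h_c00, h_a10, h_a01, h_b10,
        h_b01, h_c10, h_c01, h_a20, h_a11, h_a02, h_b20, h_b11, h_b02, h_c20, h_c11, h_c02,
        h_u20, h_u11, h_v20, h_v11, h_q20, h_q11, h_q02] <;>
      first | ring1 | (field_simp; ring1)

theorem leaf_L_3 {p : Par} (h_a00 : p.a00 = 0) (h_b00 : p.b00 = 0) (h_c00 : p.c00 = 0) (h_a10 :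
    p.a10 = 1) (h_a01 : p.a01 = 0) (h_b10 : p.b10 = 0) (h_b01 : p.b01 = 1 / 2) (h_c10 : p.c10 =
    0) (h_c01 : p.c01 = 0) (h_a20 : p.a20 = 0) (h_a02 : p.a02 = 0) (h_b20 : p.b20 = 0) (h_b11 :
    p.b11 = 0) (h_b02 : p.b02 = 0) (h_c20 : p.c20 = 0) (h_c11 : p.c11 = 0) (h_c02 : p.c02 = 0)
    (h_u20 : p.u20 = 0) (h_u11 : p.u11 = 0) (h_v20 : p.v20 = 0) (h_v11 : p.v11 = 0) (h_v02 :
    p.v02 = 0) (h_q20 : p.q20 = 0) (h_q11 : p.q11 = 0) (h_q02 : p.q02 = 0) (n0 : p.a11 ≠ 0) :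
    Good p := by
  refine good_to (NF.m1 0 (1/2) 0 p.u02 0 0 0 1 p.a11) (rel_mk 1 0 0 0 1 0 0 0 1 1 0 0 0 1 0 0 0
      1 1 (by ring) (by ring) (by ring) (by ring) (by ring) (by ring) (by ring) (by ring) (by
      ring) (by ring) ?_ ?_)
  · norm_num
  · intro X Y Z X' Y' Z' hX hY hZ
    subst hX; subst hY; subst hZ
    refine ⟨?_, ?_, ?_, ?_, ?_, ?_⟩ <;>
      simp only [ha, hb, hc, hd, he, hf, fM1, zeroPar, h_a00, h_b00, h_c00, h_a10, h_a01, h_b10,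
        h_b01, h_c10, h_c01, h_a20, h_a02, h_b20, h_b11, h_b02, h_c20, h_c11, h_c02, h_u20,
        h_u11, h_v20, h_v11, h_v02, h_q20, h_q11, h_q02] <;>
      first | ring1 | (field_simp; ring1)

theorem leaf_L_4 {p : Par} (mu : ℂ) (h_a00 : p.a00 = 0) (h_b00 : p.b00 = 0) (h_c00 : p.c00 = 0)
    (h_a10 : p.a10 = 1) (h_a01 : p.a01 = 0) (h_b10 : p.b10 = 0) (h_b01 : p.b01 = mu) (h_c10 :
    p.c10 = 0) (h_c01 : p.c01 = 0) (h_a20 : p.a20 = 0) (h_a02 : p.a02 = 0) (h_b20 : p.b20 = 0)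
    (h_b11 : p.b11 = 0) (h_b02 : p.b02 = 0) (h_c20 : p.c20 = 0) (h_c11 : p.c11 = 0) (h_c02 :
    p.c02 = 0) (h_u20 : p.u20 = 0) (h_u11 : p.u11 = 0) (h_v20 : p.v20 = 0) (h_v11 : p.v11 = 0)
    (h_v02 : p.v02 = 0) (h_q20 : p.q20 = 0) (h_q11 : p.q11 = 0) (h_q02 : p.q02 = 0) (n0 : mu ≠ 0)
    (n1 : mu - 2 ≠ 0) (n2 : p.a11 ≠ 0) (n3 : 2 * mu - 1 ≠ 0) : Good p := by
  refine good_to (NF.m1 0 mu 0 p.u02 0 0 0 1 p.a11) (rel_mk 1 0 0 0 1 0 0 0 1 1 0 0 0 1 0 0 0 1 1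
      (by ring) (by ring) (by ring) (by ring) (by ring) (by ring) (by ring) (by ring) (by ring)
      (by ring) ?_ ?_)
  · norm_num
  · intro X Y Z X' Y' Z' hX hY hZ
    subst hX; subst hY; subst hZ
    refine ⟨?_, ?_, ?_, ?_, ?_, ?_⟩ <;>
      simp only [ha, hb, hc, hd, he, hf, fM1, zeroPar, h_a00, h_b00, h_c00, h_a10, h_a01, h_b10,
        h_b01, h_c10, h_c01, h_a20, h_a02, h_b20, h_b11, h_b02, h_c20, h_c11, h_c02, h_u20,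
        h_u11, h_v20, h_v11, h_v02, h_q20, h_q11, h_q02] <;>
      first | ring1 | (field_simp; ring1)

theorem leaf_L_5 {p : Par} (h_a00 : p.a00 = 0) (h_b00 : p.b00 = 0) (h_c00 : p.c00 = 0) (h_a10 :
    p.a10 = 1) (h_a01 : p.a01 = 0) (h_b10 : p.b10 = 0) (h_b01 : p.b01 = 1) (h_c10 : p.c10 = 0)
    (h_c01 : p.c01 = 0) (h_a20 : p.a20 = 0) (h_a11 : p.a11 = 0) (h_a02 : p.a02 = 0) (h_b11 :
    p.b11 = 0) (h_b02 : p.b02 = 0) (h_c20 : p.c20 = 0) (h_c11 : p.c11 = 4 * p.b20) (h_c02 : p.c02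
    = 0) (h_u20 : p.u20 = 0) (h_u11 : p.u11 = 0) (h_u02 : p.u02 = 0) (h_v20 : p.v20 = 0) (h_v11 :
    p.v11 = 0) (h_v02 : p.v02 = 0) (h_q20 : p.q20 = 0) (h_q11 : p.q11 = 0) (h_q02 : p.q02 = 0)
    (n0 : p.b20 ≠ 0) : Good p := by
  refine good_from (NF.rs 0) (rel_mk 1 0 0 0 (-4 * p.b20) 0 0 0 1 (-4 * p.b20) 0 0 0 1 0 0 0 (-4
      * p.b20) (-4 * p.b20) (by ring) (by ring) (by ring) (by ring) (by ring) (by ring) (by ring)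
      (by ring) (by ring) (by ring) ?_ ?_)
  · simp [n0]
  · intro X Y Z X' Y' Z' hX hY hZ
    subst hX; subst hY; subst hZ
    refine ⟨?_, ?_, ?_, ?_, ?_, ?_⟩ <;>
      simp only [ha, hb, hc, hd, he, hf, fRS, zeroPar, h_a00, h_b00, h_c00, h_a10, h_a01, h_b10,
        h_b01, h_c10, h_c01, h_a20, h_a11, h_a02, h_b11, h_b02, h_c20, h_c11, h_c02, h_u20,
        h_u11, h_u02, h_v20, h_v11, h_v02, h_q20, h_q11, h_q02] <;>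
      first | ring1 | (field_simp; ring1)

theorem leaf_L_6 {p : Par} (h_a00 : p.a00 = 0) (h_b00 : p.b00 = 0) (h_c00 : p.c00 = 0) (h_a10 :
    p.a10 = 1) (h_a01 : p.a01 = 0) (h_b10 : p.b10 = 0) (h_b01 : p.b01 = 1 / 2) (h_c10 : p.c10 =
    0) (h_c01 : p.c01 = 0) (h_a20 : p.a20 = 0) (h_b20 : p.b20 = 0) (h_b11 : p.b11 = 0) (h_b02 :
    p.b02 = 0) (h_c20 : p.c20 = 0) (h_c11 : p.c11 = 0) (h_c02 : p.c02 = 0) (h_u20 : p.u20 = 0)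
    (h_u11 : p.u11 = 0) (h_v20 : p.v20 = 0) (h_v11 : p.v11 = 0) (h_v02 : p.v02 = 0) (h_q20 :
    p.q20 = 0) (h_q11 : p.q11 = 0) (h_q02 : p.q02 = 0) (n0 : p.a02 ≠ 0) : Good p := by
  refine good_to (NF.m1 0 (1/2) 0 p.u02 0 0 p.a02 1 p.a11) (rel_mk 1 0 0 0 1 0 0 0 1 1 0 0 0 1 0
      0 0 1 1 (by ring) (by ring) (by ring) (by ring) (by ring) (by ring) (by ring) (by ring) (by
      ring) (by ring) ?_ ?_)
  · norm_num
  · intro X Y Z X' Y' Z' hX hY hZ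
    subst hX; subst hY; subst hZ
    refine ⟨?_, ?_, ?_, ?_, ?_, ?_⟩ <;>
      simp only [ha, hb, hc, hd, he, hf, fM1, zeroPar, h_a00, h_b00, h_c00, h_a10, h_a01, h_b10,
        h_b01, h_c10, h_c01, h_a20, h_b20, h_b11, h_b02, h_c20, h_c11, h_c02, h_u20, h_u11,
        h_v20, h_v11, h_v02, h_q20, h_q11, h_q02] <;>
      first | ring1 | (field_simp; ring1)

theorem leaf_L_7 {p : Par} (mu : ℂ) (h_a00 : p.a00 = 0) (h_b00 : p.b00 = 0) (h_c00 : p.c00 = 0)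
    (h_a10 : p.a10 = 1) (h_a01 : p.a01 = 0) (h_b10 : p.b10 = 0) (h_b01 : p.b01 = mu) (h_c10 :
    p.c10 = 0) (h_c01 : p.c01 = 0) (h_a20 : p.a20 = 0) (h_b20 : p.b20 = 0) (h_b11 : p.b11 = 0)
    (h_b02 : p.b02 = 0) (h_c20 : p.c20 = 0) (h_c11 : p.c11 = 0) (h_c02 : p.c02 = 0) (h_u20 :
    p.u20 = 0) (h_u11 : p.u11 = 0) (h_v20 : p.v20 = 0) (h_v11 : p.v11 = 0) (h_v02 : p.v02 = 0)
    (h_q20 : p.q20 = 0) (h_q11 : p.q11 = 0) (h_q02 : p.q02 = 0) (n0 : mu ≠ 0) (n1 : mu - 2 ≠ 0)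
    (n2 : p.a02 ≠ 0) (n3 : 2 * mu - 1 ≠ 0) : Good p := by
  refine good_to (NF.m1 0 mu 0 p.u02 0 0 p.a02 1 p.a11) (rel_mk 1 0 0 0 1 0 0 0 1 1 0 0 0 1 0 0 0
      1 1 (by ring) (by ring) (by ring) (by ring) (by ring) (by ring) (by ring) (by ring) (by
      ring) (by ring) ?_ ?_)
  · norm_num
  · intro X Y Z X' Y' Z' hX hY hZ
    subst hX; subst hY; subst hZ
    refine ⟨?_, ?_, ?_, ?_, ?_, ?_⟩ <;>
      simp only [ha, hb, hc, hd, he, hf, fM1, zeroPar, h_a00, h_b00, h_c00, h_a10, h_a01, h_b10,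
        h_b01, h_c10, h_c01, h_a20, h_b20, h_b11, h_b02, h_c20, h_c11, h_c02, h_u20, h_u11,
        h_v20, h_v11, h_v02, h_q20, h_q11, h_q02] <;>
      first | ring1 | (field_simp; ring1)

theorem leaf_L_8 {p : Par} (h_a00 : p.a00 = 0) (h_b00 : p.b00 = 0) (h_c00 : p.c00 = 0) (h_a10 :
    p.a10 = 1) (h_a01 : p.a01 = 0) (h_b10 : p.b10 = 0) (h_b01 : p.b01 = 3 / 2) (h_c10 : p.c10 =
    0) (h_c01 : p.c01 = 0) (h_a20 : p.a20 = 0) (h_a11 : p.a11 = 0) (h_a02 : p.a02 = 0) (h_b20 :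
    p.b20 = 0) (h_b11 : p.b11 = 0) (h_b02 : p.b02 = 0) (h_c11 : p.c11 = 0) (h_c02 : p.c02 = 0)
    (h_u20 : p.u20 = 0) (h_u11 : p.u11 = 0) (h_v20 : p.v20 = 0) (h_v11 : p.v11 = 0) (h_v02 :
    p.v02 = 0) (h_q20 : p.q20 = -p.c20 * p.u02) (h_q11 : p.q11 = 0) (h_q02 : p.q02 = 0) (n0 :
    p.c20 ≠ 0) : Good p := by
  obtain ⟨r, hr⟩ := IsAlgClosed.exists_pow_nat_eq (p.c20) (n := 2) (by norm_num)
  have hm : p.c20 = r ^ 2 := hr.symm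
  have hr0 : r ≠ 0 := by
    intro h0
    apply n0
    rw [hm, h0]
    norm_num
  refine good_from (NF.a2 0 (p.u02 * p.c20)) (rel_mk 1 0 0 0 r 0 0 0 1 r 0 0 0 1 0 0 0 r r (by
      ring) (by ring) (by ring) (by ring) (by ring) (by ring) (by ring) (by ring) (by ring) (by
      ring) ?_ ?_)
  · simp [hr0]
  · intro X Y Z X' Y' Z' hX hY hZ
    subst hX; subst hY; subst hZ
    refine ⟨?_, ?_, ?_, ?_, ?_, ?_⟩ <;>
      simp only [ha, hb, hc, hd, he, hf, fA2, zeroPar, h_a00, h_b00, h_c00, h_a10, h_a01, h_b10,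
        h_b01, h_c10, h_c01, h_a20, h_a11, h_a02, h_b20, h_b11, h_b02, h_c11, h_c02, h_u20,
        h_u11, h_v20, h_v11, h_v02, h_q20, h_q11, h_q02, hm] <;>
      first | ring1 | (field_simp; ring1)

theorem leaf_L_9 {p : Par} (h_a00 : p.a00 = 0) (h_b00 : p.b00 = 0) (h_c00 : p.c00 = 0) (h_a10 :
    p.a10 = 1) (h_a01 : p.a01 = 0) (h_b10 : p.b10 = 0) (h_b01 : p.b01 = 3 / 2) (h_c10 : p.c10 =
    0) (h_c01 : p.c01 = 0) (h_a20 : p.a20 = 0) (h_a11 : p.a11 = 0) (h_b20 : p.b20 = 0) (h_b11 :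
    p.b11 = 0) (h_b02 : p.b02 = 0) (h_c11 : p.c11 = 0) (h_c02 : p.c02 = 0) (h_u20 : p.u20 = -3 *
    p.a02 * p.c20) (h_u11 : p.u11 = 0) (h_v20 : p.v20 = 0) (h_v11 : p.v11 = -4 * p.a02 * p.c20)
    (h_v02 : p.v02 = 0) (h_q20 : p.q20 = -p.c20 * p.u02) (h_q11 : p.q11 = 0) (h_q02 : p.q02 =
    p.a02 ^ 2 * p.c20) (n0 : p.c20 ≠ 0) (n1 : p.a02 ≠ 0) : Good p := by
  obtain ⟨r, hr⟩ := IsAlgClosed.exists_pow_nat_eq (p.c20) (n := 2) (by norm_num)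
  have hm : p.c20 = r ^ 2 := hr.symm
  have hr0 : r ≠ 0 := by
    intro h0
    apply n0
    rw [hm, h0]
    norm_num
  refine good_from (NF.a2 (p.a02 * p.c20) (p.u02 * p.c20)) (rel_mk 1 0 0 0 r 0 0 0 1 r 0 0 0 1 0
      0 0 r r (by ring) (by ring) (by ring) (by ring) (by ring) (by ring) (by ring) (by ring) (by
      ring) (by ring) ?_ ?_)
  · simp [hr0]
  · intro X Y Z X' Y' Z' hX hY hZ
    subst hX; subst hY; subst hZ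
    refine ⟨?_, ?_, ?_, ?_, ?_, ?_⟩ <;>
      simp only [ha, hb, hc, hd, he, hf, fA2, zeroPar, h_a00, h_b00, h_c00, h_a10, h_a01, h_b10,
        h_b01, h_c10, h_c01, h_a20, h_a11, h_b20, h_b11, h_b02, h_c11, h_c02, h_u20, h_u11,
        h_v20, h_v11, h_v02, h_q20, h_q11, h_q02, hm] <;>
      first | ring1 | (field_simp; ring1)

end Pool.Agent.H38.FM
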