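import Pool.Agent.H38.FM.GoodMk

/-!
# Leaf lemmas for type `T2c` (generated)
-/

set_option linter.unusedVariables false
set_option linter.unusedSimpArgs false
set_option linter.style.longLine false

noncomputable section

namespace Pool.Agent.H38.FM

theorem leaf_T2c_0 {p : Par} (h_a00 : p.a00 = 0) (h_b00 : p.b00 = 0) (h_c00 : p.c00 = 0) (h_a10 :
    p.a10 = 0) (h_a01 : p.a01 = 1) (h_b10 : p.b10 = 0) (h_b01 : p.b01 = 0) (h_c10 : p.c10 = 0)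
    (h_c01 : p.c01 = 0) (h_a20 : p.a20 = 0) (h_a11 : p.a11 = 0) (h_a02 : p.a02 = 0) (h_b20 :
    p.b20 = 0) (h_b11 : p.b11 = 1 / 2 * p.c02) (h_b02 : p.b02 = 0) (h_c20 : p.c20 = 0) (h_c11 :
    p.c11 = 0) (h_u20 : p.u20 = 0) (h_u11 : p.u11 = 0) (h_u02 : p.u02 = 0) (h_v20 : p.v20 = 0)
    (h_v11 : p.v11 = 0) (h_v02 : p.v02 = 0) (h_q20 : p.q20 = 0) (h_q11 : p.q11 = 0) (h_q02 :
    p.q02 = 0) (n0 : p.c02 ≠ 0) : Good p := by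
  refine good_to (NF.s2 (-p.c02/4) (p.c02/4)) (rel_mk 0 0 1 0 1 0 1 0 0 0 0 (-1) 0 (-1) 0 (-1) 0
      0 (-1) (by ring) (by ring) (by ring) (by ring) (by ring) (by ring) (by ring) (by ring) (by
      ring) (by ring) ?_ ?_)
  · norm_num
  · intro X Y Z X' Y' Z' hX hY hZ
    subst hX; subst hY; subst hZ
    refine ⟨?_, ?_, ?_, ?_, ?_, ?_⟩ <;>
      simp only [ha, hb, hc, hd, he, hf, fS2, zeroPar, h_a00, h_b00, h_c00, h_a10, h_a01, h_b10,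
        h_b01, h_c10, h_c01, h_a20, h_a11, h_a02, h_b20, h_b11, h_b02, h_c20, h_c11, h_u20,
        h_u11, h_u02, h_v20, h_v11, h_v02, h_q20, h_q11, h_q02] <;>
      first | ring1 | (field_simp; ring1)

theorem leaf_T2c_1 {p : Par} (h_a00 : p.a00 = 0) (h_b00 : p.b00 = 0) (h_c00 : p.c00 = 0) (h_a10 :
    p.a10 = 0) (h_a01 : p.a01 = 1) (h_b10 : p.b10 = 0) (h_b01 : p.b01 = 0) (h_c10 : p.c10 = 0)
    (h_c01 : p.c01 = 0) (h_a11 : p.a11 = 0) (h_a02 : p.a02 = 0) (h_b20 : p.b20 = 0) (h_b11 :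
    p.b11 = 1 / 2 * p.c02) (h_b02 : p.b02 = 0) (h_c20 : p.c20 = 0) (h_c11 : p.c11 = 0) (h_u20 :
    p.u20 = 0) (h_u11 : p.u11 = 0) (h_u02 : p.u02 = 0) (h_v20 : p.v20 = 0) (h_v11 : p.v11 = 0)
    (h_v02 : p.v02 = 0) (h_q20 : p.q20 = 0) (h_q11 : p.q11 = 0) (h_q02 : p.q02 = 0) (n0 : p.c02 ≠
    0) (n1 : p.a20 ≠ 0) : Good p := by
  refine good_to (NF.s2 (p.a20-p.c02/4) (p.c02/4)) (rel_mk 0 0 1 0 1 0 1 0 0 0 0 (-1) 0 (-1) 0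
      (-1) 0 0 (-1) (by ring) (by ring) (by ring) (by ring) (by ring) (by ring) (by ring) (by
      ring) (by ring) (by ring) ?_ ?_)
  · norm_num
  · intro X Y Z X' Y' Z' hX hY hZ
    subst hX; subst hY; subst hZ
    refine ⟨?_, ?_, ?_, ?_, ?_, ?_⟩ <;>
      simp only [ha, hb, hc, hd, he, hf, fS2, zeroPar, h_a00, h_b00, h_c00, h_a10, h_a01, h_b10,
        h_b01, h_c10, h_c01, h_a11, h_a02, h_b20, h_b11, h_b02, h_c20, h_c11, h_u20, h_u11,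
        h_u02, h_v20, h_v11, h_v02, h_q20, h_q11, h_q02] <;>
      first | ring1 | (field_simp; ring1)

theorem leaf_T2c_2 {p : Par} (h_a00 : p.a00 = 0) (h_b00 : p.b00 = 0) (h_c00 : p.c00 = 0) (h_a10 :
    p.a10 = 0) (h_a01 : p.a01 = 1) (h_b10 : p.b10 = 0) (h_b01 : p.b01 = 0) (h_c10 : p.c10 = 0)
    (h_c01 : p.c01 = 0) (h_a11 : p.a11 = 0) (h_a02 : p.a02 = 0) (h_b20 : p.b20 = 0) (h_b11 :
    p.b11 = p.a20) (h_b02 : p.b02 = 0) (h_c20 : p.c20 = 0) (h_c11 : p.c11 = 0) (h_c02 : p.c02 = 2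
    * p.a20) (h_u20 : p.u20 = 0) (h_u02 : p.u02 = 0) (h_v20 : p.v20 = 0) (h_v11 : p.v11 = 0)
    (h_v02 : p.v02 = -p.u11) (h_q20 : p.q20 = p.a20 * p.u11) (h_q11 : p.q11 = 0) (h_q02 : p.q02 =
    0) (n0 : p.a20 ≠ 0) (n1 : p.u11 ≠ 0) : Good p := by
  refine good_from (NF.bc 0 0 p.a20 0 (p.a20 * p.u11)) (rel_mk 1 0 0 0 (-2 * p.a20) 0 0 (-p.u11)
      1 (-2 * p.a20) 0 0 0 1 0 0 p.u11 (-2 * p.a20) (-2 * p.a20) (by ring) (by ring) (by ring)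
      (by ring) (by ring) (by ring) (by ring) (by ring) (by ring) (by ring) ?_ ?_)
  · simp [n0]
  · intro X Y Z X' Y' Z' hX hY hZ
    subst hX; subst hY; subst hZ
    refine ⟨?_, ?_, ?_, ?_, ?_, ?_⟩ <;>
      simp only [ha, hb, hc, hd, he, hf, fBC, zeroPar, h_a00, h_b00, h_c00, h_a10, h_a01, h_b10,
        h_b01, h_c10, h_c01, h_a11, h_a02, h_b20, h_b11, h_b02, h_c20, h_c11, h_c02, h_u20,
        h_u02, h_v20, h_v11, h_v02, h_q20, h_q11, h_q02] <;>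
      first | ring1 | (field_simp; ring1)

theorem leaf_T2c_3 {p : Par} (h_a00 : p.a00 = 0) (h_b00 : p.b00 = 0) (h_c00 : p.c00 = 0) (h_a10 :
    p.a10 = 0) (h_a01 : p.a01 = 1) (h_b10 : p.b10 = 0) (h_b01 : p.b01 = 0) (h_c10 : p.c10 = 0)
    (h_c01 : p.c01 = 0) (h_a11 : p.a11 = 0) (h_a02 : p.a02 = 0) (h_b20 : p.b20 = 0) (h_b11 :
    p.b11 = 1 / 2 * p.a20) (h_b02 : p.b02 = 0) (h_c20 : p.c20 = 0) (h_c11 : p.c11 = 0) (h_c02 :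
    p.c02 = p.a20) (h_u20 : p.u20 = 0) (h_u11 : p.u11 = 0) (h_v20 : p.v20 = 0) (h_v11 : p.v11 =
    0) (h_v02 : p.v02 = 0) (h_q20 : p.q20 = 0) (h_q11 : p.q11 = p.a20 * p.u02) (h_q02 : p.q02 =
    0) (n0 : p.a20 ≠ 0) (n1 : p.u02 ≠ 0) : Good p := by
  obtain ⟨r, hr⟩ := IsAlgClosed.exists_pow_nat_eq (p.a20/p.u02 ^ 2) (n := 6) (by norm_num)
  have hm : p.a20 = r ^ 6 * p.u02 ^ 2 := by
    rw [hr]
    field_simp
  have hr0 : r ≠ 0 := by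
    intro h0
    apply n0
    rw [hm, h0]
    norm_num
  refine good_to (NF.a2 (r ^ 12 * p.u02 ^ 4/16) (-r ^ 18 * p.u02 ^ 6/32)) (rel_mk (4 * p.u02 ^ 2
      * r ^ 5) (8 * p.u02 * r) (4 * p.u02 * r ^ 3) (8 * p.u02 * r ^ 2) 0 (-8) (p.u02 ^ 4 * r ^
      11) (-6 * p.u02 ^ 3 * r ^ 7) (p.u02 ^ 3 * r ^ 9) (-48 * p.u02 ^ 3 * r ^ 7) (-32 * p.u02 ^ 4
      * r ^ 10) (-64 * p.u02 * r) (-16 * p.u02 ^ 4 * r ^ 11) 0 (64 * p.u02 ^ 2 * r ^ 5) (-48 *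
      p.u02 ^ 4 * r ^ 9) (32 * p.u02 ^ 5 * r ^ 12) (-64 * p.u02 ^ 2 * r ^ 3) (-512 * p.u02 ^ 5 *
      r ^ 12) (by ring) (by ring) (by ring) (by ring) (by ring) (by ring) (by ring) (by ring) (by
      ring) (by ring) ?_ ?_)
  · simp [n1, hr0]
  · intro X Y Z X' Y' Z' hX hY hZ
    subst hX; subst hY; subst hZ
    refine ⟨?_, ?_, ?_, ?_, ?_, ?_⟩ <;>
      simp only [ha, hb, hc, hd, he, hf, fA2, zeroPar, h_a00, h_b00, h_c00, h_a10, h_a01, h_b10,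
        h_b01, h_c10, h_c01, h_a11, h_a02, h_b20, h_b11, h_b02, h_c20, h_c11, h_c02, h_u20,
        h_u11, h_v20, h_v11, h_v02, h_q20, h_q11, h_q02, hm] <;>
      first | ring1 | (field_simp; ring1)

theorem leaf_T2c_4 {p : Par} (s22 : ℂ) (h_a00 : p.a00 = 0) (h_b00 : p.b00 = 0) (h_c00 : p.c00 =
    0) (h_a10 : p.a10 = 0) (h_a01 : p.a01 = 1) (h_b10 : p.b10 = 0) (h_b01 : p.b01 = 0) (h_c10 :
    p.c10 = 0) (h_c01 : p.c01 = 0) (h_a20 : p.a20 = -1 / 4 * p.c02) (h_a11 : p.a11 = 0) (h_a02 :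
    p.a02 = 0) (h_b20 : p.b20 = 0) (h_b11 : p.b11 = 1 / 2 * p.c02) (h_b02 : p.b02 = 0) (h_c20 :
    p.c20 = 0) (h_c11 : p.c11 = 0) (h_u20 : p.u20 = -1 / 2 * p.c02 * s22) (h_u11 : p.u11 = -2 *
    s22 ^ 2) (h_v20 : p.v20 = 0) (h_v11 : p.v11 = p.c02 * s22) (h_v02 : p.v02 = s22 ^ 2) (h_q20 :
    p.q20 = -1 / 4 * p.c02 * s22 ^ 2) (h_q11 : p.q11 = s22 ^ 3 + p.c02 * p.u02) (h_q02 : p.q02 =
    1 / 2 * p.u02 * s22) (hrel : 2 * s22 ^ 3 + p.c02 * p.u02 = 0) (n0 : p.c02 ≠ 0) (n1 : s22 ≠ 0)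
    : Good p := by
  have hv : p.u02 = -2 * s22 ^ 3/p.c02 := by
    field_simp
    linear_combination hrel
  refine good_to (NF.s2 (-p.c02/2) (p.c02/4)) (rel_mk (p.c02 * s22) (s22 ^ 2) p.c02 0 p.c02 0
      p.c02 (2 * s22) 0 0 (2 * p.c02 * s22) (-p.c02 ^ 2) 0 (-p.c02 ^ 2) 0 (-p.c02 ^ 2) (-p.c02 *
      s22 ^ 2) (p.c02 ^ 2 * s22) (-p.c02 ^ 3) (by ring) (by ring) (by ring) (by ring) (by ring)
      (by ring) (by ring) (by ring) (by ring) (by ring) ?_ ?_)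
  · simp [n0]
  · intro X Y Z X' Y' Z' hX hY hZ
    subst hX; subst hY; subst hZ
    refine ⟨?_, ?_, ?_, ?_, ?_, ?_⟩ <;>
      simp only [ha, hb, hc, hd, he, hf, fS2, zeroPar, h_a00, h_b00, h_c00, h_a10, h_a01, h_b10,
        h_b01, h_c10, h_c01, h_a20, h_a11, h_a02, h_b20, h_b11, h_b02, h_c20, h_c11, h_u20,
        h_u11, h_v20, h_v11, h_v02, h_q20, h_q11, h_q02, hv] <;>
      first | ring1 | (field_simp; ring1)

end Pool.Agent.H38.FM
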