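import Pool.Agent.H38.FM.TypeI

/-!
# Leaf lemmas for type `T2z` (generated)
-/

set_option linter.unusedVariables false
set_option linter.unusedSimpArgs false
set_option linter.style.longLine false

noncomputable section

namespace Pool.Agent.H38.FM

theorem leaf_T2z_0 {p : Par} (h_a00 : p.a00 = 0) (h_b00 : p.b00 = 0) (h_c00 : p.c00 = 0) (h_a10 :
    p.a10 = 0) (h_a01 : p.a01 = 1) (h_b10 : p.b10 = 0) (h_b01 : p.b01 = 0) (h_c10 : p.c10 = 0)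
    (h_c01 : p.c01 = 0) (h_a20 : p.a20 = 0) (h_a11 : p.a11 = 0) (h_a02 : p.a02 = 0) (h_b20 :
    p.b20 = 0) (h_b11 : p.b11 = 0) (h_b02 : p.b02 = 0) (h_c20 : p.c20 = 0) (h_c11 : p.c11 = 0)
    (h_c02 : p.c02 = 0) (h_u20 : p.u20 = 0) (h_u02 : p.u02 = 0) (h_v20 : p.v20 = 0) (h_v11 :
    p.v11 = 0) (h_v02 : p.v02 = -p.u11) (h_q20 : p.q20 = 0) (h_q11 : p.q11 = 0) (h_q02 : p.q02 =
    0) (n0 : p.u11 ≠ 0) : Good p := by
  exact typeI (0) (p.u11) (0) (h_a00.trans (by ring)) (h_b00.trans (by ring)) (h_c00.trans (by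
      ring)) (h_a10.trans (by ring)) (h_a01.trans (by ring)) (h_b10.trans (by ring)) (h_b01.trans
      (by ring)) (h_c10.trans (by ring)) (h_c01.trans (by ring)) (h_a20.trans (by ring))
      (h_a11.trans (by ring)) (h_a02.trans (by ring)) (h_b20.trans (by ring)) (h_b11.trans (by
      ring)) (h_b02.trans (by ring)) (h_c20.trans (by ring)) (h_c11.trans (by ring)) (h_c02.trans
      (by ring)) (h_u20.trans (by ring)) (by ring) (h_u02.trans (by ring)) (h_v20.trans (by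
      ring)) (h_v11.trans (by ring)) (h_v02.trans (by ring)) (h_q20.trans (by ring)) (h_q11.trans
      (by ring)) (h_q02.trans (by ring))

theorem leaf_T2z_1 {p : Par} (h_a00 : p.a00 = 0) (h_b00 : p.b00 = 0) (h_c00 : p.c00 = 0) (h_a10 :
    p.a10 = 0) (h_a01 : p.a01 = 1) (h_b10 : p.b10 = 0) (h_b01 : p.b01 = 0) (h_c10 : p.c10 = 0)
    (h_c01 : p.c01 = 0) (h_a20 : p.a20 = 0) (h_a11 : p.a11 = 0) (h_a02 : p.a02 = 0) (h_b20 :
    p.b20 = 0) (h_b11 : p.b11 = 0) (h_b02 : p.b02 = 0) (h_c20 : p.c20 = 0) (h_c11 : p.c11 = 0)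
    (h_c02 : p.c02 = 0) (h_u20 : p.u20 = 0) (h_v20 : p.v20 = 0) (h_v11 : p.v11 = 0) (h_v02 :
    p.v02 = -p.u11) (h_q20 : p.q20 = 0) (h_q11 : p.q11 = 0) (h_q02 : p.q02 = 0) (n0 : p.u02 ≠ 0)
    : Good p := by
  exact typeI (0) (p.u11) (p.u02) (h_a00.trans (by ring)) (h_b00.trans (by ring)) (h_c00.trans
      (by ring)) (h_a10.trans (by ring)) (h_a01.trans (by ring)) (h_b10.trans (by ring))
      (h_b01.trans (by ring)) (h_c10.trans (by ring)) (h_c01.trans (by ring)) (h_a20.trans (by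
      ring)) (h_a11.trans (by ring)) (h_a02.trans (by ring)) (h_b20.trans (by ring)) (h_b11.trans
      (by ring)) (h_b02.trans (by ring)) (h_c20.trans (by ring)) (h_c11.trans (by ring))
      (h_c02.trans (by ring)) (h_u20.trans (by ring)) (by ring) (by ring) (h_v20.trans (by ring))
      (h_v11.trans (by ring)) (h_v02.trans (by ring)) (h_q20.trans (by ring)) (h_q11.trans (by
      ring)) (h_q02.trans (by ring))

theorem leaf_T2z_2 {p : Par} (h_a00 : p.a00 = 0) (h_b00 : p.b00 = 0) (h_c00 : p.c00 = 0) (h_a10 :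
    p.a10 = 0) (h_a01 : p.a01 = 1) (h_b10 : p.b10 = 0) (h_b01 : p.b01 = 0) (h_c10 : p.c10 = 0)
    (h_c01 : p.c01 = 0) (h_a20 : p.a20 = 0) (h_a11 : p.a11 = 0) (h_a02 : p.a02 = 0) (h_b20 :
    p.b20 = 0) (h_b11 : p.b11 = 0) (h_c20 : p.c20 = 0) (h_c11 : p.c11 = 0) (h_c02 : p.c02 = 0)
    (h_u20 : p.u20 = 0) (h_u11 : p.u11 = -3 * p.b02 ^ 2) (h_u02 : p.u02 = 0) (h_v20 : p.v20 = 0)
    (h_v11 : p.v11 = 0) (h_v02 : p.v02 = -3 * p.b02 ^ 2) (h_q20 : p.q20 = 0) (h_q11 : p.q11 = 2 *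
    p.b02 ^ 3) (h_q02 : p.q02 = 0) (n0 : p.b02 ≠ 0) : Good p := by
  refine good_to (NF.m1 (-(0)/2) (-((2 * p.b02)+(0)/2)) 0 0 0 1 0 (-((2 * p.b02)/2+(0))) 0)
      (rel_mk 1 0 0 (-p.b02) 0 1 0 1 0 (-1) 0 0 0 0 (-1) (-p.b02) (-1) 0 (-1) (by ring) (by ring)
      (by ring) (by ring) (by ring) (by ring) (by ring) (by ring) (by ring) (by ring) ?_ ?_)
  · norm_num
  · intro X Y Z X' Y' Z' hX hY hZ
    subst hX; subst hY; subst hZ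
    refine ⟨?_, ?_, ?_, ?_, ?_, ?_⟩ <;>
      simp only [ha, hb, hc, hd, he, hf, fM1, zeroPar, h_a00, h_b00, h_c00, h_a10, h_a01, h_b10,
        h_b01, h_c10, h_c01, h_a20, h_a11, h_a02, h_b20, h_b11, h_c20, h_c11, h_c02, h_u20,
        h_u11, h_u02, h_v20, h_v11, h_v02, h_q20, h_q11, h_q02] <;>
      first | ring1 | (field_simp; ring1)

theorem leaf_T2z_3 {p : Par} (h_a00 : p.a00 = 0) (h_b00 : p.b00 = 0) (h_c00 : p.c00 = 0) (h_a10 :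
    p.a10 = 0) (h_a01 : p.a01 = 1) (h_b10 : p.b10 = 0) (h_b01 : p.b01 = 0) (h_c10 : p.c10 = 0)
    (h_c01 : p.c01 = 0) (h_a20 : p.a20 = 0) (h_a11 : p.a11 = 0) (h_a02 : p.a02 = 0) (h_b20 :
    p.b20 = 0) (h_b11 : p.b11 = 0) (h_c20 : p.c20 = 0) (h_c11 : p.c11 = 0) (h_c02 : p.c02 = 0)
    (h_u20 : p.u20 = 0) (h_u11 : p.u11 = -3 * p.b02 ^ 2) (h_v20 : p.v20 = 0) (h_v11 : p.v11 = 0)
    (h_v02 : p.v02 = -3 * p.b02 ^ 2) (h_q20 : p.q20 = 0) (h_q11 : p.q11 = 2 * p.b02 ^ 3) (h_q02 :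
    p.q02 = -p.b02 * p.u02) (n0 : p.b02 ≠ 0) (n1 : p.u02 ≠ 0) : Good p := by
  refine good_to (NF.m1 (-(p.u02)/2) (-((2 * p.b02)+(0)/2)) 0 0 0 1 0 (-((2 * p.b02)/2+(0))) 0)
      (rel_mk 1 0 0 (-p.b02) 0 1 0 1 0 (-1) 0 0 0 0 (-1) (-p.b02) (-1) 0 (-1) (by ring) (by ring)
      (by ring) (by ring) (by ring) (by ring) (by ring) (by ring) (by ring) (by ring) ?_ ?_)
  · norm_num
  · intro X Y Z X' Y' Z' hX hY hZ
    subst hX; subst hY; subst hZ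
    refine ⟨?_, ?_, ?_, ?_, ?_, ?_⟩ <;>
      simp only [ha, hb, hc, hd, he, hf, fM1, zeroPar, h_a00, h_b00, h_c00, h_a10, h_a01, h_b10,
        h_b01, h_c10, h_c01, h_a20, h_a11, h_a02, h_b20, h_b11, h_c20, h_c11, h_c02, h_u20,
        h_u11, h_v20, h_v11, h_v02, h_q20, h_q11, h_q02] <;>
      first | ring1 | (field_simp; ring1)

theorem leaf_T2z_4 {p : Par} (s22 : ℂ) (h_a00 : p.a00 = 0) (h_b00 : p.b00 = 0) (h_c00 : p.c00 =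
    0) (h_a10 : p.a10 = 0) (h_a01 : p.a01 = 1) (h_b10 : p.b10 = 0) (h_b01 : p.b01 = 0) (h_c10 :
    p.c10 = 0) (h_c01 : p.c01 = 0) (h_a20 : p.a20 = 0) (h_a11 : p.a11 = 0) (h_a02 : p.a02 = 0)
    (h_b20 : p.b20 = 0) (h_b11 : p.b11 = 0) (h_b02 : p.b02 = s22) (h_c20 : p.c20 = 0) (h_c11 :
    p.c11 = 0) (h_c02 : p.c02 = 0) (h_u20 : p.u20 = 0) (h_u02 : p.u02 = 0) (h_v20 : p.v20 = 0)
    (h_v11 : p.v11 = 0) (h_v02 : p.v02 = -2 * s22 ^ 2 - p.u11) (h_q20 : p.q20 = 0) (h_q11 : p.q11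
    = s22 ^ 3 + p.u11 * s22) (h_q02 : p.q02 = 0) (n0 : s22 ≠ 0) : Good p := by
  exact typeI (s22) (p.u11) (0) (h_a00.trans (by ring)) (h_b00.trans (by ring)) (h_c00.trans (by
      ring)) (h_a10.trans (by ring)) (h_a01.trans (by ring)) (h_b10.trans (by ring)) (h_b01.trans
      (by ring)) (h_c10.trans (by ring)) (h_c01.trans (by ring)) (h_a20.trans (by ring))
      (h_a11.trans (by ring)) (h_a02.trans (by ring)) (h_b20.trans (by ring)) (h_b11.trans (by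
      ring)) (h_b02.trans (by ring)) (h_c20.trans (by ring)) (h_c11.trans (by ring)) (h_c02.trans
      (by ring)) (h_u20.trans (by ring)) (by ring) (h_u02.trans (by ring)) (h_v20.trans (by
      ring)) (h_v11.trans (by ring)) (h_v02.trans (by ring)) (h_q20.trans (by ring)) (h_q11.trans
      (by ring)) (h_q02.trans (by ring))

theorem leaf_T2z_5 {p : Par} (s22 : ℂ) (h_a00 : p.a00 = 0) (h_b00 : p.b00 = 0) (h_c00 : p.c00 =
    0) (h_a10 : p.a10 = 0) (h_a01 : p.a01 = 1) (h_b10 : p.b10 = 0) (h_b01 : p.b01 = 0) (h_c10 :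
    p.c10 = 0) (h_c01 : p.c01 = 0) (h_a20 : p.a20 = 0) (h_a11 : p.a11 = 0) (h_a02 : p.a02 = 0)
    (h_b20 : p.b20 = 0) (h_b11 : p.b11 = 0) (h_b02 : p.b02 = -1 / 2 * s22) (h_c20 : p.c20 = 0)
    (h_c11 : p.c11 = 0) (h_c02 : p.c02 = 0) (h_u20 : p.u20 = 0) (h_u11 : p.u11 = -3 * s22 ^ 2)
    (h_u02 : p.u02 = 0) (h_v20 : p.v20 = 0) (h_v11 : p.v11 = 0) (h_v02 : p.v02 = -2 * s22 ^ 2)
    (h_q20 : p.q20 = 0) (h_q11 : p.q11 = -2 * s22 ^ 3) (h_q02 : p.q02 = 0) (n0 : s22 ≠ 0) : Good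
    p := by
  refine good_to (NF.m1 (-(0)/2) (-((-2 * s22)+(s22)/2)) 0 0 0 1 0 (-((-2 * s22)/2+(s22))) 0)
      (rel_mk 1 0 0 s22 0 1 0 1 0 (-1) 0 0 0 0 (-1) s22 (-1) 0 (-1) (by ring) (by ring) (by ring)
      (by ring) (by ring) (by ring) (by ring) (by ring) (by ring) (by ring) ?_ ?_)
  · norm_num
  · intro X Y Z X' Y' Z' hX hY hZ
    subst hX; subst hY; subst hZ
    refine ⟨?_, ?_, ?_, ?_, ?_, ?_⟩ <;>
      simp only [ha, hb, hc, hd, he, hf, fM1, zeroPar, h_a00, h_b00, h_c00, h_a10, h_a01, h_b10,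
        h_b01, h_c10, h_c01, h_a20, h_a11, h_a02, h_b20, h_b11, h_b02, h_c20, h_c11, h_c02,
        h_u20, h_u11, h_u02, h_v20, h_v11, h_v02, h_q20, h_q11, h_q02] <;>
      first | ring1 | (field_simp; ring1)

theorem leaf_T2z_6 {p : Par} (s22 : ℂ) (h_a00 : p.a00 = 0) (h_b00 : p.b00 = 0) (h_c00 : p.c00 =
    0) (h_a10 : p.a10 = 0) (h_a01 : p.a01 = 1) (h_b10 : p.b10 = 0) (h_b01 : p.b01 = 0) (h_c10 :
    p.c10 = 0) (h_c01 : p.c01 = 0) (h_a20 : p.a20 = 0) (h_a11 : p.a11 = 0) (h_a02 : p.a02 = 0)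
    (h_b20 : p.b20 = 0) (h_b11 : p.b11 = 0) (h_c20 : p.c20 = 0) (h_c11 : p.c11 = 0) (h_c02 :
    p.c02 = 0) (h_u20 : p.u20 = 0) (h_u11 : p.u11 = -3 * p.b02 ^ 2 + 3 * p.b02 * s22 - 3 / 4 *
    s22 ^ 2) (h_u02 : p.u02 = 0) (h_v20 : p.v20 = 0) (h_v11 : p.v11 = 0) (h_v02 : p.v02 = -3 *
    p.b02 ^ 2 + 2 * p.b02 * s22 - 1 / 4 * s22 ^ 2) (h_q20 : p.q20 = 0) (h_q11 : p.q11 = 2 * p.b02
    ^ 3 - 3 * p.b02 ^ 2 * s22 + 3 / 2 * p.b02 * s22 ^ 2 - 1 / 4 * s22 ^ 3) (h_q02 : p.q02 = 0)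
    (n0 : s22 ≠ 0) (n1 : p.b02 - s22 ≠ 0) (n2 : 2 * p.b02 + s22 ≠ 0) (n3 : 4 * p.b02 - s22 ≠ 0) :
    Good p := by
  refine good_to (NF.m1 (-(0)/2) (-((2 * p.b02-s22)+(s22)/2)) 0 0 0 1 0 (-((2 *
      p.b02-s22)/2+(s22))) 0) (rel_mk 1 0 0 (-p.b02 + 1 / 2 * s22) 0 1 0 1 0 (-1) 0 0 0 0 (-1)
      (-p.b02 + 1 / 2 * s22) (-1) 0 (-1) (by ring) (by ring) (by ring) (by ring) (by ring) (by
      ring) (by ring) (by ring) (by ring) (by ring) ?_ ?_)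
  · norm_num
  · intro X Y Z X' Y' Z' hX hY hZ
    subst hX; subst hY; subst hZ
    refine ⟨?_, ?_, ?_, ?_, ?_, ?_⟩ <;>
      simp only [ha, hb, hc, hd, he, hf, fM1, zeroPar, h_a00, h_b00, h_c00, h_a10, h_a01, h_b10,
        h_b01, h_c10, h_c01, h_a20, h_a11, h_a02, h_b20, h_b11, h_c20, h_c11, h_c02, h_u20,
        h_u11, h_u02, h_v20, h_v11, h_v02, h_q20, h_q11, h_q02] <;>
      first | ring1 | (field_simp; ring1)

theorem leaf_T2z_7 {p : Par} (s22 : ℂ) (h_a00 : p.a00 = 0) (h_b00 : p.b00 = 0) (h_c00 : p.c00 =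
    0) (h_a10 : p.a10 = 0) (h_a01 : p.a01 = 1) (h_b10 : p.b10 = 0) (h_b01 : p.b01 = 0) (h_c10 :
    p.c10 = 0) (h_c01 : p.c01 = 0) (h_a20 : p.a20 = 0) (h_a11 : p.a11 = 0) (h_a02 : p.a02 = 0)
    (h_b20 : p.b20 = 0) (h_b11 : p.b11 = 0) (h_b02 : p.b02 = s22) (h_c20 : p.c20 = 0) (h_c11 :
    p.c11 = 0) (h_c02 : p.c02 = 0) (h_u20 : p.u20 = 0) (h_v20 : p.v20 = 0) (h_v11 : p.v11 = 0)
    (h_v02 : p.v02 = -2 * s22 ^ 2 - p.u11) (h_q20 : p.q20 = 0) (h_q11 : p.q11 = s22 ^ 3 + p.u11 *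
    s22) (h_q02 : p.q02 = -1 / 2 * p.u02 * s22) (n0 : s22 ≠ 0) (n1 : p.u02 ≠ 0) : Good p := by
  exact typeI (s22) (p.u11) (p.u02) (h_a00.trans (by ring)) (h_b00.trans (by ring)) (h_c00.trans
      (by ring)) (h_a10.trans (by ring)) (h_a01.trans (by ring)) (h_b10.trans (by ring))
      (h_b01.trans (by ring)) (h_c10.trans (by ring)) (h_c01.trans (by ring)) (h_a20.trans (by
      ring)) (h_a11.trans (by ring)) (h_a02.trans (by ring)) (h_b20.trans (by ring)) (h_b11.trans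
      (by ring)) (h_b02.trans (by ring)) (h_c20.trans (by ring)) (h_c11.trans (by ring))
      (h_c02.trans (by ring)) (h_u20.trans (by ring)) (by ring) (by ring) (h_v20.trans (by ring))
      (h_v11.trans (by ring)) (h_v02.trans (by ring)) (h_q20.trans (by ring)) (h_q11.trans (by
      ring)) (h_q02.trans (by ring))

theorem leaf_T2z_8 {p : Par} (s22 : ℂ) (h_a00 : p.a00 = 0) (h_b00 : p.b00 = 0) (h_c00 : p.c00 =
    0) (h_a10 : p.a10 = 0) (h_a01 : p.a01 = 1) (h_b10 : p.b10 = 0) (h_b01 : p.b01 = 0) (h_c10 :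
    p.c10 = 0) (h_c01 : p.c01 = 0) (h_a20 : p.a20 = 0) (h_a11 : p.a11 = 0) (h_a02 : p.a02 = 0)
    (h_b20 : p.b20 = 0) (h_b11 : p.b11 = 0) (h_c20 : p.c20 = 0) (h_c11 : p.c11 = 0) (h_c02 :
    p.c02 = 0) (h_u20 : p.u20 = 0) (h_u11 : p.u11 = -3 * p.b02 ^ 2 + 3 * p.b02 * s22 - 3 / 4 *
    s22 ^ 2) (h_v20 : p.v20 = 0) (h_v11 : p.v11 = 0) (h_v02 : p.v02 = -3 * p.b02 ^ 2 + 2 * p.b02
    * s22 - 1 / 4 * s22 ^ 2) (h_q20 : p.q20 = 0) (h_q11 : p.q11 = 2 * p.b02 ^ 3 - 3 * p.b02 ^ 2 *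
    s22 + 3 / 2 * p.b02 * s22 ^ 2 - 1 / 4 * s22 ^ 3) (h_q02 : p.q02 = -p.b02 * p.u02 + 1 / 2 *
    p.u02 * s22) (n0 : s22 ≠ 0) (n1 : p.u02 ≠ 0) (n2 : p.b02 - s22 ≠ 0) : Good p := by
  refine good_to (NF.m1 (-(p.u02)/2) (-((2 * p.b02-s22)+(s22)/2)) 0 0 0 1 0 (-((2 *
      p.b02-s22)/2+(s22))) 0) (rel_mk 1 0 0 (-p.b02 + 1 / 2 * s22) 0 1 0 1 0 (-1) 0 0 0 0 (-1)
      (-p.b02 + 1 / 2 * s22) (-1) 0 (-1) (by ring) (by ring) (by ring) (by ring) (by ring) (by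
      ring) (by ring) (by ring) (by ring) (by ring) ?_ ?_)
  · norm_num
  · intro X Y Z X' Y' Z' hX hY hZ
    subst hX; subst hY; subst hZ
    refine ⟨?_, ?_, ?_, ?_, ?_, ?_⟩ <;>
      simp only [ha, hb, hc, hd, he, hf, fM1, zeroPar, h_a00, h_b00, h_c00, h_a10, h_a01, h_b10,
        h_b01, h_c10, h_c01, h_a20, h_a11, h_a02, h_b20, h_b11, h_c20, h_c11, h_c02, h_u20,
        h_u11, h_v20, h_v11, h_v02, h_q20, h_q11, h_q02] <;>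
      first | ring1 | (field_simp; ring1)

end Pool.Agent.H38.FM
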