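import Mathlib

/-!
# Elimination tree `A1` (generated)
-/

set_option linter.unusedVariables false
set_option linter.style.longLine false

noncomputable section

namespace Pool.Agent.H38.FM

theorem tree_A1
    (a20 b11 c02 u11 u02 v20 v11 q20 q11 q02 s1 s2 s11 s12 s21 s22 l1 l2 : ℂ)
    (e1_2_0 : a20 * s1 = 0)
    (e1_3_0 : a20 * s11 + 1 / 2 * v20 * s2 = 0)
    (e1_2_1 : a20 * b11 + a20 * s12 - b11 ^ 2 + b11 * s21 + u11 * s1 + 1 / 2 * v11 * s2 = 0)
    (e1_4_0 : -a20 * v20 - 1 / 2 * b11 * v20 + 1 / 2 * v20 * s21 + q20 * s1 = 0)
    (e1_3_1 : -1 / 2 * a20 * v11 + a20 * l1 - b11 * v11 - b11 * l1 + u11 * s11 + 1 / 2 * v20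
        * s22 + 1 / 2 * v11 * s21 + q20 * s2 + q11 * s1 = 0)
    (e1_2_2 : 1 / 2 * a20 * u11 + a20 * l2 - b11 * l2 + c02 * u11 + u11 * s12 + 1 / 2 * u11
        * s21 + u02 * s11 + 1 / 2 * v11 * s22 + q11 * s2 + q02 * s1 = 0)
    (e1_1_3 : a20 * u02 - 3 / 2 * b11 * u02 + 2 * c02 * u02 + 1 / 2 * u11 * s22 + u02 * s12
        + 1 / 2 * u02 * s21 + q02 * s2 = 0)
    (e1_5_0 : -1 / 4 * v20 * v11 - 1 / 2 * v20 * l1 + q20 * s11 = 0)
    (e1_4_1 : -2 * a20 * q20 + 2 * b11 * q20 - 1 / 4 * u11 * v20 - 1 / 2 * v20 * l2 - 1 / 4
        * v11 ^ 2 - 1 / 2 * v11 * l1 + q20 * s12 + q20 * s21 + q11 * s11 = 0)
    (e1_3_2 : -a20 * q11 + c02 * q11 + 1 / 2 * u11 * l1 - 1 / 2 * v11 * l2 + q20 * s22 + q11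
        * s12 + q11 * s21 + q02 * s11 = 0)
    (e1_2_3 : -2 * b11 * q02 + 2 * c02 * q02 + 1 / 4 * u11 ^ 2 + 1 / 2 * u11 * l2 + 1 / 4 * u02
        * v11 + 1 / 2 * u02 * l1 + q11 * s22 + q02 * s12 + q02 * s21 = 0)
    (e1_1_4 : 1 / 4 * u11 * u02 + 1 / 2 * u02 * l2 + q02 * s22 = 0)
    (e2_0_2 : c02 * s2 = 0)
    (e2_1_2 : b11 ^ 2 - b11 * c02 + b11 * s12 + c02 * s21 + 1 / 2 * u11 * s1 + v11 * s2 = 0)
    (e2_0_3 : c02 * s22 + 1 / 2 * u02 * s1 = 0)
    (e2_3_1 : -2 * a20 * v20 + 3 / 2 * b11 * v20 - c02 * v20 + 1 / 2 * v20 * s12 + v20 * s21
        + 1 / 2 * v11 * s11 + q20 * s1 = 0)
    (e2_2_2 : -a20 * v11 + b11 * l1 - 1 / 2 * c02 * v11 - c02 * l1 + 1 / 2 * u11 * s11 + v20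
        * s22 + 1 / 2 * v11 * s12 + v11 * s21 + q20 * s2 + q11 * s1 = 0)
    (e2_1_3 : b11 * u11 + b11 * l2 + 1 / 2 * c02 * u11 - c02 * l2 + 1 / 2 * u11 * s12 + 1 / 2
        * u02 * s11 + v11 * s22 + q11 * s2 + q02 * s1 = 0)
    (e2_0_4 : 1 / 2 * b11 * u02 + c02 * u02 + 1 / 2 * u02 * s12 + q02 * s2 = 0)
    (f_3_2 : a20 * b11 * v11 - a20 * c02 * v11 - 2 * a20 * c02 * l1 - 4 * a20 * v20 * s22 - a20
        * v11 * s21 - 4 * a20 * q20 * s2 + 3 * a20 * q11 * s1 + 2 * b11 ^ 2 * l1 - 3 * b11
        * u11 * s11 + 4 * b11 * v20 * s22 + b11 * v11 * s21 + 8 * b11 * q20 * s2 - 6 * b11
        * q11 * s1 + 3 * c02 * u11 * s11 - 4 * c02 * q20 * s2 + 3 * c02 * q11 * s1 - 2 * u11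
        * v20 * s2 + 3 / 2 * u11 * v11 * s1 + 3 / 2 * u02 * v20 * s1 + v11 ^ 2 * s2 = 0)
    (f_2_3 : -a20 * c02 * u11 - 2 * a20 * c02 * l2 - 3 * a20 * v11 * s22 - 3 * a20 * q11 * s2
        + 4 * a20 * q02 * s1 + 2 * b11 ^ 2 * l2 + b11 * c02 * u11 - b11 * u11 * s12 - 4 * b11
        * u02 * s11 + 3 * b11 * v11 * s22 + 6 * b11 * q11 * s2 - 8 * b11 * q02 * s1 + c02 * u11
        * s12 + 4 * c02 * u02 * s11 - 3 * c02 * q11 * s2 + 4 * c02 * q02 * s1 - u11 ^ 2 * s1
        - 3 / 2 * u11 * v11 * s2 - 3 / 2 * u02 * v20 * s2 + 2 * u02 * v11 * s1 = 0)
    (f_6_0 : -a20 * v20 ^ 2 + 1 / 2 * b11 * v20 ^ 2 + 1 / 2 * v20 ^ 2 * s12 + v20 ^ 2 * s21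
        - 1 / 2 * v20 * v11 * s11 = 0)
    (f_4_2 : 2 * a20 * b11 * q20 - 1 / 2 * a20 * u11 * v20 - a20 * v20 * l2 - 1 / 2 * a20
        * v11 ^ 2 - a20 * v11 * l1 - 2 * a20 * q20 * s21 + 3 * a20 * q11 * s11 - 4 * b11 ^ 2
        * q20 + 2 * b11 * c02 * q20 + 5 / 2 * b11 * u11 * v20 + b11 * v20 * l2 + b11 * v11 * l1
        + 4 * b11 * q20 * s21 - 6 * b11 * q11 * s11 - c02 * u11 * v20 - 2 * c02 * q20 * s21 + 3
        * c02 * q11 * s11 - u11 * v20 * s21 + 3 / 2 * u11 * v11 * s11 + 3 / 2 * u02 * v20 * s11
        + 5 / 2 * v20 * v11 * s22 + 1 / 2 * v11 ^ 2 * s21 = 0)
    (f_3_3 : 2 * a20 * b11 * q11 - 1 / 2 * a20 * u11 * v11 - a20 * u02 * v20 - a20 * v11 * l2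
        - 4 * a20 * q20 * s22 + a20 * q11 * s12 - a20 * q11 * s21 + 4 * a20 * q02 * s11 - 4
        * b11 ^ 2 * q11 + 2 * b11 * c02 * q11 + 2 * b11 * u11 * v11 + b11 * u11 * l1 + 3 * b11
        * u02 * v20 + b11 * v11 * l2 + 8 * b11 * q20 * s22 - 2 * b11 * q11 * s12 + 2 * b11
        * q11 * s21 - 8 * b11 * q02 * s11 - 1 / 2 * c02 * u11 * v11 - c02 * u11 * l1 - c02
        * u02 * v20 - 4 * c02 * q20 * s22 + c02 * q11 * s12 - c02 * q11 * s21 + 4 * c02 * q02
        * s11 - u11 ^ 2 * s11 - 2 * u11 * v20 * s22 + 1 / 2 * u11 * v11 * s12 - 1 / 2 * u11
        * v11 * s21 + 1 / 2 * u02 * v20 * s12 - 1 / 2 * u02 * v20 * s21 + 2 * u02 * v11 * s11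
        + v11 ^ 2 * s22 = 0)
    (f_2_4 : 2 * a20 * b11 * q02 - a20 * u02 * v11 - 3 * a20 * q11 * s22 + 2 * a20 * q02 * s12
        - 4 * b11 ^ 2 * q02 + 2 * b11 * c02 * q02 + b11 * u11 * l2 + 5 / 2 * b11 * u02 * v11
        + b11 * u02 * l1 + 6 * b11 * q11 * s22 - 4 * b11 * q02 * s12 - 1 / 2 * c02 * u11 ^ 2
        - c02 * u11 * l2 - 1 / 2 * c02 * u02 * v11 - c02 * u02 * l1 - 3 * c02 * q11 * s22 + 2
        * c02 * q02 * s12 - 1 / 2 * u11 ^ 2 * s12 - 5 / 2 * u11 * u02 * s11 - 3 / 2 * u11 * v11
        * s22 - 3 / 2 * u02 * v20 * s22 + u02 * v11 * s12 = 0)
    (f_0_6 : 1 / 2 * b11 * u02 ^ 2 - c02 * u02 ^ 2 + 1 / 2 * u11 * u02 * s22 - u02 ^ 2 * s12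
        - 1 / 2 * u02 ^ 2 * s21 = 0)
    (n1 : a20 ≠ 0)
    (n2 : c02 ≠ 0)
    (hD : ∃ x y : ℂ, (x ^ 4 * q20 + x ^ 3 * y * q11 + x ^ 2 * y ^ 2 * q02 + x ^ 2 * y * u11 + x
        * y ^ 2 * u02 + x ^ 2 * a20) * (x ^ 2 * y ^ 2 * q20 + x * y ^ 3 * q11 + y ^ 4 * q02
        + x ^ 2 * y * v20 + x * y ^ 2 * v11 + y ^ 2 * c02) - (x ^ 3 * y * q20 + x ^ 2 * y ^ 2
        * q11 + x * y ^ 3 * q02 + 1 / 2 * x ^ 3 * v20 + 1 / 2 * x ^ 2 * y * v11 + 1 / 2 * x
        * y ^ 2 * u11 + 1 / 2 * y ^ 3 * u02 + x * y * b11) ^ 2 ≠ 0) :
    ((u11 = 0) ∧ (u02 = 0) ∧ (v20 = 0) ∧ (v11 = 0) ∧ (q20 = 0) ∧ (q11 = 0) ∧ (q02 = 0) ∧ (a20 ≠ 0) ∧ (c02 ≠ 0)) ∨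
    ((b11 = c02) ∧ (u11 = 0) ∧ (u02 = 0) ∧ (v20 = 0) ∧ (v11 = 0) ∧ (q20 = 0) ∧ (q11 = 0) ∧ (a20 ≠ 0) ∧ (c02 ≠ 0) ∧ (q02 ≠ 0)) ∨
    ((c02 = a20) ∧ (u11 = 0) ∧ (u02 = 0) ∧ (v20 = 0) ∧ (v11 = 0) ∧ (q20 = 0) ∧ (q02 = 0) ∧ (a20 ≠ 0) ∧ (q11 ≠ 0)) ∨
    ((b11 = a20) ∧ (u11 = 0) ∧ (u02 = 0) ∧ (v20 = 0) ∧ (v11 = 0) ∧ (q11 = 0) ∧ (q02 = 0) ∧ (a20 ≠ 0) ∧ (c02 ≠ 0) ∧ (q20 ≠ 0)) := by
  have t1 : (c02) ^ 1 * (s2) = 0 := by linear_combination e2_0_2
  have t2 := (mul_eq_zero.mp t1).resolve_left (pow_ne_zero 1 n2)
  have t3 : 0 = s2 := by linear_combination (-1) * t2
  subst t3
  have t4 : (a20) ^ 1 * (s1) = 0 := by linear_combination e1_2_0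
  have t5 := (mul_eq_zero.mp t4).resolve_left (pow_ne_zero 1 n1)
  have t6 : 0 = s1 := by linear_combination (-1) * t5
  subst t6
  have t7 : (c02) ^ 1 * (s22) = 0 := by linear_combination e2_0_3
  have t8 := (mul_eq_zero.mp t7).resolve_left (pow_ne_zero 1 n2)
  have t9 : 0 = s22 := by linear_combination (-1) * t8
  subst t9
  have t10 : (a20) ^ 1 * (s11) = 0 := by linear_combination e1_3_0
  have t11 := (mul_eq_zero.mp t10).resolve_left (pow_ne_zero 1 n1)
  have t12 : 0 = s11 := by linear_combination (-1) * t11
  subst t12
  have r3 : b11 ^ 2 - b11 * c02 + b11 * s12 + c02 * s21 = 0 := by linear_combination e2_1_2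
  by_cases h4 : b11 + s12 = 0
  · have t13 : -b11 = s12 := by linear_combination (-1) * h4
    subst t13
    have t14 : (c02) ^ 1 * (-b11 + s21) = 0 := by linear_combination r3
    have t15 := (mul_eq_zero.mp t14).resolve_left (pow_ne_zero 1 n2)
    have r5 : -b11 + s21 = 0 := by linear_combination t15
    have t16 : b11 = s21 := by linear_combination (-1) * r5
    subst t16
    have t17 : (a20) ^ 1 * (v20) = 0 := by linear_combination (-1) * e1_4_0
    have t18 := (mul_eq_zero.mp t17).resolve_left (pow_ne_zero 1 n1)
    have t19 : 0 = v20 := by linear_combination (-1) * t18
    subst t19
    have t20 : (c02) ^ 1 * (u02) = 0 := by linear_combination e2_0_4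
    have t21 := (mul_eq_zero.mp t20).resolve_left (pow_ne_zero 1 n2)
    have t22 : 0 = u02 := by linear_combination (-1) * t21
    subst t22
    by_cases h6 : u11 = 0
    · have t23 : 0 = u11 := by linear_combination (-1) * h6
      subst t23
      by_cases h7 : l2 = 0
      · have t24 : 0 = l2 := by linear_combination (-1) * h7
        subst t24
        by_cases h8 : v11 = 0
        · have t25 : 0 = v11 := by linear_combination (-1) * h8
          subst t25
          by_cases h9 : l1 = 0
          · have t26 : 0 = l1 := by linear_combination (-1) * h9
            subst t26
            by_cases h10 : q20 = 0
            · have t27 : 0 = q20 := by linear_combination (-1) * h10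
              subst t27
              by_cases h11 : q11 = 0
              · have t28 : 0 = q11 := by linear_combination (-1) * h11
                subst t28
                by_cases h12 : q02 = 0
                · have t29 : 0 = q02 := by linear_combination (-1) * h12
                  subst t29
                  exact Or.inl ⟨by ring, by ring, by ring, by ring, by ring, by ring, by ring, n1, n2⟩
                · have t30 : (q02) ^ 1 * (b11 - c02) = 0 := by linear_combination (-1 / 2) * e1_2_3
                  have t31 := (mul_eq_zero.mp t30).resolve_left (pow_ne_zero 1 h12)
                  have t32 : c02 = b11 := by linear_combination (-1) * t31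
                  subst t32
                  exact Or.inr (Or.inl ⟨by ring, by ring, by ring, by ring, by ring, by ring, by ring, n1, n2, h12⟩)
              · have t33 : (q11) ^ 1 * (a20 - c02) = 0 := by linear_combination (-1) * e1_3_2
                have t34 := (mul_eq_zero.mp t33).resolve_left (pow_ne_zero 1 h11)
                have t35 : a20 = c02 := by linear_combination (1) * t34
                subst t35
                by_cases h13 : q02 = 0
                · have t36 : 0 = q02 := by linear_combination (-1) * h13
                  subst t36
                  exact Or.inr (Or.inr (Or.inl ⟨by ring, by ring, by ring, by ring, by ring, by ring, by ring, n1, h11⟩))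
                · have t37 : (q02) ^ 1 * (a20 - b11) = 0 := by linear_combination (1 / 2) * e1_2_3
                  have t38 := (mul_eq_zero.mp t37).resolve_left (pow_ne_zero 1 h13)
                  have t39 : a20 = b11 := by linear_combination (1) * t38
                  subst t39
                  exfalso
                  obtain ⟨x, y, hxy⟩ := hD
                  exact hxy (by linear_combination 0)
            · have t40 : (q20) ^ 1 * (a20 - b11) = 0 := by linear_combination (-1 / 2) * e1_4_1
              have t41 := (mul_eq_zero.mp t40).resolve_left (pow_ne_zero 1 h10)
              have t42 : a20 = b11 := by linear_combination (1) * t41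
              subst t42
              by_cases h14 : q11 = 0
              · have t43 : 0 = q11 := by linear_combination (-1) * h14
                subst t43
                by_cases h15 : q02 = 0
                · have t44 : 0 = q02 := by linear_combination (-1) * h15
                  subst t44
                  exact Or.inr (Or.inr (Or.inr (⟨by ring, by ring, by ring, by ring, by ring, by ring, by ring, n1, n2, h10⟩)))
                · have t45 : (q02) ^ 1 * (a20 - c02) = 0 := by linear_combination (-1 / 2) * e1_2_3
                  have t46 := (mul_eq_zero.mp t45).resolve_left (pow_ne_zero 1 h15)
                  have t47 : a20 = c02 := by linear_combination (1) * t46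
                  subst t47
                  exfalso
                  obtain ⟨x, y, hxy⟩ := hD
                  exact hxy (by linear_combination 0)
              · have t48 : (q11) ^ 1 * (a20 - c02) = 0 := by linear_combination (-1) * e1_3_2
                have t49 := (mul_eq_zero.mp t48).resolve_left (pow_ne_zero 1 h14)
                have t50 : a20 = c02 := by linear_combination (1) * t49
                subst t50
                exfalso
                obtain ⟨x, y, hxy⟩ := hD
                exact hxy (by linear_combination 0)
          · have t51 : (l1) ^ 1 * (a20 - b11) = 0 := by linear_combination e1_3_1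
            have t52 := (mul_eq_zero.mp t51).resolve_left (pow_ne_zero 1 h9)
            have t53 : a20 = b11 := by linear_combination (1) * t52
            subst t53
            have t54 : (l1) ^ 1 * (a20 - c02) = 0 := by linear_combination e2_2_2
            have t55 := (mul_eq_zero.mp t54).resolve_left (pow_ne_zero 1 h9)
            have t56 : a20 = c02 := by linear_combination (1) * t55
            subst t56
            exfalso
            obtain ⟨x, y, hxy⟩ := hD
            exact hxy (by linear_combination 0)
        · have r16 : 2 * a20 * v11 - b11 * v11 - 2 * b11 * l1 + c02 * v11 + 2 * c02
              * l1 = 0 := by linear_combination (-2) * e2_2_2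
          have n17 : b11 * v11 + 2 * b11 * l1 - c02 * v11 - 2 * c02 * l1 ≠ 0 := by
            intro h0
            have t57 : (v11) ^ 1 * ((a20)) = 0 := by linear_combination (1 / 2) * h0 + (1 / 2) * r16
            have t58 := (mul_eq_zero.mp t57).resolve_left (pow_ne_zero 1 h8)
            exact n1 (by linear_combination t58)
          have n18 : v11 + 2 * l1 ≠ 0 := fun h0 => n17 (by linear_combination (b11 - c02) * h0)
          have n19 : b11 - c02 ≠ 0 := fun h0 => n17 (by linear_combination (v11 + 2 * l1) * h0)
          have t59 : (v11 + 2 * l1) ^ 1 * (3 * b11 * v11 - 2 * b11 * l1 - c02 * v11 + 2 * c02
              * l1) = 0 := by linear_combination (-4 * v11) * e1_3_1 + (-v11 + 2 * l1) * r16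
          have t60 := (mul_eq_zero.mp t59).resolve_left (pow_ne_zero 1 n18)
          have r20 : 3 * b11 * v11 - 2 * b11 * l1 - c02 * v11 + 2 * c02
              * l1 = 0 := by linear_combination t60
          have r21 : -4 * a20 * b11 * v11 + 4 * a20 * c02 * v11 + 8 * b11 ^ 2 * v11 - 12 * b11
              * c02 * v11 + 4 * c02 ^ 2 * v11 = 0 := by linear_combination (-2 * b11 + 2 * c02)
              * r16 + (2 * b11 - 2 * c02) * r20
          have n22 : -8 * b11 * v11 + 4 * c02 * v11 ≠ 0 := by
            intro h0
            have t61 : (b11 - c02) ^ 1 * ((v11 + 2 * l1)) = 0 := by linear_combination (-1 / 2)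
                * h0 + (-1) * r20
            have t62 := (mul_eq_zero.mp t61).resolve_left (pow_ne_zero 1 n19)
            exact n18 (by linear_combination t62)
          have n23 : 2 * b11 - c02 ≠ 0 := fun h0 => n22 (by linear_combination (-4 * v11) * h0)
          have t63 : (v11) ^ 1 * ((b11 - c02) ^ 1 * (-4 * a20 + 8 * b11 - 4
              * c02)) = 0 := by linear_combination r21
          have t64 := (mul_eq_zero.mp t63).resolve_left (pow_ne_zero 1 h8)
          have t65 := (mul_eq_zero.mp t64).resolve_left (pow_ne_zero 1 n19)
          have r24 : -4 * a20 + 8 * b11 - 4 * c02 = 0 := by linear_combination t65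
          have t66 : 2 * b11 - c02 = a20 := by linear_combination (1 / 4) * r24
          subst t66
          have n25 : -8 * b11 * v11 + 4 * c02 * v11 ≠ 0 := by
            intro h0
            have t67 : (b11 - c02) ^ 1 * ((v11 + 2 * l1)) = 0 := by linear_combination (-1 / 2)
                * h0 + (-1) * r20
            have t68 := (mul_eq_zero.mp t67).resolve_left (pow_ne_zero 1 n19)
            exact n18 (by linear_combination t68)
          have t69 : (b11 - c02) ^ 1 * (q02) = 0 := by linear_combination (-1 / 2) * e1_2_3
          have t70 := (mul_eq_zero.mp t69).resolve_left (pow_ne_zero 1 n19)
          have t71 : 0 = q02 := by linear_combination (-1) * t70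
          subst t71
          have n26 : -8 * b11 * v11 + 4 * c02 * v11 ≠ 0 := by
            intro h0
            have t72 : (b11 - c02) ^ 1 * ((v11 + 2 * l1)) = 0 := by linear_combination (-1 / 2)
                * h0 + (-1) * r20
            have t73 := (mul_eq_zero.mp t72).resolve_left (pow_ne_zero 1 n19)
            exact n18 (by linear_combination t73)
          have t74 : (b11 - c02) ^ 1 * (q11) = 0 := by linear_combination (-1 / 2) * e1_3_2
          have t75 := (mul_eq_zero.mp t74).resolve_left (pow_ne_zero 1 n19)
          have t76 : 0 = q11 := by linear_combination (-1) * t75
          subst t76
          have n27 : -8 * b11 * v11 + 4 * c02 * v11 ≠ 0 := by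
            intro h0
            have t77 : (b11 - c02) ^ 1 * ((v11 + 2 * l1)) = 0 := by linear_combination (-1 / 2)
                * h0 + (-1) * r20
            have t78 := (mul_eq_zero.mp t77).resolve_left (pow_ne_zero 1 n19)
            exact n18 (by linear_combination t78)
          have r28 : 4 * b11 ^ 2 * q20 - 8 * b11 * c02 * q20 + 2 * b11 * v11 ^ 2 + 4 * c02 ^ 2
              * q20 - c02 * v11 ^ 2 = 0 := by linear_combination (-2 * b11 + 2 * c02) * e1_4_1
              + (1 / 2 * v11) * r20
          exfalso
          have t79 : (v11) ^ 1 * ((b11 - c02) ^ 2 * ((2 * b11 - c02) ^ 1
              * (1))) = 0 := by linear_combination (1 / 2 * b11 - 1 / 2 * c02) * f_3_2 + (1 / 2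
              * b11 ^ 2 - b11 * c02 + 1 / 2 * c02 ^ 2) * r20
          have t80 := (mul_eq_zero.mp t79).resolve_left (pow_ne_zero 1 h8)
          have t81 := (mul_eq_zero.mp t80).resolve_left (pow_ne_zero 2 n19)
          have t82 := (mul_eq_zero.mp t81).resolve_left (pow_ne_zero 1 n23)
          exact absurd t82 (by norm_num)
      · have t83 : (l2) ^ 1 * (a20 - b11) = 0 := by linear_combination e1_2_2
        have t84 := (mul_eq_zero.mp t83).resolve_left (pow_ne_zero 1 h7)
        have t85 : a20 = b11 := by linear_combination (1) * t84
        subst t85
        have t86 : (a20) ^ 1 * (v11) = 0 := by linear_combination (-1) * e1_3_1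
        have t87 := (mul_eq_zero.mp t86).resolve_left (pow_ne_zero 1 n1)
        have t88 : 0 = v11 := by linear_combination (-1) * t87
        subst t88
        have t89 : (l2) ^ 1 * (a20 - c02) = 0 := by linear_combination e2_1_3
        have t90 := (mul_eq_zero.mp t89).resolve_left (pow_ne_zero 1 h7)
        have t91 : a20 = c02 := by linear_combination (1) * t90
        subst t91
        exfalso
        obtain ⟨x, y, hxy⟩ := hD
        exact hxy (by linear_combination 0)
    · have r29 : a20 * u11 + 2 * a20 * l2 - b11 * u11 - 2 * b11 * l2 + 2 * c02
          * u11 = 0 := by linear_combination (2) * e1_2_2
      have n30 : -a20 * u11 - 2 * a20 * l2 + b11 * u11 + 2 * b11 * l2 ≠ 0 := by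
        intro h0
        have t92 : (u11) ^ 1 * ((c02)) = 0 := by linear_combination (1 / 2) * h0 + (1 / 2) * r29
        have t93 := (mul_eq_zero.mp t92).resolve_left (pow_ne_zero 1 h6)
        exact n2 (by linear_combination t93)
      have n31 : u11 + 2 * l2 ≠ 0 := fun h0 => n30 (by linear_combination (-a20 + b11) * h0)
      have n32 : a20 - b11 ≠ 0 := fun h0 => n30 (by linear_combination (-u11 - 2 * l2) * h0)
      have t94 : (u11 + 2 * l2) ^ 1 * (a20 * u11 - 2 * a20 * l2 - 3 * b11 * u11 + 2 * b11
          * l2) = 0 := by linear_combination (-4 * u11) * e2_1_3 + (u11 - 2 * l2) * r29
      have t95 := (mul_eq_zero.mp t94).resolve_left (pow_ne_zero 1 n31)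
      have r33 : a20 * u11 - 2 * a20 * l2 - 3 * b11 * u11 + 2 * b11
          * l2 = 0 := by linear_combination t95
      have r34 : -4 * a20 ^ 2 * u11 + 12 * a20 * b11 * u11 - 4 * a20 * c02 * u11 - 8 * b11 ^ 2
          * u11 + 4 * b11 * c02 * u11 = 0 := by linear_combination (-2 * a20 + 2 * b11) * r29
          + (-2 * a20 + 2 * b11) * r33
      have n35 : -4 * a20 * u11 + 8 * b11 * u11 ≠ 0 := by
        intro h0
        have t96 : (a20 - b11) ^ 1 * ((u11 + 2 * l2)) = 0 := by linear_combination (-1 / 2)
            * h0 + (-1) * r33
        have t97 := (mul_eq_zero.mp t96).resolve_left (pow_ne_zero 1 n32)
        exact n31 (by linear_combination t97)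
      have n36 : a20 - 2 * b11 ≠ 0 := fun h0 => n35 (by linear_combination (-4 * u11) * h0)
      have t98 : (u11) ^ 1 * ((a20 - b11) ^ 1 * (-4 * a20 + 8 * b11 - 4
          * c02)) = 0 := by linear_combination r34
      have t99 := (mul_eq_zero.mp t98).resolve_left (pow_ne_zero 1 h6)
      have t100 := (mul_eq_zero.mp t99).resolve_left (pow_ne_zero 1 n32)
      have r37 : -4 * a20 + 8 * b11 - 4 * c02 = 0 := by linear_combination t100
      have t101 : -a20 + 2 * b11 = c02 := by linear_combination (1 / 4) * r37
      subst t101
      have n38 : -4 * a20 * u11 + 8 * b11 * u11 ≠ 0 := by
        intro h0
        have t102 : (a20 - b11) ^ 1 * ((u11 + 2 * l2)) = 0 := by linear_combination (-1 / 2)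
            * h0 + (-1) * r33
        have t103 := (mul_eq_zero.mp t102).resolve_left (pow_ne_zero 1 n32)
        exact n31 (by linear_combination t103)
      have r39 : a20 * v11 - 2 * a20 * l1 + b11 * v11 + 2 * b11
          * l1 = 0 := by linear_combination (-2) * e1_3_1
      have t104 : (a20 - b11) ^ 1 * (2 * a20 ^ 2 * q11 - 4 * a20 * b11 * q11 + 2 * b11 ^ 2
          * q11 - b11 * u11 * v11) = 0 := by linear_combination (-a20 ^ 2 + 2 * a20 * b11
          - b11 ^ 2) * e1_3_2 + (1 / 4 * a20 * v11 - 1 / 4 * b11 * v11) * r33 + (-1 / 4 * a20
          * u11 + 1 / 4 * b11 * u11) * r39
      have t105 := (mul_eq_zero.mp t104).resolve_left (pow_ne_zero 1 n32)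
      have r40 : 2 * a20 ^ 2 * q11 - 4 * a20 * b11 * q11 + 2 * b11 ^ 2 * q11 - b11 * u11
          * v11 = 0 := by linear_combination t105
      have r41 : 4 * a20 ^ 2 * q20 - 8 * a20 * b11 * q20 + a20 * v11 ^ 2 + 4 * b11 ^ 2
          * q20 = 0 := by linear_combination (-2 * a20 + 2 * b11) * e1_4_1 + (1 / 2 * v11) * r39
      have r42 : 4 * a20 ^ 2 * q02 - 8 * a20 * b11 * q02 - a20 * u11 ^ 2 + 4 * b11 ^ 2 * q02
          + 2 * b11 * u11 ^ 2 = 0 := by linear_combination (-2 * a20 + 2 * b11) * e1_2_3
          + (-1 / 2 * u11) * r33
      exfalso
      have t106 : (u11) ^ 1 * ((a20 - b11) ^ 2 * ((a20 - 2 * b11) ^ 1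
          * (1))) = 0 := by linear_combination (1 / 2 * a20 - 1 / 2 * b11) * f_2_3 + (1 / 2
          * a20 ^ 2 - a20 * b11 + 1 / 2 * b11 ^ 2) * r33
      have t107 := (mul_eq_zero.mp t106).resolve_left (pow_ne_zero 1 h6)
      have t108 := (mul_eq_zero.mp t107).resolve_left (pow_ne_zero 2 n32)
      have t109 := (mul_eq_zero.mp t108).resolve_left (pow_ne_zero 1 n36)
      exact absurd t109 (by norm_num)
  · have t110 : (b11 + s12) ^ 1 * (a20 * c02 - b11 ^ 2) = 0 := by linear_combination (c02)
        * e1_2_1 + (-b11) * r3
    have t111 := (mul_eq_zero.mp t110).resolve_left (pow_ne_zero 1 h4)
    have r43 : a20 * c02 - b11 ^ 2 = 0 := by linear_combination t111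
    have r44 : a20 * b11 ^ 2 + a20 * b11 * s12 - b11 ^ 3 + b11 ^ 2
        * s21 = 0 := by linear_combination (a20) * r3 + (b11 - s21) * r43
    have n45 : b11 ^ 2 ≠ 0 := by
      intro h0
      have t112 : (a20) ^ 1 * ((c02)) = 0 := by linear_combination h0 + r43
      have t113 := (mul_eq_zero.mp t112).resolve_left (pow_ne_zero 1 n1)
      exact n2 (by linear_combination t113)
    have n46 : b11 ≠ 0 := fun h0 => n45 (by linear_combination (b11) * h0)
    have t114 : (b11) ^ 1 * (a20 * b11 + a20 * s12 - b11 ^ 2 + b11
        * s21) = 0 := by linear_combination r44
    have t115 := (mul_eq_zero.mp t114).resolve_left (pow_ne_zero 1 n46)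
    have r47 : a20 * b11 + a20 * s12 - b11 ^ 2 + b11 * s21 = 0 := by linear_combination t115
    by_cases h48 : v20 = 0
    · have t116 : 0 = v20 := by linear_combination (-1) * h48
      subst t116
      have n49 : b11 ^ 2 ≠ 0 := by
        intro h0
        have t117 : (a20) ^ 1 * ((c02)) = 0 := by linear_combination h0 + r43
        have t118 := (mul_eq_zero.mp t117).resolve_left (pow_ne_zero 1 n1)
        exact n2 (by linear_combination t118)
      by_cases h50 : u02 = 0
      · have t119 : 0 = u02 := by linear_combination (-1) * h50
        subst t119
        have n51 : b11 ^ 2 ≠ 0 := by
          intro h0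
          have t120 : (a20) ^ 1 * ((c02)) = 0 := by linear_combination h0 + r43
          have t121 := (mul_eq_zero.mp t120).resolve_left (pow_ne_zero 1 n1)
          exact n2 (by linear_combination t121)
        by_cases h52 : v11 = 0
        · have t122 : 0 = v11 := by linear_combination (-1) * h52
          subst t122
          have n53 : b11 ^ 2 ≠ 0 := by
            intro h0
            have t123 : (a20) ^ 1 * ((c02)) = 0 := by linear_combination h0 + r43
            have t124 := (mul_eq_zero.mp t123).resolve_left (pow_ne_zero 1 n1)
            exact n2 (by linear_combination t124)
          by_cases h54 : l1 = 0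
          · have t125 : 0 = l1 := by linear_combination (-1) * h54
            subst t125
            have n55 : b11 ^ 2 ≠ 0 := by
              intro h0
              have t126 : (a20) ^ 1 * ((c02)) = 0 := by linear_combination h0 + r43
              have t127 := (mul_eq_zero.mp t126).resolve_left (pow_ne_zero 1 n1)
              exact n2 (by linear_combination t127)
            by_cases h56 : u11 = 0
            · have t128 : 0 = u11 := by linear_combination (-1) * h56
              subst t128
              have n57 : b11 ^ 2 ≠ 0 := by
                intro h0
                have t129 : (a20) ^ 1 * ((c02)) = 0 := by linear_combination h0 + r43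
                have t130 := (mul_eq_zero.mp t129).resolve_left (pow_ne_zero 1 n1)
                exact n2 (by linear_combination t130)
              by_cases h58 : l2 = 0
              · have t131 : 0 = l2 := by linear_combination (-1) * h58
                subst t131
                have n59 : b11 ^ 2 ≠ 0 := by
                  intro h0
                  have t132 : (a20) ^ 1 * ((c02)) = 0 := by linear_combination h0 + r43
                  have t133 := (mul_eq_zero.mp t132).resolve_left (pow_ne_zero 1 n1)
                  exact n2 (by linear_combination t133)
                by_cases h60 : q20 = 0
                · have t134 : 0 = q20 := by linear_combination (-1) * h60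
                  subst t134
                  have n61 : b11 ^ 2 ≠ 0 := by
                    intro h0
                    have t135 : (a20) ^ 1 * ((c02)) = 0 := by linear_combination h0 + r43
                    have t136 := (mul_eq_zero.mp t135).resolve_left (pow_ne_zero 1 n1)
                    exact n2 (by linear_combination t136)
                  by_cases h62 : q11 = 0
                  · have t137 : 0 = q11 := by linear_combination (-1) * h62
                    subst t137
                    have n63 : b11 ^ 2 ≠ 0 := by
                      intro h0
                      have t138 : (a20) ^ 1 * ((c02)) = 0 := by linear_combination h0 + r43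
                      have t139 := (mul_eq_zero.mp t138).resolve_left (pow_ne_zero 1 n1)
                      exact n2 (by linear_combination t139)
                    by_cases h64 : q02 = 0
                    · have t140 : 0 = q02 := by linear_combination (-1) * h64
                      subst t140
                      have n65 : b11 ^ 2 ≠ 0 := by
                        intro h0
                        have t141 : (a20) ^ 1 * ((c02)) = 0 := by linear_combination h0 + r43
                        have t142 := (mul_eq_zero.mp t141).resolve_left (pow_ne_zero 1 n1)
                        exact n2 (by linear_combination t142)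
                      exfalso
                      obtain ⟨x, y, hxy⟩ := hD
                      have t143 : (a20) ^ 1 * ((x ^ 2 * y ^ 2 * a20 * c02 - x ^ 2 * y ^ 2
                          * b11 ^ 2)) = 0 := by linear_combination (x ^ 2 * y ^ 2 * a20) * r43
                      have t144 := (mul_eq_zero.mp t143).resolve_left (pow_ne_zero 1 n1)
                      exact hxy (by linear_combination t144)
                    · by_cases h66 : a20 - b11 = 0
                      · have t145 : a20 = b11 := by linear_combination h66
                        subst t145
                        have n67 : a20 + s12 ≠ 0 := fun h0 => h4 (by linear_combination (1) * h0)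
                        have t146 : (a20) ^ 1 * (s12 + s21) = 0 := by linear_combination r47
                        have t147 := (mul_eq_zero.mp t146).resolve_left (pow_ne_zero 1 n1)
                        have r68 : s12 + s21 = 0 := by linear_combination t147
                        have t148 : -s12 = s21 := by linear_combination (-1) * r68
                        subst t148
                        have t149 : (a20) ^ 1 * (-a20 + c02) = 0 := by linear_combination r43
                        have t150 := (mul_eq_zero.mp t149).resolve_left (pow_ne_zero 1 n1)
                        have r69 : -a20 + c02 = 0 := by linear_combination t150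
                        have t151 : a20 = c02 := by linear_combination (-1) * r69
                        subst t151
                        exfalso
                        obtain ⟨x, y, hxy⟩ := hD
                        exact hxy (by linear_combination 0)
                      · have t152 : (q02) ^ 1 * ((a20 - b11) ^ 1 * (a20 * b11 + a20 * s12 + 2
                            * b11 ^ 2)) = 0 := by linear_combination (-a20 * b11) * e1_2_3
                            + (a20 * q02) * r47 + (2 * b11 * q02) * r43
                        have t153 := (mul_eq_zero.mp t152).resolve_left (pow_ne_zero 1 h64)
                        have t154 := (mul_eq_zero.mp t153).resolve_left (pow_ne_zero 1 h66)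
                        have r70 : a20 * b11 + a20 * s12 + 2
                            * b11 ^ 2 = 0 := by linear_combination t154
                        have r71 : -3 * a20 * b11 ^ 2 + a20 * b11
                            * s21 = 0 := by linear_combination (a20) * r47 + (-a20) * r70
                        have n72 : -2 * b11 ^ 2 ≠ 0 := by
                          intro h0
                          have t155 : (a20) ^ 1 * ((b11 + s12)) = 0 := by linear_combination h0
                              + r70
                          have t156 := (mul_eq_zero.mp t155).resolve_left (pow_ne_zero 1 n1)
                          exact h4 (by linear_combination t156)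
                        have t157 : (a20) ^ 1 * ((b11) ^ 1 * (-3 * b11
                            + s21)) = 0 := by linear_combination r71
                        have t158 := (mul_eq_zero.mp t157).resolve_left (pow_ne_zero 1 n1)
                        have t159 := (mul_eq_zero.mp t158).resolve_left (pow_ne_zero 1 n46)
                        have r73 : -3 * b11 + s21 = 0 := by linear_combination t159
                        have t160 : 3 * b11 = s21 := by linear_combination (-1) * r73
                        subst t160
                        have n74 : b11 ^ 2 ≠ 0 := by
                          intro h0
                          have t161 : (a20) ^ 1 * ((c02)) = 0 := by linear_combination h0 + r43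
                          have t162 := (mul_eq_zero.mp t161).resolve_left (pow_ne_zero 1 n1)
                          exact n2 (by linear_combination t162)
                        have n75 : -2 * b11 ^ 2 ≠ 0 := by
                          intro h0
                          have t163 : (a20) ^ 1 * ((b11 + s12)) = 0 := by linear_combination h0
                              + r70
                          have t164 := (mul_eq_zero.mp t163).resolve_left (pow_ne_zero 1 n1)
                          exact h4 (by linear_combination t164)
                        exfalso
                        have t165 : (b11) ^ 2 * ((q02) ^ 1 * ((a20 - b11) ^ 2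
                            * (1))) = 0 := by linear_combination (-1 / 4 * a20 ^ 2) * f_2_4
                            + (1 / 2 * a20 * b11 * q02 + 1 / 2 * a20 * q02 * s12) * r43
                            + (1 / 2 * a20 ^ 2 * q02 - a20 * b11 * q02 + 1 / 2 * b11 ^ 2 * q02)
                            * r70
                        have t166 := (mul_eq_zero.mp t165).resolve_left (pow_ne_zero 2 n46)
                        have t167 := (mul_eq_zero.mp t166).resolve_left (pow_ne_zero 1 h64)
                        have t168 := (mul_eq_zero.mp t167).resolve_left (pow_ne_zero 2 h66)
                        exact absurd t168 (by norm_num)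
                  · by_cases h76 : q02 = 0
                    · have t169 : 0 = q02 := by linear_combination (-1) * h76
                      subst t169
                      have n77 : b11 ^ 2 ≠ 0 := by
                        intro h0
                        have t170 : (a20) ^ 1 * ((c02)) = 0 := by linear_combination h0 + r43
                        have t171 := (mul_eq_zero.mp t170).resolve_left (pow_ne_zero 1 n1)
                        exact n2 (by linear_combination t171)
                      by_cases h78 : a20 - b11 = 0
                      · have t172 : a20 = b11 := by linear_combination h78
                        subst t172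
                        have n79 : a20 + s12 ≠ 0 := fun h0 => h4 (by linear_combination (1) * h0)
                        have t173 : (a20) ^ 1 * (s12 + s21) = 0 := by linear_combination r47
                        have t174 := (mul_eq_zero.mp t173).resolve_left (pow_ne_zero 1 n1)
                        have r80 : s12 + s21 = 0 := by linear_combination t174
                        have t175 : -s12 = s21 := by linear_combination (-1) * r80
                        subst t175
                        have t176 : (a20) ^ 1 * (-a20 + c02) = 0 := by linear_combination r43
                        have t177 := (mul_eq_zero.mp t176).resolve_left (pow_ne_zero 1 n1)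
                        have r81 : -a20 + c02 = 0 := by linear_combination t177
                        have t178 : a20 = c02 := by linear_combination (-1) * r81
                        subst t178
                        exfalso
                        obtain ⟨x, y, hxy⟩ := hD
                        exact hxy (by linear_combination 0)
                      · have t179 : (q11) ^ 1 * ((a20 - b11) ^ 1 * (2 * a20 * b11 + a20 * s12
                            + b11 ^ 2)) = 0 := by linear_combination (-a20 * b11) * e1_3_2
                            + (a20 * q11) * r47 + (b11 * q11) * r43
                        have t180 := (mul_eq_zero.mp t179).resolve_left (pow_ne_zero 1 h62)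
                        have t181 := (mul_eq_zero.mp t180).resolve_left (pow_ne_zero 1 h78)
                        have r82 : 2 * a20 * b11 + a20 * s12
                            + b11 ^ 2 = 0 := by linear_combination t181
                        have r83 : -a20 ^ 2 * b11 - 2 * a20 * b11 ^ 2 + a20 * b11
                            * s21 = 0 := by linear_combination (a20) * r47 + (-a20) * r82
                        have n84 : -a20 * b11 - b11 ^ 2 ≠ 0 := by
                          intro h0
                          have t182 : (a20) ^ 1 * ((b11 + s12)) = 0 := by linear_combination h0
                              + r82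
                          have t183 := (mul_eq_zero.mp t182).resolve_left (pow_ne_zero 1 n1)
                          exact h4 (by linear_combination t183)
                        have n85 : a20 + b11 ≠ 0 := fun h0 => n84 (by linear_combination (-b11)
                            * h0)
                        have t184 : (a20) ^ 1 * ((b11) ^ 1 * (-a20 - 2 * b11
                            + s21)) = 0 := by linear_combination r83
                        have t185 := (mul_eq_zero.mp t184).resolve_left (pow_ne_zero 1 n1)
                        have t186 := (mul_eq_zero.mp t185).resolve_left (pow_ne_zero 1 n46)
                        have r86 : -a20 - 2 * b11 + s21 = 0 := by linear_combination t186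
                        have t187 : a20 + 2 * b11 = s21 := by linear_combination (-1) * r86
                        subst t187
                        have n87 : b11 ^ 2 ≠ 0 := by
                          intro h0
                          have t188 : (a20) ^ 1 * ((c02)) = 0 := by linear_combination h0 + r43
                          have t189 := (mul_eq_zero.mp t188).resolve_left (pow_ne_zero 1 n1)
                          exact n2 (by linear_combination t189)
                        have n88 : -a20 * b11 - b11 ^ 2 ≠ 0 := by
                          intro h0
                          have t190 : (a20) ^ 1 * ((b11 + s12)) = 0 := by linear_combination h0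
                              + r82
                          have t191 := (mul_eq_zero.mp t190).resolve_left (pow_ne_zero 1 n1)
                          exact h4 (by linear_combination t191)
                        exfalso
                        have t192 : (q11) ^ 1 * ((a20 - b11) ^ 2 * ((a20 + b11) ^ 2
                            * (1))) = 0 := by linear_combination (-a20 ^ 2) * f_3_3 + (-a20 ^ 2
                            * q11 + a20 * q11 * s12) * r43 + (a20 ^ 2 * q11 - 2 * a20 * b11
                            * q11 + b11 ^ 2 * q11) * r82
                        have t193 := (mul_eq_zero.mp t192).resolve_left (pow_ne_zero 1 h62)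
                        have t194 := (mul_eq_zero.mp t193).resolve_left (pow_ne_zero 2 h78)
                        have t195 := (mul_eq_zero.mp t194).resolve_left (pow_ne_zero 2 n85)
                        exact absurd t195 (by norm_num)
                    · by_cases h89 : a20 - b11 = 0
                      · have t196 : a20 = b11 := by linear_combination h89
                        subst t196
                        have n90 : a20 + s12 ≠ 0 := fun h0 => h4 (by linear_combination (1) * h0)
                        have t197 : (a20) ^ 1 * (s12 + s21) = 0 := by linear_combination r47
                        have t198 := (mul_eq_zero.mp t197).resolve_left (pow_ne_zero 1 n1)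
                        have r91 : s12 + s21 = 0 := by linear_combination t198
                        have t199 : -s12 = s21 := by linear_combination (-1) * r91
                        subst t199
                        have t200 : (a20) ^ 1 * (-a20 + c02) = 0 := by linear_combination r43
                        have t201 := (mul_eq_zero.mp t200).resolve_left (pow_ne_zero 1 n1)
                        have r92 : -a20 + c02 = 0 := by linear_combination t201
                        have t202 : a20 = c02 := by linear_combination (-1) * r92
                        subst t202
                        exfalso
                        obtain ⟨x, y, hxy⟩ := hD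
                        exact hxy (by linear_combination 0)
                      · have t203 : (q11) ^ 1 * ((a20 - b11) ^ 1 * (2 * a20 * b11 + a20 * s12
                            + b11 ^ 2)) = 0 := by linear_combination (-a20 * b11) * e1_3_2
                            + (a20 * q11) * r47 + (b11 * q11) * r43
                        have t204 := (mul_eq_zero.mp t203).resolve_left (pow_ne_zero 1 h62)
                        have t205 := (mul_eq_zero.mp t204).resolve_left (pow_ne_zero 1 h89)
                        have r93 : 2 * a20 * b11 + a20 * s12
                            + b11 ^ 2 = 0 := by linear_combination t205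
                        have r94 : -a20 ^ 2 * b11 - 2 * a20 * b11 ^ 2 + a20 * b11
                            * s21 = 0 := by linear_combination (a20) * r47 + (-a20) * r93
                        have n95 : -a20 * b11 - b11 ^ 2 ≠ 0 := by
                          intro h0
                          have t206 : (a20) ^ 1 * ((b11 + s12)) = 0 := by linear_combination h0
                              + r93
                          have t207 := (mul_eq_zero.mp t206).resolve_left (pow_ne_zero 1 n1)
                          exact h4 (by linear_combination t207)
                        have n96 : a20 + b11 ≠ 0 := fun h0 => n95 (by linear_combination (-b11)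
                            * h0)
                        have t208 : (a20) ^ 1 * ((b11) ^ 1 * (-a20 - 2 * b11
                            + s21)) = 0 := by linear_combination r94
                        have t209 := (mul_eq_zero.mp t208).resolve_left (pow_ne_zero 1 n1)
                        have t210 := (mul_eq_zero.mp t209).resolve_left (pow_ne_zero 1 n46)
                        have r97 : -a20 - 2 * b11 + s21 = 0 := by linear_combination t210
                        have t211 : a20 + 2 * b11 = s21 := by linear_combination (-1) * r97
                        subst t211
                        have n98 : b11 ^ 2 ≠ 0 := by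
                          intro h0
                          have t212 : (a20) ^ 1 * ((c02)) = 0 := by linear_combination h0 + r43
                          have t213 := (mul_eq_zero.mp t212).resolve_left (pow_ne_zero 1 n1)
                          exact n2 (by linear_combination t213)
                        have n99 : -a20 * b11 - b11 ^ 2 ≠ 0 := by
                          intro h0
                          have t214 : (a20) ^ 1 * ((b11 + s12)) = 0 := by linear_combination h0
                              + r93
                          have t215 := (mul_eq_zero.mp t214).resolve_left (pow_ne_zero 1 n1)
                          exact h4 (by linear_combination t215)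
                        exfalso
                        have t216 : (a20) ^ 1 * ((q02) ^ 1 * ((a20 - b11) ^ 2
                            * (1))) = 0 := by linear_combination (a20 ^ 2) * e1_2_3 + (-2 * a20
                            * q02) * r43 + (-a20 * q02) * r93
                        have t217 := (mul_eq_zero.mp t216).resolve_left (pow_ne_zero 1 n1)
                        have t218 := (mul_eq_zero.mp t217).resolve_left (pow_ne_zero 1 h76)
                        have t219 := (mul_eq_zero.mp t218).resolve_left (pow_ne_zero 2 h89)
                        exact absurd t219 (by norm_num)
                · by_cases h100 : q11 = 0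
                  · have t220 : 0 = q11 := by linear_combination (-1) * h100
                    subst t220
                    have n101 : b11 ^ 2 ≠ 0 := by
                      intro h0
                      have t221 : (a20) ^ 1 * ((c02)) = 0 := by linear_combination h0 + r43
                      have t222 := (mul_eq_zero.mp t221).resolve_left (pow_ne_zero 1 n1)
                      exact n2 (by linear_combination t222)
                    by_cases h102 : q02 = 0
                    · have t223 : 0 = q02 := by linear_combination (-1) * h102
                      subst t223
                      have n103 : b11 ^ 2 ≠ 0 := by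
                        intro h0
                        have t224 : (a20) ^ 1 * ((c02)) = 0 := by linear_combination h0 + r43
                        have t225 := (mul_eq_zero.mp t224).resolve_left (pow_ne_zero 1 n1)
                        exact n2 (by linear_combination t225)
                      by_cases h104 : 3 * b11 + s12 = 0
                      · have t226 : -3 * b11 = s12 := by linear_combination (-1) * h104
                        subst t226
                        have t227 : (b11) ^ 1 * (-2 * a20 - b11
                            + s21) = 0 := by linear_combination r47
                        have t228 := (mul_eq_zero.mp t227).resolve_left (pow_ne_zero 1 n46)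
                        have r105 : -2 * a20 - b11 + s21 = 0 := by linear_combination t228
                        have t229 : 2 * a20 + b11 = s21 := by linear_combination (-1) * r105
                        subst t229
                        have n106 : b11 ^ 2 ≠ 0 := by
                          intro h0
                          have t230 : (a20) ^ 1 * ((c02)) = 0 := by linear_combination h0 + r43
                          have t231 := (mul_eq_zero.mp t230).resolve_left (pow_ne_zero 1 n1)
                          exact n2 (by linear_combination t231)
                        have n107 : b11 ^ 2 ≠ 0 := by
                          intro h0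
                          have t232 : (a20) ^ 1 * ((c02)) = 0 := by linear_combination h0 + r43
                          have t233 := (mul_eq_zero.mp t232).resolve_left (pow_ne_zero 1 n1)
                          exact n2 (by linear_combination t233)
                        by_cases h108 : a20 - b11 = 0
                        · have t234 : a20 = b11 := by linear_combination h108
                          subst t234
                          have t235 : (a20) ^ 1 * (-a20 + c02) = 0 := by linear_combination r43
                          have t236 := (mul_eq_zero.mp t235).resolve_left (pow_ne_zero 1 n1)
                          have r109 : -a20 + c02 = 0 := by linear_combination t236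
                          have t237 : a20 = c02 := by linear_combination (-1) * r109
                          subst t237
                          exfalso
                          obtain ⟨x, y, hxy⟩ := hD
                          exact hxy (by linear_combination 0)
                        · exfalso
                          have t238 : (a20) ^ 1 * ((q20) ^ 1 * ((a20 - b11) ^ 2
                              * (1))) = 0 := by linear_combination (-1 / 4 * a20) * f_4_2
                              + (-a20 * q20) * r43
                          have t239 := (mul_eq_zero.mp t238).resolve_left (pow_ne_zero 1 n1)
                          have t240 := (mul_eq_zero.mp t239).resolve_left (pow_ne_zero 1 h60)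
                          have t241 := (mul_eq_zero.mp t240).resolve_left (pow_ne_zero 2 h108)
                          exact absurd t241 (by norm_num)
                      · have t242 : (q20) ^ 1 * ((3 * b11 + s12) ^ 1 * (a20
                            - b11)) = 0 := by linear_combination (-b11) * e1_4_1 + (q20) * r47
                        have t243 := (mul_eq_zero.mp t242).resolve_left (pow_ne_zero 1 h60)
                        have t244 := (mul_eq_zero.mp t243).resolve_left (pow_ne_zero 1 h104)
                        have t245 : a20 = b11 := by linear_combination (1) * t244
                        subst t245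
                        have n110 : a20 + s12 ≠ 0 := fun h0 => h4 (by linear_combination (1) * h0)
                        have n111 : 3 * a20
                            + s12 ≠ 0 := fun h0 => h104 (by linear_combination (1) * h0)
                        have t246 : (a20) ^ 1 * (s12 + s21) = 0 := by linear_combination r47
                        have t247 := (mul_eq_zero.mp t246).resolve_left (pow_ne_zero 1 n1)
                        have r112 : s12 + s21 = 0 := by linear_combination t247
                        have t248 : -s12 = s21 := by linear_combination (-1) * r112
                        subst t248
                        have t249 : (a20) ^ 1 * (-a20 + c02) = 0 := by linear_combination r43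
                        have t250 := (mul_eq_zero.mp t249).resolve_left (pow_ne_zero 1 n1)
                        have r113 : -a20 + c02 = 0 := by linear_combination t250
                        have t251 : a20 = c02 := by linear_combination (-1) * r113
                        subst t251
                        exfalso
                        obtain ⟨x, y, hxy⟩ := hD
                        exact hxy (by linear_combination 0)
                    · by_cases h114 : 3 * b11 + s12 = 0
                      · have t252 : -3 * b11 = s12 := by linear_combination (-1) * h114
                        subst t252
                        have t253 : (b11) ^ 1 * (-2 * a20 - b11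
                            + s21) = 0 := by linear_combination r47
                        have t254 := (mul_eq_zero.mp t253).resolve_left (pow_ne_zero 1 n46)
                        have r115 : -2 * a20 - b11 + s21 = 0 := by linear_combination t254
                        have t255 : 2 * a20 + b11 = s21 := by linear_combination (-1) * r115
                        subst t255
                        have n116 : b11 ^ 2 ≠ 0 := by
                          intro h0
                          have t256 : (a20) ^ 1 * ((c02)) = 0 := by linear_combination h0 + r43
                          have t257 := (mul_eq_zero.mp t256).resolve_left (pow_ne_zero 1 n1)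
                          exact n2 (by linear_combination t257)
                        have n117 : b11 ^ 2 ≠ 0 := by
                          intro h0
                          have t258 : (a20) ^ 1 * ((c02)) = 0 := by linear_combination h0 + r43
                          have t259 := (mul_eq_zero.mp t258).resolve_left (pow_ne_zero 1 n1)
                          exact n2 (by linear_combination t259)
                        by_cases h118 : a20 - b11 = 0
                        · have t260 : a20 = b11 := by linear_combination h118
                          subst t260
                          have t261 : (a20) ^ 1 * (-a20 + c02) = 0 := by linear_combination r43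
                          have t262 := (mul_eq_zero.mp t261).resolve_left (pow_ne_zero 1 n1)
                          have r119 : -a20 + c02 = 0 := by linear_combination t262
                          have t263 : a20 = c02 := by linear_combination (-1) * r119
                          subst t263
                          exfalso
                          obtain ⟨x, y, hxy⟩ := hD
                          exact hxy (by linear_combination 0)
                        · exfalso
                          have t264 : (q02) ^ 1 * ((a20 - b11) ^ 2
                              * (1)) = 0 := by linear_combination (1 / 2 * a20) * e1_2_3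
                              + (-q02) * r43
                          have t265 := (mul_eq_zero.mp t264).resolve_left (pow_ne_zero 1 h102)
                          have t266 := (mul_eq_zero.mp t265).resolve_left (pow_ne_zero 2 h118)
                          exact absurd t266 (by norm_num)
                      · have t267 : (q20) ^ 1 * ((3 * b11 + s12) ^ 1 * (a20
                            - b11)) = 0 := by linear_combination (-b11) * e1_4_1 + (q20) * r47
                        have t268 := (mul_eq_zero.mp t267).resolve_left (pow_ne_zero 1 h60)
                        have t269 := (mul_eq_zero.mp t268).resolve_left (pow_ne_zero 1 h114)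
                        have t270 : a20 = b11 := by linear_combination (1) * t269
                        subst t270
                        have n120 : a20 + s12 ≠ 0 := fun h0 => h4 (by linear_combination (1) * h0)
                        have n121 : 3 * a20
                            + s12 ≠ 0 := fun h0 => h114 (by linear_combination (1) * h0)
                        have t271 : (a20) ^ 1 * (s12 + s21) = 0 := by linear_combination r47
                        have t272 := (mul_eq_zero.mp t271).resolve_left (pow_ne_zero 1 n1)
                        have r122 : s12 + s21 = 0 := by linear_combination t272
                        have t273 : -s12 = s21 := by linear_combination (-1) * r122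
                        subst t273
                        have t274 : (a20) ^ 1 * (-a20 + c02) = 0 := by linear_combination r43
                        have t275 := (mul_eq_zero.mp t274).resolve_left (pow_ne_zero 1 n1)
                        have r123 : -a20 + c02 = 0 := by linear_combination t275
                        have t276 : a20 = c02 := by linear_combination (-1) * r123
                        subst t276
                        exfalso
                        obtain ⟨x, y, hxy⟩ := hD
                        exact hxy (by linear_combination 0)
                  · by_cases h124 : q02 = 0
                    · have t277 : 0 = q02 := by linear_combination (-1) * h124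
                      subst t277
                      have n125 : b11 ^ 2 ≠ 0 := by
                        intro h0
                        have t278 : (a20) ^ 1 * ((c02)) = 0 := by linear_combination h0 + r43
                        have t279 := (mul_eq_zero.mp t278).resolve_left (pow_ne_zero 1 n1)
                        exact n2 (by linear_combination t279)
                      by_cases h126 : 3 * b11 + s12 = 0
                      · have t280 : -3 * b11 = s12 := by linear_combination (-1) * h126
                        subst t280
                        have t281 : (b11) ^ 1 * (-2 * a20 - b11
                            + s21) = 0 := by linear_combination r47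
                        have t282 := (mul_eq_zero.mp t281).resolve_left (pow_ne_zero 1 n46)
                        have r127 : -2 * a20 - b11 + s21 = 0 := by linear_combination t282
                        have t283 : 2 * a20 + b11 = s21 := by linear_combination (-1) * r127
                        subst t283
                        have n128 : b11 ^ 2 ≠ 0 := by
                          intro h0
                          have t284 : (a20) ^ 1 * ((c02)) = 0 := by linear_combination h0 + r43
                          have t285 := (mul_eq_zero.mp t284).resolve_left (pow_ne_zero 1 n1)
                          exact n2 (by linear_combination t285)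
                        have n129 : b11 ^ 2 ≠ 0 := by
                          intro h0
                          have t286 : (a20) ^ 1 * ((c02)) = 0 := by linear_combination h0 + r43
                          have t287 := (mul_eq_zero.mp t286).resolve_left (pow_ne_zero 1 n1)
                          exact n2 (by linear_combination t287)
                        by_cases h130 : a20 - b11 = 0
                        · have t288 : a20 = b11 := by linear_combination h130
                          subst t288
                          have t289 : (a20) ^ 1 * (-a20 + c02) = 0 := by linear_combination r43
                          have t290 := (mul_eq_zero.mp t289).resolve_left (pow_ne_zero 1 n1)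
                          have r131 : -a20 + c02 = 0 := by linear_combination t290
                          have t291 : a20 = c02 := by linear_combination (-1) * r131
                          subst t291
                          exfalso
                          obtain ⟨x, y, hxy⟩ := hD
                          exact hxy (by linear_combination 0)
                        · exfalso
                          have t292 : (q11) ^ 1 * ((a20 - b11) ^ 2
                              * (1)) = 0 := by linear_combination (a20) * e1_3_2 + (-q11) * r43
                          have t293 := (mul_eq_zero.mp t292).resolve_left (pow_ne_zero 1 h100)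
                          have t294 := (mul_eq_zero.mp t293).resolve_left (pow_ne_zero 2 h130)
                          exact absurd t294 (by norm_num)
                      · have t295 : (q20) ^ 1 * ((3 * b11 + s12) ^ 1 * (a20
                            - b11)) = 0 := by linear_combination (-b11) * e1_4_1 + (q20) * r47
                        have t296 := (mul_eq_zero.mp t295).resolve_left (pow_ne_zero 1 h60)
                        have t297 := (mul_eq_zero.mp t296).resolve_left (pow_ne_zero 1 h126)
                        have t298 : a20 = b11 := by linear_combination (1) * t297
                        subst t298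
                        have n132 : a20 + s12 ≠ 0 := fun h0 => h4 (by linear_combination (1) * h0)
                        have n133 : 3 * a20
                            + s12 ≠ 0 := fun h0 => h126 (by linear_combination (1) * h0)
                        have t299 : (a20) ^ 1 * (s12 + s21) = 0 := by linear_combination r47
                        have t300 := (mul_eq_zero.mp t299).resolve_left (pow_ne_zero 1 n1)
                        have r134 : s12 + s21 = 0 := by linear_combination t300
                        have t301 : -s12 = s21 := by linear_combination (-1) * r134
                        subst t301
                        have t302 : (a20) ^ 1 * (-a20 + c02) = 0 := by linear_combination r43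
                        have t303 := (mul_eq_zero.mp t302).resolve_left (pow_ne_zero 1 n1)
                        have r135 : -a20 + c02 = 0 := by linear_combination t303
                        have t304 : a20 = c02 := by linear_combination (-1) * r135
                        subst t304
                        exfalso
                        obtain ⟨x, y, hxy⟩ := hD
                        exact hxy (by linear_combination 0)
                    · by_cases h136 : 3 * b11 + s12 = 0
                      · have t305 : -3 * b11 = s12 := by linear_combination (-1) * h136
                        subst t305
                        have t306 : (b11) ^ 1 * (-2 * a20 - b11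
                            + s21) = 0 := by linear_combination r47
                        have t307 := (mul_eq_zero.mp t306).resolve_left (pow_ne_zero 1 n46)
                        have r137 : -2 * a20 - b11 + s21 = 0 := by linear_combination t307
                        have t308 : 2 * a20 + b11 = s21 := by linear_combination (-1) * r137
                        subst t308
                        have n138 : b11 ^ 2 ≠ 0 := by
                          intro h0
                          have t309 : (a20) ^ 1 * ((c02)) = 0 := by linear_combination h0 + r43
                          have t310 := (mul_eq_zero.mp t309).resolve_left (pow_ne_zero 1 n1)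
                          exact n2 (by linear_combination t310)
                        have n139 : b11 ^ 2 ≠ 0 := by
                          intro h0
                          have t311 : (a20) ^ 1 * ((c02)) = 0 := by linear_combination h0 + r43
                          have t312 := (mul_eq_zero.mp t311).resolve_left (pow_ne_zero 1 n1)
                          exact n2 (by linear_combination t312)
                        by_cases h140 : a20 - b11 = 0
                        · have t313 : a20 = b11 := by linear_combination h140
                          subst t313
                          have t314 : (a20) ^ 1 * (-a20 + c02) = 0 := by linear_combination r43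
                          have t315 := (mul_eq_zero.mp t314).resolve_left (pow_ne_zero 1 n1)
                          have r141 : -a20 + c02 = 0 := by linear_combination t315
                          have t316 : a20 = c02 := by linear_combination (-1) * r141
                          subst t316
                          exfalso
                          obtain ⟨x, y, hxy⟩ := hD
                          exact hxy (by linear_combination 0)
                        · exfalso
                          have t317 : (q11) ^ 1 * ((a20 - b11) ^ 2
                              * (1)) = 0 := by linear_combination (a20) * e1_3_2 + (-q11) * r43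
                          have t318 := (mul_eq_zero.mp t317).resolve_left (pow_ne_zero 1 h100)
                          have t319 := (mul_eq_zero.mp t318).resolve_left (pow_ne_zero 2 h140)
                          exact absurd t319 (by norm_num)
                      · have t320 : (q20) ^ 1 * ((3 * b11 + s12) ^ 1 * (a20
                            - b11)) = 0 := by linear_combination (-b11) * e1_4_1 + (q20) * r47
                        have t321 := (mul_eq_zero.mp t320).resolve_left (pow_ne_zero 1 h60)
                        have t322 := (mul_eq_zero.mp t321).resolve_left (pow_ne_zero 1 h136)
                        have t323 : a20 = b11 := by linear_combination (1) * t322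
                        subst t323
                        have n142 : a20 + s12 ≠ 0 := fun h0 => h4 (by linear_combination (1) * h0)
                        have n143 : 3 * a20
                            + s12 ≠ 0 := fun h0 => h136 (by linear_combination (1) * h0)
                        have t324 : (a20) ^ 1 * (s12 + s21) = 0 := by linear_combination r47
                        have t325 := (mul_eq_zero.mp t324).resolve_left (pow_ne_zero 1 n1)
                        have r144 : s12 + s21 = 0 := by linear_combination t325
                        have t326 : -s12 = s21 := by linear_combination (-1) * r144
                        subst t326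
                        have t327 : (a20) ^ 1 * (-a20 + c02) = 0 := by linear_combination r43
                        have t328 := (mul_eq_zero.mp t327).resolve_left (pow_ne_zero 1 n1)
                        have r145 : -a20 + c02 = 0 := by linear_combination t328
                        have t329 : a20 = c02 := by linear_combination (-1) * r145
                        subst t329
                        exfalso
                        obtain ⟨x, y, hxy⟩ := hD
                        exact hxy (by linear_combination 0)
              · have t330 : (l2) ^ 1 * (a20 - b11) = 0 := by linear_combination e1_2_2
                have t331 := (mul_eq_zero.mp t330).resolve_left (pow_ne_zero 1 h58)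
                have t332 : a20 = b11 := by linear_combination (1) * t331
                subst t332
                have n146 : a20 + s12 ≠ 0 := fun h0 => h4 (by linear_combination (1) * h0)
                have t333 : (a20) ^ 1 * (s12 + s21) = 0 := by linear_combination r47
                have t334 := (mul_eq_zero.mp t333).resolve_left (pow_ne_zero 1 n1)
                have r147 : s12 + s21 = 0 := by linear_combination t334
                have t335 : -s12 = s21 := by linear_combination (-1) * r147
                subst t335
                have t336 : (a20) ^ 1 * (-a20 + c02) = 0 := by linear_combination r43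
                have t337 := (mul_eq_zero.mp t336).resolve_left (pow_ne_zero 1 n1)
                have r148 : -a20 + c02 = 0 := by linear_combination t337
                have t338 : a20 = c02 := by linear_combination (-1) * r148
                subst t338
                exfalso
                obtain ⟨x, y, hxy⟩ := hD
                exact hxy (by linear_combination 0)
            · have r149 : 2 * a20 * b11 * u11 + 2 * a20 * b11 * l2 + a20 * u11 * s12 + b11 ^ 2
                  * u11 - 2 * b11 ^ 2 * l2 = 0 := by linear_combination (2 * a20) * e2_1_3
                  + (-u11 + 2 * l2) * r43
              have r150 : -a20 ^ 2 * b11 * u11 - 2 * a20 ^ 2 * b11 * l2 - 2 * a20 * b11 ^ 2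
                  * u11 + 2 * a20 * b11 ^ 2 * l2 + a20 * b11 * u11
                  * s21 = 0 := by linear_combination (a20 * u11) * r47 + (-a20) * r149
              have n151 : -a20 * b11 * u11 - 2 * a20 * b11 * l2 - b11 ^ 2 * u11 + 2 * b11 ^ 2
                  * l2 ≠ 0 := by
                intro h0
                have t339 : (a20) ^ 1 * ((u11) ^ 1 * ((b11
                    + s12))) = 0 := by linear_combination h0 + r149
                have t340 := (mul_eq_zero.mp t339).resolve_left (pow_ne_zero 1 n1)
                have t341 := (mul_eq_zero.mp t340).resolve_left (pow_ne_zero 1 h56)
                exact h4 (by linear_combination t341)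
              have n152 : a20 * u11 + 2 * a20 * l2 + b11 * u11 - 2 * b11
                  * l2 ≠ 0 := fun h0 => n151 (by linear_combination (-b11) * h0)
              have t342 : (a20) ^ 1 * ((b11) ^ 1 * (-a20 * u11 - 2 * a20 * l2 - 2 * b11 * u11
                  + 2 * b11 * l2 + u11 * s21)) = 0 := by linear_combination r150
              have t343 := (mul_eq_zero.mp t342).resolve_left (pow_ne_zero 1 n1)
              have t344 := (mul_eq_zero.mp t343).resolve_left (pow_ne_zero 1 n46)
              have r153 : -a20 * u11 - 2 * a20 * l2 - 2 * b11 * u11 + 2 * b11 * l2 + u11
                  * s21 = 0 := by linear_combination t344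
              by_cases h154 : a20 - b11 = 0
              · have t345 : a20 = b11 := by linear_combination h154
                subst t345
                have n155 : a20 + s12 ≠ 0 := fun h0 => h4 (by linear_combination (1) * h0)
                have t346 : (u11) ^ 1 * (-3 * a20 + s21) = 0 := by linear_combination r153
                have t347 := (mul_eq_zero.mp t346).resolve_left (pow_ne_zero 1 h56)
                have r156 : -3 * a20 + s21 = 0 := by linear_combination t347
                have t348 : 3 * a20 = s21 := by linear_combination (-1) * r156
                subst t348
                have t349 : (a20) ^ 1 * (-a20 + c02) = 0 := by linear_combination r43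
                have t350 := (mul_eq_zero.mp t349).resolve_left (pow_ne_zero 1 n1)
                have r157 : -a20 + c02 = 0 := by linear_combination t350
                have t351 : a20 = c02 := by linear_combination (-1) * r157
                subst t351
                have t352 : (a20) ^ 1 * ((u11) ^ 1 * (3 * a20
                    + s12)) = 0 := by linear_combination r149
                have t353 := (mul_eq_zero.mp t352).resolve_left (pow_ne_zero 1 n1)
                have t354 := (mul_eq_zero.mp t353).resolve_left (pow_ne_zero 1 h56)
                have r158 : 3 * a20 + s12 = 0 := by linear_combination t354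
                have t355 : -3 * a20 = s12 := by linear_combination (-1) * r158
                subst t355
                have t356 : (u11) ^ 1 * (u11 + 2 * l2) = 0 := by linear_combination (4) * e1_2_3
                have t357 := (mul_eq_zero.mp t356).resolve_left (pow_ne_zero 1 h56)
                have t358 : -1 / 2 * u11 = l2 := by linear_combination (-1 / 2) * t357
                subst t358
                exfalso
                have t359 : (a20) ^ 1 * ((u11) ^ 2 * (1)) = 0 := by linear_combination f_2_4
                have t360 := (mul_eq_zero.mp t359).resolve_left (pow_ne_zero 1 n1)
                have t361 := (mul_eq_zero.mp t360).resolve_left (pow_ne_zero 2 h56)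
                exact absurd t361 (by norm_num)
              · have t362 : (a20) ^ 1 * ((u11) ^ 2 * ((a20 - b11) ^ 1 * (a20 * u11 + 2 * a20
                    * l2 - 2 * b11 * l2))) = 0 := by linear_combination (a20 ^ 2 * u11 ^ 2)
                    * e1_2_2 + (-1 / 2 * a20 ^ 2 * u11 ^ 2) * r153 + (-a20 * u11 ^ 3) * r43
                    + (-a20 * u11 ^ 2) * r149
                have t363 := (mul_eq_zero.mp t362).resolve_left (pow_ne_zero 1 n1)
                have t364 := (mul_eq_zero.mp t363).resolve_left (pow_ne_zero 2 h56)
                have t365 := (mul_eq_zero.mp t364).resolve_left (pow_ne_zero 1 h154)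
                have r159 : a20 * u11 + 2 * a20 * l2 - 2 * b11
                    * l2 = 0 := by linear_combination t365
                have r160 : -4 * a20 * b11 * u11 + 2 * a20 * u11 * s21 + 4 * b11 ^ 2 * u11 - 2
                    * b11 * u11 * s21 = 0 := by linear_combination (2 * a20 - 2 * b11) * r153
                    + (2 * a20 - 2 * b11) * r159
                have r161 : 2 * a20 ^ 2 * b11 * u11 + 2 * a20 ^ 2 * u11 * s12 - 2 * a20 * b11
                    * u11 * s12 - 2 * b11 ^ 3 * u11 = 0 := by linear_combination (2 * a20 - 2
                    * b11) * r149 + (-2 * a20 * b11 + 2 * b11 ^ 2) * r159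
                have n162 : 2 * a20 * b11 * u11 - 2 * b11 ^ 2 * u11 ≠ 0 := by
                  intro h0
                  have t366 : (a20 - b11) ^ 1 * ((a20 * u11 + 2 * a20 * l2 + b11 * u11 - 2
                      * b11 * l2)) = 0 := by linear_combination (1 / 2) * h0 + (a20 - b11) * r159
                  have t367 := (mul_eq_zero.mp t366).resolve_left (pow_ne_zero 1 h154)
                  exact n152 (by linear_combination t367)
                have t368 : (u11) ^ 1 * ((a20 - b11) ^ 1 * (-4 * b11 + 2
                    * s21)) = 0 := by linear_combination r160
                have t369 := (mul_eq_zero.mp t368).resolve_left (pow_ne_zero 1 h56)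
                have t370 := (mul_eq_zero.mp t369).resolve_left (pow_ne_zero 1 h154)
                have r163 : -4 * b11 + 2 * s21 = 0 := by linear_combination t370
                have t371 : 2 * b11 = s21 := by linear_combination (-1 / 2) * r163
                subst t371
                have t372 : (u11) ^ 1 * ((a20 - b11) ^ 1 * (2 * a20 * b11 + 2 * a20 * s12 + 2
                    * b11 ^ 2)) = 0 := by linear_combination r161
                have t373 := (mul_eq_zero.mp t372).resolve_left (pow_ne_zero 1 h56)
                have t374 := (mul_eq_zero.mp t373).resolve_left (pow_ne_zero 1 h154)
                have r164 : 2 * a20 * b11 + 2 * a20 * s12 + 2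
                    * b11 ^ 2 = 0 := by linear_combination t374
                have n165 : b11 ^ 2 ≠ 0 := by
                  intro h0
                  have t375 : (a20) ^ 1 * ((c02)) = 0 := by linear_combination h0 + r43
                  have t376 := (mul_eq_zero.mp t375).resolve_left (pow_ne_zero 1 n1)
                  exact n2 (by linear_combination t376)
                have n166 : -2 * b11 ^ 2 ≠ 0 := by
                  intro h0
                  have t377 : (a20) ^ 1 * ((b11 + s12)) = 0 := by linear_combination (1 / 2)
                      * h0 + (1 / 2) * r164
                  have t378 := (mul_eq_zero.mp t377).resolve_left (pow_ne_zero 1 n1)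
                  exact h4 (by linear_combination t378)
                have n167 : 2 * a20 * b11 * u11 - 2 * b11 ^ 2 * u11 ≠ 0 := by
                  intro h0
                  have t379 : (a20 - b11) ^ 1 * ((a20 * u11 + 2 * a20 * l2 + b11 * u11 - 2
                      * b11 * l2)) = 0 := by linear_combination (1 / 2) * h0 + (a20 - b11) * r159
                  have t380 := (mul_eq_zero.mp t379).resolve_left (pow_ne_zero 1 h154)
                  exact n152 (by linear_combination t380)
                have t381 : (a20) ^ 2 * ((a20 - b11) ^ 1
                    * (q11)) = 0 := by linear_combination (-a20 ^ 2) * e1_3_2 + (a20 * q11)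
                    * r43 + (1 / 2 * a20 * q11) * r164
                have t382 := (mul_eq_zero.mp t381).resolve_left (pow_ne_zero 2 n1)
                have t383 := (mul_eq_zero.mp t382).resolve_left (pow_ne_zero 1 h154)
                have t384 : 0 = q11 := by linear_combination (-1) * t383
                subst t384
                have n168 : b11 ^ 2 ≠ 0 := by
                  intro h0
                  have t385 : (a20) ^ 1 * ((c02)) = 0 := by linear_combination h0 + r43
                  have t386 := (mul_eq_zero.mp t385).resolve_left (pow_ne_zero 1 n1)
                  exact n2 (by linear_combination t386)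
                have n169 : -2 * b11 ^ 2 ≠ 0 := by
                  intro h0
                  have t387 : (a20) ^ 1 * ((b11 + s12)) = 0 := by linear_combination (1 / 2)
                      * h0 + (1 / 2) * r164
                  have t388 := (mul_eq_zero.mp t387).resolve_left (pow_ne_zero 1 n1)
                  exact h4 (by linear_combination t388)
                have n170 : 2 * a20 * b11 * u11 - 2 * b11 ^ 2 * u11 ≠ 0 := by
                  intro h0
                  have t389 : (a20 - b11) ^ 1 * ((a20 * u11 + 2 * a20 * l2 + b11 * u11 - 2
                      * b11 * l2)) = 0 := by linear_combination (1 / 2) * h0 + (a20 - b11) * r159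
                  have t390 := (mul_eq_zero.mp t389).resolve_left (pow_ne_zero 1 h154)
                  exact n152 (by linear_combination t390)
                have t391 : (a20) ^ 1 * ((b11) ^ 1 * (4 * a20 ^ 2 * q02 - 8 * a20 * b11 * q02
                    + a20 * u11 ^ 2 + 4 * b11 ^ 2 * q02)) = 0 := by linear_combination (-4
                    * a20 ^ 3 + 4 * a20 ^ 2 * b11) * e1_2_3 + (8 * a20 ^ 2 * q02 - 8 * a20
                    * b11 * q02) * r43 + (2 * a20 ^ 2 * q02 - 2 * a20 * b11 * q02) * r164
                    + (a20 ^ 2 * u11) * r159
                have t392 := (mul_eq_zero.mp t391).resolve_left (pow_ne_zero 1 n1)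
                have t393 := (mul_eq_zero.mp t392).resolve_left (pow_ne_zero 1 n46)
                have r171 : 4 * a20 ^ 2 * q02 - 8 * a20 * b11 * q02 + a20 * u11 ^ 2 + 4
                    * b11 ^ 2 * q02 = 0 := by linear_combination t393
                by_cases h172 : q20 = 0
                · have t394 : 0 = q20 := by linear_combination (-1) * h172
                  subst t394
                  have n173 : b11 ^ 2 ≠ 0 := by
                    intro h0
                    have t395 : (a20) ^ 1 * ((c02)) = 0 := by linear_combination h0 + r43
                    have t396 := (mul_eq_zero.mp t395).resolve_left (pow_ne_zero 1 n1)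
                    exact n2 (by linear_combination t396)
                  have n174 : -2 * b11 ^ 2 ≠ 0 := by
                    intro h0
                    have t397 : (a20) ^ 1 * ((b11 + s12)) = 0 := by linear_combination (1 / 2)
                        * h0 + (1 / 2) * r164
                    have t398 := (mul_eq_zero.mp t397).resolve_left (pow_ne_zero 1 n1)
                    exact h4 (by linear_combination t398)
                  have n175 : 2 * a20 * b11 * u11 - 2 * b11 ^ 2 * u11 ≠ 0 := by
                    intro h0
                    have t399 : (a20 - b11) ^ 1 * ((a20 * u11 + 2 * a20 * l2 + b11 * u11 - 2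
                        * b11 * l2)) = 0 := by linear_combination (1 / 2) * h0 + (a20 - b11) * r159
                    have t400 := (mul_eq_zero.mp t399).resolve_left (pow_ne_zero 1 h154)
                    exact n152 (by linear_combination t400)
                  exfalso
                  have t401 : (b11) ^ 3 * ((u11) ^ 1 * ((a20 - b11) ^ 1
                      * (1))) = 0 := by linear_combination (a20 ^ 2) * f_2_3 + (a20 ^ 2 * u11
                      + 2 * a20 ^ 2 * l2 - a20 * b11 * u11 - a20 * u11 * s12) * r43 + (1 / 2
                      * a20 * b11 * u11 - 1 / 2 * b11 ^ 2 * u11) * r164
                  have t402 := (mul_eq_zero.mp t401).resolve_left (pow_ne_zero 3 n46)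
                  have t403 := (mul_eq_zero.mp t402).resolve_left (pow_ne_zero 1 h56)
                  have t404 := (mul_eq_zero.mp t403).resolve_left (pow_ne_zero 1 h154)
                  exact absurd t404 (by norm_num)
                · have t405 : (a20 - b11) ^ 1 * ((q20) ^ 1 * (2 * a20
                      - b11)) = 0 := by linear_combination (-a20) * e1_4_1 + (1 / 2 * q20) * r164
                  have t406 := (mul_eq_zero.mp t405).resolve_left (pow_ne_zero 1 h154)
                  have t407 := (mul_eq_zero.mp t406).resolve_left (pow_ne_zero 1 h172)
                  have t408 : 2 * a20 = b11 := by linear_combination (1) * t407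
                  subst t408
                  have n176 : 2 * a20 + s12 ≠ 0 := fun h0 => h4 (by linear_combination (1) * h0)
                  have n177 : 3 * u11 - 2
                      * l2 ≠ 0 := fun h0 => n152 (by linear_combination (a20) * h0)
                  have t409 : (a20) ^ 1 * (-4 * a20 + c02) = 0 := by linear_combination r43
                  have t410 := (mul_eq_zero.mp t409).resolve_left (pow_ne_zero 1 n1)
                  have r178 : -4 * a20 + c02 = 0 := by linear_combination t410
                  have t411 : 4 * a20 = c02 := by linear_combination (-1) * r178
                  subst t411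
                  have t412 : (a20) ^ 1 * (12 * a20 + 2 * s12) = 0 := by linear_combination r164
                  have t413 := (mul_eq_zero.mp t412).resolve_left (pow_ne_zero 1 n1)
                  have r179 : 12 * a20 + 2 * s12 = 0 := by linear_combination t413
                  have t414 : -6 * a20 = s12 := by linear_combination (-1 / 2) * r179
                  subst t414
                  have t415 : (a20) ^ 1 * (u11 - 2 * l2) = 0 := by linear_combination r159
                  have t416 := (mul_eq_zero.mp t415).resolve_left (pow_ne_zero 1 n1)
                  have r180 : u11 - 2 * l2 = 0 := by linear_combination t416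
                  have t417 : 1 / 2 * u11 = l2 := by linear_combination (1 / 2) * r180
                  subst t417
                  have t418 : (a20) ^ 1 * (4 * a20 * q02
                      + u11 ^ 2) = 0 := by linear_combination r171
                  have t419 := (mul_eq_zero.mp t418).resolve_left (pow_ne_zero 1 n1)
                  have r181 : 4 * a20 * q02 + u11 ^ 2 = 0 := by linear_combination t419
                  exfalso
                  have t420 : (a20) ^ 2 * ((u11) ^ 1
                      * (1)) = 0 := by linear_combination (-1 / 8) * f_2_3
                  have t421 := (mul_eq_zero.mp t420).resolve_left (pow_ne_zero 2 n1)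
                  have t422 := (mul_eq_zero.mp t421).resolve_left (pow_ne_zero 1 h56)
                  exact absurd t422 (by norm_num)
          · have t423 : (l1) ^ 1 * (a20 - b11) = 0 := by linear_combination e1_3_1
            have t424 := (mul_eq_zero.mp t423).resolve_left (pow_ne_zero 1 h54)
            have t425 : a20 = b11 := by linear_combination (1) * t424
            subst t425
            have n182 : a20 + s12 ≠ 0 := fun h0 => h4 (by linear_combination (1) * h0)
            have t426 : (a20) ^ 1 * (s12 + s21) = 0 := by linear_combination r47
            have t427 := (mul_eq_zero.mp t426).resolve_left (pow_ne_zero 1 n1)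
            have r183 : s12 + s21 = 0 := by linear_combination t427
            have t428 : -s12 = s21 := by linear_combination (-1) * r183
            subst t428
            have t429 : (a20) ^ 1 * (-a20 + c02) = 0 := by linear_combination r43
            have t430 := (mul_eq_zero.mp t429).resolve_left (pow_ne_zero 1 n1)
            have r184 : -a20 + c02 = 0 := by linear_combination t430
            have t431 : a20 = c02 := by linear_combination (-1) * r184
            subst t431
            by_cases h185 : u11 = 0
            · have t432 : 0 = u11 := by linear_combination (-1) * h185
              subst t432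
              exfalso
              obtain ⟨x, y, hxy⟩ := hD
              exact hxy (by linear_combination 0)
            · have t433 : (u11) ^ 1 * (3 * a20 + s12) = 0 := by linear_combination (2) * e1_2_2
              have t434 := (mul_eq_zero.mp t433).resolve_left (pow_ne_zero 1 h185)
              have t435 : -3 * a20 = s12 := by linear_combination (-1) * t434
              subst t435
              exfalso
              have t436 : (l1) ^ 1 * ((u11) ^ 1 * (1)) = 0 := by linear_combination (2) * e1_3_2
              have t437 := (mul_eq_zero.mp t436).resolve_left (pow_ne_zero 1 h54)
              have t438 := (mul_eq_zero.mp t437).resolve_left (pow_ne_zero 1 h185)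
              exact absurd t438 (by norm_num)
        · have r186 : 2 * a20 * b11 * v11 - 2 * a20 * b11 * l1 + a20 * v11 * s12 + b11 ^ 2
              * v11 + 2 * b11 ^ 2 * l1 = 0 := by linear_combination (-2 * b11) * e1_3_1 + (v11)
              * r47
          have r187 : -a20 ^ 2 * b11 * v11 + 2 * a20 ^ 2 * b11 * l1 - 2 * a20 * b11 ^ 2 * v11
              - 2 * a20 * b11 ^ 2 * l1 + a20 * b11 * v11
              * s21 = 0 := by linear_combination (a20 * v11) * r47 + (-a20) * r186
          have n188 : -a20 * b11 * v11 + 2 * a20 * b11 * l1 - b11 ^ 2 * v11 - 2 * b11 ^ 2
              * l1 ≠ 0 := by
            intro h0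
            have t439 : (a20) ^ 1 * ((v11) ^ 1 * ((b11 + s12))) = 0 := by linear_combination h0
                + r186
            have t440 := (mul_eq_zero.mp t439).resolve_left (pow_ne_zero 1 n1)
            have t441 := (mul_eq_zero.mp t440).resolve_left (pow_ne_zero 1 h52)
            exact h4 (by linear_combination t441)
          have n189 : a20 * v11 - 2 * a20 * l1 + b11 * v11 + 2 * b11
              * l1 ≠ 0 := fun h0 => n188 (by linear_combination (-b11) * h0)
          have t442 : (a20) ^ 1 * ((b11) ^ 1 * (-a20 * v11 + 2 * a20 * l1 - 2 * b11 * v11 - 2
              * b11 * l1 + v11 * s21)) = 0 := by linear_combination r187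
          have t443 := (mul_eq_zero.mp t442).resolve_left (pow_ne_zero 1 n1)
          have t444 := (mul_eq_zero.mp t443).resolve_left (pow_ne_zero 1 n46)
          have r190 : -a20 * v11 + 2 * a20 * l1 - 2 * b11 * v11 - 2 * b11 * l1 + v11
              * s21 = 0 := by linear_combination t444
          by_cases h191 : a20 - b11 = 0
          · have t445 : a20 = b11 := by linear_combination h191
            subst t445
            have n192 : a20 + s12 ≠ 0 := fun h0 => h4 (by linear_combination (1) * h0)
            have t446 : (v11) ^ 1 * (-3 * a20 + s21) = 0 := by linear_combination r190
            have t447 := (mul_eq_zero.mp t446).resolve_left (pow_ne_zero 1 h52)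
            have r193 : -3 * a20 + s21 = 0 := by linear_combination t447
            have t448 : 3 * a20 = s21 := by linear_combination (-1) * r193
            subst t448
            have t449 : (a20) ^ 1 * (-a20 + c02) = 0 := by linear_combination r43
            have t450 := (mul_eq_zero.mp t449).resolve_left (pow_ne_zero 1 n1)
            have r194 : -a20 + c02 = 0 := by linear_combination t450
            have t451 : a20 = c02 := by linear_combination (-1) * r194
            subst t451
            have t452 : (a20) ^ 1 * ((v11) ^ 1 * (3 * a20 + s12)) = 0 := by linear_combination r186
            have t453 := (mul_eq_zero.mp t452).resolve_left (pow_ne_zero 1 n1)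
            have t454 := (mul_eq_zero.mp t453).resolve_left (pow_ne_zero 1 h52)
            have r195 : 3 * a20 + s12 = 0 := by linear_combination t454
            have t455 : -3 * a20 = s12 := by linear_combination (-1) * r195
            subst t455
            have t456 : (v11) ^ 1 * (v11 + 2 * l1) = 0 := by linear_combination (-4) * e1_4_1
            have t457 := (mul_eq_zero.mp t456).resolve_left (pow_ne_zero 1 h52)
            have t458 : -1 / 2 * v11 = l1 := by linear_combination (-1 / 2) * t457
            subst t458
            have t459 : (v11) ^ 1 * (u11 + 2 * l2) = 0 := by linear_combination (-4) * e1_3_2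
            have t460 := (mul_eq_zero.mp t459).resolve_left (pow_ne_zero 1 h52)
            have t461 : -1 / 2 * u11 = l2 := by linear_combination (-1 / 2) * t460
            subst t461
            exfalso
            have t462 : (a20) ^ 1 * ((v11) ^ 2 * (1)) = 0 := by linear_combination f_4_2
            have t463 := (mul_eq_zero.mp t462).resolve_left (pow_ne_zero 1 n1)
            have t464 := (mul_eq_zero.mp t463).resolve_left (pow_ne_zero 2 h52)
            exact absurd t464 (by norm_num)
          · have t465 : (a20) ^ 1 * ((b11) ^ 1 * ((a20 - b11) ^ 1 * (u11 * l1 + v11
                * l2))) = 0 := by linear_combination (a20 ^ 2 * v11) * e2_1_3 + (-1 / 2 * a20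
                * u11 * v11 + a20 * v11 * l2) * r43 + (-1 / 2 * a20 * u11) * r186
            have t466 := (mul_eq_zero.mp t465).resolve_left (pow_ne_zero 1 n1)
            have t467 := (mul_eq_zero.mp t466).resolve_left (pow_ne_zero 1 n46)
            have t468 := (mul_eq_zero.mp t467).resolve_left (pow_ne_zero 1 h191)
            have r196 : u11 * l1 + v11 * l2 = 0 := by linear_combination t468
            have t469 : (a20) ^ 1 * ((v11) ^ 2 * ((a20 - b11) ^ 1 * (2 * a20 * l1 - b11 * v11
                - 2 * b11 * l1))) = 0 := by linear_combination (-a20 ^ 2 * v11 ^ 2) * e2_2_2
                + (a20 ^ 2 * v11 ^ 2) * r190 + (-1 / 2 * a20 * v11 ^ 3 - a20 * v11 ^ 2 * l1)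
                * r43 + (1 / 2 * a20 * v11 ^ 2) * r186
            have t470 := (mul_eq_zero.mp t469).resolve_left (pow_ne_zero 1 n1)
            have t471 := (mul_eq_zero.mp t470).resolve_left (pow_ne_zero 2 h52)
            have t472 := (mul_eq_zero.mp t471).resolve_left (pow_ne_zero 1 h191)
            have r197 : 2 * a20 * l1 - b11 * v11 - 2 * b11 * l1 = 0 := by linear_combination t472
            have r198 : -2 * a20 ^ 2 * v11 + 2 * a20 * v11 * s21 + 2 * b11 ^ 2 * v11 - 2 * b11
                * v11 * s21 = 0 := by linear_combination (2 * a20 - 2 * b11) * r190 + (-2 * a20
                + 2 * b11) * r197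
            have r199 : 4 * a20 ^ 2 * b11 * v11 + 2 * a20 ^ 2 * v11 * s12 - 4 * a20 * b11 ^ 2
                * v11 - 2 * a20 * b11 * v11 * s12 = 0 := by linear_combination (2 * a20 - 2
                * b11) * r186 + (2 * a20 * b11 - 2 * b11 ^ 2) * r197
            have r200 : 2 * a20 * v11 * l2 + b11 * u11 * v11 - 2 * b11 * v11
                * l2 = 0 := by linear_combination (2 * a20 - 2 * b11) * r196 + (-u11) * r197
            have n201 : 2 * a20 ^ 2 * v11 - 2 * a20 * b11 * v11 ≠ 0 := by
              intro h0
              have t473 : (a20 - b11) ^ 1 * ((a20 * v11 - 2 * a20 * l1 + b11 * v11 + 2 * b11
                  * l1)) = 0 := by linear_combination (1 / 2) * h0 + (-a20 + b11) * r197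
              have t474 := (mul_eq_zero.mp t473).resolve_left (pow_ne_zero 1 h191)
              exact n189 (by linear_combination t474)
            have t475 : (v11) ^ 1 * ((a20 - b11) ^ 1 * (-2 * a20 - 2 * b11 + 2
                * s21)) = 0 := by linear_combination r198
            have t476 := (mul_eq_zero.mp t475).resolve_left (pow_ne_zero 1 h52)
            have t477 := (mul_eq_zero.mp t476).resolve_left (pow_ne_zero 1 h191)
            have r202 : -2 * a20 - 2 * b11 + 2 * s21 = 0 := by linear_combination t477
            have t478 : a20 + b11 = s21 := by linear_combination (-1 / 2) * r202
            subst t478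
            have t479 : (a20) ^ 1 * ((v11) ^ 1 * ((a20 - b11) ^ 1 * (4 * b11 + 2
                * s12))) = 0 := by linear_combination r199
            have t480 := (mul_eq_zero.mp t479).resolve_left (pow_ne_zero 1 n1)
            have t481 := (mul_eq_zero.mp t480).resolve_left (pow_ne_zero 1 h52)
            have t482 := (mul_eq_zero.mp t481).resolve_left (pow_ne_zero 1 h191)
            have r203 : 4 * b11 + 2 * s12 = 0 := by linear_combination t482
            have t483 : -2 * b11 = s12 := by linear_combination (-1 / 2) * r203
            subst t483
            have t484 : (v11) ^ 1 * (2 * a20 * l2 + b11 * u11 - 2 * b11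
                * l2) = 0 := by linear_combination r200
            have t485 := (mul_eq_zero.mp t484).resolve_left (pow_ne_zero 1 h52)
            have r204 : 2 * a20 * l2 + b11 * u11 - 2 * b11 * l2 = 0 := by linear_combination t485
            have n205 : b11 ^ 2 ≠ 0 := by
              intro h0
              have t486 : (a20) ^ 1 * ((c02)) = 0 := by linear_combination h0 + r43
              have t487 := (mul_eq_zero.mp t486).resolve_left (pow_ne_zero 1 n1)
              exact n2 (by linear_combination t487)
            have n206 : 2 * a20 ^ 2 * v11 - 2 * a20 * b11 * v11 ≠ 0 := by
              intro h0
              have t488 : (a20 - b11) ^ 1 * ((a20 * v11 - 2 * a20 * l1 + b11 * v11 + 2 * b11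
                  * l1)) = 0 := by linear_combination (1 / 2) * h0 + (-a20 + b11) * r197
              have t489 := (mul_eq_zero.mp t488).resolve_left (pow_ne_zero 1 h191)
              exact n189 (by linear_combination t489)
            have n207 : b11 ^ 2 ≠ 0 := by
              intro h0
              have t490 : (a20) ^ 1 * ((c02)) = 0 := by linear_combination h0 + r43
              have t491 := (mul_eq_zero.mp t490).resolve_left (pow_ne_zero 1 n1)
              exact n2 (by linear_combination t491)
            have n208 : 2 * a20 ^ 2 * v11 - 2 * a20 * b11 * v11 ≠ 0 := by
              intro h0
              have t492 : (a20 - b11) ^ 1 * ((a20 * v11 - 2 * a20 * l1 + b11 * v11 + 2 * b11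
                  * l1)) = 0 := by linear_combination (1 / 2) * h0 + (-a20 + b11) * r197
              have t493 := (mul_eq_zero.mp t492).resolve_left (pow_ne_zero 1 h191)
              exact n189 (by linear_combination t493)
            have t494 : (a20 - b11) ^ 3 * (u11) = 0 := by linear_combination (a20 ^ 2 - a20
                * b11) * e1_2_2 + (-a20 * u11 + b11 * u11) * r43 + (-1 / 2 * a20 ^ 2 + 1 / 2
                * a20 * b11) * r204
            have t495 := (mul_eq_zero.mp t494).resolve_left (pow_ne_zero 3 h191)
            have t496 : 0 = u11 := by linear_combination (-1) * t495
            subst t496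
            have t497 : (a20 - b11) ^ 1 * (l2) = 0 := by linear_combination (1 / 2) * r204
            have t498 := (mul_eq_zero.mp t497).resolve_left (pow_ne_zero 1 h191)
            have t499 : 0 = l2 := by linear_combination (-1) * t498
            subst t499
            have n209 : b11 ^ 2 ≠ 0 := by
              intro h0
              have t500 : (a20) ^ 1 * ((c02)) = 0 := by linear_combination h0 + r43
              have t501 := (mul_eq_zero.mp t500).resolve_left (pow_ne_zero 1 n1)
              exact n2 (by linear_combination t501)
            have n210 : 2 * a20 ^ 2 * v11 - 2 * a20 * b11 * v11 ≠ 0 := by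
              intro h0
              have t502 : (a20 - b11) ^ 1 * ((a20 * v11 - 2 * a20 * l1 + b11 * v11 + 2 * b11
                  * l1)) = 0 := by linear_combination (1 / 2) * h0 + (-a20 + b11) * r197
              have t503 := (mul_eq_zero.mp t502).resolve_left (pow_ne_zero 1 h191)
              exact n189 (by linear_combination t503)
            have n211 : b11 ^ 2 ≠ 0 := by
              intro h0
              have t504 : (a20) ^ 1 * ((c02)) = 0 := by linear_combination h0 + r43
              have t505 := (mul_eq_zero.mp t504).resolve_left (pow_ne_zero 1 n1)
              exact n2 (by linear_combination t505)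
            have n212 : 2 * a20 ^ 2 * v11 - 2 * a20 * b11 * v11 ≠ 0 := by
              intro h0
              have t506 : (a20 - b11) ^ 1 * ((a20 * v11 - 2 * a20 * l1 + b11 * v11 + 2 * b11
                  * l1)) = 0 := by linear_combination (1 / 2) * h0 + (-a20 + b11) * r197
              have t507 := (mul_eq_zero.mp t506).resolve_left (pow_ne_zero 1 h191)
              exact n189 (by linear_combination t507)
            have t508 : (b11) ^ 1 * ((a20 - b11) ^ 1
                * (q11)) = 0 := by linear_combination (-a20) * e1_3_2 + (q11) * r43
            have t509 := (mul_eq_zero.mp t508).resolve_left (pow_ne_zero 1 n46)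
            have t510 := (mul_eq_zero.mp t509).resolve_left (pow_ne_zero 1 h191)
            have t511 : 0 = q11 := by linear_combination (-1) * t510
            subst t511
            have n213 : b11 ^ 2 ≠ 0 := by
              intro h0
              have t512 : (a20) ^ 1 * ((c02)) = 0 := by linear_combination h0 + r43
              have t513 := (mul_eq_zero.mp t512).resolve_left (pow_ne_zero 1 n1)
              exact n2 (by linear_combination t513)
            have n214 : 2 * a20 ^ 2 * v11 - 2 * a20 * b11 * v11 ≠ 0 := by
              intro h0
              have t514 : (a20 - b11) ^ 1 * ((a20 * v11 - 2 * a20 * l1 + b11 * v11 + 2 * b11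
                  * l1)) = 0 := by linear_combination (1 / 2) * h0 + (-a20 + b11) * r197
              have t515 := (mul_eq_zero.mp t514).resolve_left (pow_ne_zero 1 h191)
              exact n189 (by linear_combination t515)
            have r215 : 4 * a20 ^ 2 * q20 - 8 * a20 * b11 * q20 + a20 * v11 ^ 2 + 4 * b11 ^ 2
                * q20 = 0 := by linear_combination (-4 * a20 + 4 * b11) * e1_4_1 + (-v11) * r197
            by_cases h216 : q02 = 0
            · have t516 : 0 = q02 := by linear_combination (-1) * h216
              subst t516
              have n217 : b11 ^ 2 ≠ 0 := by
                intro h0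
                have t517 : (a20) ^ 1 * ((c02)) = 0 := by linear_combination h0 + r43
                have t518 := (mul_eq_zero.mp t517).resolve_left (pow_ne_zero 1 n1)
                exact n2 (by linear_combination t518)
              have n218 : 2 * a20 ^ 2 * v11 - 2 * a20 * b11 * v11 ≠ 0 := by
                intro h0
                have t519 : (a20 - b11) ^ 1 * ((a20 * v11 - 2 * a20 * l1 + b11 * v11 + 2 * b11
                    * l1)) = 0 := by linear_combination (1 / 2) * h0 + (-a20 + b11) * r197
                have t520 := (mul_eq_zero.mp t519).resolve_left (pow_ne_zero 1 h191)
                exact n189 (by linear_combination t520)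
              exfalso
              have t521 : (a20) ^ 2 * ((v11) ^ 1 * ((a20 - b11) ^ 1
                  * (1))) = 0 := by linear_combination (-a20) * f_3_2 + (-a20 * v11 - 2 * a20
                  * l1) * r43
              have t522 := (mul_eq_zero.mp t521).resolve_left (pow_ne_zero 2 n1)
              have t523 := (mul_eq_zero.mp t522).resolve_left (pow_ne_zero 1 h52)
              have t524 := (mul_eq_zero.mp t523).resolve_left (pow_ne_zero 1 h191)
              exact absurd t524 (by norm_num)
            · have t525 : (a20 - b11) ^ 1 * ((q02) ^ 1 * (a20 - 2
                  * b11)) = 0 := by linear_combination (a20) * e1_2_3 + (-2 * q02) * r43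
              have t526 := (mul_eq_zero.mp t525).resolve_left (pow_ne_zero 1 h191)
              have t527 := (mul_eq_zero.mp t526).resolve_left (pow_ne_zero 1 h216)
              have t528 : 1 / 2 * a20 = b11 := by linear_combination (1 / 2) * t527
              subst t528
              have n219 : 3 * v11 - 2 * l1 ≠ 0 := fun h0 => n189 (by linear_combination (1 / 2
                  * a20) * h0)
              have t529 : (a20) ^ 1 * (-1 / 4 * a20 + c02) = 0 := by linear_combination r43
              have t530 := (mul_eq_zero.mp t529).resolve_left (pow_ne_zero 1 n1)
              have r220 : -1 / 4 * a20 + c02 = 0 := by linear_combination t530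
              have t531 : 1 / 4 * a20 = c02 := by linear_combination (-1) * r220
              subst t531
              have t532 : (a20) ^ 1 * (-1 / 2 * v11 + l1) = 0 := by linear_combination r197
              have t533 := (mul_eq_zero.mp t532).resolve_left (pow_ne_zero 1 n1)
              have r221 : -1 / 2 * v11 + l1 = 0 := by linear_combination t533
              have t534 : 1 / 2 * v11 = l1 := by linear_combination (-1) * r221
              subst t534
              have t535 : (a20) ^ 1 * (a20 * q20 + v11 ^ 2) = 0 := by linear_combination r215
              have t536 := (mul_eq_zero.mp t535).resolve_left (pow_ne_zero 1 n1)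
              have r222 : a20 * q20 + v11 ^ 2 = 0 := by linear_combination t536
              exfalso
              have t537 : (a20) ^ 2 * ((v11) ^ 1 * (1)) = 0 := by linear_combination (-2) * f_3_2
              have t538 := (mul_eq_zero.mp t537).resolve_left (pow_ne_zero 2 n1)
              have t539 := (mul_eq_zero.mp t538).resolve_left (pow_ne_zero 1 h52)
              exact absurd t539 (by norm_num)
      · have t540 : (u02) ^ 1 * (a20 * b11 + a20 * s12 + 2
            * b11 ^ 2) = 0 := by linear_combination (2 * a20) * e2_0_4 + (-2 * u02) * r43
        have t541 := (mul_eq_zero.mp t540).resolve_left (pow_ne_zero 1 h50)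
        have r223 : a20 * b11 + a20 * s12 + 2 * b11 ^ 2 = 0 := by linear_combination t541
        have r224 : -3 * a20 * b11 ^ 2 + a20 * b11 * s21 = 0 := by linear_combination (a20)
            * r47 + (-a20) * r223
        have n225 : -2 * b11 ^ 2 ≠ 0 := by
          intro h0
          have t542 : (a20) ^ 1 * ((b11 + s12)) = 0 := by linear_combination h0 + r223
          have t543 := (mul_eq_zero.mp t542).resolve_left (pow_ne_zero 1 n1)
          exact h4 (by linear_combination t543)
        have t544 : (a20) ^ 1 * ((b11) ^ 1 * (-3 * b11 + s21)) = 0 := by linear_combination r224
        have t545 := (mul_eq_zero.mp t544).resolve_left (pow_ne_zero 1 n1)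
        have t546 := (mul_eq_zero.mp t545).resolve_left (pow_ne_zero 1 n46)
        have r226 : -3 * b11 + s21 = 0 := by linear_combination t546
        have t547 : 3 * b11 = s21 := by linear_combination (-1) * r226
        subst t547
        have n227 : b11 ^ 2 ≠ 0 := by
          intro h0
          have t548 : (a20) ^ 1 * ((c02)) = 0 := by linear_combination h0 + r43
          have t549 := (mul_eq_zero.mp t548).resolve_left (pow_ne_zero 1 n1)
          exact n2 (by linear_combination t549)
        have n228 : -2 * b11 ^ 2 ≠ 0 := by
          intro h0
          have t550 : (a20) ^ 1 * ((b11 + s12)) = 0 := by linear_combination h0 + r223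
          have t551 := (mul_eq_zero.mp t550).resolve_left (pow_ne_zero 1 n1)
          exact h4 (by linear_combination t551)
        have t552 : (a20) ^ 2 * ((u02) ^ 1 * (a20
            - b11)) = 0 := by linear_combination (a20 ^ 2) * e1_1_3 + (-2 * a20 * u02) * r43
            + (-a20 * u02) * r223
        have t553 := (mul_eq_zero.mp t552).resolve_left (pow_ne_zero 2 n1)
        have t554 := (mul_eq_zero.mp t553).resolve_left (pow_ne_zero 1 h50)
        have t555 : a20 = b11 := by linear_combination (1) * t554
        subst t555
        have n229 : a20 + s12 ≠ 0 := fun h0 => h4 (by linear_combination (1) * h0)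
        have t556 : (a20) ^ 1 * (-a20 + c02) = 0 := by linear_combination r43
        have t557 := (mul_eq_zero.mp t556).resolve_left (pow_ne_zero 1 n1)
        have r230 : -a20 + c02 = 0 := by linear_combination t557
        have t558 : a20 = c02 := by linear_combination (-1) * r230
        subst t558
        have t559 : (a20) ^ 1 * (3 * a20 + s12) = 0 := by linear_combination r223
        have t560 := (mul_eq_zero.mp t559).resolve_left (pow_ne_zero 1 n1)
        have r231 : 3 * a20 + s12 = 0 := by linear_combination t560
        have t561 : -3 * a20 = s12 := by linear_combination (-1) * r231
        subst t561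
        have t562 : (u02) ^ 1 * (u11 + 2 * l2) = 0 := by linear_combination (4) * e1_1_4
        have t563 := (mul_eq_zero.mp t562).resolve_left (pow_ne_zero 1 h50)
        have t564 : -1 / 2 * u11 = l2 := by linear_combination (-1 / 2) * t563
        subst t564
        have t565 : (u02) ^ 1 * (v11 + 2 * l1) = 0 := by linear_combination (4) * e1_2_3
        have t566 := (mul_eq_zero.mp t565).resolve_left (pow_ne_zero 1 h50)
        have t567 : -1 / 2 * v11 = l1 := by linear_combination (-1 / 2) * t566
        subst t567
        exfalso
        have t568 : (a20) ^ 1 * ((u02) ^ 2 * (1)) = 0 := by linear_combination f_0_6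
        have t569 := (mul_eq_zero.mp t568).resolve_left (pow_ne_zero 1 n1)
        have t570 := (mul_eq_zero.mp t569).resolve_left (pow_ne_zero 2 h50)
        exact absurd t570 (by norm_num)
    · have t571 : (a20) ^ 1 * ((v20) ^ 1 * (3 * b11 + s12)) = 0 := by linear_combination (-2
          * b11) * e1_4_0 + (v20) * r47
      have t572 := (mul_eq_zero.mp t571).resolve_left (pow_ne_zero 1 n1)
      have t573 := (mul_eq_zero.mp t572).resolve_left (pow_ne_zero 1 h48)
      have t574 : -3 * b11 = s12 := by linear_combination (-1) * t573
      subst t574
      have t575 : (b11) ^ 1 * (-2 * a20 - b11 + s21) = 0 := by linear_combination r47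
      have t576 := (mul_eq_zero.mp t575).resolve_left (pow_ne_zero 1 n46)
      have r232 : -2 * a20 - b11 + s21 = 0 := by linear_combination t576
      have t577 : 2 * a20 + b11 = s21 := by linear_combination (-1) * r232
      subst t577
      have n233 : b11 ^ 2 ≠ 0 := by
        intro h0
        have t578 : (a20) ^ 1 * ((c02)) = 0 := by linear_combination h0 + r43
        have t579 := (mul_eq_zero.mp t578).resolve_left (pow_ne_zero 1 n1)
        exact n2 (by linear_combination t579)
      have n234 : b11 ^ 2 ≠ 0 := by
        intro h0
        have t580 : (a20) ^ 1 * ((c02)) = 0 := by linear_combination h0 + r43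
        have t581 := (mul_eq_zero.mp t580).resolve_left (pow_ne_zero 1 n1)
        exact n2 (by linear_combination t581)
      have t582 : (b11) ^ 1 * ((v20) ^ 1 * (a20 - b11)) = 0 := by linear_combination (a20)
          * e2_3_1 + (v20) * r43
      have t583 := (mul_eq_zero.mp t582).resolve_left (pow_ne_zero 1 n46)
      have t584 := (mul_eq_zero.mp t583).resolve_left (pow_ne_zero 1 h48)
      have t585 : a20 = b11 := by linear_combination (1) * t584
      subst t585
      have t586 : (a20) ^ 1 * (-a20 + c02) = 0 := by linear_combination r43
      have t587 := (mul_eq_zero.mp t586).resolve_left (pow_ne_zero 1 n1)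
      have r235 : -a20 + c02 = 0 := by linear_combination t587
      have t588 : a20 = c02 := by linear_combination (-1) * r235
      subst t588
      have t589 : (v20) ^ 1 * (v11 + 2 * l1) = 0 := by linear_combination (-4) * e1_5_0
      have t590 := (mul_eq_zero.mp t589).resolve_left (pow_ne_zero 1 h48)
      have t591 : -1 / 2 * v11 = l1 := by linear_combination (-1 / 2) * t590
      subst t591
      have t592 : (v20) ^ 1 * (u11 + 2 * l2) = 0 := by linear_combination (-4) * e1_4_1
      have t593 := (mul_eq_zero.mp t592).resolve_left (pow_ne_zero 1 h48)
      have t594 : -1 / 2 * u11 = l2 := by linear_combination (-1 / 2) * t593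
      subst t594
      exfalso
      have t595 : (a20) ^ 1 * ((v20) ^ 2 * (1)) = 0 := by linear_combination f_6_0
      have t596 := (mul_eq_zero.mp t595).resolve_left (pow_ne_zero 1 n1)
      have t597 := (mul_eq_zero.mp t596).resolve_left (pow_ne_zero 2 h48)
      exact absurd t597 (by norm_num)

end Pool.Agent.H38.FM
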