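import Mathlib

/-!
# Elimination tree `A2` (generated)
-/

set_option linter.unusedVariables false
set_option linter.style.longLine false

noncomputable section

namespace Pool.Agent.H38.FM

theorem tree_A2
    (a20 b11 u02 v20 v11 v02 q20 q11 q02 s1 s2 s11 s12 s21 s22 l1 l2 : ℂ)
    (e1_2_0 : a20 * s1 = 0)
    (e1_1_1 : b11 * s2 = 0)
    (e1_3_0 : a20 * s11 + 1 / 2 * v20 * s2 = 0)
    (e1_2_1 : a20 * b11 + a20 * s12 - b11 ^ 2 + b11 * s21 + 1 / 2 * v11 * s2 = 0)
    (e1_1_2 : b11 * s22 + u02 * s1 + 1 / 2 * v02 * s2 = 0)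
    (e1_4_0 : -a20 * v20 - 1 / 2 * b11 * v20 + 1 / 2 * v20 * s21 + q20 * s1 = 0)
    (e1_3_1 : -1 / 2 * a20 * v11 + a20 * l1 - b11 * v11 - b11 * l1 + 1 / 2 * v20 * s22 + 1 / 2
        * v11 * s21 + q20 * s2 + q11 * s1 = 0)
    (e1_2_2 : a20 * l2 - 3 / 2 * b11 * v02 - b11 * l2 + u02 * s11 + 1 / 2 * v11 * s22 + 1 / 2
        * v02 * s21 + q11 * s2 + q02 * s1 = 0)
    (e1_1_3 : a20 * u02 - 3 / 2 * b11 * u02 + u02 * s12 + 1 / 2 * u02 * s21 + 1 / 2 * v02 * s22
        + q02 * s2 = 0)
    (e1_4_1 : -2 * a20 * q20 + 2 * b11 * q20 - 1 / 2 * v20 * v02 - 1 / 2 * v20 * l2 - 1 / 4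
        * v11 ^ 2 - 1 / 2 * v11 * l1 + q20 * s12 + q20 * s21 + q11 * s11 = 0)
    (e1_3_2 : -a20 * q11 - 3 / 4 * v11 * v02 - 1 / 2 * v11 * l2 - 1 / 2 * v02 * l1 + q20 * s22
        + q11 * s12 + q11 * s21 + q02 * s11 = 0)
    (e1_2_3 : -2 * b11 * q02 + 1 / 4 * u02 * v11 + 1 / 2 * u02 * l1 - 1 / 2 * v02 ^ 2 - 1 / 2
        * v02 * l2 + q11 * s22 + q02 * s12 + q02 * s21 = 0)
    (e1_1_4 : 1 / 2 * u02 * v02 + 1 / 2 * u02 * l2 + q02 * s22 = 0)
    (e2_1_2 : b11 ^ 2 + b11 * s12 + v11 * s2 + 1 / 2 * v02 * s1 = 0)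
    (e2_2_2 : -a20 * v11 + b11 * l1 + v20 * s22 + 1 / 2 * v11 * s12 + v11 * s21 + 1 / 2 * v02
        * s11 + q20 * s2 + q11 * s1 = 0)
    (e2_1_3 : -3 / 2 * b11 * v02 + b11 * l2 + 1 / 2 * u02 * s11 + v11 * s22 + 1 / 2 * v02 * s12
        + v02 * s21 + q11 * s2 + q02 * s1 = 0)
    (f_3_2 : a20 * b11 * v11 - 4 * a20 * v20 * s22 - a20 * v11 * s21 + 3 * a20 * v02 * s11 - 4
        * a20 * q20 * s2 + 3 * a20 * q11 * s1 + 2 * b11 ^ 2 * l1 + 4 * b11 * v20 * s22 + b11
        * v11 * s21 - 3 * b11 * v02 * s11 + 8 * b11 * q20 * s2 - 6 * b11 * q11 * s1 + 3 / 2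
        * u02 * v20 * s1 + 2 * v20 * v02 * s2 + v11 ^ 2 * s2 - 3 / 2 * v11 * v02 * s1 = 0)
    (f_2_3 : a20 * b11 * v02 - 3 * a20 * v11 * s22 + a20 * v02 * s12 - 3 * a20 * q11 * s2 + 4
        * a20 * q02 * s1 - b11 ^ 2 * v02 + 2 * b11 ^ 2 * l2 - 4 * b11 * u02 * s11 + 3 * b11
        * v11 * s22 - b11 * v02 * s12 + 6 * b11 * q11 * s2 - 8 * b11 * q02 * s1 - 3 / 2 * u02
        * v20 * s2 + 2 * u02 * v11 * s1 + 3 / 2 * v11 * v02 * s2 - v02 ^ 2 * s1 = 0)
    (f_1_4 : -2 * a20 * v02 * s22 - 2 * a20 * q02 * s2 + b11 ^ 2 * u02 - 2 * b11 * u02 * s12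
        - b11 * u02 * s21 + 2 * b11 * v02 * s22 + 4 * b11 * q02 * s2 - u02 * v11 * s2 + 5 / 2
        * u02 * v02 * s1 + 1 / 2 * v02 ^ 2 * s2 = 0)
    (n1 : a20 ≠ 0)
    (n2 : b11 ≠ 0)
    (hD : ∃ x y : ℂ, (x ^ 4 * q20 + x ^ 3 * y * q11 + x ^ 2 * y ^ 2 * q02 + x * y ^ 2 * u02
        + x ^ 2 * a20) * (x ^ 2 * y ^ 2 * q20 + x * y ^ 3 * q11 + y ^ 4 * q02 + x ^ 2 * y * v20
        + x * y ^ 2 * v11 + y ^ 3 * v02) - (x ^ 3 * y * q20 + x ^ 2 * y ^ 2 * q11 + x * y ^ 3
        * q02 + 1 / 2 * x ^ 3 * v20 + 1 / 2 * x ^ 2 * y * v11 + 1 / 2 * x * y ^ 2 * v02 + 1 / 2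
        * y ^ 3 * u02 + x * y * b11) ^ 2 ≠ 0) :
    ((u02 = 0) ∧ (v20 = 0) ∧ (v11 = 0) ∧ (v02 = 0) ∧ (q20 = 0) ∧ (q11 = 0) ∧ (q02 = 0) ∧ (a20 ≠ 0) ∧ (b11 ≠ 0)) ∨
    ((b11 = a20) ∧ (u02 = 0) ∧ (v20 = 0) ∧ (v11 = 0) ∧ (v02 = 0) ∧ (q11 = 0) ∧ (q02 = 0) ∧ (a20 ≠ 0) ∧ (q20 ≠ 0)) := by
  have t1 : (b11) ^ 1 * (s2) = 0 := by linear_combination e1_1_1
  have t2 := (mul_eq_zero.mp t1).resolve_left (pow_ne_zero 1 n2)
  have t3 : 0 = s2 := by linear_combination (-1) * t2
  subst t3
  have t4 : (a20) ^ 1 * (s1) = 0 := by linear_combination e1_2_0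
  have t5 := (mul_eq_zero.mp t4).resolve_left (pow_ne_zero 1 n1)
  have t6 : 0 = s1 := by linear_combination (-1) * t5
  subst t6
  have t7 : (b11) ^ 1 * (s22) = 0 := by linear_combination e1_1_2
  have t8 := (mul_eq_zero.mp t7).resolve_left (pow_ne_zero 1 n2)
  have t9 : 0 = s22 := by linear_combination (-1) * t8
  subst t9
  have t10 : (a20) ^ 1 * (s11) = 0 := by linear_combination e1_3_0
  have t11 := (mul_eq_zero.mp t10).resolve_left (pow_ne_zero 1 n1)
  have t12 : 0 = s11 := by linear_combination (-1) * t11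
  subst t12
  have t13 : (b11) ^ 1 * (b11 + s12) = 0 := by linear_combination e2_1_2
  have t14 := (mul_eq_zero.mp t13).resolve_left (pow_ne_zero 1 n2)
  have t15 : -b11 = s12 := by linear_combination (-1) * t14
  subst t15
  have t16 : (b11) ^ 1 * (b11 - s21) = 0 := by linear_combination (-1) * e1_2_1
  have t17 := (mul_eq_zero.mp t16).resolve_left (pow_ne_zero 1 n2)
  have t18 : b11 = s21 := by linear_combination (1) * t17
  subst t18
  have t19 : (a20) ^ 1 * (v20) = 0 := by linear_combination (-1) * e1_4_0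
  have t20 := (mul_eq_zero.mp t19).resolve_left (pow_ne_zero 1 n1)
  have t21 : 0 = v20 := by linear_combination (-1) * t20
  subst t21
  have t22 : (b11) ^ 1 * (v02 - l2) = 0 := by linear_combination (-1) * e2_1_3
  have t23 := (mul_eq_zero.mp t22).resolve_left (pow_ne_zero 1 n2)
  have t24 : v02 = l2 := by linear_combination (1) * t23
  subst t24
  have r3 : 2 * a20 * v11 - b11 * v11 - 2 * b11 * l1 = 0 := by linear_combination (-2) * e2_2_2
  by_cases h4 : v11 = 0
  · have t25 : 0 = v11 := by linear_combination (-1) * h4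
    subst t25
    have t26 : (b11) ^ 1 * (l1) = 0 := by linear_combination (-1 / 2) * r3
    have t27 := (mul_eq_zero.mp t26).resolve_left (pow_ne_zero 1 n2)
    have t28 : 0 = l1 := by linear_combination (-1) * t27
    subst t28
    by_cases h5 : v02 = 0
    · have t29 : 0 = v02 := by linear_combination (-1) * h5
      subst t29
      by_cases h6 : u02 = 0
      · have t30 : 0 = u02 := by linear_combination (-1) * h6
        subst t30
        have t31 : (b11) ^ 1 * (q02) = 0 := by linear_combination (-1 / 2) * e1_2_3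
        have t32 := (mul_eq_zero.mp t31).resolve_left (pow_ne_zero 1 n2)
        have t33 : 0 = q02 := by linear_combination (-1) * t32
        subst t33
        have t34 : (a20) ^ 1 * (q11) = 0 := by linear_combination (-1) * e1_3_2
        have t35 := (mul_eq_zero.mp t34).resolve_left (pow_ne_zero 1 n1)
        have t36 : 0 = q11 := by linear_combination (-1) * t35
        subst t36
        by_cases h7 : q20 = 0
        · have t37 : 0 = q20 := by linear_combination (-1) * h7
          subst t37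
          exact Or.inl ⟨by ring, by ring, by ring, by ring, by ring, by ring, by ring, n1, n2⟩
        · have t38 : (q20) ^ 1 * (a20 - b11) = 0 := by linear_combination (-1 / 2) * e1_4_1
          have t39 := (mul_eq_zero.mp t38).resolve_left (pow_ne_zero 1 h7)
          have t40 : a20 = b11 := by linear_combination (1) * t39
          subst t40
          exact Or.inr (⟨by ring, by ring, by ring, by ring, by ring, by ring, by ring, n1, h7⟩)
      · have t41 : (u02) ^ 1 * (a20 - 2 * b11) = 0 := by linear_combination e1_1_3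
        have t42 := (mul_eq_zero.mp t41).resolve_left (pow_ne_zero 1 h6)
        have t43 : 1 / 2 * a20 = b11 := by linear_combination (1 / 2) * t42
        subst t43
        have t44 : (a20) ^ 1 * (q02) = 0 := by linear_combination (-1) * e1_2_3
        have t45 := (mul_eq_zero.mp t44).resolve_left (pow_ne_zero 1 n1)
        have t46 : 0 = q02 := by linear_combination (-1) * t45
        subst t46
        have t47 : (a20) ^ 1 * (q11) = 0 := by linear_combination (-1) * e1_3_2
        have t48 := (mul_eq_zero.mp t47).resolve_left (pow_ne_zero 1 n1)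
        have t49 : 0 = q11 := by linear_combination (-1) * t48
        subst t49
        have t50 : (a20) ^ 1 * (q20) = 0 := by linear_combination (-1) * e1_4_1
        have t51 := (mul_eq_zero.mp t50).resolve_left (pow_ne_zero 1 n1)
        have t52 : 0 = q20 := by linear_combination (-1) * t51
        subst t52
        exfalso
        have t53 : (a20) ^ 2 * ((u02) ^ 1 * (1)) = 0 := by linear_combination (2) * f_1_4
        have t54 := (mul_eq_zero.mp t53).resolve_left (pow_ne_zero 2 n1)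
        have t55 := (mul_eq_zero.mp t54).resolve_left (pow_ne_zero 1 h6)
        exact absurd t55 (by norm_num)
    · have t56 : (v02) ^ 1 * (a20 - 2 * b11) = 0 := by linear_combination e1_2_2
      have t57 := (mul_eq_zero.mp t56).resolve_left (pow_ne_zero 1 h5)
      have t58 : 1 / 2 * a20 = b11 := by linear_combination (1 / 2) * t57
      subst t58
      have t59 : (a20) ^ 1 * (q11) = 0 := by linear_combination (-1) * e1_3_2
      have t60 := (mul_eq_zero.mp t59).resolve_left (pow_ne_zero 1 n1)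
      have t61 : 0 = q11 := by linear_combination (-1) * t60
      subst t61
      have t62 : (a20) ^ 1 * (q20) = 0 := by linear_combination (-1) * e1_4_1
      have t63 := (mul_eq_zero.mp t62).resolve_left (pow_ne_zero 1 n1)
      have t64 : 0 = q20 := by linear_combination (-1) * t63
      subst t64
      have t65 : (v02) ^ 1 * (u02) = 0 := by linear_combination e1_1_4
      have t66 := (mul_eq_zero.mp t65).resolve_left (pow_ne_zero 1 h5)
      have t67 : 0 = u02 := by linear_combination (-1) * t66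
      subst t67
      have r8 : a20 * q02 + v02 ^ 2 = 0 := by linear_combination (-1) * e1_2_3
      exfalso
      have t68 : (a20) ^ 2 * ((v02) ^ 1 * (1)) = 0 := by linear_combination (2) * f_2_3
      have t69 := (mul_eq_zero.mp t68).resolve_left (pow_ne_zero 2 n1)
      have t70 := (mul_eq_zero.mp t69).resolve_left (pow_ne_zero 1 h5)
      exact absurd t70 (by norm_num)
  · have t71 : (a20) ^ 1 * ((v11) ^ 1 * (a20 - 2 * b11)) = 0 := by linear_combination (b11)
        * e1_3_1 + (1 / 2 * a20 - 1 / 2 * b11) * r3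
    have t72 := (mul_eq_zero.mp t71).resolve_left (pow_ne_zero 1 n1)
    have t73 := (mul_eq_zero.mp t72).resolve_left (pow_ne_zero 1 h4)
    have t74 : 1 / 2 * a20 = b11 := by linear_combination (1 / 2) * t73
    subst t74
    have t75 : (a20) ^ 1 * (3 / 2 * v11 - l1) = 0 := by linear_combination r3
    have t76 := (mul_eq_zero.mp t75).resolve_left (pow_ne_zero 1 n1)
    have r9 : 3 / 2 * v11 - l1 = 0 := by linear_combination t76
    have t77 : 3 / 2 * v11 = l1 := by linear_combination r9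
    subst t77
    have r10 : a20 * q11 + 2 * v11 * v02 = 0 := by linear_combination (-1) * e1_3_2
    have r11 : a20 * q20 + v11 ^ 2 = 0 := by linear_combination (-1) * e1_4_1
    have r12 : a20 * q02 - u02 * v11 + v02 ^ 2 = 0 := by linear_combination (-1) * e1_2_3
    by_cases h13 : u02 = 0
    · have t78 : 0 = u02 := by linear_combination (-1) * h13
      subst t78
      exfalso
      have t79 : (a20) ^ 2 * ((v11) ^ 1 * (1)) = 0 := by linear_combination f_3_2
      have t80 := (mul_eq_zero.mp t79).resolve_left (pow_ne_zero 2 n1)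
      have t81 := (mul_eq_zero.mp t80).resolve_left (pow_ne_zero 1 h4)
      exact absurd t81 (by norm_num)
    · have t82 : (u02) ^ 1 * (v02) = 0 := by linear_combination e1_1_4
      have t83 := (mul_eq_zero.mp t82).resolve_left (pow_ne_zero 1 h13)
      have t84 : 0 = v02 := by linear_combination (-1) * t83
      subst t84
      have t85 : (a20) ^ 1 * (q11) = 0 := by linear_combination r10
      have t86 := (mul_eq_zero.mp t85).resolve_left (pow_ne_zero 1 n1)
      have t87 : 0 = q11 := by linear_combination (-1) * t86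
      subst t87
      exfalso
      have t88 : (a20) ^ 2 * ((v11) ^ 1 * (1)) = 0 := by linear_combination f_3_2
      have t89 := (mul_eq_zero.mp t88).resolve_left (pow_ne_zero 2 n1)
      have t90 := (mul_eq_zero.mp t89).resolve_left (pow_ne_zero 1 h4)
      exact absurd t90 (by norm_num)

end Pool.Agent.H38.FM
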