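import Mathlib

/-!
# Elimination tree `A5` (generated)
-/

set_option linter.unusedVariables false
set_option linter.style.longLine false

noncomputable section

namespace Pool.Agent.H38.FM

theorem tree_A5
    (b11 u20 u02 v20 v02 q20 q11 q02 s1 s2 s11 s12 s21 s22 l1 l2 : ℂ)
    (e1_1_1 : b11 * s2 = 0)
    (e1_2_1 : -b11 ^ 2 + b11 * s21 + 1 / 2 * u20 * s2 = 0)
    (e1_1_2 : b11 * s22 + u02 * s1 + 1 / 2 * v02 * s2 = 0)
    (e1_3_1 : 3 / 2 * b11 * u20 - b11 * l1 + u20 * s12 + 1 / 2 * u20 * s21 + 1 / 2 * v20 * s22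
        + q20 * s2 + q11 * s1 = 0)
    (e1_2_2 : -3 / 2 * b11 * v02 - b11 * l2 + 1 / 2 * u20 * s22 + u02 * s11 + 1 / 2 * v02 * s21
        + q11 * s2 + q02 * s1 = 0)
    (e1_1_3 : -3 / 2 * b11 * u02 + u02 * s12 + 1 / 2 * u02 * s21 + 1 / 2 * v02 * s22 + q02 * s2 = 0)
    (e1_4_1 : 2 * b11 * q20 + 1 / 2 * u20 ^ 2 + 1 / 2 * u20 * l1 - 1 / 2 * v20 * v02 - 1 / 2
        * v20 * l2 + q20 * s12 + q20 * s21 + q11 * s11 = 0)
    (e1_2_3 : -2 * b11 * q02 + 1 / 2 * u20 * u02 + 1 / 2 * u02 * l1 - 1 / 2 * v02 ^ 2 - 1 / 2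
        * v02 * l2 + q11 * s22 + q02 * s12 + q02 * s21 = 0)
    (e2_1_1 : b11 * s1 = 0)
    (e2_2_1 : b11 * s11 + 1 / 2 * u20 * s1 + v20 * s2 = 0)
    (e2_1_2 : b11 ^ 2 + b11 * s12 + 1 / 2 * v02 * s1 = 0)
    (e2_3_1 : 3 / 2 * b11 * v20 + 1 / 2 * u20 * s11 + 1 / 2 * v20 * s12 + v20 * s21 + q20 * s1 = 0)
    (e2_2_2 : 3 / 2 * b11 * u20 + b11 * l1 + 1 / 2 * u20 * s12 + v20 * s22 + 1 / 2 * v02 * s11
        + q20 * s2 + q11 * s1 = 0)
    (e2_1_3 : -3 / 2 * b11 * v02 + b11 * l2 + 1 / 2 * u02 * s11 + 1 / 2 * v02 * s12 + v02 * s21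
        + q11 * s2 + q02 * s1 = 0)
    (n1 : b11 ≠ 0)
    (hD : ∃ x y : ℂ, (x ^ 4 * q20 + x ^ 3 * y * q11 + x ^ 2 * y ^ 2 * q02 + x ^ 3 * u20 + x
        * y ^ 2 * u02) * (x ^ 2 * y ^ 2 * q20 + x * y ^ 3 * q11 + y ^ 4 * q02 + x ^ 2 * y * v20
        + y ^ 3 * v02) - (x ^ 3 * y * q20 + x ^ 2 * y ^ 2 * q11 + x * y ^ 3 * q02 + 1 / 2
        * x ^ 3 * v20 + 1 / 2 * x ^ 2 * y * u20 + 1 / 2 * x * y ^ 2 * v02 + 1 / 2 * y ^ 3 * u02
        + x * y * b11) ^ 2 ≠ 0) :
    ((u20 = 0) ∧ (u02 = 0) ∧ (v20 = 0) ∧ (v02 = 0) ∧ (q20 = 0) ∧ (q02 = 0) ∧ (b11 ≠ 0)) := by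
  have t1 : (b11) ^ 1 * (s2) = 0 := by linear_combination e1_1_1
  have t2 := (mul_eq_zero.mp t1).resolve_left (pow_ne_zero 1 n1)
  have t3 : 0 = s2 := by linear_combination (-1) * t2
  subst t3
  have t4 : (b11) ^ 1 * (s1) = 0 := by linear_combination e2_1_1
  have t5 := (mul_eq_zero.mp t4).resolve_left (pow_ne_zero 1 n1)
  have t6 : 0 = s1 := by linear_combination (-1) * t5
  subst t6
  have t7 : (b11) ^ 1 * (s22) = 0 := by linear_combination e1_1_2
  have t8 := (mul_eq_zero.mp t7).resolve_left (pow_ne_zero 1 n1)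
  have t9 : 0 = s22 := by linear_combination (-1) * t8
  subst t9
  have t10 : (b11) ^ 1 * (s11) = 0 := by linear_combination e2_2_1
  have t11 := (mul_eq_zero.mp t10).resolve_left (pow_ne_zero 1 n1)
  have t12 : 0 = s11 := by linear_combination (-1) * t11
  subst t12
  have t13 : (b11) ^ 1 * (b11 - s21) = 0 := by linear_combination (-1) * e1_2_1
  have t14 := (mul_eq_zero.mp t13).resolve_left (pow_ne_zero 1 n1)
  have t15 : b11 = s21 := by linear_combination (1) * t14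
  subst t15
  have t16 : (b11) ^ 1 * (b11 + s12) = 0 := by linear_combination e2_1_2
  have t17 := (mul_eq_zero.mp t16).resolve_left (pow_ne_zero 1 n1)
  have t18 : -b11 = s12 := by linear_combination (-1) * t17
  subst t18
  have t19 : (b11) ^ 1 * (v20) = 0 := by linear_combination (1 / 2) * e2_3_1
  have t20 := (mul_eq_zero.mp t19).resolve_left (pow_ne_zero 1 n1)
  have t21 : 0 = v20 := by linear_combination (-1) * t20
  subst t21
  have t22 : (b11) ^ 1 * (u02) = 0 := by linear_combination (-1 / 2) * e1_1_3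
  have t23 := (mul_eq_zero.mp t22).resolve_left (pow_ne_zero 1 n1)
  have t24 : 0 = u02 := by linear_combination (-1) * t23
  subst t24
  have t25 : (b11) ^ 1 * (v02 + l2) = 0 := by linear_combination (-1) * e1_2_2
  have t26 := (mul_eq_zero.mp t25).resolve_left (pow_ne_zero 1 n1)
  have t27 : -v02 = l2 := by linear_combination (-1) * t26
  subst t27
  have t28 : (b11) ^ 1 * (v02) = 0 := by linear_combination (-1 / 2) * e2_1_3
  have t29 := (mul_eq_zero.mp t28).resolve_left (pow_ne_zero 1 n1)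
  have t30 : 0 = v02 := by linear_combination (-1) * t29
  subst t30
  have t31 : (b11) ^ 1 * (u20 - l1) = 0 := by linear_combination e1_3_1
  have t32 := (mul_eq_zero.mp t31).resolve_left (pow_ne_zero 1 n1)
  have t33 : u20 = l1 := by linear_combination (1) * t32
  subst t33
  have t34 : (b11) ^ 1 * (u20) = 0 := by linear_combination (1 / 2) * e2_2_2
  have t35 := (mul_eq_zero.mp t34).resolve_left (pow_ne_zero 1 n1)
  have t36 : 0 = u20 := by linear_combination (-1) * t35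
  subst t36
  have t37 : (b11) ^ 1 * (q02) = 0 := by linear_combination (-1 / 2) * e1_2_3
  have t38 := (mul_eq_zero.mp t37).resolve_left (pow_ne_zero 1 n1)
  have t39 : 0 = q02 := by linear_combination (-1) * t38
  subst t39
  have t40 : (b11) ^ 1 * (q20) = 0 := by linear_combination (1 / 2) * e1_4_1
  have t41 := (mul_eq_zero.mp t40).resolve_left (pow_ne_zero 1 n1)
  have t42 : 0 = q20 := by linear_combination (-1) * t41
  subst t42
  exact ⟨by ring, by ring, by ring, by ring, by ring, by ring, n1⟩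

end Pool.Agent.H38.FM
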