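import Mathlib

/-!
# Elimination tree `B` (generated)
-/

set_option linter.unusedVariables false
set_option linter.style.longLine false

noncomputable section

namespace Pool.Agent.H38.FM

theorem tree_B
    (a20 a11 a02 c02 u20 u11 u02 v20 q20 q11 q02 s1 s2 s11 s12 s21 s22 l1 l2 : ℂ)
    (e1_2_1 : a20 * c02 + a20 * s12 + a11 * s11 - c02 ^ 2 + c02 * s21 + 1 / 2 * u20 * s2 + u11
        * s1 = 0)
    (e1_1_2 : a11 * c02 + a11 * s12 + a02 * s11 + c02 * s22 + 1 / 2 * u11 * s2 + u02 * s1 = 0)
    (e1_0_3 : a02 * c02 + a02 * s12 + 1 / 2 * u02 * s2 = 0)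
    (e1_4_0 : -a20 * v20 - 1 / 2 * c02 * v20 + u20 * s11 + 1 / 2 * v20 * s21 + q20 * s1 = 0)
    (e1_3_1 : a20 * l1 - 1 / 2 * a11 * v20 + 3 / 2 * c02 * u20 - c02 * l1 + u20 * s12 + 1 / 2
        * u20 * s21 + u11 * s11 + 1 / 2 * v20 * s22 + q20 * s2 + q11 * s1 = 0)
    (e1_2_2 : 1 / 2 * a20 * u11 + a20 * l2 - 1 / 2 * a11 * u20 + a11 * l1 + c02 * u11 - c02
        * l2 + 1 / 2 * u20 * s22 + u11 * s12 + 1 / 2 * u11 * s21 + u02 * s11 + q11 * s2 + q02
        * s1 = 0)
    (e1_1_3 : a20 * u02 + a11 * l2 - a02 * u20 + a02 * l1 + 1 / 2 * c02 * u02 + 1 / 2 * u11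
        * s22 + u02 * s12 + 1 / 2 * u02 * s21 + q02 * s2 = 0)
    (e1_0_4 : 1 / 2 * a11 * u02 - 1 / 2 * a02 * u11 + a02 * l2 + 1 / 2 * u02 * s22 = 0)
    (e1_5_0 : -1 / 2 * u20 * v20 - 1 / 2 * v20 * l1 + q20 * s11 = 0)
    (e1_4_1 : -2 * a20 * q20 + 2 * c02 * q20 + 1 / 2 * u20 ^ 2 + 1 / 2 * u20 * l1 - 1 / 4 * u11
        * v20 - 1 / 2 * v20 * l2 + q20 * s12 + q20 * s21 + q11 * s11 = 0)
    (e1_3_2 : -a20 * q11 - 2 * a11 * q20 + c02 * q11 + 3 / 4 * u20 * u11 + 1 / 2 * u20 * l2
        + 1 / 2 * u11 * l1 + q20 * s22 + q11 * s12 + q11 * s21 + q02 * s11 = 0)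
    (e1_2_3 : -a11 * q11 - 2 * a02 * q20 + 1 / 2 * u20 * u02 + 1 / 4 * u11 ^ 2 + 1 / 2 * u11
        * l2 + 1 / 2 * u02 * l1 + q11 * s22 + q02 * s12 + q02 * s21 = 0)
    (e1_1_4 : -a02 * q11 + 1 / 4 * u11 * u02 + 1 / 2 * u02 * l2 + q02 * s22 = 0)
    (e2_1_1 : c02 * s1 = 0)
    (e2_0_2 : c02 * s2 = 0)
    (e2_2_1 : c02 * s11 + 1 / 2 * u20 * s1 + v20 * s2 = 0)
    (e2_1_2 : c02 * s12 + c02 * s21 + 1 / 2 * u11 * s1 = 0)
    (e2_0_3 : c02 * s22 + 1 / 2 * u02 * s1 = 0)
    (e2_3_1 : -2 * a20 * v20 + 1 / 2 * c02 * v20 + 1 / 2 * u20 * s11 + 1 / 2 * v20 * s12 + v20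
        * s21 + q20 * s1 = 0)
    (e2_2_2 : -2 * a11 * v20 + 3 / 2 * c02 * u20 + 1 / 2 * u20 * s12 + 1 / 2 * u11 * s11 + v20
        * s22 + q20 * s2 + q11 * s1 = 0)
    (e2_1_3 : -2 * a02 * v20 + 3 / 2 * c02 * u11 + 1 / 2 * u11 * s12 + 1 / 2 * u02 * s11 + q11
        * s2 + q02 * s1 = 0)
    (e2_0_4 : 3 / 2 * c02 * u02 + 1 / 2 * u02 * s12 + q02 * s2 = 0)
    (f_6_0 : -a20 * v20 ^ 2 + 1 / 2 * c02 * v20 ^ 2 + 1 / 2 * u20 * v20 * s11 + 1 / 2 * v20 ^ 2
        * s12 + v20 ^ 2 * s21 = 0)
    (f_4_2 : 2 * a20 * c02 * q20 - 1 / 2 * a20 * u11 * v20 - a20 * v20 * l2 - 2 * a20 * q20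
        * s21 + 3 * a20 * q11 * s11 + 1 / 2 * a11 * u20 * v20 - a11 * v20 * l1 + 3 * a11 * q20
        * s11 - 2 * a02 * v20 ^ 2 - 2 * c02 ^ 2 * q20 - 1 / 2 * c02 * u20 ^ 2 + 3 / 2 * c02
        * u11 * v20 + c02 * v20 * l2 + 2 * c02 * q20 * s21 - 3 * c02 * q11 * s11 + 1 / 2
        * u20 ^ 2 * s21 - 3 / 2 * u20 * u11 * s11 - 5 / 2 * u20 * v20 * s22 - u11 * v20 * s21
        + 3 / 2 * u02 * v20 * s11 = 0)
    (f_2_4 : 2 * a20 * c02 * q02 - 3 * a20 * q11 * s22 + 2 * a20 * q02 * s12 + 2 * a11 * c02
        * q11 - 1 / 2 * a11 * u02 * v20 - 3 * a11 * q20 * s22 + 2 * a11 * q11 * s12 + 5 * a11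
        * q02 * s11 + 2 * a02 * c02 * q20 + 1 / 2 * a02 * u11 * v20 - a02 * v20 * l2 + 2 * a02
        * q20 * s12 + 5 * a02 * q11 * s11 - 2 * c02 ^ 2 * q02 - c02 * u20 * u02 - 1 / 2 * c02
        * u11 ^ 2 + 3 * c02 * q11 * s22 - 2 * c02 * q02 * s12 + 3 / 2 * u20 * u11 * s22 - u20
        * u02 * s12 - 1 / 2 * u11 ^ 2 * s12 - 5 / 2 * u11 * u02 * s11 - 3 / 2 * u02 * v20 * s22 = 0)
    (f_0_6 : -a11 * q02 * s22 + 2 * a02 * c02 * q02 - a02 * q11 * s22 + 4 * a02 * q02 * s12 + 2
        * a02 * q02 * s21 - 1 / 2 * c02 * u02 ^ 2 + 1 / 2 * u11 * u02 * s22 - u02 ^ 2 * s12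
        - 1 / 2 * u02 ^ 2 * s21 = 0)
    (n1 : c02 ≠ 0)
    (hD : ∃ x y : ℂ, (x ^ 4 * q20 + x ^ 3 * y * q11 + x ^ 2 * y ^ 2 * q02 + x ^ 3 * u20 + x ^ 2
        * y * u11 + x * y ^ 2 * u02 + x ^ 2 * a20 + x * y * a11 + y ^ 2 * a02) * (x ^ 2 * y ^ 2
        * q20 + x * y ^ 3 * q11 + y ^ 4 * q02 + x ^ 2 * y * v20 + y ^ 2 * c02) - (x ^ 3 * y
        * q20 + x ^ 2 * y ^ 2 * q11 + x * y ^ 3 * q02 + 1 / 2 * x ^ 3 * v20 + 1 / 2 * x ^ 2 * y
        * u20 + 1 / 2 * x * y ^ 2 * u11 + 1 / 2 * y ^ 3 * u02 + x * y * c02) ^ 2 ≠ 0) :
    ((a20 = 0) ∧ (a11 = 0) ∧ (a02 = 0) ∧ (u20 = 0) ∧ (u11 = 0) ∧ (u02 = 0) ∧ (v20 = 0) ∧ (q20 = 0) ∧ (q11 = 0) ∧ (c02 ≠ 0)) ∨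
    ((a11 = 0) ∧ (a02 = 0) ∧ (u20 = 0) ∧ (u11 = 0) ∧ (u02 = 0) ∧ (v20 = 0) ∧ (q20 = 0) ∧ (q11 = 0) ∧ (c02 ≠ 0) ∧ (a20 ≠ 0)) ∨
    ((a20 = 0) ∧ (a11 = 0) ∧ (u20 = 0) ∧ (u11 = 0) ∧ (u02 = 0) ∧ (v20 = 0) ∧ (q20 = 0) ∧ (q11 = 0) ∧ (c02 ≠ 0) ∧ (a02 ≠ 0)) ∨
    ((a11 = 0) ∧ (u20 = 0) ∧ (u11 = 0) ∧ (u02 = 0) ∧ (v20 = 0) ∧ (q20 = 0) ∧ (q11 = 0) ∧ (c02 ≠ 0) ∧ (a02 ≠ 0) ∧ (a20 ≠ 0)) ∨
    ((a20 = 0) ∧ (u20 = 0) ∧ (u11 = 0) ∧ (u02 = 0) ∧ (v20 = 0) ∧ (q20 = 0) ∧ (q11 = 0) ∧ (c02 ≠ 0) ∧ (a11 ≠ 0)) ∨
    ((a02 = 0) ∧ (u20 = 0) ∧ (u11 = 0) ∧ (u02 = 0) ∧ (v20 = 0) ∧ (q20 = 0) ∧ (q11 = 0) ∧ (c02 ≠ 0) ∧ (a11 ≠ 0) ∧ (a20 ≠ 0)) ∨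
    ((u20 = 0) ∧ (u11 = 0) ∧ (u02 = 0) ∧ (v20 = 0) ∧ (q20 = 0) ∧ (q11 = 0) ∧ (c02 ≠ 0) ∧ (a11 ≠ 0) ∧ (a20 ≠ 0) ∧ (a02 ≠ 0)) := by
  have t1 : (c02) ^ 1 * (s2) = 0 := by linear_combination e2_0_2
  have t2 := (mul_eq_zero.mp t1).resolve_left (pow_ne_zero 1 n1)
  have t3 : 0 = s2 := by linear_combination (-1) * t2
  subst t3
  have t4 : (c02) ^ 1 * (s1) = 0 := by linear_combination e2_1_1
  have t5 := (mul_eq_zero.mp t4).resolve_left (pow_ne_zero 1 n1)
  have t6 : 0 = s1 := by linear_combination (-1) * t5
  subst t6
  have t7 : (c02) ^ 1 * (s22) = 0 := by linear_combination e2_0_3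
  have t8 := (mul_eq_zero.mp t7).resolve_left (pow_ne_zero 1 n1)
  have t9 : 0 = s22 := by linear_combination (-1) * t8
  subst t9
  have t10 : (c02) ^ 1 * (s11) = 0 := by linear_combination e2_2_1
  have t11 := (mul_eq_zero.mp t10).resolve_left (pow_ne_zero 1 n1)
  have t12 : 0 = s11 := by linear_combination (-1) * t11
  subst t12
  have t13 : (c02) ^ 1 * (s12 + s21) = 0 := by linear_combination e2_1_2
  have t14 := (mul_eq_zero.mp t13).resolve_left (pow_ne_zero 1 n1)
  have t15 : -s12 = s21 := by linear_combination (-1) * t14
  subst t15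
  by_cases h2 : a11 = 0
  · have t16 : 0 = a11 := by linear_combination (-1) * h2
    subst t16
    by_cases h3 : a02 = 0
    · have t17 : 0 = a02 := by linear_combination (-1) * h3
      subst t17
      by_cases h4 : c02 + s12 = 0
      · have t18 : -c02 = s12 := by linear_combination (-1) * h4
        subst t18
        have t19 : (c02) ^ 1 * (u02) = 0 := by linear_combination e2_0_4
        have t20 := (mul_eq_zero.mp t19).resolve_left (pow_ne_zero 1 n1)
        have t21 : 0 = u02 := by linear_combination (-1) * t20
        subst t21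
        have t22 : (c02) ^ 1 * (u11) = 0 := by linear_combination e2_1_3
        have t23 := (mul_eq_zero.mp t22).resolve_left (pow_ne_zero 1 n1)
        have t24 : 0 = u11 := by linear_combination (-1) * t23
        subst t24
        have t25 : (c02) ^ 1 * (u20) = 0 := by linear_combination e2_2_2
        have t26 := (mul_eq_zero.mp t25).resolve_left (pow_ne_zero 1 n1)
        have t27 : 0 = u20 := by linear_combination (-1) * t26
        subst t27
        by_cases h5 : a20 = 0
        · have t28 : 0 = a20 := by linear_combination (-1) * h5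
          subst t28
          have t29 : (c02) ^ 1 * (l2) = 0 := by linear_combination (-1) * e1_2_2
          have t30 := (mul_eq_zero.mp t29).resolve_left (pow_ne_zero 1 n1)
          have t31 : 0 = l2 := by linear_combination (-1) * t30
          subst t31
          have t32 : (c02) ^ 1 * (l1) = 0 := by linear_combination (-1) * e1_3_1
          have t33 := (mul_eq_zero.mp t32).resolve_left (pow_ne_zero 1 n1)
          have t34 : 0 = l1 := by linear_combination (-1) * t33
          subst t34
          have t35 : (c02) ^ 1 * (v20) = 0 := by linear_combination e2_3_1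
          have t36 := (mul_eq_zero.mp t35).resolve_left (pow_ne_zero 1 n1)
          have t37 : 0 = v20 := by linear_combination (-1) * t36
          subst t37
          have t38 : (c02) ^ 1 * (q11) = 0 := by linear_combination e1_3_2
          have t39 := (mul_eq_zero.mp t38).resolve_left (pow_ne_zero 1 n1)
          have t40 : 0 = q11 := by linear_combination (-1) * t39
          subst t40
          have t41 : (c02) ^ 1 * (q20) = 0 := by linear_combination (1 / 2) * e1_4_1
          have t42 := (mul_eq_zero.mp t41).resolve_left (pow_ne_zero 1 n1)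
          have t43 : 0 = q20 := by linear_combination (-1) * t42
          subst t43
          exact Or.inl ⟨by ring, by ring, by ring, by ring, by ring, by ring, by ring, by ring, by ring, n1⟩
        · have t44 : (a20) ^ 1 * (v20) = 0 := by linear_combination (-1) * e1_4_0
          have t45 := (mul_eq_zero.mp t44).resolve_left (pow_ne_zero 1 h5)
          have t46 : 0 = v20 := by linear_combination (-1) * t45
          subst t46
          by_cases h6 : l1 = 0
          · have t47 : 0 = l1 := by linear_combination (-1) * h6
            subst t47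
            by_cases h7 : l2 = 0
            · have t48 : 0 = l2 := by linear_combination (-1) * h7
              subst t48
              by_cases h8 : q20 = 0
              · have t49 : 0 = q20 := by linear_combination (-1) * h8
                subst t49
                by_cases h9 : q11 = 0
                · have t50 : 0 = q11 := by linear_combination (-1) * h9
                  subst t50
                  exact Or.inr (Or.inl ⟨by ring, by ring, by ring, by ring, by ring, by ring, by ring, by ring, n1, h5⟩)
                · have t51 : (q11) ^ 1 * (a20 - c02) = 0 := by linear_combination (-1) * e1_3_2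
                  have t52 := (mul_eq_zero.mp t51).resolve_left (pow_ne_zero 1 h9)
                  have t53 : a20 = c02 := by linear_combination (1) * t52
                  subst t53
                  exfalso
                  obtain ⟨x, y, hxy⟩ := hD
                  exact hxy (by linear_combination 0)
              · have t54 : (q20) ^ 1 * (a20 - c02) = 0 := by linear_combination (-1 / 2) * e1_4_1
                have t55 := (mul_eq_zero.mp t54).resolve_left (pow_ne_zero 1 h8)
                have t56 : a20 = c02 := by linear_combination (1) * t55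
                subst t56
                exfalso
                obtain ⟨x, y, hxy⟩ := hD
                exact hxy (by linear_combination 0)
            · have t57 : (l2) ^ 1 * (a20 - c02) = 0 := by linear_combination e1_2_2
              have t58 := (mul_eq_zero.mp t57).resolve_left (pow_ne_zero 1 h7)
              have t59 : a20 = c02 := by linear_combination (1) * t58
              subst t59
              exfalso
              obtain ⟨x, y, hxy⟩ := hD
              exact hxy (by linear_combination 0)
          · have t60 : (l1) ^ 1 * (a20 - c02) = 0 := by linear_combination e1_3_1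
            have t61 := (mul_eq_zero.mp t60).resolve_left (pow_ne_zero 1 h6)
            have t62 : a20 = c02 := by linear_combination (1) * t61
            subst t62
            exfalso
            obtain ⟨x, y, hxy⟩ := hD
            exact hxy (by linear_combination 0)
      · have t63 : (c02 + s12) ^ 1 * (a20 - c02) = 0 := by linear_combination e1_2_1
        have t64 := (mul_eq_zero.mp t63).resolve_left (pow_ne_zero 1 h4)
        have t65 : c02 = a20 := by linear_combination (-1) * t64
        subst t65
        by_cases h10 : v20 = 0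
        · have t66 : 0 = v20 := by linear_combination (-1) * h10
          subst t66
          by_cases h11 : u20 = 0
          · have t67 : 0 = u20 := by linear_combination (-1) * h11
            subst t67
            by_cases h12 : u11 = 0
            · have t68 : 0 = u11 := by linear_combination (-1) * h12
              subst t68
              by_cases h13 : u02 = 0
              · have t69 : 0 = u02 := by linear_combination (-1) * h13
                subst t69
                exfalso
                obtain ⟨x, y, hxy⟩ := hD
                exact hxy (by linear_combination 0)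
              · have t70 : (u02) ^ 1 * (3 * c02 + s12) = 0 := by linear_combination (2) * e1_1_3
                have t71 := (mul_eq_zero.mp t70).resolve_left (pow_ne_zero 1 h13)
                have t72 : -3 * c02 = s12 := by linear_combination (-1) * t71
                subst t72
                have t73 : (u02) ^ 1 * (l2) = 0 := by linear_combination (2) * e1_1_4
                have t74 := (mul_eq_zero.mp t73).resolve_left (pow_ne_zero 1 h13)
                have t75 : 0 = l2 := by linear_combination (-1) * t74
                subst t75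
                have t76 : (u02) ^ 1 * (l1) = 0 := by linear_combination (2) * e1_2_3
                have t77 := (mul_eq_zero.mp t76).resolve_left (pow_ne_zero 1 h13)
                have t78 : 0 = l1 := by linear_combination (-1) * t77
                subst t78
                exfalso
                have t79 : (c02) ^ 1 * ((u02) ^ 2 * (1)) = 0 := by linear_combination f_0_6
                have t80 := (mul_eq_zero.mp t79).resolve_left (pow_ne_zero 1 n1)
                have t81 := (mul_eq_zero.mp t80).resolve_left (pow_ne_zero 2 h13)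
                exact absurd t81 (by norm_num)
            · have t82 : (u11) ^ 1 * (3 * c02 + s12) = 0 := by linear_combination (2) * e1_2_2
              have t83 := (mul_eq_zero.mp t82).resolve_left (pow_ne_zero 1 h12)
              have t84 : -3 * c02 = s12 := by linear_combination (-1) * t83
              subst t84
              have t85 : (u11) ^ 1 * (l1) = 0 := by linear_combination (2) * e1_3_2
              have t86 := (mul_eq_zero.mp t85).resolve_left (pow_ne_zero 1 h12)
              have t87 : 0 = l1 := by linear_combination (-1) * t86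
              subst t87
              have t88 : (u11) ^ 1 * (u11 + 2 * l2) = 0 := by linear_combination (4) * e1_2_3
              have t89 := (mul_eq_zero.mp t88).resolve_left (pow_ne_zero 1 h12)
              have t90 : -1 / 2 * u11 = l2 := by linear_combination (-1 / 2) * t89
              subst t90
              exfalso
              have t91 : (c02) ^ 1 * ((u11) ^ 2 * (1)) = 0 := by linear_combination f_2_4
              have t92 := (mul_eq_zero.mp t91).resolve_left (pow_ne_zero 1 n1)
              have t93 := (mul_eq_zero.mp t92).resolve_left (pow_ne_zero 2 h12)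
              exact absurd t93 (by norm_num)
          · have t94 : (u20) ^ 1 * (3 * c02 + s12) = 0 := by linear_combination (2) * e1_3_1
            have t95 := (mul_eq_zero.mp t94).resolve_left (pow_ne_zero 1 h11)
            have t96 : -3 * c02 = s12 := by linear_combination (-1) * t95
            subst t96
            have t97 : (u20) ^ 1 * (u20 + l1) = 0 := by linear_combination (2) * e1_4_1
            have t98 := (mul_eq_zero.mp t97).resolve_left (pow_ne_zero 1 h11)
            have t99 : -u20 = l1 := by linear_combination (-1) * t98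
            subst t99
            have t100 : (u20) ^ 1 * (u11 + 2 * l2) = 0 := by linear_combination (4) * e1_3_2
            have t101 := (mul_eq_zero.mp t100).resolve_left (pow_ne_zero 1 h11)
            have t102 : -1 / 2 * u11 = l2 := by linear_combination (-1 / 2) * t101
            subst t102
            exfalso
            have t103 : (c02) ^ 1 * ((u20) ^ 2 * (1)) = 0 := by linear_combination f_4_2
            have t104 := (mul_eq_zero.mp t103).resolve_left (pow_ne_zero 1 n1)
            have t105 := (mul_eq_zero.mp t104).resolve_left (pow_ne_zero 2 h11)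
            exact absurd t105 (by norm_num)
        · have t106 : (v20) ^ 1 * (3 * c02 + s12) = 0 := by linear_combination (-2) * e1_4_0
          have t107 := (mul_eq_zero.mp t106).resolve_left (pow_ne_zero 1 h10)
          have t108 : -3 * c02 = s12 := by linear_combination (-1) * t107
          subst t108
          have t109 : (v20) ^ 1 * (u20 + l1) = 0 := by linear_combination (-2) * e1_5_0
          have t110 := (mul_eq_zero.mp t109).resolve_left (pow_ne_zero 1 h10)
          have t111 : -u20 = l1 := by linear_combination (-1) * t110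
          subst t111
          have t112 : (v20) ^ 1 * (u11 + 2 * l2) = 0 := by linear_combination (-4) * e1_4_1
          have t113 := (mul_eq_zero.mp t112).resolve_left (pow_ne_zero 1 h10)
          have t114 : -1 / 2 * u11 = l2 := by linear_combination (-1 / 2) * t113
          subst t114
          exfalso
          have t115 : (c02) ^ 1 * ((v20) ^ 2 * (1)) = 0 := by linear_combination f_6_0
          have t116 := (mul_eq_zero.mp t115).resolve_left (pow_ne_zero 1 n1)
          have t117 := (mul_eq_zero.mp t116).resolve_left (pow_ne_zero 2 h10)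
          exact absurd t117 (by norm_num)
    · have t118 : (a02) ^ 1 * (c02 + s12) = 0 := by linear_combination e1_0_3
      have t119 := (mul_eq_zero.mp t118).resolve_left (pow_ne_zero 1 h3)
      have t120 : -c02 = s12 := by linear_combination (-1) * t119
      subst t120
      have t121 : (c02) ^ 1 * (u02) = 0 := by linear_combination e2_0_4
      have t122 := (mul_eq_zero.mp t121).resolve_left (pow_ne_zero 1 n1)
      have t123 : 0 = u02 := by linear_combination (-1) * t122
      subst t123
      have t124 : (c02) ^ 1 * (u20) = 0 := by linear_combination e2_2_2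
      have t125 := (mul_eq_zero.mp t124).resolve_left (pow_ne_zero 1 n1)
      have t126 : 0 = u20 := by linear_combination (-1) * t125
      subst t126
      have t127 : (a02) ^ 1 * (l1) = 0 := by linear_combination e1_1_3
      have t128 := (mul_eq_zero.mp t127).resolve_left (pow_ne_zero 1 h3)
      have t129 : 0 = l1 := by linear_combination (-1) * t128
      subst t129
      have t130 : (a02) ^ 1 * (u11 - 2 * l2) = 0 := by linear_combination (-2) * e1_0_4
      have t131 := (mul_eq_zero.mp t130).resolve_left (pow_ne_zero 1 h3)
      have t132 : 1 / 2 * u11 = l2 := by linear_combination (1 / 2) * t131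
      subst t132
      have r14 : 2 * a02 * v20 - c02 * u11 = 0 := by linear_combination (-1) * e2_1_3
      by_cases h15 : a20 = 0
      · have t133 : 0 = a20 := by linear_combination (-1) * h15
        subst t133
        have t134 : (c02) ^ 2 * (u11) = 0 := by linear_combination (2 * a02) * e2_3_1 + (-c02) * r14
        have t135 := (mul_eq_zero.mp t134).resolve_left (pow_ne_zero 2 n1)
        have t136 : 0 = u11 := by linear_combination (-1) * t135
        subst t136
        have t137 : (a02) ^ 1 * (v20) = 0 := by linear_combination (1 / 2) * r14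
        have t138 := (mul_eq_zero.mp t137).resolve_left (pow_ne_zero 1 h3)
        have t139 : 0 = v20 := by linear_combination (-1) * t138
        subst t139
        have t140 : (c02) ^ 1 * (q11) = 0 := by linear_combination e1_3_2
        have t141 := (mul_eq_zero.mp t140).resolve_left (pow_ne_zero 1 n1)
        have t142 : 0 = q11 := by linear_combination (-1) * t141
        subst t142
        have t143 : (c02) ^ 1 * (q20) = 0 := by linear_combination (1 / 2) * e1_4_1
        have t144 := (mul_eq_zero.mp t143).resolve_left (pow_ne_zero 1 n1)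
        have t145 : 0 = q20 := by linear_combination (-1) * t144
        subst t145
        exact Or.inr (Or.inr (Or.inl ⟨by ring, by ring, by ring, by ring, by ring, by ring, by ring, by ring, n1, h3⟩))
      · have t146 : (c02) ^ 1 * ((a20) ^ 1 * (u11)) = 0 := by linear_combination (-2 * a02)
            * e1_4_0 + (-a20) * r14
        have t147 := (mul_eq_zero.mp t146).resolve_left (pow_ne_zero 1 n1)
        have t148 := (mul_eq_zero.mp t147).resolve_left (pow_ne_zero 1 h15)
        have t149 : 0 = u11 := by linear_combination (-1) * t148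
        subst t149
        have t150 : (a02) ^ 1 * (v20) = 0 := by linear_combination (1 / 2) * r14
        have t151 := (mul_eq_zero.mp t150).resolve_left (pow_ne_zero 1 h3)
        have t152 : 0 = v20 := by linear_combination (-1) * t151
        subst t152
        have t153 : (a02) ^ 1 * (q11) = 0 := by linear_combination (-1) * e1_1_4
        have t154 := (mul_eq_zero.mp t153).resolve_left (pow_ne_zero 1 h3)
        have t155 : 0 = q11 := by linear_combination (-1) * t154
        subst t155
        have t156 : (a02) ^ 1 * (q20) = 0 := by linear_combination (-1 / 2) * e1_2_3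
        have t157 := (mul_eq_zero.mp t156).resolve_left (pow_ne_zero 1 h3)
        have t158 : 0 = q20 := by linear_combination (-1) * t157
        subst t158
        exact Or.inr (Or.inr (Or.inr (Or.inl ⟨by ring, by ring, by ring, by ring, by ring, by ring, by ring, n1, h3, h15⟩)))
  · have t159 : (a11) ^ 1 * (c02 + s12) = 0 := by linear_combination e1_1_2
    have t160 := (mul_eq_zero.mp t159).resolve_left (pow_ne_zero 1 h2)
    have t161 : -c02 = s12 := by linear_combination (-1) * t160
    subst t161
    have t162 : (c02) ^ 1 * (u02) = 0 := by linear_combination e2_0_4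
    have t163 := (mul_eq_zero.mp t162).resolve_left (pow_ne_zero 1 n1)
    have t164 : 0 = u02 := by linear_combination (-1) * t163
    subst t164
    have r16 : 2 * a11 * v20 - c02 * u20 = 0 := by linear_combination (-1) * e2_2_2
    have t165 : (c02) ^ 1 * (a11 * u11 - a02 * u20) = 0 := by linear_combination (a11) * e2_1_3
        + (a02) * r16
    have t166 := (mul_eq_zero.mp t165).resolve_left (pow_ne_zero 1 n1)
    have r17 : a11 * u11 - a02 * u20 = 0 := by linear_combination t166
    have r18 : a11 * l2 - a02 * u20 + a02 * l1 = 0 := by linear_combination e1_1_3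
    have t167 : (a11) ^ 1 * (4 * a20 * l1 + 3 * c02 * u20 - 4 * c02
        * l1) = 0 := by linear_combination (4 * a11) * e1_3_1 + (a11) * r16
    have t168 := (mul_eq_zero.mp t167).resolve_left (pow_ne_zero 1 h2)
    have r19 : 4 * a20 * l1 + 3 * c02 * u20 - 4 * c02 * l1 = 0 := by linear_combination t168
    have r20 : 4 * a20 * c02 * l1 + 6 * a11 * c02 * v20 - 4 * c02 ^ 2
        * l1 = 0 := by linear_combination (3 * c02) * r16 + (c02) * r19
    have r21 : 4 * a20 * a02 * l1 + 3 * a11 * c02 * u11 - 4 * a02 * c02
        * l1 = 0 := by linear_combination (3 * c02) * r17 + (a02) * r19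
    have r22 : 4 * a20 * a02 * l1 + 3 * a11 * c02 * l2 - a02 * c02
        * l1 = 0 := by linear_combination (3 * c02) * r18 + (a02) * r19
    have t169 : (c02) ^ 1 * (4 * a20 * l1 + 6 * a11 * v20 - 4 * c02
        * l1) = 0 := by linear_combination r20
    have t170 := (mul_eq_zero.mp t169).resolve_left (pow_ne_zero 1 n1)
    have r23 : 4 * a20 * l1 + 6 * a11 * v20 - 4 * c02 * l1 = 0 := by linear_combination t170
    by_cases h24 : a20 = 0
    · have t171 : 0 = a20 := by linear_combination (-1) * h24
      subst t171
      have t172 : (c02) ^ 1 * (3 * a11 * u11 - 4 * a02 * l1) = 0 := by linear_combination r21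
      have t173 := (mul_eq_zero.mp t172).resolve_left (pow_ne_zero 1 n1)
      have r25 : 3 * a11 * u11 - 4 * a02 * l1 = 0 := by linear_combination t173
      have t174 : (c02) ^ 1 * (3 * a11 * l2 - a02 * l1) = 0 := by linear_combination r22
      have t175 := (mul_eq_zero.mp t174).resolve_left (pow_ne_zero 1 n1)
      have r26 : 3 * a11 * l2 - a02 * l1 = 0 := by linear_combination t175
      have t176 : (c02) ^ 1 * (3 * u20 - 4 * l1) = 0 := by linear_combination r19
      have t177 := (mul_eq_zero.mp t176).resolve_left (pow_ne_zero 1 n1)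
      have r27 : 3 * u20 - 4 * l1 = 0 := by linear_combination t177
      have t178 : 4 / 3 * l1 = u20 := by linear_combination (-1 / 3) * r27
      subst t178
      have t179 : (c02) ^ 2 * (l1) = 0 := by linear_combination (3 / 2 * a11) * e2_3_1
          + (-1 / 4 * c02) * r23
      have t180 := (mul_eq_zero.mp t179).resolve_left (pow_ne_zero 2 n1)
      have t181 : 0 = l1 := by linear_combination (-1) * t180
      subst t181
      have t182 : (a11) ^ 1 * (v20) = 0 := by linear_combination (1 / 6) * r23
      have t183 := (mul_eq_zero.mp t182).resolve_left (pow_ne_zero 1 h2)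
      have t184 : 0 = v20 := by linear_combination (-1) * t183
      subst t184
      have t185 : (a11) ^ 1 * (u11) = 0 := by linear_combination (1 / 3) * r25
      have t186 := (mul_eq_zero.mp t185).resolve_left (pow_ne_zero 1 h2)
      have t187 : 0 = u11 := by linear_combination (-1) * t186
      subst t187
      have t188 : (a11) ^ 1 * (l2) = 0 := by linear_combination (1 / 3) * r26
      have t189 := (mul_eq_zero.mp t188).resolve_left (pow_ne_zero 1 h2)
      have t190 : 0 = l2 := by linear_combination (-1) * t189
      subst t190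
      have t191 : (c02) ^ 1 * (q20) = 0 := by linear_combination (1 / 2) * e1_4_1
      have t192 := (mul_eq_zero.mp t191).resolve_left (pow_ne_zero 1 n1)
      have t193 : 0 = q20 := by linear_combination (-1) * t192
      subst t193
      have t194 : (c02) ^ 1 * (q11) = 0 := by linear_combination e1_3_2
      have t195 := (mul_eq_zero.mp t194).resolve_left (pow_ne_zero 1 n1)
      have t196 : 0 = q11 := by linear_combination (-1) * t195
      subst t196
      exact Or.inr (Or.inr (Or.inr (Or.inr (Or.inl ⟨by ring, by ring, by ring, by ring, by ring, by ring, by ring, n1, h2⟩))))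
    · by_cases h28 : l1 = 0
      · have t197 : 0 = l1 := by linear_combination (-1) * h28
        subst t197
        have t198 : (a11) ^ 1 * (v20) = 0 := by linear_combination (1 / 6) * r23
        have t199 := (mul_eq_zero.mp t198).resolve_left (pow_ne_zero 1 h2)
        have t200 : 0 = v20 := by linear_combination (-1) * t199
        subst t200
        have t201 : (c02) ^ 1 * ((a11) ^ 1 * (u11)) = 0 := by linear_combination (1 / 3) * r21
        have t202 := (mul_eq_zero.mp t201).resolve_left (pow_ne_zero 1 n1)
        have t203 := (mul_eq_zero.mp t202).resolve_left (pow_ne_zero 1 h2)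
        have t204 : 0 = u11 := by linear_combination (-1) * t203
        subst t204
        have t205 : (c02) ^ 1 * ((a11) ^ 1 * (l2)) = 0 := by linear_combination (1 / 3) * r22
        have t206 := (mul_eq_zero.mp t205).resolve_left (pow_ne_zero 1 n1)
        have t207 := (mul_eq_zero.mp t206).resolve_left (pow_ne_zero 1 h2)
        have t208 : 0 = l2 := by linear_combination (-1) * t207
        subst t208
        have t209 : (c02) ^ 1 * (u20) = 0 := by linear_combination (1 / 3) * r19
        have t210 := (mul_eq_zero.mp t209).resolve_left (pow_ne_zero 1 n1)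
        have t211 : 0 = u20 := by linear_combination (-1) * t210
        subst t211
        have r29 : a11 * q11 + 2 * a02 * q20 = 0 := by linear_combination (-1) * e1_2_3
        by_cases h30 : a02 = 0
        · have t212 : 0 = a02 := by linear_combination (-1) * h30
          subst t212
          have t213 : (a11) ^ 1 * (q11) = 0 := by linear_combination r29
          have t214 := (mul_eq_zero.mp t213).resolve_left (pow_ne_zero 1 h2)
          have t215 : 0 = q11 := by linear_combination (-1) * t214
          subst t215
          have t216 : (a11) ^ 1 * (q20) = 0 := by linear_combination (-1 / 2) * e1_3_2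
          have t217 := (mul_eq_zero.mp t216).resolve_left (pow_ne_zero 1 h2)
          have t218 : 0 = q20 := by linear_combination (-1) * t217
          subst t218
          exact Or.inr (Or.inr (Or.inr (Or.inr (Or.inr (Or.inl ⟨by ring, by ring, by ring, by ring, by ring, by ring, by ring, n1, h2, h24⟩)))))
        · have t219 : (a02) ^ 2 * (q20) = 0 := by linear_combination (1 / 2 * a11) * e1_1_4
              + (1 / 2 * a02) * r29
          have t220 := (mul_eq_zero.mp t219).resolve_left (pow_ne_zero 2 h30)
          have t221 : 0 = q20 := by linear_combination (-1) * t220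
          subst t221
          have t222 : (a11) ^ 1 * (q11) = 0 := by linear_combination r29
          have t223 := (mul_eq_zero.mp t222).resolve_left (pow_ne_zero 1 h2)
          have t224 : 0 = q11 := by linear_combination (-1) * t223
          subst t224
          exact Or.inr (Or.inr (Or.inr (Or.inr (Or.inr (Or.inr (⟨by ring, by ring, by ring, by ring, by ring, by ring, n1, h2, h24, h30⟩))))))
      · have t225 : (a20) ^ 1 * ((l1) ^ 1 * (a20 - c02)) = 0 := by linear_combination (3 / 2
            * a11) * e1_4_0 + (1 / 4 * a20) * r23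
        have t226 := (mul_eq_zero.mp t225).resolve_left (pow_ne_zero 1 h24)
        have t227 := (mul_eq_zero.mp t226).resolve_left (pow_ne_zero 1 h28)
        have t228 : a20 = c02 := by linear_combination (1) * t227
        subst t228
        have t229 : (a11) ^ 1 * (v20) = 0 := by linear_combination (1 / 6) * r23
        have t230 := (mul_eq_zero.mp t229).resolve_left (pow_ne_zero 1 h2)
        have t231 : 0 = v20 := by linear_combination (-1) * t230
        subst t231
        have t232 : (a11) ^ 1 * ((a20) ^ 1 * (u11)) = 0 := by linear_combination (1 / 3) * r21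
        have t233 := (mul_eq_zero.mp t232).resolve_left (pow_ne_zero 1 h2)
        have t234 := (mul_eq_zero.mp t233).resolve_left (pow_ne_zero 1 h24)
        have t235 : 0 = u11 := by linear_combination (-1) * t234
        subst t235
        have t236 : (a20) ^ 1 * (3 * a11 * l2 + 3 * a02 * l1) = 0 := by linear_combination r22
        have t237 := (mul_eq_zero.mp t236).resolve_left (pow_ne_zero 1 h24)
        have r31 : 3 * a11 * l2 + 3 * a02 * l1 = 0 := by linear_combination t237
        have t238 : (a20) ^ 1 * (u20) = 0 := by linear_combination (1 / 3) * r19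
        have t239 := (mul_eq_zero.mp t238).resolve_left (pow_ne_zero 1 h24)
        have t240 : 0 = u20 := by linear_combination (-1) * t239
        subst t240
        exfalso
        have t241 : (a11) ^ 1 * ((l1) ^ 1 * (1)) = 0 := by linear_combination e1_2_2
        have t242 := (mul_eq_zero.mp t241).resolve_left (pow_ne_zero 1 h2)
        have t243 := (mul_eq_zero.mp t242).resolve_left (pow_ne_zero 1 h28)
        exact absurd t243 (by norm_num)

end Pool.Agent.H38.FM
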