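import Mathlib

/-!
# Elimination tree `B0` (generated)
-/

set_option linter.unusedVariables false
set_option linter.style.longLine false

noncomputable section

namespace Pool.Agent.H38.FM

theorem tree_B0
    (a02 b02 c02 u20 u11 u02 v20 q20 q11 q02 s1 s2 s11 s12 s21 s22 l1 l2 : ℂ)
    (e1_2_0 : c02 * s1 = 0)
    (e1_1_1 : 2 * b02 * s1 + c02 * s2 = 0)
    (e1_3_0 : c02 * s11 + u20 * s1 + 1 / 2 * v20 * s2 = 0)
    (e1_2_1 : 2 * b02 * s11 + c02 * s12 + c02 * s21 + 1 / 2 * u20 * s2 + u11 * s1 = 0)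
    (e1_1_2 : a02 * s11 + b02 * c02 + 2 * b02 * s12 + b02 * s21 + c02 * s22 + 1 / 2 * u11 * s2
        + u02 * s1 = 0)
    (e1_0_3 : a02 * c02 + a02 * s12 + b02 * s22 + 1 / 2 * u02 * s2 = 0)
    (e1_4_0 : -3 / 2 * c02 * v20 + u20 * s11 + 1 / 2 * v20 * s21 + q20 * s1 = 0)
    (e1_3_1 : -2 * b02 * v20 + 3 / 2 * c02 * u20 + u20 * s12 + 1 / 2 * u20 * s21 + u11 * s11
        + 1 / 2 * v20 * s22 + q20 * s2 + q11 * s1 = 0)
    (e1_2_2 : b02 * u20 + b02 * l1 + 3 / 2 * c02 * u11 + 1 / 2 * u20 * s22 + u11 * s12 + 1 / 2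
        * u11 * s21 + u02 * s11 + q11 * s2 + q02 * s1 = 0)
    (e1_1_3 : -a02 * u20 + a02 * l1 + 1 / 2 * b02 * u11 + b02 * l2 + 3 / 2 * c02 * u02 + 1 / 2
        * u11 * s22 + u02 * s12 + 1 / 2 * u02 * s21 + q02 * s2 = 0)
    (e1_0_4 : -1 / 2 * a02 * u11 + a02 * l2 + 1 / 2 * u02 * s22 = 0)
    (e1_3_2 : -2 * b02 * q20 + 3 / 4 * u20 * u11 + 1 / 2 * u20 * l2 + 1 / 2 * u11 * l1 + q20
        * s22 + q11 * s12 + q11 * s21 + q02 * s11 = 0)
    (e1_2_3 : -2 * a02 * q20 - 2 * b02 * q11 + 1 / 2 * u20 * u02 + 1 / 4 * u11 ^ 2 + 1 / 2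
        * u11 * l2 + 1 / 2 * u02 * l1 + q11 * s22 + q02 * s12 + q02 * s21 = 0)
    (e1_1_4 : -a02 * q11 - 2 * b02 * q02 + 1 / 4 * u11 * u02 + 1 / 2 * u02 * l2 + q02 * s22 = 0)
    (e2_2_2 : -2 * b02 * v20 + 3 / 2 * c02 * u20 + 1 / 2 * u20 * s12 + 1 / 2 * u11 * s11 + v20
        * s22 + q20 * s2 + q11 * s1 = 0)
    (e2_1_3 : -2 * a02 * v20 + b02 * u20 + b02 * l1 + 3 / 2 * c02 * u11 + 1 / 2 * u11 * s12
        + 1 / 2 * u02 * s11 + q11 * s2 + q02 * s1 = 0)
    (e2_0_4 : 1 / 2 * b02 * u11 + b02 * l2 + 3 / 2 * c02 * u02 + 1 / 2 * u02 * s12 + q02 * s2 = 0)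
    (f_1_4 : 2 * a02 * c02 * u20 - 2 * a02 * c02 * l1 - 2 * a02 * v20 * s22 - 2 * a02 * q20
        * s2 + 5 * a02 * q11 * s1 - 2 * b02 ^ 2 * u20 + 2 * b02 ^ 2 * l1 - b02 * c02 * u11 + 2
        * b02 * u20 * s22 - 2 * b02 * u11 * s12 - b02 * u11 * s21 - 5 * b02 * u02 * s11 + u20
        * u02 * s2 + 1 / 2 * u11 ^ 2 * s2 - 5 / 2 * u11 * u02 * s1 = 0)
    (f_0_5 : a02 * c02 * u11 - 2 * a02 * c02 * l2 - a02 * q11 * s2 + 6 * a02 * q02 * s1
        - b02 ^ 2 * u11 + 2 * b02 ^ 2 * l2 - b02 * c02 * u02 + b02 * u11 * s22 - 3 * b02 * u02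
        * s12 - 2 * b02 * u02 * s21 + 1 / 2 * u11 * u02 * s2 - 3 / 2 * u02 ^ 2 * s1 = 0)
    (f_0_6 : 2 * a02 * c02 * q02 - a02 * q11 * s22 + 4 * a02 * q02 * s12 + 2 * a02 * q02 * s21
        - 1 / 2 * b02 * u11 * u02 + b02 * u02 * l2 - 1 / 2 * c02 * u02 ^ 2 + 1 / 2 * u11 * u02
        * s22 - u02 ^ 2 * s12 - 1 / 2 * u02 ^ 2 * s21 = 0)
    (n1 : c02 ≠ 0)
    (n2 : b02 ≠ 0)
    (hD : ∃ x y : ℂ, (x ^ 4 * q20 + x ^ 3 * y * q11 + x ^ 2 * y ^ 2 * q02 + x ^ 3 * u20 + x ^ 2
        * y * u11 + x * y ^ 2 * u02 + x ^ 2 * c02 + 2 * x * y * b02 + y ^ 2 * a02) * (x ^ 2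
        * y ^ 2 * q20 + x * y ^ 3 * q11 + y ^ 4 * q02 + x ^ 2 * y * v20 + y ^ 2 * c02) - (x ^ 3
        * y * q20 + x ^ 2 * y ^ 2 * q11 + x * y ^ 3 * q02 + 1 / 2 * x ^ 3 * v20 + 1 / 2 * x ^ 2
        * y * u20 + 1 / 2 * x * y ^ 2 * u11 + 1 / 2 * y ^ 3 * u02 + x * y * c02 + y ^ 2
        * b02) ^ 2 ≠ 0) :
    ((a02 = 0) ∧ (u20 = 0) ∧ (u11 = 0) ∧ (u02 = 0) ∧ (v20 = 0) ∧ (q20 = 0) ∧ (q11 = 0) ∧ (q02 = 0) ∧ (c02 ≠ 0) ∧ (b02 ≠ 0)) ∨
    ((u20 = 0) ∧ (u11 = 0) ∧ (u02 = 0) ∧ (v20 = 0) ∧ (q20 = 0) ∧ (q11 = 0) ∧ (q02 = 0) ∧ (c02 ≠ 0) ∧ (b02 ≠ 0) ∧ (a02 ≠ 0)) := by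
  have t1 : (c02) ^ 1 * (s1) = 0 := by linear_combination e1_2_0
  have t2 := (mul_eq_zero.mp t1).resolve_left (pow_ne_zero 1 n1)
  have t3 : 0 = s1 := by linear_combination (-1) * t2
  subst t3
  have t4 : (c02) ^ 1 * (s2) = 0 := by linear_combination e1_1_1
  have t5 := (mul_eq_zero.mp t4).resolve_left (pow_ne_zero 1 n1)
  have t6 : 0 = s2 := by linear_combination (-1) * t5
  subst t6
  have t7 : (c02) ^ 1 * (s11) = 0 := by linear_combination e1_3_0
  have t8 := (mul_eq_zero.mp t7).resolve_left (pow_ne_zero 1 n1)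
  have t9 : 0 = s11 := by linear_combination (-1) * t8
  subst t9
  have t10 : (c02) ^ 1 * (s12 + s21) = 0 := by linear_combination e1_2_1
  have t11 := (mul_eq_zero.mp t10).resolve_left (pow_ne_zero 1 n1)
  have t12 : -s12 = s21 := by linear_combination (-1) * t11
  subst t12
  have r3 : b02 * c02 + b02 * s12 + c02 * s22 = 0 := by linear_combination e1_1_2
  by_cases h4 : c02 + s12 = 0
  · have t13 : -c02 = s12 := by linear_combination (-1) * h4
    subst t13
    have t14 : (c02) ^ 1 * (s22) = 0 := by linear_combination r3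
    have t15 := (mul_eq_zero.mp t14).resolve_left (pow_ne_zero 1 n1)
    have t16 : 0 = s22 := by linear_combination (-1) * t15
    subst t16
    have t17 : (c02) ^ 1 * (v20) = 0 := by linear_combination (-1) * e1_4_0
    have t18 := (mul_eq_zero.mp t17).resolve_left (pow_ne_zero 1 n1)
    have t19 : 0 = v20 := by linear_combination (-1) * t18
    subst t19
    have t20 : (c02) ^ 1 * (u20) = 0 := by linear_combination e1_3_1
    have t21 := (mul_eq_zero.mp t20).resolve_left (pow_ne_zero 1 n1)
    have t22 : 0 = u20 := by linear_combination (-1) * t21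
    subst t22
    have r5 : b02 * l1 + c02 * u11 = 0 := by linear_combination e1_2_2
    have r6 : b02 * u11 + 2 * b02 * l2 + 2 * c02 * u02 = 0 := by linear_combination (2) * e2_0_4
    by_cases h7 : a02 = 0
    · have t23 : 0 = a02 := by linear_combination (-1) * h7
      subst t23
      have r8 : 4 * b02 ^ 2 * q02 + c02 * u02 ^ 2 = 0 := by linear_combination (-2 * b02)
          * e1_1_4 + (1 / 2 * u02) * r6
      have t24 : (b02) ^ 1 * (2 * b02 ^ 2 * q11 + c02 * u11
          * u02) = 0 := by linear_combination (-b02 ^ 2) * e1_2_3 + (1 / 2 * b02 * u02) * r5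
          + (1 / 4 * b02 * u11) * r6
      have t25 := (mul_eq_zero.mp t24).resolve_left (pow_ne_zero 1 n2)
      have r9 : 2 * b02 ^ 2 * q11 + c02 * u11 * u02 = 0 := by linear_combination t25
      have r10 : 4 * b02 ^ 2 * q20 + c02 * u11 ^ 2 = 0 := by linear_combination (-2 * b02)
          * e1_3_2 + (u11) * r5
      have t26 : (c02) ^ 1 * ((b02) ^ 2 * (u11)) = 0 := by linear_combination (-1 / 2 * b02)
          * f_1_4 + (b02 ^ 2) * r5
      have t27 := (mul_eq_zero.mp t26).resolve_left (pow_ne_zero 1 n1)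
      have t28 := (mul_eq_zero.mp t27).resolve_left (pow_ne_zero 2 n2)
      have t29 : 0 = u11 := by linear_combination (-1) * t28
      subst t29
      have t30 : (b02) ^ 1 * (l1) = 0 := by linear_combination r5
      have t31 := (mul_eq_zero.mp t30).resolve_left (pow_ne_zero 1 n2)
      have t32 : 0 = l1 := by linear_combination (-1) * t31
      subst t32
      have t33 : (b02) ^ 2 * (q11) = 0 := by linear_combination (1 / 2) * r9
      have t34 := (mul_eq_zero.mp t33).resolve_left (pow_ne_zero 2 n2)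
      have t35 : 0 = q11 := by linear_combination (-1) * t34
      subst t35
      have t36 : (b02) ^ 2 * (q20) = 0 := by linear_combination (1 / 4) * r10
      have t37 := (mul_eq_zero.mp t36).resolve_left (pow_ne_zero 2 n2)
      have t38 : 0 = q20 := by linear_combination (-1) * t37
      subst t38
      have t39 : (c02) ^ 1 * ((b02) ^ 2 * (u02)) = 0 := by linear_combination (-1 / 2 * b02)
          * f_0_5 + (1 / 2 * b02 ^ 2) * r6
      have t40 := (mul_eq_zero.mp t39).resolve_left (pow_ne_zero 1 n1)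
      have t41 := (mul_eq_zero.mp t40).resolve_left (pow_ne_zero 2 n2)
      have t42 : 0 = u02 := by linear_combination (-1) * t41
      subst t42
      have t43 : (b02) ^ 1 * (l2) = 0 := by linear_combination (1 / 2) * r6
      have t44 := (mul_eq_zero.mp t43).resolve_left (pow_ne_zero 1 n2)
      have t45 : 0 = l2 := by linear_combination (-1) * t44
      subst t45
      have t46 : (b02) ^ 2 * (q02) = 0 := by linear_combination (1 / 4) * r8
      have t47 := (mul_eq_zero.mp t46).resolve_left (pow_ne_zero 2 n2)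
      have t48 : 0 = q02 := by linear_combination (-1) * t47
      subst t48
      exact Or.inl ⟨by ring, by ring, by ring, by ring, by ring, by ring, by ring, by ring, n1, n2⟩
    · have t49 : (c02) ^ 1 * ((b02) ^ 1 * ((a02) ^ 1
          * (u11))) = 0 := by linear_combination (-b02 ^ 2) * e1_1_3 + (a02 * b02) * r5
          + (1 / 2 * b02 ^ 2) * r6
      have t50 := (mul_eq_zero.mp t49).resolve_left (pow_ne_zero 1 n1)
      have t51 := (mul_eq_zero.mp t50).resolve_left (pow_ne_zero 1 n2)
      have t52 := (mul_eq_zero.mp t51).resolve_left (pow_ne_zero 1 h7)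
      have t53 : 0 = u11 := by linear_combination (-1) * t52
      subst t53
      have t54 : (b02) ^ 1 * (l1) = 0 := by linear_combination r5
      have t55 := (mul_eq_zero.mp t54).resolve_left (pow_ne_zero 1 n2)
      have t56 : 0 = l1 := by linear_combination (-1) * t55
      subst t56
      have t57 : (c02) ^ 1 * ((a02) ^ 1 * (u02)) = 0 := by linear_combination (-b02) * e1_0_4
          + (1 / 2 * a02) * r6
      have t58 := (mul_eq_zero.mp t57).resolve_left (pow_ne_zero 1 n1)
      have t59 := (mul_eq_zero.mp t58).resolve_left (pow_ne_zero 1 h7)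
      have t60 : 0 = u02 := by linear_combination (-1) * t59
      subst t60
      have t61 : (b02) ^ 1 * (l2) = 0 := by linear_combination (1 / 2) * r6
      have t62 := (mul_eq_zero.mp t61).resolve_left (pow_ne_zero 1 n2)
      have t63 : 0 = l2 := by linear_combination (-1) * t62
      subst t63
      have t64 : (b02) ^ 1 * (q20) = 0 := by linear_combination (-1 / 2) * e1_3_2
      have t65 := (mul_eq_zero.mp t64).resolve_left (pow_ne_zero 1 n2)
      have t66 : 0 = q20 := by linear_combination (-1) * t65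
      subst t66
      have t67 : (b02) ^ 1 * (q11) = 0 := by linear_combination (-1 / 2) * e1_2_3
      have t68 := (mul_eq_zero.mp t67).resolve_left (pow_ne_zero 1 n2)
      have t69 : 0 = q11 := by linear_combination (-1) * t68
      subst t69
      have t70 : (b02) ^ 1 * (q02) = 0 := by linear_combination (-1 / 2) * e1_1_4
      have t71 := (mul_eq_zero.mp t70).resolve_left (pow_ne_zero 1 n2)
      have t72 : 0 = q02 := by linear_combination (-1) * t71
      subst t72
      exact Or.inr (⟨by ring, by ring, by ring, by ring, by ring, by ring, by ring, n1, n2, h7⟩)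
  · have t73 : (c02 + s12) ^ 1 * (a02 * c02 - b02 ^ 2) = 0 := by linear_combination (c02)
        * e1_0_3 + (-b02) * r3
    have t74 := (mul_eq_zero.mp t73).resolve_left (pow_ne_zero 1 h4)
    have r11 : a02 * c02 - b02 ^ 2 = 0 := by linear_combination t74
    have t75 : (c02) ^ 1 * ((b02) ^ 1 * (b02 * u11 - 2 * b02 * l2 + c02 * u02 + u02
        * s12)) = 0 := by linear_combination (-2 * c02 ^ 2) * e1_0_4 + (c02 * u02) * r3 + (-c02
        * u11 + 2 * c02 * l2) * r11
    have t76 := (mul_eq_zero.mp t75).resolve_left (pow_ne_zero 1 n1)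
    have t77 := (mul_eq_zero.mp t76).resolve_left (pow_ne_zero 1 n2)
    have r12 : b02 * u11 - 2 * b02 * l2 + c02 * u02 + u02 * s12 = 0 := by linear_combination t77
    have t78 : (b02) ^ 1 * (b02 * u11 + 2 * c02 * u02 + u02
        * s12) = 0 := by linear_combination (b02) * e2_0_4 + (1 / 2 * b02) * r12
    have t79 := (mul_eq_zero.mp t78).resolve_left (pow_ne_zero 1 n2)
    have r13 : b02 * u11 + 2 * c02 * u02 + u02 * s12 = 0 := by linear_combination t79
    have r14 : -2 * b02 ^ 2 * l2 - b02 * c02 * u02 = 0 := by linear_combination (b02) * r12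
        + (-b02) * r13
    have t80 : (b02) ^ 1 * (-2 * b02 * l2 - c02 * u02) = 0 := by linear_combination r14
    have t81 := (mul_eq_zero.mp t80).resolve_left (pow_ne_zero 1 n2)
    have r15 : -2 * b02 * l2 - c02 * u02 = 0 := by linear_combination t81
    have t82 : (c02) ^ 1 * ((b02) ^ 2 * (2 * b02 ^ 2 * u20 - 2 * b02 ^ 2 * l1 - 2 * c02 ^ 2
        * u02 - 3 * c02 * u02 * s12 - u02 * s12 ^ 2)) = 0 := by linear_combination (-2
        * b02 ^ 2 * c02 ^ 2) * e1_1_3 + (b02 ^ 2 * c02 * u11) * r3 + (-2 * b02 ^ 2 * c02 * u20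
        + 2 * b02 ^ 2 * c02 * l1) * r11 + (-b02 ^ 2 * c02 ^ 2) * r15 + (-b02 ^ 2 * c02 * s12) * r13
    have t83 := (mul_eq_zero.mp t82).resolve_left (pow_ne_zero 1 n1)
    have t84 := (mul_eq_zero.mp t83).resolve_left (pow_ne_zero 2 n2)
    have r16 : 2 * b02 ^ 2 * u20 - 2 * b02 ^ 2 * l1 - 2 * c02 ^ 2 * u02 - 3 * c02 * u02 * s12
        - u02 * s12 ^ 2 = 0 := by linear_combination t84
    have t85 : (b02) ^ 2 * (2 * b02 ^ 3 * v20 - 2 * b02 ^ 2 * c02 * u20 + 4 * c02 ^ 3 * u02 + 4
        * c02 ^ 2 * u02 * s12 + c02 * u02 * s12 ^ 2) = 0 := by linear_combination (-b02 ^ 3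
        * c02) * e2_1_3 + (-2 * b02 ^ 3 * v20) * r11 + (3 / 2 * b02 ^ 2 * c02 ^ 2 + 1 / 2
        * b02 ^ 2 * c02 * s12) * r13 + (-1 / 2 * b02 ^ 2 * c02) * r16
    have t86 := (mul_eq_zero.mp t85).resolve_left (pow_ne_zero 2 n2)
    have r17 : 2 * b02 ^ 3 * v20 - 2 * b02 ^ 2 * c02 * u20 + 4 * c02 ^ 3 * u02 + 4 * c02 ^ 2
        * u02 * s12 + c02 * u02 * s12 ^ 2 = 0 := by linear_combination t86
    have t87 : (c02) ^ 1 * ((b02) ^ 1 * (4 * b02 ^ 2 * c02 * u20 - 20 * c02 ^ 3 * u02 - 24
        * c02 ^ 2 * u02 * s12 - 9 * c02 * u02 * s12 ^ 2 - u02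
        * s12 ^ 3)) = 0 := by linear_combination (-4 * b02 ^ 3 * c02) * e1_3_1 + (2 * b02 ^ 3
        * v20) * r3 + (-5 * b02 * c02 - b02 * s12) * r17
    have t88 := (mul_eq_zero.mp t87).resolve_left (pow_ne_zero 1 n1)
    have t89 := (mul_eq_zero.mp t88).resolve_left (pow_ne_zero 1 n2)
    have r18 : 4 * b02 ^ 2 * c02 * u20 - 20 * c02 ^ 3 * u02 - 24 * c02 ^ 2 * u02 * s12 - 9
        * c02 * u02 * s12 ^ 2 - u02 * s12 ^ 3 = 0 := by linear_combination t89
    have r19 : -8 * b02 ^ 4 * c02 * l1 + 32 * b02 ^ 2 * c02 ^ 3 * u02 + 36 * b02 ^ 2 * c02 ^ 2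
        * u02 * s12 + 14 * b02 ^ 2 * c02 * u02 * s12 ^ 2 + 2 * b02 ^ 2 * u02
        * s12 ^ 3 = 0 := by linear_combination (4 * b02 ^ 2 * c02) * r16 + (-2 * b02 ^ 2) * r18
    have r20 : 8 * b02 ^ 5 * c02 * v20 - 24 * b02 ^ 2 * c02 ^ 4 * u02 - 32 * b02 ^ 2 * c02 ^ 3
        * u02 * s12 - 14 * b02 ^ 2 * c02 ^ 2 * u02 * s12 ^ 2 - 2 * b02 ^ 2 * c02 * u02
        * s12 ^ 3 = 0 := by linear_combination (4 * b02 ^ 2 * c02) * r17 + (2 * b02 ^ 2 * c02) * r18
    have t90 : (b02) ^ 2 * (-8 * b02 ^ 2 * c02 * l1 + 32 * c02 ^ 3 * u02 + 36 * c02 ^ 2 * u02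
        * s12 + 14 * c02 * u02 * s12 ^ 2 + 2 * u02 * s12 ^ 3) = 0 := by linear_combination r19
    have t91 := (mul_eq_zero.mp t90).resolve_left (pow_ne_zero 2 n2)
    have r21 : -8 * b02 ^ 2 * c02 * l1 + 32 * c02 ^ 3 * u02 + 36 * c02 ^ 2 * u02 * s12 + 14
        * c02 * u02 * s12 ^ 2 + 2 * u02 * s12 ^ 3 = 0 := by linear_combination t91
    have t92 : (c02) ^ 1 * ((b02) ^ 2 * (8 * b02 ^ 3 * v20 - 24 * c02 ^ 3 * u02 - 32 * c02 ^ 2
        * u02 * s12 - 14 * c02 * u02 * s12 ^ 2 - 2 * u02
        * s12 ^ 3)) = 0 := by linear_combination r20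
    have t93 := (mul_eq_zero.mp t92).resolve_left (pow_ne_zero 1 n1)
    have t94 := (mul_eq_zero.mp t93).resolve_left (pow_ne_zero 2 n2)
    have r22 : 8 * b02 ^ 3 * v20 - 24 * c02 ^ 3 * u02 - 32 * c02 ^ 2 * u02 * s12 - 14 * c02
        * u02 * s12 ^ 2 - 2 * u02 * s12 ^ 3 = 0 := by linear_combination t94
    by_cases h23 : u02 = 0
    · have t95 : 0 = u02 := by linear_combination (-1) * h23
      subst t95
      have t96 : (b02) ^ 1 * (l2) = 0 := by linear_combination (-1 / 2) * r15
      have t97 := (mul_eq_zero.mp t96).resolve_left (pow_ne_zero 1 n2)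
      have t98 : 0 = l2 := by linear_combination (-1) * t97
      subst t98
      have t99 : (b02) ^ 1 * (u11) = 0 := by linear_combination r13
      have t100 := (mul_eq_zero.mp t99).resolve_left (pow_ne_zero 1 n2)
      have t101 : 0 = u11 := by linear_combination (-1) * t100
      subst t101
      have t102 : (c02) ^ 1 * ((b02) ^ 2 * (l1)) = 0 := by linear_combination (-1 / 8) * r21
      have t103 := (mul_eq_zero.mp t102).resolve_left (pow_ne_zero 1 n1)
      have t104 := (mul_eq_zero.mp t103).resolve_left (pow_ne_zero 2 n2)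
      have t105 : 0 = l1 := by linear_combination (-1) * t104
      subst t105
      have t106 : (b02) ^ 3 * (v20) = 0 := by linear_combination (1 / 8) * r22
      have t107 := (mul_eq_zero.mp t106).resolve_left (pow_ne_zero 3 n2)
      have t108 : 0 = v20 := by linear_combination (-1) * t107
      subst t108
      have t109 : (c02) ^ 1 * ((b02) ^ 2 * (u20)) = 0 := by linear_combination (1 / 4) * r18
      have t110 := (mul_eq_zero.mp t109).resolve_left (pow_ne_zero 1 n1)
      have t111 := (mul_eq_zero.mp t110).resolve_left (pow_ne_zero 2 n2)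
      have t112 : 0 = u20 := by linear_combination (-1) * t111
      subst t112
      have t113 : (c02) ^ 1 * ((b02) ^ 1 * (b02 * q11 + 3 * c02 * q02 + q02
          * s12)) = 0 := by linear_combination (-c02 ^ 2) * e1_1_4 + (c02 * q02) * r3 + (-c02
          * q11) * r11
      have t114 := (mul_eq_zero.mp t113).resolve_left (pow_ne_zero 1 n1)
      have t115 := (mul_eq_zero.mp t114).resolve_left (pow_ne_zero 1 n2)
      have r24 : b02 * q11 + 3 * c02 * q02 + q02 * s12 = 0 := by linear_combination t115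
      have t116 : (c02) ^ 1 * ((b02) ^ 1 * (2 * b02 ^ 2 * q20 - 9 * c02 ^ 2 * q02 - 6 * c02
          * q02 * s12 - q02 * s12 ^ 2)) = 0 := by linear_combination (-b02 * c02 ^ 2) * e1_2_3
          + (b02 * c02 * q11) * r3 + (-2 * b02 * c02 * q20) * r11 + (-3 * b02 * c02 ^ 2 - b02
          * c02 * s12) * r24
      have t117 := (mul_eq_zero.mp t116).resolve_left (pow_ne_zero 1 n1)
      have t118 := (mul_eq_zero.mp t117).resolve_left (pow_ne_zero 1 n2)
      have r25 : 2 * b02 ^ 2 * q20 - 9 * c02 ^ 2 * q02 - 6 * c02 * q02 * s12 - q02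
          * s12 ^ 2 = 0 := by linear_combination t118
      by_cases h26 : q02 = 0
      · have t119 : 0 = q02 := by linear_combination (-1) * h26
        subst t119
        have t120 : (b02) ^ 1 * (q11) = 0 := by linear_combination r24
        have t121 := (mul_eq_zero.mp t120).resolve_left (pow_ne_zero 1 n2)
        have t122 : 0 = q11 := by linear_combination (-1) * t121
        subst t122
        have t123 : (b02) ^ 2 * (q20) = 0 := by linear_combination (1 / 2) * r25
        have t124 := (mul_eq_zero.mp t123).resolve_left (pow_ne_zero 2 n2)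
        have t125 : 0 = q20 := by linear_combination (-1) * t124
        subst t125
        exfalso
        obtain ⟨x, y, hxy⟩ := hD
        have t126 : (c02) ^ 1 * ((y ^ 4 * a02 * c02 - y ^ 4
            * b02 ^ 2)) = 0 := by linear_combination (y ^ 4 * c02) * r11
        have t127 := (mul_eq_zero.mp t126).resolve_left (pow_ne_zero 1 n1)
        exact hxy (by linear_combination t127)
      · by_cases h27 : 3 * c02 + s12 = 0
        · have t128 : -3 * c02 = s12 := by linear_combination (-1) * h27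
          subst t128
          have t129 : (c02) ^ 1 * (-2 * b02 + s22) = 0 := by linear_combination r3
          have t130 := (mul_eq_zero.mp t129).resolve_left (pow_ne_zero 1 n1)
          have r28 : -2 * b02 + s22 = 0 := by linear_combination t130
          have t131 : 2 * b02 = s22 := by linear_combination (-1) * r28
          subst t131
          have t132 : (b02) ^ 1 * (q11) = 0 := by linear_combination r24
          have t133 := (mul_eq_zero.mp t132).resolve_left (pow_ne_zero 1 n2)
          have t134 : 0 = q11 := by linear_combination (-1) * t133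
          subst t134
          have t135 : (b02) ^ 2 * (q20) = 0 := by linear_combination (1 / 2) * r25
          have t136 := (mul_eq_zero.mp t135).resolve_left (pow_ne_zero 2 n2)
          have t137 : 0 = q20 := by linear_combination (-1) * t136
          subst t137
          exfalso
          have t138 : (c02) ^ 1 * ((b02) ^ 2 * ((q02) ^ 1
              * (1))) = 0 := by linear_combination (-1 / 4 * c02) * f_0_6 + (-c02 * q02) * r11
          have t139 := (mul_eq_zero.mp t138).resolve_left (pow_ne_zero 1 n1)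
          have t140 := (mul_eq_zero.mp t139).resolve_left (pow_ne_zero 2 n2)
          have t141 := (mul_eq_zero.mp t140).resolve_left (pow_ne_zero 1 h26)
          exact absurd t141 (by norm_num)
        · exfalso
          have t142 : (b02) ^ 1 * ((q02) ^ 1 * ((3 * c02 + s12) ^ 3
              * (1))) = 0 := by linear_combination (-2 * b02 ^ 2 * c02) * e1_3_2 + (2 * b02 ^ 2
              * q20) * r3 + (-3 * b02 * c02 - b02 * s12) * r25
          have t143 := (mul_eq_zero.mp t142).resolve_left (pow_ne_zero 1 n2)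
          have t144 := (mul_eq_zero.mp t143).resolve_left (pow_ne_zero 1 h26)
          have t145 := (mul_eq_zero.mp t144).resolve_left (pow_ne_zero 3 h27)
          exact absurd t145 (by norm_num)
    · by_cases h29 : 2 * c02 + s12 = 0
      · have t146 : -2 * c02 = s12 := by linear_combination (-1) * h29
        subst t146
        have t147 : (c02) ^ 1 * (-b02 + s22) = 0 := by linear_combination r3
        have t148 := (mul_eq_zero.mp t147).resolve_left (pow_ne_zero 1 n1)
        have r30 : -b02 + s22 = 0 := by linear_combination t148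
        have t149 : b02 = s22 := by linear_combination (-1) * r30
        subst t149
        have t150 : (b02) ^ 1 * (u11) = 0 := by linear_combination r13
        have t151 := (mul_eq_zero.mp t150).resolve_left (pow_ne_zero 1 n2)
        have t152 : 0 = u11 := by linear_combination (-1) * t151
        subst t152
        have t153 : (c02) ^ 1 * ((b02) ^ 2 * (l1)) = 0 := by linear_combination (-1 / 8) * r21
        have t154 := (mul_eq_zero.mp t153).resolve_left (pow_ne_zero 1 n1)
        have t155 := (mul_eq_zero.mp t154).resolve_left (pow_ne_zero 2 n2)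
        have t156 : 0 = l1 := by linear_combination (-1) * t155
        subst t156
        have t157 : (b02) ^ 3 * (v20) = 0 := by linear_combination (1 / 8) * r22
        have t158 := (mul_eq_zero.mp t157).resolve_left (pow_ne_zero 3 n2)
        have t159 : 0 = v20 := by linear_combination (-1) * t158
        subst t159
        have t160 : (c02) ^ 1 * ((b02) ^ 2 * (u20)) = 0 := by linear_combination (1 / 4) * r18
        have t161 := (mul_eq_zero.mp t160).resolve_left (pow_ne_zero 1 n1)
        have t162 := (mul_eq_zero.mp t161).resolve_left (pow_ne_zero 2 n2)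
        have t163 : 0 = u20 := by linear_combination (-1) * t162
        subst t163
        have t164 : (b02) ^ 1 * (q20) = 0 := by linear_combination (-1) * e1_3_2
        have t165 := (mul_eq_zero.mp t164).resolve_left (pow_ne_zero 1 n2)
        have t166 : 0 = q20 := by linear_combination (-1) * t165
        subst t166
        have t167 : (b02) ^ 1 * (q11) = 0 := by linear_combination (-1) * e1_2_3
        have t168 := (mul_eq_zero.mp t167).resolve_left (pow_ne_zero 1 n2)
        have t169 : 0 = q11 := by linear_combination (-1) * t168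
        subst t169
        have r31 : 4 * b02 ^ 2 * q02 + c02 * u02 ^ 2 = 0 := by linear_combination (-4 * b02)
            * e1_1_4 + (-u02) * r15
        exfalso
        have t170 : (c02) ^ 2 * ((b02) ^ 1 * ((u02) ^ 1
            * (1))) = 0 := by linear_combination (c02) * f_0_5 + (2 * c02 * l2) * r11
        have t171 := (mul_eq_zero.mp t170).resolve_left (pow_ne_zero 2 n1)
        have t172 := (mul_eq_zero.mp t171).resolve_left (pow_ne_zero 1 n2)
        have t173 := (mul_eq_zero.mp t172).resolve_left (pow_ne_zero 1 h23)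
        exact absurd t173 (by norm_num)
      · have t174 : (c02) ^ 1 * ((b02) ^ 3 * ((c02 + s12) ^ 1 * ((u02) ^ 1 * ((2 * c02
            + s12) ^ 2 * (3 * c02 + s12))))) = 0 := by linear_combination (-8 * b02 ^ 5
            * c02 ^ 2) * e2_2_2 + (8 * b02 ^ 5 * c02 * v20) * r3 + (-3 * b02 ^ 3 * c02 ^ 2
            - b02 ^ 3 * c02 * s12) * r22 + (3 * b02 ^ 3 * c02 ^ 2 + b02 ^ 3 * c02 * s12) * r18
        have t175 := (mul_eq_zero.mp t174).resolve_left (pow_ne_zero 1 n1)
        have t176 := (mul_eq_zero.mp t175).resolve_left (pow_ne_zero 3 n2)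
        have t177 := (mul_eq_zero.mp t176).resolve_left (pow_ne_zero 1 h4)
        have t178 := (mul_eq_zero.mp t177).resolve_left (pow_ne_zero 1 h23)
        have t179 := (mul_eq_zero.mp t178).resolve_left (pow_ne_zero 2 h29)
        have t180 : -3 * c02 = s12 := by linear_combination (-1) * t179
        subst t180
        have t181 : (c02) ^ 1 * (-2 * b02 + s22) = 0 := by linear_combination r3
        have t182 := (mul_eq_zero.mp t181).resolve_left (pow_ne_zero 1 n1)
        have r32 : -2 * b02 + s22 = 0 := by linear_combination t182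
        have t183 : 2 * b02 = s22 := by linear_combination (-1) * r32
        subst t183
        have t184 : (c02) ^ 1 * (-8 * b02 ^ 2 * l1 - 4 * c02 ^ 2
            * u02) = 0 := by linear_combination r21
        have t185 := (mul_eq_zero.mp t184).resolve_left (pow_ne_zero 1 n1)
        have r33 : -8 * b02 ^ 2 * l1 - 4 * c02 ^ 2 * u02 = 0 := by linear_combination t185
        have t186 : (b02) ^ 3 * (v20) = 0 := by linear_combination (1 / 8) * r22
        have t187 := (mul_eq_zero.mp t186).resolve_left (pow_ne_zero 3 n2)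
        have t188 : 0 = v20 := by linear_combination (-1) * t187
        subst t188
        have t189 : (c02) ^ 1 * (4 * b02 ^ 2 * u20 - 2 * c02 ^ 2
            * u02) = 0 := by linear_combination r18
        have t190 := (mul_eq_zero.mp t189).resolve_left (pow_ne_zero 1 n1)
        have r34 : 4 * b02 ^ 2 * u20 - 2 * c02 ^ 2 * u02 = 0 := by linear_combination t190
        exfalso
        have t191 : (c02) ^ 2 * ((b02) ^ 3 * ((u02) ^ 1 * (1))) = 0 := by linear_combination (2
            * b02 ^ 4) * e1_2_2 + (1 / 4 * b02 ^ 3) * r33 + (-b02 ^ 3) * r34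
        have t192 := (mul_eq_zero.mp t191).resolve_left (pow_ne_zero 2 n1)
        have t193 := (mul_eq_zero.mp t192).resolve_left (pow_ne_zero 3 n2)
        have t194 := (mul_eq_zero.mp t193).resolve_left (pow_ne_zero 1 h23)
        exact absurd t194 (by norm_num)

end Pool.Agent.H38.FM
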