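import Mathlib

/-!
# Elimination tree `Bz1` (generated)
-/

set_option linter.unusedVariables false
set_option linter.style.longLine false

noncomputable section

namespace Pool.Agent.H38.FM

theorem tree_Bz1
    (a20 a02 u11 u02 v20 v11 v02 q20 q11 q02 s1 s2 s11 s12 s21 s22 l1 l2 : ℂ)
    (e1_2_0 : a20 * s1 = 0)
    (e1_3_0 : a20 * s11 + 1 / 2 * v20 * s2 = 0)
    (e1_2_1 : a20 * s12 + u11 * s1 + 1 / 2 * v11 * s2 = 0)
    (e1_1_2 : a02 * s11 + 1 / 2 * u11 * s2 + u02 * s1 + 1 / 2 * v02 * s2 = 0)
    (e1_0_3 : a02 * s12 + 1 / 2 * u02 * s2 = 0)
    (e1_4_0 : -a20 * v20 + 1 / 2 * v20 * s21 + q20 * s1 = 0)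
    (e1_3_1 : -1 / 2 * a20 * v11 + a20 * l1 + u11 * s11 + 1 / 2 * v20 * s22 + 1 / 2 * v11 * s21
        + q20 * s2 + q11 * s1 = 0)
    (e1_2_2 : 1 / 2 * a20 * u11 + a20 * l2 + u11 * s12 + 1 / 2 * u11 * s21 + u02 * s11 + 1 / 2
        * v11 * s22 + 1 / 2 * v02 * s21 + q11 * s2 + q02 * s1 = 0)
    (e1_1_3 : a20 * u02 + 1 / 2 * a02 * v11 + a02 * l1 + 1 / 2 * u11 * s22 + u02 * s12 + 1 / 2
        * u02 * s21 + 1 / 2 * v02 * s22 + q02 * s2 = 0)
    (e1_0_4 : -1 / 2 * a02 * u11 + a02 * v02 + a02 * l2 + 1 / 2 * u02 * s22 = 0)
    (e1_5_0 : -1 / 4 * v20 * v11 - 1 / 2 * v20 * l1 + q20 * s11 = 0)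
    (e1_4_1 : -2 * a20 * q20 - 1 / 4 * u11 * v20 - 1 / 2 * v20 * v02 - 1 / 2 * v20 * l2 - 1 / 4
        * v11 ^ 2 - 1 / 2 * v11 * l1 + q20 * s12 + q20 * s21 + q11 * s11 = 0)
    (e1_3_2 : -a20 * q11 + 1 / 2 * u11 * l1 - 3 / 4 * v11 * v02 - 1 / 2 * v11 * l2 - 1 / 2
        * v02 * l1 + q20 * s22 + q11 * s12 + q11 * s21 + q02 * s11 = 0)
    (e1_2_3 : -2 * a02 * q20 + 1 / 4 * u11 ^ 2 + 1 / 4 * u11 * v02 + 1 / 2 * u11 * l2 + 1 / 4
        * u02 * v11 + 1 / 2 * u02 * l1 - 1 / 2 * v02 ^ 2 - 1 / 2 * v02 * l2 + q11 * s22 + q02
        * s12 + q02 * s21 = 0)
    (e1_1_4 : -a02 * q11 + 1 / 4 * u11 * u02 + 1 / 2 * u02 * v02 + 1 / 2 * u02 * l2 + q02 * s22 = 0)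
    (e2_2_1 : v20 * s2 + 1 / 2 * v11 * s1 = 0)
    (e2_1_2 : 1 / 2 * u11 * s1 + v11 * s2 + 1 / 2 * v02 * s1 = 0)
    (e2_0_3 : 1 / 2 * u02 * s1 + v02 * s2 = 0)
    (e2_2_2 : -a20 * v11 + 1 / 2 * u11 * s11 + v20 * s22 + 1 / 2 * v11 * s12 + v11 * s21
        + 1 / 2 * v02 * s11 + q20 * s2 + q11 * s1 = 0)
    (e2_1_3 : -2 * a02 * v20 + 1 / 2 * u11 * s12 + 1 / 2 * u02 * s11 + v11 * s22 + 1 / 2 * v02
        * s12 + v02 * s21 + q11 * s2 + q02 * s1 = 0)
    (e2_0_4 : -a02 * v11 + 1 / 2 * u02 * s12 + v02 * s22 + q02 * s2 = 0)
    (f_4_1 : -a20 * v20 * s12 - 2 * a20 * v20 * s21 + 2 * a20 * v11 * s11 + 2 * a20 * q20 * s1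
        + u11 * v20 * s1 + 5 / 2 * v20 * v11 * s2 - v20 * v02 * s1 - 1 / 2 * v11 ^ 2 * s1 = 0)
    (f_3_2 : -4 * a20 * v20 * s22 - a20 * v11 * s21 + 3 * a20 * v02 * s11 - 4 * a20 * q20 * s2
        + 3 * a20 * q11 * s1 + 3 * a02 * v20 * s11 - 2 * u11 * v20 * s2 + 3 / 2 * u11 * v11
        * s1 + 3 / 2 * u02 * v20 * s1 + 2 * v20 * v02 * s2 + v11 ^ 2 * s2 - 3 / 2 * v11 * v02
        * s1 = 0)
    (f_4_2 : -1 / 2 * a20 * u11 * v20 - a20 * v20 * v02 - a20 * v20 * l2 - 1 / 2 * a20
        * v11 ^ 2 - a20 * v11 * l1 - 2 * a20 * q20 * s21 + 3 * a20 * q11 * s11 - 2 * a02
        * v20 ^ 2 - u11 * v20 * s21 + 3 / 2 * u11 * v11 * s11 + 3 / 2 * u02 * v20 * s11 + 5 / 2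
        * v20 * v11 * s22 + v20 * v02 * s21 + 1 / 2 * v11 ^ 2 * s21 - 3 / 2 * v11 * v02 * s11 = 0)
    (f_3_3 : -1 / 2 * a20 * u11 * v11 - a20 * u02 * v20 - 1 / 2 * a20 * v11 * v02 - a20 * v11
        * l2 - a20 * v02 * l1 - 4 * a20 * q20 * s22 + a20 * q11 * s12 - a20 * q11 * s21 + 4
        * a20 * q02 * s11 - 7 / 2 * a02 * v20 * v11 - a02 * v20 * l1 + 4 * a02 * q20 * s11
        - u11 ^ 2 * s11 - 2 * u11 * v20 * s22 + 1 / 2 * u11 * v11 * s12 - 1 / 2 * u11 * v11
        * s21 + 2 * u11 * v02 * s11 + 1 / 2 * u02 * v20 * s12 - 1 / 2 * u02 * v20 * s21 + 2
        * u02 * v11 * s11 + 2 * v20 * v02 * s22 + v11 ^ 2 * s22 - 1 / 2 * v11 * v02 * s12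
        + 1 / 2 * v11 * v02 * s21 - v02 ^ 2 * s11 = 0)
    (f_1_5 : -a20 * u02 * v02 - 2 * a20 * q02 * s22 + 1 / 2 * a02 * u11 * v11 - 5 / 2 * a02
        * v11 * v02 - a02 * v11 * l2 - a02 * v02 * l1 - 2 * a02 * q20 * s22 + 3 * a02 * q11
        * s12 + a02 * q11 * s21 + 6 * a02 * q02 * s11 + 1 / 2 * u11 ^ 2 * s22 - 3 / 2 * u11
        * u02 * s12 - 1 / 2 * u11 * u02 * s21 - u11 * v02 * s22 - 3 / 2 * u02 ^ 2 * s11 - u02
        * v11 * s22 + 3 / 2 * u02 * v02 * s12 + 1 / 2 * u02 * v02 * s21 + 1 / 2 * v02 ^ 2 * s22 = 0)
    (f_0_6 : 1 / 2 * a02 * u11 * v02 - a02 * v02 ^ 2 - a02 * v02 * l2 - a02 * q11 * s22 + 4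
        * a02 * q02 * s12 + 2 * a02 * q02 * s21 + 1 / 2 * u11 * u02 * s22 - u02 ^ 2 * s12
        - 1 / 2 * u02 ^ 2 * s21 - 1 / 2 * u02 * v02 * s22 = 0)
    (n1 : a20 ≠ 0)
    (hD : ∃ x y : ℂ, (x ^ 4 * q20 + x ^ 3 * y * q11 + x ^ 2 * y ^ 2 * q02 + x ^ 2 * y * u11 + x
        * y ^ 2 * u02 + x ^ 2 * a20 + y ^ 2 * a02) * (x ^ 2 * y ^ 2 * q20 + x * y ^ 3 * q11
        + y ^ 4 * q02 + x ^ 2 * y * v20 + x * y ^ 2 * v11 + y ^ 3 * v02) - (x ^ 3 * y * q20
        + x ^ 2 * y ^ 2 * q11 + x * y ^ 3 * q02 + 1 / 2 * x ^ 3 * v20 + 1 / 2 * x ^ 2 * y * v11
        + 1 / 2 * x * y ^ 2 * u11 + 1 / 2 * x * y ^ 2 * v02 + 1 / 2 * y ^ 3 * u02) ^ 2 ≠ 0) :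
    ((u11 = 0) ∧ (u02 = 0) ∧ (v20 = 0) ∧ (v11 = 0) ∧ (v02 = 0) ∧ (q20 = 0) ∧ (q11 = 0) ∧ (a20 ≠ 0) ∧ (q02 ≠ 0)) ∨
    ((a02 = 0) ∧ (u02 = 0) ∧ (v20 = 0) ∧ (v11 = 0) ∧ (v02 = 0) ∧ (q20 = 0) ∧ (q11 = 0) ∧ (a20 ≠ 0) ∧ (u11 ≠ 0)) ∨
    ((a02 = 0) ∧ (u11 = v02) ∧ (u02 = 0) ∧ (v20 = 0) ∧ (v11 = 0) ∧ (q20 = 0) ∧ (q11 = 0) ∧ (a20 ≠ 0) ∧ (v02 ≠ 0)) ∨
    ((u11 = v02) ∧ (u02 = 0) ∧ (v20 = 0) ∧ (v11 = 0) ∧ (q20 = 0) ∧ (q11 = 0) ∧ (a20 ≠ 0) ∧ (v02 ≠ 0) ∧ (a02 ≠ 0)) := by
  have t1 : (a20) ^ 1 * (s1) = 0 := by linear_combination e1_2_0
  have t2 := (mul_eq_zero.mp t1).resolve_left (pow_ne_zero 1 n1)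
  have t3 : 0 = s1 := by linear_combination (-1) * t2
  subst t3
  have r2 : 2 * a20 * s12 + v11 * s2 = 0 := by linear_combination (2) * e1_2_1
  have r3 : 2 * a20 * s11 + v20 * s2 = 0 := by linear_combination (2) * e1_3_0
  by_cases h4 : v20 = 0
  · have t4 : 0 = v20 := by linear_combination (-1) * h4
    subst t4
    have t5 : (a20) ^ 1 * (s11) = 0 := by linear_combination (1 / 2) * r3
    have t6 := (mul_eq_zero.mp t5).resolve_left (pow_ne_zero 1 n1)
    have t7 : 0 = s11 := by linear_combination (-1) * t6
    subst t7
    by_cases h5 : v11 = 0
    · have t8 : 0 = v11 := by linear_combination (-1) * h5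
      subst t8
      have t9 : (a20) ^ 1 * (s12) = 0 := by linear_combination (1 / 2) * r2
      have t10 := (mul_eq_zero.mp t9).resolve_left (pow_ne_zero 1 n1)
      have t11 : 0 = s12 := by linear_combination (-1) * t10
      subst t11
      by_cases h6 : u02 = 0
      · have t12 : 0 = u02 := by linear_combination (-1) * h6
        subst t12
        by_cases h7 : v02 = 0
        · have t13 : 0 = v02 := by linear_combination (-1) * h7
          subst t13
          by_cases h8 : u11 = 0
          · have t14 : 0 = u11 := by linear_combination (-1) * h8
            subst t14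
            have r9 : a20 * l2 + q11 * s2 = 0 := by linear_combination e1_2_2
            have r10 : a20 * l1 + q20 * s2 = 0 := by linear_combination e1_3_1
            by_cases h11 : q20 = 0
            · have t15 : 0 = q20 := by linear_combination (-1) * h11
              subst t15
              have t16 : (a20) ^ 1 * (l1) = 0 := by linear_combination r10
              have t17 := (mul_eq_zero.mp t16).resolve_left (pow_ne_zero 1 n1)
              have t18 : 0 = l1 := by linear_combination (-1) * t17
              subst t18
              by_cases h12 : q02 = 0
              · have t19 : 0 = q02 := by linear_combination (-1) * h12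
                subst t19
                by_cases h13 : q11 = 0
                · have t20 : 0 = q11 := by linear_combination (-1) * h13
                  subst t20
                  have t21 : (a20) ^ 1 * (l2) = 0 := by linear_combination r9
                  have t22 := (mul_eq_zero.mp t21).resolve_left (pow_ne_zero 1 n1)
                  have t23 : 0 = l2 := by linear_combination (-1) * t22
                  subst t23
                  exfalso
                  obtain ⟨x, y, hxy⟩ := hD
                  exact hxy (by linear_combination 0)
                · have t24 : (q11) ^ 1 * (s2) = 0 := by linear_combination e2_1_3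
                  have t25 := (mul_eq_zero.mp t24).resolve_left (pow_ne_zero 1 h13)
                  have t26 : 0 = s2 := by linear_combination (-1) * t25
                  subst t26
                  have t27 : (a20) ^ 1 * (l2) = 0 := by linear_combination r9
                  have t28 := (mul_eq_zero.mp t27).resolve_left (pow_ne_zero 1 n1)
                  have t29 : 0 = l2 := by linear_combination (-1) * t28
                  subst t29
                  have t30 : (q11) ^ 1 * (s22) = 0 := by linear_combination e1_2_3
                  have t31 := (mul_eq_zero.mp t30).resolve_left (pow_ne_zero 1 h13)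
                  have t32 : 0 = s22 := by linear_combination (-1) * t31
                  subst t32
                  have t33 : (q11) ^ 1 * (a02) = 0 := by linear_combination (-1) * e1_1_4
                  have t34 := (mul_eq_zero.mp t33).resolve_left (pow_ne_zero 1 h13)
                  have t35 : 0 = a02 := by linear_combination (-1) * t34
                  subst t35
                  have t36 : (q11) ^ 1 * (a20 - s21) = 0 := by linear_combination (-1) * e1_3_2
                  have t37 := (mul_eq_zero.mp t36).resolve_left (pow_ne_zero 1 h13)
                  have t38 : a20 = s21 := by linear_combination (1) * t37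
                  subst t38
                  exfalso
                  have t39 : (a20) ^ 2 * ((q11) ^ 1 * (1)) = 0 := by linear_combination (-1) * f_3_3
                  have t40 := (mul_eq_zero.mp t39).resolve_left (pow_ne_zero 2 n1)
                  have t41 := (mul_eq_zero.mp t40).resolve_left (pow_ne_zero 1 h13)
                  exact absurd t41 (by norm_num)
              · have t42 : (q02) ^ 1 * (s2) = 0 := by linear_combination e1_1_3
                have t43 := (mul_eq_zero.mp t42).resolve_left (pow_ne_zero 1 h12)
                have t44 : 0 = s2 := by linear_combination (-1) * t43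
                subst t44
                have t45 : (a20) ^ 1 * (l2) = 0 := by linear_combination r9
                have t46 := (mul_eq_zero.mp t45).resolve_left (pow_ne_zero 1 n1)
                have t47 : 0 = l2 := by linear_combination (-1) * t46
                subst t47
                have r14 : a02 * q11 - q02 * s22 = 0 := by linear_combination (-1) * e1_1_4
                have r15 : a02 * q11 ^ 2 + q02 ^ 2 * s21 = 0 := by linear_combination (q02)
                    * e1_2_3 + (q11) * r14
                by_cases h16 : q11 = 0
                · have t48 : 0 = q11 := by linear_combination (-1) * h16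
                  subst t48
                  have t49 : (q02) ^ 1 * (s22) = 0 := by linear_combination (-1) * r14
                  have t50 := (mul_eq_zero.mp t49).resolve_left (pow_ne_zero 1 h12)
                  have t51 : 0 = s22 := by linear_combination (-1) * t50
                  subst t51
                  have t52 : (q02) ^ 2 * (s21) = 0 := by linear_combination r15
                  have t53 := (mul_eq_zero.mp t52).resolve_left (pow_ne_zero 2 h12)
                  have t54 : 0 = s21 := by linear_combination (-1) * t53
                  subst t54
                  exact Or.inl ⟨by ring, by ring, by ring, by ring, by ring, by ring, by ring, n1, h12⟩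
                · have t55 : (q11) ^ 1 * (a20 * q02 ^ 2 + a02
                      * q11 ^ 2) = 0 := by linear_combination (-q02 ^ 2) * e1_3_2 + (q11) * r15
                  have t56 := (mul_eq_zero.mp t55).resolve_left (pow_ne_zero 1 h16)
                  have r17 : a20 * q02 ^ 2 + a02 * q11 ^ 2 = 0 := by linear_combination t56
                  have r18 : -a20 * q11 * q02 ^ 2 - q11 ^ 2 * q02
                      * s22 = 0 := by linear_combination (q11 ^ 2) * r14 + (-q11) * r17
                  have r19 : -a20 * q11 ^ 2 * q02 ^ 2 + q11 ^ 2 * q02 ^ 2
                      * s21 = 0 := by linear_combination (q11 ^ 2) * r15 + (-q11 ^ 2) * r17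
                  have t57 : (q02) ^ 1 * ((q11) ^ 1 * (-a20 * q02 - q11
                      * s22)) = 0 := by linear_combination r18
                  have t58 := (mul_eq_zero.mp t57).resolve_left (pow_ne_zero 1 h12)
                  have t59 := (mul_eq_zero.mp t58).resolve_left (pow_ne_zero 1 h16)
                  have r20 : -a20 * q02 - q11 * s22 = 0 := by linear_combination t59
                  have t60 : (q02) ^ 2 * ((q11) ^ 2 * (-a20 + s21)) = 0 := by linear_combination r19
                  have t61 := (mul_eq_zero.mp t60).resolve_left (pow_ne_zero 2 h12)
                  have t62 := (mul_eq_zero.mp t61).resolve_left (pow_ne_zero 2 h16)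
                  have r21 : -a20 + s21 = 0 := by linear_combination t62
                  have t63 : a20 = s21 := by linear_combination (-1) * r21
                  subst t63
                  exfalso
                  have t64 : (a20) ^ 2 * ((q11) ^ 1 * (1)) = 0 := by linear_combination (-1) * f_3_3
                  have t65 := (mul_eq_zero.mp t64).resolve_left (pow_ne_zero 2 n1)
                  have t66 := (mul_eq_zero.mp t65).resolve_left (pow_ne_zero 1 h16)
                  exact absurd t66 (by norm_num)
            · have t67 : (q20) ^ 1 * (s2) = 0 := by linear_combination e2_2_2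
              have t68 := (mul_eq_zero.mp t67).resolve_left (pow_ne_zero 1 h11)
              have t69 : 0 = s2 := by linear_combination (-1) * t68
              subst t69
              have t70 : (a20) ^ 1 * (l2) = 0 := by linear_combination r9
              have t71 := (mul_eq_zero.mp t70).resolve_left (pow_ne_zero 1 n1)
              have t72 : 0 = l2 := by linear_combination (-1) * t71
              subst t72
              have t73 : (a20) ^ 1 * (l1) = 0 := by linear_combination r10
              have t74 := (mul_eq_zero.mp t73).resolve_left (pow_ne_zero 1 n1)
              have t75 : 0 = l1 := by linear_combination (-1) * t74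
              subst t75
              have t76 : (q20) ^ 1 * (2 * a20 - s21) = 0 := by linear_combination (-1) * e1_4_1
              have t77 := (mul_eq_zero.mp t76).resolve_left (pow_ne_zero 1 h11)
              have t78 : 2 * a20 = s21 := by linear_combination (1) * t77
              subst t78
              have r22 : a20 * q11 + q20 * s22 = 0 := by linear_combination e1_3_2
              have r23 : 2 * a20 * q20 * q02 - a20 * q11 ^ 2 - 2 * a02
                  * q20 ^ 2 = 0 := by linear_combination (q20) * e1_2_3 + (-q11) * r22
              by_cases h24 : q11 = 0
              · have t79 : 0 = q11 := by linear_combination (-1) * h24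
                subst t79
                have t80 : (q20) ^ 1 * (s22) = 0 := by linear_combination r22
                have t81 := (mul_eq_zero.mp t80).resolve_left (pow_ne_zero 1 h11)
                have t82 : 0 = s22 := by linear_combination (-1) * t81
                subst t82
                have t83 : (q20) ^ 1 * (2 * a20 * q02 - 2 * a02
                    * q20) = 0 := by linear_combination r23
                have t84 := (mul_eq_zero.mp t83).resolve_left (pow_ne_zero 1 h11)
                have r25 : 2 * a20 * q02 - 2 * a02 * q20 = 0 := by linear_combination t84
                exfalso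
                have t85 : (a20) ^ 2 * ((q20) ^ 1 * (1)) = 0 := by linear_combination (-1 / 4)
                    * f_4_2
                have t86 := (mul_eq_zero.mp t85).resolve_left (pow_ne_zero 2 n1)
                have t87 := (mul_eq_zero.mp t86).resolve_left (pow_ne_zero 1 h11)
                exact absurd t87 (by norm_num)
              · have t88 : (a20) ^ 1 * ((q11) ^ 1 * (a20 * q11 ^ 2 + 4 * a02
                    * q20 ^ 2)) = 0 := by linear_combination (-2 * a20 * q20 ^ 2) * e1_1_4 + (2
                    * a20 * q20 * q02) * r22 + (-a20 * q11) * r23
                have t89 := (mul_eq_zero.mp t88).resolve_left (pow_ne_zero 1 n1)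
                have t90 := (mul_eq_zero.mp t89).resolve_left (pow_ne_zero 1 h24)
                have r26 : a20 * q11 ^ 2 + 4 * a02 * q20 ^ 2 = 0 := by linear_combination t90
                have r27 : 8 * a20 * q20 ^ 3 * q02 - 2 * a20 * q20 ^ 2
                    * q11 ^ 2 = 0 := by linear_combination (4 * q20 ^ 2) * r23 + (2 * q20 ^ 2) * r26
                have t91 : (a20) ^ 1 * ((q20) ^ 2 * (8 * q20 * q02 - 2
                    * q11 ^ 2)) = 0 := by linear_combination r27
                have t92 := (mul_eq_zero.mp t91).resolve_left (pow_ne_zero 1 n1)
                have t93 := (mul_eq_zero.mp t92).resolve_left (pow_ne_zero 2 h11)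
                have r28 : 8 * q20 * q02 - 2 * q11 ^ 2 = 0 := by linear_combination t93
                exfalso
                have t94 : (a20) ^ 2 * ((q20) ^ 1 * (1)) = 0 := by linear_combination (-1 / 4)
                    * f_4_2
                have t95 := (mul_eq_zero.mp t94).resolve_left (pow_ne_zero 2 n1)
                have t96 := (mul_eq_zero.mp t95).resolve_left (pow_ne_zero 1 h11)
                exact absurd t96 (by norm_num)
          · have t97 : (u11) ^ 1 * (s2) = 0 := by linear_combination (2) * e1_1_2
            have t98 := (mul_eq_zero.mp t97).resolve_left (pow_ne_zero 1 h8)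
            have t99 : 0 = s2 := by linear_combination (-1) * t98
            subst t99
            have t100 : (a20) ^ 1 * (l1) = 0 := by linear_combination e1_3_1
            have t101 := (mul_eq_zero.mp t100).resolve_left (pow_ne_zero 1 n1)
            have t102 : 0 = l1 := by linear_combination (-1) * t101
            subst t102
            have t103 : (u11) ^ 1 * (s22) = 0 := by linear_combination (2) * e1_1_3
            have t104 := (mul_eq_zero.mp t103).resolve_left (pow_ne_zero 1 h8)
            have t105 : 0 = s22 := by linear_combination (-1) * t104
            subst t105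
            have r29 : a20 * u11 + 2 * a20 * l2 + u11 * s21 = 0 := by linear_combination (2)
                * e1_2_2
            by_cases h30 : a02 = 0
            · have t106 : 0 = a02 := by linear_combination (-1) * h30
              subst t106
              by_cases h31 : q20 = 0
              · have t107 : 0 = q20 := by linear_combination (-1) * h31
                subst t107
                by_cases h32 : q11 = 0
                · have t108 : 0 = q11 := by linear_combination (-1) * h32
                  subst t108
                  by_cases h33 : s21 = 0
                  · have t109 : 0 = s21 := by linear_combination (-1) * h33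
                    subst t109
                    have t110 : (a20) ^ 1 * (u11 + 2 * l2) = 0 := by linear_combination r29
                    have t111 := (mul_eq_zero.mp t110).resolve_left (pow_ne_zero 1 n1)
                    have r34 : u11 + 2 * l2 = 0 := by linear_combination t111
                    have t112 : -1 / 2 * u11 = l2 := by linear_combination (-1 / 2) * r34
                    subst t112
                    exact Or.inr (Or.inl ⟨by ring, by ring, by ring, by ring, by ring, by ring, by ring, n1, h8⟩)
                  · have t113 : (s21) ^ 1 * (4 * a20 * q02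
                        - u11 ^ 2) = 0 := by linear_combination (4 * a20) * e1_2_3 + (-u11) * r29
                    have t114 := (mul_eq_zero.mp t113).resolve_left (pow_ne_zero 1 h33)
                    have r35 : 4 * a20 * q02 - u11 ^ 2 = 0 := by linear_combination t114
                    exfalso
                    obtain ⟨x, y, hxy⟩ := hD
                    have t115 : (a20) ^ 1 * ((x ^ 2 * y ^ 4 * a20 * q02 - 1 / 4 * x ^ 2 * y ^ 4
                        * u11 ^ 2)) = 0 := by linear_combination (1 / 4 * x ^ 2 * y ^ 4 * a20) * r35
                    have t116 := (mul_eq_zero.mp t115).resolve_left (pow_ne_zero 1 n1)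
                    exact hxy (by linear_combination t116)
                · have t117 : (q11) ^ 1 * (a20 - s21) = 0 := by linear_combination (-1) * e1_3_2
                  have t118 := (mul_eq_zero.mp t117).resolve_left (pow_ne_zero 1 h32)
                  have t119 : a20 = s21 := by linear_combination (1) * t118
                  subst t119
                  have t120 : (a20) ^ 1 * (2 * u11 + 2 * l2) = 0 := by linear_combination r29
                  have t121 := (mul_eq_zero.mp t120).resolve_left (pow_ne_zero 1 n1)
                  have r36 : 2 * u11 + 2 * l2 = 0 := by linear_combination t121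
                  have t122 : -u11 = l2 := by linear_combination (-1 / 2) * r36
                  subst t122
                  have r37 : 4 * a20 * q02 - u11 ^ 2 = 0 := by linear_combination (4) * e1_2_3
                  exfalso
                  have t123 : (a20) ^ 2 * ((q11) ^ 1 * (1)) = 0 := by linear_combination (-1)
                      * f_3_3
                  have t124 := (mul_eq_zero.mp t123).resolve_left (pow_ne_zero 2 n1)
                  have t125 := (mul_eq_zero.mp t124).resolve_left (pow_ne_zero 1 h32)
                  exact absurd t125 (by norm_num)
              · have t126 : (q20) ^ 1 * (2 * a20 - s21) = 0 := by linear_combination (-1) * e1_4_1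
                have t127 := (mul_eq_zero.mp t126).resolve_left (pow_ne_zero 1 h31)
                have t128 : 2 * a20 = s21 := by linear_combination (1) * t127
                subst t128
                have t129 : (a20) ^ 1 * (3 * u11 + 2 * l2) = 0 := by linear_combination r29
                have t130 := (mul_eq_zero.mp t129).resolve_left (pow_ne_zero 1 n1)
                have r38 : 3 * u11 + 2 * l2 = 0 := by linear_combination t130
                have t131 : -3 / 2 * u11 = l2 := by linear_combination (-1 / 2) * r38
                subst t131
                have t132 : (a20) ^ 1 * (q11) = 0 := by linear_combination e1_3_2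
                have t133 := (mul_eq_zero.mp t132).resolve_left (pow_ne_zero 1 n1)
                have t134 : 0 = q11 := by linear_combination (-1) * t133
                subst t134
                have r39 : 4 * a20 * q02 - u11 ^ 2 = 0 := by linear_combination (2) * e1_2_3
                exfalso
                have t135 : (a20) ^ 2 * ((q20) ^ 1 * (1)) = 0 := by linear_combination (-1 / 4)
                    * f_4_2
                have t136 := (mul_eq_zero.mp t135).resolve_left (pow_ne_zero 2 n1)
                have t137 := (mul_eq_zero.mp t136).resolve_left (pow_ne_zero 1 h31)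
                exact absurd t137 (by norm_num)
            · have t138 : (u11) ^ 1 * ((a02) ^ 1 * (2 * a20
                  + s21)) = 0 := by linear_combination (-2 * a20) * e1_0_4 + (a02) * r29
              have t139 := (mul_eq_zero.mp t138).resolve_left (pow_ne_zero 1 h8)
              have t140 := (mul_eq_zero.mp t139).resolve_left (pow_ne_zero 1 h30)
              have t141 : -2 * a20 = s21 := by linear_combination (-1) * t140
              subst t141
              have t142 : (a20) ^ 1 * (-u11 + 2 * l2) = 0 := by linear_combination r29
              have t143 := (mul_eq_zero.mp t142).resolve_left (pow_ne_zero 1 n1)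
              have r40 : -u11 + 2 * l2 = 0 := by linear_combination t143
              have t144 : 1 / 2 * u11 = l2 := by linear_combination (-1 / 2) * r40
              subst t144
              have t145 : (a20) ^ 1 * (q11) = 0 := by linear_combination (-1 / 3) * e1_3_2
              have t146 := (mul_eq_zero.mp t145).resolve_left (pow_ne_zero 1 n1)
              have t147 : 0 = q11 := by linear_combination (-1) * t146
              subst t147
              have t148 : (a20) ^ 1 * (q20) = 0 := by linear_combination (-1 / 4) * e1_4_1
              have t149 := (mul_eq_zero.mp t148).resolve_left (pow_ne_zero 1 n1)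
              have t150 : 0 = q20 := by linear_combination (-1) * t149
              subst t150
              have r41 : 4 * a20 * q02 - u11 ^ 2 = 0 := by linear_combination (-2) * e1_2_3
              exfalso
              have t151 : (a20) ^ 1 * ((u11) ^ 2 * ((a02) ^ 1
                  * (1))) = 0 := by linear_combination (-a20) * f_0_6 + (-a20 * a02) * r41
              have t152 := (mul_eq_zero.mp t151).resolve_left (pow_ne_zero 1 n1)
              have t153 := (mul_eq_zero.mp t152).resolve_left (pow_ne_zero 2 h8)
              have t154 := (mul_eq_zero.mp t153).resolve_left (pow_ne_zero 1 h30)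
              exact absurd t154 (by norm_num)
        · have t155 : (v02) ^ 1 * (s2) = 0 := by linear_combination e2_0_3
          have t156 := (mul_eq_zero.mp t155).resolve_left (pow_ne_zero 1 h7)
          have t157 : 0 = s2 := by linear_combination (-1) * t156
          subst t157
          have t158 : (a20) ^ 1 * (l1) = 0 := by linear_combination e1_3_1
          have t159 := (mul_eq_zero.mp t158).resolve_left (pow_ne_zero 1 n1)
          have t160 : 0 = l1 := by linear_combination (-1) * t159
          subst t160
          have t161 : (v02) ^ 1 * (s22) = 0 := by linear_combination e2_0_4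
          have t162 := (mul_eq_zero.mp t161).resolve_left (pow_ne_zero 1 h7)
          have t163 : 0 = s22 := by linear_combination (-1) * t162
          subst t163
          have t164 : (v02) ^ 1 * (s21) = 0 := by linear_combination e2_1_3
          have t165 := (mul_eq_zero.mp t164).resolve_left (pow_ne_zero 1 h7)
          have t166 : 0 = s21 := by linear_combination (-1) * t165
          subst t166
          have t167 : (a20) ^ 1 * (u11 + 2 * l2) = 0 := by linear_combination (2) * e1_2_2
          have t168 := (mul_eq_zero.mp t167).resolve_left (pow_ne_zero 1 n1)
          have t169 : -1 / 2 * u11 = l2 := by linear_combination (-1 / 2) * t168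
          subst t169
          by_cases h42 : a02 = 0
          · have t170 : 0 = a02 := by linear_combination (-1) * h42
            subst t170
            have t171 : (a20) ^ 1 * (q11) = 0 := by linear_combination (-1) * e1_3_2
            have t172 := (mul_eq_zero.mp t171).resolve_left (pow_ne_zero 1 n1)
            have t173 : 0 = q11 := by linear_combination (-1) * t172
            subst t173
            have t174 : (a20) ^ 1 * (q20) = 0 := by linear_combination (-1 / 2) * e1_4_1
            have t175 := (mul_eq_zero.mp t174).resolve_left (pow_ne_zero 1 n1)
            have t176 : 0 = q20 := by linear_combination (-1) * t175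
            subst t176
            have t177 : (v02) ^ 1 * (u11 - v02) = 0 := by linear_combination (2) * e1_2_3
            have t178 := (mul_eq_zero.mp t177).resolve_left (pow_ne_zero 1 h7)
            have t179 : v02 = u11 := by linear_combination (-1) * t178
            subst t179
            exact Or.inr (Or.inr (Or.inl ⟨by ring, by ring, by ring, by ring, by ring, by ring, by ring, n1, h7⟩))
          · have t180 : (a02) ^ 1 * (u11 - v02) = 0 := by linear_combination (-1) * e1_0_4
            have t181 := (mul_eq_zero.mp t180).resolve_left (pow_ne_zero 1 h42)
            have t182 : v02 = u11 := by linear_combination (-1) * t181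
            subst t182
            have t183 : (a20) ^ 1 * (q11) = 0 := by linear_combination (-1) * e1_3_2
            have t184 := (mul_eq_zero.mp t183).resolve_left (pow_ne_zero 1 n1)
            have t185 : 0 = q11 := by linear_combination (-1) * t184
            subst t185
            have t186 : (a20) ^ 1 * (q20) = 0 := by linear_combination (-1 / 2) * e1_4_1
            have t187 := (mul_eq_zero.mp t186).resolve_left (pow_ne_zero 1 n1)
            have t188 : 0 = q20 := by linear_combination (-1) * t187
            subst t188
            exact Or.inr (Or.inr (Or.inr (⟨by ring, by ring, by ring, by ring, by ring, by ring, n1, h7, h42⟩)))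
      · have t189 : (u02) ^ 1 * (s2) = 0 := by linear_combination (2) * e1_0_3
        have t190 := (mul_eq_zero.mp t189).resolve_left (pow_ne_zero 1 h6)
        have t191 : 0 = s2 := by linear_combination (-1) * t190
        subst t191
        have t192 : (a20) ^ 1 * (l1) = 0 := by linear_combination e1_3_1
        have t193 := (mul_eq_zero.mp t192).resolve_left (pow_ne_zero 1 n1)
        have t194 : 0 = l1 := by linear_combination (-1) * t193
        subst t194
        have r43 : a20 * u11 + 2 * a20 * l2 + u11 * s21 + v02
            * s21 = 0 := by linear_combination (2) * e1_2_2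
        have r44 : 2 * a20 * u02 + u11 * s22 + u02 * s21 + v02
            * s22 = 0 := by linear_combination (2) * e1_1_3
        have r45 : -a20 * u11 * u02 - 2 * a20 * u02 * v02 + 2 * a20 * u02 * l2 - u11 ^ 2 * s22
            - 2 * u11 * v02 * s22 - v02 ^ 2 * s22 = 0 := by linear_combination (u02) * r43
            + (-u11 - v02) * r44
        by_cases h46 : v02 = 0
        · have t195 : 0 = v02 := by linear_combination (-1) * h46
          subst t195
          by_cases h47 : s22 = 0
          · have t196 : 0 = s22 := by linear_combination (-1) * h47
            subst t196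
            have t197 : (a20) ^ 1 * ((u02) ^ 1 * (-u11 + 2 * l2)) = 0 := by linear_combination r45
            have t198 := (mul_eq_zero.mp t197).resolve_left (pow_ne_zero 1 n1)
            have t199 := (mul_eq_zero.mp t198).resolve_left (pow_ne_zero 1 h6)
            have r48 : -u11 + 2 * l2 = 0 := by linear_combination t199
            have t200 : 1 / 2 * u11 = l2 := by linear_combination (-1 / 2) * r48
            subst t200
            have t201 : (u02) ^ 1 * (2 * a20 + s21) = 0 := by linear_combination r44
            have t202 := (mul_eq_zero.mp t201).resolve_left (pow_ne_zero 1 h6)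
            have r49 : 2 * a20 + s21 = 0 := by linear_combination t202
            have t203 : -2 * a20 = s21 := by linear_combination (-1) * r49
            subst t203
            have t204 : (a20) ^ 1 * (q11) = 0 := by linear_combination (-1 / 3) * e1_3_2
            have t205 := (mul_eq_zero.mp t204).resolve_left (pow_ne_zero 1 n1)
            have t206 : 0 = q11 := by linear_combination (-1) * t205
            subst t206
            have t207 : (a20) ^ 1 * (q20) = 0 := by linear_combination (-1 / 4) * e1_4_1
            have t208 := (mul_eq_zero.mp t207).resolve_left (pow_ne_zero 1 n1)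
            have t209 : 0 = q20 := by linear_combination (-1) * t208
            subst t209
            have t210 : (u02) ^ 1 * (u11) = 0 := by linear_combination (2) * e1_1_4
            have t211 := (mul_eq_zero.mp t210).resolve_left (pow_ne_zero 1 h6)
            have t212 : 0 = u11 := by linear_combination (-1) * t211
            subst t212
            have t213 : (a20) ^ 1 * (q02) = 0 := by linear_combination (-1 / 2) * e1_2_3
            have t214 := (mul_eq_zero.mp t213).resolve_left (pow_ne_zero 1 n1)
            have t215 : 0 = q02 := by linear_combination (-1) * t214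
            subst t215
            exfalso
            have t216 : (a20) ^ 1 * ((u02) ^ 2 * (1)) = 0 := by linear_combination f_0_6
            have t217 := (mul_eq_zero.mp t216).resolve_left (pow_ne_zero 1 n1)
            have t218 := (mul_eq_zero.mp t217).resolve_left (pow_ne_zero 2 h6)
            exact absurd t218 (by norm_num)
          · have t219 : (s22) ^ 1 * (a20 * u02 ^ 2 + a02
                * u11 ^ 2) = 0 := by linear_combination (2 * a20 * u02) * e1_0_4 + (-a02) * r45
            have t220 := (mul_eq_zero.mp t219).resolve_left (pow_ne_zero 1 h47)
            have r50 : a20 * u02 ^ 2 + a02 * u11 ^ 2 = 0 := by linear_combination t220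
            have r51 : a02 * u11 ^ 3 * u02 - 2 * a02 * u11 ^ 2 * u02 * l2 - u11 ^ 2 * u02 ^ 2
                * s22 = 0 := by linear_combination (u02 ^ 2) * r45 + (u11 * u02 - 2 * u02 * l2)
                * r50
            have r52 : -2 * a02 * u11 ^ 2 * u02 + u11 * u02 ^ 2 * s22 + u02 ^ 3
                * s21 = 0 := by linear_combination (u02 ^ 2) * r44 + (-2 * u02) * r50
            have n53 : -a02 * u11 ^ 2 ≠ 0 := by
              intro h0
              have t221 : (u02) ^ 2 * ((a20)) = 0 := by linear_combination h0 + r50
              have t222 := (mul_eq_zero.mp t221).resolve_left (pow_ne_zero 2 h6)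
              exact n1 (by linear_combination t222)
            have n54 : a02 ≠ 0 := fun h0 => n53 (by linear_combination (-u11 ^ 2) * h0)
            have n55 : u11 ≠ 0 := fun h0 => n53 (by linear_combination (-a02 * u11) * h0)
            have t223 : (u02) ^ 1 * ((u11) ^ 2 * (a02 * u11 - 2 * a02 * l2 - u02
                * s22)) = 0 := by linear_combination r51
            have t224 := (mul_eq_zero.mp t223).resolve_left (pow_ne_zero 1 h6)
            have t225 := (mul_eq_zero.mp t224).resolve_left (pow_ne_zero 2 n55)
            have r56 : a02 * u11 - 2 * a02 * l2 - u02 * s22 = 0 := by linear_combination t225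
            have t226 : (u02) ^ 1 * (-2 * a02 * u11 ^ 2 + u11 * u02 * s22 + u02 ^ 2
                * s21) = 0 := by linear_combination r52
            have t227 := (mul_eq_zero.mp t226).resolve_left (pow_ne_zero 1 h6)
            have r57 : -2 * a02 * u11 ^ 2 + u11 * u02 * s22 + u02 ^ 2
                * s21 = 0 := by linear_combination t227
            have t228 : (u02) ^ 2 * (3 * a02 * u11 ^ 2 * q11 - u11 * u02 * q11 * s22 + u02 ^ 2
                * q20 * s22) = 0 := by linear_combination (u02 ^ 4) * e1_3_2 + (-u02 ^ 2 * q11)
                * r57 + (u02 ^ 2 * q11) * r50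
            have t229 := (mul_eq_zero.mp t228).resolve_left (pow_ne_zero 2 h6)
            have r58 : 3 * a02 * u11 ^ 2 * q11 - u11 * u02 * q11 * s22 + u02 ^ 2 * q20
                * s22 = 0 := by linear_combination t229
            have r59 : 4 * a02 ^ 2 * q11 - 2 * a02 * u11 * u02 - 4 * a02 * q02 * s22 + u02 ^ 2
                * s22 = 0 := by linear_combination (-4 * a02) * e1_1_4 + (-u02) * r56
            by_cases h60 : q11 = 0
            · have t230 : 0 = q11 := by linear_combination (-1) * h60
              subst t230
              have t231 : (u02) ^ 2 * ((s22) ^ 1 * (q20)) = 0 := by linear_combination r58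
              have t232 := (mul_eq_zero.mp t231).resolve_left (pow_ne_zero 2 h6)
              have t233 := (mul_eq_zero.mp t232).resolve_left (pow_ne_zero 1 h47)
              have t234 : 0 = q20 := by linear_combination (-1) * t233
              subst t234
              have n61 : -a02 * u11 ^ 2 ≠ 0 := by
                intro h0
                have t235 : (u02) ^ 2 * ((a20)) = 0 := by linear_combination h0 + r50
                have t236 := (mul_eq_zero.mp t235).resolve_left (pow_ne_zero 2 h6)
                exact n1 (by linear_combination t236)
              have n62 : -a02 * u11 ^ 2 ≠ 0 := by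
                intro h0
                have t237 : (u02) ^ 2 * ((a20)) = 0 := by linear_combination h0 + r50
                have t238 := (mul_eq_zero.mp t237).resolve_left (pow_ne_zero 2 h6)
                exact n1 (by linear_combination t238)
              by_cases h63 : a02 * u11 - u02 * s22 = 0
              · have r64 : a02 * u11 - u02 * s22 = 0 := by linear_combination h63
                have r65 : 2 * a02 * u02 * l2 = 0 := by linear_combination (-u02) * r56 + (u02)
                    * r64
                have r66 : a02 * u11 ^ 2 * u02 - u02 ^ 3
                    * s21 = 0 := by linear_combination (-u02) * r57 + (-u11 * u02) * r64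
                have r67 : 4 * a02 ^ 2 * u11 * q02 + a02 * u11
                    * u02 ^ 2 = 0 := by linear_combination (-u02) * r59 + (4 * a02 * q02
                    - u02 ^ 2) * r64
                have n68 : -a02 * u11 ≠ 0 := by
                  intro h0
                  have t239 : (u02) ^ 1 * ((s22)) = 0 := by linear_combination (-1) * h0 + (-1)
                      * r64
                  have t240 := (mul_eq_zero.mp t239).resolve_left (pow_ne_zero 1 h6)
                  exact h47 (by linear_combination t240)
                have t241 : (u02) ^ 1 * ((a02) ^ 1 * (l2)) = 0 := by linear_combination (1 / 2)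
                    * r65
                have t242 := (mul_eq_zero.mp t241).resolve_left (pow_ne_zero 1 h6)
                have t243 := (mul_eq_zero.mp t242).resolve_left (pow_ne_zero 1 n54)
                have t244 : 0 = l2 := by linear_combination (-1) * t243
                subst t244
                have t245 : (u02) ^ 1 * (a02 * u11 ^ 2 - u02 ^ 2
                    * s21) = 0 := by linear_combination r66
                have t246 := (mul_eq_zero.mp t245).resolve_left (pow_ne_zero 1 h6)
                have r69 : a02 * u11 ^ 2 - u02 ^ 2 * s21 = 0 := by linear_combination t246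
                have t247 : (a02) ^ 1 * ((u11) ^ 1 * (4 * a02 * q02
                    + u02 ^ 2)) = 0 := by linear_combination r67
                have t248 := (mul_eq_zero.mp t247).resolve_left (pow_ne_zero 1 n54)
                have t249 := (mul_eq_zero.mp t248).resolve_left (pow_ne_zero 1 n55)
                have r70 : 4 * a02 * q02 + u02 ^ 2 = 0 := by linear_combination t249
                have n71 : -a02 * u11 ^ 2 ≠ 0 := by
                  intro h0
                  have t250 : (u02) ^ 2 * ((a20)) = 0 := by linear_combination h0 + r50
                  have t251 := (mul_eq_zero.mp t250).resolve_left (pow_ne_zero 2 h6)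
                  exact n1 (by linear_combination t251)
                have n72 : -a02 * u11 ≠ 0 := by
                  intro h0
                  have t252 : (u02) ^ 1 * ((s22)) = 0 := by linear_combination (-1) * h0 + (-1)
                      * r64
                  have t253 := (mul_eq_zero.mp t252).resolve_left (pow_ne_zero 1 h6)
                  exact h47 (by linear_combination t253)
                exfalso
                have t254 : (u02) ^ 3 * ((a02) ^ 2 * ((u11) ^ 3
                    * (1))) = 0 := by linear_combination (-2 * a02 * u02 ^ 4) * f_1_5 + (a02
                    * u11 * u02 ^ 3) * r69 + (-4 * a02 * u02 ^ 2 * q02 * s22) * r50 + (a02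
                    * u11 ^ 2 * u02 ^ 2 * s22) * r70
                have t255 := (mul_eq_zero.mp t254).resolve_left (pow_ne_zero 3 h6)
                have t256 := (mul_eq_zero.mp t255).resolve_left (pow_ne_zero 2 n54)
                have t257 := (mul_eq_zero.mp t256).resolve_left (pow_ne_zero 3 n55)
                exact absurd t257 (by norm_num)
              · have t258 : (u02) ^ 1 * ((a02) ^ 1 * ((u11) ^ 1 * ((a02 * u11 - u02 * s22) ^ 1
                    * (2 * a02 * u11 - u02 * s22)))) = 0 := by linear_combination (-2 * a02 ^ 2
                    * u02 ^ 2 * s22) * e1_2_3 + (-1 / 2 * a02 * u11 * u02 ^ 2 * s22) * r56 + (2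
                    * a02 ^ 2 * q02 * s22) * r57 + (-a02 ^ 2 * u11 ^ 2 + 1 / 2 * a02 * u11
                    * u02 * s22) * r59
                have t259 := (mul_eq_zero.mp t258).resolve_left (pow_ne_zero 1 h6)
                have t260 := (mul_eq_zero.mp t259).resolve_left (pow_ne_zero 1 n54)
                have t261 := (mul_eq_zero.mp t260).resolve_left (pow_ne_zero 1 n55)
                have t262 := (mul_eq_zero.mp t261).resolve_left (pow_ne_zero 1 h63)
                have r73 : 2 * a02 * u11 - u02 * s22 = 0 := by linear_combination t262
                have r74 : a02 * u11 * u02 + 2 * a02 * u02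
                    * l2 = 0 := by linear_combination (-u02) * r56 + (u02) * r73
                have r75 : -u02 ^ 3 * s21 = 0 := by linear_combination (-u02) * r57 + (-u11
                    * u02) * r73
                have r76 : 8 * a02 ^ 2 * u11 * q02 = 0 := by linear_combination (-u02) * r59
                    + (4 * a02 * q02 - u02 ^ 2) * r73
                have n77 : -2 * a02 * u11 ≠ 0 := by
                  intro h0
                  have t263 : (u02) ^ 1 * ((s22)) = 0 := by linear_combination (-1) * h0 + (-1)
                      * r73
                  have t264 := (mul_eq_zero.mp t263).resolve_left (pow_ne_zero 1 h6)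
                  exact h47 (by linear_combination t264)
                have n78 : a02 * u11 * u02 ≠ 0 := by
                  intro h0
                  have t265 : (u02) ^ 1 * ((a02 * u11 - u02
                      * s22)) = 0 := by linear_combination (-1) * h0 + (u02) * r73
                  have t266 := (mul_eq_zero.mp t265).resolve_left (pow_ne_zero 1 h6)
                  exact h63 (by linear_combination t266)
                have t267 : (u02) ^ 1 * ((a02) ^ 1 * (u11 + 2
                    * l2)) = 0 := by linear_combination r74
                have t268 := (mul_eq_zero.mp t267).resolve_left (pow_ne_zero 1 h6)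
                have t269 := (mul_eq_zero.mp t268).resolve_left (pow_ne_zero 1 n54)
                have r79 : u11 + 2 * l2 = 0 := by linear_combination t269
                have t270 : -1 / 2 * u11 = l2 := by linear_combination (-1 / 2) * r79
                subst t270
                have t271 : (u02) ^ 3 * (s21) = 0 := by linear_combination (-1) * r75
                have t272 := (mul_eq_zero.mp t271).resolve_left (pow_ne_zero 3 h6)
                have t273 : 0 = s21 := by linear_combination (-1) * t272
                subst t273
                have t274 : (a02) ^ 2 * ((u11) ^ 1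
                    * (q02)) = 0 := by linear_combination (1 / 8) * r76
                have t275 := (mul_eq_zero.mp t274).resolve_left (pow_ne_zero 2 n54)
                have t276 := (mul_eq_zero.mp t275).resolve_left (pow_ne_zero 1 n55)
                have t277 : 0 = q02 := by linear_combination (-1) * t276
                subst t277
                have n80 : -a02 * u11 ^ 2 ≠ 0 := by
                  intro h0
                  have t278 : (u02) ^ 2 * ((a20)) = 0 := by linear_combination h0 + r50
                  have t279 := (mul_eq_zero.mp t278).resolve_left (pow_ne_zero 2 h6)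
                  exact n1 (by linear_combination t279)
                have n81 : -2 * a02 * u11 ≠ 0 := by
                  intro h0
                  have t280 : (u02) ^ 1 * ((s22)) = 0 := by linear_combination (-1) * h0 + (-1)
                      * r73
                  have t281 := (mul_eq_zero.mp t280).resolve_left (pow_ne_zero 1 h6)
                  exact h47 (by linear_combination t281)
                have n82 : a02 * u11 * u02 ≠ 0 := by
                  intro h0
                  have t282 : (u02) ^ 1 * ((a02 * u11 - u02
                      * s22)) = 0 := by linear_combination (-1) * h0 + (u02) * r73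
                  have t283 := (mul_eq_zero.mp t282).resolve_left (pow_ne_zero 1 h6)
                  exact h63 (by linear_combination t283)
                have n83 : -a02 * u11 ^ 2 ≠ 0 := by
                  intro h0
                  have t284 : (u02) ^ 2 * ((a20)) = 0 := by linear_combination h0 + r50
                  have t285 := (mul_eq_zero.mp t284).resolve_left (pow_ne_zero 2 h6)
                  exact n1 (by linear_combination t285)
                have n84 : -2 * a02 * u11 ≠ 0 := by
                  intro h0
                  have t286 : (u02) ^ 1 * ((s22)) = 0 := by linear_combination (-1) * h0 + (-1)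
                      * r73
                  have t287 := (mul_eq_zero.mp t286).resolve_left (pow_ne_zero 1 h6)
                  exact h47 (by linear_combination t287)
                have n85 : a02 * u11 * u02 ≠ 0 := by
                  intro h0
                  have t288 : (u02) ^ 1 * ((a02 * u11 - u02
                      * s22)) = 0 := by linear_combination (-1) * h0 + (u02) * r73
                  have t289 := (mul_eq_zero.mp t288).resolve_left (pow_ne_zero 1 h6)
                  exact h63 (by linear_combination t289)
                have n86 : -a02 * u11 ^ 2 ≠ 0 := by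
                  intro h0
                  have t290 : (u02) ^ 2 * ((a20)) = 0 := by linear_combination h0 + r50
                  have t291 := (mul_eq_zero.mp t290).resolve_left (pow_ne_zero 2 h6)
                  exact n1 (by linear_combination t291)
                have n87 : -2 * a02 * u11 ≠ 0 := by
                  intro h0
                  have t292 : (u02) ^ 1 * ((s22)) = 0 := by linear_combination (-1) * h0 + (-1)
                      * r73
                  have t293 := (mul_eq_zero.mp t292).resolve_left (pow_ne_zero 1 h6)
                  exact h47 (by linear_combination t293)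
                have n88 : a02 * u11 * u02 ≠ 0 := by
                  intro h0
                  have t294 : (u02) ^ 1 * ((a02 * u11 - u02
                      * s22)) = 0 := by linear_combination (-1) * h0 + (u02) * r73
                  have t295 := (mul_eq_zero.mp t294).resolve_left (pow_ne_zero 1 h6)
                  exact h63 (by linear_combination t295)
                exfalso
                have t296 : (a02) ^ 1 * ((u11) ^ 3 * (1)) = 0 := by linear_combination (u02)
                    * f_1_5 + (1 / 2 * u11 ^ 2) * r73
                have t297 := (mul_eq_zero.mp t296).resolve_left (pow_ne_zero 1 n54)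
                have t298 := (mul_eq_zero.mp t297).resolve_left (pow_ne_zero 3 n55)
                exact absurd t298 (by norm_num)
            · by_cases h89 : 3 * a02 * u11 - u02 * s22 = 0
              · have r90 : 3 * a02 * u11 - u02 * s22 = 0 := by linear_combination h89
                have r91 : 2 * a02 * u11 * u02 + 2 * a02 * u02
                    * l2 = 0 := by linear_combination (-u02) * r56 + (u02) * r90
                have r92 : -a02 * u11 ^ 2 * u02 - u02 ^ 3
                    * s21 = 0 := by linear_combination (-u02) * r57 + (-u11 * u02) * r90
                have r93 : -3 * a02 * u11 * u02 ^ 2 * q20 = 0 := by linear_combination (-u02)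
                    * r58 + (u11 * u02 * q11 - u02 ^ 2 * q20) * r90
                have r94 : 12 * a02 ^ 2 * u11 * q02 - 4 * a02 ^ 2 * u02 * q11 - a02 * u11
                    * u02 ^ 2 = 0 := by linear_combination (-u02) * r59 + (4 * a02 * q02
                    - u02 ^ 2) * r90
                have n95 : -3 * a02 * u11 ≠ 0 := by
                  intro h0
                  have t299 : (u02) ^ 1 * ((s22)) = 0 := by linear_combination (-1) * h0 + (-1)
                      * r90
                  have t300 := (mul_eq_zero.mp t299).resolve_left (pow_ne_zero 1 h6)
                  exact h47 (by linear_combination t300)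
                have t301 : (u02) ^ 1 * ((a02) ^ 1 * (2 * u11 + 2
                    * l2)) = 0 := by linear_combination r91
                have t302 := (mul_eq_zero.mp t301).resolve_left (pow_ne_zero 1 h6)
                have t303 := (mul_eq_zero.mp t302).resolve_left (pow_ne_zero 1 n54)
                have r96 : 2 * u11 + 2 * l2 = 0 := by linear_combination t303
                have t304 : -u11 = l2 := by linear_combination (-1 / 2) * r96
                subst t304
                have t305 : (u02) ^ 1 * (-a02 * u11 ^ 2 - u02 ^ 2
                    * s21) = 0 := by linear_combination r92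
                have t306 := (mul_eq_zero.mp t305).resolve_left (pow_ne_zero 1 h6)
                have r97 : -a02 * u11 ^ 2 - u02 ^ 2 * s21 = 0 := by linear_combination t306
                have t307 : (u02) ^ 2 * ((a02) ^ 1 * ((u11) ^ 1
                    * (q20))) = 0 := by linear_combination (-1 / 3) * r93
                have t308 := (mul_eq_zero.mp t307).resolve_left (pow_ne_zero 2 h6)
                have t309 := (mul_eq_zero.mp t308).resolve_left (pow_ne_zero 1 n54)
                have t310 := (mul_eq_zero.mp t309).resolve_left (pow_ne_zero 1 n55)
                have t311 : 0 = q20 := by linear_combination (-1) * t310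
                subst t311
                have t312 : (a02) ^ 1 * (12 * a02 * u11 * q02 - 4 * a02 * u02 * q11 - u11
                    * u02 ^ 2) = 0 := by linear_combination r94
                have t313 := (mul_eq_zero.mp t312).resolve_left (pow_ne_zero 1 n54)
                have r98 : 12 * a02 * u11 * q02 - 4 * a02 * u02 * q11 - u11
                    * u02 ^ 2 = 0 := by linear_combination t313
                have n99 : -a02 * u11 ^ 2 ≠ 0 := by
                  intro h0
                  have t314 : (u02) ^ 2 * ((a20)) = 0 := by linear_combination h0 + r50
                  have t315 := (mul_eq_zero.mp t314).resolve_left (pow_ne_zero 2 h6)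
                  exact n1 (by linear_combination t315)
                have n100 : -3 * a02 * u11 ≠ 0 := by
                  intro h0
                  have t316 : (u02) ^ 1 * ((s22)) = 0 := by linear_combination (-1) * h0 + (-1)
                      * r90
                  have t317 := (mul_eq_zero.mp t316).resolve_left (pow_ne_zero 1 h6)
                  exact h47 (by linear_combination t317)
                have n101 : -a02 * u11 ^ 2 ≠ 0 := by
                  intro h0
                  have t318 : (u02) ^ 2 * ((a20)) = 0 := by linear_combination h0 + r50
                  have t319 := (mul_eq_zero.mp t318).resolve_left (pow_ne_zero 2 h6)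
                  exact n1 (by linear_combination t319)
                have n102 : -3 * a02 * u11 ≠ 0 := by
                  intro h0
                  have t320 : (u02) ^ 1 * ((s22)) = 0 := by linear_combination (-1) * h0 + (-1)
                      * r90
                  have t321 := (mul_eq_zero.mp t320).resolve_left (pow_ne_zero 1 h6)
                  exact h47 (by linear_combination t321)
                have t322 : (u02) ^ 2 * ((a02) ^ 1 * ((u11) ^ 2 * (8 * a02 * q11 - u11
                    * u02))) = 0 := by linear_combination (3 * a02 * u11 * u02 ^ 3) * e1_2_3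
                    + (3 * a02 * u11 * u02 * q02) * r97 + (1 / 4 * a02 * u11 ^ 2 * u02) * r98
                    + (3 * a02 * u11 * u02 ^ 2 * q11) * r90
                have t323 := (mul_eq_zero.mp t322).resolve_left (pow_ne_zero 2 h6)
                have t324 := (mul_eq_zero.mp t323).resolve_left (pow_ne_zero 1 n54)
                have t325 := (mul_eq_zero.mp t324).resolve_left (pow_ne_zero 2 n55)
                have r103 : 8 * a02 * q11 - u11 * u02 = 0 := by linear_combination t325
                have r104 : 96 * a02 ^ 2 * u11 * q02 - 12 * a02 * u11
                    * u02 ^ 2 = 0 := by linear_combination (8 * a02) * r98 + (4 * a02 * u02) * r103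
                have n105 : u11 * u02 ≠ 0 := by
                  intro h0
                  have t326 : (a02) ^ 1 * ((q11)) = 0 := by linear_combination (1 / 8) * h0
                      + (1 / 8) * r103
                  have t327 := (mul_eq_zero.mp t326).resolve_left (pow_ne_zero 1 n54)
                  exact h60 (by linear_combination t327)
                have t328 : (a02) ^ 1 * ((u11) ^ 1 * (96 * a02 * q02 - 12
                    * u02 ^ 2)) = 0 := by linear_combination r104
                have t329 := (mul_eq_zero.mp t328).resolve_left (pow_ne_zero 1 n54)
                have t330 := (mul_eq_zero.mp t329).resolve_left (pow_ne_zero 1 n55)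
                have r106 : 96 * a02 * q02 - 12 * u02 ^ 2 = 0 := by linear_combination t330
                exfalso
                have t331 : (u02) ^ 1 * ((a02) ^ 2 * ((u11) ^ 5
                    * (1))) = 0 := by linear_combination (-8 * a02 * u02 ^ 4) * f_3_3 + (8
                    * a20 * a02 * u02 ^ 2 * q11) * r97 + (8 * a02 ^ 2 * u11 ^ 2 * q11) * r50
                    + (-a02 ^ 2 * u11 ^ 4) * r103
                have t332 := (mul_eq_zero.mp t331).resolve_left (pow_ne_zero 1 h6)
                have t333 := (mul_eq_zero.mp t332).resolve_left (pow_ne_zero 2 n54)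
                have t334 := (mul_eq_zero.mp t333).resolve_left (pow_ne_zero 5 n55)
                exact absurd t334 (by norm_num)
              · have t335 : (u02) ^ 2 * ((u11) ^ 2 * ((q11) ^ 1 * ((3 * a02 * u11 - u02
                    * s22) ^ 1 * (4 * a02 * u11 - u02
                    * s22)))) = 0 := by linear_combination (-u02 ^ 6 * s22) * e1_4_1 + (u02 ^ 4
                    * q20 * s22) * r57 + (-2 * u02 ^ 4 * q20 * s22) * r50 + (4 * a02 * u11 ^ 2
                    * u02 ^ 2 - u11 * u02 ^ 3 * s22) * r58
                have t336 := (mul_eq_zero.mp t335).resolve_left (pow_ne_zero 2 h6)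
                have t337 := (mul_eq_zero.mp t336).resolve_left (pow_ne_zero 2 n55)
                have t338 := (mul_eq_zero.mp t337).resolve_left (pow_ne_zero 1 h60)
                have t339 := (mul_eq_zero.mp t338).resolve_left (pow_ne_zero 1 h89)
                have r107 : 4 * a02 * u11 - u02 * s22 = 0 := by linear_combination t339
                have r108 : 3 * a02 * u11 * u02 + 2 * a02 * u02
                    * l2 = 0 := by linear_combination (-u02) * r56 + (u02) * r107
                have r109 : -2 * a02 * u11 ^ 2 * u02 - u02 ^ 3
                    * s21 = 0 := by linear_combination (-u02) * r57 + (-u11 * u02) * r107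
                have r110 : a02 * u11 ^ 2 * u02 * q11 - 4 * a02 * u11 * u02 ^ 2
                    * q20 = 0 := by linear_combination (-u02) * r58 + (u11 * u02 * q11
                    - u02 ^ 2 * q20) * r107
                have r111 : 16 * a02 ^ 2 * u11 * q02 - 4 * a02 ^ 2 * u02 * q11 - 2 * a02 * u11
                    * u02 ^ 2 = 0 := by linear_combination (-u02) * r59 + (4 * a02 * q02
                    - u02 ^ 2) * r107
                have n112 : -4 * a02 * u11 ≠ 0 := by
                  intro h0
                  have t340 : (u02) ^ 1 * ((s22)) = 0 := by linear_combination (-1) * h0 + (-1)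
                      * r107
                  have t341 := (mul_eq_zero.mp t340).resolve_left (pow_ne_zero 1 h6)
                  exact h47 (by linear_combination t341)
                have n113 : a02 * u11 * u02 ≠ 0 := by
                  intro h0
                  have t342 : (u02) ^ 1 * ((3 * a02 * u11 - u02
                      * s22)) = 0 := by linear_combination (-1) * h0 + (u02) * r107
                  have t343 := (mul_eq_zero.mp t342).resolve_left (pow_ne_zero 1 h6)
                  exact h89 (by linear_combination t343)
                have t344 : (u02) ^ 1 * ((a02) ^ 1 * (3 * u11 + 2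
                    * l2)) = 0 := by linear_combination r108
                have t345 := (mul_eq_zero.mp t344).resolve_left (pow_ne_zero 1 h6)
                have t346 := (mul_eq_zero.mp t345).resolve_left (pow_ne_zero 1 n54)
                have r114 : 3 * u11 + 2 * l2 = 0 := by linear_combination t346
                have t347 : -3 / 2 * u11 = l2 := by linear_combination (-1 / 2) * r114
                subst t347
                have t348 : (u02) ^ 1 * (-2 * a02 * u11 ^ 2 - u02 ^ 2
                    * s21) = 0 := by linear_combination r109
                have t349 := (mul_eq_zero.mp t348).resolve_left (pow_ne_zero 1 h6)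
                have r115 : -2 * a02 * u11 ^ 2 - u02 ^ 2 * s21 = 0 := by linear_combination t349
                have t350 : (u02) ^ 1 * ((a02) ^ 1 * ((u11) ^ 1 * (u11 * q11 - 4 * u02
                    * q20))) = 0 := by linear_combination r110
                have t351 := (mul_eq_zero.mp t350).resolve_left (pow_ne_zero 1 h6)
                have t352 := (mul_eq_zero.mp t351).resolve_left (pow_ne_zero 1 n54)
                have t353 := (mul_eq_zero.mp t352).resolve_left (pow_ne_zero 1 n55)
                have r116 : u11 * q11 - 4 * u02 * q20 = 0 := by linear_combination t353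
                have t354 : (a02) ^ 1 * (16 * a02 * u11 * q02 - 4 * a02 * u02 * q11 - 2 * u11
                    * u02 ^ 2) = 0 := by linear_combination r111
                have t355 := (mul_eq_zero.mp t354).resolve_left (pow_ne_zero 1 n54)
                have r117 : 16 * a02 * u11 * q02 - 4 * a02 * u02 * q11 - 2 * u11
                    * u02 ^ 2 = 0 := by linear_combination t355
                have n118 : -a02 * u11 ^ 2 ≠ 0 := by
                  intro h0
                  have t356 : (u02) ^ 2 * ((a20)) = 0 := by linear_combination h0 + r50
                  have t357 := (mul_eq_zero.mp t356).resolve_left (pow_ne_zero 2 h6)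
                  exact n1 (by linear_combination t357)
                have n119 : -4 * a02 * u11 ≠ 0 := by
                  intro h0
                  have t358 : (u02) ^ 1 * ((s22)) = 0 := by linear_combination (-1) * h0 + (-1)
                      * r107
                  have t359 := (mul_eq_zero.mp t358).resolve_left (pow_ne_zero 1 h6)
                  exact h47 (by linear_combination t359)
                have n120 : a02 * u11 * u02 ≠ 0 := by
                  intro h0
                  have t360 : (u02) ^ 1 * ((3 * a02 * u11 - u02
                      * s22)) = 0 := by linear_combination (-1) * h0 + (u02) * r107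
                  have t361 := (mul_eq_zero.mp t360).resolve_left (pow_ne_zero 1 h6)
                  exact h89 (by linear_combination t361)
                have t362 : (u02) ^ 3 * ((a02) ^ 1 * ((u11) ^ 2 * (4 * a02 * q11 - u11
                    * u02))) = 0 := by linear_combination (4 / 3 * a02 * u11 * u02 ^ 4)
                    * e1_2_3 + (4 / 3 * a02 * u11 * u02 ^ 2 * q02) * r115 + (-2 / 3 * a02 ^ 2
                    * u11 * u02 ^ 3) * r116 + (1 / 6 * a02 * u11 ^ 2 * u02 ^ 2) * r117 + (4 / 3
                    * a02 * u11 * u02 ^ 3 * q11) * r107
                have t363 := (mul_eq_zero.mp t362).resolve_left (pow_ne_zero 3 h6)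
                have t364 := (mul_eq_zero.mp t363).resolve_left (pow_ne_zero 1 n54)
                have t365 := (mul_eq_zero.mp t364).resolve_left (pow_ne_zero 2 n55)
                have r121 : 4 * a02 * q11 - u11 * u02 = 0 := by linear_combination t365
                have r122 : -16 * a02 * u02 * q20 + u11 ^ 2
                    * u02 = 0 := by linear_combination (4 * a02) * r116 + (-u11) * r121
                have r123 : 64 * a02 ^ 2 * u11 * q02 - 12 * a02 * u11
                    * u02 ^ 2 = 0 := by linear_combination (4 * a02) * r117 + (4 * a02 * u02) * r121
                have n124 : u11 * u02 ≠ 0 := by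
                  intro h0
                  have t366 : (a02) ^ 1 * ((q11)) = 0 := by linear_combination (1 / 4) * h0
                      + (1 / 4) * r121
                  have t367 := (mul_eq_zero.mp t366).resolve_left (pow_ne_zero 1 n54)
                  exact h60 (by linear_combination t367)
                have t368 : (u02) ^ 1 * (-16 * a02 * q20
                    + u11 ^ 2) = 0 := by linear_combination r122
                have t369 := (mul_eq_zero.mp t368).resolve_left (pow_ne_zero 1 h6)
                have r125 : -16 * a02 * q20 + u11 ^ 2 = 0 := by linear_combination t369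
                have t370 : (a02) ^ 1 * ((u11) ^ 1 * (64 * a02 * q02 - 12
                    * u02 ^ 2)) = 0 := by linear_combination r123
                have t371 := (mul_eq_zero.mp t370).resolve_left (pow_ne_zero 1 n54)
                have t372 := (mul_eq_zero.mp t371).resolve_left (pow_ne_zero 1 n55)
                have r126 : 64 * a02 * q02 - 12 * u02 ^ 2 = 0 := by linear_combination t372
                exfalso
                have t373 : (a02) ^ 2 * ((u11) ^ 6 * (1)) = 0 := by linear_combination (-4
                    * a02 * u02 ^ 4) * f_4_2 + (8 * a20 * a02 * u02 ^ 2 * q20) * r115 + (16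
                    * a02 ^ 2 * u11 ^ 2 * q20) * r50 + (a02 ^ 2 * u11 ^ 4) * r125
                have t374 := (mul_eq_zero.mp t373).resolve_left (pow_ne_zero 2 n54)
                have t375 := (mul_eq_zero.mp t374).resolve_left (pow_ne_zero 6 n55)
                exact absurd t375 (by norm_num)
        · have t376 : (v02) ^ 1 * (s22) = 0 := by linear_combination e2_0_4
          have t377 := (mul_eq_zero.mp t376).resolve_left (pow_ne_zero 1 h46)
          have t378 : 0 = s22 := by linear_combination (-1) * t377
          subst t378
          have t379 : (a20) ^ 1 * ((u02) ^ 1 * (-u11 - 2 * v02 + 2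
              * l2)) = 0 := by linear_combination r45
          have t380 := (mul_eq_zero.mp t379).resolve_left (pow_ne_zero 1 n1)
          have t381 := (mul_eq_zero.mp t380).resolve_left (pow_ne_zero 1 h6)
          have r127 : -u11 - 2 * v02 + 2 * l2 = 0 := by linear_combination t381
          have t382 : 1 / 2 * u11 + v02 = l2 := by linear_combination (-1 / 2) * r127
          subst t382
          have t383 : (u02) ^ 1 * (2 * a20 + s21) = 0 := by linear_combination r44
          have t384 := (mul_eq_zero.mp t383).resolve_left (pow_ne_zero 1 h6)
          have r128 : 2 * a20 + s21 = 0 := by linear_combination t384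
          have t385 : -2 * a20 = s21 := by linear_combination (-1) * r128
          subst t385
          exfalso
          have t386 : (a20) ^ 1 * ((v02) ^ 1 * (1)) = 0 := by linear_combination (-1 / 2) * e2_1_3
          have t387 := (mul_eq_zero.mp t386).resolve_left (pow_ne_zero 1 n1)
          have t388 := (mul_eq_zero.mp t387).resolve_left (pow_ne_zero 1 h46)
          exact absurd t388 (by norm_num)
    · have t389 : (v11) ^ 1 * (s2) = 0 := by linear_combination e2_1_2
      have t390 := (mul_eq_zero.mp t389).resolve_left (pow_ne_zero 1 h5)
      have t391 : 0 = s2 := by linear_combination (-1) * t390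
      subst t391
      have t392 : (a20) ^ 1 * (s12) = 0 := by linear_combination (1 / 2) * r2
      have t393 := (mul_eq_zero.mp t392).resolve_left (pow_ne_zero 1 n1)
      have t394 : 0 = s12 := by linear_combination (-1) * t393
      subst t394
      have t395 : (v11) ^ 1 * (a20 - s21) = 0 := by linear_combination (-1) * e2_2_2
      have t396 := (mul_eq_zero.mp t395).resolve_left (pow_ne_zero 1 h5)
      have t397 : a20 = s21 := by linear_combination (1) * t396
      subst t397
      have t398 : (a20) ^ 1 * (l1) = 0 := by linear_combination e1_3_1
      have t399 := (mul_eq_zero.mp t398).resolve_left (pow_ne_zero 1 n1)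
      have t400 : 0 = l1 := by linear_combination (-1) * t399
      subst t400
      have r129 : a20 * v02 + v11 * s22 = 0 := by linear_combination e2_1_3
      have t401 : (a20) ^ 1 * ((v11) ^ 1 * (u11 + l2)) = 0 := by linear_combination (v11)
          * e1_2_2 + (-1 / 2 * v11) * r129
      have t402 := (mul_eq_zero.mp t401).resolve_left (pow_ne_zero 1 n1)
      have t403 := (mul_eq_zero.mp t402).resolve_left (pow_ne_zero 1 h5)
      have t404 : -u11 = l2 := by linear_combination (-1) * t403
      subst t404
      have r130 : a20 * v02 ^ 2 + a02 * v11 ^ 2 = 0 := by linear_combination (-v11) * e2_0_4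
          + (v02) * r129
      have t405 : (a20) ^ 1 * ((v11) ^ 2 * (u11 * v02 - 3 * u02 * v11 + 2
          * v02 ^ 2)) = 0 := by linear_combination (-2 * v11 ^ 3) * e1_1_3 + (u11 * v11 ^ 2
          + v11 ^ 2 * v02) * r129 + (v11 ^ 2) * r130
      have t406 := (mul_eq_zero.mp t405).resolve_left (pow_ne_zero 1 n1)
      have t407 := (mul_eq_zero.mp t406).resolve_left (pow_ne_zero 2 h5)
      have r131 : u11 * v02 - 3 * u02 * v11 + 2 * v02 ^ 2 = 0 := by linear_combination t407
      by_cases h132 : v02 = 0
      · have t408 : 0 = v02 := by linear_combination (-1) * h132
        subst t408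
        have t409 : (v11) ^ 1 * (s22) = 0 := by linear_combination r129
        have t410 := (mul_eq_zero.mp t409).resolve_left (pow_ne_zero 1 h5)
        have t411 : 0 = s22 := by linear_combination (-1) * t410
        subst t411
        have t412 : (v11) ^ 2 * (a02) = 0 := by linear_combination r130
        have t413 := (mul_eq_zero.mp t412).resolve_left (pow_ne_zero 2 h5)
        have t414 : 0 = a02 := by linear_combination (-1) * t413
        subst t414
        have t415 : (v11) ^ 1 * (u02) = 0 := by linear_combination (-1 / 3) * r131
        have t416 := (mul_eq_zero.mp t415).resolve_left (pow_ne_zero 1 h5)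
        have t417 : 0 = u02 := by linear_combination (-1) * t416
        subst t417
        have t418 : (v11) ^ 1 * (u11) = 0 := by linear_combination (2) * e1_3_2
        have t419 := (mul_eq_zero.mp t418).resolve_left (pow_ne_zero 1 h5)
        have t420 : 0 = u11 := by linear_combination (-1) * t419
        subst t420
        have t421 : (a20) ^ 1 * (q02) = 0 := by linear_combination e1_2_3
        have t422 := (mul_eq_zero.mp t421).resolve_left (pow_ne_zero 1 n1)
        have t423 : 0 = q02 := by linear_combination (-1) * t422
        subst t423
        have r133 : 4 * a20 * q20 + v11 ^ 2 = 0 := by linear_combination (-4) * e1_4_1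
        exfalso
        have t424 : (a20) ^ 2 * ((v11) ^ 1 * (1)) = 0 := by linear_combination (-1) * f_3_2
        have t425 := (mul_eq_zero.mp t424).resolve_left (pow_ne_zero 2 n1)
        have t426 := (mul_eq_zero.mp t425).resolve_left (pow_ne_zero 1 h5)
        exact absurd t426 (by norm_num)
      · have t427 : (a20) ^ 1 * ((v11) ^ 2 * ((v02) ^ 2 * (u11
            - v02))) = 0 := by linear_combination (3 / 4 * v11 ^ 4) * e1_0_4 + (-3 / 8 * u02
            * v11 ^ 3) * r129 + (9 / 8 * u11 * v11 ^ 2 - 3 / 4 * v11 ^ 2 * v02) * r130
            + (-1 / 8 * a20 * v11 ^ 2 * v02) * r131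
        have t428 := (mul_eq_zero.mp t427).resolve_left (pow_ne_zero 1 n1)
        have t429 := (mul_eq_zero.mp t428).resolve_left (pow_ne_zero 2 h5)
        have t430 := (mul_eq_zero.mp t429).resolve_left (pow_ne_zero 2 h132)
        have t431 : v02 = u11 := by linear_combination (-1) * t430
        subst t431
        have r134 : 4 * a20 * q20 + v11 ^ 2 = 0 := by linear_combination (-4) * e1_4_1
        have t432 : (a20) ^ 1 * ((v11) ^ 3 * (4 * a20 * v11 * q02 - 4 * a20 * v02 * q11 - v11
            * v02 ^ 2)) = 0 := by linear_combination (4 * a20 * v11 ^ 4) * e1_2_3 + (-4 * a20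
            * v11 ^ 3 * q11) * r129 + (8 * a20 * v11 ^ 2 * q20) * r130 + (1 / 3 * a20
            * v11 ^ 4) * r131 + (-2 * a20 * v11 ^ 2 * v02 ^ 2) * r134
        have t433 := (mul_eq_zero.mp t432).resolve_left (pow_ne_zero 1 n1)
        have t434 := (mul_eq_zero.mp t433).resolve_left (pow_ne_zero 3 h5)
        have r135 : 4 * a20 * v11 * q02 - 4 * a20 * v02 * q11 - v11
            * v02 ^ 2 = 0 := by linear_combination t434
        exfalso
        have t435 : (a20) ^ 2 * ((v11) ^ 1 * (1)) = 0 := by linear_combination (-1) * f_3_2
        have t436 := (mul_eq_zero.mp t435).resolve_left (pow_ne_zero 2 n1)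
        have t437 := (mul_eq_zero.mp t436).resolve_left (pow_ne_zero 1 h5)
        exact absurd t437 (by norm_num)
  · have t438 : (v20) ^ 1 * (s2) = 0 := by linear_combination e2_2_1
    have t439 := (mul_eq_zero.mp t438).resolve_left (pow_ne_zero 1 h4)
    have t440 : 0 = s2 := by linear_combination (-1) * t439
    subst t440
    have t441 : (a20) ^ 1 * (s12) = 0 := by linear_combination (1 / 2) * r2
    have t442 := (mul_eq_zero.mp t441).resolve_left (pow_ne_zero 1 n1)
    have t443 : 0 = s12 := by linear_combination (-1) * t442
    subst t443
    have t444 : (a20) ^ 1 * (s11) = 0 := by linear_combination (1 / 2) * r3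
    have t445 := (mul_eq_zero.mp t444).resolve_left (pow_ne_zero 1 n1)
    have t446 : 0 = s11 := by linear_combination (-1) * t445
    subst t446
    have t447 : (v20) ^ 1 * (2 * a20 - s21) = 0 := by linear_combination (-2) * e1_4_0
    have t448 := (mul_eq_zero.mp t447).resolve_left (pow_ne_zero 1 h4)
    have t449 : 2 * a20 = s21 := by linear_combination (1) * t448
    subst t449
    have r136 : a20 * v11 + v20 * s22 = 0 := by linear_combination e2_2_2
    have t450 : (a20) ^ 1 * ((v20) ^ 1 * (l1)) = 0 := by linear_combination (v20) * e1_3_1
        + (-1 / 2 * v20) * r136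
    have t451 := (mul_eq_zero.mp t450).resolve_left (pow_ne_zero 1 n1)
    have t452 := (mul_eq_zero.mp t451).resolve_left (pow_ne_zero 1 h4)
    have t453 : 0 = l1 := by linear_combination (-1) * t452
    subst t453
    have r137 : 2 * a20 * v20 * v02 - a20 * v11 ^ 2 - 2 * a02
        * v20 ^ 2 = 0 := by linear_combination (v20) * e2_1_3 + (-v11) * r136
    have t454 : (a20) ^ 1 * ((v20) ^ 2 * (3 * a20 * u11 + 2 * a20 * l2 + 2 * a02
        * v20)) = 0 := by linear_combination (2 * a20 * v20 ^ 2) * e1_2_2 + (-a20 * v20 * v11)
        * r136 + (-a20 * v20) * r137
    have t455 := (mul_eq_zero.mp t454).resolve_left (pow_ne_zero 1 n1)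
    have t456 := (mul_eq_zero.mp t455).resolve_left (pow_ne_zero 2 h4)
    have r138 : 3 * a20 * u11 + 2 * a20 * l2 + 2 * a02 * v20 = 0 := by linear_combination t456
    have t457 : (a20) ^ 2 * (2 * u11 * v20 * v11 - 8 * u02 * v20 ^ 2
        + v11 ^ 3) = 0 := by linear_combination (-4 * a20 * v20 ^ 2) * e1_1_3 + (2 * a20 * u11
        * v20 + 2 * a20 * v20 * v02) * r136 + (-a20 * v11) * r137
    have t458 := (mul_eq_zero.mp t457).resolve_left (pow_ne_zero 2 n1)
    have r139 : 2 * u11 * v20 * v11 - 8 * u02 * v20 ^ 2 + v11 ^ 3 = 0 := by linear_combination t458
    by_cases h140 : v11 = 0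
    · have t459 : 0 = v11 := by linear_combination (-1) * h140
      subst t459
      have t460 : (v20) ^ 1 * (s22) = 0 := by linear_combination r136
      have t461 := (mul_eq_zero.mp t460).resolve_left (pow_ne_zero 1 h4)
      have t462 : 0 = s22 := by linear_combination (-1) * t461
      subst t462
      have t463 : (v20) ^ 1 * (2 * a20 * v02 - 2 * a02 * v20) = 0 := by linear_combination r137
      have t464 := (mul_eq_zero.mp t463).resolve_left (pow_ne_zero 1 h4)
      have r141 : 2 * a20 * v02 - 2 * a02 * v20 = 0 := by linear_combination t464
      have t465 : (v20) ^ 2 * (u02) = 0 := by linear_combination (-1 / 8) * r139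
      have t466 := (mul_eq_zero.mp t465).resolve_left (pow_ne_zero 2 h4)
      have t467 : 0 = u02 := by linear_combination (-1) * t466
      subst t467
      by_cases h142 : a02 = 0
      · have t468 : 0 = a02 := by linear_combination (-1) * h142
        subst t468
        have t469 : (a20) ^ 1 * (v02) = 0 := by linear_combination (1 / 2) * r141
        have t470 := (mul_eq_zero.mp t469).resolve_left (pow_ne_zero 1 n1)
        have t471 : 0 = v02 := by linear_combination (-1) * t470
        subst t471
        have t472 : (a20) ^ 1 * (3 * u11 + 2 * l2) = 0 := by linear_combination r138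
        have t473 := (mul_eq_zero.mp t472).resolve_left (pow_ne_zero 1 n1)
        have r143 : 3 * u11 + 2 * l2 = 0 := by linear_combination t473
        have t474 : -3 / 2 * u11 = l2 := by linear_combination (-1 / 2) * r143
        subst t474
        have t475 : (a20) ^ 1 * (q11) = 0 := by linear_combination e1_3_2
        have t476 := (mul_eq_zero.mp t475).resolve_left (pow_ne_zero 1 n1)
        have t477 : 0 = q11 := by linear_combination (-1) * t476
        subst t477
        have t478 : (v20) ^ 1 * (u11) = 0 := by linear_combination (2) * e1_4_1
        have t479 := (mul_eq_zero.mp t478).resolve_left (pow_ne_zero 1 h4)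
        have t480 : 0 = u11 := by linear_combination (-1) * t479
        subst t480
        have t481 : (a20) ^ 1 * (q02) = 0 := by linear_combination (1 / 2) * e1_2_3
        have t482 := (mul_eq_zero.mp t481).resolve_left (pow_ne_zero 1 n1)
        have t483 : 0 = q02 := by linear_combination (-1) * t482
        subst t483
        exfalso
        have t484 : (a20) ^ 2 * ((v20) ^ 1 * (1)) = 0 := by linear_combination (-1 / 4) * f_4_1
        have t485 := (mul_eq_zero.mp t484).resolve_left (pow_ne_zero 2 n1)
        have t486 := (mul_eq_zero.mp t485).resolve_left (pow_ne_zero 1 h4)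
        exact absurd t486 (by norm_num)
      · have t487 : (a20) ^ 2 * ((a02) ^ 1 * (u11)) = 0 := by linear_combination (-1 / 2
            * a20 ^ 2) * e1_0_4 + (1 / 4 * a20 * a02) * r141 + (1 / 4 * a20 * a02) * r138
        have t488 := (mul_eq_zero.mp t487).resolve_left (pow_ne_zero 2 n1)
        have t489 := (mul_eq_zero.mp t488).resolve_left (pow_ne_zero 1 h142)
        have t490 : 0 = u11 := by linear_combination (-1) * t489
        subst t490
        have t491 : (a20) ^ 1 * (q11) = 0 := by linear_combination e1_3_2
        have t492 := (mul_eq_zero.mp t491).resolve_left (pow_ne_zero 1 n1)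
        have t493 : 0 = q11 := by linear_combination (-1) * t492
        subst t493
        have t494 : (a20) ^ 3 * (a20 * q02 - a02 * q20) = 0 := by linear_combination (1 / 2
            * a20 ^ 3) * e1_2_3 + (1 / 8 * a20 ^ 2 * v02 + 1 / 8 * a20 ^ 2 * l2 + 1 / 8 * a20
            * a02 * v20) * r141 + (1 / 8 * a20 * a02 * v20) * r138
        have t495 := (mul_eq_zero.mp t494).resolve_left (pow_ne_zero 3 n1)
        have r144 : a20 * q02 - a02 * q20 = 0 := by linear_combination t495
        exfalso
        have t496 : (a20) ^ 2 * ((v20) ^ 1 * (1)) = 0 := by linear_combination (-1 / 4) * f_4_1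
        have t497 := (mul_eq_zero.mp t496).resolve_left (pow_ne_zero 2 n1)
        have t498 := (mul_eq_zero.mp t497).resolve_left (pow_ne_zero 1 h4)
        exact absurd t498 (by norm_num)
    · have t499 : (a20) ^ 1 * ((v11) ^ 1 * (a20 * v11 ^ 2 + 4 * a02
          * v20 ^ 2)) = 0 := by linear_combination (-2 * a20 * v20 ^ 2) * e2_0_4 + (2 * a20
          * v20 * v02) * r136 + (-a20 * v11) * r137
      have t500 := (mul_eq_zero.mp t499).resolve_left (pow_ne_zero 1 n1)
      have t501 := (mul_eq_zero.mp t500).resolve_left (pow_ne_zero 1 h140)
      have r145 : a20 * v11 ^ 2 + 4 * a02 * v20 ^ 2 = 0 := by linear_combination t501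
      have r146 : 8 * a20 * v20 ^ 3 * v02 - 2 * a20 * v20 ^ 2
          * v11 ^ 2 = 0 := by linear_combination (4 * v20 ^ 2) * r137 + (2 * v20 ^ 2) * r145
      have r147 : 12 * a20 * u11 * v20 ^ 2 + 8 * a20 * v20 ^ 2 * l2 - 2 * a20 * v20
          * v11 ^ 2 = 0 := by linear_combination (4 * v20 ^ 2) * r138 + (-2 * v20) * r145
      have t502 : (a20) ^ 1 * ((v20) ^ 2 * (8 * v20 * v02 - 2
          * v11 ^ 2)) = 0 := by linear_combination r146
      have t503 := (mul_eq_zero.mp t502).resolve_left (pow_ne_zero 1 n1)
      have t504 := (mul_eq_zero.mp t503).resolve_left (pow_ne_zero 2 h4)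
      have r148 : 8 * v20 * v02 - 2 * v11 ^ 2 = 0 := by linear_combination t504
      have t505 : (a20) ^ 1 * ((v20) ^ 1 * (12 * u11 * v20 + 8 * v20 * l2 - 2
          * v11 ^ 2)) = 0 := by linear_combination r147
      have t506 := (mul_eq_zero.mp t505).resolve_left (pow_ne_zero 1 n1)
      have t507 := (mul_eq_zero.mp t506).resolve_left (pow_ne_zero 1 h4)
      have r149 : 12 * u11 * v20 + 8 * v20 * l2 - 2 * v11 ^ 2 = 0 := by linear_combination t507
      have t508 : (a20) ^ 1 * ((v20) ^ 4 * ((v11) ^ 2 * (2 * u11 * v20
          - v11 ^ 2))) = 0 := by linear_combination (16 / 3 * v20 ^ 7) * e1_0_4 + (-8 / 3 * u02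
          * v20 ^ 6) * r136 + (-2 / 3 * a02 * v20 ^ 6) * r148 + (-2 / 3 * a02 * v20 ^ 6) * r149
          + (-1 / 3 * a20 * v20 ^ 4 * v11) * r139 + (8 / 3 * u11 * v20 ^ 5 - 2 / 3 * v20 ^ 4
          * v11 ^ 2) * r145
      have t509 := (mul_eq_zero.mp t508).resolve_left (pow_ne_zero 1 n1)
      have t510 := (mul_eq_zero.mp t509).resolve_left (pow_ne_zero 4 h4)
      have t511 := (mul_eq_zero.mp t510).resolve_left (pow_ne_zero 2 h140)
      have r150 : 2 * u11 * v20 - v11 ^ 2 = 0 := by linear_combination t511
      have r151 : 16 * v20 ^ 2 * l2 + 8 * v20 * v11 ^ 2 = 0 := by linear_combination (2 * v20)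
          * r149 + (-12 * v20) * r150
      have r152 : -16 * u02 * v20 ^ 3 + 4 * v20 * v11 ^ 3 = 0 := by linear_combination (2
          * v20) * r139 + (-2 * v20 * v11) * r150
      have t512 : (v20) ^ 1 * (16 * v20 * l2 + 8 * v11 ^ 2) = 0 := by linear_combination r151
      have t513 := (mul_eq_zero.mp t512).resolve_left (pow_ne_zero 1 h4)
      have r153 : 16 * v20 * l2 + 8 * v11 ^ 2 = 0 := by linear_combination t513
      have t514 : (v20) ^ 1 * (-16 * u02 * v20 ^ 2 + 4 * v11 ^ 3) = 0 := by linear_combination r152
      have t515 := (mul_eq_zero.mp t514).resolve_left (pow_ne_zero 1 h4)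
      have r154 : -16 * u02 * v20 ^ 2 + 4 * v11 ^ 3 = 0 := by linear_combination t515
      exfalso
      have t516 : (v20) ^ 1 * ((v11) ^ 1 * (1)) = 0 := by linear_combination (-4) * e1_5_0
      have t517 := (mul_eq_zero.mp t516).resolve_left (pow_ne_zero 1 h4)
      have t518 := (mul_eq_zero.mp t517).resolve_left (pow_ne_zero 1 h140)
      exact absurd t518 (by norm_num)

end Pool.Agent.H38.FM
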