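import Mathlib

/-!
# Elimination tree `Bz3` (generated)
-/

set_option linter.unusedVariables false
set_option linter.style.longLine false

noncomputable section

namespace Pool.Agent.H38.FM

theorem tree_Bz3
    (a02 u20 u11 v20 v11 v02 q20 q11 q02 s1 s2 s11 s12 s21 s22 l1 l2 : ℂ)
    (e1_0_2 : a02 * s1 = 0)
    (e1_3_0 : u20 * s1 + 1 / 2 * v20 * s2 = 0)
    (e1_2_1 : 1 / 2 * u20 * s2 + u11 * s1 + 1 / 2 * v11 * s2 = 0)
    (e1_1_2 : a02 * s11 + 1 / 2 * u11 * s2 + 1 / 2 * v02 * s2 = 0)
    (e1_0_3 : a02 * s12 = 0)
    (e1_4_0 : u20 * s11 + 1 / 2 * v20 * s21 + q20 * s1 = 0)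
    (e1_3_1 : u20 * s12 + 1 / 2 * u20 * s21 + u11 * s11 + 1 / 2 * v20 * s22 + 1 / 2 * v11 * s21
        + q20 * s2 + q11 * s1 = 0)
    (e1_2_2 : 1 / 2 * u20 * s22 + u11 * s12 + 1 / 2 * u11 * s21 + 1 / 2 * v11 * s22 + 1 / 2
        * v02 * s21 + q11 * s2 + q02 * s1 = 0)
    (e1_1_3 : -a02 * u20 + 1 / 2 * a02 * v11 + a02 * l1 + 1 / 2 * u11 * s22 + 1 / 2 * v02 * s22
        + q02 * s2 = 0)
    (e1_0_4 : -1 / 2 * a02 * u11 + a02 * v02 + a02 * l2 = 0)
    (e1_4_1 : 1 / 2 * u20 ^ 2 - 1 / 4 * u20 * v11 + 1 / 2 * u20 * l1 - 1 / 4 * u11 * v20
        - 1 / 2 * v20 * v02 - 1 / 2 * v20 * l2 - 1 / 4 * v11 ^ 2 - 1 / 2 * v11 * l1 + q20 * s12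
        + q20 * s21 + q11 * s11 = 0)
    (e1_3_2 : 3 / 4 * u20 * u11 + 1 / 2 * u20 * l2 + 1 / 2 * u11 * l1 - 3 / 4 * v11 * v02
        - 1 / 2 * v11 * l2 - 1 / 2 * v02 * l1 + q20 * s22 + q11 * s12 + q11 * s21 + q02 * s11 = 0)
    (e1_2_3 : -2 * a02 * q20 + 1 / 4 * u11 ^ 2 + 1 / 4 * u11 * v02 + 1 / 2 * u11 * l2 - 1 / 2
        * v02 ^ 2 - 1 / 2 * v02 * l2 + q11 * s22 + q02 * s12 + q02 * s21 = 0)
    (e1_1_4 : -a02 * q11 + q02 * s22 = 0)
    (e2_1_2 : 1 / 2 * u11 * s1 + v11 * s2 + 1 / 2 * v02 * s1 = 0)
    (e2_0_3 : v02 * s2 = 0)
    (e2_2_2 : 1 / 2 * u20 * s12 + 1 / 2 * u11 * s11 + v20 * s22 + 1 / 2 * v11 * s12 + v11 * s21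
        + 1 / 2 * v02 * s11 + q20 * s2 + q11 * s1 = 0)
    (e2_1_3 : -2 * a02 * v20 + 1 / 2 * u11 * s12 + v11 * s22 + 1 / 2 * v02 * s12 + v02 * s21
        + q11 * s2 + q02 * s1 = 0)
    (e2_0_4 : -a02 * v11 + v02 * s22 + q02 * s2 = 0)
    (n1 : a02 ≠ 0)
    (hD : ∃ x y : ℂ, (x ^ 4 * q20 + x ^ 3 * y * q11 + x ^ 2 * y ^ 2 * q02 + x ^ 3 * u20 + x ^ 2
        * y * u11 + y ^ 2 * a02) * (x ^ 2 * y ^ 2 * q20 + x * y ^ 3 * q11 + y ^ 4 * q02 + x ^ 2
        * y * v20 + x * y ^ 2 * v11 + y ^ 3 * v02) - (x ^ 3 * y * q20 + x ^ 2 * y ^ 2 * q11 + x
        * y ^ 3 * q02 + 1 / 2 * x ^ 3 * v20 + 1 / 2 * x ^ 2 * y * u20 + 1 / 2 * x ^ 2 * y * v11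
        + 1 / 2 * x * y ^ 2 * u11 + 1 / 2 * x * y ^ 2 * v02) ^ 2 ≠ 0) :
    ((u20 = 0) ∧ (u11 = 0) ∧ (v20 = 0) ∧ (v11 = 0) ∧ (v02 = 0) ∧ (q20 = 0) ∧ (q11 = 0) ∧ (a02 ≠ 0) ∧ (q02 ≠ 0)) ∨
    ((u20 = 0) ∧ (v20 = 0) ∧ (v11 = 0) ∧ (v02 = 0) ∧ (q11 = 0) ∧ (4 * a02 * q20
        - u11 ^ 2 = 0) ∧ (a02 ≠ 0) ∧ (u11 ≠ 0) ∧ (q02 ≠ 0)) ∨
    ((u20 = 0) ∧ (v20 = 0) ∧ (v11 = 0) ∧ (q11 = 0) ∧ (4 * a02 * q20 - u11 ^ 2 + u11
        * v02 = 0) ∧ (a02 ≠ 0) ∧ (v02 ≠ 0)) := by
  have t1 : (a02) ^ 1 * (s1) = 0 := by linear_combination e1_0_2
  have t2 := (mul_eq_zero.mp t1).resolve_left (pow_ne_zero 1 n1)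
  have t3 : 0 = s1 := by linear_combination (-1) * t2
  subst t3
  have t4 : (a02) ^ 1 * (s12) = 0 := by linear_combination e1_0_3
  have t5 := (mul_eq_zero.mp t4).resolve_left (pow_ne_zero 1 n1)
  have t6 : 0 = s12 := by linear_combination (-1) * t5
  subst t6
  have r2 : 2 * a02 * s11 + u11 * s2 + v02 * s2 = 0 := by linear_combination (2) * e1_1_2
  by_cases h3 : v20 = 0
  · have t7 : 0 = v20 := by linear_combination (-1) * h3
    subst t7
    by_cases h4 : v11 = 0
    · have t8 : 0 = v11 := by linear_combination (-1) * h4
      subst t8
      by_cases h5 : u20 = 0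
      · have t9 : 0 = u20 := by linear_combination (-1) * h5
        subst t9
        by_cases h6 : v02 = 0
        · have t10 : 0 = v02 := by linear_combination (-1) * h6
          subst t10
          have t11 : (a02) ^ 1 * (u11 - 2 * l2) = 0 := by linear_combination (-2) * e1_0_4
          have t12 := (mul_eq_zero.mp t11).resolve_left (pow_ne_zero 1 n1)
          have t13 : 1 / 2 * u11 = l2 := by linear_combination (1 / 2) * t12
          subst t13
          have r7 : 2 * a02 * l1 + u11 * s22 + 2 * q02 * s2 = 0 := by linear_combination (2)
              * e1_1_3
          by_cases h8 : q11 = 0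
          · have t14 : 0 = q11 := by linear_combination (-1) * h8
            subst t14
            by_cases h9 : u11 = 0
            · have t15 : 0 = u11 := by linear_combination (-1) * h9
              subst t15
              have t16 : (a02) ^ 1 * (s11) = 0 := by linear_combination (1 / 2) * r2
              have t17 := (mul_eq_zero.mp t16).resolve_left (pow_ne_zero 1 n1)
              have t18 : 0 = s11 := by linear_combination (-1) * t17
              subst t18
              by_cases h10 : q20 = 0
              · have t19 : 0 = q20 := by linear_combination (-1) * h10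
                subst t19
                by_cases h11 : q02 = 0
                · have t20 : 0 = q02 := by linear_combination (-1) * h11
                  subst t20
                  have t21 : (a02) ^ 1 * (l1) = 0 := by linear_combination (1 / 2) * r7
                  have t22 := (mul_eq_zero.mp t21).resolve_left (pow_ne_zero 1 n1)
                  have t23 : 0 = l1 := by linear_combination (-1) * t22
                  subst t23
                  exfalso
                  obtain ⟨x, y, hxy⟩ := hD
                  exact hxy (by linear_combination 0)
                · have t24 : (q02) ^ 1 * (s2) = 0 := by linear_combination e2_0_4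
                  have t25 := (mul_eq_zero.mp t24).resolve_left (pow_ne_zero 1 h11)
                  have t26 : 0 = s2 := by linear_combination (-1) * t25
                  subst t26
                  have t27 : (a02) ^ 1 * (l1) = 0 := by linear_combination (1 / 2) * r7
                  have t28 := (mul_eq_zero.mp t27).resolve_left (pow_ne_zero 1 n1)
                  have t29 : 0 = l1 := by linear_combination (-1) * t28
                  subst t29
                  have t30 : (q02) ^ 1 * (s22) = 0 := by linear_combination e1_1_4
                  have t31 := (mul_eq_zero.mp t30).resolve_left (pow_ne_zero 1 h11)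
                  have t32 : 0 = s22 := by linear_combination (-1) * t31
                  subst t32
                  have t33 : (q02) ^ 1 * (s21) = 0 := by linear_combination e1_2_3
                  have t34 := (mul_eq_zero.mp t33).resolve_left (pow_ne_zero 1 h11)
                  have t35 : 0 = s21 := by linear_combination (-1) * t34
                  subst t35
                  exact Or.inl ⟨by ring, by ring, by ring, by ring, by ring, by ring, by ring, n1, h11⟩
              · have t36 : (q20) ^ 1 * (s2) = 0 := by linear_combination e1_3_1
                have t37 := (mul_eq_zero.mp t36).resolve_left (pow_ne_zero 1 h10)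
                have t38 : 0 = s2 := by linear_combination (-1) * t37
                subst t38
                have t39 : (a02) ^ 1 * (l1) = 0 := by linear_combination (1 / 2) * r7
                have t40 := (mul_eq_zero.mp t39).resolve_left (pow_ne_zero 1 n1)
                have t41 : 0 = l1 := by linear_combination (-1) * t40
                subst t41
                have t42 : (q20) ^ 1 * (s22) = 0 := by linear_combination e1_3_2
                have t43 := (mul_eq_zero.mp t42).resolve_left (pow_ne_zero 1 h10)
                have t44 : 0 = s22 := by linear_combination (-1) * t43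
                subst t44
                have t45 : (q20) ^ 1 * (s21) = 0 := by linear_combination e1_4_1
                have t46 := (mul_eq_zero.mp t45).resolve_left (pow_ne_zero 1 h10)
                have t47 : 0 = s21 := by linear_combination (-1) * t46
                subst t47
                exfalso
                have t48 : (a02) ^ 1 * ((q20) ^ 1 * (1)) = 0 := by linear_combination (-1 / 2)
                    * e1_2_3
                have t49 := (mul_eq_zero.mp t48).resolve_left (pow_ne_zero 1 n1)
                have t50 := (mul_eq_zero.mp t49).resolve_left (pow_ne_zero 1 h10)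
                exact absurd t50 (by norm_num)
            · have t51 : (u11) ^ 1 * (s21) = 0 := by linear_combination (2) * e1_2_2
              have t52 := (mul_eq_zero.mp t51).resolve_left (pow_ne_zero 1 h9)
              have t53 : 0 = s21 := by linear_combination (-1) * t52
              subst t53
              by_cases h12 : q02 = 0
              · have t54 : 0 = q02 := by linear_combination (-1) * h12
                subst t54
                by_cases h13 : s2 = 0
                · have t55 : 0 = s2 := by linear_combination (-1) * h13
                  subst t55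
                  have t56 : (a02) ^ 1 * (s11) = 0 := by linear_combination (1 / 2) * r2
                  have t57 := (mul_eq_zero.mp t56).resolve_left (pow_ne_zero 1 n1)
                  have t58 : 0 = s11 := by linear_combination (-1) * t57
                  subst t58
                  have r14 : 4 * a02 * q20 - u11 ^ 2 = 0 := by linear_combination (-2) * e1_2_3
                  exfalso
                  obtain ⟨x, y, hxy⟩ := hD
                  have t59 : (a02) ^ 1 * ((x ^ 2 * y ^ 4 * a02 * q20 - 1 / 4 * x ^ 2 * y ^ 4
                      * u11 ^ 2)) = 0 := by linear_combination (1 / 4 * x ^ 2 * y ^ 4 * a02) * r14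
                  have t60 := (mul_eq_zero.mp t59).resolve_left (pow_ne_zero 1 n1)
                  exact hxy (by linear_combination t60)
                · have t61 : (s2) ^ 1 * (2 * a02 * q20
                      - u11 ^ 2) = 0 := by linear_combination (2 * a02) * e1_3_1 + (-u11) * r2
                  have t62 := (mul_eq_zero.mp t61).resolve_left (pow_ne_zero 1 h13)
                  have r15 : 2 * a02 * q20 - u11 ^ 2 = 0 := by linear_combination t62
                  exfalso
                  have t63 : (a02) ^ 1 * ((u11) ^ 2 * ((s2) ^ 1
                      * (1))) = 0 := by linear_combination (4 * a02 ^ 2) * e2_2_2 + (-a02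
                      * u11) * r2 + (-2 * a02 * s2) * r15
                  have t64 := (mul_eq_zero.mp t63).resolve_left (pow_ne_zero 1 n1)
                  have t65 := (mul_eq_zero.mp t64).resolve_left (pow_ne_zero 2 h9)
                  have t66 := (mul_eq_zero.mp t65).resolve_left (pow_ne_zero 1 h13)
                  exact absurd t66 (by norm_num)
              · have t67 : (q02) ^ 1 * (s2) = 0 := by linear_combination e2_0_4
                have t68 := (mul_eq_zero.mp t67).resolve_left (pow_ne_zero 1 h12)
                have t69 : 0 = s2 := by linear_combination (-1) * t68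
                subst t69
                have t70 : (a02) ^ 1 * (s11) = 0 := by linear_combination (1 / 2) * r2
                have t71 := (mul_eq_zero.mp t70).resolve_left (pow_ne_zero 1 n1)
                have t72 : 0 = s11 := by linear_combination (-1) * t71
                subst t72
                have t73 : (q02) ^ 1 * (s22) = 0 := by linear_combination e1_1_4
                have t74 := (mul_eq_zero.mp t73).resolve_left (pow_ne_zero 1 h12)
                have t75 : 0 = s22 := by linear_combination (-1) * t74
                subst t75
                have t76 : (a02) ^ 1 * (l1) = 0 := by linear_combination (1 / 2) * r7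
                have t77 := (mul_eq_zero.mp t76).resolve_left (pow_ne_zero 1 n1)
                have t78 : 0 = l1 := by linear_combination (-1) * t77
                subst t78
                have r16 : 4 * a02 * q20 - u11 ^ 2 = 0 := by linear_combination (-2) * e1_2_3
                exact Or.inr (Or.inl ⟨by ring, by ring, by ring, by ring, by ring, by linear_combination r16, n1, h9, h12⟩)
          · have t79 : (q11) ^ 1 * (s2) = 0 := by linear_combination e2_1_3
            have t80 := (mul_eq_zero.mp t79).resolve_left (pow_ne_zero 1 h8)
            have t81 : 0 = s2 := by linear_combination (-1) * t80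
            subst t81
            have t82 : (a02) ^ 1 * (s11) = 0 := by linear_combination (1 / 2) * r2
            have t83 := (mul_eq_zero.mp t82).resolve_left (pow_ne_zero 1 n1)
            have t84 : 0 = s11 := by linear_combination (-1) * t83
            subst t84
            by_cases h17 : u11 = 0
            · have t85 : 0 = u11 := by linear_combination (-1) * h17
              subst t85
              have t86 : (a02) ^ 1 * (l1) = 0 := by linear_combination (1 / 2) * r7
              have t87 := (mul_eq_zero.mp t86).resolve_left (pow_ne_zero 1 n1)
              have t88 : 0 = l1 := by linear_combination (-1) * t87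
              subst t88
              have r18 : q20 * s22 + q11 * s21 = 0 := by linear_combination e1_3_2
              have r19 : a02 * q11 - q02 * s22 = 0 := by linear_combination (-1) * e1_1_4
              have r20 : a02 * q20 * s22 + q02 * s21 * s22 = 0 := by linear_combination (a02)
                  * r18 + (-s21) * r19
              have n21 : q02 * s22 ≠ 0 := by
                intro h0
                have t89 : (a02) ^ 1 * ((q11)) = 0 := by linear_combination h0 + r19
                have t90 := (mul_eq_zero.mp t89).resolve_left (pow_ne_zero 1 n1)
                exact h8 (by linear_combination t90)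
              have n22 : q02 ≠ 0 := fun h0 => n21 (by linear_combination (s22) * h0)
              have n23 : s22 ≠ 0 := fun h0 => n21 (by linear_combination (q02) * h0)
              have t91 : (s22) ^ 1 * (a02 * q20 + q02 * s21) = 0 := by linear_combination r20
              have t92 := (mul_eq_zero.mp t91).resolve_left (pow_ne_zero 1 n23)
              have r24 : a02 * q20 + q02 * s21 = 0 := by linear_combination t92
              have t93 : (q02) ^ 1 * (3 * a02 ^ 2 * q20 - q02
                  * s22 ^ 2) = 0 := by linear_combination (-a02 * q02) * e1_2_3 + (a02 * q02)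
                  * r24 + (q02 * s22) * r19
              have t94 := (mul_eq_zero.mp t93).resolve_left (pow_ne_zero 1 n22)
              have r25 : 3 * a02 ^ 2 * q20 - q02 * s22 ^ 2 = 0 := by linear_combination t94
              have r26 : -3 * a02 ^ 2 * q20 * s21 - a02 * q20
                  * s22 ^ 2 = 0 := by linear_combination (-s22 ^ 2) * r24 + (-s21) * r25
              have r27 : 3 * a02 ^ 2 * q20 * s22 - a02 * q11
                  * s22 ^ 2 = 0 := by linear_combination (-s22 ^ 2) * r19 + (s22) * r25
              have n28 : -3 * a02 ^ 2 * q20 ≠ 0 := by
                intro h0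
                have t95 : (s22) ^ 2 * ((q02)) = 0 := by linear_combination (-1) * h0 + (-1) * r25
                have t96 := (mul_eq_zero.mp t95).resolve_left (pow_ne_zero 2 n23)
                exact n22 (by linear_combination t96)
              have n29 : q20 ≠ 0 := fun h0 => n28 (by linear_combination (-3 * a02 ^ 2) * h0)
              have t97 : (a02) ^ 1 * ((q20) ^ 1 * (-3 * a02 * s21
                  - s22 ^ 2)) = 0 := by linear_combination r26
              have t98 := (mul_eq_zero.mp t97).resolve_left (pow_ne_zero 1 n1)
              have t99 := (mul_eq_zero.mp t98).resolve_left (pow_ne_zero 1 n29)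
              have r30 : -3 * a02 * s21 - s22 ^ 2 = 0 := by linear_combination t99
              have t100 : (a02) ^ 1 * ((s22) ^ 1 * (3 * a02 * q20 - q11
                  * s22)) = 0 := by linear_combination r27
              have t101 := (mul_eq_zero.mp t100).resolve_left (pow_ne_zero 1 n1)
              have t102 := (mul_eq_zero.mp t101).resolve_left (pow_ne_zero 1 n23)
              have r31 : 3 * a02 * q20 - q11 * s22 = 0 := by linear_combination t102
              exfalso
              have t103 : (s22) ^ 2 * ((q20) ^ 1 * (1)) = 0 := by linear_combination (-3 * a02)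
                  * e1_4_1 + (-q20) * r30
              have t104 := (mul_eq_zero.mp t103).resolve_left (pow_ne_zero 2 n23)
              have t105 := (mul_eq_zero.mp t104).resolve_left (pow_ne_zero 1 n29)
              exact absurd t105 (by norm_num)
            · have t106 : (u11) ^ 1 * (s21) = 0 := by linear_combination (2) * e1_2_2
              have t107 := (mul_eq_zero.mp t106).resolve_left (pow_ne_zero 1 h17)
              have t108 : 0 = s21 := by linear_combination (-1) * t107
              subst t108
              have r32 : a02 * q11 - q02 * s22 = 0 := by linear_combination (-1) * e1_1_4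
              have n33 : q02 * s22 ≠ 0 := by
                intro h0
                have t109 : (a02) ^ 1 * ((q11)) = 0 := by linear_combination h0 + r32
                have t110 := (mul_eq_zero.mp t109).resolve_left (pow_ne_zero 1 n1)
                exact h8 (by linear_combination t110)
              have n34 : q02 ≠ 0 := fun h0 => n33 (by linear_combination (s22) * h0)
              have n35 : s22 ≠ 0 := fun h0 => n33 (by linear_combination (q02) * h0)
              have t111 : (s22) ^ 1 * (4 * a02 * q20 - u11 ^ 2) = 0 := by linear_combination (4
                  * a02) * e1_3_2 + (-u11) * r7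
              have t112 := (mul_eq_zero.mp t111).resolve_left (pow_ne_zero 1 n35)
              have r36 : 4 * a02 * q20 - u11 ^ 2 = 0 := by linear_combination t112
              exfalso
              have t113 : (a02) ^ 1 * ((q02) ^ 1 * ((s22) ^ 2
                  * (1))) = 0 := by linear_combination (a02 ^ 2) * e1_2_3 + (-a02 * s22) * r32
                  + (1 / 2 * a02 ^ 2) * r36
              have t114 := (mul_eq_zero.mp t113).resolve_left (pow_ne_zero 1 n1)
              have t115 := (mul_eq_zero.mp t114).resolve_left (pow_ne_zero 1 n34)
              have t116 := (mul_eq_zero.mp t115).resolve_left (pow_ne_zero 2 n35)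
              exact absurd t116 (by norm_num)
        · have t117 : (v02) ^ 1 * (s2) = 0 := by linear_combination e2_0_3
          have t118 := (mul_eq_zero.mp t117).resolve_left (pow_ne_zero 1 h6)
          have t119 : 0 = s2 := by linear_combination (-1) * t118
          subst t119
          have t120 : (a02) ^ 1 * (s11) = 0 := by linear_combination (1 / 2) * r2
          have t121 := (mul_eq_zero.mp t120).resolve_left (pow_ne_zero 1 n1)
          have t122 : 0 = s11 := by linear_combination (-1) * t121
          subst t122
          have t123 : (v02) ^ 1 * (s22) = 0 := by linear_combination e2_0_4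
          have t124 := (mul_eq_zero.mp t123).resolve_left (pow_ne_zero 1 h6)
          have t125 : 0 = s22 := by linear_combination (-1) * t124
          subst t125
          have t126 : (a02) ^ 1 * (l1) = 0 := by linear_combination e1_1_3
          have t127 := (mul_eq_zero.mp t126).resolve_left (pow_ne_zero 1 n1)
          have t128 : 0 = l1 := by linear_combination (-1) * t127
          subst t128
          have t129 : (v02) ^ 1 * (s21) = 0 := by linear_combination e2_1_3
          have t130 := (mul_eq_zero.mp t129).resolve_left (pow_ne_zero 1 h6)
          have t131 : 0 = s21 := by linear_combination (-1) * t130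
          subst t131
          have t132 : (a02) ^ 1 * (u11 - 2 * v02 - 2 * l2) = 0 := by linear_combination (-2)
              * e1_0_4
          have t133 := (mul_eq_zero.mp t132).resolve_left (pow_ne_zero 1 n1)
          have t134 : 1 / 2 * u11 - v02 = l2 := by linear_combination (1 / 2) * t133
          subst t134
          have t135 : (a02) ^ 1 * (q11) = 0 := by linear_combination (-1) * e1_1_4
          have t136 := (mul_eq_zero.mp t135).resolve_left (pow_ne_zero 1 n1)
          have t137 : 0 = q11 := by linear_combination (-1) * t136
          subst t137
          have r37 : 4 * a02 * q20 - u11 ^ 2 + u11 * v02 = 0 := by linear_combination (-2) * e1_2_3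
          exact Or.inr (Or.inr (⟨by ring, by ring, by ring, by ring, by linear_combination r37, n1, h6⟩))
      · have t138 : (u20) ^ 1 * (s2) = 0 := by linear_combination (2) * e1_2_1
        have t139 := (mul_eq_zero.mp t138).resolve_left (pow_ne_zero 1 h5)
        have t140 : 0 = s2 := by linear_combination (-1) * t139
        subst t140
        have t141 : (a02) ^ 1 * (s11) = 0 := by linear_combination (1 / 2) * r2
        have t142 := (mul_eq_zero.mp t141).resolve_left (pow_ne_zero 1 n1)
        have t143 : 0 = s11 := by linear_combination (-1) * t142
        subst t143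
        have t144 : (u20) ^ 1 * (s21) = 0 := by linear_combination (2) * e1_3_1
        have t145 := (mul_eq_zero.mp t144).resolve_left (pow_ne_zero 1 h5)
        have t146 : 0 = s21 := by linear_combination (-1) * t145
        subst t146
        have t147 : (u20) ^ 1 * (s22) = 0 := by linear_combination (2) * e1_2_2
        have t148 := (mul_eq_zero.mp t147).resolve_left (pow_ne_zero 1 h5)
        have t149 : 0 = s22 := by linear_combination (-1) * t148
        subst t149
        have t150 : (a02) ^ 1 * (u20 - l1) = 0 := by linear_combination (-1) * e1_1_3
        have t151 := (mul_eq_zero.mp t150).resolve_left (pow_ne_zero 1 n1)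
        have t152 : u20 = l1 := by linear_combination (1) * t151
        subst t152
        have t153 : (a02) ^ 1 * (u11 - 2 * v02 - 2 * l2) = 0 := by linear_combination (-2) * e1_0_4
        have t154 := (mul_eq_zero.mp t153).resolve_left (pow_ne_zero 1 n1)
        have t155 : 1 / 2 * u11 - v02 = l2 := by linear_combination (1 / 2) * t154
        subst t155
        exfalso
        have t156 : (u20) ^ 2 * (1) = 0 := by linear_combination e1_4_1
        have t157 := (mul_eq_zero.mp t156).resolve_left (pow_ne_zero 2 h5)
        exact absurd t157 (by norm_num)
    · have t158 : (v11) ^ 1 * (s2) = 0 := by linear_combination e2_1_2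
      have t159 := (mul_eq_zero.mp t158).resolve_left (pow_ne_zero 1 h4)
      have t160 : 0 = s2 := by linear_combination (-1) * t159
      subst t160
      have t161 : (a02) ^ 1 * (s11) = 0 := by linear_combination (1 / 2) * r2
      have t162 := (mul_eq_zero.mp t161).resolve_left (pow_ne_zero 1 n1)
      have t163 : 0 = s11 := by linear_combination (-1) * t162
      subst t163
      have t164 : (v11) ^ 1 * (s21) = 0 := by linear_combination e2_2_2
      have t165 := (mul_eq_zero.mp t164).resolve_left (pow_ne_zero 1 h4)
      have t166 : 0 = s21 := by linear_combination (-1) * t165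
      subst t166
      have t167 : (v11) ^ 1 * (s22) = 0 := by linear_combination e2_1_3
      have t168 := (mul_eq_zero.mp t167).resolve_left (pow_ne_zero 1 h4)
      have t169 : 0 = s22 := by linear_combination (-1) * t168
      subst t169
      exfalso
      have t170 : (a02) ^ 1 * ((v11) ^ 1 * (1)) = 0 := by linear_combination (-1) * e2_0_4
      have t171 := (mul_eq_zero.mp t170).resolve_left (pow_ne_zero 1 n1)
      have t172 := (mul_eq_zero.mp t171).resolve_left (pow_ne_zero 1 h4)
      exact absurd t172 (by norm_num)
  · have t173 : (v20) ^ 1 * (s2) = 0 := by linear_combination (2) * e1_3_0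
    have t174 := (mul_eq_zero.mp t173).resolve_left (pow_ne_zero 1 h3)
    have t175 : 0 = s2 := by linear_combination (-1) * t174
    subst t175
    have t176 : (a02) ^ 1 * (s11) = 0 := by linear_combination (1 / 2) * r2
    have t177 := (mul_eq_zero.mp t176).resolve_left (pow_ne_zero 1 n1)
    have t178 : 0 = s11 := by linear_combination (-1) * t177
    subst t178
    have t179 : (v20) ^ 1 * (s21) = 0 := by linear_combination (2) * e1_4_0
    have t180 := (mul_eq_zero.mp t179).resolve_left (pow_ne_zero 1 h3)
    have t181 : 0 = s21 := by linear_combination (-1) * t180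
    subst t181
    have t182 : (v20) ^ 1 * (s22) = 0 := by linear_combination (2) * e1_3_1
    have t183 := (mul_eq_zero.mp t182).resolve_left (pow_ne_zero 1 h3)
    have t184 : 0 = s22 := by linear_combination (-1) * t183
    subst t184
    exfalso
    have t185 : (a02) ^ 1 * ((v20) ^ 1 * (1)) = 0 := by linear_combination (-1 / 2) * e2_1_3
    have t186 := (mul_eq_zero.mp t185).resolve_left (pow_ne_zero 1 n1)
    have t187 := (mul_eq_zero.mp t186).resolve_left (pow_ne_zero 1 h3)
    exact absurd t187 (by norm_num)

end Pool.Agent.H38.FM
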