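import Pool.Agent.H38.FM.Facts
import Pool.Agent.H38.FM.TreeBz3
import Pool.Agent.H38.FM.LeafBz3
import Pool.Agent.H67.FM.T3Types

/-!
# Type `Bz3` is good (generated glue)
-/

set_option linter.unusedVariables false
set_option linter.unusedSimpArgs false
set_option linter.style.longLine false

noncomputable section

namespace Pool.Agent.H38.FM

open FM67

theorem good_TyBz3 {p : Par} (hb : Base p) (ht : TyBz3 p) : Good p := by
  obtain ⟨s, hs⟩ := base_sys hb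
  have h_a00 := hb.2.2.1
  have h_b00 := hb.2.2.2.1
  have h_c00 := hb.2.2.2.2
  have F := facts_of_sys hs h_a00 h_b00 h_c00
  obtain ⟨⟨⟨h_a10, h_a01, h_b10, h_b01, h_c10, h_c01⟩, h_a20, h_a11, _, h_b20, h_b11, h_b02,
    h_c20, h_c11, h_c02⟩, n1, h_u02⟩ := ht
  obtain ⟨x, y, hxy⟩ := hb.1
  have k0 := F.e1_0_2
  simp only [ce1_0_2, h_a10, h_a01, h_b10, h_b01, h_c10, h_c01, h_a20, h_a11, h_b20, h_b11,
      h_b02, h_c20, h_c11, h_c02, h_u02] at k0
  have k1 := F.e1_3_0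
  simp only [ce1_3_0, h_a10, h_a01, h_b10, h_b01, h_c10, h_c01, h_a20, h_a11, h_b20, h_b11,
      h_b02, h_c20, h_c11, h_c02, h_u02] at k1
  have k2 := F.e1_2_1
  simp only [ce1_2_1, h_a10, h_a01, h_b10, h_b01, h_c10, h_c01, h_a20, h_a11, h_b20, h_b11,
      h_b02, h_c20, h_c11, h_c02, h_u02] at k2
  have k3 := F.e1_1_2
  simp only [ce1_1_2, h_a10, h_a01, h_b10, h_b01, h_c10, h_c01, h_a20, h_a11, h_b20, h_b11,
      h_b02, h_c20, h_c11, h_c02, h_u02] at k3
  have k4 := F.e1_0_3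
  simp only [ce1_0_3, h_a10, h_a01, h_b10, h_b01, h_c10, h_c01, h_a20, h_a11, h_b20, h_b11,
      h_b02, h_c20, h_c11, h_c02, h_u02] at k4
  have k5 := F.e1_4_0
  simp only [ce1_4_0, h_a10, h_a01, h_b10, h_b01, h_c10, h_c01, h_a20, h_a11, h_b20, h_b11,
      h_b02, h_c20, h_c11, h_c02, h_u02] at k5
  have k6 := F.e1_3_1
  simp only [ce1_3_1, h_a10, h_a01, h_b10, h_b01, h_c10, h_c01, h_a20, h_a11, h_b20, h_b11,
      h_b02, h_c20, h_c11, h_c02, h_u02] at k6
  have k7 := F.e1_2_2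
  simp only [ce1_2_2, h_a10, h_a01, h_b10, h_b01, h_c10, h_c01, h_a20, h_a11, h_b20, h_b11,
      h_b02, h_c20, h_c11, h_c02, h_u02] at k7
  have k8 := F.e1_1_3
  simp only [ce1_1_3, h_a10, h_a01, h_b10, h_b01, h_c10, h_c01, h_a20, h_a11, h_b20, h_b11,
      h_b02, h_c20, h_c11, h_c02, h_u02] at k8
  have k9 := F.e1_0_4
  simp only [ce1_0_4, h_a10, h_a01, h_b10, h_b01, h_c10, h_c01, h_a20, h_a11, h_b20, h_b11,
      h_b02, h_c20, h_c11, h_c02, h_u02] at k9
  have k10 := F.e1_4_1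
  simp only [ce1_4_1, h_a10, h_a01, h_b10, h_b01, h_c10, h_c01, h_a20, h_a11, h_b20, h_b11,
      h_b02, h_c20, h_c11, h_c02, h_u02] at k10
  have k11 := F.e1_3_2
  simp only [ce1_3_2, h_a10, h_a01, h_b10, h_b01, h_c10, h_c01, h_a20, h_a11, h_b20, h_b11,
      h_b02, h_c20, h_c11, h_c02, h_u02] at k11
  have k12 := F.e1_2_3
  simp only [ce1_2_3, h_a10, h_a01, h_b10, h_b01, h_c10, h_c01, h_a20, h_a11, h_b20, h_b11,
      h_b02, h_c20, h_c11, h_c02, h_u02] at k12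
  have k13 := F.e1_1_4
  simp only [ce1_1_4, h_a10, h_a01, h_b10, h_b01, h_c10, h_c01, h_a20, h_a11, h_b20, h_b11,
      h_b02, h_c20, h_c11, h_c02, h_u02] at k13
  have k14 := F.e2_1_2
  simp only [ce2_1_2, h_a10, h_a01, h_b10, h_b01, h_c10, h_c01, h_a20, h_a11, h_b20, h_b11,
      h_b02, h_c20, h_c11, h_c02, h_u02] at k14
  have k15 := F.e2_0_3
  simp only [ce2_0_3, h_a10, h_a01, h_b10, h_b01, h_c10, h_c01, h_a20, h_a11, h_b20, h_b11,
      h_b02, h_c20, h_c11, h_c02, h_u02] at k15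
  have k16 := F.e2_2_2
  simp only [ce2_2_2, h_a10, h_a01, h_b10, h_b01, h_c10, h_c01, h_a20, h_a11, h_b20, h_b11,
      h_b02, h_c20, h_c11, h_c02, h_u02] at k16
  have k17 := F.e2_1_3
  simp only [ce2_1_3, h_a10, h_a01, h_b10, h_b01, h_c10, h_c01, h_a20, h_a11, h_b20, h_b11,
      h_b02, h_c20, h_c11, h_c02, h_u02] at k17
  have k18 := F.e2_0_4
  simp only [ce2_0_4, h_a10, h_a01, h_b10, h_b01, h_c10, h_c01, h_a20, h_a11, h_b20, h_b11,
      h_b02, h_c20, h_c11, h_c02, h_u02] at k18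
  simp only [Par.D, Par.a, Par.b, Par.c, Par.U, Par.V, Par.Q, h_a00, h_b00, h_c00, h_a10, h_a01,
      h_b10, h_b01, h_c10, h_c01, h_a20, h_a11, h_b20, h_b11, h_b02, h_c20, h_c11, h_c02, h_u02]
      at hxy
  have hT := tree_Bz3 p.a02 p.u20 p.u11 p.v20 p.v11 p.v02 p.q20 p.q11 p.q02 s.s1 s.s2 s.s11 s.s12
      s.s21 s.s22 s.l1 s.l2 (by linear_combination k0) (by linear_combination k1)
      (by linear_combination k2) (by linear_combination k3) (by linear_combination k4)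
      (by linear_combination k5) (by linear_combination k6) (by linear_combination k7)
      (by linear_combination k8) (by linear_combination k9) (by linear_combination k10)
      (by linear_combination k11) (by linear_combination k12) (by linear_combination k13)
      (by linear_combination k14) (by linear_combination k15) (by linear_combination k16)
      (by linear_combination k17) (by linear_combination k18) n1 ⟨x, y, fun h0 => hxy
      (by linear_combination h0)⟩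
  rcases hT with h | h | h
  · obtain ⟨g_u20, g_u11, g_v20, g_v11, g_v02, g_q20, g_q11, m0, m1⟩ := h
    exact leaf_Bz3_0 h_a00 h_b00 h_c00 h_a10 h_a01 h_b10 h_b01 h_c10 h_c01 h_a20 h_a11 h_b20
        h_b11 h_b02 h_c20 h_c11 h_c02 g_u20 g_u11 h_u02 g_v20 g_v11 g_v02 g_q20 g_q11 m0 m1
  · obtain ⟨g_u20, g_v20, g_v11, g_v02, g_q11, grel, m0, m1, m2⟩ := h
    exact leaf_Bz3_1 h_a00 h_b00 h_c00 h_a10 h_a01 h_b10 h_b01 h_c10 h_c01 h_a20 h_a11 h_b20
        h_b11 h_b02 h_c20 h_c11 h_c02 g_u20 h_u02 g_v20 g_v11 g_v02 g_q11 grel m0 m1 m2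
  · obtain ⟨g_u20, g_v20, g_v11, g_q11, grel, m0, m1⟩ := h
    exact leaf_Bz3_2 h_a00 h_b00 h_c00 h_a10 h_a01 h_b10 h_b01 h_c10 h_c01 h_a20 h_a11 h_b20
        h_b11 h_b02 h_c20 h_c11 h_c02 g_u20 h_u02 g_v20 g_v11 g_q11 grel m0 m1

end Pool.Agent.H38.FM
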