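import Mathlib

/-!
# Elimination tree `C1` (generated)
-/

set_option linter.unusedVariables false
set_option linter.style.longLine false

noncomputable section

namespace Pool.Agent.H38.FM

theorem tree_C1
    (a11 b02 u20 u11 v20 v11 q20 q11 q02 s1 s2 s11 s12 s21 s22 l1 l2 : ℂ)
    (e1_0_2 : b02 * s2 = 0)
    (e1_1_2 : a11 * s12 + b02 * s21 + 1 / 2 * u11 * s2 = 0)
    (e1_0_3 : a11 * b02 - 2 * b02 ^ 2 + b02 * s22 = 0)
    (e1_3_1 : -1 / 2 * a11 * v20 - b02 * v20 + u20 * s12 + 1 / 2 * u20 * s21 + u11 * s11
        + 1 / 2 * v20 * s22 + 1 / 2 * v11 * s21 + q20 * s2 + q11 * s1 = 0)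
    (e1_2_2 : -1 / 2 * a11 * u20 + a11 * l1 + 2 * b02 * u20 - 3 / 2 * b02 * v11 - b02 * l1
        + 1 / 2 * u20 * s22 + u11 * s12 + 1 / 2 * u11 * s21 + 1 / 2 * v11 * s22 + q11 * s2
        + q02 * s1 = 0)
    (e1_1_3 : a11 * l2 + 1 / 2 * b02 * u11 - b02 * l2 + 1 / 2 * u11 * s22 + q02 * s2 = 0)
    (e1_4_1 : 1 / 2 * u20 ^ 2 - 1 / 4 * u20 * v11 + 1 / 2 * u20 * l1 - 1 / 4 * u11 * v20
        - 1 / 2 * v20 * l2 - 1 / 4 * v11 ^ 2 - 1 / 2 * v11 * l1 + q20 * s12 + q20 * s21 + q11
        * s11 = 0)
    (e1_3_2 : -2 * a11 * q20 + 2 * b02 * q20 + 3 / 4 * u20 * u11 + 1 / 2 * u20 * l2 + 1 / 2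
        * u11 * l1 - 1 / 2 * v11 * l2 + q20 * s22 + q11 * s12 + q11 * s21 + q02 * s11 = 0)
    (e1_2_3 : -a11 * q11 + 1 / 4 * u11 ^ 2 + 1 / 2 * u11 * l2 + q11 * s22 + q02 * s12 + q02
        * s21 = 0)
    (e1_1_4 : -2 * b02 * q02 + q02 * s22 = 0)
    (e2_0_2 : b02 * s1 = 0)
    (e2_1_2 : b02 * s11 + 1 / 2 * u11 * s1 + v11 * s2 = 0)
    (e2_0_3 : b02 * s12 = 0)
    (e2_2_2 : -2 * a11 * v20 + 2 * b02 * v20 + 1 / 2 * u20 * s12 + 1 / 2 * u11 * s11 + v20
        * s22 + 1 / 2 * v11 * s12 + v11 * s21 + q20 * s2 + q11 * s1 = 0)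
    (e2_1_3 : -a11 * v11 + b02 * u20 + 1 / 2 * b02 * v11 + b02 * l1 + 1 / 2 * u11 * s12 + v11
        * s22 + q11 * s2 + q02 * s1 = 0)
    (e2_0_4 : 1 / 2 * b02 * u11 + b02 * l2 + q02 * s2 = 0)
    (f_1_4 : a11 * b02 * v11 - 2 * a11 * v11 * s22 - 2 * a11 * q11 * s2 + 5 * a11 * q02 * s1
        - 2 * b02 ^ 2 * u20 + b02 ^ 2 * v11 + 2 * b02 ^ 2 * l1 + 2 * b02 * u20 * s22 - 2 * b02
        * u11 * s12 - b02 * u11 * s21 + 2 * b02 * v11 * s22 + 4 * b02 * q11 * s2 - 10 * b02
        * q02 * s1 + 1 / 2 * u11 ^ 2 * s2 = 0)
    (f_0_5 : -a11 * q02 * s2 - b02 ^ 2 * u11 + 2 * b02 ^ 2 * l2 + b02 * u11 * s22 + 2 * b02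
        * q02 * s2 = 0)
    (n1 : b02 ≠ 0)
    (hD : ∃ x y : ℂ, (x ^ 4 * q20 + x ^ 3 * y * q11 + x ^ 2 * y ^ 2 * q02 + x ^ 3 * u20 + x ^ 2
        * y * u11 + x * y * a11) * (x ^ 2 * y ^ 2 * q20 + x * y ^ 3 * q11 + y ^ 4 * q02 + x ^ 2
        * y * v20 + x * y ^ 2 * v11) - (x ^ 3 * y * q20 + x ^ 2 * y ^ 2 * q11 + x * y ^ 3 * q02
        + 1 / 2 * x ^ 3 * v20 + 1 / 2 * x ^ 2 * y * u20 + 1 / 2 * x ^ 2 * y * v11 + 1 / 2 * x
        * y ^ 2 * u11 + y ^ 2 * b02) ^ 2 ≠ 0) :
    ((a11 = 0) ∧ (u20 = 0) ∧ (u11 = 0) ∧ (v20 = 0) ∧ (v11 = 0) ∧ (q20 = 0) ∧ (q11 = 0) ∧ (b02 ≠ 0)) ∨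
    ((b02 = 1 / 2
        * a11) ∧ (u20 = 0) ∧ (u11 = 0) ∧ (v20 = 0) ∧ (v11 = 0) ∧ (q20 = 0) ∧ (q11 = 0) ∧ (q02 = 0) ∧ (a11 ≠ 0)) ∨
    ((u20 = 0) ∧ (u11 = 0) ∧ (v20 = 0) ∧ (v11 = 0) ∧ (q20 = 0) ∧ (q11 = 0) ∧ (q02 = 0) ∧ (b02 ≠ 0) ∧ (a11 ≠ 0) ∧ (a11 - 2 * b02 ≠ 0)) ∨
    ((b02 = a11) ∧ (u20 = 1 / 2
        * v11) ∧ (u11 = 0) ∧ (v20 = 0) ∧ (q20 = 0) ∧ (q11 = 0) ∧ (q02 = 0) ∧ (a11 ≠ 0) ∧ (v11 ≠ 0)) ∨
    ((b02 = 2 / 3
        * a11) ∧ (u20 = v11) ∧ (u11 = 0) ∧ (v20 = 0) ∧ (q20 = 0) ∧ (q11 = 0) ∧ (q02 = 0) ∧ (a11 ≠ 0) ∧ (v11 ≠ 0)) ∨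
    ((b02 = a11) ∧ (u20 = 1 / 2
        * v11) ∧ (u11 = 0) ∧ (v20 = 0) ∧ (q20 = 0) ∧ (q02 = 0) ∧ (a11 ≠ 0) ∧ (q11 ≠ 0)) ∨
    ((b02 = 3 / 4
        * a11) ∧ (u20 = 0) ∧ (u11 = 0) ∧ (v20 = 0) ∧ (v11 = 0) ∧ (q11 = 0) ∧ (q02 = 0) ∧ (a11 ≠ 0) ∧ (q20 ≠ 0)) := by
  have t1 : (b02) ^ 1 * (s2) = 0 := by linear_combination e1_0_2
  have t2 := (mul_eq_zero.mp t1).resolve_left (pow_ne_zero 1 n1)
  have t3 : 0 = s2 := by linear_combination (-1) * t2
  subst t3
  have t4 : (b02) ^ 1 * (s1) = 0 := by linear_combination e2_0_2
  have t5 := (mul_eq_zero.mp t4).resolve_left (pow_ne_zero 1 n1)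
  have t6 : 0 = s1 := by linear_combination (-1) * t5
  subst t6
  have t7 : (b02) ^ 1 * (s12) = 0 := by linear_combination e2_0_3
  have t8 := (mul_eq_zero.mp t7).resolve_left (pow_ne_zero 1 n1)
  have t9 : 0 = s12 := by linear_combination (-1) * t8
  subst t9
  have t10 : (b02) ^ 1 * (s21) = 0 := by linear_combination e1_1_2
  have t11 := (mul_eq_zero.mp t10).resolve_left (pow_ne_zero 1 n1)
  have t12 : 0 = s21 := by linear_combination (-1) * t11
  subst t12
  have t13 : (b02) ^ 1 * (s11) = 0 := by linear_combination e2_1_2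
  have t14 := (mul_eq_zero.mp t13).resolve_left (pow_ne_zero 1 n1)
  have t15 : 0 = s11 := by linear_combination (-1) * t14
  subst t15
  have t16 : (b02) ^ 1 * (a11 - 2 * b02 + s22) = 0 := by linear_combination e1_0_3
  have t17 := (mul_eq_zero.mp t16).resolve_left (pow_ne_zero 1 n1)
  have t18 : -a11 + 2 * b02 = s22 := by linear_combination (-1) * t17
  subst t18
  have t19 : (b02) ^ 1 * (u11 + 2 * l2) = 0 := by linear_combination (2) * e2_0_4
  have t20 := (mul_eq_zero.mp t19).resolve_left (pow_ne_zero 1 n1)
  have t21 : -1 / 2 * u11 = l2 := by linear_combination (-1 / 2) * t20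
  subst t21
  have r2 : 4 * a11 * v11 - 2 * b02 * u20 - 5 * b02 * v11 - 2 * b02
      * l1 = 0 := by linear_combination (-2) * e2_1_3
  by_cases h3 : a11 = 0
  · have t22 : 0 = a11 := by linear_combination (-1) * h3
    subst t22
    have t23 : (b02) ^ 1 * (-2 * u20 - 5 * v11 - 2 * l1) = 0 := by linear_combination r2
    have t24 := (mul_eq_zero.mp t23).resolve_left (pow_ne_zero 1 n1)
    have r4 : -2 * u20 - 5 * v11 - 2 * l1 = 0 := by linear_combination t24
    have t25 : -u20 - 5 / 2 * v11 = l1 := by linear_combination (1 / 2) * r4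
    subst t25
    have t26 : (b02) ^ 1 * (v20) = 0 := by linear_combination (1 / 4) * e2_2_2
    have t27 := (mul_eq_zero.mp t26).resolve_left (pow_ne_zero 1 n1)
    have t28 : 0 = v20 := by linear_combination (-1) * t27
    subst t28
    have t29 : (b02) ^ 1 * (u11) = 0 := by linear_combination (1 / 2) * e1_1_3
    have t30 := (mul_eq_zero.mp t29).resolve_left (pow_ne_zero 1 n1)
    have t31 : 0 = u11 := by linear_combination (-1) * t30
    subst t31
    have t32 : (b02) ^ 1 * (2 * u20 + v11) = 0 := by linear_combination (1 / 2) * e1_2_2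
    have t33 := (mul_eq_zero.mp t32).resolve_left (pow_ne_zero 1 n1)
    have t34 : -2 * u20 = v11 := by linear_combination (-1) * t33
    subst t34
    have t35 : (b02) ^ 1 * (q11) = 0 := by linear_combination (1 / 2) * e1_2_3
    have t36 := (mul_eq_zero.mp t35).resolve_left (pow_ne_zero 1 n1)
    have t37 : 0 = q11 := by linear_combination (-1) * t36
    subst t37
    have t38 : (b02) ^ 1 * (q20) = 0 := by linear_combination (1 / 4) * e1_3_2
    have t39 := (mul_eq_zero.mp t38).resolve_left (pow_ne_zero 1 n1)
    have t40 : 0 = q20 := by linear_combination (-1) * t39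
    subst t40
    by_cases h5 : u20 = 0
    · have t41 : 0 = u20 := by linear_combination (-1) * h5
      subst t41
      exact Or.inl ⟨by ring, by ring, by ring, by ring, by ring, by ring, by ring, n1⟩
    · exfalso
      have t42 : (u20) ^ 2 * (1) = 0 := by linear_combination (1 / 6) * e1_4_1
      have t43 := (mul_eq_zero.mp t42).resolve_left (pow_ne_zero 2 h5)
      exact absurd t43 (by norm_num)
  · have t44 : (a11) ^ 1 * (v20) = 0 := by linear_combination (-1) * e1_3_1
    have t45 := (mul_eq_zero.mp t44).resolve_left (pow_ne_zero 1 h3)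
    have t46 : 0 = v20 := by linear_combination (-1) * t45
    subst t46
    by_cases h6 : u11 = 0
    · have t47 : 0 = u11 := by linear_combination (-1) * h6
      subst t47
      by_cases h7 : a11 - 2 * b02 = 0
      · have t48 : 1 / 2 * a11 = b02 := by linear_combination (1 / 2) * h7
        subst t48
        have t49 : (a11) ^ 1 * (-u20 + 3 / 2 * v11 - l1) = 0 := by linear_combination r2
        have t50 := (mul_eq_zero.mp t49).resolve_left (pow_ne_zero 1 h3)
        have r8 : -u20 + 3 / 2 * v11 - l1 = 0 := by linear_combination t50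
        have t51 : -u20 + 3 / 2 * v11 = l1 := by linear_combination r8
        subst t51
        have t52 : (a11) ^ 1 * (q02) = 0 := by linear_combination (-1) * e1_1_4
        have t53 := (mul_eq_zero.mp t52).resolve_left (pow_ne_zero 1 h3)
        have t54 : 0 = q02 := by linear_combination (-1) * t53
        subst t54
        have t55 : (a11) ^ 1 * (q11) = 0 := by linear_combination (-1) * e1_2_3
        have t56 := (mul_eq_zero.mp t55).resolve_left (pow_ne_zero 1 h3)
        have t57 : 0 = q11 := by linear_combination (-1) * t56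
        subst t57
        have t58 : (a11) ^ 1 * (q20) = 0 := by linear_combination (-1) * e1_3_2
        have t59 := (mul_eq_zero.mp t58).resolve_left (pow_ne_zero 1 h3)
        have t60 : 0 = q20 := by linear_combination (-1) * t59
        subst t60
        by_cases h9 : v11 = 0
        · have t61 : 0 = v11 := by linear_combination (-1) * h9
          subst t61
          have t62 : (a11) ^ 2 * (u20) = 0 := by linear_combination (-1) * f_1_4
          have t63 := (mul_eq_zero.mp t62).resolve_left (pow_ne_zero 2 h3)
          have t64 : 0 = u20 := by linear_combination (-1) * t63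
          subst t64
          exact Or.inr (Or.inl ⟨by ring, by ring, by ring, by ring, by ring, by ring, by ring, by ring, h3⟩)
        · have t65 : (v11) ^ 1 * (u20 - v11) = 0 := by linear_combination e1_4_1
          have t66 := (mul_eq_zero.mp t65).resolve_left (pow_ne_zero 1 h9)
          have t67 : v11 = u20 := by linear_combination (-1) * t66
          subst t67
          exfalso
          have t68 : (a11) ^ 2 * ((v11) ^ 1 * (1)) = 0 := by linear_combination (2) * f_1_4
          have t69 := (mul_eq_zero.mp t68).resolve_left (pow_ne_zero 2 h3)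
          have t70 := (mul_eq_zero.mp t69).resolve_left (pow_ne_zero 1 h9)
          exact absurd t70 (by norm_num)
      · have t71 : (a11 - 2 * b02) ^ 1 * (2 * a11 * v11 - 2 * b02 * u20 - b02
            * v11) = 0 := by linear_combination (b02) * e1_2_2 + (1 / 2 * a11 - 1 / 2 * b02) * r2
        have t72 := (mul_eq_zero.mp t71).resolve_left (pow_ne_zero 1 h7)
        have r10 : 2 * a11 * v11 - 2 * b02 * u20 - b02 * v11 = 0 := by linear_combination t72
        have r11 : -4 * a11 * b02 * v11 + 8 * b02 ^ 2 * v11 + 4 * b02 ^ 2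
            * l1 = 0 := by linear_combination (-2 * b02) * r2 + (2 * b02) * r10
        have t73 : (b02) ^ 1 * (-4 * a11 * v11 + 8 * b02 * v11 + 4 * b02
            * l1) = 0 := by linear_combination r11
        have t74 := (mul_eq_zero.mp t73).resolve_left (pow_ne_zero 1 n1)
        have r12 : -4 * a11 * v11 + 8 * b02 * v11 + 4 * b02 * l1 = 0 := by linear_combination t74
        have t75 : (a11) ^ 1 * (q02) = 0 := by linear_combination (-1) * e1_1_4
        have t76 := (mul_eq_zero.mp t75).resolve_left (pow_ne_zero 1 h3)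
        have t77 : 0 = q02 := by linear_combination (-1) * t76
        subst t77
        by_cases h13 : q20 = 0
        · have t78 : 0 = q20 := by linear_combination (-1) * h13
          subst t78
          by_cases h14 : q11 = 0
          · have t79 : 0 = q11 := by linear_combination (-1) * h14
            subst t79
            by_cases h15 : v11 = 0
            · have t80 : 0 = v11 := by linear_combination (-1) * h15
              subst t80
              have t81 : (b02) ^ 1 * (l1) = 0 := by linear_combination (1 / 4) * r12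
              have t82 := (mul_eq_zero.mp t81).resolve_left (pow_ne_zero 1 n1)
              have t83 : 0 = l1 := by linear_combination (-1) * t82
              subst t83
              have t84 : (b02) ^ 1 * (u20) = 0 := by linear_combination (-1 / 2) * r10
              have t85 := (mul_eq_zero.mp t84).resolve_left (pow_ne_zero 1 n1)
              have t86 : 0 = u20 := by linear_combination (-1) * t85
              subst t86
              exact Or.inr (Or.inr (Or.inl ⟨by ring, by ring, by ring, by ring, by ring, by ring, by ring, n1, h3, h7⟩))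
            · by_cases h16 : a11 - b02 = 0
              · have t87 : a11 = b02 := by linear_combination h16
                subst t87
                have t88 : (a11) ^ 1 * (4 * v11 + 4 * l1) = 0 := by linear_combination r12
                have t89 := (mul_eq_zero.mp t88).resolve_left (pow_ne_zero 1 h3)
                have r17 : 4 * v11 + 4 * l1 = 0 := by linear_combination t89
                have t90 : -v11 = l1 := by linear_combination (-1 / 4) * r17
                subst t90
                have t91 : (a11) ^ 1 * (-2 * u20 + v11) = 0 := by linear_combination r10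
                have t92 := (mul_eq_zero.mp t91).resolve_left (pow_ne_zero 1 h3)
                have r18 : -2 * u20 + v11 = 0 := by linear_combination t92
                have t93 : 1 / 2 * v11 = u20 := by linear_combination (1 / 2) * r18
                subst t93
                exact Or.inr (Or.inr (Or.inr (Or.inl ⟨by ring, by ring, by ring, by ring, by ring, by ring, by ring, h3, h15⟩)))
              · have t94 : (b02) ^ 1 * ((v11) ^ 2 * ((a11 - b02) ^ 1 * (2 * a11 - 3
                    * b02))) = 0 := by linear_combination (2 * b02 ^ 3) * e1_4_1 + (-1 / 4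
                    * b02 ^ 2 * u20 + 1 / 4 * b02 ^ 2 * v11) * r12 + (a11 * b02 * v11 + 1 / 2
                    * b02 ^ 2 * u20 - 3 / 2 * b02 ^ 2 * v11) * r10
                have t95 := (mul_eq_zero.mp t94).resolve_left (pow_ne_zero 1 n1)
                have t96 := (mul_eq_zero.mp t95).resolve_left (pow_ne_zero 2 h15)
                have t97 := (mul_eq_zero.mp t96).resolve_left (pow_ne_zero 1 h16)
                have t98 : 2 / 3 * a11 = b02 := by linear_combination (1 / 3) * t97
                subst t98
                have t99 : (a11) ^ 1 * (4 / 3 * v11 + 8 / 3 * l1) = 0 := by linear_combination r12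
                have t100 := (mul_eq_zero.mp t99).resolve_left (pow_ne_zero 1 h3)
                have r19 : 4 / 3 * v11 + 8 / 3 * l1 = 0 := by linear_combination t100
                have t101 : -1 / 2 * v11 = l1 := by linear_combination (-3 / 8) * r19
                subst t101
                have t102 : (a11) ^ 1 * (-4 / 3 * u20 + 4 / 3
                    * v11) = 0 := by linear_combination r10
                have t103 := (mul_eq_zero.mp t102).resolve_left (pow_ne_zero 1 h3)
                have r20 : -4 / 3 * u20 + 4 / 3 * v11 = 0 := by linear_combination t103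
                have t104 : v11 = u20 := by linear_combination (3 / 4) * r20
                subst t104
                exact Or.inr (Or.inr (Or.inr (Or.inr (Or.inl ⟨by ring, by ring, by ring, by ring, by ring, by ring, by ring, h3, h15⟩))))
          · have t105 : (q11) ^ 1 * (a11 - b02) = 0 := by linear_combination (-1 / 2) * e1_2_3
            have t106 := (mul_eq_zero.mp t105).resolve_left (pow_ne_zero 1 h14)
            have t107 : a11 = b02 := by linear_combination (1) * t106
            subst t107
            have t108 : (a11) ^ 1 * (4 * v11 + 4 * l1) = 0 := by linear_combination r12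
            have t109 := (mul_eq_zero.mp t108).resolve_left (pow_ne_zero 1 h3)
            have r21 : 4 * v11 + 4 * l1 = 0 := by linear_combination t109
            have t110 : -v11 = l1 := by linear_combination (-1 / 4) * r21
            subst t110
            have t111 : (a11) ^ 1 * (-2 * u20 + v11) = 0 := by linear_combination r10
            have t112 := (mul_eq_zero.mp t111).resolve_left (pow_ne_zero 1 h3)
            have r22 : -2 * u20 + v11 = 0 := by linear_combination t112
            have t113 : 1 / 2 * v11 = u20 := by linear_combination (1 / 2) * r22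
            subst t113
            exact Or.inr (Or.inr (Or.inr (Or.inr (Or.inr (Or.inl ⟨by ring, by ring, by ring, by ring, by ring, by ring, h3, h14⟩)))))
        · have t114 : (q20) ^ 1 * (3 * a11 - 4 * b02) = 0 := by linear_combination (-1) * e1_3_2
          have t115 := (mul_eq_zero.mp t114).resolve_left (pow_ne_zero 1 h13)
          have t116 : 3 / 4 * a11 = b02 := by linear_combination (1 / 4) * t115
          subst t116
          have t117 : (a11) ^ 1 * (2 * v11 + 3 * l1) = 0 := by linear_combination r12
          have t118 := (mul_eq_zero.mp t117).resolve_left (pow_ne_zero 1 h3)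
          have r23 : 2 * v11 + 3 * l1 = 0 := by linear_combination t118
          have t119 : -2 / 3 * v11 = l1 := by linear_combination (-1 / 3) * r23
          subst t119
          have t120 : (a11) ^ 1 * (-3 / 2 * u20 + 5 / 4 * v11) = 0 := by linear_combination r10
          have t121 := (mul_eq_zero.mp t120).resolve_left (pow_ne_zero 1 h3)
          have r24 : -3 / 2 * u20 + 5 / 4 * v11 = 0 := by linear_combination t121
          have t122 : 5 / 6 * v11 = u20 := by linear_combination (2 / 3) * r24
          subst t122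
          have t123 : (a11) ^ 1 * (q11) = 0 := by linear_combination (-2) * e1_2_3
          have t124 := (mul_eq_zero.mp t123).resolve_left (pow_ne_zero 1 h3)
          have t125 : 0 = q11 := by linear_combination (-1) * t124
          subst t125
          by_cases h25 : v11 = 0
          · have t126 : 0 = v11 := by linear_combination (-1) * h25
            subst t126
            exact Or.inr (Or.inr (Or.inr (Or.inr (Or.inr (Or.inr (⟨by ring, by ring, by ring, by ring, by ring, by ring, by ring, h3, h13⟩))))))
          · exfalso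
            have t127 : (v11) ^ 2 * (1) = 0 := by linear_combination (-18) * e1_4_1
            have t128 := (mul_eq_zero.mp t127).resolve_left (pow_ne_zero 2 h25)
            exact absurd t128 (by norm_num)
    · have t129 : (u11) ^ 1 * (a11 - 2 * b02) = 0 := by linear_combination (-1) * e1_1_3
      have t130 := (mul_eq_zero.mp t129).resolve_left (pow_ne_zero 1 h6)
      have t131 : 1 / 2 * a11 = b02 := by linear_combination (1 / 2) * t130
      subst t131
      have t132 : (a11) ^ 1 * (-u20 + 3 / 2 * v11 - l1) = 0 := by linear_combination r2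
      have t133 := (mul_eq_zero.mp t132).resolve_left (pow_ne_zero 1 h3)
      have r26 : -u20 + 3 / 2 * v11 - l1 = 0 := by linear_combination t133
      have t134 : -u20 + 3 / 2 * v11 = l1 := by linear_combination r26
      subst t134
      have t135 : (a11) ^ 1 * (q02) = 0 := by linear_combination (-1) * e1_1_4
      have t136 := (mul_eq_zero.mp t135).resolve_left (pow_ne_zero 1 h3)
      have t137 : 0 = q02 := by linear_combination (-1) * t136
      subst t137
      have t138 : (a11) ^ 1 * (q11) = 0 := by linear_combination (-1) * e1_2_3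
      have t139 := (mul_eq_zero.mp t138).resolve_left (pow_ne_zero 1 h3)
      have t140 : 0 = q11 := by linear_combination (-1) * t139
      subst t140
      have r27 : a11 * q20 - u11 * v11 = 0 := by linear_combination (-1) * e1_3_2
      by_cases h28 : v11 = 0
      · have t141 : 0 = v11 := by linear_combination (-1) * h28
        subst t141
        have t142 : (a11) ^ 1 * (q20) = 0 := by linear_combination r27
        have t143 := (mul_eq_zero.mp t142).resolve_left (pow_ne_zero 1 h3)
        have t144 : 0 = q20 := by linear_combination (-1) * t143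
        subst t144
        exfalso
        have t145 : (a11) ^ 2 * ((u11) ^ 1 * (1)) = 0 := by linear_combination (-2) * f_0_5
        have t146 := (mul_eq_zero.mp t145).resolve_left (pow_ne_zero 2 h3)
        have t147 := (mul_eq_zero.mp t146).resolve_left (pow_ne_zero 1 h6)
        exact absurd t147 (by norm_num)
      · have t148 : (v11) ^ 1 * (u20 - v11) = 0 := by linear_combination e1_4_1
        have t149 := (mul_eq_zero.mp t148).resolve_left (pow_ne_zero 1 h28)
        have t150 : v11 = u20 := by linear_combination (-1) * t149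
        subst t150
        exfalso
        have t151 : (a11) ^ 2 * ((v11) ^ 1 * (1)) = 0 := by linear_combination (2) * f_1_4
        have t152 := (mul_eq_zero.mp t151).resolve_left (pow_ne_zero 2 h3)
        have t153 := (mul_eq_zero.mp t152).resolve_left (pow_ne_zero 1 h28)
        exact absurd t153 (by norm_num)

end Pool.Agent.H38.FM
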