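import Mathlib

/-!
# Elimination tree `C2` (generated)
-/

set_option linter.unusedVariables false
set_option linter.style.longLine false

noncomputable section

namespace Pool.Agent.H38.FM

theorem tree_C2
    (a02 b02 u20 u11 v20 v11 q20 q11 q02 s1 s2 s11 s12 s21 s22 l1 l2 : ℂ)
    (e1_1_1 : 2 * b02 * s1 = 0)
    (e1_0_2 : a02 * s1 + b02 * s2 = 0)
    (e1_2_1 : 2 * b02 * s11 + 1 / 2 * u20 * s2 + u11 * s1 + 1 / 2 * v11 * s2 = 0)
    (e1_1_2 : a02 * s11 + 2 * b02 * s12 + b02 * s21 + 1 / 2 * u11 * s2 = 0)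
    (e1_0_3 : a02 * s12 + b02 * s22 = 0)
    (e1_3_1 : -2 * b02 * v20 + u20 * s12 + 1 / 2 * u20 * s21 + u11 * s11 + 1 / 2 * v20 * s22
        + 1 / 2 * v11 * s21 + q20 * s2 + q11 * s1 = 0)
    (e1_2_2 : b02 * u20 - 3 / 2 * b02 * v11 + b02 * l1 + 1 / 2 * u20 * s22 + u11 * s12 + 1 / 2
        * u11 * s21 + 1 / 2 * v11 * s22 + q11 * s2 + q02 * s1 = 0)
    (e1_1_3 : -a02 * u20 + 1 / 2 * a02 * v11 + a02 * l1 + 1 / 2 * b02 * u11 + b02 * l2 + 1 / 2
        * u11 * s22 + q02 * s2 = 0)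
    (e1_0_4 : -1 / 2 * a02 * u11 + a02 * l2 = 0)
    (e1_4_1 : 1 / 2 * u20 ^ 2 - 1 / 4 * u20 * v11 + 1 / 2 * u20 * l1 - 1 / 4 * u11 * v20
        - 1 / 2 * v20 * l2 - 1 / 4 * v11 ^ 2 - 1 / 2 * v11 * l1 + q20 * s12 + q20 * s21 + q11
        * s11 = 0)
    (e1_3_2 : -2 * b02 * q20 + 3 / 4 * u20 * u11 + 1 / 2 * u20 * l2 + 1 / 2 * u11 * l1 - 1 / 2
        * v11 * l2 + q20 * s22 + q11 * s12 + q11 * s21 + q02 * s11 = 0)
    (e1_2_3 : -2 * a02 * q20 - 2 * b02 * q11 + 1 / 4 * u11 ^ 2 + 1 / 2 * u11 * l2 + q11 * s22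
        + q02 * s12 + q02 * s21 = 0)
    (e1_1_4 : -a02 * q11 - 2 * b02 * q02 + q02 * s22 = 0)
    (e2_0_3 : b02 * s12 = 0)
    (e2_0_4 : -a02 * v11 + 1 / 2 * b02 * u11 + b02 * l2 + q02 * s2 = 0)
    (n1 : b02 ≠ 0)
    (n2 : a02 ≠ 0)
    (hD : ∃ x y : ℂ, (x ^ 4 * q20 + x ^ 3 * y * q11 + x ^ 2 * y ^ 2 * q02 + x ^ 3 * u20 + x ^ 2
        * y * u11 + 2 * x * y * b02 + y ^ 2 * a02) * (x ^ 2 * y ^ 2 * q20 + x * y ^ 3 * q11
        + y ^ 4 * q02 + x ^ 2 * y * v20 + x * y ^ 2 * v11) - (x ^ 3 * y * q20 + x ^ 2 * y ^ 2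
        * q11 + x * y ^ 3 * q02 + 1 / 2 * x ^ 3 * v20 + 1 / 2 * x ^ 2 * y * u20 + 1 / 2 * x ^ 2
        * y * v11 + 1 / 2 * x * y ^ 2 * u11 + y ^ 2 * b02) ^ 2 ≠ 0) :
    ((u20 = 0) ∧ (u11 = 0) ∧ (v20 = 0) ∧ (v11 = 0) ∧ (q20 = 0) ∧ (q11 = 0) ∧ (q02 = 0) ∧ (b02 ≠ 0) ∧ (a02 ≠ 0)) := by
  have t1 : (b02) ^ 1 * (s1) = 0 := by linear_combination (1 / 2) * e1_1_1
  have t2 := (mul_eq_zero.mp t1).resolve_left (pow_ne_zero 1 n1)
  have t3 : 0 = s1 := by linear_combination (-1) * t2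
  subst t3
  have t4 : (b02) ^ 1 * (s2) = 0 := by linear_combination e1_0_2
  have t5 := (mul_eq_zero.mp t4).resolve_left (pow_ne_zero 1 n1)
  have t6 : 0 = s2 := by linear_combination (-1) * t5
  subst t6
  have t7 : (b02) ^ 1 * (s12) = 0 := by linear_combination e2_0_3
  have t8 := (mul_eq_zero.mp t7).resolve_left (pow_ne_zero 1 n1)
  have t9 : 0 = s12 := by linear_combination (-1) * t8
  subst t9
  have t10 : (b02) ^ 1 * (s22) = 0 := by linear_combination e1_0_3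
  have t11 := (mul_eq_zero.mp t10).resolve_left (pow_ne_zero 1 n1)
  have t12 : 0 = s22 := by linear_combination (-1) * t11
  subst t12
  have t13 : (b02) ^ 1 * (s11) = 0 := by linear_combination (1 / 2) * e1_2_1
  have t14 := (mul_eq_zero.mp t13).resolve_left (pow_ne_zero 1 n1)
  have t15 : 0 = s11 := by linear_combination (-1) * t14
  subst t15
  have t16 : (b02) ^ 1 * (s21) = 0 := by linear_combination e1_1_2
  have t17 := (mul_eq_zero.mp t16).resolve_left (pow_ne_zero 1 n1)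
  have t18 : 0 = s21 := by linear_combination (-1) * t17
  subst t18
  have t19 : (b02) ^ 1 * (v20) = 0 := by linear_combination (-1 / 2) * e1_3_1
  have t20 := (mul_eq_zero.mp t19).resolve_left (pow_ne_zero 1 n1)
  have t21 : 0 = v20 := by linear_combination (-1) * t20
  subst t21
  have t22 : (a02) ^ 1 * (u11 - 2 * l2) = 0 := by linear_combination (-2) * e1_0_4
  have t23 := (mul_eq_zero.mp t22).resolve_left (pow_ne_zero 1 n2)
  have t24 : 1 / 2 * u11 = l2 := by linear_combination (1 / 2) * t23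
  subst t24
  have t25 : (b02) ^ 1 * (2 * u20 - 3 * v11 + 2 * l1) = 0 := by linear_combination (2) * e1_2_2
  have t26 := (mul_eq_zero.mp t25).resolve_left (pow_ne_zero 1 n1)
  have t27 : -u20 + 3 / 2 * v11 = l1 := by linear_combination (-1 / 2) * t26
  subst t27
  have r3 : a02 * v11 - b02 * u11 = 0 := by linear_combination (-1) * e2_0_4
  have t28 : (a02) ^ 1 * (2 * a02 * u20 - 3 * b02 * u11) = 0 := by linear_combination (-a02)
      * e1_1_3 + (2 * a02) * r3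
  have t29 := (mul_eq_zero.mp t28).resolve_left (pow_ne_zero 1 n2)
  have r4 : 2 * a02 * u20 - 3 * b02 * u11 = 0 := by linear_combination t29
  have r5 : 2 * a02 * b02 * u20 - 3 * a02 * b02 * v11 = 0 := by linear_combination (-3 * b02)
      * r3 + (b02) * r4
  have t30 : (b02) ^ 1 * ((a02) ^ 1 * (2 * u20 - 3 * v11)) = 0 := by linear_combination r5
  have t31 := (mul_eq_zero.mp t30).resolve_left (pow_ne_zero 1 n1)
  have t32 := (mul_eq_zero.mp t31).resolve_left (pow_ne_zero 1 n2)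
  have r6 : 2 * u20 - 3 * v11 = 0 := by linear_combination t32
  have t33 : 2 / 3 * u20 = v11 := by linear_combination (1 / 3) * r6
  subst t33
  have r7 : a02 * q11 + 2 * b02 * q02 = 0 := by linear_combination (-1) * e1_1_4
  have r8 : 5 * a02 * u20 ^ 2 - 18 * b02 ^ 2 * q20 = 0 := by linear_combination (9 * b02)
      * e1_3_2 + (5 / 2 * u20) * r4
  have t34 : (b02) ^ 2 * (a02 ^ 2 * u20 ^ 2 + 6 * b02 ^ 3
      * q11) = 0 := by linear_combination (-3 * b02 ^ 4) * e1_2_3 + (-1 / 3 * a02 * b02 ^ 2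
      * u20 - 1 / 2 * b02 ^ 3 * u11) * r4 + (1 / 3 * a02 * b02 ^ 2) * r8
  have t35 := (mul_eq_zero.mp t34).resolve_left (pow_ne_zero 2 n1)
  have r9 : a02 ^ 2 * u20 ^ 2 + 6 * b02 ^ 3 * q11 = 0 := by linear_combination t35
  have r10 : -a02 ^ 3 * u20 ^ 2 + 12 * b02 ^ 4 * q02 = 0 := by linear_combination (6 * b02 ^ 3)
      * r7 + (-a02) * r9
  by_cases h11 : u20 = 0
  · have t36 : 0 = u20 := by linear_combination (-1) * h11
    subst t36
    have t37 : (b02) ^ 1 * (u11) = 0 := by linear_combination (-1 / 3) * r4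
    have t38 := (mul_eq_zero.mp t37).resolve_left (pow_ne_zero 1 n1)
    have t39 : 0 = u11 := by linear_combination (-1) * t38
    subst t39
    have t40 : (b02) ^ 4 * (q02) = 0 := by linear_combination (1 / 12) * r10
    have t41 := (mul_eq_zero.mp t40).resolve_left (pow_ne_zero 4 n1)
    have t42 : 0 = q02 := by linear_combination (-1) * t41
    subst t42
    have t43 : (b02) ^ 2 * (q20) = 0 := by linear_combination (-1 / 18) * r8
    have t44 := (mul_eq_zero.mp t43).resolve_left (pow_ne_zero 2 n1)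
    have t45 : 0 = q20 := by linear_combination (-1) * t44
    subst t45
    have t46 : (b02) ^ 3 * (q11) = 0 := by linear_combination (1 / 6) * r9
    have t47 := (mul_eq_zero.mp t46).resolve_left (pow_ne_zero 3 n1)
    have t48 : 0 = q11 := by linear_combination (-1) * t47
    subst t48
    exact ⟨by ring, by ring, by ring, by ring, by ring, by ring, by ring, n1, n2⟩
  · exfalso
    have t49 : (u20) ^ 2 * (1) = 0 := by linear_combination (9 / 2) * e1_4_1
    have t50 := (mul_eq_zero.mp t49).resolve_left (pow_ne_zero 2 h11)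
    exact absurd t50 (by norm_num)

end Pool.Agent.H38.FM
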