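import Mathlib

/-!
# Elimination tree `L` (generated)
-/

set_option linter.unusedVariables false
set_option linter.style.longLine false

noncomputable section

namespace Pool.Agent.H38.FM

theorem tree_L
    (a11 a02 b20 b11 c20 c11 c02 u20 u11 u02 v20 v11 v02 q20 q11 q02 s1 s2 s11 s12 s21 s22 l1 l2 mu : ℂ)
    (e1_1_0 : s1 = 0)
    (e1_0_1 : s2 * mu - mu ^ 2 + mu = 0)
    (e1_2_0 : b20 * s2 - b20 * mu - b20 + s11 = 0)
    (e1_1_1 : a11 * s1 + b11 * s2 - 2 * b11 * mu + s21 * mu + s12 = 0)
    (e1_0_2 : a11 * mu + a02 * s1 + s22 * mu = 0)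
    (e1_3_0 : a11 * c20 - b20 * b11 + b20 * s21 + u20 * s1 + 1 / 2 * v20 * s2 - 1 / 2 * v20
        * mu - 3 / 2 * v20 = 0)
    (e1_2_1 : -a11 * b20 + a11 * c11 + a11 * s11 + 2 * a02 * c20 + b20 * s22 - b11 ^ 2 + b11
        * s21 + 1 / 2 * u20 * s2 + 5 / 2 * u20 * mu + u11 * s1 + 1 / 2 * v11 * s2 - v11 * mu
        - l1 * mu - 1 / 2 * u20 - v11 + l1 = 0)
    (e1_1_2 : a11 * c02 + a11 * s12 - 2 * a02 * b20 + 2 * a02 * c11 + a02 * s11 + b11 * s22
        + 1 / 2 * u11 * s2 + u11 * mu + u02 * s1 + 1 / 2 * v02 * s2 - 3 / 2 * v02 * mu - l2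
        * mu - 1 / 2 * v02 + l2 = 0)
    (e1_0_3 : -a02 * b11 + 2 * a02 * c02 + a02 * s12 + 1 / 2 * u02 * s2 - 1 / 2 * u02 * mu
        + 1 / 2 * u02 = 0)
    (e1_4_0 : b20 * u20 - 1 / 2 * b20 * v11 - b20 * l1 - 1 / 2 * b11 * v20 + c20 * u11 + u20
        * s11 + 1 / 2 * v20 * s21 + q20 * s1 = 0)
    (e1_3_1 : -1 / 2 * a11 * v20 - 1 / 2 * b20 * u11 - b20 * v02 - b20 * l2 + 3 / 2 * b11 * u20
        - b11 * v11 - b11 * l1 + 2 * c20 * u02 + c11 * u11 + u20 * s12 + 1 / 2 * u20 * s21
        + u11 * s11 + 1 / 2 * v20 * s22 + 1 / 2 * v11 * s21 + q20 * s2 + 3 * q20 * mu + q11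
        * s1 - 3 * q20 = 0)
    (e1_2_2 : -1 / 2 * a11 * u20 + a11 * l1 - 2 * b20 * u02 - 3 / 2 * b11 * v02 - b11 * l2 + 2
        * c11 * u02 + c02 * u11 + 1 / 2 * u20 * s22 + u11 * s12 + 1 / 2 * u11 * s21 + u02 * s11
        + 1 / 2 * v11 * s22 + 1 / 2 * v02 * s21 + q11 * s2 + q11 * mu + q02 * s1 - 2 * q11 = 0)
    (e1_1_3 : 1 / 2 * a11 * v02 + a11 * l2 - a02 * u20 + 1 / 2 * a02 * v11 + a02 * l1 - 3 / 2
        * b11 * u02 + 2 * c02 * u02 + 1 / 2 * u11 * s22 + u02 * s12 + 1 / 2 * u02 * s21 + 1 / 2
        * v02 * s22 + q02 * s2 - q02 * mu - q02 = 0)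
    (e1_0_4 : 1 / 2 * a11 * u02 - 1 / 2 * a02 * u11 + a02 * v02 + a02 * l2 + 1 / 2 * u02 * s22 = 0)
    (e1_4_1 : 2 * b11 * q20 + 2 * c20 * q02 + c11 * q11 + 1 / 2 * u20 ^ 2 - 1 / 4 * u20 * v11
        + 1 / 2 * u20 * l1 - 1 / 4 * u11 * v20 - 1 / 2 * v20 * v02 - 1 / 2 * v20 * l2 - 1 / 4
        * v11 ^ 2 - 1 / 2 * v11 * l1 + q20 * s12 + q20 * s21 + q11 * s11 = 0)
    (e1_2_3 : -a11 * q11 - 2 * a02 * q20 - 2 * b11 * q02 + 2 * c02 * q02 + 1 / 2 * u20 * u02
        + 1 / 4 * u11 ^ 2 + 1 / 4 * u11 * v02 + 1 / 2 * u11 * l2 + 1 / 4 * u02 * v11 + 1 / 2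
        * u02 * l1 - 1 / 2 * v02 ^ 2 - 1 / 2 * v02 * l2 + q11 * s22 + q02 * s12 + q02 * s21 = 0)
    (e2_2_0 : b20 * s1 + c20 * s2 + c20 * mu - 2 * c20 = 0)
    (e2_1_1 : 2 * b20 * mu + b11 * s1 + c11 * s2 + s11 * mu - c11 = 0)
    (e2_0_2 : b11 * mu + c02 * s2 - c02 * mu + s12 * mu = 0)
    (e2_3_0 : 2 * b20 ^ 2 - b20 * c11 + b20 * s11 + b11 * c20 + c20 * s21 + 1 / 2 * v20 * s1 = 0)
    (e2_2_1 : -2 * a11 * c20 + 3 * b20 * b11 - 2 * b20 * c02 + b20 * s12 + b11 * s11 + c20
        * s22 + c11 * s21 + 1 / 2 * u20 * s1 + v20 * s2 + v20 * mu + 1 / 2 * v11 * s1 - 2 * v20 = 0)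
    (e2_1_2 : -a11 * c11 - 2 * a02 * c20 + b11 ^ 2 - b11 * c02 + b11 * s12 + c11 * s22 + c02
        * s21 + u20 * mu + 1 / 2 * u11 * s1 + v11 * s2 - 1 / 2 * v11 * mu + 1 / 2 * v02 * s1
        + l1 * mu - v11 = 0)
    (e2_0_3 : -a02 * c11 + c02 * s22 + 1 / 2 * u11 * mu + 1 / 2 * u02 * s1 + v02 * s2 - 2 * v02
        * mu + l2 * mu = 0)
    (e2_2_2 : -2 * a11 * v20 + 3 / 2 * b20 * u11 - 2 * b20 * v02 + b20 * l2 + 3 / 2 * b11 * u20
        + b11 * l1 + 1 / 2 * c11 * v02 - c11 * l2 - 1 / 2 * c02 * v11 - c02 * l1 + 1 / 2 * u20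
        * s12 + 1 / 2 * u11 * s11 + v20 * s22 + 1 / 2 * v11 * s12 + v11 * s21 + 1 / 2 * v02
        * s11 + q20 * s2 + q20 * mu + q11 * s1 - 2 * q20 = 0)
    (e2_1_3 : -a11 * v11 - 2 * a02 * v20 + b20 * u02 + b11 * u11 - 3 / 2 * b11 * v02 + b11 * l2
        + 1 / 2 * c11 * u02 + 1 / 2 * c02 * u11 - c02 * l2 + 1 / 2 * u11 * s12 + 1 / 2 * u02
        * s11 + v11 * s22 + 1 / 2 * v02 * s12 + v02 * s21 + q11 * s2 - q11 * mu + q02 * s1
        - q11 = 0)
    (e2_0_4 : -a02 * v11 + 1 / 2 * b11 * u02 + c02 * u02 + 1 / 2 * u02 * s12 + v02 * s22 + q02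
        * s2 - 3 * q02 * mu = 0)
    (f_0_2 : 2 * b11 * s2 * mu - 2 * s21 * mu ^ 2 - c02 * s2 + c02 * mu = 0)
    (f_1_2 : -2 * a11 * c11 * s2 + 3 * a11 * c02 * s1 - 2 * a02 * c20 * s2 - 2 * a02 * c20 * mu
        + 3 * a02 * c11 * s1 + 4 * b20 * s22 * mu + 2 * b11 ^ 2 * s2 - 2 * b11 * s21 * mu + 2
        * u20 * s2 * mu - 2 * u20 * mu ^ 2 - 3 * u11 * s1 * mu + 2 * v11 * s2 * mu - 3 * v02
        * s1 * mu + 4 * l1 * mu ^ 2 - b11 * c02 - 2 * c11 * s22 + c02 * s21 - 2 * v11 * s2 + 2
        * v11 * mu + 3 * v02 * s1 = 0)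
    (f_0_3 : -a11 * c02 * s2 + a11 * c02 * mu - a02 * c11 * s2 - a02 * c11 * mu + 4 * a02 * c02
        * s1 + 2 * b11 * s22 * mu + u11 * s2 * mu - u11 * mu ^ 2 - 4 * u02 * s1 * mu + v02 * s2
        * mu - v02 * mu ^ 2 + 4 * l2 * mu ^ 2 - c02 * s22 - v02 * s2 + 2 * v02 * mu = 0)
    (n1 : mu ≠ 0)
    (n2 : mu - 2 ≠ 0)
    (hD : ∃ x y : ℂ, (x ^ 4 * q20 + x ^ 3 * y * q11 + x ^ 2 * y ^ 2 * q02 + x ^ 3 * u20 + x ^ 2
        * y * u11 + x * y ^ 2 * u02 + x * y * a11 + y ^ 2 * a02 + x) * (x ^ 2 * y ^ 2 * q20 + x
        * y ^ 3 * q11 + y ^ 4 * q02 + x ^ 2 * y * v20 + x * y ^ 2 * v11 + y ^ 3 * v02 + x ^ 2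
        * c20 + x * y * c11 + y ^ 2 * c02) - (x ^ 3 * y * q20 + x ^ 2 * y ^ 2 * q11 + x * y ^ 3
        * q02 + 1 / 2 * x ^ 3 * v20 + 1 / 2 * x ^ 2 * y * u20 + 1 / 2 * x ^ 2 * y * v11 + 1 / 2
        * x * y ^ 2 * u11 + 1 / 2 * x * y ^ 2 * v02 + 1 / 2 * y ^ 3 * u02 + x ^ 2 * b20 + x * y
        * b11 + y * mu) ^ 2 ≠ 0) :
    ((mu = 1 / 2) ∧ (a11 = 0) ∧ (a02 = 0) ∧ (b20 = 0) ∧ (b11 = 0) ∧ (c20 = 0) ∧ (c11 = 0) ∧ (c02 = 0) ∧ (u20 = 0) ∧ (u11 = 0) ∧ (v20 = 0) ∧ (v11 = 0) ∧ (v02 = 0) ∧ (q20 = 0) ∧ (q11 = 0) ∧ (q02 = 0)) ∨
    ((a11 = 0) ∧ (a02 = 0) ∧ (b20 = 0) ∧ (b11 = 0) ∧ (c20 = 0) ∧ (c11 = 0) ∧ (c02 = 0) ∧ (u20 = 0) ∧ (u11 = 0) ∧ (v20 = 0) ∧ (v11 = 0) ∧ (v02 = 0) ∧ (q20 = 0) ∧ (q11 = 0) ∧ (q02 = 0) ∧ (mu ≠ 0) ∧ (mu - 2 ≠ 0) ∧ (2 * mu - 1 ≠ 0)) ∨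
    ((mu = -1 / 2) ∧ (a11 = 0) ∧ (a02 = 0) ∧ (b20 = 0) ∧ (b11 = 0) ∧ (c20 = 0) ∧ (c11 = 0) ∧ (c02 = 0) ∧ (u20 = 0) ∧ (u11 = -v02) ∧ (v20 = 0) ∧ (v11 = 0) ∧ (q20 = 0) ∧ (q11 = 0) ∧ (q02 = 0) ∧ (v02 ≠ 0)) ∨
    ((mu = 1 / 2) ∧ (a02 = 0) ∧ (b20 = 0) ∧ (b11 = 0) ∧ (c20 = 0) ∧ (c11 = 0) ∧ (c02 = 0) ∧ (u20 = 0) ∧ (u11 = 0) ∧ (v20 = 0) ∧ (v11 = 0) ∧ (v02 = 0) ∧ (q20 = 0) ∧ (q11 = 0) ∧ (q02 = 0) ∧ (a11 ≠ 0)) ∨
    ((a02 = 0) ∧ (b20 = 0) ∧ (b11 = 0) ∧ (c20 = 0) ∧ (c11 = 0) ∧ (c02 = 0) ∧ (u20 = 0) ∧ (u11 = 0) ∧ (v20 = 0) ∧ (v11 = 0) ∧ (v02 = 0) ∧ (q20 = 0) ∧ (q11 = 0) ∧ (q02 = 0) ∧ (mu ≠ 0) ∧ (mu - 2 ≠ 0) ∧ (a11 ≠ 0) ∧ (2 * mu - 1 ≠ 0)) ∨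
    ((mu = 1) ∧ (a11 = 0) ∧ (a02 = 0) ∧ (b11 = 0) ∧ (c20 = 0) ∧ (c11 = 4
        * b20) ∧ (c02 = 0) ∧ (u20 = 0) ∧ (u11 = 0) ∧ (u02 = 0) ∧ (v20 = 0) ∧ (v11 = 0) ∧ (v02 = 0) ∧ (q20 = 0) ∧ (q11 = 0) ∧ (q02 = 0) ∧ (b20 ≠ 0)) ∨
    ((mu = 1 / 2) ∧ (b20 = 0) ∧ (b11 = 0) ∧ (c20 = 0) ∧ (c11 = 0) ∧ (c02 = 0) ∧ (u20 = 0) ∧ (u11 = 0) ∧ (v20 = 0) ∧ (v11 = 0) ∧ (v02 = 0) ∧ (q20 = 0) ∧ (q11 = 0) ∧ (q02 = 0) ∧ (a02 ≠ 0)) ∨
    ((b20 = 0) ∧ (b11 = 0) ∧ (c20 = 0) ∧ (c11 = 0) ∧ (c02 = 0) ∧ (u20 = 0) ∧ (u11 = 0) ∧ (v20 = 0) ∧ (v11 = 0) ∧ (v02 = 0) ∧ (q20 = 0) ∧ (q11 = 0) ∧ (q02 = 0) ∧ (mu ≠ 0) ∧ (mu - 2 ≠ 0) ∧ (a02 ≠ 0) ∧ (2 * mu - 1 ≠ 0)) ∨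
    ((mu = 3 / 2) ∧ (a11 = 0) ∧ (a02 = 0) ∧ (b20 = 0) ∧ (b11 = 0) ∧ (c11 = 0) ∧ (c02 = 0) ∧ (u20 = 0) ∧ (u11 = 0) ∧ (v20 = 0) ∧ (v11 = 0) ∧ (v02 = 0) ∧ (q20 = -c20 * u02) ∧ (q11 = 0) ∧ (q02 = 0) ∧ (c20 ≠ 0)) ∨
    ((mu = 3 / 2) ∧ (a11 = 0) ∧ (b20 = 0) ∧ (b11 = 0) ∧ (c11 = 0) ∧ (c02 = 0) ∧ (u20 = -3 * a02
        * c20) ∧ (u11 = 0) ∧ (v20 = 0) ∧ (v11 = -4 * a02 * c20) ∧ (v02 = 0) ∧ (q20 = -c20
        * u02) ∧ (q11 = 0) ∧ (q02 = a02 ^ 2 * c20) ∧ (c20 ≠ 0) ∧ (a02 ≠ 0)) := by
  have t1 : 0 = s1 := by linear_combination (-1) * e1_1_0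
  subst t1
  have t2 : (mu) ^ 1 * (s2 - mu + 1) = 0 := by linear_combination e1_0_1
  have t3 := (mul_eq_zero.mp t2).resolve_left (pow_ne_zero 1 n1)
  have t4 : mu - 1 = s2 := by linear_combination (-1) * t3
  subst t4
  have t5 : (mu) ^ 1 * (a11 + s22) = 0 := by linear_combination e1_0_2
  have t6 := (mul_eq_zero.mp t5).resolve_left (pow_ne_zero 1 n1)
  have t7 : -a11 = s22 := by linear_combination (-1) * t6
  subst t7
  have t8 : 2 * b20 = s11 := by linear_combination (-1) * e1_2_0
  subst t8
  have t9 : b11 * mu + s12 * mu = c02 := by linear_combination e2_0_2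
  subst t9
  have t10 : b11 * mu - s21 * mu + b11 = s12 := by linear_combination (-1) * e1_1_1
  subst t10
  have r3 : 4 * b20 * mu + c11 * mu - 2 * c11 = 0 := by linear_combination e2_1_1
  by_cases h4 : c20 = 0
  · have t11 : 0 = c20 := by linear_combination (-1) * h4
    subst t11
    have t12 : (mu) ^ 2 * (b11 - s21) = 0 := by linear_combination (1 / 3) * f_0_2
    have t13 := (mul_eq_zero.mp t12).resolve_left (pow_ne_zero 2 n1)
    have t14 : b11 = s21 := by linear_combination (1) * t13
    subst t14
    have t15 : 0 = v20 := by linear_combination (1 / 2) * e1_3_0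
    subst t15
    have r5 : 4 * a11 * b11 * mu ^ 2 - 8 * a11 * b11 * mu - 8 * a02 * b20 * mu - u11 * mu ^ 2
        + 2 * v02 * mu ^ 2 - 2 * l2 * mu ^ 2 + 2 * u11 * mu - 2 * v02 * mu + 4 * l2 * mu - 4
        * v02 = 0 := by linear_combination (-2 * mu + 4) * e2_0_3 + (-2 * a02) * r3
    have r6 : 16 * a11 * b20 * mu + 4 * b11 ^ 2 * mu + 2 * u20 * mu ^ 2 + v11 * mu ^ 2 + 2 * l1
        * mu ^ 2 - 8 * b11 ^ 2 - 4 * u20 * mu - 6 * v11 * mu - 4 * l1 * mu + 8
        * v11 = 0 := by linear_combination (2 * mu - 4) * e2_1_2 + (4 * a11) * r3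
    by_cases h7 : a02 = 0
    · have t16 : 0 = a02 := by linear_combination (-1) * h7
      subst t16
      have t17 : (mu - 2) ^ 1 * (4 * a11 * b11 * mu - u11 * mu + 2 * v02 * mu - 2 * l2 * mu + 2
          * v02) = 0 := by linear_combination r5
      have t18 := (mul_eq_zero.mp t17).resolve_left (pow_ne_zero 1 n2)
      have r8 : 4 * a11 * b11 * mu - u11 * mu + 2 * v02 * mu - 2 * l2 * mu + 2
          * v02 = 0 := by linear_combination t18
      by_cases h9 : b20 = 0
      · have t19 : 0 = b20 := by linear_combination (-1) * h9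
        subst t19
        have t20 : (mu - 2) ^ 1 * (c11) = 0 := by linear_combination r3
        have t21 := (mul_eq_zero.mp t20).resolve_left (pow_ne_zero 1 n2)
        have t22 : 0 = c11 := by linear_combination (-1) * t21
        subst t22
        have t23 : (mu - 2) ^ 1 * (4 * b11 ^ 2 + 2 * u20 * mu + v11 * mu + 2 * l1 * mu - 4
            * v11) = 0 := by linear_combination r6
        have t24 := (mul_eq_zero.mp t23).resolve_left (pow_ne_zero 1 n2)
        have r10 : 4 * b11 ^ 2 + 2 * u20 * mu + v11 * mu + 2 * l1 * mu - 4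
            * v11 = 0 := by linear_combination t24
        by_cases h11 : a11 = 0
        · have t25 : 0 = a11 := by linear_combination (-1) * h11
          subst t25
          by_cases h12 : 2 * mu - 1 = 0
          · have t26 : 1 / 2 = mu := by linear_combination (-1 / 2) * h12
            subst t26
            have t27 : -1 / 2 * u11 + 3 * v02 = l2 := by linear_combination r8
            subst t27
            have t28 : -4 * b11 ^ 2 - u20 + 7 / 2 * v11 = l1 := by linear_combination (-1) * r10
            subst t28
            by_cases h13 : b11 = 0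
            · have t29 : 0 = b11 := by linear_combination (-1) * h13
              subst t29
              have t30 : 1 / 4 * u11 = v02 := by linear_combination (-1 / 4) * f_0_3
              subst t30
              have t31 : 2 / 5 * u20 = v11 := by linear_combination (-1 / 5) * f_1_2
              subst t31
              have t32 : 0 = q02 := by linear_combination (1 / 2) * e1_1_3
              subst t32
              have t33 : 0 = q11 := by linear_combination (1 / 2) * e1_2_2
              subst t33
              have t34 : 0 = q20 := by linear_combination (1 / 2) * e1_3_1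
              subst t34
              by_cases h14 : u20 = 0
              · have t35 : 0 = u20 := by linear_combination (-1) * h14
                subst t35
                by_cases h15 : u11 = 0
                · have t36 : 0 = u11 := by linear_combination (-1) * h15
                  subst t36
                  exact Or.inl ⟨by ring, by ring, by ring, by ring, by ring, by ring, by ring, by ring, by ring, by ring, by ring, by ring, by ring, by ring, by ring, by ring⟩
                · exfalso
                  have t37 : (u11) ^ 2 * (1) = 0 := by linear_combination (8 / 3) * e1_2_3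
                  have t38 := (mul_eq_zero.mp t37).resolve_left (pow_ne_zero 2 h15)
                  exact absurd t38 (by norm_num)
              · exfalso
                have t39 : (u20) ^ 2 * (1) = 0 := by linear_combination (25 / 12) * e1_4_1
                have t40 := (mul_eq_zero.mp t39).resolve_left (pow_ne_zero 2 h14)
                exact absurd t40 (by norm_num)
            · exfalso
              have t41 : (b11) ^ 2 * (1) = 0 := by linear_combination (-1 / 2) * e1_2_1
              have t42 := (mul_eq_zero.mp t41).resolve_left (pow_ne_zero 2 h13)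
              exact absurd t42 (by norm_num)
          · have t43 : (2 * mu - 1) ^ 1 * (u11 * mu - v02 * mu
                - v02) = 0 := by linear_combination (mu) * e1_1_2 + (-1 / 2 * mu + 1 / 2) * r8
            have t44 := (mul_eq_zero.mp t43).resolve_left (pow_ne_zero 1 h12)
            have r16 : u11 * mu - v02 * mu - v02 = 0 := by linear_combination t44
            have r17 : v02 * mu ^ 2 - 2 * l2 * mu ^ 2 + v02
                * mu = 0 := by linear_combination (mu) * r8 + (mu) * r16
            have t45 : (mu) ^ 1 * (v02 * mu - 2 * l2 * mu + v02) = 0 := by linear_combination r17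
            have t46 := (mul_eq_zero.mp t45).resolve_left (pow_ne_zero 1 n1)
            have r18 : v02 * mu - 2 * l2 * mu + v02 = 0 := by linear_combination t46
            have r19 : b11 ^ 2 * mu + 2 * u20 * mu ^ 2 - b11 ^ 2 - u20 * mu - 2 * v11 * mu
                + v11 = 0 := by linear_combination (1 / 2 * mu) * e1_2_1 + (1 / 4 * mu - 1 / 4)
                * r10
            have r20 : -b11 ^ 2 * mu ^ 2 - 2 * u20 * mu ^ 3 - 3 * b11 ^ 2 * mu + 5 * u20
                * mu ^ 2 - 4 * l1 * mu ^ 2 - 2 * u20 * mu + 2 * l1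
                * mu = 0 := by linear_combination (-2 * mu + 1) * r10 + (-mu + 4) * r19
            have t47 : (mu) ^ 1 * (-b11 ^ 2 * mu - 2 * u20 * mu ^ 2 - 3 * b11 ^ 2 + 5 * u20
                * mu - 4 * l1 * mu - 2 * u20 + 2 * l1) = 0 := by linear_combination r20
            have t48 := (mul_eq_zero.mp t47).resolve_left (pow_ne_zero 1 n1)
            have r21 : -b11 ^ 2 * mu - 2 * u20 * mu ^ 2 - 3 * b11 ^ 2 + 5 * u20 * mu - 4 * l1
                * mu - 2 * u20 + 2 * l1 = 0 := by linear_combination t48
            have t49 : (mu) ^ 2 * ((2 * mu - 1) ^ 1 * (5 * b11 ^ 2 - 2 * u20 * mu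
                + u20)) = 0 := by linear_combination (-2 * mu ^ 2 + 2 * mu - 1 / 2) * f_1_2
                + (-2 * mu ^ 3 + mu ^ 2) * r21 + (-2 * mu ^ 3 + 3 * mu ^ 2 - 3 * mu + 1) * r19
            have t50 := (mul_eq_zero.mp t49).resolve_left (pow_ne_zero 2 n1)
            have t51 := (mul_eq_zero.mp t50).resolve_left (pow_ne_zero 1 h12)
            have r22 : 5 * b11 ^ 2 - 2 * u20 * mu + u20 = 0 := by linear_combination t51
            have r23 : 12 * b11 ^ 2 * mu ^ 2 - 20 * b11 ^ 2 * mu + 8 * l1 * mu ^ 2 + 7
                * b11 ^ 2 - 8 * l1 * mu + 2 * l1 = 0 := by linear_combination (-2 * mu + 1)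
                * r21 + (2 * mu ^ 2 - 5 * mu + 2) * r22
            have r24 : -12 * b11 ^ 2 * mu ^ 2 + 8 * b11 ^ 2 * mu + 4 * v11 * mu ^ 2 - b11 ^ 2
                - 4 * v11 * mu + v11 = 0 := by linear_combination (-2 * mu + 1) * r19 + (-2
                * mu ^ 2 + mu) * r22
            have t52 : (2 * mu - 1) ^ 1 * (6 * b11 ^ 2 * mu - 7 * b11 ^ 2 + 4 * l1 * mu - 2
                * l1) = 0 := by linear_combination r23
            have t53 := (mul_eq_zero.mp t52).resolve_left (pow_ne_zero 1 h12)
            have r25 : 6 * b11 ^ 2 * mu - 7 * b11 ^ 2 + 4 * l1 * mu - 2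
                * l1 = 0 := by linear_combination t53
            have t54 : (2 * mu - 1) ^ 1 * (-6 * b11 ^ 2 * mu + b11 ^ 2 + 2 * v11 * mu
                - v11) = 0 := by linear_combination r24
            have t55 := (mul_eq_zero.mp t54).resolve_left (pow_ne_zero 1 h12)
            have r26 : -6 * b11 ^ 2 * mu + b11 ^ 2 + 2 * v11 * mu
                - v11 = 0 := by linear_combination t55
            by_cases h27 : v02 = 0
            · have t56 : 0 = v02 := by linear_combination (-1) * h27
              subst t56
              have t57 : (mu) ^ 1 * (l2) = 0 := by linear_combination (-1 / 2) * r18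
              have t58 := (mul_eq_zero.mp t57).resolve_left (pow_ne_zero 1 n1)
              have t59 : 0 = l2 := by linear_combination (-1) * t58
              subst t59
              have t60 : (mu) ^ 1 * (u11) = 0 := by linear_combination r16
              have t61 := (mul_eq_zero.mp t60).resolve_left (pow_ne_zero 1 n1)
              have t62 : 0 = u11 := by linear_combination (-1) * t61
              subst t62
              have t63 : 0 = q11 := by linear_combination (1 / 2) * e2_1_3
              subst t63
              have t64 : 2 * b11 * u02 * mu = q02 := by linear_combination (1 / 2) * e1_1_3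
              subst t64
              by_cases h28 : b11 = 0
              · have t65 : 0 = b11 := by linear_combination (-1) * h28
                subst t65
                have t66 : (2 * mu - 1) ^ 1 * (l1) = 0 := by linear_combination (1 / 2) * r25
                have t67 := (mul_eq_zero.mp t66).resolve_left (pow_ne_zero 1 h12)
                have t68 : 0 = l1 := by linear_combination (-1) * t67
                subst t68
                have t69 : (2 * mu - 1) ^ 1 * (v11) = 0 := by linear_combination r26
                have t70 := (mul_eq_zero.mp t69).resolve_left (pow_ne_zero 1 h12)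
                have t71 : 0 = v11 := by linear_combination (-1) * t70
                subst t71
                have t72 : (2 * mu - 1) ^ 1 * (u20) = 0 := by linear_combination (-1) * r22
                have t73 := (mul_eq_zero.mp t72).resolve_left (pow_ne_zero 1 h12)
                have t74 : 0 = u20 := by linear_combination (-1) * t73
                subst t74
                by_cases h29 : q20 = 0
                · have t75 : 0 = q20 := by linear_combination (-1) * h29
                  subst t75
                  exact Or.inr (Or.inl ⟨by ring, by ring, by ring, by ring, by ring, by ring, by ring, by ring, by ring, by ring, by ring, by ring, by ring, by ring, by ring, n1, n2, h12⟩)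
                · have t76 : (q20) ^ 1 * (mu - 1) = 0 := by linear_combination (1 / 4) * e1_3_1
                  have t77 := (mul_eq_zero.mp t76).resolve_left (pow_ne_zero 1 h29)
                  have t78 : 1 = mu := by linear_combination (-1) * t77
                  subst t78
                  exfalso
                  have t79 : (q20) ^ 1 * (1) = 0 := by linear_combination (-1) * e2_2_2
                  have t80 := (mul_eq_zero.mp t79).resolve_left (pow_ne_zero 1 h29)
                  exact absurd t80 (by norm_num)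
              · by_cases h30 : u02 = 0
                · have t81 : 0 = u02 := by linear_combination (-1) * h30
                  subst t81
                  by_cases h31 : mu - 1 = 0
                  · have t82 : 1 = mu := by linear_combination (-1) * h31
                    subst t82
                    have t83 : 1 / 2 * b11 ^ 2 = l1 := by linear_combination (-1 / 2) * r25
                    subst t83
                    have t84 : 5 * b11 ^ 2 = v11 := by linear_combination (-1) * r26
                    subst t84
                    have t85 : 5 * b11 ^ 2 = u20 := by linear_combination r22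
                    subst t85
                    exfalso
                    have t86 : (b11) ^ 3 * (1) = 0 := by linear_combination (1 / 12) * e1_3_1
                    have t87 := (mul_eq_zero.mp t86).resolve_left (pow_ne_zero 3 h28)
                    exact absurd t87 (by norm_num)
                  · have t88 : (2 * mu - 1) ^ 2 * (3 * b11 ^ 3 + 2 * q20 * mu ^ 2 - 3 * q20
                        * mu + q20) = 0 := by linear_combination (2 * mu ^ 3 - 3 * mu ^ 2
                        + 3 / 2 * mu - 1 / 4) * e1_3_1 + (1 / 2 * b11 * mu ^ 2 - 1 / 2 * b11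
                        * mu + 1 / 8 * b11) * r25 + (1 / 2 * b11 * mu ^ 2 - 1 / 2 * b11 * mu
                        + 1 / 8 * b11) * r26 + (3 * b11 * mu ^ 2 - 3 * b11 * mu + 3 / 4 * b11) * r22
                    have t89 := (mul_eq_zero.mp t88).resolve_left (pow_ne_zero 2 h12)
                    have r32 : 3 * b11 ^ 3 + 2 * q20 * mu ^ 2 - 3 * q20 * mu
                        + q20 = 0 := by linear_combination t89
                    exfalso
                    have t90 : (2 * mu - 1) ^ 4 * ((b11) ^ 3
                        * (1)) = 0 := by linear_combination (16 / 3 * mu ^ 5 - 16 * mu ^ 4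
                        + 56 / 3 * mu ^ 3 - 32 / 3 * mu ^ 2 + 3 * mu - 1 / 3) * e2_2_2 + (8 / 3
                        * b11 * mu ^ 5 - 8 * b11 * mu ^ 4 + 28 / 3 * b11 * mu ^ 3 - 16 / 3
                        * b11 * mu ^ 2 + 3 / 2 * b11 * mu - 1 / 6 * b11) * r25 + (8 / 3 * b11
                        * mu ^ 5 - 32 / 3 * b11 * mu ^ 4 + 16 * b11 * mu ^ 3 - 34 / 3 * b11
                        * mu ^ 2 + 23 / 6 * b11 * mu - 1 / 2 * b11) * r26 + (16 / 3 * b11
                        * mu ^ 4 - 40 / 3 * b11 * mu ^ 3 + 12 * b11 * mu ^ 2 - 14 / 3 * b11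
                        * mu + 2 / 3 * b11) * r22 + (-16 / 3 * mu ^ 4 + 16 * mu ^ 3 - 16
                        * mu ^ 2 + 20 / 3 * mu - 1) * r32
                    have t91 := (mul_eq_zero.mp t90).resolve_left (pow_ne_zero 4 h12)
                    have t92 := (mul_eq_zero.mp t91).resolve_left (pow_ne_zero 3 h28)
                    exact absurd t92 (by norm_num)
                · have t93 : (2 * mu - 1) ^ 1 * ((b11) ^ 1 * ((u02) ^ 1 * (2 * mu
                      + 1))) = 0 := by linear_combination (-1) * e2_0_4
                  have t94 := (mul_eq_zero.mp t93).resolve_left (pow_ne_zero 1 h12)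
                  have t95 := (mul_eq_zero.mp t94).resolve_left (pow_ne_zero 1 h28)
                  have t96 := (mul_eq_zero.mp t95).resolve_left (pow_ne_zero 1 h30)
                  have t97 : -1 / 2 = mu := by linear_combination (-1 / 2) * t96
                  subst t97
                  have t98 : -5 / 2 * b11 ^ 2 = l1 := by linear_combination (1 / 4) * r25
                  subst t98
                  have t99 : 2 * b11 ^ 2 = v11 := by linear_combination (1 / 2) * r26
                  subst t99
                  have t100 : -5 / 2 * b11 ^ 2 = u20 := by linear_combination (-1 / 2) * r22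
                  subst t100
                  have t101 : -b11 ^ 3 = q20 := by linear_combination (1 / 6) * e1_3_1
                  subst t101
                  exfalso
                  have t102 : (b11) ^ 3 * (1) = 0 := by linear_combination (-1 / 2) * e2_2_2
                  have t103 := (mul_eq_zero.mp t102).resolve_left (pow_ne_zero 3 h28)
                  exact absurd t103 (by norm_num)
            · have t104 : (mu) ^ 3 * ((v02) ^ 1 * (2 * mu
                  + 1)) = 0 := by linear_combination (mu ^ 2) * f_0_3 + (2 * mu ^ 3) * r18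
                  + (mu ^ 2) * r16
              have t105 := (mul_eq_zero.mp t104).resolve_left (pow_ne_zero 3 n1)
              have t106 := (mul_eq_zero.mp t105).resolve_left (pow_ne_zero 1 h27)
              have t107 : -1 / 2 = mu := by linear_combination (-1 / 2) * t106
              subst t107
              have t108 : -1 / 2 * v02 = l2 := by linear_combination (-1) * r18
              subst t108
              have t109 : -5 / 2 * b11 ^ 2 = l1 := by linear_combination (1 / 4) * r25
              subst t109
              have t110 : -v02 = u11 := by linear_combination (2) * r16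
              subst t110
              have t111 : 2 * b11 ^ 2 = v11 := by linear_combination (1 / 2) * r26
              subst t111
              have t112 : -5 / 2 * b11 ^ 2 = u20 := by linear_combination (-1 / 2) * r22
              subst t112
              have t113 : -b11 * u02 = q02 := by linear_combination (1 / 2) * e1_1_3
              subst t113
              have t114 : -1 / 4 * b11 * v02 = q11 := by linear_combination (1 / 4) * e1_2_2
              subst t114
              have t115 : (v02) ^ 1 * (b11) = 0 := by linear_combination (-2 / 3) * e2_1_3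
              have t116 := (mul_eq_zero.mp t115).resolve_left (pow_ne_zero 1 h27)
              have t117 : 0 = b11 := by linear_combination (-1) * t116
              subst t117
              have t118 : 0 = q20 := by linear_combination (1 / 6) * e1_3_1
              subst t118
              exact Or.inr (Or.inr (Or.inl ⟨by ring, by ring, by ring, by ring, by ring, by ring, by ring, by ring, by ring, by ring, by ring, by ring, by ring, by ring, by ring, h27⟩))
        · have r33 : 2 * a11 * b11 * mu + 2 * u11 * mu ^ 2 - 2 * v02 * mu ^ 2 - u11 * mu - v02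
              * mu + v02 = 0 := by linear_combination (mu) * e1_1_2 + (-1 / 2 * mu + 1 / 2) * r8
          have r34 : -8 * a11 * u11 * mu ^ 3 + 8 * a11 * v02 * mu ^ 3 + 2 * a11 * u11 * mu ^ 2
              + 8 * a11 * v02 * mu ^ 2 - 4 * a11 * l2 * mu ^ 2 = 0 := by linear_combination (2
              * a11 * mu) * r8 + (-4 * a11 * mu) * r33
          have r35 : 8 * a11 ^ 2 * u20 * mu ^ 3 + 4 * a11 ^ 2 * v11 * mu ^ 3 + 8 * a11 ^ 2 * l1
              * mu ^ 3 + 16 * u11 ^ 2 * mu ^ 4 - 32 * u11 * v02 * mu ^ 4 + 16 * v02 ^ 2
              * mu ^ 4 - 16 * a11 ^ 2 * v11 * mu ^ 2 - 16 * u11 ^ 2 * mu ^ 3 + 16 * v02 ^ 2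
              * mu ^ 3 + 4 * u11 ^ 2 * mu ^ 2 + 24 * u11 * v02 * mu ^ 2 - 12 * v02 ^ 2 * mu ^ 2
              - 8 * u11 * v02 * mu - 8 * v02 ^ 2 * mu + 4
              * v02 ^ 2 = 0 := by linear_combination (4 * a11 ^ 2 * mu ^ 2) * r10 + (-8 * a11
              * b11 * mu + 8 * u11 * mu ^ 2 - 8 * v02 * mu ^ 2 - 4 * u11 * mu - 4 * v02 * mu
              + 4 * v02) * r33
          have t119 : (mu) ^ 2 * ((a11) ^ 1 * (-8 * u11 * mu + 8 * v02 * mu + 2 * u11 + 8 * v02
              - 4 * l2)) = 0 := by linear_combination r34
          have t120 := (mul_eq_zero.mp t119).resolve_left (pow_ne_zero 2 n1)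
          have t121 := (mul_eq_zero.mp t120).resolve_left (pow_ne_zero 1 h11)
          have r36 : -8 * u11 * mu + 8 * v02 * mu + 2 * u11 + 8 * v02 - 4
              * l2 = 0 := by linear_combination t121
          have t122 : -2 * u11 * mu + 2 * v02 * mu + 1 / 2 * u11 + 2
              * v02 = l2 := by linear_combination (1 / 4) * r36
          subst t122
          by_cases h37 : 2 * mu - 1 = 0
          · have t123 : 1 / 2 = mu := by linear_combination (-1 / 2) * h37
            subst t123
            have t124 : (a11) ^ 2 * (u20 - 7 / 2 * v11 + l1) = 0 := by linear_combination r35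
            have t125 := (mul_eq_zero.mp t124).resolve_left (pow_ne_zero 2 h11)
            have r38 : u20 - 7 / 2 * v11 + l1 = 0 := by linear_combination t125
            have t126 : -u20 + 7 / 2 * v11 = l1 := by linear_combination (-1) * r38
            subst t126
            have t127 : (a11) ^ 1 * (b11) = 0 := by linear_combination r33
            have t128 := (mul_eq_zero.mp t127).resolve_left (pow_ne_zero 1 h11)
            have t129 : 0 = b11 := by linear_combination (-1) * t128
            subst t129
            have t130 : 1 / 4 * u11 = v02 := by linear_combination (-1 / 4) * f_0_3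
            subst t130
            have t131 : 2 / 5 * u20 = v11 := by linear_combination (-1 / 5) * f_1_2
            subst t131
            have t132 : 0 = q20 := by linear_combination (1 / 2) * e1_3_1
            subst t132
            have t133 : -1 / 8 * a11 * u11 = q02 := by linear_combination (1 / 2) * e1_1_3
            subst t133
            have t134 : -2 / 5 * a11 * u20 = q11 := by linear_combination (1 / 2) * e1_2_2
            subst t134
            by_cases h39 : u20 = 0
            · have t135 : 0 = u20 := by linear_combination (-1) * h39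
              subst t135
              by_cases h40 : u11 = 0
              · have t136 : 0 = u11 := by linear_combination (-1) * h40
                subst t136
                exact Or.inr (Or.inr (Or.inr (Or.inl ⟨by ring, by ring, by ring, by ring, by ring, by ring, by ring, by ring, by ring, by ring, by ring, by ring, by ring, by ring, by ring, h11⟩)))
              · exfalso
                have t137 : (u11) ^ 2 * (1) = 0 := by linear_combination (8 / 3) * e1_2_3
                have t138 := (mul_eq_zero.mp t137).resolve_left (pow_ne_zero 2 h40)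
                exact absurd t138 (by norm_num)
            · exfalso
              have t139 : (u20) ^ 2 * (1) = 0 := by linear_combination (25 / 12) * e1_4_1
              have t140 := (mul_eq_zero.mp t139).resolve_left (pow_ne_zero 2 h39)
              exact absurd t140 (by norm_num)
          · have t141 : (2 * mu - 1) ^ 1 * (4 * a11 ^ 2 * u20 * mu ^ 3 + 2 * u11 ^ 2 * mu ^ 4
                - 4 * u11 * v02 * mu ^ 4 + 2 * v02 ^ 2 * mu ^ 4 - 4 * a11 ^ 2 * v11 * mu ^ 2
                - 3 * u11 ^ 2 * mu ^ 3 + 2 * u11 * v02 * mu ^ 3 + v02 ^ 2 * mu ^ 3 + u11 ^ 2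
                * mu ^ 2 + 4 * u11 * v02 * mu ^ 2 - 3 * v02 ^ 2 * mu ^ 2 - 2 * u11 * v02 * mu
                - v02 ^ 2 * mu + v02 ^ 2) = 0 := by linear_combination (2 * a11 ^ 2 * mu ^ 3)
                * e1_2_1 + (1 / 4 * mu - 1 / 4) * r35
            have t142 := (mul_eq_zero.mp t141).resolve_left (pow_ne_zero 1 h37)
            have r41 : 4 * a11 ^ 2 * u20 * mu ^ 3 + 2 * u11 ^ 2 * mu ^ 4 - 4 * u11 * v02
                * mu ^ 4 + 2 * v02 ^ 2 * mu ^ 4 - 4 * a11 ^ 2 * v11 * mu ^ 2 - 3 * u11 ^ 2
                * mu ^ 3 + 2 * u11 * v02 * mu ^ 3 + v02 ^ 2 * mu ^ 3 + u11 ^ 2 * mu ^ 2 + 4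
                * u11 * v02 * mu ^ 2 - 3 * v02 ^ 2 * mu ^ 2 - 2 * u11 * v02 * mu - v02 ^ 2 * mu
                + v02 ^ 2 = 0 := by linear_combination t142
            have r42 : -16 * a11 ^ 4 * u20 * mu ^ 6 - 8 * a11 ^ 2 * u11 ^ 2 * mu ^ 7 + 16
                * a11 ^ 2 * u11 * v02 * mu ^ 7 - 8 * a11 ^ 2 * v02 ^ 2 * mu ^ 7 + 32 * a11 ^ 4
                * u20 * mu ^ 5 - 32 * a11 ^ 4 * l1 * mu ^ 5 - 20 * a11 ^ 2 * u11 ^ 2 * mu ^ 6
                + 56 * a11 ^ 2 * u11 * v02 * mu ^ 6 - 36 * a11 ^ 2 * v02 ^ 2 * mu ^ 6 + 12
                * a11 ^ 2 * u11 ^ 2 * mu ^ 5 + 16 * a11 ^ 2 * u11 * v02 * mu ^ 5 - 36 * a11 ^ 2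
                * v02 ^ 2 * mu ^ 5 - 24 * a11 ^ 2 * u11 * v02 * mu ^ 4 + 4 * a11 ^ 2 * v02 ^ 2
                * mu ^ 4 + 12 * a11 ^ 2 * v02 ^ 2 * mu ^ 3 = 0 := by linear_combination (-4
                * a11 ^ 2 * mu ^ 2) * r35 + (-4 * a11 ^ 2 * mu ^ 3 + 16 * a11 ^ 2 * mu ^ 2) * r41
            have t143 : (mu) ^ 3 * ((a11) ^ 2 * (-16 * a11 ^ 2 * u20 * mu ^ 3 - 8 * u11 ^ 2
                * mu ^ 4 + 16 * u11 * v02 * mu ^ 4 - 8 * v02 ^ 2 * mu ^ 4 + 32 * a11 ^ 2 * u20
                * mu ^ 2 - 32 * a11 ^ 2 * l1 * mu ^ 2 - 20 * u11 ^ 2 * mu ^ 3 + 56 * u11 * v02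
                * mu ^ 3 - 36 * v02 ^ 2 * mu ^ 3 + 12 * u11 ^ 2 * mu ^ 2 + 16 * u11 * v02
                * mu ^ 2 - 36 * v02 ^ 2 * mu ^ 2 - 24 * u11 * v02 * mu + 4 * v02 ^ 2 * mu + 12
                * v02 ^ 2)) = 0 := by linear_combination r42
            have t144 := (mul_eq_zero.mp t143).resolve_left (pow_ne_zero 3 n1)
            have t145 := (mul_eq_zero.mp t144).resolve_left (pow_ne_zero 2 h11)
            have r43 : -16 * a11 ^ 2 * u20 * mu ^ 3 - 8 * u11 ^ 2 * mu ^ 4 + 16 * u11 * v02
                * mu ^ 4 - 8 * v02 ^ 2 * mu ^ 4 + 32 * a11 ^ 2 * u20 * mu ^ 2 - 32 * a11 ^ 2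
                * l1 * mu ^ 2 - 20 * u11 ^ 2 * mu ^ 3 + 56 * u11 * v02 * mu ^ 3 - 36 * v02 ^ 2
                * mu ^ 3 + 12 * u11 ^ 2 * mu ^ 2 + 16 * u11 * v02 * mu ^ 2 - 36 * v02 ^ 2
                * mu ^ 2 - 24 * u11 * v02 * mu + 4 * v02 ^ 2 * mu + 12
                * v02 ^ 2 = 0 := by linear_combination t145
            have t146 : (mu) ^ 2 * ((a11) ^ 1 * (8 * u11 * mu ^ 2 - 8 * v02 * mu ^ 2 - 10 * v02
                * mu - v02)) = 0 := by linear_combination (-a11 * mu) * f_0_3 + (a11 * mu) * r33
            have t147 := (mul_eq_zero.mp t146).resolve_left (pow_ne_zero 2 n1)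
            have t148 := (mul_eq_zero.mp t147).resolve_left (pow_ne_zero 1 h11)
            have r44 : 8 * u11 * mu ^ 2 - 8 * v02 * mu ^ 2 - 10 * v02 * mu
                - v02 = 0 := by linear_combination t148
            have r45 : -1024 * a11 ^ 2 * u20 * mu ^ 7 + 2048 * a11 ^ 2 * u20 * mu ^ 6 - 2048
                * a11 ^ 2 * l1 * mu ^ 6 - 32 * v02 ^ 2 * mu ^ 6 - 112 * v02 ^ 2 * mu ^ 5 - 40
                * v02 ^ 2 * mu ^ 4 + 28 * v02 ^ 2 * mu ^ 3 + 12 * v02 ^ 2
                * mu ^ 2 = 0 := by linear_combination (64 * mu ^ 4) * r43 + (64 * u11 * mu ^ 6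
                - 64 * v02 * mu ^ 6 + 160 * u11 * mu ^ 5 - 208 * v02 * mu ^ 5 - 96 * u11
                * mu ^ 4 - 16 * v02 * mu ^ 4 + 92 * v02 * mu ^ 3 - 12 * v02 * mu ^ 2) * r44
            have r46 : 16 * a11 * b11 * mu ^ 3 + 4 * v02 * mu ^ 3 - v02
                * mu = 0 := by linear_combination (8 * mu ^ 2) * r33 + (-2 * mu ^ 2 + mu) * r44
            have r47 : 256 * a11 ^ 2 * u20 * mu ^ 7 - 256 * a11 ^ 2 * v11 * mu ^ 6 + 8
                * v02 ^ 2 * mu ^ 6 - 4 * v02 ^ 2 * mu ^ 5 - 6 * v02 ^ 2 * mu ^ 4 + v02 ^ 2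
                * mu ^ 3 + v02 ^ 2 * mu ^ 2 = 0 := by linear_combination (64 * mu ^ 4) * r41
                + (-16 * u11 * mu ^ 6 + 16 * v02 * mu ^ 6 + 24 * u11 * mu ^ 5 - 12 * v02
                * mu ^ 5 - 8 * u11 * mu ^ 4 - 12 * v02 * mu ^ 4 + 9 * v02 * mu ^ 3 - v02
                * mu ^ 2) * r44
            have t149 : (mu) ^ 2 * (-1024 * a11 ^ 2 * u20 * mu ^ 5 + 2048 * a11 ^ 2 * u20
                * mu ^ 4 - 2048 * a11 ^ 2 * l1 * mu ^ 4 - 32 * v02 ^ 2 * mu ^ 4 - 112 * v02 ^ 2
                * mu ^ 3 - 40 * v02 ^ 2 * mu ^ 2 + 28 * v02 ^ 2 * mu + 12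
                * v02 ^ 2) = 0 := by linear_combination r45
            have t150 := (mul_eq_zero.mp t149).resolve_left (pow_ne_zero 2 n1)
            have r48 : -1024 * a11 ^ 2 * u20 * mu ^ 5 + 2048 * a11 ^ 2 * u20 * mu ^ 4 - 2048
                * a11 ^ 2 * l1 * mu ^ 4 - 32 * v02 ^ 2 * mu ^ 4 - 112 * v02 ^ 2 * mu ^ 3 - 40
                * v02 ^ 2 * mu ^ 2 + 28 * v02 ^ 2 * mu + 12
                * v02 ^ 2 = 0 := by linear_combination t150
            have t151 : (mu) ^ 1 * (16 * a11 * b11 * mu ^ 2 + 4 * v02 * mu ^ 2
                - v02) = 0 := by linear_combination r46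
            have t152 := (mul_eq_zero.mp t151).resolve_left (pow_ne_zero 1 n1)
            have r49 : 16 * a11 * b11 * mu ^ 2 + 4 * v02 * mu ^ 2
                - v02 = 0 := by linear_combination t152
            have t153 : (mu) ^ 2 * (256 * a11 ^ 2 * u20 * mu ^ 5 - 256 * a11 ^ 2 * v11 * mu ^ 4
                + 8 * v02 ^ 2 * mu ^ 4 - 4 * v02 ^ 2 * mu ^ 3 - 6 * v02 ^ 2 * mu ^ 2 + v02 ^ 2
                * mu + v02 ^ 2) = 0 := by linear_combination r47
            have t154 := (mul_eq_zero.mp t153).resolve_left (pow_ne_zero 2 n1)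
            have r50 : 256 * a11 ^ 2 * u20 * mu ^ 5 - 256 * a11 ^ 2 * v11 * mu ^ 4 + 8
                * v02 ^ 2 * mu ^ 4 - 4 * v02 ^ 2 * mu ^ 3 - 6 * v02 ^ 2 * mu ^ 2 + v02 ^ 2 * mu
                + v02 ^ 2 = 0 := by linear_combination t154
            have t155 : (mu) ^ 10 * ((a11) ^ 4 * (256 * a11 ^ 2 * u20 * mu ^ 4 - 40 * v02 ^ 2
                * mu ^ 3 - 20 * v02 ^ 2 * mu ^ 2 + 10 * v02 ^ 2 * mu + 5
                * v02 ^ 2)) = 0 := by linear_combination (128 * a11 ^ 6 * mu ^ 12) * f_1_2
                + (1 / 4 * a11 ^ 4 * mu ^ 10) * r48 + (16 * a11 ^ 5 * b11 * mu ^ 10 - 4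
                * a11 ^ 4 * v02 * mu ^ 10 + a11 ^ 4 * v02 * mu ^ 8) * r49 + (a11 ^ 4 * mu ^ 10
                - a11 ^ 4 * mu ^ 9 + a11 ^ 4 * mu ^ 8) * r50
            have t156 := (mul_eq_zero.mp t155).resolve_left (pow_ne_zero 10 n1)
            have t157 := (mul_eq_zero.mp t156).resolve_left (pow_ne_zero 4 h11)
            have r51 : 256 * a11 ^ 2 * u20 * mu ^ 4 - 40 * v02 ^ 2 * mu ^ 3 - 20 * v02 ^ 2
                * mu ^ 2 + 10 * v02 ^ 2 * mu + 5 * v02 ^ 2 = 0 := by linear_combination t157
            have r52 : -524288 * a11 ^ 4 * l1 * mu ^ 8 - 49152 * a11 ^ 2 * v02 ^ 2 * mu ^ 8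
                + 32768 * a11 ^ 2 * v02 ^ 2 * mu ^ 7 + 40960 * a11 ^ 2 * v02 ^ 2 * mu ^ 6
                - 8192 * a11 ^ 2 * v02 ^ 2 * mu ^ 5 - 7168 * a11 ^ 2 * v02 ^ 2
                * mu ^ 4 = 0 := by linear_combination (256 * a11 ^ 2 * mu ^ 4) * r48 + (1024
                * a11 ^ 2 * mu ^ 5 - 2048 * a11 ^ 2 * mu ^ 4) * r51
            have r53 : -65536 * a11 ^ 4 * v11 * mu ^ 8 + 12288 * a11 ^ 2 * v02 ^ 2 * mu ^ 8
                + 4096 * a11 ^ 2 * v02 ^ 2 * mu ^ 7 - 4096 * a11 ^ 2 * v02 ^ 2 * mu ^ 6 - 1024
                * a11 ^ 2 * v02 ^ 2 * mu ^ 5 + 256 * a11 ^ 2 * v02 ^ 2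
                * mu ^ 4 = 0 := by linear_combination (256 * a11 ^ 2 * mu ^ 4) * r50 + (-256
                * a11 ^ 2 * mu ^ 5) * r51
            have t158 : (mu) ^ 4 * ((a11) ^ 2 * (-524288 * a11 ^ 2 * l1 * mu ^ 4 - 49152
                * v02 ^ 2 * mu ^ 4 + 32768 * v02 ^ 2 * mu ^ 3 + 40960 * v02 ^ 2 * mu ^ 2 - 8192
                * v02 ^ 2 * mu - 7168 * v02 ^ 2)) = 0 := by linear_combination r52
            have t159 := (mul_eq_zero.mp t158).resolve_left (pow_ne_zero 4 n1)
            have t160 := (mul_eq_zero.mp t159).resolve_left (pow_ne_zero 2 h11)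
            have r54 : -524288 * a11 ^ 2 * l1 * mu ^ 4 - 49152 * v02 ^ 2 * mu ^ 4 + 32768
                * v02 ^ 2 * mu ^ 3 + 40960 * v02 ^ 2 * mu ^ 2 - 8192 * v02 ^ 2 * mu - 7168
                * v02 ^ 2 = 0 := by linear_combination t160
            have t161 : (mu) ^ 4 * ((a11) ^ 2 * (-65536 * a11 ^ 2 * v11 * mu ^ 4 + 12288
                * v02 ^ 2 * mu ^ 4 + 4096 * v02 ^ 2 * mu ^ 3 - 4096 * v02 ^ 2 * mu ^ 2 - 1024
                * v02 ^ 2 * mu + 256 * v02 ^ 2)) = 0 := by linear_combination r53
            have t162 := (mul_eq_zero.mp t161).resolve_left (pow_ne_zero 4 n1)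
            have t163 := (mul_eq_zero.mp t162).resolve_left (pow_ne_zero 2 h11)
            have r55 : -65536 * a11 ^ 2 * v11 * mu ^ 4 + 12288 * v02 ^ 2 * mu ^ 4 + 4096
                * v02 ^ 2 * mu ^ 3 - 4096 * v02 ^ 2 * mu ^ 2 - 1024 * v02 ^ 2 * mu + 256
                * v02 ^ 2 = 0 := by linear_combination t163
            have t164 : (mu) ^ 3 * (2 * a11 ^ 2 * v02 * mu + 4 * u02 * v02 * mu ^ 2 + a11 ^ 2
                * v02 + 8 * a11 * q02 * mu - u02 * v02) = 0 := by linear_combination (-4 * a11
                * mu ^ 4) * e1_1_3 + (u02 * mu ^ 3) * r49 + (-a11 ^ 2 * mu ^ 3) * r44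
            have t165 := (mul_eq_zero.mp t164).resolve_left (pow_ne_zero 3 n1)
            have r56 : 2 * a11 ^ 2 * v02 * mu + 4 * u02 * v02 * mu ^ 2 + a11 ^ 2 * v02 + 8
                * a11 * q02 * mu - u02 * v02 = 0 := by linear_combination t165
            have t166 : (mu) ^ 4 * ((a11) ^ 2 * (32 * v02 ^ 2 * mu ^ 5 + 256 * a11 * q11
                * mu ^ 4 + 112 * v02 ^ 2 * mu ^ 4 + 80 * v02 ^ 2 * mu ^ 3 - 24 * v02 ^ 2
                * mu ^ 2 - 22 * v02 ^ 2 * mu - v02 ^ 2)) = 0 := by linear_combination (-128
                * a11 ^ 3 * mu ^ 8) * e2_1_3 + (32 * a11 ^ 2 * u11 * mu ^ 8 - 32 * a11 ^ 2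
                * v02 * mu ^ 8 - 16 * a11 ^ 2 * u11 * mu ^ 7 - 16 * a11 ^ 2 * v02 * mu ^ 7 + 16
                * a11 ^ 2 * u11 * mu ^ 6 + 16 * a11 ^ 2 * v02 * mu ^ 6) * r49 + (1 / 256
                * a11 ^ 2 * mu ^ 4) * r55 + (-16 * a11 ^ 2 * v02 * mu ^ 8 + 8 * a11 ^ 2 * v02
                * mu ^ 7 - 4 * a11 ^ 2 * v02 * mu ^ 6 - 2 * a11 ^ 2 * v02 * mu ^ 5 + 2
                * a11 ^ 2 * v02 * mu ^ 4) * r44
            have t167 := (mul_eq_zero.mp t166).resolve_left (pow_ne_zero 4 n1)
            have t168 := (mul_eq_zero.mp t167).resolve_left (pow_ne_zero 2 h11)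
            have r57 : 32 * v02 ^ 2 * mu ^ 5 + 256 * a11 * q11 * mu ^ 4 + 112 * v02 ^ 2
                * mu ^ 4 + 80 * v02 ^ 2 * mu ^ 3 - 24 * v02 ^ 2 * mu ^ 2 - 22 * v02 ^ 2 * mu
                - v02 ^ 2 = 0 := by linear_combination t168
            by_cases h58 : v02 = 0
            · have t169 : 0 = v02 := by linear_combination (-1) * h58
              subst t169
              have t170 : (mu) ^ 4 * ((a11) ^ 2
                  * (l1)) = 0 := by linear_combination (-1 / 524288) * r54
              have t171 := (mul_eq_zero.mp t170).resolve_left (pow_ne_zero 4 n1)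
              have t172 := (mul_eq_zero.mp t171).resolve_left (pow_ne_zero 2 h11)
              have t173 : 0 = l1 := by linear_combination (-1) * t172
              subst t173
              have t174 : (mu) ^ 2 * ((a11) ^ 1 * (b11)) = 0 := by linear_combination (1 / 16) * r49
              have t175 := (mul_eq_zero.mp t174).resolve_left (pow_ne_zero 2 n1)
              have t176 := (mul_eq_zero.mp t175).resolve_left (pow_ne_zero 1 h11)
              have t177 : 0 = b11 := by linear_combination (-1) * t176
              subst t177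
              have t178 : (mu) ^ 4 * ((a11) ^ 2
                  * (v11)) = 0 := by linear_combination (-1 / 65536) * r55
              have t179 := (mul_eq_zero.mp t178).resolve_left (pow_ne_zero 4 n1)
              have t180 := (mul_eq_zero.mp t179).resolve_left (pow_ne_zero 2 h11)
              have t181 : 0 = v11 := by linear_combination (-1) * t180
              subst t181
              have t182 : (mu) ^ 2 * (u11) = 0 := by linear_combination (1 / 8) * r44
              have t183 := (mul_eq_zero.mp t182).resolve_left (pow_ne_zero 2 n1)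
              have t184 : 0 = u11 := by linear_combination (-1) * t183
              subst t184
              have t185 : (mu) ^ 4 * ((a11) ^ 2 * (u20)) = 0 := by linear_combination (1 / 256)
                  * r51
              have t186 := (mul_eq_zero.mp t185).resolve_left (pow_ne_zero 4 n1)
              have t187 := (mul_eq_zero.mp t186).resolve_left (pow_ne_zero 2 h11)
              have t188 : 0 = u20 := by linear_combination (-1) * t187
              subst t188
              have t189 : (mu) ^ 1 * ((a11) ^ 1 * (q02)) = 0 := by linear_combination (1 / 8) * r56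
              have t190 := (mul_eq_zero.mp t189).resolve_left (pow_ne_zero 1 n1)
              have t191 := (mul_eq_zero.mp t190).resolve_left (pow_ne_zero 1 h11)
              have t192 : 0 = q02 := by linear_combination (-1) * t191
              subst t192
              have t193 : (mu) ^ 4 * ((a11) ^ 1 * (q11)) = 0 := by linear_combination (1 / 256)
                  * r57
              have t194 := (mul_eq_zero.mp t193).resolve_left (pow_ne_zero 4 n1)
              have t195 := (mul_eq_zero.mp t194).resolve_left (pow_ne_zero 1 h11)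
              have t196 : 0 = q11 := by linear_combination (-1) * t195
              subst t196
              by_cases h59 : q20 = 0
              · have t197 : 0 = q20 := by linear_combination (-1) * h59
                subst t197
                exact Or.inr (Or.inr (Or.inr (Or.inr (Or.inl ⟨by ring, by ring, by ring, by ring, by ring, by ring, by ring, by ring, by ring, by ring, by ring, by ring, by ring, by ring, n1, n2, h11, h37⟩))))
              · have t198 : (q20) ^ 1 * (mu - 1) = 0 := by linear_combination (1 / 4) * e1_3_1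
                have t199 := (mul_eq_zero.mp t198).resolve_left (pow_ne_zero 1 h59)
                have t200 : 1 = mu := by linear_combination (-1) * t199
                subst t200
                exfalso
                have t201 : (q20) ^ 1 * (1) = 0 := by linear_combination (-1) * e2_2_2
                have t202 := (mul_eq_zero.mp t201).resolve_left (pow_ne_zero 1 h59)
                exact absurd t202 (by norm_num)
            · by_cases h60 : mu + 1 = 0
              · have t203 : -1 = mu := by linear_combination (-1) * h60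
                subst t203
                have t204 : -1 / 8 * v02 = u11 := by linear_combination (-1 / 8) * r44
                subst t204
                have t205 : (a11) ^ 1 * ((v02) ^ 1 * (2 * a11 ^ 2
                    - u02)) = 0 := by linear_combination (-16 / 9 * a11 ^ 2) * e2_0_4 + (-1 / 9
                    * a11 * u02) * r49 + (-2 / 9 * a11) * r56
                have t206 := (mul_eq_zero.mp t205).resolve_left (pow_ne_zero 1 h11)
                have t207 := (mul_eq_zero.mp t206).resolve_left (pow_ne_zero 1 h58)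
                have t208 : 2 * a11 ^ 2 = u02 := by linear_combination (1) * t207
                subst t208
                have t209 : (a11) ^ 1 * (5 * a11 * v02 - 8 * q02) = 0 := by linear_combination r56
                have t210 := (mul_eq_zero.mp t209).resolve_left (pow_ne_zero 1 h11)
                have r61 : 5 * a11 * v02 - 8 * q02 = 0 := by linear_combination t210
                have t211 : 5 / 8 * a11 * v02 = q02 := by linear_combination (1 / 8) * r61
                subst t211
                have t212 : (a11) ^ 4 * (8192 * a11 ^ 3 * q20 - 27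
                    * v02 ^ 3) = 0 := by linear_combination (-1024 * a11 ^ 7) * e1_3_1
                    + (1 / 512 * a11 ^ 5 * b11) * r54 + (192 * a11 ^ 6 * u20 - 32 * a11 ^ 6
                    * v11 + 39 / 8 * a11 ^ 4 * v02 ^ 2) * r49 + (-3 / 2048 * a11 ^ 4 * v02)
                    * r55 + (-9 / 4 * a11 ^ 4 * v02) * r51
                have t213 := (mul_eq_zero.mp t212).resolve_left (pow_ne_zero 4 h11)
                have r62 : 8192 * a11 ^ 3 * q20 - 27 * v02 ^ 3 = 0 := by linear_combination t213
                exfalso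
                have t214 : (a11) ^ 7 * ((v02) ^ 3
                    * (1)) = 0 := by linear_combination (8192 / 81 * a11 ^ 10) * e2_2_2
                    + (1 / 1728 * a11 ^ 8 * b11) * r54 + (-1024 / 81 * a11 ^ 9 * u20
                    - 1280 / 81 * a11 ^ 9 * v11 + 13 / 9 * a11 ^ 7 * v02 ^ 2) * r49
                    + (-5 / 6912 * a11 ^ 7 * v02) * r55 + (4 / 27 * a11 ^ 7 * v02) * r51
                    + (5 / 81 * a11 ^ 7) * r62
                have t215 := (mul_eq_zero.mp t214).resolve_left (pow_ne_zero 7 h11)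
                have t216 := (mul_eq_zero.mp t215).resolve_left (pow_ne_zero 3 h58)
                exact absurd t216 (by norm_num)
              · by_cases h63 : 2 * mu + 1 = 0
                · have t217 : -1 / 2 = mu := by linear_combination (-1 / 2) * h63
                  subst t217
                  have t218 : (a11) ^ 2 * (l1) = 0 := by linear_combination (-1 / 32768) * r54
                  have t219 := (mul_eq_zero.mp t218).resolve_left (pow_ne_zero 2 h11)
                  have t220 : 0 = l1 := by linear_combination (-1) * t219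
                  subst t220
                  have t221 : (a11) ^ 1 * (b11) = 0 := by linear_combination (1 / 4) * r49
                  have t222 := (mul_eq_zero.mp t221).resolve_left (pow_ne_zero 1 h11)
                  have t223 : 0 = b11 := by linear_combination (-1) * t222
                  subst t223
                  have t224 : (a11) ^ 2 * (v11) = 0 := by linear_combination (-1 / 4096) * r55
                  have t225 := (mul_eq_zero.mp t224).resolve_left (pow_ne_zero 2 h11)
                  have t226 : 0 = v11 := by linear_combination (-1) * t225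
                  subst t226
                  have t227 : -v02 = u11 := by linear_combination (-1 / 2) * r44
                  subst t227
                  have t228 : (a11) ^ 2 * (u20) = 0 := by linear_combination (1 / 16) * r51
                  have t229 := (mul_eq_zero.mp t228).resolve_left (pow_ne_zero 2 h11)
                  have t230 : 0 = u20 := by linear_combination (-1) * t229
                  subst t230
                  have t231 : (a11) ^ 1 * (q02) = 0 := by linear_combination (-1 / 4) * r56
                  have t232 := (mul_eq_zero.mp t231).resolve_left (pow_ne_zero 1 h11)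
                  have t233 : 0 = q02 := by linear_combination (-1) * t232
                  subst t233
                  have t234 : (a11) ^ 1 * (q11) = 0 := by linear_combination (1 / 16) * r57
                  have t235 := (mul_eq_zero.mp t234).resolve_left (pow_ne_zero 1 h11)
                  have t236 : 0 = q11 := by linear_combination (-1) * t235
                  subst t236
                  exfalso
                  have t237 : (a11) ^ 1 * ((v02) ^ 1 * (1)) = 0 := by linear_combination (-1)
                      * e2_0_4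
                  have t238 := (mul_eq_zero.mp t237).resolve_left (pow_ne_zero 1 h11)
                  have t239 := (mul_eq_zero.mp t238).resolve_left (pow_ne_zero 1 h58)
                  exact absurd t239 (by norm_num)
                · have t240 : (mu) ^ 17 * ((a11) ^ 7 * ((2 * mu - 1) ^ 2 * ((v02) ^ 2 * ((mu
                      + 1) ^ 1 * ((2 * mu + 1) ^ 1 * (2 * mu
                      + 7)))))) = 0 := by linear_combination (-64 * a11 ^ 8 * mu ^ 20) * e1_2_2
                      + (-1 / 8192 * a11 ^ 7 * mu ^ 16) * r54 + (16 * a11 ^ 7 * u11 * mu ^ 19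
                      - 8 * a11 ^ 7 * v02 * mu ^ 19 + 4 * a11 ^ 7 * u11 * mu ^ 18 - 12
                      * a11 ^ 7 * v02 * mu ^ 18) * r49 + (1 / 2048 * a11 ^ 7 * mu ^ 16) * r55
                      + (-8 * a11 ^ 7 * v02 * mu ^ 19 - 2 * a11 ^ 7 * v02 * mu ^ 18 + 2
                      * a11 ^ 7 * v02 * mu ^ 17 + 1 / 2 * a11 ^ 7 * v02 * mu ^ 16) * r44
                      + (-1 / 4 * a11 ^ 7 * mu ^ 16) * r51 + (1 / 2 * a11 ^ 7 * mu ^ 17 - 3 / 4
                      * a11 ^ 7 * mu ^ 16) * r57
                  have t241 := (mul_eq_zero.mp t240).resolve_left (pow_ne_zero 17 n1)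
                  have t242 := (mul_eq_zero.mp t241).resolve_left (pow_ne_zero 7 h11)
                  have t243 := (mul_eq_zero.mp t242).resolve_left (pow_ne_zero 2 h37)
                  have t244 := (mul_eq_zero.mp t243).resolve_left (pow_ne_zero 2 h58)
                  have t245 := (mul_eq_zero.mp t244).resolve_left (pow_ne_zero 1 h60)
                  have t246 := (mul_eq_zero.mp t245).resolve_left (pow_ne_zero 1 h63)
                  have t247 : -7 / 2 = mu := by linear_combination (-1 / 2) * t246
                  subst t247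
                  have t248 : 32 / 49 * v02 = u11 := by linear_combination (-1 / 98) * r44
                  subst t248
                  have t249 : (a11) ^ 1 * ((v02) ^ 1 * (7 * a11 ^ 2 - 36
                      * u02)) = 0 := by linear_combination (-49 / 16 * a11 ^ 2) * e2_0_4
                      + (-3 / 32 * a11 * u02) * r49 + (-21 / 32 * a11) * r56
                  have t250 := (mul_eq_zero.mp t249).resolve_left (pow_ne_zero 1 h11)
                  have t251 := (mul_eq_zero.mp t250).resolve_left (pow_ne_zero 1 h58)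
                  have t252 : 7 / 36 * a11 ^ 2 = u02 := by linear_combination (1 / 36) * t251
                  subst t252
                  have t253 : (a11) ^ 1 * (10 / 3 * a11 * v02 - 28
                      * q02) = 0 := by linear_combination r56
                  have t254 := (mul_eq_zero.mp t253).resolve_left (pow_ne_zero 1 h11)
                  have r64 : 10 / 3 * a11 * v02 - 28 * q02 = 0 := by linear_combination t254
                  have t255 : 5 / 42 * a11 * v02 = q02 := by linear_combination (1 / 28) * r64
                  subst t255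
                  have t256 : (a11) ^ 4 * (117649 * a11 ^ 3 * q20 - 144
                      * v02 ^ 3) = 0 := by linear_combination (-117649 / 18 * a11 ^ 7) * e1_3_1
                      + (49 / 589824 * a11 ^ 5 * b11) * r54 + (2401 / 24 * a11 ^ 6 * u20
                      - 2401 / 144 * a11 ^ 6 * v11 + 7 / 2 * a11 ^ 4 * v02 ^ 2) * r49
                      + (-1 / 12288 * a11 ^ 4 * v02) * r55 + (-1 / 8 * a11 ^ 4 * v02) * r51
                  have t257 := (mul_eq_zero.mp t256).resolve_left (pow_ne_zero 4 h11)
                  have r65 : 117649 * a11 ^ 3 * q20 - 144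
                      * v02 ^ 3 = 0 := by linear_combination t257
                  exfalso
                  have t258 : (a11) ^ 7 * ((v02) ^ 3
                      * (1)) = 0 := by linear_combination (117649 / 1152 * a11 ^ 10) * e2_2_2
                      + (49 / 4718592 * a11 ^ 8 * b11) * r54 + (-2401 / 2304 * a11 ^ 9 * u20
                      - 12005 / 4608 * a11 ^ 9 * v11 + 7 / 16 * a11 ^ 7 * v02 ^ 2) * r49
                      + (-5 / 393216 * a11 ^ 7 * v02) * r55 + (1 / 768 * a11 ^ 7 * v02) * r51
                      + (5 / 576 * a11 ^ 7) * r65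
                  have t259 := (mul_eq_zero.mp t258).resolve_left (pow_ne_zero 7 h11)
                  have t260 := (mul_eq_zero.mp t259).resolve_left (pow_ne_zero 3 h58)
                  exact absurd t260 (by norm_num)
      · have t261 : (b20) ^ 2 * (mu - 1) = 0 := by linear_combination (1 / 8 * mu - 1 / 4)
            * e2_3_0 + (1 / 8 * b20) * r3
        have t262 := (mul_eq_zero.mp t261).resolve_left (pow_ne_zero 2 h9)
        have t263 : 1 = mu := by linear_combination (-1) * t262
        subst t263
        have t264 : 4 * b20 = c11 := by linear_combination r3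
        subst t264
        have t265 : 2 * a11 * b11 - 1 / 2 * u11 + 2 * v02 = l2 := by linear_combination (1 / 2) * r8
        subst t265
        have t266 : 8 * a11 * b20 - 2 * b11 ^ 2 - u20 + 3 / 2
            * v11 = l1 := by linear_combination (1 / 2) * r6
        subst t266
        have t267 : (b20) ^ 1 * (b11) = 0 := by linear_combination (1 / 6) * e2_2_1
        have t268 := (mul_eq_zero.mp t267).resolve_left (pow_ne_zero 1 h9)
        have t269 : 0 = b11 := by linear_combination (-1) * t268
        subst t269
        have t270 : 1 / 2 * u11 = v02 := by linear_combination (1 / 2) * e1_1_2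
        subst t270
        have t271 : 2 * a11 * b20 + u20 = v11 := by linear_combination (1 / 2) * e1_2_1
        subst t271
        have t272 : 0 = u11 := by linear_combination (-2 / 3) * f_0_3
        subst t272
        have t273 : -26 * a11 * b20 = u20 := by linear_combination (-1 / 2) * f_1_2
        subst t273
        have t274 : 0 = q02 := by linear_combination (1 / 2) * e1_1_3
        subst t274
        have t275 : 0 = q20 := by linear_combination e2_2_2
        subst t275
        have t276 : (b20) ^ 2 * (a11) = 0 := by linear_combination (-1 / 64) * e1_4_0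
        have t277 := (mul_eq_zero.mp t276).resolve_left (pow_ne_zero 2 h9)
        have t278 : 0 = a11 := by linear_combination (-1) * t277
        subst t278
        have t279 : 8 * b20 * u02 = q11 := by linear_combination e1_2_2
        subst t279
        have t280 : (b20) ^ 1 * (u02) = 0 := by linear_combination (-1 / 12) * e2_1_3
        have t281 := (mul_eq_zero.mp t280).resolve_left (pow_ne_zero 1 h9)
        have t282 : 0 = u02 := by linear_combination (-1) * t281
        subst t282
        exact Or.inr (Or.inr (Or.inr (Or.inr (Or.inr (Or.inl ⟨by ring, by ring, by ring, by ring, by ring, by ring, by ring, by ring, by ring, by ring, by ring, by ring, by ring, by ring, by ring, by ring, h9⟩)))))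
    · have t283 : (mu) ^ 1 * ((a02) ^ 1 * (b11)) = 0 := by linear_combination (1 / 4) * e1_0_3
      have t284 := (mul_eq_zero.mp t283).resolve_left (pow_ne_zero 1 n1)
      have t285 := (mul_eq_zero.mp t284).resolve_left (pow_ne_zero 1 h7)
      have t286 : 0 = b11 := by linear_combination (-1) * t285
      subst t286
      by_cases h66 : b20 = 0
      · have t287 : 0 = b20 := by linear_combination (-1) * h66
        subst t287
        have t288 : (mu - 2) ^ 1 * (c11) = 0 := by linear_combination r3
        have t289 := (mul_eq_zero.mp t288).resolve_left (pow_ne_zero 1 n2)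
        have t290 : 0 = c11 := by linear_combination (-1) * t289
        subst t290
        have t291 : (mu - 2) ^ 1 * (-u11 * mu + 2 * v02 * mu - 2 * l2 * mu + 2
            * v02) = 0 := by linear_combination r5
        have t292 := (mul_eq_zero.mp t291).resolve_left (pow_ne_zero 1 n2)
        have r67 : -u11 * mu + 2 * v02 * mu - 2 * l2 * mu + 2
            * v02 = 0 := by linear_combination t292
        have t293 : (mu - 2) ^ 1 * (2 * u20 * mu + v11 * mu + 2 * l1 * mu - 4
            * v11) = 0 := by linear_combination r6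
        have t294 := (mul_eq_zero.mp t293).resolve_left (pow_ne_zero 1 n2)
        have r68 : 2 * u20 * mu + v11 * mu + 2 * l1 * mu - 4 * v11 = 0 := by linear_combination t294
        by_cases h69 : 2 * mu - 1 = 0
        · have t295 : 1 / 2 = mu := by linear_combination (-1 / 2) * h69
          subst t295
          have t296 : -1 / 2 * u11 + 3 * v02 = l2 := by linear_combination r67
          subst t296
          have t297 : -u20 + 7 / 2 * v11 = l1 := by linear_combination (-1) * r68
          subst t297
          have t298 : 1 / 4 * u11 = v02 := by linear_combination (-1 / 4) * f_0_3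
          subst t298
          have t299 : 2 / 5 * u20 = v11 := by linear_combination (-1 / 5) * f_1_2
          subst t299
          have t300 : 0 = q20 := by linear_combination (1 / 2) * e1_3_1
          subst t300
          have t301 : -2 / 5 * a11 * u20 = q11 := by linear_combination (1 / 2) * e1_2_2
          subst t301
          have t302 : -1 / 8 * a11 * u11 - 1 / 5 * a02
              * u20 = q02 := by linear_combination (1 / 2) * e1_1_3
          subst t302
          by_cases h70 : u20 = 0
          · have t303 : 0 = u20 := by linear_combination (-1) * h70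
            subst t303
            by_cases h71 : u11 = 0
            · have t304 : 0 = u11 := by linear_combination (-1) * h71
              subst t304
              exact Or.inr (Or.inr (Or.inr (Or.inr (Or.inr (Or.inr (Or.inl ⟨by ring, by ring, by ring, by ring, by ring, by ring, by ring, by ring, by ring, by ring, by ring, by ring, by ring, by ring, h7⟩))))))
            · exfalso
              have t305 : (u11) ^ 2 * (1) = 0 := by linear_combination (8 / 3) * e1_2_3
              have t306 := (mul_eq_zero.mp t305).resolve_left (pow_ne_zero 2 h71)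
              exact absurd t306 (by norm_num)
          · exfalso
            have t307 : (u20) ^ 2 * (1) = 0 := by linear_combination (25 / 12) * e1_4_1
            have t308 := (mul_eq_zero.mp t307).resolve_left (pow_ne_zero 2 h70)
            exact absurd t308 (by norm_num)
        · have t309 : (2 * mu - 1) ^ 1 * (u20 * mu - v11) = 0 := by linear_combination (1 / 2
              * mu) * e1_2_1 + (1 / 4 * mu - 1 / 4) * r68
          have t310 := (mul_eq_zero.mp t309).resolve_left (pow_ne_zero 1 h69)
          have t311 : u20 * mu = v11 := by linear_combination (1) * t310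
          subst t311
          have t312 : (mu) ^ 1 * (u20 * mu - 2 * u20 + 2 * l1) = 0 := by linear_combination r68
          have t313 := (mul_eq_zero.mp t312).resolve_left (pow_ne_zero 1 n1)
          have r72 : u20 * mu - 2 * u20 + 2 * l1 = 0 := by linear_combination t313
          have t314 : -1 / 2 * u20 * mu + u20 = l1 := by linear_combination (-1 / 2) * r72
          subst t314
          have t315 : (2 * mu - 1) ^ 1 * (u11 * mu - v02 * mu
              - v02) = 0 := by linear_combination (mu) * e1_1_2 + (-1 / 2 * mu + 1 / 2) * r67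
          have t316 := (mul_eq_zero.mp t315).resolve_left (pow_ne_zero 1 h69)
          have r73 : u11 * mu - v02 * mu - v02 = 0 := by linear_combination t316
          have r74 : v02 * mu ^ 2 - 2 * l2 * mu ^ 2 + v02
              * mu = 0 := by linear_combination (mu) * r67 + (mu) * r73
          have t317 : (mu) ^ 1 * (v02 * mu - 2 * l2 * mu + v02) = 0 := by linear_combination r74
          have t318 := (mul_eq_zero.mp t317).resolve_left (pow_ne_zero 1 n1)
          have r75 : v02 * mu - 2 * l2 * mu + v02 = 0 := by linear_combination t318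
          have t319 : (mu) ^ 2 * (u20) = 0 := by linear_combination (1 / 2) * f_1_2
          have t320 := (mul_eq_zero.mp t319).resolve_left (pow_ne_zero 2 n1)
          have t321 : 0 = u20 := by linear_combination (-1) * t320
          subst t321
          by_cases h76 : v02 = 0
          · have t322 : 0 = v02 := by linear_combination (-1) * h76
            subst t322
            have t323 : (mu) ^ 1 * (l2) = 0 := by linear_combination (-1 / 2) * r75
            have t324 := (mul_eq_zero.mp t323).resolve_left (pow_ne_zero 1 n1)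
            have t325 : 0 = l2 := by linear_combination (-1) * t324
            subst t325
            have t326 : (mu) ^ 1 * (u11) = 0 := by linear_combination r73
            have t327 := (mul_eq_zero.mp t326).resolve_left (pow_ne_zero 1 n1)
            have t328 : 0 = u11 := by linear_combination (-1) * t327
            subst t328
            have t329 : 0 = q02 := by linear_combination (1 / 2) * e1_1_3
            subst t329
            have t330 : 0 = q11 := by linear_combination (1 / 2) * e2_1_3
            subst t330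
            by_cases h77 : q20 = 0
            · have t331 : 0 = q20 := by linear_combination (-1) * h77
              subst t331
              exact Or.inr (Or.inr (Or.inr (Or.inr (Or.inr (Or.inr (Or.inr (Or.inl ⟨by ring, by ring, by ring, by ring, by ring, by ring, by ring, by ring, by ring, by ring, by ring, by ring, by ring, n1, n2, h7, h69⟩)))))))
            · have t332 : (q20) ^ 1 * (mu - 1) = 0 := by linear_combination (1 / 4) * e1_3_1
              have t333 := (mul_eq_zero.mp t332).resolve_left (pow_ne_zero 1 h77)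
              have t334 : 1 = mu := by linear_combination (-1) * t333
              subst t334
              exfalso
              have t335 : (q20) ^ 1 * (1) = 0 := by linear_combination (-1) * e2_2_2
              have t336 := (mul_eq_zero.mp t335).resolve_left (pow_ne_zero 1 h77)
              exact absurd t336 (by norm_num)
          · have t337 : (mu) ^ 3 * ((v02) ^ 1 * (2 * mu
                + 1)) = 0 := by linear_combination (mu ^ 2) * f_0_3 + (2 * mu ^ 3) * r75
                + (mu ^ 2) * r73
            have t338 := (mul_eq_zero.mp t337).resolve_left (pow_ne_zero 3 n1)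
            have t339 := (mul_eq_zero.mp t338).resolve_left (pow_ne_zero 1 h76)
            have t340 : -1 / 2 = mu := by linear_combination (-1 / 2) * t339
            subst t340
            have t341 : -1 / 2 * v02 = l2 := by linear_combination (-1) * r75
            subst t341
            have t342 : -v02 = u11 := by linear_combination (2) * r73
            subst t342
            exfalso
            have t343 : (a02) ^ 1 * ((v02) ^ 1 * (1)) = 0 := by linear_combination e1_0_4
            have t344 := (mul_eq_zero.mp t343).resolve_left (pow_ne_zero 1 h7)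
            have t345 := (mul_eq_zero.mp t344).resolve_left (pow_ne_zero 1 h76)
            exact absurd t345 (by norm_num)
      · have t346 : (b20) ^ 2 * (mu - 1) = 0 := by linear_combination (1 / 8 * mu - 1 / 4)
            * e2_3_0 + (1 / 8 * b20) * r3
        have t347 := (mul_eq_zero.mp t346).resolve_left (pow_ne_zero 2 h66)
        have t348 : 1 = mu := by linear_combination (-1) * t347
        subst t348
        have t349 : 4 * b20 = c11 := by linear_combination r3
        subst t349
        have t350 : 4 * a02 * b20 - 1 / 2 * u11 + 2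
            * v02 = l2 := by linear_combination (-1 / 2) * r5
        subst t350
        have t351 : 8 * a11 * b20 - u20 + 3 / 2 * v11 = l1 := by linear_combination (1 / 2) * r6
        subst t351
        have t352 : 4 * a02 * b20 + 1 / 2 * u11 = v02 := by linear_combination (1 / 2) * e1_1_2
        subst t352
        have t353 : 2 * a11 * b20 + u20 = v11 := by linear_combination (1 / 2) * e1_2_1
        subst t353
        have t354 : -32 * a02 * b20 = u11 := by linear_combination (-2 / 3) * f_0_3
        subst t354
        have t355 : -26 * a11 * b20 = u20 := by linear_combination (-1 / 2) * f_1_2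
        subst t355
        exfalso
        have t356 : (a02) ^ 1 * ((b20) ^ 2 * (1)) = 0 := by linear_combination (-1 / 160) * e1_3_1
        have t357 := (mul_eq_zero.mp t356).resolve_left (pow_ne_zero 1 h7)
        have t358 := (mul_eq_zero.mp t357).resolve_left (pow_ne_zero 2 h66)
        exact absurd t358 (by norm_num)
  · have t359 : (c20) ^ 1 * (2 * mu - 3) = 0 := by linear_combination e2_2_0
    have t360 := (mul_eq_zero.mp t359).resolve_left (pow_ne_zero 1 h4)
    have t361 : 3 / 2 = mu := by linear_combination (-1 / 2) * t360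
    subst t361
    have t362 : 12 * b20 = c11 := by linear_combination (2) * r3
    subst t362
    have t363 : b11 = s21 := by linear_combination (4 / 27) * f_0_2
    subst t363
    have t364 : 1 / 2 * a11 * c20 = v20 := by linear_combination (1 / 2) * e1_3_0
    subst t364
    have t365 : 6 * a11 * b11 + 48 * a02 * b20 + 7 / 2 * u11 - 5
        * v02 = l2 := by linear_combination (2) * e1_1_2
    subst t365
    have t366 : 3 / 5 * a11 * b11 + 6 * a02 * b20 + 3 / 5
        * u11 = v02 := by linear_combination (1 / 10) * e2_0_3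
    subst t366
    have t367 : 24 * a11 * b20 + 4 * a02 * c20 + 7 * u20 - 9 / 2
        * v11 = l1 := by linear_combination (2) * e1_2_1
    subst t367
    have t368 : 3 / 2 * a11 * b20 + 1 / 2 * a02 * c20 + 1 / 4 * b11 ^ 2 + 3 / 2
        * u20 = v11 := by linear_combination (1 / 8) * e2_1_2
    subst t368
    have r78 : 4 * b20 ^ 2 - b11 * c20 = 0 := by linear_combination (-1 / 2) * e2_3_0
    have r79 : a11 * c20 ^ 2 - 16 * b20 ^ 3 = 0 := by linear_combination (-1 / 3 * c20)
        * e2_2_1 + (-4 * b20) * r78
    by_cases h80 : a02 = 0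
    · have t369 : 0 = a02 := by linear_combination (-1) * h80
      subst t369
      have r81 : 544 * b20 ^ 5 + c20 ^ 3 * u11 = 0 := by linear_combination (5 / 18 * c20 ^ 3)
          * f_0_3 + (17 / 2 * a11 * c20 ^ 2) * r78 + (-34 * b20 ^ 2) * r79
      have t370 : (c20) ^ 2 * (552 * b20 ^ 4 + c20 ^ 2
          * u20) = 0 := by linear_combination (2 / 9 * c20 ^ 4) * f_1_2 + (-10 * b20 ^ 2
          * c20 ^ 2 - 5 / 2 * b11 * c20 ^ 3) * r78 + (-37 * b20 * c20 ^ 2) * r79
      have t371 := (mul_eq_zero.mp t370).resolve_left (pow_ne_zero 2 h4)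
      have r82 : 552 * b20 ^ 4 + c20 ^ 2 * u20 = 0 := by linear_combination t371
      have r83 : 1536 * b20 ^ 8 + 12 * b20 ^ 2 * c20 ^ 4 * u02 - c20 ^ 5
          * q02 = 0 := by linear_combination (1 / 2 * c20 ^ 5) * e1_1_3 + (3 / 2 * a11 ^ 2
          * c20 ^ 4 + 3 * c20 ^ 4 * u02) * r78 + (-6 * a11 * b20 ^ 2 * c20 ^ 2 - 96 * b20 ^ 5) * r79
      have t372 : (c20) ^ 7 * (9856 * b20 ^ 7 + 4 * b20 * c20 ^ 4 * u02 - c20 ^ 4
          * q11) = 0 := by linear_combination (1 / 2 * c20 ^ 11) * e2_1_3 + (-13 * a11
          * b20 ^ 2 * c20 ^ 9 - 13 / 4 * a11 * b11 * c20 ^ 10 + c20 ^ 10 * u11) * r78 + (3 / 2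
          * a11 * b20 * c20 ^ 9 + 76 * b20 ^ 4 * c20 ^ 7 + 3 / 2 * c20 ^ 9 * u20) * r79 + (-4
          * b20 ^ 2 * c20 ^ 7) * r81 + (24 * b20 ^ 3 * c20 ^ 7) * r82
      have t373 := (mul_eq_zero.mp t372).resolve_left (pow_ne_zero 7 h4)
      have r84 : 9856 * b20 ^ 7 + 4 * b20 * c20 ^ 4 * u02 - c20 ^ 4
          * q11 = 0 := by linear_combination t373
      have t374 : (c20) ^ 9 * (6304 * b20 ^ 6 - c20 ^ 4 * u02 - c20 ^ 3
          * q20) = 0 := by linear_combination (-1 / 2 * c20 ^ 12) * e1_3_1 + (54 / 5 * a11
          * b20 * c20 ^ 11 - 8 * b20 ^ 4 * c20 ^ 9 - 2 * b20 ^ 2 * b11 * c20 ^ 10 - 1 / 2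
          * b11 ^ 2 * c20 ^ 11 - c20 ^ 11 * u20) * r78 + (-1 / 4 * a11 * c20 ^ 11 - 236 / 5
          * b20 ^ 3 * c20 ^ 9) * r79 + (31 / 5 * b20 * c20 ^ 9) * r81 + (4 * b20 ^ 2 * c20 ^ 9)
          * r82
      have t375 := (mul_eq_zero.mp t374).resolve_left (pow_ne_zero 9 h4)
      have r85 : 6304 * b20 ^ 6 - c20 ^ 4 * u02 - c20 ^ 3 * q20 = 0 := by linear_combination t375
      by_cases h86 : b20 = 0
      · have t376 : 0 = b20 := by linear_combination (-1) * h86
        subst t376
        have t377 : (c20) ^ 1 * (b11) = 0 := by linear_combination (-1) * r78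
        have t378 := (mul_eq_zero.mp t377).resolve_left (pow_ne_zero 1 h4)
        have t379 : 0 = b11 := by linear_combination (-1) * t378
        subst t379
        have t380 : (c20) ^ 2 * (a11) = 0 := by linear_combination r79
        have t381 := (mul_eq_zero.mp t380).resolve_left (pow_ne_zero 2 h4)
        have t382 : 0 = a11 := by linear_combination (-1) * t381
        subst t382
        have t383 : (c20) ^ 3 * (u11) = 0 := by linear_combination r81
        have t384 := (mul_eq_zero.mp t383).resolve_left (pow_ne_zero 3 h4)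
        have t385 : 0 = u11 := by linear_combination (-1) * t384
        subst t385
        have t386 : (c20) ^ 2 * (u20) = 0 := by linear_combination r82
        have t387 := (mul_eq_zero.mp t386).resolve_left (pow_ne_zero 2 h4)
        have t388 : 0 = u20 := by linear_combination (-1) * t387
        subst t388
        have t389 : (c20) ^ 5 * (q02) = 0 := by linear_combination (-1) * r83
        have t390 := (mul_eq_zero.mp t389).resolve_left (pow_ne_zero 5 h4)
        have t391 : 0 = q02 := by linear_combination (-1) * t390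
        subst t391
        have t392 : (c20) ^ 4 * (q11) = 0 := by linear_combination (-1) * r84
        have t393 := (mul_eq_zero.mp t392).resolve_left (pow_ne_zero 4 h4)
        have t394 : 0 = q11 := by linear_combination (-1) * t393
        subst t394
        have t395 : (c20) ^ 3 * (-c20 * u02 - q20) = 0 := by linear_combination r85
        have t396 := (mul_eq_zero.mp t395).resolve_left (pow_ne_zero 3 h4)
        have r87 : -c20 * u02 - q20 = 0 := by linear_combination t396
        have t397 : -c20 * u02 = q20 := by linear_combination r87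
        subst t397
        exact Or.inr (Or.inr (Or.inr (Or.inr (Or.inr (Or.inr (Or.inr (Or.inr (Or.inl ⟨by ring, by ring, by ring, by ring, by ring, by ring, by ring, by ring, by ring, by ring, by ring, by ring, by ring, by ring, by ring, h4⟩))))))))
      · exfalso
        have t398 : (c20) ^ 7 * ((b20) ^ 5 * (1)) = 0 := by linear_combination (-1 / 1920
            * c20 ^ 9) * e1_4_0 + (-1 / 480 * b20 ^ 3 * c20 ^ 7 - 1 / 1920 * b20 * b11
            * c20 ^ 8) * r78 + (-3 / 320 * b20 ^ 2 * c20 ^ 7) * r79 + (1 / 1920 * c20 ^ 7)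
            * r81 + (1 / 960 * b20 * c20 ^ 7) * r82
        have t399 := (mul_eq_zero.mp t398).resolve_left (pow_ne_zero 7 h4)
        have t400 := (mul_eq_zero.mp t399).resolve_left (pow_ne_zero 5 h86)
        exact absurd t400 (by norm_num)
    · by_cases h88 : b20 = 0
      · have t401 : 0 = b20 := by linear_combination (-1) * h88
        subst t401
        have t402 : (c20) ^ 1 * (b11) = 0 := by linear_combination (-1) * r78
        have t403 := (mul_eq_zero.mp t402).resolve_left (pow_ne_zero 1 h4)
        have t404 : 0 = b11 := by linear_combination (-1) * t403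
        subst t404
        have t405 : (c20) ^ 2 * (a11) = 0 := by linear_combination r79
        have t406 := (mul_eq_zero.mp t405).resolve_left (pow_ne_zero 2 h4)
        have t407 : 0 = a11 := by linear_combination (-1) * t406
        subst t407
        have t408 : 0 = u11 := by linear_combination (-5 / 18) * f_0_3
        subst t408
        have t409 : -3 * a02 * c20 = u20 := by linear_combination (-2 / 9) * f_1_2
        subst t409
        have t410 : 0 = q11 := by linear_combination (1 / 2) * e2_1_3
        subst t410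
        have t411 : a02 ^ 2 * c20 = q02 := by linear_combination (1 / 2) * e1_1_3
        subst t411
        have t412 : -c20 * u02 = q20 := by linear_combination (-1 / 2) * e1_3_1
        subst t412
        exact Or.inr (Or.inr (Or.inr (Or.inr (Or.inr (Or.inr (Or.inr (Or.inr (Or.inr (⟨by ring, by ring, by ring, by ring, by ring, by ring, by ring, by ring, by ring, by ring, by ring, by ring, by ring, by ring, h4, h80⟩)))))))))
      · exfalso
        have t413 : (a02) ^ 1 * ((b20) ^ 2 * (1)) = 0 := by linear_combination (1 / 24 * c20)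
            * e1_0_3 + (1 / 4 * a02) * r78
        have t414 := (mul_eq_zero.mp t413).resolve_left (pow_ne_zero 1 h80)
        have t415 := (mul_eq_zero.mp t414).resolve_left (pow_ne_zero 2 h88)
        exact absurd t415 (by norm_num)

end Pool.Agent.H38.FM
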