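import Mathlib

/-!
# Elimination tree `L2` (generated)
-/

set_option linter.unusedVariables false
set_option linter.style.longLine false

noncomputable section

namespace Pool.Agent.H38.FM

theorem tree_L2
    (a02 b20 b11 b02 c20 c11 c02 u20 u11 u02 v20 v11 v02 q20 q11 q02 s1 s2 s11 s12 s21 s22 l1 l2 : ℂ)
    (e1_1_0 : s1 = 0)
    (e1_0_1 : 2 * s2 - 2 = 0)
    (e1_2_0 : b20 * s2 - 3 * b20 + s11 = 0)
    (e1_1_1 : b11 * s2 + 3 / 2 * b02 * s1 - 4 * b11 + s12 + 2 * s21 = 0)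
    (e1_0_2 : a02 * s1 + b02 * s2 - 2 * b02 + 2 * s22 = 0)
    (e1_3_0 : -b20 * b11 + b20 * s21 + 3 / 2 * b02 * c20 + u20 * s1 + 1 / 2 * v20 * s2 - 5 / 2
        * v20 = 0)
    (e1_2_1 : 2 * a02 * c20 - 7 / 2 * b20 * b02 + b20 * s22 - b11 ^ 2 + b11 * s21 + 3 / 2 * b02
        * c11 + 3 / 2 * b02 * s11 + 1 / 2 * u20 * s2 + u11 * s1 + 1 / 2 * v11 * s2 + 9 / 2
        * u20 - 3 * v11 - l1 = 0)
    (e1_1_2 : -2 * a02 * b20 + 2 * a02 * c11 + a02 * s11 - 3 * b11 * b02 + b11 * s22 + 3 / 2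
        * b02 * c02 + 3 / 2 * b02 * s12 + b02 * s21 + 1 / 2 * u11 * s2 + u02 * s1 + 1 / 2 * v02
        * s2 + 2 * u11 - 7 / 2 * v02 - l2 = 0)
    (e1_0_3 : -a02 * b11 + 2 * a02 * c02 + a02 * s12 - 1 / 2 * b02 ^ 2 + b02 * s22 + 1 / 2
        * u02 * s2 - 1 / 2 * u02 = 0)
    (e1_3_1 : -1 / 2 * b20 * u11 - b20 * v02 - b20 * l2 + 3 / 2 * b11 * u20 - b11 * v11 - b11
        * l1 - 7 / 4 * b02 * v20 + 2 * c20 * u02 + c11 * u11 + u20 * s12 + 1 / 2 * u20 * s21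
        + u11 * s11 + 1 / 2 * v20 * s22 + 1 / 2 * v11 * s21 + q20 * s2 + q11 * s1 + 3 * q20 = 0)
    (e1_2_2 : -2 * b20 * u02 - 3 / 2 * b11 * v02 - b11 * l2 + 5 / 4 * b02 * u20 - 3 / 2 * b02
        * v11 + 1 / 2 * b02 * l1 + 2 * c11 * u02 + c02 * u11 + 1 / 2 * u20 * s22 + u11 * s12
        + 1 / 2 * u11 * s21 + u02 * s11 + 1 / 2 * v11 * s22 + 1 / 2 * v02 * s21 + q11 * s2
        + q02 * s1 = 0)
    (e1_1_3 : -a02 * u20 + 1 / 2 * a02 * v11 + a02 * l1 - 3 / 2 * b11 * u02 + 1 / 2 * b02 * u11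
        - 5 / 4 * b02 * v02 + 1 / 2 * b02 * l2 + 2 * c02 * u02 + 1 / 2 * u11 * s22 + u02 * s12
        + 1 / 2 * u02 * s21 + 1 / 2 * v02 * s22 + q02 * s2 - 3 * q02 = 0)
    (e2_2_0 : b20 * s1 + c20 * s2 = 0)
    (e2_1_1 : b11 * s1 + c11 * s2 + 4 * b20 - c11 + 2 * s11 = 0)
    (e2_0_2 : b02 * s1 + c02 * s2 + 2 * b11 - 2 * c02 + 2 * s12 = 0)
    (e2_2_1 : 3 * b20 * b11 - 2 * b20 * c02 + b20 * s12 + b11 * s11 - b02 * c20 + c20 * s22
        + c11 * s21 + 1 / 2 * u20 * s1 + v20 * s2 + 1 / 2 * v11 * s1 = 0)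
    (e2_1_2 : -2 * a02 * c20 + 2 * b20 * b02 + b11 ^ 2 - b11 * c02 + b11 * s12 - 1 / 2 * b02
        * c11 + b02 * s11 + c11 * s22 + c02 * s21 + 1 / 2 * u11 * s1 + v11 * s2 + 1 / 2 * v02
        * s1 + 2 * u20 - 2 * v11 + 2 * l1 = 0)
    (e2_0_3 : -a02 * c11 + b11 * b02 + b02 * s12 + c02 * s22 + 1 / 2 * u02 * s1 + v02 * s2
        + u11 - 4 * v02 + 2 * l2 = 0)
    (e2_2_2 : 3 / 2 * b20 * u11 - 2 * b20 * v02 + b20 * l2 + 3 / 2 * b11 * u20 + b11 * l1 - b02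
        * v20 + 1 / 2 * c11 * v02 - c11 * l2 - 1 / 2 * c02 * v11 - c02 * l1 + 1 / 2 * u20 * s12
        + 1 / 2 * u11 * s11 + v20 * s22 + 1 / 2 * v11 * s12 + v11 * s21 + 1 / 2 * v02 * s11
        + q20 * s2 + q11 * s1 = 0)
    (e2_1_3 : -2 * a02 * v20 + b20 * u02 + b11 * u11 - 3 / 2 * b11 * v02 + b11 * l2 + b02 * u20
        - b02 * v11 + b02 * l1 + 1 / 2 * c11 * u02 + 1 / 2 * c02 * u11 - c02 * l2 + 1 / 2 * u11
        * s12 + 1 / 2 * u02 * s11 + v11 * s22 + 1 / 2 * v02 * s12 + v02 * s21 + q11 * s2 + q02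
        * s1 - 3 * q11 = 0)
    (e2_0_4 : -a02 * v11 + 1 / 2 * b11 * u02 + 1 / 2 * b02 * u11 - b02 * v02 + b02 * l2 + c02
        * u02 + 1 / 2 * u02 * s12 + v02 * s22 + q02 * s2 - 6 * q02 = 0)
    (f_0_2 : 4 * b11 * s2 - 12 * b02 * s1 - c02 * s2 + 2 * c02 - 8 * s21 = 0)
    (f_1_2 : -2 * a02 * c20 * s2 + 3 * a02 * c11 * s1 + 4 * b20 * b02 * s2 + 2 * b11 ^ 2 * s2
        - 6 * b11 * b02 * s1 - 3 * b02 * c11 * s2 + 9 / 2 * b02 * c02 * s1 - 4 * a02 * c20 + 8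
        * b20 * s22 - b11 * c02 - 4 * b11 * s21 + b02 * c11 - 12 * b02 * s11 - 2 * c11 * s22
        + c02 * s21 + 4 * u20 * s2 - 6 * u11 * s1 + 2 * v11 * s2 - 3 * v02 * s1 - 8 * u20 + 4
        * v11 + 16 * l1 = 0)
    (f_0_3 : -a02 * c11 * s2 + 4 * a02 * c02 * s1 + 2 * b11 * b02 * s2 - 4 * b02 ^ 2 * s1
        - 3 / 2 * b02 * c02 * s2 - 2 * a02 * c11 + 4 * b11 * s22 + 3 * b02 * c02 - 4 * b02
        * s12 - 8 * b02 * s21 - c02 * s22 + 2 * u11 * s2 - 8 * u02 * s1 + v02 * s2 - 4 * u11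
        + 16 * l2 = 0)
    (hD : ∃ x y : ℂ, (x ^ 4 * q20 + x ^ 3 * y * q11 + x ^ 2 * y ^ 2 * q02 + x ^ 3 * u20 + x ^ 2
        * y * u11 + x * y ^ 2 * u02 + 3 / 2 * x * y * b02 + y ^ 2 * a02 + x) * (x ^ 2 * y ^ 2
        * q20 + x * y ^ 3 * q11 + y ^ 4 * q02 + x ^ 2 * y * v20 + x * y ^ 2 * v11 + y ^ 3 * v02
        + x ^ 2 * c20 + x * y * c11 + y ^ 2 * c02) - (x ^ 3 * y * q20 + x ^ 2 * y ^ 2 * q11 + x
        * y ^ 3 * q02 + 1 / 2 * x ^ 3 * v20 + 1 / 2 * x ^ 2 * y * u20 + 1 / 2 * x ^ 2 * y * v11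
        + 1 / 2 * x * y ^ 2 * u11 + 1 / 2 * x * y ^ 2 * v02 + 1 / 2 * y ^ 3 * u02 + x ^ 2 * b20
        + x * y * b11 + y ^ 2 * b02 + 2 * y) ^ 2 ≠ 0) :
    ((a02 = 0) ∧ (b20 = 0) ∧ (b11 = 0) ∧ (c20 = 0) ∧ (c11 = 0) ∧ (c02 = 0) ∧ (u20 = 0) ∧ (u11 = 0) ∧ (v20 = 0) ∧ (v11 = 0) ∧ (v02 = 0) ∧ (q20 = 0) ∧ (q11 = 0) ∧ (q02 = 0)) ∨
    ((a02 = 0) ∧ (b20 = 0) ∧ (b11 = 0) ∧ (c20 = 0) ∧ (c02 = 0) ∧ (u20 = -1 / 2 * b02
        * c11) ∧ (u11 = 0) ∧ (u02 = 0) ∧ (v20 = 0) ∧ (v11 = -1 / 2 * b02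
        * c11) ∧ (v02 = 0) ∧ (q20 = 0) ∧ (q11 = 0) ∧ (q02 = 0) ∧ (c11 ≠ 0)) ∨
    ((b20 = 0) ∧ (b11 = 0) ∧ (c20 = 0) ∧ (c11 = 0) ∧ (c02 = 0) ∧ (u20 = 0) ∧ (u11 = 0) ∧ (v20 = 0) ∧ (v11 = 0) ∧ (v02 = 0) ∧ (q20 = 0) ∧ (q11 = 0) ∧ (q02 = 0) ∧ (a02 ≠ 0)) ∨
    ((b20 = 0) ∧ (b11 = 0) ∧ (c20 = 0) ∧ (c02 = 0) ∧ (u20 = -1 / 2 * b02 * c11) ∧ (u11 = -2
        * a02 * c11) ∧ (u02 = 0) ∧ (v20 = 0) ∧ (v11 = -1 / 2 * b02 * c11) ∧ (v02 = -a02
        * c11) ∧ (q20 = 1 / 2 * a02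
        * c11 ^ 2) ∧ (q11 = 0) ∧ (q02 = 0) ∧ (a02 ≠ 0) ∧ (c11 ≠ 0)) := by
  have t1 : 0 = s1 := by linear_combination (-1) * e1_1_0
  subst t1
  have t2 : 1 = s2 := by linear_combination (-1 / 2) * e1_0_1
  subst t2
  have t3 : 0 = c20 := by linear_combination (-1) * e2_2_0
  subst t3
  have t4 : 1 / 2 * b02 = s22 := by linear_combination (-1 / 2) * e1_0_2
  subst t4
  have t5 : 2 * b20 = s11 := by linear_combination (-1) * e1_2_0
  subst t5
  have t6 : 0 = b20 := by linear_combination (-1 / 8) * e2_1_1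
  subst t6
  have t7 : 3 / 2 * b11 - 1 / 2 * s12 = s21 := by linear_combination (-1 / 2) * e1_1_1
  subst t7
  have t8 : -b11 + 1 / 2 * c02 = s12 := by linear_combination (-1 / 2) * e2_0_2
  subst t8
  have t9 : 4 * b11 = c02 := by linear_combination (-1 / 3) * f_0_2
  subst t9
  have t10 : 0 = v20 := by linear_combination (1 / 2) * e1_3_0
  subst t10
  have t11 : 3 / 2 * b02 * c11 + 5 * u20 - 5 / 2 * v11 = l1 := by linear_combination e1_2_1
  subst t11
  have t12 : 1 / 3 * b11 ^ 2 + 1 / 2 * b02 * c11 + 2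
      * u20 = v11 := by linear_combination (1 / 6) * e2_1_2
  subst t12
  have t13 : 2 * a02 * c11 + 6 * b11 * b02 + 5 / 2 * u11 - 3
      * v02 = l2 := by linear_combination e1_1_2
  subst t13
  have t14 : 1 / 3 * a02 * c11 + 16 / 9 * b11 * b02 + 2 / 3
      * u11 = v02 := by linear_combination (1 / 9) * e2_0_3
  subst t14
  by_cases h1 : a02 = 0
  · have t15 : 0 = a02 := by linear_combination (-1) * h1
    subst t15
    by_cases h2 : b11 = 0
    · have t16 : 0 = b11 := by linear_combination (-1) * h2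
      subst t16
      have t17 : 0 = u11 := by linear_combination (-3 / 20) * f_0_3
      subst t17
      have t18 : -1 / 2 * b02 * c11 = u20 := by linear_combination (-1 / 8) * f_1_2
      subst t18
      have t19 : 0 = q02 := by linear_combination (1 / 2) * e1_1_3
      subst t19
      have t20 : 0 = q20 := by linear_combination (-1 / 4) * e1_3_1
      subst t20
      have t21 : -2 * c11 * u02 = q11 := by linear_combination (-1) * e1_2_2
      subst t21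
      by_cases h3 : c11 = 0
      · have t22 : 0 = c11 := by linear_combination (-1) * h3
        subst t22
        exact Or.inl ⟨by ring, by ring, by ring, by ring, by ring, by ring, by ring, by ring, by ring, by ring, by ring, by ring, by ring, by ring⟩
      · have t23 : (c11) ^ 1 * (u02) = 0 := by linear_combination (2 / 9) * e2_1_3
        have t24 := (mul_eq_zero.mp t23).resolve_left (pow_ne_zero 1 h3)
        have t25 : 0 = u02 := by linear_combination (-1) * t24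
        subst t25
        exact Or.inr (Or.inl ⟨by ring, by ring, by ring, by ring, by ring, by ring, by ring, by ring, by ring, by ring, by ring, by ring, by ring, by ring, h3⟩)
    · have t26 : (b11) ^ 1 * (c11) = 0 := by linear_combination e2_2_1
      have t27 := (mul_eq_zero.mp t26).resolve_left (pow_ne_zero 1 h2)
      have t28 : 0 = c11 := by linear_combination (-1) * t27
      subst t28
      have t29 : -19 / 15 * b11 * b02 = u11 := by linear_combination (-3 / 20) * f_0_3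
      subst t29
      have t30 : 5 / 3 * b11 ^ 2 = u20 := by linear_combination (-1 / 8) * f_1_2
      subst t30
      have t31 : 313 / 30 * b11 ^ 2 * b02 = q11 := by linear_combination (-1) * e1_2_2
      subst t31
      have t32 : (b11) ^ 2 * (b02) = 0 := by linear_combination (-5 / 132) * e2_1_3
      have t33 := (mul_eq_zero.mp t32).resolve_left (pow_ne_zero 2 h2)
      have t34 : 0 = b02 := by linear_combination (-1) * t33
      subst t34
      have t35 : 4 * b11 * u02 = q02 := by linear_combination (1 / 2) * e1_1_3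
      subst t35
      have t36 : (b11) ^ 1 * (u02) = 0 := by linear_combination (-1 / 15) * e2_0_4
      have t37 := (mul_eq_zero.mp t36).resolve_left (pow_ne_zero 1 h2)
      have t38 : 0 = u02 := by linear_combination (-1) * t37
      subst t38
      have t39 : -b11 ^ 3 = q20 := by linear_combination (-1 / 4) * e1_3_1
      subst t39
      exfalso
      have t40 : (b11) ^ 3 * (1) = 0 := by linear_combination (1 / 3) * e2_2_2
      have t41 := (mul_eq_zero.mp t40).resolve_left (pow_ne_zero 3 h2)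
      exact absurd t41 (by norm_num)
  · have t42 : (a02) ^ 1 * (b11) = 0 := by linear_combination (1 / 8) * e1_0_3
    have t43 := (mul_eq_zero.mp t42).resolve_left (pow_ne_zero 1 h1)
    have t44 : 0 = b11 := by linear_combination (-1) * t43
    subst t44
    have t45 : -2 * a02 * c11 = u11 := by linear_combination (-3 / 20) * f_0_3
    subst t45
    have t46 : -1 / 2 * b02 * c11 = u20 := by linear_combination (-1 / 8) * f_1_2
    subst t46
    have t47 : 0 = q02 := by linear_combination (1 / 2) * e1_1_3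
    subst t47
    have t48 : -2 * c11 * u02 = q11 := by linear_combination (-1) * e1_2_2
    subst t48
    have t49 : 1 / 2 * a02 * c11 ^ 2 = q20 := by linear_combination (-1 / 4) * e1_3_1
    subst t49
    by_cases h4 : c11 = 0
    · have t50 : 0 = c11 := by linear_combination (-1) * h4
      subst t50
      exact Or.inr (Or.inr (Or.inl ⟨by ring, by ring, by ring, by ring, by ring, by ring, by ring, by ring, by ring, by ring, by ring, by ring, by ring, h1⟩))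
    · have t51 : (c11) ^ 1 * (u02) = 0 := by linear_combination (2 / 9) * e2_1_3
      have t52 := (mul_eq_zero.mp t51).resolve_left (pow_ne_zero 1 h4)
      have t53 : 0 = u02 := by linear_combination (-1) * t52
      subst t53
      exact Or.inr (Or.inr (Or.inr (⟨by ring, by ring, by ring, by ring, by ring, by ring, by ring, by ring, by ring, by ring, by ring, by ring, by ring, h1, h4⟩)))

end Pool.Agent.H38.FM
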