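import Mathlib

/-!
# Elimination tree `Linf` (generated)
-/

set_option linter.unusedVariables false
set_option linter.style.longLine false

noncomputable section

namespace Pool.Agent.H38.FM

theorem tree_Linf
    (a20 a11 a02 b20 c20 c11 c02 u20 u11 u02 v20 v11 v02 q20 q11 q02 s1 s2 s11 s12 s21 s22 l1 l2 : ℂ)
    (e1_0_1 : s2 - 1 = 0)
    (e1_1_1 : a11 * s1 + 2 * a20 + s21 = 0)
    (e1_0_2 : a02 * s1 + a11 + s22 = 0)
    (e1_2_1 : a20 * s12 - a11 * b20 + a11 * c11 + a11 * s11 + 2 * a02 * c20 + b20 * s22 + 1 / 2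
        * u20 * s2 + u11 * s1 + 1 / 2 * v11 * s2 + 5 / 2 * u20 - v11 - l1 = 0)
    (e1_1_2 : a11 * c02 + a11 * s12 - 2 * a02 * b20 + 2 * a02 * c11 + a02 * s11 + 1 / 2 * u11
        * s2 + u02 * s1 + 1 / 2 * v02 * s2 + u11 - 3 / 2 * v02 - l2 = 0)
    (e1_0_3 : 2 * a02 * c02 + a02 * s12 + 1 / 2 * u02 * s2 - 1 / 2 * u02 = 0)
    (e1_3_1 : -1 / 2 * a20 * v11 + a20 * l1 - 1 / 2 * a11 * v20 - 1 / 2 * b20 * u11 - b20 * v02
        - b20 * l2 + 2 * c20 * u02 + c11 * u11 + u20 * s12 + 1 / 2 * u20 * s21 + u11 * s11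
        + 1 / 2 * v20 * s22 + 1 / 2 * v11 * s21 + q20 * s2 + q11 * s1 + 3 * q20 = 0)
    (e1_2_2 : 1 / 2 * a20 * u11 + a20 * l2 - 1 / 2 * a11 * u20 + a11 * l1 - 2 * b20 * u02 + 2
        * c11 * u02 + c02 * u11 + 1 / 2 * u20 * s22 + u11 * s12 + 1 / 2 * u11 * s21 + u02 * s11
        + 1 / 2 * v11 * s22 + 1 / 2 * v02 * s21 + q11 * s2 + q02 * s1 + q11 = 0)
    (e1_1_3 : a20 * u02 + 1 / 2 * a11 * v02 + a11 * l2 - a02 * u20 + 1 / 2 * a02 * v11 + a02
        * l1 + 2 * c02 * u02 + 1 / 2 * u11 * s22 + u02 * s12 + 1 / 2 * u02 * s21 + 1 / 2 * v02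
        * s22 + q02 * s2 - q02 = 0)
    (e2_0_1 : s1 = 0)
    (e2_2_0 : b20 * s1 + c20 * s2 + c20 = 0)
    (e2_1_1 : c11 * s2 + 2 * b20 + s11 = 0)
    (e2_0_2 : c02 * s2 - c02 + s12 = 0)
    (e2_3_0 : -2 * a20 * c20 + 2 * b20 ^ 2 - b20 * c11 + b20 * s11 + c20 * s21 + 1 / 2 * v20
        * s1 = 0)
    (e2_2_1 : -a20 * c11 - 2 * a11 * c20 - 2 * b20 * c02 + b20 * s12 + c20 * s22 + c11 * s21
        + 1 / 2 * u20 * s1 + v20 * s2 + 1 / 2 * v11 * s1 + v20 = 0)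
    (e2_1_2 : -a11 * c11 - 2 * a02 * c20 + c11 * s22 + c02 * s21 + 1 / 2 * u11 * s1 + v11 * s2
        + 1 / 2 * v02 * s1 + u20 - 1 / 2 * v11 + l1 = 0)
    (e2_0_3 : -a02 * c11 + c02 * s22 + 1 / 2 * u02 * s1 + v02 * s2 + 1 / 2 * u11 - 2 * v02 + l2 = 0)
    (e2_1_3 : -a11 * v11 - 2 * a02 * v20 + b20 * u02 + 1 / 2 * c11 * u02 + 1 / 2 * c02 * u11
        - c02 * l2 + 1 / 2 * u11 * s12 + 1 / 2 * u02 * s11 + v11 * s22 + 1 / 2 * v02 * s12
        + v02 * s21 + q11 * s2 + q02 * s1 - q11 = 0)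
    (e2_0_4 : -a02 * v11 + c02 * u02 + 1 / 2 * u02 * s12 + v02 * s22 + q02 * s2 - 3 * q02 = 0)
    (f_1_1 : 4 * b20 * s2 - 2 * s11 = 0)
    (f_0_2 : -2 * s21 = 0)
    (f_0_3 : -a11 * c02 * s2 - a02 * c11 * s2 + 4 * a02 * c02 * s1 + a11 * c02 - a02 * c11
        + u11 * s2 - 4 * u02 * s1 + v02 * s2 - u11 - v02 + 4 * l2 = 0)
    (hD : ∃ x y : ℂ, (x ^ 4 * q20 + x ^ 3 * y * q11 + x ^ 2 * y ^ 2 * q02 + x ^ 3 * u20 + x ^ 2
        * y * u11 + x * y ^ 2 * u02 + x ^ 2 * a20 + x * y * a11 + y ^ 2 * a02) * (x ^ 2 * y ^ 2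
        * q20 + x * y ^ 3 * q11 + y ^ 4 * q02 + x ^ 2 * y * v20 + x * y ^ 2 * v11 + y ^ 3 * v02
        + x ^ 2 * c20 + x * y * c11 + y ^ 2 * c02) - (x ^ 3 * y * q20 + x ^ 2 * y ^ 2 * q11 + x
        * y ^ 3 * q02 + 1 / 2 * x ^ 3 * v20 + 1 / 2 * x ^ 2 * y * u20 + 1 / 2 * x ^ 2 * y * v11
        + 1 / 2 * x * y ^ 2 * u11 + 1 / 2 * x * y ^ 2 * v02 + 1 / 2 * y ^ 3 * u02 + x ^ 2 * b20
        + y) ^ 2 ≠ 0) :
    ((a20 = 0) ∧ (a11 = 0) ∧ (a02 = 0) ∧ (b20 = 0) ∧ (c20 = 0) ∧ (c11 = 0) ∧ (c02 = 0) ∧ (u20 = 0) ∧ (u11 = 0) ∧ (v20 = 0) ∧ (v02 = 0) ∧ (q20 = 0) ∧ (q11 = 0) ∧ (q02 = 0)) ∨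
    ((a20 = 0) ∧ (a02 = 0) ∧ (b20 = 0) ∧ (c20 = 0) ∧ (c11 = 0) ∧ (c02 = 0) ∧ (u20 = 0) ∧ (u11 = 0) ∧ (v20 = 0) ∧ (v11 = 0) ∧ (v02 = 0) ∧ (q20 = 0) ∧ (q11 = 0) ∧ (q02 = 0) ∧ (a11 ≠ 0)) ∨
    ((a20 = 0) ∧ (a11 = 0) ∧ (a02 = 0) ∧ (b20 = 0) ∧ (c20 = 0) ∧ (c11 = 0) ∧ (u20 = 0) ∧ (u11 = 0) ∧ (u02 = 0) ∧ (v20 = 0) ∧ (v02 = 0) ∧ (q20 = 0) ∧ (q11 = 0) ∧ (q02 = 0) ∧ (c02 ≠ 0)) ∨
    ((a20 = 0) ∧ (a02 = 0) ∧ (b20 = 0) ∧ (c20 = 0) ∧ (c11 = 0) ∧ (u20 = 0) ∧ (u11 = -2 * a11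
        * c02) ∧ (u02 = -1 / 2 * a11 ^ 2) ∧ (v20 = 0) ∧ (v11 = -1 / 2 * c02 ^ 2) ∧ (v02 = -2
        * a11 * c02) ∧ (q20 = 0) ∧ (q11 = 3 / 4 * a11 * c02 ^ 2) ∧ (q02 = 3 / 4 * a11 ^ 2
        * c02) ∧ (c02 ≠ 0) ∧ (a11 ≠ 0)) ∨
    ((a20 = 0) ∧ (a11 = 0) ∧ (b20 = 0) ∧ (c20 = 0) ∧ (c11 = 0) ∧ (c02 = 0) ∧ (u20 = 0) ∧ (u11 = 0) ∧ (v20 = 0) ∧ (v02 = 0) ∧ (q20 = 0) ∧ (q11 = 0) ∧ (q02 = -1 / 2 * a02 * v11) ∧ (a02 ≠ 0)) ∨
    ((a20 = 0) ∧ (b20 = 0) ∧ (c20 = 0) ∧ (c11 = 0) ∧ (c02 = 0) ∧ (u20 = 0) ∧ (u11 = 0) ∧ (v20 = 0) ∧ (v11 = 0) ∧ (v02 = 0) ∧ (q20 = 0) ∧ (q11 = 0) ∧ (q02 = 0) ∧ (a02 ≠ 0) ∧ (a11 ≠ 0)) := by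
  have t1 : 0 = s1 := by linear_combination (-1) * e2_0_1
  subst t1
  have t2 : 1 = s2 := by linear_combination (-1) * e1_0_1
  subst t2
  have t3 : 0 = s12 := by linear_combination (-1) * e2_0_2
  subst t3
  have t4 : 0 = c20 := by linear_combination (-1 / 2) * e2_2_0
  subst t4
  have t5 : -a11 = s22 := by linear_combination (-1) * e1_0_2
  subst t5
  have t6 : -2 * a20 = s21 := by linear_combination (-1) * e1_1_1
  subst t6
  have t7 : -2 * b20 - c11 = s11 := by linear_combination (-1) * e2_1_1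
  subst t7
  have t8 : 0 = a20 := by linear_combination (-1 / 4) * f_0_2
  subst t8
  have t9 : -4 * b20 = c11 := by linear_combination (-1 / 2) * f_1_1
  subst t9
  have t10 : b20 * c02 = v20 := by linear_combination (-1 / 2) * e2_2_1
  subst t10
  have t11 : -4 * a11 * b20 + 3 * u20 - 1 / 2 * v11 = l1 := by linear_combination e1_2_1
  subst t11
  have t12 : -a11 * b20 = u20 := by linear_combination (-1 / 4) * e2_1_2
  subst t12
  have t13 : a11 * c02 - 8 * a02 * b20 + 3 / 2 * u11 - v02 = l2 := by linear_combination e1_1_2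
  subst t13
  have t14 : -2 * a02 * b20 + u11 = v02 := by linear_combination (1 / 2) * e2_0_3
  subst t14
  by_cases h1 : b20 = 0
  · have t15 : 0 = b20 := by linear_combination (-1) * h1
    subst t15
    by_cases h2 : a02 = 0
    · have t16 : 0 = a02 := by linear_combination (-1) * h2
      subst t16
      have t17 : -2 * a11 * c02 = u11 := by linear_combination (-1 / 2) * f_0_3
      subst t17
      have t18 : 0 = q20 := by linear_combination (-1 / 4) * e1_3_1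
      subst t18
      have t19 : a11 ^ 2 * c02 + 1 / 2 * c02 * u02 = q02 := by linear_combination (1 / 2) * e2_0_4
      subst t19
      have t20 : a11 * c02 ^ 2 + 1 / 2 * a11 * v11 = q11 := by linear_combination (-1 / 2) * e1_2_2
      subst t20
      by_cases h3 : c02 = 0
      · have t21 : 0 = c02 := by linear_combination (-1) * h3
        subst t21
        by_cases h4 : a11 = 0
        · have t22 : 0 = a11 := by linear_combination (-1) * h4
          subst t22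
          exact Or.inl ⟨by ring, by ring, by ring, by ring, by ring, by ring, by ring, by ring, by ring, by ring, by ring, by ring, by ring, by ring⟩
        · have t23 : (a11) ^ 1 * (v11) = 0 := by linear_combination (-1 / 2) * e2_1_3
          have t24 := (mul_eq_zero.mp t23).resolve_left (pow_ne_zero 1 h4)
          have t25 : 0 = v11 := by linear_combination (-1) * t24
          subst t25
          exact Or.inr (Or.inl ⟨by ring, by ring, by ring, by ring, by ring, by ring, by ring, by ring, by ring, by ring, by ring, by ring, by ring, by ring, h4⟩)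
      · have t26 : (c02) ^ 1 * (a11 ^ 2 + 2 * u02) = 0 := by linear_combination e1_1_3
        have t27 := (mul_eq_zero.mp t26).resolve_left (pow_ne_zero 1 h3)
        have t28 : -1 / 2 * a11 ^ 2 = u02 := by linear_combination (-1 / 2) * t27
        subst t28
        by_cases h5 : a11 = 0
        · have t29 : 0 = a11 := by linear_combination (-1) * h5
          subst t29
          exact Or.inr (Or.inr (Or.inl ⟨by ring, by ring, by ring, by ring, by ring, by ring, by ring, by ring, by ring, by ring, by ring, by ring, by ring, by ring, h3⟩))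
        · have t30 : (a11) ^ 1 * (c02 ^ 2 + 2 * v11) = 0 := by linear_combination (-1) * e2_1_3
          have t31 := (mul_eq_zero.mp t30).resolve_left (pow_ne_zero 1 h5)
          have t32 : -1 / 2 * c02 ^ 2 = v11 := by linear_combination (-1 / 2) * t31
          subst t32
          exact Or.inr (Or.inr (Or.inr (Or.inl ⟨by ring, by ring, by ring, by ring, by ring, by ring, by ring, by ring, by ring, by ring, by ring, by ring, by ring, by ring, h3, h5⟩)))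
    · have t33 : (a02) ^ 1 * (c02) = 0 := by linear_combination (1 / 2) * e1_0_3
      have t34 := (mul_eq_zero.mp t33).resolve_left (pow_ne_zero 1 h2)
      have t35 : 0 = c02 := by linear_combination (-1) * t34
      subst t35
      have t36 : 0 = u11 := by linear_combination (-1 / 2) * f_0_3
      subst t36
      have t37 : 0 = q20 := by linear_combination (-1 / 4) * e1_3_1
      subst t37
      have t38 : -1 / 2 * a02 * v11 = q02 := by linear_combination (1 / 2) * e2_0_4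
      subst t38
      have t39 : 1 / 2 * a11 * v11 = q11 := by linear_combination (-1 / 2) * e1_2_2
      subst t39
      by_cases h6 : a11 = 0
      · have t40 : 0 = a11 := by linear_combination (-1) * h6
        subst t40
        exact Or.inr (Or.inr (Or.inr (Or.inr (Or.inl ⟨by ring, by ring, by ring, by ring, by ring, by ring, by ring, by ring, by ring, by ring, by ring, by ring, by ring, h2⟩))))
      · have t41 : (a11) ^ 1 * (v11) = 0 := by linear_combination (-1 / 2) * e2_1_3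
        have t42 := (mul_eq_zero.mp t41).resolve_left (pow_ne_zero 1 h6)
        have t43 : 0 = v11 := by linear_combination (-1) * t42
        subst t43
        exact Or.inr (Or.inr (Or.inr (Or.inr (Or.inr (⟨by ring, by ring, by ring, by ring, by ring, by ring, by ring, by ring, by ring, by ring, by ring, by ring, by ring, h2, h6⟩)))))
  · exfalso
    have t44 : (b20) ^ 2 * (1) = 0 := by linear_combination (1 / 8) * e2_3_0
    have t45 := (mul_eq_zero.mp t44).resolve_left (pow_ne_zero 2 h1)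
    exact absurd t45 (by norm_num)

end Pool.Agent.H38.FM
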