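import Mathlib

/-!
# Elimination tree `Lp` (generated)
-/

set_option linter.unusedVariables false
set_option linter.style.longLine false

noncomputable section

namespace Pool.Agent.H38.FM

theorem tree_Lp
    (a11 a02 b20 b11 c20 c11 c02 u20 u11 u02 v20 v11 v02 q20 q11 q02 s1 s2 s11 s12 s21 s22 l1 l2 : ℂ)
    (e1_1_0 : s1 = 0)
    (e1_0_1 : s1 + 1 / 2 * s2 + 1 / 4 = 0)
    (e1_2_0 : b20 * s2 - 3 / 2 * b20 + c20 + s11 = 0)
    (e1_1_1 : a11 * s1 + b11 * s2 - 2 * b20 - b11 + c11 + s11 + s12 + 1 / 2 * s21 = 0)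
    (e1_0_2 : a02 * s1 + 1 / 2 * a11 - b11 + c02 + s12 + 1 / 2 * s22 = 0)
    (e1_3_0 : a11 * c20 - b20 * b11 + b20 * s21 + u20 * s1 + 1 / 2 * v20 * s2 - 7 / 4 * v20 = 0)
    (e1_2_1 : -a11 * b20 + a11 * c11 + a11 * s11 + 2 * a02 * c20 + b20 * s22 - b11 ^ 2 + b11
        * s21 + 1 / 2 * u20 * s2 + u11 * s1 + 1 / 2 * v11 * s2 + 3 / 4 * u20 - v20 - 3 / 2
        * v11 + 1 / 2 * l1 = 0)
    (e1_1_2 : a11 * c02 + a11 * s12 - 2 * a02 * b20 + 2 * a02 * c11 + a02 * s11 + b11 * s22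
        + 1 / 2 * u11 * s2 + u02 * s1 + 1 / 2 * v02 * s2 - u20 + 1 / 2 * u11 - 1 / 2 * v11
        - 5 / 4 * v02 + l1 + 1 / 2 * l2 = 0)
    (e1_0_3 : -a02 * b11 + 2 * a02 * c02 + a02 * s12 + 1 / 2 * u02 * s2 - 1 / 2 * u11 + 1 / 4
        * u02 + l2 = 0)
    (e1_3_1 : -1 / 2 * a11 * v20 - 1 / 2 * b20 * u11 - b20 * v02 - b20 * l2 + 3 / 2 * b11 * u20
        - b11 * v11 - b11 * l1 + 2 * c20 * u02 + c11 * u11 + u20 * s12 + 1 / 2 * u20 * s21
        + u11 * s11 + 1 / 2 * v20 * s22 + 1 / 2 * v11 * s21 + q20 * s2 + q11 * s1 - 3 / 2 * q20 = 0)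
    (e1_1_3 : 1 / 2 * a11 * v02 + a11 * l2 - a02 * u20 + 1 / 2 * a02 * v11 + a02 * l1 - 3 / 2
        * b11 * u02 + 2 * c02 * u02 + 1 / 2 * u11 * s22 + u02 * s12 + 1 / 2 * u02 * s21 + 1 / 2
        * v02 * s22 + q02 * s2 - 2 * q11 - 3 / 2 * q02 = 0)
    (e1_0_4 : 1 / 2 * a11 * u02 - 1 / 2 * a02 * u11 + a02 * v02 + a02 * l2 + 1 / 2 * u02 * s22
        - q02 = 0)
    (e2_2_0 : b20 * s1 + c20 * s2 - 3 / 2 * c20 = 0)
    (e2_1_1 : b11 * s1 + c11 * s2 + b20 - 2 * c20 - c11 + 1 / 2 * s11 = 0)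
    (e2_0_2 : c02 * s2 + 1 / 2 * b11 - c11 - 1 / 2 * c02 + 1 / 2 * s12 = 0)
    (e2_3_0 : 2 * b20 ^ 2 - b20 * c11 + b20 * s11 + b11 * c20 + c20 * s21 + 1 / 2 * v20 * s1 = 0)
    (e2_1_2 : -a11 * c11 - 2 * a02 * c20 + b11 ^ 2 - b11 * c02 + b11 * s12 + c11 * s22 + c02
        * s21 + 1 / 2 * u11 * s1 + v11 * s2 + 1 / 2 * v02 * s1 + 1 / 2 * u20 - 2 * v20 - 5 / 4
        * v11 + 1 / 2 * l1 = 0)
    (e2_0_3 : -a02 * c11 + c02 * s22 + 1 / 2 * u02 * s1 + v02 * s2 + 1 / 4 * u11 - v11 - v02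
        + 1 / 2 * l2 = 0)
    (f_0_2 : b11 * s2 - c11 * s2 + 3 * c02 * s1 - c02 * s2 + 1 / 2 * c02 - 1 / 2 * s21 = 0)
    (f_1_2 : -2 * a11 * c11 * s2 + 3 * a11 * c02 * s1 - 2 * a02 * c20 * s2 + 3 * a02 * c11 * s1
        + 2 * b11 ^ 2 * s2 - a02 * c20 - 2 * b20 * c02 + 2 * b20 * s22 - b11 * c02 - b11 * s21
        - 2 * c20 * s22 + c11 * s21 - 2 * c11 * s22 + 3 * c02 * s11 + c02 * s21 + u20 * s2
        - 3 / 2 * u11 * s1 - 2 * v20 * s2 + 3 * v11 * s1 - v11 * s2 + 3 / 2 * v02 * s1 - 1 / 2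
        * u20 + v11 + l1 = 0)
    (f_0_3 : -a11 * c02 * s2 - a02 * c11 * s2 + 4 * a02 * c02 * s1 + 1 / 2 * a11 * c02 - 1 / 2
        * a02 * c11 - b11 * c02 + b11 * s22 - c11 * s22 + c02 * s12 + 2 * c02 * s21 - c02 * s22
        + 1 / 2 * u11 * s2 - 2 * u02 * s1 - v11 * s2 + 4 * v02 * s1 - 1 / 2 * v02 * s2 - 1 / 4
        * u11 + 3 / 4 * v02 + l2 = 0)
    (hD : ∃ x y : ℂ, (x ^ 4 * q20 + x ^ 3 * y * q11 + x ^ 2 * y ^ 2 * q02 + x ^ 3 * u20 + x ^ 2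
        * y * u11 + x * y ^ 2 * u02 + x * y * a11 + y ^ 2 * a02 + x + y) * (x ^ 2 * y ^ 2 * q20
        + x * y ^ 3 * q11 + y ^ 4 * q02 + x ^ 2 * y * v20 + x * y ^ 2 * v11 + y ^ 3 * v02
        + x ^ 2 * c20 + x * y * c11 + y ^ 2 * c02) - (x ^ 3 * y * q20 + x ^ 2 * y ^ 2 * q11 + x
        * y ^ 3 * q02 + 1 / 2 * x ^ 3 * v20 + 1 / 2 * x ^ 2 * y * u20 + 1 / 2 * x ^ 2 * y * v11
        + 1 / 2 * x * y ^ 2 * u11 + 1 / 2 * x * y ^ 2 * v02 + 1 / 2 * y ^ 3 * u02 + x ^ 2 * b20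
        + x * y * b11 + 1 / 2 * y) ^ 2 ≠ 0) :
    ((b20 = 0) ∧ (b11 = 0) ∧ (c20 = 0) ∧ (c11 = 0) ∧ (c02 = 0) ∧ (u20 = 0) ∧ (u11 = 0) ∧ (v20 = 0) ∧ (v11 = 0) ∧ (v02 = 0) ∧ (q20 = 0) ∧ (q11 = 0) ∧ (q02 = 0)) := by
  have t1 : 0 = s1 := by linear_combination (-1) * e1_1_0
  subst t1
  have t2 : -1 / 2 = s2 := by linear_combination (-2) * e1_0_1
  subst t2
  have t3 : 0 = c20 := by linear_combination (1 / 2) * e2_2_0
  subst t3
  have t4 : 2 * b20 = s11 := by linear_combination (-1) * e1_2_0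
  subst t4
  have t5 : 4 / 3 * b20 = c11 := by linear_combination (2 / 3) * e2_1_1
  subst t5
  have t6 : -8 / 3 * b20 + 3 * b11 - 2 * s12 = s21 := by linear_combination (-2) * e1_1_1
  subst t6
  have t7 : 8 / 3 * b20 - b11 + 2 * c02 = s12 := by linear_combination (-2) * e2_0_2
  subst t7
  have t8 : -a11 - 16 / 3 * b20 + 4 * b11 - 6 * c02 = s22 := by linear_combination (-2) * e1_0_2
  subst t8
  have t9 : -14 / 9 * b20 + b11 = c02 := by linear_combination (-1 / 3) * f_0_2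
  subst t9
  have t10 : -8 / 9 * b20 ^ 2 = v20 := by linear_combination (1 / 2) * e1_3_0
  subst t10
  have t11 : 32 / 9 * a02 * b20 - 2 * a02 * b11 + 1 / 2
      * u11 = l2 := by linear_combination (-1) * e1_0_3
  subst t11
  have t12 : -8 / 3 * a11 * b20 - 88 / 9 * b20 ^ 2 + 68 / 9 * b20 * b11 - u20 + 7 / 2
      * v11 = l1 := by linear_combination (-2) * e1_2_1
  subst t12
  have t13 : 28 / 27 * a11 * b20 - 2 / 3 * a11 * b11 + 8 / 27 * a02 * b20 - 2 / 3 * a02 * b11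
      - 112 / 27 * b20 ^ 2 + 128 / 27 * b20 * b11 - 4 / 3 * b11 ^ 2 + 1 / 3 * u11 - 2 / 3
      * v11 = v02 := by linear_combination (2 / 3) * e2_0_3
  subst t13
  have t14 : 14 / 9 * a11 * b20 - 1 / 2 * a11 * b11 - a02 * b20 + 8 / 9 * b20 ^ 2 - 10 / 9
      * b20 * b11 + 1 / 2 * u20 = v11 := by linear_combination (-1 / 4) * e1_1_2
  subst t14
  by_cases h1 : b20 = 0
  · have t15 : 0 = b20 := by linear_combination (-1) * h1
    subst t15
    by_cases h2 : b11 = 0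
    · have t16 : 0 = b11 := by linear_combination (-1) * h2
      subst t16
      have t17 : 0 = u20 := by linear_combination (-2) * f_1_2
      subst t17
      have t18 : 0 = u11 := by linear_combination (-3) * f_0_3
      subst t18
      have t19 : 0 = q02 := by linear_combination e1_0_4
      subst t19
      have t20 : 0 = q11 := by linear_combination (1 / 2) * e1_1_3
      subst t20
      have t21 : 0 = q20 := by linear_combination (1 / 2) * e1_3_1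
      subst t21
      exact ⟨by ring, by ring, by ring, by ring, by ring, by ring, by ring, by ring, by ring, by ring, by ring, by ring, by ring⟩
    · exfalso
      have t22 : (b11) ^ 2 * (1) = 0 := by linear_combination (1 / 2) * e2_1_2
      have t23 := (mul_eq_zero.mp t22).resolve_left (pow_ne_zero 2 h2)
      exact absurd t23 (by norm_num)
  · exfalso
    have t24 : (b20) ^ 2 * (1) = 0 := by linear_combination (3 / 8) * e2_3_0
    have t25 := (mul_eq_zero.mp t24).resolve_left (pow_ne_zero 2 h1)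
    exact absurd t25 (by norm_num)

end Pool.Agent.H38.FM
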