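import Mathlib

/-!
# Elimination tree `T1` (generated)
-/

set_option linter.unusedVariables false
set_option linter.style.longLine false

noncomputable section

namespace Pool.Agent.H38.FM

theorem tree_T1
    (a20 a02 b20 b02 c20 c11 c02 u20 u11 u02 v20 v11 v02 q20 q11 q02 s1 s2 s11 s12 s21 s22 l1 l2 : ℂ)
    (e1_1_0 : s1 = 0)
    (e1_2_0 : a20 * s1 + b20 * s2 - b20 + s11 = 0)
    (e1_1_1 : s12 = 0)
    (e1_0_2 : a02 * s1 + b02 * s2 + b02 = 0)
    (e1_3_0 : a20 * s11 + b20 * s21 + u20 * s1 + 1 / 2 * v20 * s2 - 3 / 2 * v20 = 0)
    (e1_2_1 : a20 * s12 + 2 * a02 * c20 - 2 * b20 * b02 + b20 * s22 + 1 / 2 * u20 * s2 + u11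
        * s1 + 1 / 2 * v11 * s2 - 1 / 2 * u20 - v11 + l1 = 0)
    (e1_1_2 : 2 * a20 * b02 - 2 * a02 * b20 + 2 * a02 * c11 + a02 * s11 + b02 * s21 + 1 / 2
        * u11 * s2 + u02 * s1 + 1 / 2 * v02 * s2 - 1 / 2 * v02 + l2 = 0)
    (e1_0_3 : 2 * a02 * c02 + a02 * s12 - 2 * b02 ^ 2 + b02 * s22 + 1 / 2 * u02 * s2 + 1 / 2
        * u02 = 0)
    (e1_3_1 : -1 / 2 * a20 * v11 + a20 * l1 - 1 / 2 * b20 * u11 - b20 * v02 - b20 * l2 - b02
        * v20 + 2 * c20 * u02 + c11 * u11 + u20 * s12 + 1 / 2 * u20 * s21 + u11 * s11 + 1 / 2
        * v20 * s22 + 1 / 2 * v11 * s21 + q20 * s2 + q11 * s1 - 3 * q20 = 0)
    (e1_2_2 : 1 / 2 * a20 * u11 + a20 * l2 - 2 * b20 * u02 + 2 * b02 * u20 - 3 / 2 * b02 * v11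
        - b02 * l1 + 2 * c11 * u02 + c02 * u11 + 1 / 2 * u20 * s22 + u11 * s12 + 1 / 2 * u11
        * s21 + u02 * s11 + 1 / 2 * v11 * s22 + 1 / 2 * v02 * s21 + q11 * s2 + q02 * s1 - 2
        * q11 = 0)
    (e1_1_3 : a20 * u02 - a02 * u20 + 1 / 2 * a02 * v11 + a02 * l1 + 1 / 2 * b02 * u11 - 2
        * b02 * v02 - b02 * l2 + 2 * c02 * u02 + 1 / 2 * u11 * s22 + u02 * s12 + 1 / 2 * u02
        * s21 + 1 / 2 * v02 * s22 + q02 * s2 - q02 = 0)
    (e1_0_4 : -1 / 2 * a02 * u11 + a02 * v02 + a02 * l2 - b02 * u02 + 1 / 2 * u02 * s22 = 0)
    (e1_4_1 : -2 * a20 * q20 + 2 * c20 * q02 + c11 * q11 + 1 / 2 * u20 ^ 2 - 1 / 4 * u20 * v11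
        + 1 / 2 * u20 * l1 - 1 / 4 * u11 * v20 - 1 / 2 * v20 * v02 - 1 / 2 * v20 * l2 - 1 / 4
        * v11 ^ 2 - 1 / 2 * v11 * l1 + q20 * s12 + q20 * s21 + q11 * s11 = 0)
    (e1_3_2 : -a20 * q11 - 2 * b20 * q02 + 2 * b02 * q20 + 2 * c11 * q02 + c02 * q11 + 3 / 4
        * u20 * u11 + 1 / 2 * u20 * l2 + 1 / 2 * u11 * l1 - 3 / 4 * v11 * v02 - 1 / 2 * v11
        * l2 - 1 / 2 * v02 * l1 + q20 * s22 + q11 * s12 + q11 * s21 + q02 * s11 = 0)
    (e1_2_3 : -2 * a02 * q20 + 2 * c02 * q02 + 1 / 2 * u20 * u02 + 1 / 4 * u11 ^ 2 + 1 / 4
        * u11 * v02 + 1 / 2 * u11 * l2 + 1 / 4 * u02 * v11 + 1 / 2 * u02 * l1 - 1 / 2 * v02 ^ 2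
        - 1 / 2 * v02 * l2 + q11 * s22 + q02 * s12 + q02 * s21 = 0)
    (e1_1_4 : -a02 * q11 - 2 * b02 * q02 + 1 / 4 * u11 * u02 + 1 / 2 * u02 * v02 + 1 / 2 * u02
        * l2 + q02 * s22 = 0)
    (e2_2_0 : b20 * s1 + c20 * s2 - 2 * c20 = 0)
    (e2_1_1 : c11 * s2 - c11 = 0)
    (e2_0_2 : b02 * s1 + c02 * s2 = 0)
    (e2_3_0 : -2 * a20 * c20 + 2 * b20 ^ 2 - b20 * c11 + b20 * s11 + c20 * s21 + 1 / 2 * v20
        * s1 = 0)
    (e2_2_1 : -a20 * c11 - 2 * b20 * c02 + b20 * s12 + 2 * b02 * c20 + c20 * s22 + c11 * s21
        + 1 / 2 * u20 * s1 + v20 * s2 + 1 / 2 * v11 * s1 - 2 * v20 = 0)
    (e2_1_2 : -2 * a02 * c20 + 2 * b20 * b02 + b02 * c11 + b02 * s11 + c11 * s22 + c02 * s21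
        + 1 / 2 * u11 * s1 + v11 * s2 + 1 / 2 * v02 * s1 - v11 = 0)
    (e2_0_3 : -a02 * c11 + b02 * s12 + c02 * s22 + 1 / 2 * u02 * s1 + v02 * s2 = 0)
    (e2_2_2 : -a20 * v11 + 3 / 2 * b20 * u11 - 2 * b20 * v02 + b20 * l2 + 2 * b02 * v20 + 1 / 2
        * c11 * v02 - c11 * l2 - 1 / 2 * c02 * v11 - c02 * l1 + 1 / 2 * u20 * s12 + 1 / 2 * u11
        * s11 + v20 * s22 + 1 / 2 * v11 * s12 + v11 * s21 + 1 / 2 * v02 * s11 + q20 * s2 + q11
        * s1 - 2 * q20 = 0)
    (e2_1_3 : -2 * a02 * v20 + b20 * u02 + b02 * u20 + 1 / 2 * b02 * v11 + b02 * l1 + 1 / 2
        * c11 * u02 + 1 / 2 * c02 * u11 - c02 * l2 + 1 / 2 * u11 * s12 + 1 / 2 * u02 * s11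
        + v11 * s22 + 1 / 2 * v02 * s12 + v02 * s21 + q11 * s2 + q02 * s1 - q11 = 0)
    (e2_0_4 : -a02 * v11 + 1 / 2 * b02 * u11 - b02 * v02 + b02 * l2 + c02 * u02 + 1 / 2 * u02
        * s12 + v02 * s22 + q02 * s2 = 0)
    (f_2_0 : -3 * c20 * s2 + c11 * s1 = 0)
    (f_1_1 : -2 * c11 * s2 + 2 * c02 * s1 = 0)
    (f_3_0 : -4 * a20 * c20 * s2 + a20 * c11 * s1 + 4 * b20 ^ 2 * s2 - b20 * c11 - 2 * c20
        * s12 - c20 * s21 + c11 * s11 + v20 * s1 = 0)
    (f_1_2 : -2 * a20 * c02 * s2 - 2 * a02 * c20 * s2 + 3 * a02 * c11 * s1 + 4 * b20 * b02 * s2
        + b02 * c11 - 2 * c11 * s22 + c02 * s21 - 2 * v11 * s2 + 3 * v02 * s1 = 0)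
    (f_2_2 : -3 * a20 * c11 * s22 - 3 * a20 * v11 * s2 + 3 * a20 * v02 * s1 + 3 * a02 * c11
        * s11 + 3 * a02 * v20 * s1 + 3 * b20 * u11 * s2 - 3 * b20 * u02 * s1 + 3 * b20 * v02
        * s2 - 3 * b02 * u20 * s1 + 3 * b02 * v20 * s2 - 3 * b02 * v11 * s1 - 3 * c20 * u02
        * s2 - 3 * c11 * u11 * s2 + 3 * c11 * u02 * s1 - 3 * c02 * u20 * s2 + 3 * c02 * u11
        * s1 - 3 * b20 * v02 + 3 * b02 * v20 + 3 / 2 * c11 * v02 - 3 * c11 * l2 - 3 / 2 * c02
        * v11 - 3 * c02 * l1 - 3 * v20 * s22 + 3 * v02 * s11 - 3 * q20 * s2 + 3 * q11 * s1 = 0)
    (f_1_3 : -2 * a20 * c02 * s22 - 2 * a20 * v02 * s2 - 2 * a02 * c20 * s22 + a02 * c11 * s12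
        + a02 * c11 * s21 + 4 * a02 * c02 * s11 - 2 * a02 * v20 * s2 + 4 * a02 * v11 * s1 + 4
        * b20 * b02 * s22 + 2 * b20 * u02 * s2 - 4 * b02 ^ 2 * s11 + 2 * b02 * u20 * s2 - 4
        * b02 * u11 * s1 + 2 * b02 * v11 * s2 - 4 * b02 * v02 * s1 - 2 * c11 * u02 * s2 - 2
        * c02 * u11 * s2 + 4 * c02 * u02 * s1 + 2 * b02 * v11 - 1 / 2 * c11 * u02 - 1 / 2 * c02
        * u11 - 3 * c02 * l2 - 2 * v11 * s22 + v02 * s12 + v02 * s21 - 2 * q11 * s2 + 4 * q02
        * s1 = 0)
    (f_0_4 : -a02 * c11 * s22 + 2 * a02 * c02 * s12 + 2 * a02 * c02 * s21 - a02 * v11 * s2 + 5
        * a02 * v02 * s1 - 2 * b02 ^ 2 * s12 - 2 * b02 ^ 2 * s21 + b02 * u11 * s2 - 5 * b02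
        * u02 * s1 + b02 * v02 * s2 - c02 * u02 * s2 + b02 * v02 - c02 * u02 - v02 * s22 - q02
        * s2 = 0)
    (f_3_2 : 2 * a20 * b02 * v20 - 2 * a20 * c20 * u02 - a20 * c11 * u11 + a20 * c11 * v02 - 2
        * a20 * c11 * l2 - a20 * c02 * v11 - 2 * a20 * c02 * l1 - 4 * a20 * v20 * s22 - a20
        * v11 * s21 + 3 * a20 * v02 * s11 - 4 * a20 * q20 * s2 + 3 * a20 * q11 * s1 - 2 * a02
        * b20 * v20 + 2 * a02 * c20 * u20 + a02 * c20 * v11 - 2 * a02 * c20 * l1 - a02 * c11
        * v20 + 3 * a02 * v20 * s11 + 2 * b20 ^ 2 * u02 - 2 * b20 * b02 * u20 + 4 * b20 * b02
        * l1 + b20 * c11 * u02 + 2 * b20 * c02 * u11 + 4 * b20 * u20 * s22 + b20 * u11 * s21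
        - 3 * b20 * u02 * s11 + 4 * b20 * v11 * s22 + b20 * v02 * s21 + 8 * b20 * q11 * s2 - 6
        * b20 * q02 * s1 - 2 * b02 * c20 * u11 - b02 * c11 * u20 - 3 * b02 * u20 * s11 + b02
        * v20 * s21 - 3 * b02 * v11 * s11 - 6 * b02 * q20 * s1 - 4 * c20 * u11 * s22 - c20
        * u02 * s21 - 4 * c20 * q02 * s2 - 4 * c11 * u20 * s22 - c11 * u11 * s21 + 3 * c11
        * u02 * s11 - 4 * c11 * q11 * s2 + 3 * c11 * q02 * s1 - c02 * u20 * s21 + 3 * c02 * u11
        * s11 - 4 * c02 * q20 * s2 + 3 * c02 * q11 * s1 + u20 ^ 2 * s2 - 3 / 2 * u20 * u11 * s1
        - 2 * u20 * v11 * s2 + 3 / 2 * u20 * v02 * s1 - 2 * u11 * v20 * s2 + 3 / 2 * u11 * v11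
        * s1 + 3 / 2 * u02 * v20 * s1 + 2 * v20 * v02 * s2 + v11 ^ 2 * s2 - 3 / 2 * v11 * v02
        * s1 - 3 * b20 * q11 + 8 * c20 * q02 + 4 * c11 * q11 + 1 / 2 * u11 * v20 - 2 * v20
        * v02 - 2 * v20 * l2 - v11 ^ 2 - 2 * v11 * l1 - q20 * s21 + 3 * q11 * s11 = 0)
    (f_1_4 : 2 * a20 * b02 * v02 - 2 * a20 * c02 * u02 - 2 * a20 * v02 * s22 - 2 * a20 * q02
        * s2 - 2 * a02 * b20 * v02 + a02 * c11 * u11 + a02 * c11 * v02 - 2 * a02 * c11 * l2 + 2
        * a02 * c02 * u20 - a02 * c02 * v11 - 2 * a02 * c02 * l1 - 2 * a02 * v20 * s22 + 2
        * a02 * v11 * s12 + a02 * v11 * s21 + 5 * a02 * v02 * s11 - 2 * a02 * q20 * s2 + 5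
        * a02 * q11 * s1 + 2 * b20 * b02 * u02 + 2 * b20 * u02 * s22 - 2 * b02 ^ 2 * u20
        + b02 ^ 2 * v11 + 2 * b02 ^ 2 * l1 - b02 * c11 * u02 + 2 * b02 * u20 * s22 - 2 * b02
        * u11 * s12 - b02 * u11 * s21 - 5 * b02 * u02 * s11 + 2 * b02 * v11 * s22 - 2 * b02
        * v02 * s12 - b02 * v02 * s21 + 4 * b02 * q11 * s2 - 10 * b02 * q02 * s1 - 2 * c11
        * u02 * s22 - 2 * c02 * u11 * s22 + 2 * c02 * u02 * s12 + c02 * u02 * s21 - 2 * c02
        * q02 * s2 + u20 * u02 * s2 + 1 / 2 * u11 ^ 2 * s2 - 5 / 2 * u11 * u02 * s1 - u11 * v02
        * s2 - u02 * v11 * s2 + 5 / 2 * u02 * v02 * s1 + 1 / 2 * v02 ^ 2 * s2 + 3 * b02 * q11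
        + 2 * c02 * q02 - 1 / 2 * u11 * v02 - 1 / 2 * v02 ^ 2 - 2 * v02 * l2 - 2 * q11 * s22
        + 2 * q02 * s12 + q02 * s21 = 0)
    (f_0_6 : 4 * a02 * c02 * q02 + 1 / 2 * a02 * u11 * v02 - a02 * v02 ^ 2 - a02 * v02 * l2
        - a02 * q11 * s22 + 4 * a02 * q02 * s12 + 2 * a02 * q02 * s21 - 4 * b02 ^ 2 * q02
        - 1 / 2 * b02 * u11 * u02 + 2 * b02 * u02 * v02 + b02 * u02 * l2 + 2 * b02 * q02 * s22
        - c02 * u02 ^ 2 + 1 / 2 * u11 * u02 * s22 - u02 ^ 2 * s12 - 1 / 2 * u02 ^ 2 * s21
        - 1 / 2 * u02 * v02 * s22 = 0)
    (hD : ∃ x y : ℂ, (x ^ 4 * q20 + x ^ 3 * y * q11 + x ^ 2 * y ^ 2 * q02 + x ^ 3 * u20 + x ^ 2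
        * y * u11 + x * y ^ 2 * u02 + x ^ 2 * a20 + y ^ 2 * a02 + x) * (x ^ 2 * y ^ 2 * q20 + x
        * y ^ 3 * q11 + y ^ 4 * q02 + x ^ 2 * y * v20 + x * y ^ 2 * v11 + y ^ 3 * v02 + x ^ 2
        * c20 + x * y * c11 + y ^ 2 * c02) - (x ^ 3 * y * q20 + x ^ 2 * y ^ 2 * q11 + x * y ^ 3
        * q02 + 1 / 2 * x ^ 3 * v20 + 1 / 2 * x ^ 2 * y * u20 + 1 / 2 * x ^ 2 * y * v11 + 1 / 2
        * x * y ^ 2 * u11 + 1 / 2 * x * y ^ 2 * v02 + 1 / 2 * y ^ 3 * u02 + x ^ 2 * b20 + y ^ 2
        * b02) ^ 2 ≠ 0) :
    ((a20 = 0) ∧ (b20 = 0) ∧ (b02 = 0) ∧ (c20 = 0) ∧ (c11 = 0) ∧ (c02 = 0) ∧ (u20 = 0) ∧ (u11 = 0) ∧ (v20 = 0) ∧ (v11 = 0) ∧ (v02 = 0) ∧ (q20 = 0) ∧ (q11 = 0) ∧ (q02 = 0) ∧ (u02 ≠ 0)) ∨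
    ((a20 = 0) ∧ (a02 = 0) ∧ (b20 = 0) ∧ (b02 = 0) ∧ (c20 = 0) ∧ (c11 = 0) ∧ (c02 = 0) ∧ (u20 = 0) ∧ (u11 = -3 * v02) ∧ (u02 = 0) ∧ (v20 = 0) ∧ (v11 = 0) ∧ (q20 = 0) ∧ (q11 = 0) ∧ (q02 = 0) ∧ (v02 ≠ 0)) ∨
    ((a20 = 0) ∧ (a02 = 0) ∧ (b20 = 0) ∧ (c20 = 0) ∧ (c11 = 0) ∧ (c02 = 0) ∧ (u20 = 0) ∧ (u11 = 0) ∧ (v20 = 0) ∧ (v11 = 0) ∧ (v02 = 0) ∧ (q20 = 0) ∧ (q11 = 0) ∧ (q02 = 0) ∧ (b02 ≠ 0)) ∨
    ((a20 = 0) ∧ (b20 = 0) ∧ (c20 = 0) ∧ (c11 = 0) ∧ (c02 = 0) ∧ (u20 = 0) ∧ (u11 = 0) ∧ (v20 = 0) ∧ (v11 = 0) ∧ (v02 = 0) ∧ (q20 = 0) ∧ (q11 = 0) ∧ (q02 = 0) ∧ (b02 ≠ 0) ∧ (a02 ≠ 0)) ∨
    ((a20 = 0) ∧ (a02 = 0) ∧ (b20 = 0) ∧ (b02 = 0) ∧ (c20 = 0) ∧ (c11 = 0) ∧ (u20 = 0) ∧ (u11 = 0) ∧ (u02 = 0) ∧ (v20 = 0) ∧ (v11 = 0) ∧ (v02 = 0) ∧ (q20 = 0) ∧ (q11 = 0) ∧ (q02 = 0) ∧ (c02 ≠ 0)) ∨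
    ((a02 = 0) ∧ (b20 = 0) ∧ (b02 = 0) ∧ (c20 = 0) ∧ (c11 = 0) ∧ (u20 = 0) ∧ (u11 = 0) ∧ (u02 = 0) ∧ (v20 = 0) ∧ (v11 = 0) ∧ (v02 = 0) ∧ (q20 = 0) ∧ (q11 = 0) ∧ (q02 = 0) ∧ (c02 ≠ 0) ∧ (a20 ≠ 0)) ∨
    ((a02 = 0) ∧ (b20 = 0) ∧ (b02 = 0) ∧ (c20 = 0) ∧ (c11 = 0) ∧ (c02 = a20) ∧ (u20 = 0) ∧ (u11 = -3 * v02) ∧ (u02 = 0) ∧ (v20 = 0) ∧ (v11 = 0) ∧ (q20 = 0) ∧ (q11 = -2 * a20 * v02) ∧ (q02 = 0) ∧ (a20 ≠ 0) ∧ (v02 ≠ 0)) := by
  have t1 : 0 = s1 := by linear_combination (-1) * e1_1_0
  subst t1
  have t2 : 0 = s12 := by linear_combination (-1) * e1_1_1
  subst t2
  have t3 : -b20 * s2 + b20 = s11 := by linear_combination (-1) * e1_2_0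
  subst t3
  by_cases h1 : c02 = 0
  · have t4 : 0 = c02 := by linear_combination (-1) * h1
    subst t4
    by_cases h2 : b02 = 0
    · have t5 : 0 = b02 := by linear_combination (-1) * h2
      subst t5
      by_cases h3 : c20 = 0
      · have t6 : 0 = c20 := by linear_combination (-1) * h3
        subst t6
        by_cases h4 : c11 = 0
        · have t7 : 0 = c11 := by linear_combination (-1) * h4
          subst t7
          have t8 : a02 * b20 * s2 + a02 * b20 - 1 / 2 * u11 * s2 - 1 / 2 * v02 * s2 + 1 / 2
              * v02 = l2 := by linear_combination (-1) * e1_1_2
          subst t8
          have t9 : -b20 * s22 - 1 / 2 * u20 * s2 - 1 / 2 * v11 * s2 + 1 / 2 * u20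
              + v11 = l1 := by linear_combination (-1) * e1_2_1
          subst t9
          by_cases h5 : v02 = 0
          · have t10 : 0 = v02 := by linear_combination (-1) * h5
            subst t10
            by_cases h6 : u02 = 0
            · have t11 : 0 = u02 := by linear_combination (-1) * h6
              subst t11
              by_cases h7 : v20 = 0
              · have t12 : 0 = v20 := by linear_combination (-1) * h7
                subst t12
                by_cases h8 : v11 = 0
                · have t13 : 0 = v11 := by linear_combination (-1) * h8
                  subst t13
                  by_cases h9 : b20 = 0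
                  · have t14 : 0 = b20 := by linear_combination (-1) * h9
                    subst t14
                    by_cases h10 : q02 = 0
                    · have t15 : 0 = q02 := by linear_combination (-1) * h10
                      subst t15
                      by_cases h11 : q20 = 0
                      · have t16 : 0 = q20 := by linear_combination (-1) * h11
                        subst t16
                        by_cases h12 : q11 = 0
                        · have t17 : 0 = q11 := by linear_combination (-1) * h12
                          subst t17
                          by_cases h13 : a02 = 0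
                          · have t18 : 0 = a02 := by linear_combination (-1) * h13
                            subst t18
                            by_cases h14 : u11 = 0
                            · have t19 : 0 = u11 := by linear_combination (-1) * h14
                              subst t19
                              by_cases h15 : u20 = 0
                              · have t20 : 0 = u20 := by linear_combination (-1) * h15
                                subst t20
                                exfalso
                                obtain ⟨x, y, hxy⟩ := hD
                                exact hxy (by linear_combination 0)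
                              · have t21 : (u20) ^ 1 * (s22) = 0 := by linear_combination (2)
                                    * e1_2_2
                                have t22 := (mul_eq_zero.mp t21).resolve_left (pow_ne_zero 1 h15)
                                have t23 : 0 = s22 := by linear_combination (-1) * t22
                                subst t23
                                have t24 : (u20) ^ 1 * (a20 * s2 - a20
                                    - s21) = 0 := by linear_combination (-2) * e1_3_1
                                have t25 := (mul_eq_zero.mp t24).resolve_left (pow_ne_zero 1 h15)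
                                have t26 : a20 * s2 - a20 = s21 := by linear_combination (1) * t25
                                subst t26
                                have t27 : (u20) ^ 2 * (s2
                                    - 3) = 0 := by linear_combination (-4) * e1_4_1
                                have t28 := (mul_eq_zero.mp t27).resolve_left (pow_ne_zero 2 h15)
                                have t29 : 3 = s2 := by linear_combination (-1) * t28
                                subst t29
                                exfalso
                                have t30 : (u20) ^ 2 * (1) = 0 := by linear_combination (1 / 3)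
                                    * f_3_2
                                have t31 := (mul_eq_zero.mp t30).resolve_left (pow_ne_zero 2 h15)
                                exact absurd t31 (by norm_num)
                            · have t32 : (u11) ^ 1 * (s22) = 0 := by linear_combination (2) * e1_1_3
                              have t33 := (mul_eq_zero.mp t32).resolve_left (pow_ne_zero 1 h14)
                              have t34 : 0 = s22 := by linear_combination (-1) * t33
                              subst t34
                              have t35 : (u11) ^ 1 * (a20 * s2 - a20
                                  - s21) = 0 := by linear_combination (-2) * e1_2_2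
                              have t36 := (mul_eq_zero.mp t35).resolve_left (pow_ne_zero 1 h14)
                              have t37 : a20 * s2 - a20 = s21 := by linear_combination (1) * t36
                              subst t37
                              have t38 : (u11) ^ 2 * (s2 - 1) = 0 := by linear_combination (-4)
                                  * e1_2_3
                              have t39 := (mul_eq_zero.mp t38).resolve_left (pow_ne_zero 2 h14)
                              have t40 : 1 = s2 := by linear_combination (-1) * t39
                              subst t40
                              have t41 : (u11) ^ 1 * (u20) = 0 := by linear_combination (2) * e1_3_2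
                              have t42 := (mul_eq_zero.mp t41).resolve_left (pow_ne_zero 1 h14)
                              have t43 : 0 = u20 := by linear_combination (-1) * t42
                              subst t43
                              exfalso
                              have t44 : (u11) ^ 2 * (1) = 0 := by linear_combination (2) * f_1_4
                              have t45 := (mul_eq_zero.mp t44).resolve_left (pow_ne_zero 2 h14)
                              exact absurd t45 (by norm_num)
                          · by_cases h16 : u11 = 0
                            · have t46 : 0 = u11 := by linear_combination (-1) * h16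
                              subst t46
                              by_cases h17 : u20 = 0
                              · have t47 : 0 = u20 := by linear_combination (-1) * h17
                                subst t47
                                exfalso
                                obtain ⟨x, y, hxy⟩ := hD
                                exact hxy (by linear_combination 0)
                              · have t48 : (u20) ^ 1 * (s22) = 0 := by linear_combination (2)
                                    * e1_2_2
                                have t49 := (mul_eq_zero.mp t48).resolve_left (pow_ne_zero 1 h17)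
                                have t50 : 0 = s22 := by linear_combination (-1) * t49
                                subst t50
                                have t51 : (a02) ^ 1 * ((u20) ^ 1 * (s2
                                    + 1)) = 0 := by linear_combination (-2) * e1_1_3
                                have t52 := (mul_eq_zero.mp t51).resolve_left (pow_ne_zero 1 h13)
                                have t53 := (mul_eq_zero.mp t52).resolve_left (pow_ne_zero 1 h17)
                                have t54 : -1 = s2 := by linear_combination (-1) * t53
                                subst t54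
                                have t55 : (u20) ^ 1 * (2 * a20
                                    + s21) = 0 := by linear_combination (2) * e1_3_1
                                have t56 := (mul_eq_zero.mp t55).resolve_left (pow_ne_zero 1 h17)
                                have t57 : -2 * a20 = s21 := by linear_combination (-1) * t56
                                subst t57
                                exfalso
                                have t58 : (u20) ^ 2 * (1) = 0 := by linear_combination e1_4_1
                                have t59 := (mul_eq_zero.mp t58).resolve_left (pow_ne_zero 2 h17)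
                                exact absurd t59 (by norm_num)
                            · have t60 : (a02) ^ 1 * ((u11) ^ 1 * (s2
                                  + 1)) = 0 := by linear_combination (-2) * e1_0_4
                              have t61 := (mul_eq_zero.mp t60).resolve_left (pow_ne_zero 1 h13)
                              have t62 := (mul_eq_zero.mp t61).resolve_left (pow_ne_zero 1 h16)
                              have t63 : -1 = s2 := by linear_combination (-1) * t62
                              subst t63
                              have t64 : (u11) ^ 1 * (s22) = 0 := by linear_combination (2) * e1_1_3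
                              have t65 := (mul_eq_zero.mp t64).resolve_left (pow_ne_zero 1 h16)
                              have t66 : 0 = s22 := by linear_combination (-1) * t65
                              subst t66
                              have t67 : (u11) ^ 1 * (2 * a20
                                  + s21) = 0 := by linear_combination (2) * e1_2_2
                              have t68 := (mul_eq_zero.mp t67).resolve_left (pow_ne_zero 1 h16)
                              have t69 : -2 * a20 = s21 := by linear_combination (-1) * t68
                              subst t69
                              exfalso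
                              have t70 : (u11) ^ 2 * (1) = 0 := by linear_combination (2) * e1_2_3
                              have t71 := (mul_eq_zero.mp t70).resolve_left (pow_ne_zero 2 h16)
                              exact absurd t71 (by norm_num)
                        · have t72 : (q11) ^ 1 * (s2 - 1) = 0 := by linear_combination e2_1_3
                          have t73 := (mul_eq_zero.mp t72).resolve_left (pow_ne_zero 1 h12)
                          have t74 : 1 = s2 := by linear_combination (-1) * t73
                          subst t74
                          have t75 : 1 / 2 * u20 * s22 + 1 / 2 * u11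
                              * s21 = q11 := by linear_combination e1_2_2
                          subst t75
                          have n18 : u20 * s22 + u11
                              * s21 ≠ 0 := fun h0 => h12 (by linear_combination (1 / 2) * h0)
                          by_cases h19 : u20 = 0
                          · have t76 : 0 = u20 := by linear_combination (-1) * h19
                            subst t76
                            have n20 : u11 ≠ 0 := fun h0 => n18 (by linear_combination (s21) * h0)
                            have n21 : s21 ≠ 0 := fun h0 => n18 (by linear_combination (u11) * h0)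
                            have t77 : (u11) ^ 1 * (s22) = 0 := by linear_combination (2) * e1_1_3
                            have t78 := (mul_eq_zero.mp t77).resolve_left (pow_ne_zero 1 n20)
                            have t79 : 0 = s22 := by linear_combination (-1) * t78
                            subst t79
                            have t80 : (u11) ^ 1 * (a02) = 0 := by linear_combination (-1) * e1_0_4
                            have t81 := (mul_eq_zero.mp t80).resolve_left (pow_ne_zero 1 n20)
                            have t82 : 0 = a02 := by linear_combination (-1) * t81
                            subst t82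
                            exfalso
                            have t83 : (u11) ^ 1 * ((s21) ^ 1
                                * (1)) = 0 := by linear_combination (-1) * f_1_3
                            have t84 := (mul_eq_zero.mp t83).resolve_left (pow_ne_zero 1 n20)
                            have t85 := (mul_eq_zero.mp t84).resolve_left (pow_ne_zero 1 n21)
                            exact absurd t85 (by norm_num)
                          · have t86 : (u20) ^ 1 * (s21) = 0 := by linear_combination (2) * e1_3_1
                            have t87 := (mul_eq_zero.mp t86).resolve_left (pow_ne_zero 1 h19)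
                            have t88 : 0 = s21 := by linear_combination (-1) * t87
                            subst t88
                            have n22 : s22 ≠ 0 := fun h0 => n18 (by linear_combination (u20) * h0)
                            have r23 : 2 * a02 * u20 - u11
                                * s22 = 0 := by linear_combination (-2) * e1_1_3
                            by_cases h24 : a02 = 0
                            · have t89 : 0 = a02 := by linear_combination (-1) * h24
                              subst t89
                              have t90 : (s22) ^ 1 * (u11) = 0 := by linear_combination (-1) * r23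
                              have t91 := (mul_eq_zero.mp t90).resolve_left (pow_ne_zero 1 n22)
                              have t92 : 0 = u11 := by linear_combination (-1) * t91
                              subst t92
                              exfalso
                              have t93 : (u20) ^ 1 * ((s22) ^ 1
                                  * (1)) = 0 := by linear_combination (-1) * f_1_3
                              have t94 := (mul_eq_zero.mp t93).resolve_left (pow_ne_zero 1 h19)
                              have t95 := (mul_eq_zero.mp t94).resolve_left (pow_ne_zero 1 n22)
                              exact absurd t95 (by norm_num)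
                            · exfalso
                              have t96 : (u20) ^ 1 * ((a02) ^ 2
                                  * (1)) = 0 := by linear_combination (-1 / 2 * s22) * e1_0_4
                                  + (1 / 2 * a02) * r23
                              have t97 := (mul_eq_zero.mp t96).resolve_left (pow_ne_zero 1 h19)
                              have t98 := (mul_eq_zero.mp t97).resolve_left (pow_ne_zero 2 h24)
                              exact absurd t98 (by norm_num)
                      · have t99 : (q20) ^ 1 * (s2 - 2) = 0 := by linear_combination e2_2_2
                        have t100 := (mul_eq_zero.mp t99).resolve_left (pow_ne_zero 1 h11)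
                        have t101 : 2 = s2 := by linear_combination (-1) * t100
                        subst t101
                        have t102 : 0 = q11 := by linear_combination (-1) * e2_1_3
                        subst t102
                        have t103 : -1 / 2 * a20 * u20 + 1 / 2 * u20
                            * s21 = q20 := by linear_combination e1_3_1
                        subst t103
                        have n25 : u20 ≠ 0 := fun h0 => h11 (by linear_combination (-1 / 2
                            * a20 + 1 / 2 * s21) * h0)
                        have n26 : a20
                            - s21 ≠ 0 := fun h0 => h11 (by linear_combination (-1 / 2 * u20) * h0)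
                        have r27 : 3 * a02 * u20 - u11 * s22 = 0 := by linear_combination (-2)
                            * e1_1_3
                        have r28 : a20 * u11 - u20 * s22 - u11
                            * s21 = 0 := by linear_combination (-2) * e1_2_2
                        have r29 : a20 * u11 ^ 2 - 3 * a02 * u20 ^ 2 - u11 ^ 2
                            * s21 = 0 := by linear_combination (-u20) * r27 + (u11) * r28
                        by_cases h30 : u11 = 0
                        · have t104 : 0 = u11 := by linear_combination (-1) * h30
                          subst t104
                          have t105 : (u20) ^ 2 * (a02) = 0 := by linear_combination (-1 / 3) * r29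
                          have t106 := (mul_eq_zero.mp t105).resolve_left (pow_ne_zero 2 n25)
                          have t107 : 0 = a02 := by linear_combination (-1) * t106
                          subst t107
                          have t108 : (u20) ^ 1 * (s22) = 0 := by linear_combination (-1) * r28
                          have t109 := (mul_eq_zero.mp t108).resolve_left (pow_ne_zero 1 n25)
                          have t110 : 0 = s22 := by linear_combination (-1) * t109
                          subst t110
                          exfalso
                          have t111 : (u20) ^ 1 * ((a20 - s21) ^ 1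
                              * (1)) = 0 := by linear_combination (1 / 3) * f_2_2
                          have t112 := (mul_eq_zero.mp t111).resolve_left (pow_ne_zero 1 n25)
                          have t113 := (mul_eq_zero.mp t112).resolve_left (pow_ne_zero 1 n26)
                          exact absurd t113 (by norm_num)
                        · exfalso
                          have t114 : (a20 - s21) ^ 1 * ((u11) ^ 3
                              * (1)) = 0 := by linear_combination (-2 * u20 ^ 2) * e1_0_4
                              + (u11) * r29
                          have t115 := (mul_eq_zero.mp t114).resolve_left (pow_ne_zero 1 n26)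
                          have t116 := (mul_eq_zero.mp t115).resolve_left (pow_ne_zero 3 h30)
                          exact absurd t116 (by norm_num)
                    · have t117 : (q02) ^ 1 * (s2) = 0 := by linear_combination e2_0_4
                      have t118 := (mul_eq_zero.mp t117).resolve_left (pow_ne_zero 1 h10)
                      have t119 : 0 = s2 := by linear_combination (-1) * t118
                      subst t119
                      have t120 : 0 = q11 := by linear_combination e2_1_3
                      subst t120
                      have t121 : 0 = q20 := by linear_combination (1 / 2) * e2_2_2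
                      subst t121
                      have t122 : -1 / 2 * a02 * u20 + 1 / 2 * u11
                          * s22 = q02 := by linear_combination e1_1_3
                      subst t122
                      have n31 : a02 * u20 - u11
                          * s22 ≠ 0 := fun h0 => h10 (by linear_combination (-1 / 2) * h0)
                      by_cases h32 : a02 = 0
                      · have t123 : 0 = a02 := by linear_combination (-1) * h32
                        subst t123
                        have n33 : u11 ≠ 0 := fun h0 => n31 (by linear_combination (-s22) * h0)
                        have n34 : s22 ≠ 0 := fun h0 => n31 (by linear_combination (-u11) * h0)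
                        have r35 : a20 * u11 + u20 * s22 + u11
                            * s21 = 0 := by linear_combination (2) * e1_2_2
                        by_cases h36 : u20 = 0
                        · have t124 : 0 = u20 := by linear_combination (-1) * h36
                          subst t124
                          have t125 : (u11) ^ 1 * (a20 + s21) = 0 := by linear_combination r35
                          have t126 := (mul_eq_zero.mp t125).resolve_left (pow_ne_zero 1 n33)
                          have r37 : a20 + s21 = 0 := by linear_combination t126
                          have t127 : -a20 = s21 := by linear_combination (-1) * r37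
                          subst t127
                          exfalso
                          have t128 : (u11) ^ 1 * ((s22) ^ 2
                              * (1)) = 0 := by linear_combination (2) * e1_1_4
                          have t129 := (mul_eq_zero.mp t128).resolve_left (pow_ne_zero 1 n33)
                          have t130 := (mul_eq_zero.mp t129).resolve_left (pow_ne_zero 2 n34)
                          exact absurd t130 (by norm_num)
                        · exfalso
                          have t131 : (s22) ^ 1 * ((u20) ^ 2
                              * (1)) = 0 := by linear_combination (-2 * u11) * e1_3_1 + (u20) * r35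
                          have t132 := (mul_eq_zero.mp t131).resolve_left (pow_ne_zero 1 n34)
                          have t133 := (mul_eq_zero.mp t132).resolve_left (pow_ne_zero 2 h36)
                          exact absurd t133 (by norm_num)
                      · have t134 : (a02) ^ 1 * (u11) = 0 := by linear_combination (-2) * e1_0_4
                        have t135 := (mul_eq_zero.mp t134).resolve_left (pow_ne_zero 1 h32)
                        have t136 : 0 = u11 := by linear_combination (-1) * t135
                        subst t136
                        have n38 : u20 ≠ 0 := fun h0 => n31 (by linear_combination (a02) * h0)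
                        have t137 : (u20) ^ 1 * (s22) = 0 := by linear_combination (2) * e1_2_2
                        have t138 := (mul_eq_zero.mp t137).resolve_left (pow_ne_zero 1 n38)
                        have t139 : 0 = s22 := by linear_combination (-1) * t138
                        subst t139
                        have t140 : (u20) ^ 1 * (a20 + s21) = 0 := by linear_combination (2)
                            * e1_3_1
                        have t141 := (mul_eq_zero.mp t140).resolve_left (pow_ne_zero 1 n38)
                        have t142 : -a20 = s21 := by linear_combination (-1) * t141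
                        subst t142
                        exfalso
                        have t143 : (u20) ^ 2 * (1) = 0 := by linear_combination (4 / 3) * e1_4_1
                        have t144 := (mul_eq_zero.mp t143).resolve_left (pow_ne_zero 2 n38)
                        exact absurd t144 (by norm_num)
                  · have t145 : (b20) ^ 2 * (s2 - 3) = 0 := by linear_combination (-1) * e2_3_0
                    have t146 := (mul_eq_zero.mp t145).resolve_left (pow_ne_zero 2 h9)
                    have t147 : 3 = s2 := by linear_combination (-1) * t146
                    subst t147
                    have t148 : (b20) ^ 1 * (2 * a20 - s21) = 0 := by linear_combination (-1)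
                        * e1_3_0
                    have t149 := (mul_eq_zero.mp t148).resolve_left (pow_ne_zero 1 h9)
                    have t150 : 2 * a20 = s21 := by linear_combination (1) * t149
                    subst t150
                    exfalso
                    have t151 : (b20) ^ 2 * (1) = 0 := by linear_combination (1 / 12) * f_3_0
                    have t152 := (mul_eq_zero.mp t151).resolve_left (pow_ne_zero 2 h9)
                    exact absurd t152 (by norm_num)
                · have t153 : (v11) ^ 1 * (s2 - 1) = 0 := by linear_combination e2_1_2
                  have t154 := (mul_eq_zero.mp t153).resolve_left (pow_ne_zero 1 h8)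
                  have t155 : 1 = s2 := by linear_combination (-1) * t154
                  subst t155
                  by_cases h39 : b20 = 0
                  · have t156 : 0 = b20 := by linear_combination (-1) * h39
                    subst t156
                    exfalso
                    have t157 : (v11) ^ 1 * (1) = 0 := by linear_combination (-1 / 2) * f_1_2
                    have t158 := (mul_eq_zero.mp t157).resolve_left (pow_ne_zero 1 h8)
                    exact absurd t158 (by norm_num)
                  · exfalso
                    have t159 : (b20) ^ 2 * (1) = 0 := by linear_combination (1 / 2) * e2_3_0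
                    have t160 := (mul_eq_zero.mp t159).resolve_left (pow_ne_zero 2 h39)
                    exact absurd t160 (by norm_num)
              · have t161 : (v20) ^ 1 * (s2 - 2) = 0 := by linear_combination e2_2_1
                have t162 := (mul_eq_zero.mp t161).resolve_left (pow_ne_zero 1 h7)
                have t163 : 2 = s2 := by linear_combination (-1) * t162
                subst t163
                have t164 : 0 = v11 := by linear_combination (-1) * e2_1_2
                subst t164
                have t165 : -2 * a20 * b20 + 2 * b20 * s21 = v20 := by linear_combination (2)
                    * e1_3_0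
                subst t165
                have n40 : b20 ≠ 0 := fun h0 => h7 (by linear_combination (-2 * a20 + 2 * s21) * h0)
                have n41 : a20 - s21 ≠ 0 := fun h0 => h7 (by linear_combination (-2 * b20) * h0)
                exfalso
                have t166 : (b20) ^ 2 * (1) = 0 := by linear_combination e2_3_0
                have t167 := (mul_eq_zero.mp t166).resolve_left (pow_ne_zero 2 n40)
                exact absurd t167 (by norm_num)
            · have t168 : (u02) ^ 1 * (s2 + 1) = 0 := by linear_combination (2) * e1_0_3
              have t169 := (mul_eq_zero.mp t168).resolve_left (pow_ne_zero 1 h6)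
              have t170 : -1 = s2 := by linear_combination (-1) * t169
              subst t170
              have t171 : 0 = v11 := by linear_combination (1 / 2) * e2_1_2
              subst t171
              have t172 : 0 = v20 := by linear_combination (1 / 3) * e2_2_1
              subst t172
              by_cases h42 : b20 = 0
              · have t173 : 0 = b20 := by linear_combination (-1) * h42
                subst t173
                have t174 : (u02) ^ 1 * (s22) = 0 := by linear_combination (2) * e1_0_4
                have t175 := (mul_eq_zero.mp t174).resolve_left (pow_ne_zero 1 h6)
                have t176 : 0 = s22 := by linear_combination (-1) * t175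
                subst t176
                have t177 : 0 = q02 := by linear_combination e2_0_4
                subst t177
                have t178 : 0 = q11 := by linear_combination (1 / 2) * e2_1_3
                subst t178
                have t179 : 0 = q20 := by linear_combination (1 / 3) * e2_2_2
                subst t179
                have t180 : (u02) ^ 1 * (2 * a20 + s21) = 0 := by linear_combination (2) * e1_1_3
                have t181 := (mul_eq_zero.mp t180).resolve_left (pow_ne_zero 1 h6)
                have t182 : -2 * a20 = s21 := by linear_combination (-1) * t181
                subst t182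
                have t183 : (u02) ^ 1 * (u11) = 0 := by linear_combination (2) * e1_1_4
                have t184 := (mul_eq_zero.mp t183).resolve_left (pow_ne_zero 1 h6)
                have t185 : 0 = u11 := by linear_combination (-1) * t184
                subst t185
                have t186 : (u02) ^ 1 * (u20) = 0 := by linear_combination e1_2_3
                have t187 := (mul_eq_zero.mp t186).resolve_left (pow_ne_zero 1 h6)
                have t188 : 0 = u20 := by linear_combination (-1) * t187
                subst t188
                have t189 : (u02) ^ 2 * (a20) = 0 := by linear_combination f_0_6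
                have t190 := (mul_eq_zero.mp t189).resolve_left (pow_ne_zero 2 h6)
                have t191 : 0 = a20 := by linear_combination (-1) * t190
                subst t191
                exact Or.inl ⟨by ring, by ring, by ring, by ring, by ring, by ring, by ring, by ring, by ring, by ring, by ring, by ring, by ring, by ring, h6⟩
              · exfalso
                have t192 : (b20) ^ 2 * (1) = 0 := by linear_combination (1 / 4) * e2_3_0
                have t193 := (mul_eq_zero.mp t192).resolve_left (pow_ne_zero 2 h42)
                exact absurd t193 (by norm_num)
          · have t194 : (v02) ^ 1 * (s2) = 0 := by linear_combination e2_0_3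
            have t195 := (mul_eq_zero.mp t194).resolve_left (pow_ne_zero 1 h5)
            have t196 : 0 = s2 := by linear_combination (-1) * t195
            subst t196
            have t197 : 0 = v11 := by linear_combination e2_1_2
            subst t197
            have t198 : 0 = v20 := by linear_combination (1 / 2) * e2_2_1
            subst t198
            have t199 : 0 = u02 := by linear_combination (-2) * e1_0_3
            subst t199
            by_cases h43 : b20 = 0
            · have t200 : 0 = b20 := by linear_combination (-1) * h43
              subst t200
              have t201 : (v02) ^ 1 * (s22) = 0 := by linear_combination e2_0_4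
              have t202 := (mul_eq_zero.mp t201).resolve_left (pow_ne_zero 1 h5)
              have t203 : 0 = s22 := by linear_combination (-1) * t202
              subst t203
              have t204 : 0 = q20 := by linear_combination (1 / 2) * e2_2_2
              subst t204
              have t205 : -1 / 2 * a02 * u20 = q02 := by linear_combination e1_1_3
              subst t205
              have t206 : v02 * s21 = q11 := by linear_combination e2_1_3
              subst t206
              by_cases h44 : u20 = 0
              · have t207 : 0 = u20 := by linear_combination (-1) * h44
                subst t207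
                by_cases h45 : a02 = 0
                · have t208 : 0 = a02 := by linear_combination (-1) * h45
                  subst t208
                  by_cases h46 : u11 - 3 * v02 = 0
                  · have t209 : 3 * v02 = u11 := by linear_combination (-1) * h46
                    subst t209
                    have t210 : (v02) ^ 1 * (a20) = 0 := by linear_combination (1 / 2) * e1_2_2
                    have t211 := (mul_eq_zero.mp t210).resolve_left (pow_ne_zero 1 h5)
                    have t212 : 0 = a20 := by linear_combination (-1) * t211
                    subst t212
                    have t213 : (v02) ^ 1 * (s21) = 0 := by linear_combination f_1_3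
                    have t214 := (mul_eq_zero.mp t213).resolve_left (pow_ne_zero 1 h5)
                    have t215 : 0 = s21 := by linear_combination (-1) * t214
                    subst t215
                    exfalso
                    have t216 : (v02) ^ 2 * (1) = 0 := by linear_combination (1 / 3) * e1_2_3
                    have t217 := (mul_eq_zero.mp t216).resolve_left (pow_ne_zero 2 h5)
                    exact absurd t217 (by norm_num)
                  · have r47 : a20 * u11 + a20 * v02 + u11 * s21 - 3 * v02
                        * s21 = 0 := by linear_combination (2) * e1_2_2
                    by_cases h48 : a20 = 0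
                    · have t218 : 0 = a20 := by linear_combination (-1) * h48
                      subst t218
                      have t219 : (u11 - 3 * v02) ^ 1 * (s21) = 0 := by linear_combination r47
                      have t220 := (mul_eq_zero.mp t219).resolve_left (pow_ne_zero 1 h46)
                      have t221 : 0 = s21 := by linear_combination (-1) * t220
                      subst t221
                      by_cases h49 : u11 - v02 = 0
                      · have t222 : v02 = u11 := by linear_combination (-1) * h49
                        subst t222
                        exfalso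
                        have t223 : (v02) ^ 2 * (1) = 0 := by linear_combination (-1 / 2) * f_1_4
                        have t224 := (mul_eq_zero.mp t223).resolve_left (pow_ne_zero 2 h5)
                        exact absurd t224 (by norm_num)
                      · have t225 : (u11 - v02) ^ 1 * (u11 + 3
                            * v02) = 0 := by linear_combination (4) * e1_2_3
                        have t226 := (mul_eq_zero.mp t225).resolve_left (pow_ne_zero 1 h49)
                        have t227 : -3 * v02 = u11 := by linear_combination (-1) * t226
                        subst t227
                        exact Or.inr (Or.inl ⟨by ring, by ring, by ring, by ring, by ring, by ring, by ring, by ring, by ring, by ring, by ring, by ring, by ring, by ring, by ring, h5⟩)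
                    · have t228 : (v02) ^ 1 * ((a20) ^ 1 * (u11
                          + v02)) = 0 := by linear_combination (-u11 + 3 * v02) * f_1_3 + (v02)
                          * r47
                      have t229 := (mul_eq_zero.mp t228).resolve_left (pow_ne_zero 1 h5)
                      have t230 := (mul_eq_zero.mp t229).resolve_left (pow_ne_zero 1 h48)
                      have t231 : -v02 = u11 := by linear_combination (-1) * t230
                      subst t231
                      have t232 : (v02) ^ 1 * (s21) = 0 := by linear_combination (-1 / 4) * r47
                      have t233 := (mul_eq_zero.mp t232).resolve_left (pow_ne_zero 1 h5)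
                      have t234 : 0 = s21 := by linear_combination (-1) * t233
                      subst t234
                      exfalso
                      have t235 : (v02) ^ 2 * (1) = 0 := by linear_combination (-1) * e1_2_3
                      have t236 := (mul_eq_zero.mp t235).resolve_left (pow_ne_zero 2 h5)
                      exact absurd t236 (by norm_num)
                · have t237 : (a02) ^ 1 * (u11 - 3 * v02) = 0 := by linear_combination (-2) * e1_0_4
                  have t238 := (mul_eq_zero.mp t237).resolve_left (pow_ne_zero 1 h45)
                  have t239 : 3 * v02 = u11 := by linear_combination (-1) * t238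
                  subst t239
                  have t240 : (v02) ^ 1 * (a20) = 0 := by linear_combination (1 / 2) * e1_2_2
                  have t241 := (mul_eq_zero.mp t240).resolve_left (pow_ne_zero 1 h5)
                  have t242 : 0 = a20 := by linear_combination (-1) * t241
                  subst t242
                  have t243 : (v02) ^ 1 * (s21) = 0 := by linear_combination f_1_3
                  have t244 := (mul_eq_zero.mp t243).resolve_left (pow_ne_zero 1 h5)
                  have t245 : 0 = s21 := by linear_combination (-1) * t244
                  subst t245
                  exfalso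
                  have t246 : (v02) ^ 2 * (1) = 0 := by linear_combination (1 / 3) * e1_2_3
                  have t247 := (mul_eq_zero.mp t246).resolve_left (pow_ne_zero 2 h5)
                  exact absurd t247 (by norm_num)
              · have t248 : (u20) ^ 1 * (a20 + s21) = 0 := by linear_combination (2) * e1_3_1
                have t249 := (mul_eq_zero.mp t248).resolve_left (pow_ne_zero 1 h44)
                have t250 : -a20 = s21 := by linear_combination (-1) * t249
                subst t250
                have t251 : (v02) ^ 1 * (a20) = 0 := by linear_combination (1 / 2) * e1_2_2
                have t252 := (mul_eq_zero.mp t251).resolve_left (pow_ne_zero 1 h5)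
                have t253 : 0 = a20 := by linear_combination (-1) * t252
                subst t253
                by_cases h50 : a02 = 0
                · have t254 : 0 = a02 := by linear_combination (-1) * h50
                  subst t254
                  exfalso
                  have t255 : (u20) ^ 2 * (1) = 0 := by linear_combination (4 / 3) * e1_4_1
                  have t256 := (mul_eq_zero.mp t255).resolve_left (pow_ne_zero 2 h44)
                  exact absurd t256 (by norm_num)
                · have t257 : (a02) ^ 1 * (u11 - 3 * v02) = 0 := by linear_combination (-2) * e1_0_4
                  have t258 := (mul_eq_zero.mp t257).resolve_left (pow_ne_zero 1 h50)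
                  have t259 : 3 * v02 = u11 := by linear_combination (-1) * t258
                  subst t259
                  exfalso
                  have t260 : (u20) ^ 2 * (1) = 0 := by linear_combination (4 / 3) * e1_4_1
                  have t261 := (mul_eq_zero.mp t260).resolve_left (pow_ne_zero 2 h44)
                  exact absurd t261 (by norm_num)
            · exfalso
              have t262 : (b20) ^ 2 * (1) = 0 := by linear_combination (1 / 3) * e2_3_0
              have t263 := (mul_eq_zero.mp t262).resolve_left (pow_ne_zero 2 h43)
              exact absurd t263 (by norm_num)
        · have t264 : (c11) ^ 1 * (s2 - 1) = 0 := by linear_combination e2_1_1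
          have t265 := (mul_eq_zero.mp t264).resolve_left (pow_ne_zero 1 h4)
          have t266 : 1 = s2 := by linear_combination (-1) * t265
          subst t266
          exfalso
          have t267 : (c11) ^ 1 * (1) = 0 := by linear_combination (-1 / 2) * f_1_1
          have t268 := (mul_eq_zero.mp t267).resolve_left (pow_ne_zero 1 h4)
          exact absurd t268 (by norm_num)
      · have t269 : (c20) ^ 1 * (s2 - 2) = 0 := by linear_combination e2_2_0
        have t270 := (mul_eq_zero.mp t269).resolve_left (pow_ne_zero 1 h3)
        have t271 : 2 = s2 := by linear_combination (-1) * t270
        subst t271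
        have t272 : 0 = c11 := by linear_combination (-1) * e2_1_1
        subst t272
        exfalso
        have t273 : (c20) ^ 1 * (1) = 0 := by linear_combination (-1 / 6) * f_2_0
        have t274 := (mul_eq_zero.mp t273).resolve_left (pow_ne_zero 1 h3)
        exact absurd t274 (by norm_num)
    · have t275 : (b02) ^ 1 * (s2 + 1) = 0 := by linear_combination e1_0_2
      have t276 := (mul_eq_zero.mp t275).resolve_left (pow_ne_zero 1 h2)
      have t277 : -1 = s2 := by linear_combination (-1) * t276
      subst t277
      have t278 : 0 = c11 := by linear_combination (1 / 2) * e2_1_1
      subst t278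
      have t279 : 0 = c20 := by linear_combination (1 / 3) * e2_2_0
      subst t279
      have t280 : 0 = v02 := by linear_combination e2_0_3
      subst t280
      have t281 : 0 = v20 := by linear_combination (1 / 3) * e2_2_1
      subst t281
      have t282 : (b02) ^ 1 * (2 * b02 - s22) = 0 := by linear_combination (-1) * e1_0_3
      have t283 := (mul_eq_zero.mp t282).resolve_left (pow_ne_zero 1 h2)
      have t284 : 2 * b02 = s22 := by linear_combination (1) * t283
      subst t284
      have t285 : 2 * b20 * b02 = v11 := by linear_combination (1 / 2) * e2_1_2
      subst t285
      have t286 : 3 * b20 * b02 + u20 = l1 := by linear_combination (-1) * e1_2_1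
      subst t286
      have t287 : -2 * a20 * b02 - b02 * s21 + 1 / 2 * u11 = l2 := by linear_combination (-1)
          * e1_1_2
      subst t287
      by_cases h51 : b20 = 0
      · have t288 : 0 = b20 := by linear_combination (-1) * h51
        subst t288
        have t289 : 0 = q20 := by linear_combination (1 / 3) * e2_2_2
        subst t289
        have t290 : b02 * u20 = q11 := by linear_combination (1 / 2) * e2_1_3
        subst t290
        have t291 : -2 * a20 * b02 ^ 2 - b02 ^ 2 * s21 + b02
            * u11 = q02 := by linear_combination e2_0_4
        subst t291
        have r52 : 12 * a20 * b02 ^ 2 + 6 * b02 ^ 2 * s21 + 2 * a20 * u02 - 2 * b02 * u11 + u02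
            * s21 = 0 := by linear_combination (2) * e1_1_3
        have r53 : 16 * a20 ^ 2 * b02 ^ 2 + 20 * a20 * b02 ^ 2 * s21 + 6 * b02 ^ 2 * s21 ^ 2
            + 4 * a20 ^ 2 * u02 + 4 * a20 * u02 * s21 - 4 * b02 ^ 2 * u20 + u02
            * s21 ^ 2 = 0 := by linear_combination (4 * b02) * e1_2_2 + (2 * a20 + s21) * r52
        by_cases h54 : a02 = 0
        · have t292 : 0 = a02 := by linear_combination (-1) * h54
          subst t292
          by_cases h55 : 2 * a20 + s21 = 0
          · have t293 : -2 * a20 = s21 := by linear_combination (-1) * h55
            subst t293
            have t294 : (b02) ^ 1 * (u11) = 0 := by linear_combination (-1 / 2) * r52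
            have t295 := (mul_eq_zero.mp t294).resolve_left (pow_ne_zero 1 h2)
            have t296 : 0 = u11 := by linear_combination (-1) * t295
            subst t296
            have t297 : (b02) ^ 2 * (u20) = 0 := by linear_combination (-1 / 4) * r53
            have t298 := (mul_eq_zero.mp t297).resolve_left (pow_ne_zero 2 h2)
            have t299 : 0 = u20 := by linear_combination (-1) * t298
            subst t299
            have t300 : (b02) ^ 2 * (a20) = 0 := by linear_combination (1 / 4) * f_0_4
            have t301 := (mul_eq_zero.mp t300).resolve_left (pow_ne_zero 2 h2)
            have t302 : 0 = a20 := by linear_combination (-1) * t301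
            subst t302
            exact Or.inr (Or.inr (Or.inl ⟨by ring, by ring, by ring, by ring, by ring, by ring, by ring, by ring, by ring, by ring, by ring, by ring, by ring, by ring, h2⟩))
          · have t303 : (2 * a20 + s21) ^ 2 * (8 * a20 * b02 ^ 2 + 6 * b02 ^ 2 * s21 + 2 * a20
                * u02 + u02 * s21) = 0 := by linear_combination (8 * b02 ^ 2) * e1_3_1 + (2
                * a20 + s21) * r53
            have t304 := (mul_eq_zero.mp t303).resolve_left (pow_ne_zero 2 h55)
            have r56 : 8 * a20 * b02 ^ 2 + 6 * b02 ^ 2 * s21 + 2 * a20 * u02 + u02
                * s21 = 0 := by linear_combination t304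
            have r57 : 8 * a20 ^ 2 * b02 ^ 2 + 4 * a20 * b02 ^ 2 * s21 - 4 * a20 * b02 * u11
                - 2 * b02 * u11 * s21 = 0 := by linear_combination (2 * a20 + s21) * r52 + (-2
                * a20 - s21) * r56
            have r58 : -8 * a20 * b02 ^ 2 * u20 - 4 * b02 ^ 2 * u20
                * s21 = 0 := by linear_combination (2 * a20 + s21) * r53 + (-4 * a20 ^ 2 - 4
                * a20 * s21 - s21 ^ 2) * r56
            have t305 : (b02) ^ 1 * ((2 * a20 + s21) ^ 1 * (4 * a20 * b02 - 2
                * u11)) = 0 := by linear_combination r57
            have t306 := (mul_eq_zero.mp t305).resolve_left (pow_ne_zero 1 h2)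
            have t307 := (mul_eq_zero.mp t306).resolve_left (pow_ne_zero 1 h55)
            have r59 : 4 * a20 * b02 - 2 * u11 = 0 := by linear_combination t307
            have t308 : 2 * a20 * b02 = u11 := by linear_combination (1 / 2) * r59
            subst t308
            have t309 : (b02) ^ 2 * ((2 * a20 + s21) ^ 1
                * (u20)) = 0 := by linear_combination (-1 / 4) * r58
            have t310 := (mul_eq_zero.mp t309).resolve_left (pow_ne_zero 2 h2)
            have t311 := (mul_eq_zero.mp t310).resolve_left (pow_ne_zero 1 h55)
            have t312 : 0 = u20 := by linear_combination (-1) * t311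
            subst t312
            have t313 : (b02) ^ 2 * (2 * a20 + 3 * s21) = 0 := by linear_combination (-1) * f_0_4
            have t314 := (mul_eq_zero.mp t313).resolve_left (pow_ne_zero 2 h2)
            have t315 : -2 / 3 * a20 = s21 := by linear_combination (-1 / 3) * t314
            subst t315
            have n60 : a20 ≠ 0 := fun h0 => h55 (by linear_combination (4 / 3) * h0)
            have t316 : (a20) ^ 1 * (4 * b02 ^ 2 + 4 / 3 * u02) = 0 := by linear_combination r56
            have t317 := (mul_eq_zero.mp t316).resolve_left (pow_ne_zero 1 n60)
            have r61 : 4 * b02 ^ 2 + 4 / 3 * u02 = 0 := by linear_combination t317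
            have t318 : -3 * b02 ^ 2 = u02 := by linear_combination (-3 / 4) * r61
            subst t318
            exfalso
            have t319 : (b02) ^ 2 * ((a20) ^ 2 * (1)) = 0 := by linear_combination (9 / 2) * e1_2_3
            have t320 := (mul_eq_zero.mp t319).resolve_left (pow_ne_zero 2 h2)
            have t321 := (mul_eq_zero.mp t320).resolve_left (pow_ne_zero 2 n60)
            exact absurd t321 (by norm_num)
        · have t322 : (b02) ^ 1 * ((a02) ^ 1 * (2 * a20
              + s21)) = 0 := by linear_combination (-1) * e1_0_4
          have t323 := (mul_eq_zero.mp t322).resolve_left (pow_ne_zero 1 h2)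
          have t324 := (mul_eq_zero.mp t323).resolve_left (pow_ne_zero 1 h54)
          have t325 : -2 * a20 = s21 := by linear_combination (-1) * t324
          subst t325
          have t326 : (b02) ^ 1 * (u11) = 0 := by linear_combination (-1 / 2) * r52
          have t327 := (mul_eq_zero.mp t326).resolve_left (pow_ne_zero 1 h2)
          have t328 : 0 = u11 := by linear_combination (-1) * t327
          subst t328
          have t329 : (b02) ^ 2 * (u20) = 0 := by linear_combination (-1 / 4) * r53
          have t330 := (mul_eq_zero.mp t329).resolve_left (pow_ne_zero 2 h2)
          have t331 : 0 = u20 := by linear_combination (-1) * t330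
          subst t331
          have t332 : (b02) ^ 2 * (a20) = 0 := by linear_combination (1 / 4) * f_0_4
          have t333 := (mul_eq_zero.mp t332).resolve_left (pow_ne_zero 2 h2)
          have t334 : 0 = a20 := by linear_combination (-1) * t333
          subst t334
          exact Or.inr (Or.inr (Or.inr (Or.inl ⟨by ring, by ring, by ring, by ring, by ring, by ring, by ring, by ring, by ring, by ring, by ring, by ring, by ring, h2, h54⟩)))
      · exfalso
        have t335 : (b20) ^ 2 * (1) = 0 := by linear_combination (1 / 4) * e2_3_0
        have t336 := (mul_eq_zero.mp t335).resolve_left (pow_ne_zero 2 h51)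
        exact absurd t336 (by norm_num)
  · have t337 : (c02) ^ 1 * (s2) = 0 := by linear_combination e2_0_2
    have t338 := (mul_eq_zero.mp t337).resolve_left (pow_ne_zero 1 h1)
    have t339 : 0 = s2 := by linear_combination (-1) * t338
    subst t339
    have t340 : 0 = c11 := by linear_combination e2_1_1
    subst t340
    have t341 : 0 = c20 := by linear_combination (1 / 2) * e2_2_0
    subst t341
    have t342 : 0 = b02 := by linear_combination (-1) * e1_0_2
    subst t342
    have t343 : (c02) ^ 1 * (s22) = 0 := by linear_combination e2_0_3
    have t344 := (mul_eq_zero.mp t343).resolve_left (pow_ne_zero 1 h1)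
    have t345 : 0 = s22 := by linear_combination (-1) * t344
    subst t345
    have t346 : c02 * s21 = v11 := by linear_combination e2_1_2
    subst t346
    have t347 : -b20 * c02 = v20 := by linear_combination (1 / 2) * e2_2_1
    subst t347
    have t348 : -4 * a02 * c02 = u02 := by linear_combination (-2) * e1_0_3
    subst t348
    have t349 : a02 * b20 + 1 / 2 * v02 = l2 := by linear_combination (-1) * e1_1_2
    subst t349
    have t350 : c02 * s21 + 1 / 2 * u20 = l1 := by linear_combination (-1) * e1_2_1
    subst t350
    by_cases h62 : b20 = 0
    · have t351 : 0 = b20 := by linear_combination (-1) * h62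
      subst t351
      have t352 : (c02) ^ 1 * (s21) = 0 := by linear_combination f_1_2
      have t353 := (mul_eq_zero.mp t352).resolve_left (pow_ne_zero 1 h1)
      have t354 : 0 = s21 := by linear_combination (-1) * t353
      subst t354
      have t355 : (c02) ^ 2 * (a02) = 0 := by linear_combination (-1 / 4) * e2_0_4
      have t356 := (mul_eq_zero.mp t355).resolve_left (pow_ne_zero 2 h1)
      have t357 : 0 = a02 := by linear_combination (-1) * t356
      subst t357
      have t358 : 0 = q02 := by linear_combination e1_1_3
      subst t358
      have t359 : 1 / 6 * a20 * u20 = q20 := by linear_combination (1 / 3) * e1_3_1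
      subst t359
      have t360 : 1 / 2 * c02 * u11 - 1 / 2 * c02 * v02 = q11 := by linear_combination e2_1_3
      subst t360
      by_cases h63 : u20 = 0
      · have t361 : 0 = u20 := by linear_combination (-1) * h63
        subst t361
        by_cases h64 : a20 = 0
        · have t362 : 0 = a20 := by linear_combination (-1) * h64
          subst t362
          have t363 : (c02) ^ 1 * (v02) = 0 := by linear_combination e1_2_2
          have t364 := (mul_eq_zero.mp t363).resolve_left (pow_ne_zero 1 h1)
          have t365 : 0 = v02 := by linear_combination (-1) * t364
          subst t365
          have t366 : (c02) ^ 1 * (u11) = 0 := by linear_combination (-2) * f_1_3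
          have t367 := (mul_eq_zero.mp t366).resolve_left (pow_ne_zero 1 h1)
          have t368 : 0 = u11 := by linear_combination (-1) * t367
          subst t368
          exact Or.inr (Or.inr (Or.inr (Or.inr (Or.inl ⟨by ring, by ring, by ring, by ring, by ring, by ring, by ring, by ring, by ring, by ring, by ring, by ring, by ring, by ring, by ring, h1⟩))))
        · have r65 : a20 * u11 + a20 * v02 + 2 * c02 * v02 = 0 := by linear_combination (2) * e1_2_2
          by_cases h66 : v02 = 0
          · have t369 : 0 = v02 := by linear_combination (-1) * h66
            subst t369
            have t370 : (a20) ^ 1 * (u11) = 0 := by linear_combination r65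
            have t371 := (mul_eq_zero.mp t370).resolve_left (pow_ne_zero 1 h64)
            have t372 : 0 = u11 := by linear_combination (-1) * t371
            subst t372
            exact Or.inr (Or.inr (Or.inr (Or.inr (Or.inr (Or.inl ⟨by ring, by ring, by ring, by ring, by ring, by ring, by ring, by ring, by ring, by ring, by ring, by ring, by ring, by ring, h1, h64⟩)))))
          · have t373 : (c02) ^ 1 * ((v02) ^ 1 * (a20
                - c02)) = 0 := by linear_combination (-a20) * f_1_3 + (-1 / 2 * c02) * r65
            have t374 := (mul_eq_zero.mp t373).resolve_left (pow_ne_zero 1 h1)
            have t375 := (mul_eq_zero.mp t374).resolve_left (pow_ne_zero 1 h66)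
            have t376 : a20 = c02 := by linear_combination (1) * t375
            subst t376
            have t377 : (a20) ^ 1 * (u11 + 3 * v02) = 0 := by linear_combination r65
            have t378 := (mul_eq_zero.mp t377).resolve_left (pow_ne_zero 1 h64)
            have r67 : u11 + 3 * v02 = 0 := by linear_combination t378
            have t379 : -3 * v02 = u11 := by linear_combination (-1) * r67
            subst t379
            exact Or.inr (Or.inr (Or.inr (Or.inr (Or.inr (Or.inr (⟨by ring, by ring, by ring, by ring, by ring, by ring, by ring, by ring, by ring, by ring, by ring, by ring, by ring, by ring, h64, h66⟩))))))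
      · have t380 : (u20) ^ 1 * (2 * a20 + 3 * c02) = 0 := by linear_combination (-6) * e2_2_2
        have t381 := (mul_eq_zero.mp t380).resolve_left (pow_ne_zero 1 h63)
        have t382 : -3 / 2 * c02 = a20 := by linear_combination (-1 / 2) * t381
        subst t382
        have t383 : (c02) ^ 1 * (3 * u11 - v02) = 0 := by linear_combination (-4) * e1_2_2
        have t384 := (mul_eq_zero.mp t383).resolve_left (pow_ne_zero 1 h1)
        have t385 : 3 * u11 = v02 := by linear_combination (1) * t384
        subst t385
        exfalso
        have t386 : (c02) ^ 1 * ((u20) ^ 1 * (1)) = 0 := by linear_combination (-2 / 3) * f_2_2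
        have t387 := (mul_eq_zero.mp t386).resolve_left (pow_ne_zero 1 h1)
        have t388 := (mul_eq_zero.mp t387).resolve_left (pow_ne_zero 1 h63)
        exact absurd t388 (by norm_num)
    · exfalso
      have t389 : (b20) ^ 2 * (1) = 0 := by linear_combination (1 / 3) * e2_3_0
      have t390 := (mul_eq_zero.mp t389).resolve_left (pow_ne_zero 2 h62)
      exact absurd t390 (by norm_num)

end Pool.Agent.H38.FM
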