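import Mathlib

/-!
# Elimination tree `T2c` (generated)
-/

set_option linter.unusedVariables false
set_option linter.style.longLine false

noncomputable section

namespace Pool.Agent.H38.FM

theorem tree_T2c
    (a20 b20 b11 c20 c11 c02 u20 u11 u02 v20 v11 v02 q20 q11 q02 s1 s2 s11 s12 s21 s22 l1 l2 : ℂ)
    (e1_0_1 : s1 = 0)
    (e1_1_1 : b11 * s2 - 2 * b20 + c11 + s11 = 0)
    (e1_0_2 : -b11 + c02 + s12 = 0)
    (e1_2_1 : a20 * b11 + a20 * s12 + b20 * s22 - b11 ^ 2 + b11 * s21 + 1 / 2 * u20 * s2 + u11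
        * s1 + 1 / 2 * v11 * s2 - v20 = 0)
    (e1_1_2 : b11 * s22 + 1 / 2 * u11 * s2 + u02 * s1 + 1 / 2 * v02 * s2 - u20 - 1 / 2 * v11
        + l1 = 0)
    (e1_0_3 : 1 / 2 * u02 * s2 - 1 / 2 * u11 + l2 = 0)
    (e1_3_1 : -1 / 2 * a20 * v11 + a20 * l1 - 1 / 2 * b20 * u11 - b20 * v02 - b20 * l2 + 3 / 2
        * b11 * u20 - b11 * v11 - b11 * l1 + 2 * c20 * u02 + c11 * u11 + u20 * s12 + 1 / 2
        * u20 * s21 + u11 * s11 + 1 / 2 * v20 * s22 + 1 / 2 * v11 * s21 + q20 * s2 + q11 * s1 = 0)
    (e1_2_2 : 1 / 2 * a20 * u11 + a20 * l2 - 2 * b20 * u02 - 3 / 2 * b11 * v02 - b11 * l2 + 2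
        * c11 * u02 + c02 * u11 + 1 / 2 * u20 * s22 + u11 * s12 + 1 / 2 * u11 * s21 + u02 * s11
        + 1 / 2 * v11 * s22 + 1 / 2 * v02 * s21 + q11 * s2 + q02 * s1 - 3 * q20 = 0)
    (e1_1_3 : a20 * u02 - 3 / 2 * b11 * u02 + 2 * c02 * u02 + 1 / 2 * u11 * s22 + u02 * s12
        + 1 / 2 * u02 * s21 + 1 / 2 * v02 * s22 + q02 * s2 - 2 * q11 = 0)
    (e1_0_4 : 1 / 2 * u02 * s22 - q02 = 0)
    (e2_2_0 : b20 * s1 + c20 * s2 = 0)
    (e2_1_1 : b11 * s1 + c11 * s2 - 2 * c20 = 0)
    (e2_0_2 : c02 * s2 - c11 = 0)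
    (e2_3_0 : -2 * a20 * c20 + 2 * b20 ^ 2 - b20 * c11 + b20 * s11 + b11 * c20 + c20 * s21
        + 1 / 2 * v20 * s1 = 0)
    (e2_1_2 : b11 ^ 2 - b11 * c02 + b11 * s12 + c11 * s22 + c02 * s21 + 1 / 2 * u11 * s1 + v11
        * s2 + 1 / 2 * v02 * s1 - 2 * v20 = 0)
    (e2_0_3 : c02 * s22 + 1 / 2 * u02 * s1 + v02 * s2 - v11 = 0)
    (e2_3_1 : -2 * a20 * v20 + 2 * b20 * u20 - 1 / 2 * b20 * v11 + b20 * l1 + 3 / 2 * b11 * v20
        - 1 / 2 * c20 * u11 + c20 * v02 - c20 * l2 - 1 / 2 * c11 * u20 - c11 * l1 - c02 * v20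
        + 1 / 2 * u20 * s11 + 1 / 2 * v20 * s12 + v20 * s21 + 1 / 2 * v11 * s11 + q20 * s1 = 0)
    (e2_2_2 : -a20 * v11 + 3 / 2 * b20 * u11 - 2 * b20 * v02 + b20 * l2 + 3 / 2 * b11 * u20
        + b11 * l1 + 1 / 2 * c11 * v02 - c11 * l2 - 1 / 2 * c02 * v11 - c02 * l1 + 1 / 2 * u20
        * s12 + 1 / 2 * u11 * s11 + v20 * s22 + 1 / 2 * v11 * s12 + v11 * s21 + 1 / 2 * v02
        * s11 + q20 * s2 + q11 * s1 = 0)
    (e2_1_3 : b20 * u02 + b11 * u11 - 3 / 2 * b11 * v02 + b11 * l2 + 1 / 2 * c11 * u02 + 1 / 2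
        * c02 * u11 - c02 * l2 + 1 / 2 * u11 * s12 + 1 / 2 * u02 * s11 + v11 * s22 + 1 / 2
        * v02 * s12 + v02 * s21 + q11 * s2 + q02 * s1 - 2 * q20 = 0)
    (e2_0_4 : 1 / 2 * b11 * u02 + c02 * u02 + 1 / 2 * u02 * s12 + v02 * s22 + q02 * s2 - q11 = 0)
    (f_0_3 : -b11 * c02 - c11 * s22 + c02 * s12 + 2 * c02 * s21 - v11 * s2 + 4 * v02 * s1 = 0)
    (f_1_3 : -2 * a20 * c02 * s22 - 2 * a20 * v02 * s2 + 2 * b20 * u02 * s2 + 2 * b11 ^ 2 * s22
        + 2 * b11 * u11 * s2 - 4 * b11 * u02 * s1 + 2 * b11 * v02 * s2 - 2 * c11 * u02 * s2 - 2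
        * c02 * u11 * s2 + 4 * c02 * u02 * s1 - 4 * b20 * v02 - b11 * v11 + c20 * u02 + c11
        * u11 + 3 / 2 * c11 * v02 - 3 * c11 * l2 + c02 * u20 - 3 / 2 * c02 * v11 - 3 * c02 * l1
        - 2 * v20 * s22 + v11 * s12 + v11 * s21 + 4 * v02 * s11 - 2 * q20 * s2 + 4 * q11 * s1 = 0)
    (f_0_4 : b11 * u02 * s2 - c02 * u02 * s2 - 2 * b11 * v02 + 1 / 2 * c11 * u02 + 1 / 2 * c02
        * u11 - 3 * c02 * l2 - v11 * s22 + 2 * v02 * s12 + 2 * v02 * s21 - q11 * s2 + 5 * q02
        * s1 = 0)
    (n1 : c02 ≠ 0)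
    (hD : ∃ x y : ℂ, (x ^ 4 * q20 + x ^ 3 * y * q11 + x ^ 2 * y ^ 2 * q02 + x ^ 3 * u20 + x ^ 2
        * y * u11 + x * y ^ 2 * u02 + x ^ 2 * a20 + y) * (x ^ 2 * y ^ 2 * q20 + x * y ^ 3 * q11
        + y ^ 4 * q02 + x ^ 2 * y * v20 + x * y ^ 2 * v11 + y ^ 3 * v02 + x ^ 2 * c20 + x * y
        * c11 + y ^ 2 * c02) - (x ^ 3 * y * q20 + x ^ 2 * y ^ 2 * q11 + x * y ^ 3 * q02 + 1 / 2
        * x ^ 3 * v20 + 1 / 2 * x ^ 2 * y * u20 + 1 / 2 * x ^ 2 * y * v11 + 1 / 2 * x * y ^ 2
        * u11 + 1 / 2 * x * y ^ 2 * v02 + 1 / 2 * y ^ 3 * u02 + x ^ 2 * b20 + x * y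
        * b11) ^ 2 ≠ 0) :
    ((a20 = 0) ∧ (b20 = 0) ∧ (b11 = 1 / 2
        * c02) ∧ (c20 = 0) ∧ (c11 = 0) ∧ (u20 = 0) ∧ (u11 = 0) ∧ (u02 = 0) ∧ (v20 = 0) ∧ (v11 = 0) ∧ (v02 = 0) ∧ (q20 = 0) ∧ (q11 = 0) ∧ (q02 = 0) ∧ (c02 ≠ 0)) ∨
    ((b20 = 0) ∧ (b11 = 1 / 2
        * c02) ∧ (c20 = 0) ∧ (c11 = 0) ∧ (u20 = 0) ∧ (u11 = 0) ∧ (u02 = 0) ∧ (v20 = 0) ∧ (v11 = 0) ∧ (v02 = 0) ∧ (q20 = 0) ∧ (q11 = 0) ∧ (q02 = 0) ∧ (c02 ≠ 0) ∧ (a20 ≠ 0)) ∨
    ((b20 = 0) ∧ (b11 = a20) ∧ (c20 = 0) ∧ (c11 = 0) ∧ (c02 = 2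
        * a20) ∧ (u20 = 0) ∧ (u02 = 0) ∧ (v20 = 0) ∧ (v11 = 0) ∧ (v02 = -u11) ∧ (q20 = a20
        * u11) ∧ (q11 = 0) ∧ (q02 = 0) ∧ (a20 ≠ 0) ∧ (u11 ≠ 0)) ∨
    ((b20 = 0) ∧ (b11 = 1 / 2
        * a20) ∧ (c20 = 0) ∧ (c11 = 0) ∧ (c02 = a20) ∧ (u20 = 0) ∧ (u11 = 0) ∧ (v20 = 0) ∧ (v11 = 0) ∧ (v02 = 0) ∧ (q20 = 0) ∧ (q11 = a20 * u02) ∧ (q02 = 0) ∧ (a20 ≠ 0) ∧ (u02 ≠ 0)) ∨
    ((a20 = -1 / 4 * c02) ∧ (b20 = 0) ∧ (b11 = 1 / 2
        * c02) ∧ (c20 = 0) ∧ (c11 = 0) ∧ (u20 = -1 / 2 * c02 * s22) ∧ (u11 = -2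
        * s22 ^ 2) ∧ (v20 = 0) ∧ (v11 = c02 * s22) ∧ (v02 = s22 ^ 2) ∧ (q20 = -1 / 4 * c02
        * s22 ^ 2) ∧ (q11 = s22 ^ 3 + c02 * u02) ∧ (q02 = 1 / 2 * u02 * s22) ∧ (2 * s22 ^ 3
        + c02 * u02 = 0) ∧ (c02 ≠ 0) ∧ (s22 ≠ 0)) := by
  have t1 : 0 = s1 := by linear_combination (-1) * e1_0_1
  subst t1
  have t2 : c02 * s2 = c11 := by linear_combination e2_0_2
  subst t2
  have t3 : 1 / 2 * c02 * s2 ^ 2 = c20 := by linear_combination (1 / 2) * e2_1_1
  subst t3
  have t4 : b11 - c02 = s12 := by linear_combination (-1) * e1_0_2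
  subst t4
  have t5 : -b11 * s2 - c02 * s2 + 2 * b20 = s11 := by linear_combination (-1) * e1_1_1
  subst t5
  by_cases h2 : s2 = 0
  · have t6 : 0 = s2 := by linear_combination (-1) * h2
    subst t6
    have t7 : 1 / 2 * u11 = l2 := by linear_combination (-1) * e1_0_3
    subst t7
    have t8 : c02 * s22 = v11 := by linear_combination e2_0_3
    subst t8
    have t9 : -b11 * s22 + 1 / 2 * c02 * s22 + u20 = l1 := by linear_combination (-1) * e1_1_2
    subst t9
    have t10 : b11 ^ 2 - b11 * c02 + 1 / 2 * c02 * s21 = v20 := by linear_combination (1 / 2)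
        * e2_1_2
    subst t10
    by_cases h3 : b20 = 0
    · have t11 : 0 = b20 := by linear_combination (-1) * h3
      subst t11
      by_cases h4 : 2 * b11 - c02 = 0
      · have t12 : 1 / 2 * c02 = b11 := by linear_combination (-1 / 2) * h4
        subst t12
        have t13 : (c02) ^ 1 * (c02 - 2 * s21) = 0 := by linear_combination (-1) * f_0_3
        have t14 := (mul_eq_zero.mp t13).resolve_left (pow_ne_zero 1 n1)
        have t15 : 1 / 2 * c02 = s21 := by linear_combination (1 / 2) * t14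
        subst t15
        have t16 : 1 / 2 * u02 * s22 = q02 := by linear_combination e1_0_4
        subst t16
        have t17 : c02 * u02 + v02 * s22 = q11 := by linear_combination e2_0_4
        subst t17
        have t18 : 1 / 2 * c02 * s22 ^ 2 + 1 / 4 * c02 * u11 - 1 / 4 * c02
            * v02 = q20 := by linear_combination (1 / 2) * e2_1_3
        subst t18
        have r5 : -4 * c02 * s22 ^ 2 + 4 * a20 * u11 - c02 * u11 + c02 * v02 + 2 * u20
            * s22 = 0 := by linear_combination (4) * e1_2_2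
        by_cases h6 : s22 = 0
        · have t19 : 0 = s22 := by linear_combination (-1) * h6
          subst t19
          by_cases h7 : a20 = 0
          · have t20 : 0 = a20 := by linear_combination (-1) * h7
            subst t20
            have t21 : (c02) ^ 1 * (-u11 + v02) = 0 := by linear_combination r5
            have t22 := (mul_eq_zero.mp t21).resolve_left (pow_ne_zero 1 n1)
            have r8 : -u11 + v02 = 0 := by linear_combination t22
            have t23 : u11 = v02 := by linear_combination (-1) * r8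
            subst t23
            have t24 : (c02) ^ 1 * (u02) = 0 := by linear_combination (-1) * e1_1_3
            have t25 := (mul_eq_zero.mp t24).resolve_left (pow_ne_zero 1 n1)
            have t26 : 0 = u02 := by linear_combination (-1) * t25
            subst t26
            have t27 : (c02) ^ 1 * (u11) = 0 := by linear_combination (-1 / 2) * f_0_4
            have t28 := (mul_eq_zero.mp t27).resolve_left (pow_ne_zero 1 n1)
            have t29 : 0 = u11 := by linear_combination (-1) * t28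
            subst t29
            have t30 : (c02) ^ 1 * (u20) = 0 := by linear_combination (-1 / 2) * f_1_3
            have t31 := (mul_eq_zero.mp t30).resolve_left (pow_ne_zero 1 n1)
            have t32 : 0 = u20 := by linear_combination (-1) * t31
            subst t32
            exact Or.inl ⟨by ring, by ring, by ring, by ring, by ring, by ring, by ring, by ring, by ring, by ring, by ring, by ring, by ring, by ring, n1⟩
          · have t33 : (a20) ^ 1 * (u20) = 0 := by linear_combination e1_3_1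
            have t34 := (mul_eq_zero.mp t33).resolve_left (pow_ne_zero 1 h7)
            have t35 : 0 = u20 := by linear_combination (-1) * t34
            subst t35
            by_cases h9 : u02 = 0
            · have t36 : 0 = u02 := by linear_combination (-1) * h9
              subst t36
              by_cases h10 : u11 = 0
              · have t37 : 0 = u11 := by linear_combination (-1) * h10
                subst t37
                have t38 : (c02) ^ 1 * (v02) = 0 := by linear_combination r5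
                have t39 := (mul_eq_zero.mp t38).resolve_left (pow_ne_zero 1 n1)
                have t40 : 0 = v02 := by linear_combination (-1) * t39
                subst t40
                exact Or.inr (Or.inl ⟨by ring, by ring, by ring, by ring, by ring, by ring, by ring, by ring, by ring, by ring, by ring, by ring, by ring, n1, h7⟩)
              · have t41 : (c02) ^ 1 * ((u11) ^ 1 * (2 * a20
                    - c02)) = 0 := by linear_combination (1 / 2 * c02) * f_0_4 + (1 / 2 * c02) * r5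
                have t42 := (mul_eq_zero.mp t41).resolve_left (pow_ne_zero 1 n1)
                have t43 := (mul_eq_zero.mp t42).resolve_left (pow_ne_zero 1 h10)
                have t44 : 2 * a20 = c02 := by linear_combination (1) * t43
                subst t44
                have t45 : (a20) ^ 1 * (2 * u11 + 2 * v02) = 0 := by linear_combination r5
                have t46 := (mul_eq_zero.mp t45).resolve_left (pow_ne_zero 1 h7)
                have r11 : 2 * u11 + 2 * v02 = 0 := by linear_combination t46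
                have t47 : -u11 = v02 := by linear_combination (-1 / 2) * r11
                subst t47
                exact Or.inr (Or.inr (Or.inl ⟨by ring, by ring, by ring, by ring, by ring, by ring, by ring, by ring, by ring, by ring, by ring, by ring, by ring, h7, h10⟩))
            · have t48 : (u02) ^ 1 * (a20 - c02) = 0 := by linear_combination e1_1_3
              have t49 := (mul_eq_zero.mp t48).resolve_left (pow_ne_zero 1 h9)
              have t50 : a20 = c02 := by linear_combination (1) * t49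
              subst t50
              have t51 : (a20) ^ 1 * (3 * u11 + v02) = 0 := by linear_combination r5
              have t52 := (mul_eq_zero.mp t51).resolve_left (pow_ne_zero 1 h7)
              have r12 : 3 * u11 + v02 = 0 := by linear_combination t52
              have t53 : -3 * u11 = v02 := by linear_combination (-1) * r12
              subst t53
              have t54 : (a20) ^ 1 * (u11) = 0 := by linear_combination (1 / 2) * f_0_4
              have t55 := (mul_eq_zero.mp t54).resolve_left (pow_ne_zero 1 h7)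
              have t56 : 0 = u11 := by linear_combination (-1) * t55
              subst t56
              exact Or.inr (Or.inr (Or.inr (Or.inl ⟨by ring, by ring, by ring, by ring, by ring, by ring, by ring, by ring, by ring, by ring, by ring, by ring, by ring, h7, h9⟩)))
        · have t57 : (c02) ^ 1 * ((s22) ^ 1 * (4 * a20
              + c02)) = 0 := by linear_combination (-4) * e2_2_2
          have t58 := (mul_eq_zero.mp t57).resolve_left (pow_ne_zero 1 n1)
          have t59 := (mul_eq_zero.mp t58).resolve_left (pow_ne_zero 1 h6)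
          have t60 : -1 / 4 * c02 = a20 := by linear_combination (-1 / 4) * t59
          subst t60
          have t61 : (c02) ^ 1 * (c02 * s22 + 2 * u20) = 0 := by linear_combination (-8) * e1_3_1
          have t62 := (mul_eq_zero.mp t61).resolve_left (pow_ne_zero 1 n1)
          have t63 : -1 / 2 * c02 * s22 = u20 := by linear_combination (-1 / 2) * t62
          subst t63
          have t64 : (c02) ^ 1 * (-5 * s22 ^ 2 - 2 * u11 + v02) = 0 := by linear_combination r5
          have t65 := (mul_eq_zero.mp t64).resolve_left (pow_ne_zero 1 n1)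
          have r13 : -5 * s22 ^ 2 - 2 * u11 + v02 = 0 := by linear_combination t65
          have t66 : 5 * s22 ^ 2 + 2 * u11 = v02 := by linear_combination (-1) * r13
          subst t66
          have r14 : 6 * s22 ^ 3 + c02 * u02 + 2 * u11
              * s22 = 0 := by linear_combination (-4 / 5) * e1_1_3
          have t67 : (c02) ^ 1 * (2 * s22 ^ 2 + u11) = 0 := by linear_combination (-1 / 3) * f_0_4
          have t68 := (mul_eq_zero.mp t67).resolve_left (pow_ne_zero 1 n1)
          have t69 : -2 * s22 ^ 2 = u11 := by linear_combination (-1) * t68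
          subst t69
          exact Or.inr (Or.inr (Or.inr (Or.inr (⟨by ring, by ring, by ring, by ring, by ring, by ring, by ring, by ring, by ring, by ring, by ring, by ring, by ring, by linear_combination r14, n1, h6⟩))))
      · have t70 : (2 * b11 - c02) ^ 1 * (2 * a20 - 2 * b11
            + s21) = 0 := by linear_combination (2) * e1_2_1
        have t71 := (mul_eq_zero.mp t70).resolve_left (pow_ne_zero 1 h4)
        have t72 : -2 * a20 + 2 * b11 = s21 := by linear_combination (-1) * t71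
        subst t72
        have t73 : (c02) ^ 1 * (4 * a20 - 4 * b11 + c02) = 0 := by linear_combination (-1) * f_0_3
        have t74 := (mul_eq_zero.mp t73).resolve_left (pow_ne_zero 1 n1)
        have t75 : a20 + 1 / 4 * c02 = b11 := by linear_combination (1 / 4) * t74
        subst t75
        have n15 : 4 * a20 - c02 ≠ 0 := fun h0 => h4 (by linear_combination (1 / 2) * h0)
        exfalso
        have t76 : (c02) ^ 1 * ((4 * a20 - c02) ^ 2 * (1)) = 0 := by linear_combination (-32)
            * e2_3_1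
        have t77 := (mul_eq_zero.mp t76).resolve_left (pow_ne_zero 1 n1)
        have t78 := (mul_eq_zero.mp t77).resolve_left (pow_ne_zero 2 n15)
        exact absurd t78 (by norm_num)
    · exfalso
      have t79 : (b20) ^ 2 * (1) = 0 := by linear_combination (1 / 4) * e2_3_0
      have t80 := (mul_eq_zero.mp t79).resolve_left (pow_ne_zero 2 h3)
      exact absurd t80 (by norm_num)
  · exfalso
    have t81 : (c02) ^ 1 * ((s2) ^ 3 * (1)) = 0 := by linear_combination (2) * e2_2_0
    have t82 := (mul_eq_zero.mp t81).resolve_left (pow_ne_zero 1 n1)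
    have t83 := (mul_eq_zero.mp t82).resolve_left (pow_ne_zero 3 h2)
    exact absurd t83 (by norm_num)

end Pool.Agent.H38.FM
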