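import Mathlib

/-!
# Elimination tree `T2s` (generated)
-/

set_option linter.unusedVariables false
set_option linter.style.longLine false

noncomputable section

namespace Pool.Agent.H38.FM

theorem tree_T2s
    (b20 b11 b02 c20 c11 c02 u20 u11 u02 v20 v11 v02 q20 q11 q02 s1 s2 s11 s12 s21 s22 l1 l2 : ℂ)
    (e1_0_1 : s1 = 0)
    (e1_1_1 : b11 * s2 - 2 * b20 + c11 + s11 = 0)
    (e1_0_2 : b02 * s2 - b11 + c02 + s12 = 0)
    (e1_2_1 : -2 * b20 * b02 + b20 * s22 + 3 / 2 * b11 ^ 2 - 3 / 2 * b11 * c02 + 5 / 2 * b11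
        * s12 + b11 * s21 - 3 / 2 * c02 * s12 + 1 / 2 * u20 * s2 + u11 * s1 + 1 / 2 * v11 * s2
        - v20 = 0)
    (e1_1_2 : 2 * b11 * b02 + b11 * s22 - 3 * b02 * c02 + b02 * s21 + 1 / 2 * u11 * s2 + u02
        * s1 + 1 / 2 * v02 * s2 - u20 - 1 / 2 * v11 + l1 = 0)
    (e1_0_3 : -2 * b02 ^ 2 + b02 * s22 + 1 / 2 * u02 * s2 - 1 / 2 * u11 + l2 = 0)
    (e1_4_0 : b20 * u20 - 1 / 2 * b20 * v11 - b20 * l1 - 3 * b11 * v20 + c20 * u11 + 3 / 2
        * c02 * v20 + u20 * s11 + 1 / 2 * v20 * s21 + q20 * s1 = 0)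
    (e2_2_0 : b20 * s1 + c20 * s2 = 0)
    (e2_1_1 : b11 * s1 + c11 * s2 - 2 * c20 = 0)
    (e2_0_2 : b02 * s1 + c02 * s2 - c11 = 0)
    (e2_3_0 : 2 * b20 ^ 2 - b20 * c11 + b20 * s11 - 4 * b11 * c20 + 3 * c20 * c02 + c20 * s21
        + 1 / 2 * v20 * s1 = 0)
    (e2_1_2 : 2 * b20 * b02 + b11 ^ 2 - b11 * c02 + b11 * s12 + b02 * c11 + b02 * s11 + c11
        * s22 + c02 * s21 + 1 / 2 * u11 * s1 + v11 * s2 + 1 / 2 * v02 * s1 - 2 * v20 = 0)
    (e2_0_3 : b11 * b02 + b02 * s12 + c02 * s22 + 1 / 2 * u02 * s1 + v02 * s2 - v11 = 0)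
    (e2_2_2 : 3 / 2 * b20 * u11 - 2 * b20 * v02 + b20 * l2 + 3 / 2 * b11 * u20 - 5 / 2 * b11
        * v11 + b11 * l1 + 2 * b02 * v20 + 1 / 2 * c11 * v02 - c11 * l2 + c02 * v11 - c02 * l1
        + 1 / 2 * u20 * s12 + 1 / 2 * u11 * s11 + v20 * s22 + 1 / 2 * v11 * s12 + v11 * s21
        + 1 / 2 * v02 * s11 + q20 * s2 + q11 * s1 = 0)
    (f_0_3 : 2 * b11 * b02 * s2 - 4 * b02 ^ 2 * s1 - b11 * c02 + b02 * c11 - c11 * s22 + c02
        * s12 + 2 * c02 * s21 - v11 * s2 + 4 * v02 * s1 = 0)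
    (n1 : c02 ≠ 0)
    (n2 : b02 ≠ 0)
    (hD : ∃ x y : ℂ, (x ^ 4 * q20 + x ^ 3 * y * q11 + x ^ 2 * y ^ 2 * q02 + x ^ 3 * u20 + x ^ 2
        * y * u11 + x * y ^ 2 * u02 + 5 / 2 * x ^ 2 * b11 - 3 / 2 * x ^ 2 * c02 + y) * (x ^ 2
        * y ^ 2 * q20 + x * y ^ 3 * q11 + y ^ 4 * q02 + x ^ 2 * y * v20 + x * y ^ 2 * v11
        + y ^ 3 * v02 + x ^ 2 * c20 + x * y * c11 + y ^ 2 * c02) - (x ^ 3 * y * q20 + x ^ 2
        * y ^ 2 * q11 + x * y ^ 3 * q02 + 1 / 2 * x ^ 3 * v20 + 1 / 2 * x ^ 2 * y * u20 + 1 / 2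
        * x ^ 2 * y * v11 + 1 / 2 * x * y ^ 2 * u11 + 1 / 2 * x * y ^ 2 * v02 + 1 / 2 * y ^ 3
        * u02 + x ^ 2 * b20 + x * y * b11 + y ^ 2 * b02) ^ 2 ≠ 0) :
    False := by
  have t1 : 0 = s1 := by linear_combination (-1) * e1_0_1
  subst t1
  have t2 : c02 * s2 = c11 := by linear_combination e2_0_2
  subst t2
  have t3 : 1 / 2 * c02 * s2 ^ 2 = c20 := by linear_combination (1 / 2) * e2_1_1
  subst t3
  have t4 : -b02 * s2 + b11 - c02 = s12 := by linear_combination (-1) * e1_0_2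
  subst t4
  have t5 : -b11 * s2 - c02 * s2 + 2 * b20 = s11 := by linear_combination (-1) * e1_1_1
  subst t5
  by_cases h3 : s2 = 0
  · have t6 : 0 = s2 := by linear_combination (-1) * h3
    subst t6
    have t7 : 2 * b02 ^ 2 - b02 * s22 + 1 / 2 * u11 = l2 := by linear_combination (-1) * e1_0_3
    subst t7
    have t8 : 2 * b11 * b02 - b02 * c02 + c02 * s22 = v11 := by linear_combination e2_0_3
    subst t8
    have t9 : 2 * b20 * b02 + b11 ^ 2 - b11 * c02 + 1 / 2 * c02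
        * s21 = v20 := by linear_combination (1 / 2) * e2_1_2
    subst t9
    have t10 : -b11 * b02 - b11 * s22 + 5 / 2 * b02 * c02 - b02 * s21 + 1 / 2 * c02 * s22
        + u20 = l1 := by linear_combination (-1) * e1_1_2
    subst t10
    by_cases h4 : b20 = 0
    · have t11 : 0 = b20 := by linear_combination (-1) * h4
      subst t11
      by_cases h5 : 2 * b11 - c02 = 0
      · have t12 : 1 / 2 * c02 = b11 := by linear_combination (-1 / 2) * h5
        subst t12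
        have t13 : (c02) ^ 1 * (c02 - 2 * s21) = 0 := by linear_combination (-1) * f_0_3
        have t14 := (mul_eq_zero.mp t13).resolve_left (pow_ne_zero 1 n1)
        have t15 : 1 / 2 * c02 = s21 := by linear_combination (1 / 2) * t14
        subst t15
        exfalso
        have t16 : (c02) ^ 2 * ((b02) ^ 1 * (1)) = 0 := by linear_combination (-4 / 3) * e2_2_2
        have t17 := (mul_eq_zero.mp t16).resolve_left (pow_ne_zero 2 n1)
        have t18 := (mul_eq_zero.mp t17).resolve_left (pow_ne_zero 1 n2)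
        exact absurd t18 (by norm_num)
      · have t19 : (2 * b11 - c02) ^ 1 * (3 * b11 - 3 * c02
            + s21) = 0 := by linear_combination (2) * e1_2_1
        have t20 := (mul_eq_zero.mp t19).resolve_left (pow_ne_zero 1 h5)
        have t21 : -3 * b11 + 3 * c02 = s21 := by linear_combination (-1) * t20
        subst t21
        have t22 : (c02) ^ 1 * (6 * b11 - 5 * c02) = 0 := by linear_combination (-1) * f_0_3
        have t23 := (mul_eq_zero.mp t22).resolve_left (pow_ne_zero 1 n1)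
        have t24 : 5 / 6 * c02 = b11 := by linear_combination (-1 / 6) * t23
        subst t24
        exfalso
        have t25 : (c02) ^ 3 * (1) = 0 := by linear_combination (-12) * e1_4_0
        have t26 := (mul_eq_zero.mp t25).resolve_left (pow_ne_zero 3 n1)
        exact absurd t26 (by norm_num)
    · exfalso
      have t27 : (b20) ^ 2 * (1) = 0 := by linear_combination (1 / 4) * e2_3_0
      have t28 := (mul_eq_zero.mp t27).resolve_left (pow_ne_zero 2 h4)
      exact absurd t28 (by norm_num)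
  · exfalso
    have t29 : (c02) ^ 1 * ((s2) ^ 3 * (1)) = 0 := by linear_combination (2) * e2_2_0
    have t30 := (mul_eq_zero.mp t29).resolve_left (pow_ne_zero 1 n1)
    have t31 := (mul_eq_zero.mp t30).resolve_left (pow_ne_zero 3 h3)
    exact absurd t31 (by norm_num)

end Pool.Agent.H38.FM
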