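import Pool.Agent.H38.FM.Facts
import Pool.Agent.H38.FM.TreeT2s
import Pool.Agent.H67.FM.T3Types

/-!
# Type `T2s` is good (generated glue)
-/

set_option linter.unusedVariables false
set_option linter.unusedSimpArgs false
set_option linter.style.longLine false

noncomputable section

namespace Pool.Agent.H38.FM

open FM67

theorem good_TyT2s {p : Par} (hb : Base p) (ht : TyT2s p) : Good p := by
  obtain ⟨s, hs⟩ := base_sys hb
  have h_a00 := hb.2.2.1
  have h_b00 := hb.2.2.2.1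
  have h_c00 := hb.2.2.2.2
  have F := facts_of_sys hs h_a00 h_b00 h_c00
  obtain ⟨⟨h_a10, h_a01, h_b10, h_b01, h_c10, h_c01⟩, n1, h_a11, h_a02, hb1, ha20, -, -⟩ := ht
  have h_a20 : p.a20 = 5 / 2 * p.b11 - 3 / 2 * p.c02 := by linear_combination (1 / 2) * ha20
  have n2 : p.b02 ≠ 0 := by rw [hb1]; exact one_ne_zero
  obtain ⟨x, y, hxy⟩ := hb.1
  have k0 := F.e1_0_1
  simp only [ce1_0_1, h_a10, h_a01, h_b10, h_b01, h_c10, h_c01, h_a20, h_a11, h_a02] at k0
  have k1 := F.e1_1_1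
  simp only [ce1_1_1, h_a10, h_a01, h_b10, h_b01, h_c10, h_c01, h_a20, h_a11, h_a02] at k1
  have k2 := F.e1_0_2
  simp only [ce1_0_2, h_a10, h_a01, h_b10, h_b01, h_c10, h_c01, h_a20, h_a11, h_a02] at k2
  have k3 := F.e1_2_1
  simp only [ce1_2_1, h_a10, h_a01, h_b10, h_b01, h_c10, h_c01, h_a20, h_a11, h_a02] at k3
  have k4 := F.e1_1_2
  simp only [ce1_1_2, h_a10, h_a01, h_b10, h_b01, h_c10, h_c01, h_a20, h_a11, h_a02] at k4
  have k5 := F.e1_0_3
  simp only [ce1_0_3, h_a10, h_a01, h_b10, h_b01, h_c10, h_c01, h_a20, h_a11, h_a02] at k5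
  have k6 := F.e1_4_0
  simp only [ce1_4_0, h_a10, h_a01, h_b10, h_b01, h_c10, h_c01, h_a20, h_a11, h_a02] at k6
  have k7 := F.e2_2_0
  simp only [ce2_2_0, h_a10, h_a01, h_b10, h_b01, h_c10, h_c01, h_a20, h_a11, h_a02] at k7
  have k8 := F.e2_1_1
  simp only [ce2_1_1, h_a10, h_a01, h_b10, h_b01, h_c10, h_c01, h_a20, h_a11, h_a02] at k8
  have k9 := F.e2_0_2
  simp only [ce2_0_2, h_a10, h_a01, h_b10, h_b01, h_c10, h_c01, h_a20, h_a11, h_a02] at k9
  have k10 := F.e2_3_0
  simp only [ce2_3_0, h_a10, h_a01, h_b10, h_b01, h_c10, h_c01, h_a20, h_a11, h_a02] at k10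
  have k11 := F.e2_1_2
  simp only [ce2_1_2, h_a10, h_a01, h_b10, h_b01, h_c10, h_c01, h_a20, h_a11, h_a02] at k11
  have k12 := F.e2_0_3
  simp only [ce2_0_3, h_a10, h_a01, h_b10, h_b01, h_c10, h_c01, h_a20, h_a11, h_a02] at k12
  have k13 := F.e2_2_2
  simp only [ce2_2_2, h_a10, h_a01, h_b10, h_b01, h_c10, h_c01, h_a20, h_a11, h_a02] at k13
  have k14 := F.f_0_3
  simp only [cf_0_3, h_a10, h_a01, h_b10, h_b01, h_c10, h_c01, h_a20, h_a11, h_a02] at k14
  simp only [Par.D, Par.a, Par.b, Par.c, Par.U, Par.V, Par.Q, h_a00, h_b00, h_c00, h_a10, h_a01,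
      h_b10, h_b01, h_c10, h_c01, h_a20, h_a11, h_a02] at hxy
  exact (tree_T2s p.b20 p.b11 p.b02 p.c20 p.c11 p.c02 p.u20 p.u11 p.u02 p.v20 p.v11 p.v02 p.q20
      p.q11 p.q02 s.s1 s.s2 s.s11 s.s12 s.s21 s.s22 s.l1 s.l2 (by linear_combination k0)
      (by linear_combination k1) (by linear_combination k2) (by linear_combination k3)
      (by linear_combination k4) (by linear_combination k5) (by linear_combination k6)
      (by linear_combination k7) (by linear_combination k8) (by linear_combination k9)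
      (by linear_combination k10) (by linear_combination k11) (by linear_combination k12)
      (by linear_combination k13) (by linear_combination k14) n1 n2 ⟨x, y, fun h0 => hxy
      (by linear_combination h0)⟩).elim

end Pool.Agent.H38.FM
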