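import Mathlib

/-!
# Elimination tree `T2z` (generated)
-/

set_option linter.unusedVariables false
set_option linter.style.longLine false

noncomputable section

namespace Pool.Agent.H38.FM

theorem tree_T2z
    (a20 b20 b11 b02 c20 c11 u20 u11 u02 v20 v11 v02 q20 q11 q02 s1 s2 s11 s12 s21 s22 l1 l2 : ℂ)
    (e1_0_1 : s1 = 0)
    (e1_2_0 : a20 * s1 + b20 * s2 + c20 = 0)
    (e1_1_1 : b11 * s2 - 2 * b20 + c11 + s11 = 0)
    (e1_0_2 : b02 * s2 - b11 + s12 = 0)
    (e1_3_0 : a20 * s11 - b20 * b11 + b20 * s21 + u20 * s1 + 1 / 2 * v20 * s2 = 0)
    (e1_2_1 : a20 * b11 + a20 * s12 - 2 * b20 * b02 + b20 * s22 - b11 ^ 2 + b11 * s21 + 1 / 2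
        * u20 * s2 + u11 * s1 + 1 / 2 * v11 * s2 - v20 = 0)
    (e1_1_2 : 2 * a20 * b02 - 3 * b11 * b02 + b11 * s22 + b02 * s21 + 1 / 2 * u11 * s2 + u02
        * s1 + 1 / 2 * v02 * s2 - u20 - 1 / 2 * v11 + l1 = 0)
    (e1_0_3 : -2 * b02 ^ 2 + b02 * s22 + 1 / 2 * u02 * s2 - 1 / 2 * u11 + l2 = 0)
    (e1_4_0 : -a20 * v20 + b20 * u20 - 1 / 2 * b20 * v11 - b20 * l1 - 1 / 2 * b11 * v20 + c20
        * u11 + u20 * s11 + 1 / 2 * v20 * s21 + q20 * s1 = 0)
    (e1_3_1 : -1 / 2 * a20 * v11 + a20 * l1 - 1 / 2 * b20 * u11 - b20 * v02 - b20 * l2 + 3 / 2
        * b11 * u20 - b11 * v11 - b11 * l1 - b02 * v20 + 2 * c20 * u02 + c11 * u11 + u20 * s12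
        + 1 / 2 * u20 * s21 + u11 * s11 + 1 / 2 * v20 * s22 + 1 / 2 * v11 * s21 + q20 * s2
        + q11 * s1 = 0)
    (e1_2_2 : 1 / 2 * a20 * u11 + a20 * l2 - 2 * b20 * u02 - 3 / 2 * b11 * v02 - b11 * l2 + 2
        * b02 * u20 - 3 / 2 * b02 * v11 - b02 * l1 + 2 * c11 * u02 + 1 / 2 * u20 * s22 + u11
        * s12 + 1 / 2 * u11 * s21 + u02 * s11 + 1 / 2 * v11 * s22 + 1 / 2 * v02 * s21 + q11
        * s2 + q02 * s1 - 3 * q20 = 0)
    (e1_1_3 : a20 * u02 - 3 / 2 * b11 * u02 + 1 / 2 * b02 * u11 - 2 * b02 * v02 - b02 * l2
        + 1 / 2 * u11 * s22 + u02 * s12 + 1 / 2 * u02 * s21 + 1 / 2 * v02 * s22 + q02 * s2 - 2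
        * q11 = 0)
    (e1_0_4 : -b02 * u02 + 1 / 2 * u02 * s22 - q02 = 0)
    (e1_4_1 : -2 * a20 * q20 + 2 * b11 * q20 + 2 * c20 * q02 + c11 * q11 + 1 / 2 * u20 ^ 2
        - 1 / 4 * u20 * v11 + 1 / 2 * u20 * l1 - 1 / 4 * u11 * v20 - 1 / 2 * v20 * v02 - 1 / 2
        * v20 * l2 - 1 / 4 * v11 ^ 2 - 1 / 2 * v11 * l1 + q20 * s12 + q20 * s21 + q11 * s11 = 0)
    (e1_3_2 : -a20 * q11 - 2 * b20 * q02 + 2 * b02 * q20 + 2 * c11 * q02 + 3 / 4 * u20 * u11
        + 1 / 2 * u20 * l2 + 1 / 2 * u11 * l1 - 3 / 4 * v11 * v02 - 1 / 2 * v11 * l2 - 1 / 2
        * v02 * l1 + q20 * s22 + q11 * s12 + q11 * s21 + q02 * s11 = 0)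
    (e1_2_3 : -2 * b11 * q02 + 1 / 2 * u20 * u02 + 1 / 4 * u11 ^ 2 + 1 / 4 * u11 * v02 + 1 / 2
        * u11 * l2 + 1 / 4 * u02 * v11 + 1 / 2 * u02 * l1 - 1 / 2 * v02 ^ 2 - 1 / 2 * v02 * l2
        + q11 * s22 + q02 * s12 + q02 * s21 = 0)
    (e1_1_4 : -2 * b02 * q02 + 1 / 4 * u11 * u02 + 1 / 2 * u02 * v02 + 1 / 2 * u02 * l2 + q02
        * s22 = 0)
    (e2_1_1 : b11 * s1 + c11 * s2 - 2 * c20 = 0)
    (e2_0_2 : b02 * s1 - c11 = 0)
    (e2_3_0 : -2 * a20 * c20 + 2 * b20 ^ 2 - b20 * c11 + b20 * s11 + b11 * c20 + c20 * s21
        + 1 / 2 * v20 * s1 = 0)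
    (e2_2_1 : -a20 * c11 + 3 * b20 * b11 + b20 * s12 + b11 * s11 + 2 * b02 * c20 + c20 * s22
        + c11 * s21 + 1 / 2 * u20 * s1 + v20 * s2 + 1 / 2 * v11 * s1 = 0)
    (e2_1_2 : 2 * b20 * b02 + b11 ^ 2 + b11 * s12 + b02 * c11 + b02 * s11 + c11 * s22 + 1 / 2
        * u11 * s1 + v11 * s2 + 1 / 2 * v02 * s1 - 2 * v20 = 0)
    (e2_0_3 : b11 * b02 + b02 * s12 + 1 / 2 * u02 * s1 + v02 * s2 - v11 = 0)
    (e2_4_0 : b20 * v20 - c20 * u20 + 1 / 2 * c20 * v11 - c20 * l1 - 1 / 2 * c11 * v20 + 1 / 2
        * v20 * s11 = 0)
    (e2_3_1 : -2 * a20 * v20 + 2 * b20 * u20 - 1 / 2 * b20 * v11 + b20 * l1 + 3 / 2 * b11 * v20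
        - 1 / 2 * c20 * u11 + c20 * v02 - c20 * l2 - 1 / 2 * c11 * u20 - c11 * l1 + 1 / 2 * u20
        * s11 + 1 / 2 * v20 * s12 + v20 * s21 + 1 / 2 * v11 * s11 + q20 * s1 = 0)
    (e2_2_2 : -a20 * v11 + 3 / 2 * b20 * u11 - 2 * b20 * v02 + b20 * l2 + 3 / 2 * b11 * u20
        + b11 * l1 + 2 * b02 * v20 + 1 / 2 * c11 * v02 - c11 * l2 + 1 / 2 * u20 * s12 + 1 / 2
        * u11 * s11 + v20 * s22 + 1 / 2 * v11 * s12 + v11 * s21 + 1 / 2 * v02 * s11 + q20 * s2
        + q11 * s1 = 0)
    (e2_1_3 : b20 * u02 + b11 * u11 - 3 / 2 * b11 * v02 + b11 * l2 + b02 * u20 + 1 / 2 * b02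
        * v11 + b02 * l1 + 1 / 2 * c11 * u02 + 1 / 2 * u11 * s12 + 1 / 2 * u02 * s11 + v11
        * s22 + 1 / 2 * v02 * s12 + v02 * s21 + q11 * s2 + q02 * s1 - 2 * q20 = 0)
    (e2_0_4 : 1 / 2 * b11 * u02 + 1 / 2 * b02 * u11 - b02 * v02 + b02 * l2 + 1 / 2 * u02 * s12
        + v02 * s22 + q02 * s2 - q11 = 0)
    (f_0_4 : 2 * b11 * b02 * s22 + b11 * u02 * s2 - 2 * b02 ^ 2 * s12 - 2 * b02 ^ 2 * s21 + b02
        * u11 * s2 - 5 * b02 * u02 * s1 + b02 * v02 * s2 - 2 * b11 * v02 + b02 * v11 + 1 / 2
        * c11 * u02 - v11 * s22 + 2 * v02 * s12 + 2 * v02 * s21 - q11 * s2 + 5 * q02 * s1 = 0)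
    (f_0_5 : b11 * b02 * u02 + b11 * u02 * s22 - b02 ^ 2 * u11 + 2 * b02 ^ 2 * l2 + b02 * u11
        * s22 - 3 * b02 * u02 * s12 - 2 * b02 * u02 * s21 + b02 * v02 * s22 + 2 * b02 * q02
        * s2 + 1 / 2 * u11 * u02 * s2 - 3 / 2 * u02 ^ 2 * s1 - 1 / 2 * u02 * v02 * s2 - 3 * b11
        * q02 + b02 * q11 + 1 / 2 * u02 * v11 - v02 ^ 2 - 2 * v02 * l2 - q11 * s22 + 3 * q02
        * s12 + 2 * q02 * s21 = 0)
    (f_0_6 : 1 / 2 * b11 * u02 ^ 2 - 4 * b02 ^ 2 * q02 - 1 / 2 * b02 * u11 * u02 + 2 * b02
        * u02 * v02 + b02 * u02 * l2 + 2 * b02 * q02 * s22 + 1 / 2 * u11 * u02 * s22 - u02 ^ 2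
        * s12 - 1 / 2 * u02 ^ 2 * s21 - 1 / 2 * u02 * v02 * s22 - 1 / 2 * u11 * q02 + 1 / 2
        * u02 * q11 - q02 * l2 = 0)
    (hD : ∃ x y : ℂ, (x ^ 4 * q20 + x ^ 3 * y * q11 + x ^ 2 * y ^ 2 * q02 + x ^ 3 * u20 + x ^ 2
        * y * u11 + x * y ^ 2 * u02 + x ^ 2 * a20 + y) * (x ^ 2 * y ^ 2 * q20 + x * y ^ 3 * q11
        + y ^ 4 * q02 + x ^ 2 * y * v20 + x * y ^ 2 * v11 + y ^ 3 * v02 + x ^ 2 * c20 + x * y
        * c11) - (x ^ 3 * y * q20 + x ^ 2 * y ^ 2 * q11 + x * y ^ 3 * q02 + 1 / 2 * x ^ 3 * v20
        + 1 / 2 * x ^ 2 * y * u20 + 1 / 2 * x ^ 2 * y * v11 + 1 / 2 * x * y ^ 2 * u11 + 1 / 2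
        * x * y ^ 2 * v02 + 1 / 2 * y ^ 3 * u02 + x ^ 2 * b20 + x * y * b11 + y ^ 2
        * b02) ^ 2 ≠ 0) :
    ((a20 = 0) ∧ (b20 = 0) ∧ (b11 = 0) ∧ (b02 = 0) ∧ (c20 = 0) ∧ (c11 = 0) ∧ (u20 = 0) ∧ (u02 = 0) ∧ (v20 = 0) ∧ (v11 = 0) ∧ (v02 = -u11) ∧ (q20 = 0) ∧ (q11 = 0) ∧ (q02 = 0) ∧ (u11 ≠ 0)) ∨
    ((a20 = 0) ∧ (b20 = 0) ∧ (b11 = 0) ∧ (b02 = 0) ∧ (c20 = 0) ∧ (c11 = 0) ∧ (u20 = 0) ∧ (v20 = 0) ∧ (v11 = 0) ∧ (v02 = -u11) ∧ (q20 = 0) ∧ (q11 = 0) ∧ (q02 = 0) ∧ (u02 ≠ 0)) ∨
    ((a20 = 0) ∧ (b20 = 0) ∧ (b11 = 0) ∧ (c20 = 0) ∧ (c11 = 0) ∧ (u20 = 0) ∧ (u11 = -3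
        * b02 ^ 2) ∧ (u02 = 0) ∧ (v20 = 0) ∧ (v11 = 0) ∧ (v02 = -3
        * b02 ^ 2) ∧ (q20 = 0) ∧ (q11 = 2 * b02 ^ 3) ∧ (q02 = 0) ∧ (b02 ≠ 0)) ∨
    ((a20 = 0) ∧ (b20 = 0) ∧ (b11 = 0) ∧ (c20 = 0) ∧ (c11 = 0) ∧ (u20 = 0) ∧ (u11 = -3
        * b02 ^ 2) ∧ (v20 = 0) ∧ (v11 = 0) ∧ (v02 = -3 * b02 ^ 2) ∧ (q20 = 0) ∧ (q11 = 2
        * b02 ^ 3) ∧ (q02 = -b02 * u02) ∧ (b02 ≠ 0) ∧ (u02 ≠ 0)) ∨
    ((a20 = 0) ∧ (b20 = 0) ∧ (b11 = 0) ∧ (b02 = s22) ∧ (c20 = 0) ∧ (c11 = 0) ∧ (u20 = 0) ∧ (u02 = 0) ∧ (v20 = 0) ∧ (v11 = 0) ∧ (v02 = -2 * s22 ^ 2 - u11) ∧ (q20 = 0) ∧ (q11 = s22 ^ 3 + u11 * s22) ∧ (q02 = 0) ∧ (s22 ≠ 0)) ∨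
    ((a20 = 0) ∧ (b20 = 0) ∧ (b11 = 0) ∧ (b02 = -1 / 2
        * s22) ∧ (c20 = 0) ∧ (c11 = 0) ∧ (u20 = 0) ∧ (u11 = -3
        * s22 ^ 2) ∧ (u02 = 0) ∧ (v20 = 0) ∧ (v11 = 0) ∧ (v02 = -2
        * s22 ^ 2) ∧ (q20 = 0) ∧ (q11 = -2 * s22 ^ 3) ∧ (q02 = 0) ∧ (s22 ≠ 0)) ∨
    ((a20 = 0) ∧ (b20 = 0) ∧ (b11 = 0) ∧ (c20 = 0) ∧ (c11 = 0) ∧ (u20 = 0) ∧ (u11 = -3
        * b02 ^ 2 + 3 * b02 * s22 - 3 / 4
        * s22 ^ 2) ∧ (u02 = 0) ∧ (v20 = 0) ∧ (v11 = 0) ∧ (v02 = -3 * b02 ^ 2 + 2 * b02 * s22
        - 1 / 4 * s22 ^ 2) ∧ (q20 = 0) ∧ (q11 = 2 * b02 ^ 3 - 3 * b02 ^ 2 * s22 + 3 / 2 * b02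
        * s22 ^ 2 - 1 / 4 * s22 ^ 3) ∧ (q02 = 0) ∧ (s22 ≠ 0) ∧ (b02 - s22 ≠ 0) ∧ (2 * b02
        + s22 ≠ 0) ∧ (4 * b02 - s22 ≠ 0)) ∨
    ((a20 = 0) ∧ (b20 = 0) ∧ (b11 = 0) ∧ (b02 = s22) ∧ (c20 = 0) ∧ (c11 = 0) ∧ (u20 = 0) ∧ (v20 = 0) ∧ (v11 = 0) ∧ (v02 = -2 * s22 ^ 2 - u11) ∧ (q20 = 0) ∧ (q11 = s22 ^ 3 + u11 * s22) ∧ (q02 = -1 / 2 * u02 * s22) ∧ (s22 ≠ 0) ∧ (u02 ≠ 0)) ∨
    ((a20 = 0) ∧ (b20 = 0) ∧ (b11 = 0) ∧ (c20 = 0) ∧ (c11 = 0) ∧ (u20 = 0) ∧ (u11 = -3
        * b02 ^ 2 + 3 * b02 * s22 - 3 / 4 * s22 ^ 2) ∧ (v20 = 0) ∧ (v11 = 0) ∧ (v02 = -3
        * b02 ^ 2 + 2 * b02 * s22 - 1 / 4 * s22 ^ 2) ∧ (q20 = 0) ∧ (q11 = 2 * b02 ^ 3 - 3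
        * b02 ^ 2 * s22 + 3 / 2 * b02 * s22 ^ 2 - 1 / 4 * s22 ^ 3) ∧ (q02 = -b02 * u02 + 1 / 2
        * u02 * s22) ∧ (s22 ≠ 0) ∧ (u02 ≠ 0) ∧ (b02 - s22 ≠ 0)) := by
  have t1 : 0 = s1 := by linear_combination (-1) * e1_0_1
  subst t1
  have t2 : 0 = c11 := by linear_combination e2_0_2
  subst t2
  have t3 : 0 = c20 := by linear_combination (1 / 2) * e2_1_1
  subst t3
  have t4 : -b02 * s2 + b11 = s12 := by linear_combination (-1) * e1_0_2
  subst t4
  have t5 : -b11 * s2 + 2 * b20 = s11 := by linear_combination (-1) * e1_1_1
  subst t5
  by_cases h1 : b20 = 0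
  · have t6 : 0 = b20 := by linear_combination (-1) * h1
    subst t6
    have t7 : -b02 ^ 2 * s2 + 2 * b11 * b02 + v02 * s2 = v11 := by linear_combination e2_0_3
    subst t7
    have t8 : -1 / 2 * b02 ^ 2 * s2 ^ 2 + 1 / 2 * v02 * s2 ^ 2
        + b11 ^ 2 = v20 := by linear_combination (1 / 2) * e2_1_2
    subst t8
    have t9 : 2 * b02 ^ 2 - b02 * s22 - 1 / 2 * u02 * s2 + 1 / 2
        * u11 = l2 := by linear_combination (-1) * e1_0_3
    subst t9
    have t10 : -1 / 2 * b02 ^ 2 * s2 - 2 * a20 * b02 + 4 * b11 * b02 - b11 * s22 - b02 * s21
        - 1 / 2 * u11 * s2 + u20 = l1 := by linear_combination (-1) * e1_1_2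
    subst t10
    by_cases h2 : s2 = 0
    · have t11 : 0 = s2 := by linear_combination (-1) * h2
      subst t11
      by_cases h3 : b11 = 0
      · have t12 : 0 = b11 := by linear_combination (-1) * h3
        subst t12
        have t13 : -b02 * u02 + 1 / 2 * u02 * s22 = q02 := by linear_combination e1_0_4
        subst t13
        have t14 : -a20 * b02 ^ 2 - 1 / 2 * b02 ^ 2 * s21 + b02 * u20 + 1 / 2 * v02
            * s21 = q20 := by linear_combination (1 / 2) * e2_1_3
        subst t14
        have t15 : 2 * b02 ^ 3 - b02 ^ 2 * s22 + b02 * u11 - b02 * v02 + v02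
            * s22 = q11 := by linear_combination e2_0_4
        subst t15
        by_cases h4 : 2 * a20 + s21 = 0
        · have t16 : -2 * a20 = s21 := by linear_combination (-1) * h4
          subst t16
          by_cases h5 : a20 = 0
          · have t17 : 0 = a20 := by linear_combination (-1) * h5
            subst t17
            by_cases h6 : u20 = 0
            · have t18 : 0 = u20 := by linear_combination (-1) * h6
              subst t18
              by_cases h7 : s22 = 0
              · have t19 : 0 = s22 := by linear_combination (-1) * h7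
                subst t19
                by_cases h8 : b02 = 0
                · have t20 : 0 = b02 := by linear_combination (-1) * h8
                  subst t20
                  by_cases h9 : u02 = 0
                  · have t21 : 0 = u02 := by linear_combination (-1) * h9
                    subst t21
                    by_cases h10 : u11 - v02 = 0
                    · have t22 : u11 = v02 := by linear_combination h10
                      subst t22
                      by_cases h11 : u11 = 0
                      · have t23 : 0 = u11 := by linear_combination (-1) * h11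
                        subst t23
                        exfalso
                        obtain ⟨x, y, hxy⟩ := hD
                        exact hxy (by linear_combination 0)
                      · exfalso
                        have t24 : (u11) ^ 2 * (1) = 0 := by linear_combination (-1 / 2) * f_0_5
                        have t25 := (mul_eq_zero.mp t24).resolve_left (pow_ne_zero 2 h11)
                        exact absurd t25 (by norm_num)
                    · have t26 : (u11 - v02) ^ 1 * (u11 + v02) = 0 := by linear_combination (2)
                          * e1_2_3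
                      have t27 := (mul_eq_zero.mp t26).resolve_left (pow_ne_zero 1 h10)
                      have t28 : -u11 = v02 := by linear_combination (-1) * t27
                      subst t28
                      have n12 : u11 ≠ 0 := fun h0 => h10 (by linear_combination (2) * h0)
                      exact Or.inl ⟨by ring, by ring, by ring, by ring, by ring, by ring, by ring, by ring, by ring, by ring, by ring, by ring, by ring, by ring, n12⟩
                  · have t29 : (u02) ^ 1 * (u11 + v02) = 0 := by linear_combination (2) * e1_1_4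
                    have t30 := (mul_eq_zero.mp t29).resolve_left (pow_ne_zero 1 h9)
                    have t31 : -u11 = v02 := by linear_combination (-1) * t30
                    subst t31
                    exact Or.inr (Or.inl ⟨by ring, by ring, by ring, by ring, by ring, by ring, by ring, by ring, by ring, by ring, by ring, by ring, by ring, h9⟩)
                · have t32 : (b02) ^ 1 * (3 * b02 ^ 2
                      + u11) = 0 := by linear_combination (-1 / 2) * e1_1_3
                  have t33 := (mul_eq_zero.mp t32).resolve_left (pow_ne_zero 1 h8)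
                  have t34 : -3 * b02 ^ 2 = u11 := by linear_combination (-1) * t33
                  subst t34
                  by_cases h13 : u02 = 0
                  · have t35 : 0 = u02 := by linear_combination (-1) * h13
                    subst t35
                    by_cases h14 : b02 ^ 2 - v02 = 0
                    · have t36 : b02 ^ 2 = v02 := by linear_combination h14
                      subst t36
                      exfalso
                      obtain ⟨x, y, hxy⟩ := hD
                      exact hxy (by linear_combination 0)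
                    · have t37 : (b02 ^ 2 - v02) ^ 1 * (3 * b02 ^ 2
                          + v02) = 0 := by linear_combination (2) * e1_2_3
                      have t38 := (mul_eq_zero.mp t37).resolve_left (pow_ne_zero 1 h14)
                      have t39 : -3 * b02 ^ 2 = v02 := by linear_combination (-1) * t38
                      subst t39
                      exact Or.inr (Or.inr (Or.inl ⟨by ring, by ring, by ring, by ring, by ring, by ring, by ring, by ring, by ring, by ring, by ring, by ring, by ring, by ring, h8⟩))
                  · have t40 : (u02) ^ 1 * (3 * b02 ^ 2 + v02) = 0 := by linear_combination (2)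
                        * e1_1_4
                    have t41 := (mul_eq_zero.mp t40).resolve_left (pow_ne_zero 1 h13)
                    have t42 : -3 * b02 ^ 2 = v02 := by linear_combination (-1) * t41
                    subst t42
                    exact Or.inr (Or.inr (Or.inr (Or.inl ⟨by ring, by ring, by ring, by ring, by ring, by ring, by ring, by ring, by ring, by ring, by ring, by ring, by ring, h8, h13⟩)))
              · have r15 : 12 * b02 ^ 3 - 6 * b02 ^ 2 * s22 + 4 * b02 * u11 - u11 * s22 + 3
                    * v02 * s22 = 0 := by linear_combination (-2) * e1_1_3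
                by_cases h16 : u02 = 0
                · have t43 : 0 = u02 := by linear_combination (-1) * h16
                  subst t43
                  by_cases h17 : b02 - s22 = 0
                  · have t44 : s22 = b02 := by linear_combination (-1) * h17
                    subst t44
                    have t45 : (s22) ^ 1 * (6 * s22 ^ 2 + 3 * u11 + 3
                        * v02) = 0 := by linear_combination r15
                    have t46 := (mul_eq_zero.mp t45).resolve_left (pow_ne_zero 1 h7)
                    have r18 : 6 * s22 ^ 2 + 3 * u11 + 3 * v02 = 0 := by linear_combination t46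
                    have t47 : -2 * s22 ^ 2 - u11 = v02 := by linear_combination (-1 / 3) * r18
                    subst t47
                    exact Or.inr (Or.inr (Or.inr (Or.inr (Or.inl ⟨by ring, by ring, by ring, by ring, by ring, by ring, by ring, by ring, by ring, by ring, by ring, by ring, by ring, by ring, h7⟩))))
                  · by_cases h19 : 2 * b02 + s22 = 0
                    · have t48 : -1 / 2 * s22 = b02 := by linear_combination (-1 / 2) * h19
                      subst t48
                      have t49 : (s22) ^ 1 * (-3 * s22 ^ 2 - 3 * u11 + 3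
                          * v02) = 0 := by linear_combination r15
                      have t50 := (mul_eq_zero.mp t49).resolve_left (pow_ne_zero 1 h7)
                      have r20 : -3 * s22 ^ 2 - 3 * u11 + 3 * v02 = 0 := by linear_combination t50
                      have t51 : s22 ^ 2 + u11 = v02 := by linear_combination (-1 / 3) * r20
                      subst t51
                      by_cases h21 : 3 * s22 ^ 2 + u11 = 0
                      · have t52 : -3 * s22 ^ 2 = u11 := by linear_combination (-1) * h21
                        subst t52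
                        exact Or.inr (Or.inr (Or.inr (Or.inr (Or.inr (Or.inl ⟨by ring, by ring, by ring, by ring, by ring, by ring, by ring, by ring, by ring, by ring, by ring, by ring, by ring, by ring, by ring, h7⟩)))))
                      · have t53 : (3 * s22 ^ 2 + u11) ^ 1 * (3 * s22 ^ 2 + 4
                            * u11) = 0 := by linear_combination (-2) * f_0_5
                        have t54 := (mul_eq_zero.mp t53).resolve_left (pow_ne_zero 1 h21)
                        have t55 : -3 / 4 * s22 ^ 2 = u11 := by linear_combination (-1 / 4) * t54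
                        subst t55
                        exfalso
                        obtain ⟨x, y, hxy⟩ := hD
                        exact hxy (by linear_combination 0)
                    · by_cases h22 : 3 * b02 ^ 2 + u11 = 0
                      · have t56 : -3 * b02 ^ 2 = u11 := by linear_combination (-1) * h22
                        subst t56
                        have t57 : (s22) ^ 1 * (-3 * b02 ^ 2 + 3
                            * v02) = 0 := by linear_combination r15
                        have t58 := (mul_eq_zero.mp t57).resolve_left (pow_ne_zero 1 h7)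
                        have r23 : -3 * b02 ^ 2 + 3 * v02 = 0 := by linear_combination t58
                        have t59 : b02 ^ 2 = v02 := by linear_combination (-1 / 3) * r23
                        subst t59
                        exfalso
                        obtain ⟨x, y, hxy⟩ := hD
                        exact hxy (by linear_combination 0)
                      · have t60 : (b02 - s22) ^ 1 * ((2 * b02 + s22) ^ 1 * ((3 * b02 ^ 2
                            + u11) ^ 1 * (12 * b02 ^ 2 - 12 * b02 * s22 + 3 * s22 ^ 2 + 4
                            * u11))) = 0 := by linear_combination (-9 * s22 ^ 2) * e1_2_3 + (6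
                            * b02 ^ 3 - 6 * b02 ^ 2 * s22 - 3 / 2 * b02 * s22 ^ 2 + 3 * s22 ^ 3
                            + 2 * b02 * u11 - 1 / 2 * u11 * s22 - 3 / 2 * v02 * s22) * r15
                        have t61 := (mul_eq_zero.mp t60).resolve_left (pow_ne_zero 1 h17)
                        have t62 := (mul_eq_zero.mp t61).resolve_left (pow_ne_zero 1 h19)
                        have t63 := (mul_eq_zero.mp t62).resolve_left (pow_ne_zero 1 h22)
                        have t64 : -3 * b02 ^ 2 + 3 * b02 * s22 - 3 / 4
                            * s22 ^ 2 = u11 := by linear_combination (-1 / 4) * t63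
                        subst t64
                        have n24 : 4 * b02
                            - s22 ≠ 0 := fun h0 => h22 (by linear_combination (3 / 4 * s22) * h0)
                        have t65 : (s22) ^ 1 * (9 * b02 ^ 2 - 6 * b02 * s22 + 3 / 4 * s22 ^ 2
                            + 3 * v02) = 0 := by linear_combination r15
                        have t66 := (mul_eq_zero.mp t65).resolve_left (pow_ne_zero 1 h7)
                        have r25 : 9 * b02 ^ 2 - 6 * b02 * s22 + 3 / 4 * s22 ^ 2 + 3
                            * v02 = 0 := by linear_combination t66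
                        have t67 : -3 * b02 ^ 2 + 2 * b02 * s22 - 1 / 4
                            * s22 ^ 2 = v02 := by linear_combination (-1 / 3) * r25
                        subst t67
                        exact Or.inr (Or.inr (Or.inr (Or.inr (Or.inr (Or.inr (Or.inl ⟨by ring, by ring, by ring, by ring, by ring, by ring, by ring, by ring, by ring, by ring, by ring, by ring, by ring, by ring, h7, h17, h19, n24⟩))))))
                · by_cases h26 : b02 - s22 = 0
                  · have t68 : s22 = b02 := by linear_combination (-1) * h26
                    subst t68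
                    have t69 : (s22) ^ 1 * (6 * s22 ^ 2 + 3 * u11 + 3
                        * v02) = 0 := by linear_combination r15
                    have t70 := (mul_eq_zero.mp t69).resolve_left (pow_ne_zero 1 h7)
                    have r27 : 6 * s22 ^ 2 + 3 * u11 + 3 * v02 = 0 := by linear_combination t70
                    have t71 : -2 * s22 ^ 2 - u11 = v02 := by linear_combination (-1 / 3) * r27
                    subst t71
                    exact Or.inr (Or.inr (Or.inr (Or.inr (Or.inr (Or.inr (Or.inr (Or.inl ⟨by ring, by ring, by ring, by ring, by ring, by ring, by ring, by ring, by ring, by ring, by ring, by ring, by ring, h7, h16⟩)))))))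
                  · have t72 : (u02) ^ 1 * ((b02 - s22) ^ 1 * (12 * b02 ^ 2 - 12 * b02 * s22
                        + 3 * s22 ^ 2 + 4 * u11)) = 0 := by linear_combination (-6 * s22)
                        * e1_1_4 + (u02) * r15
                    have t73 := (mul_eq_zero.mp t72).resolve_left (pow_ne_zero 1 h16)
                    have t74 := (mul_eq_zero.mp t73).resolve_left (pow_ne_zero 1 h26)
                    have t75 : -3 * b02 ^ 2 + 3 * b02 * s22 - 3 / 4
                        * s22 ^ 2 = u11 := by linear_combination (-1 / 4) * t74
                    subst t75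
                    have t76 : (s22) ^ 1 * (9 * b02 ^ 2 - 6 * b02 * s22 + 3 / 4 * s22 ^ 2 + 3
                        * v02) = 0 := by linear_combination r15
                    have t77 := (mul_eq_zero.mp t76).resolve_left (pow_ne_zero 1 h7)
                    have r28 : 9 * b02 ^ 2 - 6 * b02 * s22 + 3 / 4 * s22 ^ 2 + 3
                        * v02 = 0 := by linear_combination t77
                    have t78 : -3 * b02 ^ 2 + 2 * b02 * s22 - 1 / 4
                        * s22 ^ 2 = v02 := by linear_combination (-1 / 3) * r28
                    subst t78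
                    exact Or.inr (Or.inr (Or.inr (Or.inr (Or.inr (Or.inr (Or.inr (Or.inr (⟨by ring, by ring, by ring, by ring, by ring, by ring, by ring, by ring, by ring, by ring, by ring, by ring, by ring, h7, h16, h26⟩))))))))
            · have t79 : (u20) ^ 1 * (4 * b02 - s22) = 0 := by linear_combination (-2) * e1_2_2
              have t80 := (mul_eq_zero.mp t79).resolve_left (pow_ne_zero 1 h6)
              have t81 : 4 * b02 = s22 := by linear_combination (1) * t80
              subst t81
              by_cases h29 : b02 = 0
              · have t82 : 0 = b02 := by linear_combination (-1) * h29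
                subst t82
                exfalso
                have t83 : (u20) ^ 2 * (1) = 0 := by linear_combination e1_4_1
                have t84 := (mul_eq_zero.mp t83).resolve_left (pow_ne_zero 2 h6)
                exact absurd t84 (by norm_num)
              · have t85 : (b02) ^ 1 * (b02 ^ 2 - v02) = 0 := by linear_combination (1 / 6) * e1_1_3
                have t86 := (mul_eq_zero.mp t85).resolve_left (pow_ne_zero 1 h29)
                have t87 : b02 ^ 2 = v02 := by linear_combination (1) * t86
                subst t87
                exfalso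
                have t88 : (u20) ^ 2 * (1) = 0 := by linear_combination e1_4_1
                have t89 := (mul_eq_zero.mp t88).resolve_left (pow_ne_zero 2 h6)
                exact absurd t89 (by norm_num)
          · have r30 : 4 * a20 * b02 ^ 2 - 2 * a20 * b02 * s22 + 4 * a20 * v02 - 4 * b02 * u20
                + u20 * s22 = 0 := by linear_combination (2) * e1_2_2
            by_cases h31 : 4 * b02 - s22 = 0
            · have t90 : 4 * b02 = s22 := by linear_combination h31
              subst t90
              have t91 : (a20) ^ 1 * (-4 * b02 ^ 2 + 4 * v02) = 0 := by linear_combination r30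
              have t92 := (mul_eq_zero.mp t91).resolve_left (pow_ne_zero 1 h5)
              have r32 : -4 * b02 ^ 2 + 4 * v02 = 0 := by linear_combination t92
              have t93 : b02 ^ 2 = v02 := by linear_combination (-1 / 4) * r32
              subst t93
              by_cases h33 : 2 * a20 * b02 - u20 = 0
              · have t94 : 2 * a20 * b02 = u20 := by linear_combination h33
                subst t94
                by_cases h34 : 3 * b02 ^ 2 + u11 = 0
                · have t95 : -3 * b02 ^ 2 = u11 := by linear_combination (-1) * h34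
                  subst t95
                  by_cases h35 : u02 = 0
                  · have t96 : 0 = u02 := by linear_combination (-1) * h35
                    subst t96
                    exfalso
                    obtain ⟨x, y, hxy⟩ := hD
                    exact hxy (by linear_combination 0)
                  · exfalso
                    have t97 : (a20) ^ 1 * ((u02) ^ 2 * (1)) = 0 := by linear_combination f_0_6
                    have t98 := (mul_eq_zero.mp t97).resolve_left (pow_ne_zero 1 h5)
                    have t99 := (mul_eq_zero.mp t98).resolve_left (pow_ne_zero 2 h35)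
                    exact absurd t99 (by norm_num)
                · exfalso
                  have t100 : (3 * b02 ^ 2 + u11) ^ 2 * (1) = 0 := by linear_combination (2)
                      * e1_2_3
                  have t101 := (mul_eq_zero.mp t100).resolve_left (pow_ne_zero 2 h34)
                  exact absurd t101 (by norm_num)
              · exfalso
                have t102 : (2 * a20 * b02 - u20) ^ 2 * (1) = 0 := by linear_combination e1_4_1
                have t103 := (mul_eq_zero.mp t102).resolve_left (pow_ne_zero 2 h33)
                exact absurd t103 (by norm_num)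
            · have t104 : (4 * b02 - s22) ^ 1 * (12 * a20 * b02 ^ 2 - 6 * a20 * b02 * s22 + 4
                  * a20 * u11 + 3 * u20 * s22) = 0 := by linear_combination (-8 * a20) * e1_1_3
                  + (-3 * s22) * r30
              have t105 := (mul_eq_zero.mp t104).resolve_left (pow_ne_zero 1 h31)
              have r36 : 12 * a20 * b02 ^ 2 - 6 * a20 * b02 * s22 + 4 * a20 * u11 + 3 * u20
                  * s22 = 0 := by linear_combination t105
              have t106 : (a20) ^ 1 * ((4 * b02 - s22) ^ 1 * (2 * a20 * b02
                  - u20)) = 0 := by linear_combination (a20) * f_0_4 + (a20) * r30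
              have t107 := (mul_eq_zero.mp t106).resolve_left (pow_ne_zero 1 h5)
              have t108 := (mul_eq_zero.mp t107).resolve_left (pow_ne_zero 1 h31)
              have t109 : 2 * a20 * b02 = u20 := by linear_combination (1) * t108
              subst t109
              have t110 : (a20) ^ 1 * (-4 * b02 ^ 2 + 4 * v02) = 0 := by linear_combination r30
              have t111 := (mul_eq_zero.mp t110).resolve_left (pow_ne_zero 1 h5)
              have r37 : -4 * b02 ^ 2 + 4 * v02 = 0 := by linear_combination t111
              have t112 : b02 ^ 2 = v02 := by linear_combination (-1 / 4) * r37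
              subst t112
              have t113 : (a20) ^ 1 * (12 * b02 ^ 2 + 4 * u11) = 0 := by linear_combination r36
              have t114 := (mul_eq_zero.mp t113).resolve_left (pow_ne_zero 1 h5)
              have r38 : 12 * b02 ^ 2 + 4 * u11 = 0 := by linear_combination t114
              have t115 : -3 * b02 ^ 2 = u11 := by linear_combination (-1 / 4) * r38
              subst t115
              have t116 : (a20) ^ 1 * ((4 * b02 - s22) ^ 1
                  * (u02)) = 0 := by linear_combination e1_2_3
              have t117 := (mul_eq_zero.mp t116).resolve_left (pow_ne_zero 1 h5)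
              have t118 := (mul_eq_zero.mp t117).resolve_left (pow_ne_zero 1 h31)
              have t119 : 0 = u02 := by linear_combination (-1) * t118
              subst t119
              exfalso
              obtain ⟨x, y, hxy⟩ := hD
              exact hxy (by linear_combination 0)
        · have t120 : (2 * a20 + s21) ^ 1 * (2 * a20 * b02
              - u20) = 0 := by linear_combination (-2) * e1_3_1
          have t121 := (mul_eq_zero.mp t120).resolve_left (pow_ne_zero 1 h4)
          have t122 : 2 * a20 * b02 = u20 := by linear_combination (1) * t121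
          subst t122
          have r39 : 6 * a20 * b02 ^ 2 + 5 * b02 ^ 2 * s21 + 2 * a20 * u11 + u11 * s21 - 2
              * v02 * s21 = 0 := by linear_combination (2) * e1_2_2
          have r40 : 6 * a20 * b02 ^ 2 * s22 + 8 * b02 ^ 3 * s21 + b02 ^ 2 * s21 * s22 + 4
              * a20 ^ 2 * u02 + 4 * a20 * u02 * s21 - 6 * a20 * v02 * s22 - 8 * b02 * v02 * s21
              + u02 * s21 ^ 2 - v02 * s21 * s22 = 0 := by linear_combination (4 * a20 + 2
              * s21) * e1_1_3 + (4 * b02 - s22) * r39
          by_cases h41 : s21 = 0
          · have t123 : 0 = s21 := by linear_combination (-1) * h41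
            subst t123
            have n42 : a20 ≠ 0 := fun h0 => h4 (by linear_combination (2) * h0)
            have t124 : (a20) ^ 1 * (6 * b02 ^ 2 + 2 * u11) = 0 := by linear_combination r39
            have t125 := (mul_eq_zero.mp t124).resolve_left (pow_ne_zero 1 n42)
            have r43 : 6 * b02 ^ 2 + 2 * u11 = 0 := by linear_combination t125
            have t126 : -3 * b02 ^ 2 = u11 := by linear_combination (-1 / 2) * r43
            subst t126
            have t127 : (a20) ^ 1 * (6 * b02 ^ 2 * s22 + 4 * a20 * u02 - 6 * v02
                * s22) = 0 := by linear_combination r40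
            have t128 := (mul_eq_zero.mp t127).resolve_left (pow_ne_zero 1 n42)
            have r44 : 6 * b02 ^ 2 * s22 + 4 * a20 * u02 - 6 * v02
                * s22 = 0 := by linear_combination t128
            by_cases h45 : s22 = 0
            · have t129 : 0 = s22 := by linear_combination (-1) * h45
              subst t129
              have t130 : (a20) ^ 1 * (u02) = 0 := by linear_combination (1 / 4) * r44
              have t131 := (mul_eq_zero.mp t130).resolve_left (pow_ne_zero 1 n42)
              have t132 : 0 = u02 := by linear_combination (-1) * t131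
              subst t132
              by_cases h46 : b02 = 0
              · have t133 : 0 = b02 := by linear_combination (-1) * h46
                subst t133
                by_cases h47 : v02 = 0
                · have t134 : 0 = v02 := by linear_combination (-1) * h47
                  subst t134
                  exfalso
                  obtain ⟨x, y, hxy⟩ := hD
                  exact hxy (by linear_combination 0)
                · exfalso
                  have t135 : (v02) ^ 2 * (1) = 0 := by linear_combination (-2) * e1_2_3
                  have t136 := (mul_eq_zero.mp t135).resolve_left (pow_ne_zero 2 h47)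
                  exact absurd t136 (by norm_num)
              · have t137 : (a20) ^ 1 * ((b02) ^ 1 * (b02 ^ 2
                    - v02)) = 0 := by linear_combination (-1) * e1_3_2
                have t138 := (mul_eq_zero.mp t137).resolve_left (pow_ne_zero 1 n42)
                have t139 := (mul_eq_zero.mp t138).resolve_left (pow_ne_zero 1 h46)
                have t140 : b02 ^ 2 = v02 := by linear_combination (1) * t139
                subst t140
                exfalso
                obtain ⟨x, y, hxy⟩ := hD
                exact hxy (by linear_combination 0)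
            · by_cases h48 : b02 - s22 = 0
              · have t141 : s22 = b02 := by linear_combination (-1) * h48
                subst t141
                by_cases h49 : -s22 ^ 2 + v02 = 0
                · have t142 : s22 ^ 2 = v02 := by linear_combination (-1) * h49
                  subst t142
                  have t143 : (a20) ^ 1 * (u02) = 0 := by linear_combination (1 / 4) * r44
                  have t144 := (mul_eq_zero.mp t143).resolve_left (pow_ne_zero 1 n42)
                  have t145 : 0 = u02 := by linear_combination (-1) * t144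
                  subst t145
                  exfalso
                  obtain ⟨x, y, hxy⟩ := hD
                  exact hxy (by linear_combination 0)
                · exfalso
                  have t146 : (a20) ^ 1 * ((-s22 ^ 2 + v02) ^ 2
                      * (1)) = 0 := by linear_combination (-2 * a20) * e1_2_3 + (1 / 2 * a20
                      * s22) * r44
                  have t147 := (mul_eq_zero.mp t146).resolve_left (pow_ne_zero 1 n42)
                  have t148 := (mul_eq_zero.mp t147).resolve_left (pow_ne_zero 2 h49)
                  exact absurd t148 (by norm_num)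
              · have t149 : (a20) ^ 1 * ((b02 - s22) ^ 1 * (b02 ^ 2
                    - v02)) = 0 := by linear_combination (-1) * e1_3_2
                have t150 := (mul_eq_zero.mp t149).resolve_left (pow_ne_zero 1 n42)
                have t151 := (mul_eq_zero.mp t150).resolve_left (pow_ne_zero 1 h48)
                have t152 : b02 ^ 2 = v02 := by linear_combination (1) * t151
                subst t152
                have t153 : (a20) ^ 1 * (u02) = 0 := by linear_combination (1 / 4) * r44
                have t154 := (mul_eq_zero.mp t153).resolve_left (pow_ne_zero 1 n42)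
                have t155 : 0 = u02 := by linear_combination (-1) * t154
                subst t155
                exfalso
                obtain ⟨x, y, hxy⟩ := hD
                exact hxy (by linear_combination 0)
          · have t156 : (s21) ^ 1 * (b02 ^ 2 - v02) = 0 := by linear_combination (-1 / 2) * f_0_4
            have t157 := (mul_eq_zero.mp t156).resolve_left (pow_ne_zero 1 h41)
            have t158 : b02 ^ 2 = v02 := by linear_combination (1) * t157
            subst t158
            have t159 : (2 * a20 + s21) ^ 1 * (3 * b02 ^ 2 + u11) = 0 := by linear_combination r39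
            have t160 := (mul_eq_zero.mp t159).resolve_left (pow_ne_zero 1 h4)
            have r50 : 3 * b02 ^ 2 + u11 = 0 := by linear_combination t160
            have t161 : -3 * b02 ^ 2 = u11 := by linear_combination (-1) * r50
            subst t161
            have t162 : (2 * a20 + s21) ^ 2 * (u02) = 0 := by linear_combination r40
            have t163 := (mul_eq_zero.mp t162).resolve_left (pow_ne_zero 2 h4)
            have t164 : 0 = u02 := by linear_combination (-1) * t163
            subst t164
            exfalso
            obtain ⟨x, y, hxy⟩ := hD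
            exact hxy (by linear_combination 0)
      · have t165 : (b11) ^ 1 * (2 * a20 - 2 * b11 + s21) = 0 := by linear_combination e1_2_1
        have t166 := (mul_eq_zero.mp t165).resolve_left (pow_ne_zero 1 h3)
        have t167 : -2 * a20 + 2 * b11 = s21 := by linear_combination (-1) * t166
        subst t167
        have t168 : (b11) ^ 2 * (4 * a20 - b11) = 0 := by linear_combination (-2) * e1_4_0
        have t169 := (mul_eq_zero.mp t168).resolve_left (pow_ne_zero 2 h3)
        have t170 : 1 / 4 * b11 = a20 := by linear_combination (-1 / 4) * t169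
        subst t170
        exfalso
        have t171 : (b11) ^ 3 * (1) = 0 := by linear_combination (1 / 3) * e2_3_1
        have t172 := (mul_eq_zero.mp t171).resolve_left (pow_ne_zero 3 h3)
        exact absurd t172 (by norm_num)
    · have t173 : (s2) ^ 3 * (b02 ^ 2 - v02) = 0 := by linear_combination (-2) * e2_2_1
      have t174 := (mul_eq_zero.mp t173).resolve_left (pow_ne_zero 3 h2)
      have t175 : b02 ^ 2 = v02 := by linear_combination (1) * t174
      subst t175
      have r51 : -2 * a20 * b02 * s2 + 2 * b11 * b02 * s2 + 4 * a20 * b11 - 4 * b11 ^ 2 + 2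
          * b11 * s21 + u20 * s2 = 0 := by linear_combination (2) * e1_2_1
      by_cases h52 : b11 = 0
      · have t176 : 0 = b11 := by linear_combination (-1) * h52
        subst t176
        have t177 : (s2) ^ 1 * (-2 * a20 * b02 + u20) = 0 := by linear_combination r51
        have t178 := (mul_eq_zero.mp t177).resolve_left (pow_ne_zero 1 h2)
        have r53 : -2 * a20 * b02 + u20 = 0 := by linear_combination t178
        have t179 : 2 * a20 * b02 = u20 := by linear_combination (-1) * r53
        subst t179
        have t180 : (s2) ^ 1 * (a20 * b02 ^ 2 - q20) = 0 := by linear_combination (-1) * e2_2_2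
        have t181 := (mul_eq_zero.mp t180).resolve_left (pow_ne_zero 1 h2)
        have t182 : a20 * b02 ^ 2 = q20 := by linear_combination (1) * t181
        subst t182
        have t183 : -b02 * u02 + 1 / 2 * u02 * s22 = q02 := by linear_combination e1_0_4
        subst t183
        have t184 : (s2) ^ 1 * (b02 ^ 3 + b02 * u11 - q11) = 0 := by linear_combination (-1)
            * e2_1_3
        have t185 := (mul_eq_zero.mp t184).resolve_left (pow_ne_zero 1 h2)
        have t186 : b02 ^ 3 + b02 * u11 = q11 := by linear_combination (1) * t185
        subst t186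
        by_cases h54 : u02 = 0
        · have t187 : 0 = u02 := by linear_combination (-1) * h54
          subst t187
          by_cases h55 : a20 = 0
          · have t188 : 0 = a20 := by linear_combination (-1) * h55
            subst t188
            by_cases h56 : 4 * b02 - s22 = 0
            · have t189 : 4 * b02 = s22 := by linear_combination h56
              subst t189
              by_cases h57 : b02 * s2 + s21 = 0
              · have t190 : -b02 * s2 = s21 := by linear_combination (-1) * h57
                subst t190
                by_cases h58 : 3 * b02 ^ 2 + u11 = 0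
                · have t191 : -3 * b02 ^ 2 = u11 := by linear_combination (-1) * h58
                  subst t191
                  exfalso
                  obtain ⟨x, y, hxy⟩ := hD
                  exact hxy (by linear_combination 0)
                · exfalso
                  have t192 : (s2) ^ 1 * ((3 * b02 ^ 2 + u11) ^ 2
                      * (1)) = 0 := by linear_combination (-4) * e1_3_2
                  have t193 := (mul_eq_zero.mp t192).resolve_left (pow_ne_zero 1 h2)
                  have t194 := (mul_eq_zero.mp t193).resolve_left (pow_ne_zero 2 h58)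
                  exact absurd t194 (by norm_num)
              · have t195 : (b02 * s2 + s21) ^ 1 * (3 * b02 ^ 2
                    + u11) = 0 := by linear_combination (2) * e1_2_2
                have t196 := (mul_eq_zero.mp t195).resolve_left (pow_ne_zero 1 h57)
                have t197 : -3 * b02 ^ 2 = u11 := by linear_combination (-1) * t196
                subst t197
                exfalso
                obtain ⟨x, y, hxy⟩ := hD
                exact hxy (by linear_combination 0)
            · have t198 : (4 * b02 - s22) ^ 1 * (3 * b02 ^ 2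
                  + u11) = 0 := by linear_combination (-2) * e1_1_3
              have t199 := (mul_eq_zero.mp t198).resolve_left (pow_ne_zero 1 h56)
              have t200 : -3 * b02 ^ 2 = u11 := by linear_combination (-1) * t199
              subst t200
              exfalso
              obtain ⟨x, y, hxy⟩ := hD
              exact hxy (by linear_combination 0)
          · have t201 : (s2) ^ 1 * ((a20) ^ 1 * (3 * b02 ^ 2
                + u11)) = 0 := by linear_combination (-2) * e1_3_1
            have t202 := (mul_eq_zero.mp t201).resolve_left (pow_ne_zero 1 h2)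
            have t203 := (mul_eq_zero.mp t202).resolve_left (pow_ne_zero 1 h55)
            have t204 : -3 * b02 ^ 2 = u11 := by linear_combination (-1) * t203
            subst t204
            exfalso
            obtain ⟨x, y, hxy⟩ := hD
            exact hxy (by linear_combination 0)
        · have t205 : (s2) ^ 1 * ((u02) ^ 1 * (4 * b02
              - s22)) = 0 := by linear_combination (-2) * e2_0_4
          have t206 := (mul_eq_zero.mp t205).resolve_left (pow_ne_zero 1 h2)
          have t207 := (mul_eq_zero.mp t206).resolve_left (pow_ne_zero 1 h54)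
          have t208 : 4 * b02 = s22 := by linear_combination (1) * t207
          subst t208
          have t209 : (u02) ^ 1 * (b02 * s2 + 2 * a20 + s21) = 0 := by linear_combination (2)
              * e1_1_3
          have t210 := (mul_eq_zero.mp t209).resolve_left (pow_ne_zero 1 h54)
          have t211 : -b02 * s2 - 2 * a20 = s21 := by linear_combination (-1) * t210
          subst t211
          have t212 : (s2) ^ 1 * ((u02) ^ 1 * (a20)) = 0 := by linear_combination (-2) * e1_2_2
          have t213 := (mul_eq_zero.mp t212).resolve_left (pow_ne_zero 1 h2)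
          have t214 := (mul_eq_zero.mp t213).resolve_left (pow_ne_zero 1 h54)
          have t215 : 0 = a20 := by linear_combination (-1) * t214
          subst t215
          have t216 : (u02) ^ 1 * (6 * b02 ^ 2 - u02 * s2 + 2
              * u11) = 0 := by linear_combination (4) * e1_1_4
          have t217 := (mul_eq_zero.mp t216).resolve_left (pow_ne_zero 1 h54)
          have t218 : -3 * b02 ^ 2 + 1 / 2 * u02 * s2 = u11 := by linear_combination (-1 / 2) * t217
          subst t218
          exfalso
          have t219 : (s2) ^ 3 * ((u02) ^ 2 * (1)) = 0 := by linear_combination (-16) * e1_3_2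
          have t220 := (mul_eq_zero.mp t219).resolve_left (pow_ne_zero 3 h2)
          have t221 := (mul_eq_zero.mp t220).resolve_left (pow_ne_zero 2 h54)
          exact absurd t221 (by norm_num)
      · have t222 : (s2) ^ 1 * ((b11) ^ 1 * (2 * a20 - b11)) = 0 := by linear_combination (-2)
            * e1_3_0
        have t223 := (mul_eq_zero.mp t222).resolve_left (pow_ne_zero 1 h2)
        have t224 := (mul_eq_zero.mp t223).resolve_left (pow_ne_zero 1 h52)
        have t225 : 1 / 2 * b11 = a20 := by linear_combination (-1 / 2) * t224
        subst t225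
        exfalso
        have t226 : (s2) ^ 1 * ((b11) ^ 3 * (1)) = 0 := by linear_combination (-2) * e2_4_0
        have t227 := (mul_eq_zero.mp t226).resolve_left (pow_ne_zero 1 h2)
        have t228 := (mul_eq_zero.mp t227).resolve_left (pow_ne_zero 3 h52)
        exact absurd t228 (by norm_num)
  · have t229 : (b20) ^ 1 * (s2) = 0 := by linear_combination e1_2_0
    have t230 := (mul_eq_zero.mp t229).resolve_left (pow_ne_zero 1 h1)
    have t231 : 0 = s2 := by linear_combination (-1) * t230
    subst t231
    exfalso
    have t232 : (b20) ^ 2 * (1) = 0 := by linear_combination (1 / 4) * e2_3_0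
    have t233 := (mul_eq_zero.mp t232).resolve_left (pow_ne_zero 2 h1)
    exact absurd t233 (by norm_num)

end Pool.Agent.H38.FM
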