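import Pool.Agent.H38.FM.GoodMk
import Pool.Agent.H67.FM.T3Types

/-!
# Type `Z` (vanishing linear and quadratic parts) is good
-/

set_option linter.unusedVariables false
set_option linter.unusedSimpArgs false

noncomputable section

namespace Pool.Agent.H38.FM

open FM67

theorem good_TyZ {p : Par} (hb : Base p) (ht : TyZ p) : Good p := by
  have h_a00 := hb.2.2.1
  have h_b00 := hb.2.2.2.1
  have h_c00 := hb.2.2.2.2
  obtain ⟨⟨h_a10, h_a01, h_b10, h_b01, h_c10, h_c01⟩, h_a20, h_a11, h_a02, h_b20, h_b11, h_b02,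
    h_c20, h_c11, h_c02⟩ := ht
  refine good_to (NF.m1 (-p.v20 / 2) ((p.u20 - p.v11) / 2) ((p.u11 - p.v02) / 2) p.u02 p.q20
    p.q11 p.q02 p.u20 p.u11) (rel_mk 0 0 1 0 1 0 1 0 0 0 0 (-1) 0 (-1) 0 (-1) 0 0 (-1)
      (by ring) (by ring) (by ring) (by ring) (by ring) (by ring) (by ring) (by ring) (by ring)
      (by ring) ?_ ?_)
  · norm_num
  · intro X Y Z X' Y' Z' hX hY hZ
    subst hX; subst hY; subst hZ
    refine ⟨?_, ?_, ?_, ?_, ?_, ?_⟩ <;>
      simp only [ha, FM.hb, hc, hd, he, hf, fM1, zeroPar, h_a00, h_b00, h_c00, h_a10, h_a01, h_b10,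
        h_b01, h_c10, h_c01, h_a20, h_a11, h_a02, h_b20, h_b11, h_b02, h_c20, h_c11, h_c02] <;>
      ring1

end Pool.Agent.H38.FM
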