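import Pool.Agent.H38.FM.TyN
import Pool.Agent.H38.FM.TyL
import Pool.Agent.H38.FM.TyL2
import Pool.Agent.H38.FM.TyLinf
import Pool.Agent.H38.FM.TyLp
import Pool.Agent.H38.FM.TyT1
import Pool.Agent.H38.FM.TyT2c
import Pool.Agent.H38.FM.TyT2z
import Pool.Agent.H38.FM.TyT2s
import Pool.Agent.H38.FM.TyZ
import Pool.Agent.H38.FM.TyA1
import Pool.Agent.H38.FM.TyA2
import Pool.Agent.H38.FM.TyA5
import Pool.Agent.H38.FM.TyB
import Pool.Agent.H38.FM.TyB0
import Pool.Agent.H38.FM.TyBz1
import Pool.Agent.H38.FM.TyBz2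
import Pool.Agent.H38.FM.TyBz3
import Pool.Agent.H38.FM.TyC1
import Pool.Agent.H38.FM.TyC2
import Pool.Agent.H67.FM.Normal

/-!
# Every nondegenerate flat member of the family is equivalent to a normal form
-/

noncomputable section

namespace Pool.Agent.H38.FM

open FM67

theorem good_of_flat {p : Par} (hp : p.Nondeg) (hf : FlatP p) : Good p :=
  good_of_types (fun _ => good_TyN) (fun _ => good_TyL) (fun _ => good_TyL2)
    (fun _ => good_TyInf) (fun _ => good_TyLp) (fun _ => good_TyT1) (fun _ => good_TyT2c)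
    (fun _ => good_TyT2z) (fun _ => good_TyT2s) (fun _ => good_TyZ) (fun _ => good_TyA1)
    (fun _ => good_TyA2) (fun _ => good_TyA5) (fun _ => good_TyB) (fun _ => good_TyB0)
    (fun _ => good_TyBz1) (fun _ => good_TyBz2) (fun _ => good_TyBz3) (fun _ => good_TyC1)
    (fun _ => good_TyC2) hp hf

theorem main :
    (∀ q : Par, Normal q → q.Nondeg ∧ Flat q.a q.b q.c) ∧
      ∀ p : Par, p.Nondeg → (Flat p.a p.b p.c ↔ ∃ q, Normal q ∧ Equ p q) :=
  final_of_good (fun _ hp hf => good_of_flat hp hf)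

end Pool.Agent.H38.FM
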