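import Mathlib

/-!
# MP_f23e48_gt: the 27 parameters of the family and the reduced flatness system

`Par` are the coefficients of a member of the family, `SPar` the eight free coefficients of the
polynomial 1-form `s` with `[e1, e2] = s1 e1 + s2 e2`, `e1 = a d/dx + b d/dy`, `e2 = b d/dx + c d/dy`.
-/

noncomputable section

namespace Pool.Agent.H38.FM

/-- The 27 coefficients. -/
structure Par where
  (a00 b00 c00 a10 a01 b10 b01 c10 c01 a20 a11 a02 b20 b11 b02 c20 c11 c02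
    u20 u11 u02 v20 v11 v02 q20 q11 q02 : ℂ)

namespace Par

/-- The quadratic form `Q`. -/
def Q (p : Par) (x y : ℂ) : ℂ := p.q20 * x ^ 2 + p.q11 * x * y + p.q02 * y ^ 2
/-- The quadratic form `U`. -/
def U (p : Par) (x y : ℂ) : ℂ := p.u20 * x ^ 2 + p.u11 * x * y + p.u02 * y ^ 2
/-- The quadratic form `V`. -/
def V (p : Par) (x y : ℂ) : ℂ := p.v20 * x ^ 2 + p.v11 * x * y + p.v02 * y ^ 2

/-- `g^{11}`. -/
def a (p : Par) (x y : ℂ) : ℂ :=
  p.a00 + p.a10 * x + p.a01 * y + p.a20 * x ^ 2 + p.a11 * x * y + p.a02 * y ^ 2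
    + x * p.U x y + x ^ 2 * p.Q x y
/-- `g^{12}`. -/
def b (p : Par) (x y : ℂ) : ℂ :=
  p.b00 + p.b10 * x + p.b01 * y + p.b20 * x ^ 2 + p.b11 * x * y + p.b02 * y ^ 2
    + (y * p.U x y + x * p.V x y) / 2 + x * y * p.Q x y
/-- `g^{22}`. -/
def c (p : Par) (x y : ℂ) : ℂ :=
  p.c00 + p.c10 * x + p.c01 * y + p.c20 * x ^ 2 + p.c11 * x * y + p.c02 * y ^ 2
    + y * p.V x y + y ^ 2 * p.Q x y

/-- Partial derivatives, written out. -/
def Qx (p : Par) (x y : ℂ) : ℂ := 2 * p.q20 * x + p.q11 * y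
def Qy (p : Par) (x y : ℂ) : ℂ := p.q11 * x + 2 * p.q02 * y
def Ux (p : Par) (x y : ℂ) : ℂ := 2 * p.u20 * x + p.u11 * y
def Uy (p : Par) (x y : ℂ) : ℂ := p.u11 * x + 2 * p.u02 * y
def Vx (p : Par) (x y : ℂ) : ℂ := 2 * p.v20 * x + p.v11 * y
def Vy (p : Par) (x y : ℂ) : ℂ := p.v11 * x + 2 * p.v02 * y
def ax (p : Par) (x y : ℂ) : ℂ :=
  p.a10 + 2 * p.a20 * x + p.a11 * y + p.U x y + x * p.Ux x y + 2 * x * p.Q x y + x ^ 2 * p.Qx x y
def ay (p : Par) (x y : ℂ) : ℂ :=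
  p.a01 + p.a11 * x + 2 * p.a02 * y + x * p.Uy x y + x ^ 2 * p.Qy x y
def bx (p : Par) (x y : ℂ) : ℂ :=
  p.b10 + 2 * p.b20 * x + p.b11 * y + (y * p.Ux x y + p.V x y + x * p.Vx x y) / 2
    + y * p.Q x y + x * y * p.Qx x y
def bY (p : Par) (x y : ℂ) : ℂ :=
  p.b01 + p.b11 * x + 2 * p.b02 * y + (p.U x y + y * p.Uy x y + x * p.Vy x y) / 2
    + x * p.Q x y + x * y * p.Qy x y
def cx (p : Par) (x y : ℂ) : ℂ :=
  p.c10 + 2 * p.c20 * x + p.c11 * y + y * p.Vx x y + y ^ 2 * p.Qx x y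
def cy (p : Par) (x y : ℂ) : ℂ :=
  p.c01 + p.c11 * x + 2 * p.c02 * y + p.V x y + y * p.Vy x y + 2 * y * p.Q x y + y ^ 2 * p.Qy x y

/-- The determinant `D = ac - b^2` and its derivatives. -/
def D (p : Par) (x y : ℂ) : ℂ := p.a x y * p.c x y - p.b x y ^ 2
def Dx (p : Par) (x y : ℂ) : ℂ := p.ax x y * p.c x y + p.a x y * p.cx x y - 2 * p.b x y * p.bx x y
def Dy (p : Par) (x y : ℂ) : ℂ := p.ay x y * p.c x y + p.a x y * p.cy x y - 2 * p.b x y * p.bY x y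

/-- Nondegeneracy of the metric. -/
def Nondeg (p : Par) : Prop := ∃ x y, p.D x y ≠ 0

end Par

/-- The eight free coefficients of the 1-form `s`. -/
structure SPar where
  (s1 s2 s11 s12 s21 s22 l1 l2 : ℂ)

/-- The `dx`-component of `s`. -/
def S1 (p : Par) (s : SPar) (x y : ℂ) : ℂ :=
  s.s1 + s.s11 * x + s.s12 * y + y * (s.l1 * x + s.l2 * y) - p.V x y / 2 - y * p.Q x y
/-- The `dy`-component of `s`. -/
def S2 (p : Par) (s : SPar) (x y : ℂ) : ℂ :=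
  s.s2 + s.s21 * x + s.s22 * y + p.U x y / 2 - x * (s.l1 * x + s.l2 * y) + x * p.Q x y
def S1y (p : Par) (s : SPar) (x y : ℂ) : ℂ :=
  s.s12 + s.l1 * x + 2 * s.l2 * y - p.Vy x y / 2 - p.Q x y - y * p.Qy x y
def S2x (p : Par) (s : SPar) (x y : ℂ) : ℂ :=
  s.s21 + p.Ux x y / 2 - 2 * s.l1 * x - s.l2 * y + p.Q x y + x * p.Qx x y

/-- First component of `g s = r`. -/
def E1 (p : Par) (s : SPar) (x y : ℂ) : ℂ :=
  p.a x y * S1 p s x y + p.b x y * S2 p s x y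
    - (p.a x y * p.bx x y + p.b x y * p.bY x y - p.b x y * p.ax x y - p.c x y * p.ay x y)
/-- Second component of `g s = r`. -/
def E2 (p : Par) (s : SPar) (x y : ℂ) : ℂ :=
  p.b x y * S1 p s x y + p.c x y * S2 p s x y
    - (p.a x y * p.cx x y + p.b x y * p.cy x y - p.b x y * p.bx x y - p.c x y * p.bY x y)
/-- The flatness expression `2D ds - dD^s + a dc^db + b da^dc + c db^da`. -/
def FF (p : Par) (s : SPar) (x y : ℂ) : ℂ :=
  2 * p.D x y * (S2x p s x y - S1y p s x y) - (p.Dx x y * S2 p s x y - p.Dy x y * S1 p s x y)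
    + p.a x y * (p.cx x y * p.bY x y - p.cy x y * p.bx x y)
    + p.b x y * (p.ax x y * p.cy x y - p.ay x y * p.cx x y)
    + p.c x y * (p.bx x y * p.ay x y - p.bY x y * p.ax x y)

/-- The reduced flatness system. -/
def Sys (p : Par) (s : SPar) : Prop :=
  ∀ x y : ℂ, E1 p s x y = 0 ∧ E2 p s x y = 0 ∧ FF p s x y = 0

end Pool.Agent.H38.FM
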