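import Mathlib

/-!
# Elimination tree `Bz2` (generated)
-/

set_option linter.unusedVariables false
set_option linter.style.longLine false

noncomputable section

namespace Pool.Agent.H38.FM

theorem tree_Bz2
    (a11 u20 u02 v20 v11 v02 q20 q11 q02 s1 s2 s11 s12 s21 s22 l1 l2 : ℂ)
    (e1_1_1 : a11 * s1 = 0)
    (e1_3_0 : u20 * s1 + 1 / 2 * v20 * s2 = 0)
    (e1_2_1 : a11 * s11 + 1 / 2 * u20 * s2 + 1 / 2 * v11 * s2 + v02 * s1 = 0)
    (e1_1_2 : a11 * s12 + u02 * s1 + v02 * s2 = 0)
    (e1_0_3 : 1 / 2 * u02 * s2 = 0)
    (e1_4_0 : u20 * s11 + 1 / 2 * v20 * s21 + q20 * s1 = 0)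
    (e1_3_1 : -1 / 2 * a11 * v20 + u20 * s12 + 1 / 2 * u20 * s21 + 1 / 2 * v20 * s22 + 1 / 2
        * v11 * s21 + v02 * s11 + q20 * s2 + q11 * s1 = 0)
    (e1_2_2 : -1 / 2 * a11 * u20 + a11 * l1 + 1 / 2 * u20 * s22 + u02 * s11 + 1 / 2 * v11 * s22
        + v02 * s12 + v02 * s21 + q11 * s2 + q02 * s1 = 0)
    (e1_1_3 : 1 / 2 * a11 * v02 + a11 * l2 + u02 * s12 + 1 / 2 * u02 * s21 + v02 * s22 + q02
        * s2 = 0)
    (e1_0_4 : 1 / 2 * a11 * u02 + 1 / 2 * u02 * s22 = 0)
    (e1_4_1 : 1 / 2 * u20 ^ 2 - 1 / 4 * u20 * v11 + 1 / 2 * u20 * l1 - 3 / 4 * v20 * v02
        - 1 / 2 * v20 * l2 - 1 / 4 * v11 ^ 2 - 1 / 2 * v11 * l1 + q20 * s12 + q20 * s21 + q11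
        * s11 = 0)
    (e1_3_2 : -2 * a11 * q20 + 3 / 4 * u20 * v02 + 1 / 2 * u20 * l2 - 3 / 4 * v11 * v02 - 1 / 2
        * v11 * l2 + q20 * s22 + q11 * s12 + q11 * s21 + q02 * s11 = 0)
    (e1_2_3 : -a11 * q11 + 1 / 2 * u20 * u02 + 1 / 4 * u02 * v11 + 1 / 2 * u02 * l1 + q11 * s22
        + q02 * s12 + q02 * s21 = 0)
    (e1_1_4 : 3 / 4 * u02 * v02 + 1 / 2 * u02 * l2 + q02 * s22 = 0)
    (e2_1_2 : v11 * s2 + v02 * s1 = 0)
    (e2_0_3 : 1 / 2 * u02 * s1 + v02 * s2 = 0)
    (e2_2_2 : -2 * a11 * v20 + 1 / 2 * u20 * s12 + v20 * s22 + 1 / 2 * v11 * s12 + v11 * s21
        + v02 * s11 + q20 * s2 + q11 * s1 = 0)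
    (e2_1_3 : -a11 * v11 + 1 / 2 * u02 * s11 + v11 * s22 + v02 * s12 + v02 * s21 + q11 * s2
        + q02 * s1 = 0)
    (e2_0_4 : 1 / 2 * u02 * s12 + v02 * s22 + q02 * s2 = 0)
    (f_1_4 : -2 * a11 * v11 * s22 + 2 * a11 * v02 * s12 + a11 * v02 * s21 - 2 * a11 * q11 * s2
        + 5 * a11 * q02 * s1 + u20 * u02 * s2 - u02 * v11 * s2 = 0)
    (f_3_3 : 1 / 2 * a11 * u20 * v11 - 2 * a11 * v20 * v02 - a11 * v20 * l2 - a11 * v11 ^ 2
        - a11 * v11 * l1 + a11 * q20 * s12 - a11 * q20 * s21 + 4 * a11 * q11 * s11 + u20 ^ 2
        * s22 - 2 * u20 * u02 * s11 - 2 * u20 * v11 * s22 + 1 / 2 * u02 * v20 * s12 - 1 / 2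
        * u02 * v20 * s21 + 2 * u02 * v11 * s11 + v11 ^ 2 * s22 = 0)
    (f_2_4 : 1 / 2 * a11 * u20 * v02 - 1 / 2 * a11 * u02 * v20 - 3 / 2 * a11 * v11 * v02 - a11
        * v11 * l2 - a11 * v02 * l1 - 3 * a11 * q20 * s22 + 2 * a11 * q11 * s12 + 5 * a11 * q02
        * s11 - u20 * u02 * s12 - 3 / 2 * u02 * v20 * s22 + u02 * v11 * s12 = 0)
    (f_1_5 : -1 / 2 * a11 * u02 * v11 - 1 / 2 * a11 * v02 ^ 2 - a11 * v02 * l2 - 2 * a11 * q11
        * s22 + 3 * a11 * q02 * s12 + a11 * q02 * s21 + u20 * u02 * s22 - 3 / 2 * u02 ^ 2 * s11
        - u02 * v11 * s22 = 0)
    (n1 : a11 ≠ 0)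
    (hD : ∃ x y : ℂ, (x ^ 4 * q20 + x ^ 3 * y * q11 + x ^ 2 * y ^ 2 * q02 + x ^ 3 * u20 + x ^ 2
        * y * v02 + x * y ^ 2 * u02 + x * y * a11) * (x ^ 2 * y ^ 2 * q20 + x * y ^ 3 * q11
        + y ^ 4 * q02 + x ^ 2 * y * v20 + x * y ^ 2 * v11 + y ^ 3 * v02) - (x ^ 3 * y * q20
        + x ^ 2 * y ^ 2 * q11 + x * y ^ 3 * q02 + 1 / 2 * x ^ 3 * v20 + 1 / 2 * x ^ 2 * y * u20
        + 1 / 2 * x ^ 2 * y * v11 + x * y ^ 2 * v02 + 1 / 2 * y ^ 3 * u02) ^ 2 ≠ 0) :
    ((u20 = 0) ∧ (u02 = 0) ∧ (v20 = 0) ∧ (v11 = 0) ∧ (v02 = 0) ∧ (q20 = 0) ∧ (q11 = 0) ∧ (a11 ≠ 0) ∧ (q02 ≠ 0)) ∨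
    ((u20 = 0) ∧ (u02 = 0) ∧ (v20 = 0) ∧ (v11 = 0) ∧ (q20 = 0) ∧ (q11 = 0) ∧ (a11 ≠ 0) ∧ (v02 ≠ 0)) ∨
    ((u20 = 0) ∧ (v20 = 0) ∧ (v11 = 0) ∧ (v02 = 0) ∧ (q20 = 0) ∧ (q11 = 0) ∧ (q02 = 0) ∧ (a11 ≠ 0) ∧ (u02 ≠ 0)) := by
  have t1 : (a11) ^ 1 * (s1) = 0 := by linear_combination e1_1_1
  have t2 := (mul_eq_zero.mp t1).resolve_left (pow_ne_zero 1 n1)
  have t3 : 0 = s1 := by linear_combination (-1) * t2
  subst t3
  have r2 : a11 * s12 + v02 * s2 = 0 := by linear_combination e1_1_2
  have r3 : 2 * a11 * s11 + u20 * s2 + v11 * s2 = 0 := by linear_combination (2) * e1_2_1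
  by_cases h4 : v20 = 0
  · have t4 : 0 = v20 := by linear_combination (-1) * h4
    subst t4
    by_cases h5 : u02 = 0
    · have t5 : 0 = u02 := by linear_combination (-1) * h5
      subst t5
      by_cases h6 : v11 = 0
      · have t6 : 0 = v11 := by linear_combination (-1) * h6
        subst t6
        by_cases h7 : v02 = 0
        · have t7 : 0 = v02 := by linear_combination (-1) * h7
          subst t7
          have t8 : (a11) ^ 1 * (s12) = 0 := by linear_combination r2
          have t9 := (mul_eq_zero.mp t8).resolve_left (pow_ne_zero 1 n1)
          have t10 : 0 = s12 := by linear_combination (-1) * t9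
          subst t10
          have r8 : a11 * l2 + q02 * s2 = 0 := by linear_combination e1_1_3
          have r9 : a11 * u20 - 2 * a11 * l1 - u20 * s22 - 2 * q11
              * s2 = 0 := by linear_combination (-2) * e1_2_2
          by_cases h10 : q20 = 0
          · have t11 : 0 = q20 := by linear_combination (-1) * h10
            subst t11
            by_cases h11 : u20 = 0
            · have t12 : 0 = u20 := by linear_combination (-1) * h11
              subst t12
              have t13 : (a11) ^ 1 * (s11) = 0 := by linear_combination (1 / 2) * r3
              have t14 := (mul_eq_zero.mp t13).resolve_left (pow_ne_zero 1 n1)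
              have t15 : 0 = s11 := by linear_combination (-1) * t14
              subst t15
              by_cases h12 : q11 = 0
              · have t16 : 0 = q11 := by linear_combination (-1) * h12
                subst t16
                have t17 : (a11) ^ 1 * (l1) = 0 := by linear_combination (-1 / 2) * r9
                have t18 := (mul_eq_zero.mp t17).resolve_left (pow_ne_zero 1 n1)
                have t19 : 0 = l1 := by linear_combination (-1) * t18
                subst t19
                by_cases h13 : q02 = 0
                · have t20 : 0 = q02 := by linear_combination (-1) * h13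
                  subst t20
                  have t21 : (a11) ^ 1 * (l2) = 0 := by linear_combination r8
                  have t22 := (mul_eq_zero.mp t21).resolve_left (pow_ne_zero 1 n1)
                  have t23 : 0 = l2 := by linear_combination (-1) * t22
                  subst t23
                  exfalso
                  obtain ⟨x, y, hxy⟩ := hD
                  exact hxy (by linear_combination 0)
                · have t24 : (q02) ^ 1 * (s2) = 0 := by linear_combination e2_0_4
                  have t25 := (mul_eq_zero.mp t24).resolve_left (pow_ne_zero 1 h13)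
                  have t26 : 0 = s2 := by linear_combination (-1) * t25
                  subst t26
                  have t27 : (a11) ^ 1 * (l2) = 0 := by linear_combination r8
                  have t28 := (mul_eq_zero.mp t27).resolve_left (pow_ne_zero 1 n1)
                  have t29 : 0 = l2 := by linear_combination (-1) * t28
                  subst t29
                  have t30 : (q02) ^ 1 * (s22) = 0 := by linear_combination e1_1_4
                  have t31 := (mul_eq_zero.mp t30).resolve_left (pow_ne_zero 1 h13)
                  have t32 : 0 = s22 := by linear_combination (-1) * t31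
                  subst t32
                  have t33 : (q02) ^ 1 * (s21) = 0 := by linear_combination e1_2_3
                  have t34 := (mul_eq_zero.mp t33).resolve_left (pow_ne_zero 1 h13)
                  have t35 : 0 = s21 := by linear_combination (-1) * t34
                  subst t35
                  exact Or.inl ⟨by ring, by ring, by ring, by ring, by ring, by ring, by ring, n1, h13⟩
              · have t36 : (q11) ^ 1 * (s2) = 0 := by linear_combination e2_1_3
                have t37 := (mul_eq_zero.mp t36).resolve_left (pow_ne_zero 1 h12)
                have t38 : 0 = s2 := by linear_combination (-1) * t37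
                subst t38
                have t39 : (a11) ^ 1 * (l2) = 0 := by linear_combination r8
                have t40 := (mul_eq_zero.mp t39).resolve_left (pow_ne_zero 1 n1)
                have t41 : 0 = l2 := by linear_combination (-1) * t40
                subst t41
                have t42 : (a11) ^ 1 * (l1) = 0 := by linear_combination (-1 / 2) * r9
                have t43 := (mul_eq_zero.mp t42).resolve_left (pow_ne_zero 1 n1)
                have t44 : 0 = l1 := by linear_combination (-1) * t43
                subst t44
                have t45 : (q11) ^ 1 * (s21) = 0 := by linear_combination e1_3_2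
                have t46 := (mul_eq_zero.mp t45).resolve_left (pow_ne_zero 1 h12)
                have t47 : 0 = s21 := by linear_combination (-1) * t46
                subst t47
                have t48 : (q11) ^ 1 * (a11 - s22) = 0 := by linear_combination (-1) * e1_2_3
                have t49 := (mul_eq_zero.mp t48).resolve_left (pow_ne_zero 1 h12)
                have t50 : a11 = s22 := by linear_combination (1) * t49
                subst t50
                have t51 : (a11) ^ 1 * (q02) = 0 := by linear_combination e1_1_4
                have t52 := (mul_eq_zero.mp t51).resolve_left (pow_ne_zero 1 n1)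
                have t53 : 0 = q02 := by linear_combination (-1) * t52
                subst t53
                exfalso
                have t54 : (a11) ^ 2 * ((q11) ^ 1 * (1)) = 0 := by linear_combination (-1 / 2)
                    * f_1_5
                have t55 := (mul_eq_zero.mp t54).resolve_left (pow_ne_zero 2 n1)
                have t56 := (mul_eq_zero.mp t55).resolve_left (pow_ne_zero 1 h12)
                exact absurd t56 (by norm_num)
            · have t57 : (u20) ^ 1 * (s21) = 0 := by linear_combination (2) * e1_3_1
              have t58 := (mul_eq_zero.mp t57).resolve_left (pow_ne_zero 1 h11)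
              have t59 : 0 = s21 := by linear_combination (-1) * t58
              subst t59
              have t60 : (u20) ^ 2 * (s2) = 0 := by linear_combination (-2 * a11) * e1_4_0
                  + (u20) * r3
              have t61 := (mul_eq_zero.mp t60).resolve_left (pow_ne_zero 2 h11)
              have t62 : 0 = s2 := by linear_combination (-1) * t61
              subst t62
              have t63 : (a11) ^ 1 * (s11) = 0 := by linear_combination (1 / 2) * r3
              have t64 := (mul_eq_zero.mp t63).resolve_left (pow_ne_zero 1 n1)
              have t65 : 0 = s11 := by linear_combination (-1) * t64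
              subst t65
              have t66 : (a11) ^ 1 * (l2) = 0 := by linear_combination r8
              have t67 := (mul_eq_zero.mp t66).resolve_left (pow_ne_zero 1 n1)
              have t68 : 0 = l2 := by linear_combination (-1) * t67
              subst t68
              have t69 : (u20) ^ 2 * (3 * a11 - s22) = 0 := by linear_combination (4 * a11)
                  * e1_4_1 + (u20) * r9
              have t70 := (mul_eq_zero.mp t69).resolve_left (pow_ne_zero 2 h11)
              have t71 : 3 * a11 = s22 := by linear_combination (1) * t70
              subst t71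
              have t72 : (a11) ^ 1 * (-2 * u20 - 2 * l1) = 0 := by linear_combination r9
              have t73 := (mul_eq_zero.mp t72).resolve_left (pow_ne_zero 1 n1)
              have r14 : -2 * u20 - 2 * l1 = 0 := by linear_combination t73
              have t74 : -u20 = l1 := by linear_combination (1 / 2) * r14
              subst t74
              have t75 : (a11) ^ 1 * (q02) = 0 := by linear_combination (1 / 3) * e1_1_4
              have t76 := (mul_eq_zero.mp t75).resolve_left (pow_ne_zero 1 n1)
              have t77 : 0 = q02 := by linear_combination (-1) * t76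
              subst t77
              have t78 : (a11) ^ 1 * (q11) = 0 := by linear_combination (1 / 2) * e1_2_3
              have t79 := (mul_eq_zero.mp t78).resolve_left (pow_ne_zero 1 n1)
              have t80 : 0 = q11 := by linear_combination (-1) * t79
              subst t80
              exfalso
              have t81 : (a11) ^ 1 * ((u20) ^ 2 * (1)) = 0 := by linear_combination (1 / 3) * f_3_3
              have t82 := (mul_eq_zero.mp t81).resolve_left (pow_ne_zero 1 n1)
              have t83 := (mul_eq_zero.mp t82).resolve_left (pow_ne_zero 2 h11)
              exact absurd t83 (by norm_num)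
          · have t84 : (q20) ^ 1 * (s2) = 0 := by linear_combination e2_2_2
            have t85 := (mul_eq_zero.mp t84).resolve_left (pow_ne_zero 1 h10)
            have t86 : 0 = s2 := by linear_combination (-1) * t85
            subst t86
            have t87 : (a11) ^ 1 * (s11) = 0 := by linear_combination (1 / 2) * r3
            have t88 := (mul_eq_zero.mp t87).resolve_left (pow_ne_zero 1 n1)
            have t89 : 0 = s11 := by linear_combination (-1) * t88
            subst t89
            have t90 : (a11) ^ 1 * (l2) = 0 := by linear_combination r8
            have t91 := (mul_eq_zero.mp t90).resolve_left (pow_ne_zero 1 n1)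
            have t92 : 0 = l2 := by linear_combination (-1) * t91
            subst t92
            by_cases h15 : u20 = 0
            · have t93 : 0 = u20 := by linear_combination (-1) * h15
              subst t93
              have t94 : (a11) ^ 1 * (l1) = 0 := by linear_combination (-1 / 2) * r9
              have t95 := (mul_eq_zero.mp t94).resolve_left (pow_ne_zero 1 n1)
              have t96 : 0 = l1 := by linear_combination (-1) * t95
              subst t96
              have t97 : (q20) ^ 1 * (s21) = 0 := by linear_combination e1_4_1
              have t98 := (mul_eq_zero.mp t97).resolve_left (pow_ne_zero 1 h10)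
              have t99 : 0 = s21 := by linear_combination (-1) * t98
              subst t99
              have t100 : (q20) ^ 1 * (2 * a11 - s22) = 0 := by linear_combination (-1) * e1_3_2
              have t101 := (mul_eq_zero.mp t100).resolve_left (pow_ne_zero 1 h10)
              have t102 : 2 * a11 = s22 := by linear_combination (1) * t101
              subst t102
              have t103 : (a11) ^ 1 * (q02) = 0 := by linear_combination (1 / 2) * e1_1_4
              have t104 := (mul_eq_zero.mp t103).resolve_left (pow_ne_zero 1 n1)
              have t105 : 0 = q02 := by linear_combination (-1) * t104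
              subst t105
              have t106 : (a11) ^ 1 * (q11) = 0 := by linear_combination e1_2_3
              have t107 := (mul_eq_zero.mp t106).resolve_left (pow_ne_zero 1 n1)
              have t108 : 0 = q11 := by linear_combination (-1) * t107
              subst t108
              exfalso
              have t109 : (a11) ^ 2 * ((q20) ^ 1 * (1)) = 0 := by linear_combination (-1 / 6)
                  * f_2_4
              have t110 := (mul_eq_zero.mp t109).resolve_left (pow_ne_zero 2 n1)
              have t111 := (mul_eq_zero.mp t110).resolve_left (pow_ne_zero 1 h10)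
              exact absurd t111 (by norm_num)
            · have t112 : (u20) ^ 1 * (s21) = 0 := by linear_combination (2) * e1_3_1
              have t113 := (mul_eq_zero.mp t112).resolve_left (pow_ne_zero 1 h15)
              have t114 : 0 = s21 := by linear_combination (-1) * t113
              subst t114
              have t115 : (u20) ^ 2 * (3 * a11 - s22) = 0 := by linear_combination (4 * a11)
                  * e1_4_1 + (u20) * r9
              have t116 := (mul_eq_zero.mp t115).resolve_left (pow_ne_zero 2 h15)
              have t117 : 3 * a11 = s22 := by linear_combination (1) * t116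
              subst t117
              have t118 : (a11) ^ 1 * (-2 * u20 - 2 * l1) = 0 := by linear_combination r9
              have t119 := (mul_eq_zero.mp t118).resolve_left (pow_ne_zero 1 n1)
              have r16 : -2 * u20 - 2 * l1 = 0 := by linear_combination t119
              have t120 : -u20 = l1 := by linear_combination (1 / 2) * r16
              subst t120
              exfalso
              have t121 : (a11) ^ 1 * ((q20) ^ 1 * (1)) = 0 := by linear_combination e1_3_2
              have t122 := (mul_eq_zero.mp t121).resolve_left (pow_ne_zero 1 n1)
              have t123 := (mul_eq_zero.mp t122).resolve_left (pow_ne_zero 1 h10)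
              exact absurd t123 (by norm_num)
        · have t124 : (v02) ^ 1 * (s2) = 0 := by linear_combination e2_0_3
          have t125 := (mul_eq_zero.mp t124).resolve_left (pow_ne_zero 1 h7)
          have t126 : 0 = s2 := by linear_combination (-1) * t125
          subst t126
          have t127 : (a11) ^ 1 * (s12) = 0 := by linear_combination r2
          have t128 := (mul_eq_zero.mp t127).resolve_left (pow_ne_zero 1 n1)
          have t129 : 0 = s12 := by linear_combination (-1) * t128
          subst t129
          have t130 : (a11) ^ 1 * (s11) = 0 := by linear_combination (1 / 2) * r3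
          have t131 := (mul_eq_zero.mp t130).resolve_left (pow_ne_zero 1 n1)
          have t132 : 0 = s11 := by linear_combination (-1) * t131
          subst t132
          have t133 : (v02) ^ 1 * (s22) = 0 := by linear_combination e2_0_4
          have t134 := (mul_eq_zero.mp t133).resolve_left (pow_ne_zero 1 h7)
          have t135 : 0 = s22 := by linear_combination (-1) * t134
          subst t135
          have t136 : (v02) ^ 1 * (s21) = 0 := by linear_combination e2_1_3
          have t137 := (mul_eq_zero.mp t136).resolve_left (pow_ne_zero 1 h7)
          have t138 : 0 = s21 := by linear_combination (-1) * t137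
          subst t138
          have t139 : (a11) ^ 1 * (v02 + 2 * l2) = 0 := by linear_combination (2) * e1_1_3
          have t140 := (mul_eq_zero.mp t139).resolve_left (pow_ne_zero 1 n1)
          have t141 : -1 / 2 * v02 = l2 := by linear_combination (-1 / 2) * t140
          subst t141
          have t142 : (a11) ^ 1 * (u20 - 2 * l1) = 0 := by linear_combination (-2) * e1_2_2
          have t143 := (mul_eq_zero.mp t142).resolve_left (pow_ne_zero 1 n1)
          have t144 : 1 / 2 * u20 = l1 := by linear_combination (1 / 2) * t143
          subst t144
          have t145 : (a11) ^ 1 * (q11) = 0 := by linear_combination (-1) * e1_2_3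
          have t146 := (mul_eq_zero.mp t145).resolve_left (pow_ne_zero 1 n1)
          have t147 : 0 = q11 := by linear_combination (-1) * t146
          subst t147
          have r17 : 4 * a11 * q20 - u20 * v02 = 0 := by linear_combination (-2) * e1_3_2
          by_cases h18 : u20 = 0
          · have t148 : 0 = u20 := by linear_combination (-1) * h18
            subst t148
            have t149 : (a11) ^ 1 * (q20) = 0 := by linear_combination (1 / 4) * r17
            have t150 := (mul_eq_zero.mp t149).resolve_left (pow_ne_zero 1 n1)
            have t151 : 0 = q20 := by linear_combination (-1) * t150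
            subst t151
            exact Or.inr (Or.inl ⟨by ring, by ring, by ring, by ring, by ring, by ring, n1, h7⟩)
          · exfalso
            have t152 : (u20) ^ 2 * (1) = 0 := by linear_combination (4 / 3) * e1_4_1
            have t153 := (mul_eq_zero.mp t152).resolve_left (pow_ne_zero 2 h18)
            exact absurd t153 (by norm_num)
      · have t154 : (v11) ^ 1 * (s2) = 0 := by linear_combination e2_1_2
        have t155 := (mul_eq_zero.mp t154).resolve_left (pow_ne_zero 1 h6)
        have t156 : 0 = s2 := by linear_combination (-1) * t155
        subst t156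
        have t157 : (a11) ^ 1 * (s12) = 0 := by linear_combination r2
        have t158 := (mul_eq_zero.mp t157).resolve_left (pow_ne_zero 1 n1)
        have t159 : 0 = s12 := by linear_combination (-1) * t158
        subst t159
        have t160 : (a11) ^ 1 * (s11) = 0 := by linear_combination (1 / 2) * r3
        have t161 := (mul_eq_zero.mp t160).resolve_left (pow_ne_zero 1 n1)
        have t162 : 0 = s11 := by linear_combination (-1) * t161
        subst t162
        have t163 : (v11) ^ 1 * (s21) = 0 := by linear_combination e2_2_2
        have t164 := (mul_eq_zero.mp t163).resolve_left (pow_ne_zero 1 h6)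
        have t165 : 0 = s21 := by linear_combination (-1) * t164
        subst t165
        have t166 : (v11) ^ 1 * (a11 - s22) = 0 := by linear_combination (-1) * e2_1_3
        have t167 := (mul_eq_zero.mp t166).resolve_left (pow_ne_zero 1 h6)
        have t168 : a11 = s22 := by linear_combination (1) * t167
        subst t168
        have t169 : (a11) ^ 1 * (v02) = 0 := by linear_combination e2_0_4
        have t170 := (mul_eq_zero.mp t169).resolve_left (pow_ne_zero 1 n1)
        have t171 : 0 = v02 := by linear_combination (-1) * t170
        subst t171
        have t172 : (a11) ^ 1 * (l2) = 0 := by linear_combination e1_1_3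
        have t173 := (mul_eq_zero.mp t172).resolve_left (pow_ne_zero 1 n1)
        have t174 : 0 = l2 := by linear_combination (-1) * t173
        subst t174
        have t175 : (a11) ^ 1 * (v11 + 2 * l1) = 0 := by linear_combination (2) * e1_2_2
        have t176 := (mul_eq_zero.mp t175).resolve_left (pow_ne_zero 1 n1)
        have t177 : -1 / 2 * v11 = l1 := by linear_combination (-1 / 2) * t176
        subst t177
        have t178 : (a11) ^ 1 * (q02) = 0 := by linear_combination e1_1_4
        have t179 := (mul_eq_zero.mp t178).resolve_left (pow_ne_zero 1 n1)
        have t180 : 0 = q02 := by linear_combination (-1) * t179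
        subst t180
        have t181 : (a11) ^ 1 * (q20) = 0 := by linear_combination (-1) * e1_3_2
        have t182 := (mul_eq_zero.mp t181).resolve_left (pow_ne_zero 1 n1)
        have t183 : 0 = q20 := by linear_combination (-1) * t182
        subst t183
        by_cases h19 : u20 = 0
        · have t184 : 0 = u20 := by linear_combination (-1) * h19
          subst t184
          exfalso
          have t185 : (a11) ^ 2 * ((v11) ^ 1 * (1)) = 0 := by linear_combination (-1 / 2) * f_1_4
          have t186 := (mul_eq_zero.mp t185).resolve_left (pow_ne_zero 2 n1)
          have t187 := (mul_eq_zero.mp t186).resolve_left (pow_ne_zero 1 h6)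
          exact absurd t187 (by norm_num)
        · have t188 : (u20) ^ 1 * (u20 - v11) = 0 := by linear_combination (2) * e1_4_1
          have t189 := (mul_eq_zero.mp t188).resolve_left (pow_ne_zero 1 h19)
          have t190 : u20 = v11 := by linear_combination (1) * t189
          subst t190
          exfalso
          have t191 : (a11) ^ 2 * ((u20) ^ 1 * (1)) = 0 := by linear_combination (-1 / 2) * f_1_4
          have t192 := (mul_eq_zero.mp t191).resolve_left (pow_ne_zero 2 n1)
          have t193 := (mul_eq_zero.mp t192).resolve_left (pow_ne_zero 1 h19)
          exact absurd t193 (by norm_num)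
    · have t194 : (u02) ^ 1 * (s2) = 0 := by linear_combination (2) * e1_0_3
      have t195 := (mul_eq_zero.mp t194).resolve_left (pow_ne_zero 1 h5)
      have t196 : 0 = s2 := by linear_combination (-1) * t195
      subst t196
      have t197 : (a11) ^ 1 * (s12) = 0 := by linear_combination r2
      have t198 := (mul_eq_zero.mp t197).resolve_left (pow_ne_zero 1 n1)
      have t199 : 0 = s12 := by linear_combination (-1) * t198
      subst t199
      have t200 : (a11) ^ 1 * (s11) = 0 := by linear_combination (1 / 2) * r3
      have t201 := (mul_eq_zero.mp t200).resolve_left (pow_ne_zero 1 n1)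
      have t202 : 0 = s11 := by linear_combination (-1) * t201
      subst t202
      have t203 : (u02) ^ 1 * (a11 + s22) = 0 := by linear_combination (2) * e1_0_4
      have t204 := (mul_eq_zero.mp t203).resolve_left (pow_ne_zero 1 h5)
      have t205 : -a11 = s22 := by linear_combination (-1) * t204
      subst t205
      have t206 : (a11) ^ 1 * (v02) = 0 := by linear_combination (-1) * e2_0_4
      have t207 := (mul_eq_zero.mp t206).resolve_left (pow_ne_zero 1 n1)
      have t208 : 0 = v02 := by linear_combination (-1) * t207
      subst t208
      have t209 : (a11) ^ 1 * (v11) = 0 := by linear_combination (-1 / 2) * e2_1_3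
      have t210 := (mul_eq_zero.mp t209).resolve_left (pow_ne_zero 1 n1)
      have t211 : 0 = v11 := by linear_combination (-1) * t210
      subst t211
      have t212 : (a11) ^ 1 * (u20 - l1) = 0 := by linear_combination (-1) * e1_2_2
      have t213 := (mul_eq_zero.mp t212).resolve_left (pow_ne_zero 1 n1)
      have t214 : u20 = l1 := by linear_combination (1) * t213
      subst t214
      have r20 : 2 * a11 * l2 + u02 * s21 = 0 := by linear_combination (2) * e1_1_3
      by_cases h21 : u20 = 0
      · have t215 : 0 = u20 := by linear_combination (-1) * h21
        subst t215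
        have r22 : 4 * a11 ^ 2 * q02 + u02 ^ 2 * s21 = 0 := by linear_combination (-4 * a11)
            * e1_1_4 + (u02) * r20
        have r23 : -4 * a11 ^ 2 * u02 * q02 + 2 * a11 * u02 ^ 2
            * l2 = 0 := by linear_combination (u02 ^ 2) * r20 + (-u02) * r22
        have t216 : (a11) ^ 1 * ((u02) ^ 1 * (-4 * a11 * q02 + 2 * u02
            * l2)) = 0 := by linear_combination r23
        have t217 := (mul_eq_zero.mp t216).resolve_left (pow_ne_zero 1 n1)
        have t218 := (mul_eq_zero.mp t217).resolve_left (pow_ne_zero 1 h5)
        have r24 : -4 * a11 * q02 + 2 * u02 * l2 = 0 := by linear_combination t218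
        have t219 : (a11) ^ 1 * (2 * a11 * q02 ^ 2 + u02 ^ 2
            * q11) = 0 := by linear_combination (-1 / 2 * u02 ^ 2) * e1_2_3 + (1 / 2 * q02) * r22
        have t220 := (mul_eq_zero.mp t219).resolve_left (pow_ne_zero 1 n1)
        have r25 : 2 * a11 * q02 ^ 2 + u02 ^ 2 * q11 = 0 := by linear_combination t220
        have t221 : (a11) ^ 1 * (8 * a11 ^ 2 * q02 ^ 3 - 3 * u02 ^ 4
            * q20) = 0 := by linear_combination (u02 ^ 4) * e1_3_2 + (-u02 ^ 2 * q11) * r22
            + (4 * a11 ^ 2 * q02) * r25
        have t222 := (mul_eq_zero.mp t221).resolve_left (pow_ne_zero 1 n1)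
        have r26 : 8 * a11 ^ 2 * q02 ^ 3 - 3 * u02 ^ 4 * q20 = 0 := by linear_combination t222
        by_cases h27 : q02 = 0
        · have t223 : 0 = q02 := by linear_combination (-1) * h27
          subst t223
          have t224 : (u02) ^ 1 * (l2) = 0 := by linear_combination (1 / 2) * r24
          have t225 := (mul_eq_zero.mp t224).resolve_left (pow_ne_zero 1 h5)
          have t226 : 0 = l2 := by linear_combination (-1) * t225
          subst t226
          have t227 : (u02) ^ 2 * (s21) = 0 := by linear_combination r22
          have t228 := (mul_eq_zero.mp t227).resolve_left (pow_ne_zero 2 h5)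
          have t229 : 0 = s21 := by linear_combination (-1) * t228
          subst t229
          have t230 : (u02) ^ 2 * (q11) = 0 := by linear_combination r25
          have t231 := (mul_eq_zero.mp t230).resolve_left (pow_ne_zero 2 h5)
          have t232 : 0 = q11 := by linear_combination (-1) * t231
          subst t232
          have t233 : (u02) ^ 4 * (q20) = 0 := by linear_combination (-1 / 3) * r26
          have t234 := (mul_eq_zero.mp t233).resolve_left (pow_ne_zero 4 h5)
          have t235 : 0 = q20 := by linear_combination (-1) * t234
          subst t235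
          exact Or.inr (Or.inr (⟨by ring, by ring, by ring, by ring, by ring, by ring, by ring, n1, h5⟩))
        · exfalso
          have t236 : (a11) ^ 4 * ((q02) ^ 4 * (1)) = 0 := by linear_combination (-3 / 32
              * u02 ^ 6) * e1_4_1 + (3 / 32 * u02 ^ 4 * q20) * r22 + (1 / 8 * a11 ^ 2 * q02) * r26
          have t237 := (mul_eq_zero.mp t236).resolve_left (pow_ne_zero 4 n1)
          have t238 := (mul_eq_zero.mp t237).resolve_left (pow_ne_zero 4 h27)
          exact absurd t238 (by norm_num)
      · have t239 : (u20) ^ 1 * (s21) = 0 := by linear_combination (2) * e1_3_1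
        have t240 := (mul_eq_zero.mp t239).resolve_left (pow_ne_zero 1 h21)
        have t241 : 0 = s21 := by linear_combination (-1) * t240
        subst t241
        have t242 : (a11) ^ 1 * (l2) = 0 := by linear_combination (1 / 2) * r20
        have t243 := (mul_eq_zero.mp t242).resolve_left (pow_ne_zero 1 n1)
        have t244 : 0 = l2 := by linear_combination (-1) * t243
        subst t244
        exfalso
        have t245 : (u20) ^ 2 * (1) = 0 := by linear_combination e1_4_1
        have t246 := (mul_eq_zero.mp t245).resolve_left (pow_ne_zero 2 h21)
        exact absurd t246 (by norm_num)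
  · have t247 : (v20) ^ 1 * (s2) = 0 := by linear_combination (2) * e1_3_0
    have t248 := (mul_eq_zero.mp t247).resolve_left (pow_ne_zero 1 h4)
    have t249 : 0 = s2 := by linear_combination (-1) * t248
    subst t249
    have t250 : (a11) ^ 1 * (s12) = 0 := by linear_combination r2
    have t251 := (mul_eq_zero.mp t250).resolve_left (pow_ne_zero 1 n1)
    have t252 : 0 = s12 := by linear_combination (-1) * t251
    subst t252
    have t253 : (a11) ^ 1 * (s11) = 0 := by linear_combination (1 / 2) * r3
    have t254 := (mul_eq_zero.mp t253).resolve_left (pow_ne_zero 1 n1)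
    have t255 : 0 = s11 := by linear_combination (-1) * t254
    subst t255
    have t256 : (v20) ^ 1 * (s21) = 0 := by linear_combination (2) * e1_4_0
    have t257 := (mul_eq_zero.mp t256).resolve_left (pow_ne_zero 1 h4)
    have t258 : 0 = s21 := by linear_combination (-1) * t257
    subst t258
    have t259 : (v20) ^ 1 * (a11 - s22) = 0 := by linear_combination (-2) * e1_3_1
    have t260 := (mul_eq_zero.mp t259).resolve_left (pow_ne_zero 1 h4)
    have t261 : a11 = s22 := by linear_combination (1) * t260
    subst t261
    exfalso
    have t262 : (a11) ^ 1 * ((v20) ^ 1 * (1)) = 0 := by linear_combination (-1) * e2_2_2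
    have t263 := (mul_eq_zero.mp t262).resolve_left (pow_ne_zero 1 n1)
    have t264 := (mul_eq_zero.mp t263).resolve_left (pow_ne_zero 1 h4)
    exact absurd t264 (by norm_num)

end Pool.Agent.H38.FM
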