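import Mathlib

/-!
# Elimination tree `G2a` (generated)
-/

set_option linter.unusedVariables false
set_option linter.style.longLine false

noncomputable section

namespace Pool.Agent.H38.FM

theorem tree_G2a
    (a20 a11 a02 b02 c11 c02 s11 s12 s21 s22 : ℂ)
    (e1_3_0 : a20 * s11 = 0)
    (e1_2_1 : a20 * s12 + a20 * s21 + a11 * c11 + a11 * s11 = 0)
    (e1_1_2 : -a20 * b02 + a20 * s22 + a11 * c02 + a11 * s12 + 2 * a02 * c11 + a02 * s11 + b02
        * s21 = 0)
    (e1_0_3 : -a20 * a02 + a11 * b02 + 2 * a02 * c02 + a02 * s12 - 2 * b02 ^ 2 + b02 * s22 = 0)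
    (e2_2_1 : -a20 * c11 + a20 * s11 + c11 * s21 = 0)
    (e2_1_2 : a20 ^ 2 - a20 * c02 + a20 * s12 - a11 * c11 + b02 * c11 + b02 * s11 + c11 * s22
        + c02 * s21 = 0)
    (e2_0_3 : a20 * b02 - a02 * c11 + b02 * s12 + c02 * s22 = 0)
    (f_3_1 : -2 * a20 ^ 2 * s11 - a20 * c11 * s12 - a20 * c11 * s21 + 2 * a20 * c02 * s11 + 2
        * a11 * c11 * s11 = 0)
    (f_2_2 : -6 * a20 * b02 * s11 - 3 * a20 * c11 * s22 + 3 * a11 * c02 * s11 + 3 * a02 * c11
        * s11 = 0)
    (f_1_3 : 2 * a20 ^ 2 * s22 - 2 * a20 * b02 * s12 - 2 * a20 * b02 * s21 - 2 * a20 * c02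
        * s22 - 2 * a11 * c11 * s22 + a11 * c02 * s12 + a11 * c02 * s21 + a02 * c11 * s12 + a02
        * c11 * s21 + 4 * a02 * c02 * s11 - 4 * b02 ^ 2 * s11 = 0)
    (n1 : c11 ≠ 0)
    (hD : ∃ x y : ℂ, (x ^ 2 * a20 + x * y * a11 + y ^ 2 * a02) * (x * y * c11 + y ^ 2 * c02)
        - (x * y * a20 + y ^ 2 * b02) ^ 2 ≠ 0) :
    ((a11 = 0) ∧ (a02 = 0) ∧ (b02 = 0) ∧ (c11 ≠ 0) ∧ (a20 ≠ 0)) := by
  have r2 : a20 * c11 - a20 * s11 - c11 * s21 = 0 := by linear_combination (-1) * e2_2_1
  have r3 : a20 * b02 - a02 * c11 + b02 * s12 + c02 * s22 = 0 := by linear_combination e2_0_3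
  have r4 : a20 ^ 2 * c11 + a20 * c11 * s12 - a20 * c02 * s11 - a11 * c11 ^ 2 + b02 * c11 ^ 2
      + b02 * c11 * s11 + c11 ^ 2 * s22 = 0 := by linear_combination (c11) * e2_1_2 + (c02) * r2
  have r5 : -a20 ^ 2 * c11 * c02 + a20 * b02 * c11 ^ 2 - a20 * c11 * c02 * s12 + a20 * c02 ^ 2
      * s11 + a11 * c11 ^ 2 * c02 - a02 * c11 ^ 3 - b02 * c11 ^ 2 * c02 + b02 * c11 ^ 2 * s12
      - b02 * c11 * c02 * s11 = 0 := by linear_combination (c11 ^ 2) * r3 + (-c02) * r4
  by_cases h6 : a20 = 0
  · have t1 : 0 = a20 := by linear_combination (-1) * h6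
    subst t1
    have t2 : (c11) ^ 1 * (s21) = 0 := by linear_combination (-1) * r2
    have t3 := (mul_eq_zero.mp t2).resolve_left (pow_ne_zero 1 n1)
    have t4 : 0 = s21 := by linear_combination (-1) * t3
    subst t4
    have t5 : (c11) ^ 1 * (a11 * c11 * c02 - a02 * c11 ^ 2 - b02 * c11 * c02 + b02 * c11 * s12
        - b02 * c02 * s11) = 0 := by linear_combination r5
    have t6 := (mul_eq_zero.mp t5).resolve_left (pow_ne_zero 1 n1)
    have r7 : a11 * c11 * c02 - a02 * c11 ^ 2 - b02 * c11 * c02 + b02 * c11 * s12 - b02 * c02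
        * s11 = 0 := by linear_combination t6
    have t7 : (c11) ^ 1 * (-a11 * c11 + b02 * c11 + b02 * s11 + c11
        * s22) = 0 := by linear_combination r4
    have t8 := (mul_eq_zero.mp t7).resolve_left (pow_ne_zero 1 n1)
    have r8 : -a11 * c11 + b02 * c11 + b02 * s11 + c11 * s22 = 0 := by linear_combination t8
    by_cases h9 : a11 = 0
    · have t9 : 0 = a11 := by linear_combination (-1) * h9
      subst t9
      by_cases h10 : b02 = 0
      · have t10 : 0 = b02 := by linear_combination (-1) * h10
        subst t10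
        have t11 : (c11) ^ 2 * (a02) = 0 := by linear_combination (-1) * r7
        have t12 := (mul_eq_zero.mp t11).resolve_left (pow_ne_zero 2 n1)
        have t13 : 0 = a02 := by linear_combination (-1) * t12
        subst t13
        have t14 : (c11) ^ 1 * (s22) = 0 := by linear_combination r8
        have t15 := (mul_eq_zero.mp t14).resolve_left (pow_ne_zero 1 n1)
        have t16 : 0 = s22 := by linear_combination (-1) * t15
        subst t16
        exfalso
        obtain ⟨x, y, hxy⟩ := hD
        exact hxy (by linear_combination 0)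
      · by_cases h11 : 2 * c11 + s11 = 0
        · have t17 : -2 * c11 = s11 := by linear_combination (-1) * h11
          subst t17
          have t18 : (c11) ^ 1 * (-a02 * c11 + b02 * c02 + b02
              * s12) = 0 := by linear_combination r7
          have t19 := (mul_eq_zero.mp t18).resolve_left (pow_ne_zero 1 n1)
          have r12 : -a02 * c11 + b02 * c02 + b02 * s12 = 0 := by linear_combination t19
          have t20 : (c11) ^ 1 * (-b02 + s22) = 0 := by linear_combination r8
          have t21 := (mul_eq_zero.mp t20).resolve_left (pow_ne_zero 1 n1)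
          have r13 : -b02 + s22 = 0 := by linear_combination t21
          have t22 : b02 = s22 := by linear_combination (-1) * r13
          subst t22
          have t23 : (b02) ^ 1 * (b02 * c11 - 2 * c02 ^ 2 - 3 * c02 * s12
              - s12 ^ 2) = 0 := by linear_combination (-c11) * e1_0_3 + (-2 * c02 - s12) * r12
          have t24 := (mul_eq_zero.mp t23).resolve_left (pow_ne_zero 1 h10)
          have r14 : b02 * c11 - 2 * c02 ^ 2 - 3 * c02 * s12
              - s12 ^ 2 = 0 := by linear_combination t24
          have r15 : -2 * a02 * c02 ^ 2 - 3 * a02 * c02 * s12 - a02 * s12 ^ 2 + b02 ^ 2 * c02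
              + b02 ^ 2 * s12 = 0 := by linear_combination (b02) * r12 + (a02) * r14
          have n16 : 2 * c02 ^ 2 + 3 * c02 * s12 + s12 ^ 2 ≠ 0 := by
            intro h0
            have t25 : (b02) ^ 1 * ((c11)) = 0 := by linear_combination h0 + r14
            have t26 := (mul_eq_zero.mp t25).resolve_left (pow_ne_zero 1 h10)
            exact n1 (by linear_combination t26)
          have n17 : c02 + s12 ≠ 0 := fun h0 => n16 (by linear_combination (2 * c02 + s12) * h0)
          have n18 : 2 * c02 + s12 ≠ 0 := fun h0 => n16 (by linear_combination (c02 + s12) * h0)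
          have t27 : (c02 + s12) ^ 1 * (-2 * a02 * c02 - a02 * s12
              + b02 ^ 2) = 0 := by linear_combination r15
          have t28 := (mul_eq_zero.mp t27).resolve_left (pow_ne_zero 1 n17)
          have r19 : -2 * a02 * c02 - a02 * s12 + b02 ^ 2 = 0 := by linear_combination t28
          exfalso
          have t29 : (b02) ^ 2 * ((c02 + s12) ^ 2 * ((2 * c02 + s12) ^ 2
              * (1))) = 0 := by linear_combination (-1 / 3 * b02 ^ 2 * c02 - 1 / 6 * b02 ^ 2
              * s12) * f_2_2 + (b02 ^ 2 * c11 ^ 2) * r19 + (-b02 ^ 3 * c11 - 2 * b02 ^ 2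
              * c02 ^ 2 - 3 * b02 ^ 2 * c02 * s12 - b02 ^ 2 * s12 ^ 2) * r14
          have t30 := (mul_eq_zero.mp t29).resolve_left (pow_ne_zero 2 h10)
          have t31 := (mul_eq_zero.mp t30).resolve_left (pow_ne_zero 2 n17)
          have t32 := (mul_eq_zero.mp t31).resolve_left (pow_ne_zero 2 n18)
          exact absurd t32 (by norm_num)
        · have t33 : (b02) ^ 1 * ((2 * c11 + s11) ^ 1 * (c11 * c02 - c11 * s12 + c02
              * s11)) = 0 := by linear_combination (-c11 ^ 2) * e1_1_2 + (-2 * c11 - s11) * r7
          have t34 := (mul_eq_zero.mp t33).resolve_left (pow_ne_zero 1 h10)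
          have t35 := (mul_eq_zero.mp t34).resolve_left (pow_ne_zero 1 h11)
          have r20 : c11 * c02 - c11 * s12 + c02 * s11 = 0 := by linear_combination t35
          have r21 : a02 * c11 ^ 3 = 0 := by linear_combination (-c11) * r7 + (-b02 * c11) * r20
          have t36 : (c11) ^ 3 * (a02) = 0 := by linear_combination r21
          have t37 := (mul_eq_zero.mp t36).resolve_left (pow_ne_zero 3 n1)
          have t38 : 0 = a02 := by linear_combination (-1) * t37
          subst t38
          have t39 : (b02) ^ 2 * (3 * c11 + s11) = 0 := by linear_combination (-c11) * e1_0_3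
              + (b02) * r8
          have t40 := (mul_eq_zero.mp t39).resolve_left (pow_ne_zero 2 h10)
          have t41 : -3 * c11 = s11 := by linear_combination (-1) * t40
          subst t41
          have t42 : (c11) ^ 1 * (-2 * b02 + s22) = 0 := by linear_combination r8
          have t43 := (mul_eq_zero.mp t42).resolve_left (pow_ne_zero 1 n1)
          have r22 : -2 * b02 + s22 = 0 := by linear_combination t43
          have t44 : 2 * b02 = s22 := by linear_combination (-1) * r22
          subst t44
          have t45 : (c11) ^ 1 * (-2 * c02 - s12) = 0 := by linear_combination r20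
          have t46 := (mul_eq_zero.mp t45).resolve_left (pow_ne_zero 1 n1)
          have r23 : -2 * c02 - s12 = 0 := by linear_combination t46
          have t47 : -2 * c02 = s12 := by linear_combination r23
          subst t47
          exfalso
          have t48 : (c11) ^ 1 * ((b02) ^ 2 * (1)) = 0 := by linear_combination (1 / 12) * f_1_3
          have t49 := (mul_eq_zero.mp t48).resolve_left (pow_ne_zero 1 n1)
          have t50 := (mul_eq_zero.mp t49).resolve_left (pow_ne_zero 2 h10)
          exact absurd t50 (by norm_num)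
    · have t51 : (a11) ^ 1 * (c11 + s11) = 0 := by linear_combination e1_2_1
      have t52 := (mul_eq_zero.mp t51).resolve_left (pow_ne_zero 1 h9)
      have t53 : -c11 = s11 := by linear_combination (-1) * t52
      subst t53
      have t54 : (c11) ^ 1 * (a11 * c02 - a02 * c11 + b02 * s12) = 0 := by linear_combination r7
      have t55 := (mul_eq_zero.mp t54).resolve_left (pow_ne_zero 1 n1)
      have r24 : a11 * c02 - a02 * c11 + b02 * s12 = 0 := by linear_combination t55
      have t56 : (c11) ^ 1 * (-a11 + s22) = 0 := by linear_combination r8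
      have t57 := (mul_eq_zero.mp t56).resolve_left (pow_ne_zero 1 n1)
      have r25 : -a11 + s22 = 0 := by linear_combination t57
      have t58 : a11 = s22 := by linear_combination (-1) * r25
      subst t58
      have t59 : (c11) ^ 1 * (2 * a11 * c02 + a11 * s12 + b02
          * s12) = 0 := by linear_combination (c11) * e1_1_2 + (c11) * r24
      have t60 := (mul_eq_zero.mp t59).resolve_left (pow_ne_zero 1 n1)
      have r26 : 2 * a11 * c02 + a11 * s12 + b02 * s12 = 0 := by linear_combination t60
      have r27 : -a11 ^ 2 * s12 - 2 * a11 * a02 * c11 + a11 * b02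
          * s12 = 0 := by linear_combination (2 * a11) * r24 + (-a11) * r26
      have t61 : (a11) ^ 1 * (-a11 * s12 - 2 * a02 * c11 + b02
          * s12) = 0 := by linear_combination r27
      have t62 := (mul_eq_zero.mp t61).resolve_left (pow_ne_zero 1 h9)
      have r28 : -a11 * s12 - 2 * a02 * c11 + b02 * s12 = 0 := by linear_combination t62
      by_cases h29 : b02 = 0
      · have t63 : 0 = b02 := by linear_combination (-1) * h29
        subst t63
        have t64 : (a11) ^ 1 * (2 * c02 + s12) = 0 := by linear_combination r26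
        have t65 := (mul_eq_zero.mp t64).resolve_left (pow_ne_zero 1 h9)
        have r30 : 2 * c02 + s12 = 0 := by linear_combination t65
        have t66 : -1 / 2 * s12 = c02 := by linear_combination (-1 / 2) * r30
        subst t66
        exfalso
        have t67 : (c11) ^ 2 * ((a11) ^ 1 * (1)) = 0 := by linear_combination (-1 / 2) * f_3_1
        have t68 := (mul_eq_zero.mp t67).resolve_left (pow_ne_zero 2 n1)
        have t69 := (mul_eq_zero.mp t68).resolve_left (pow_ne_zero 1 h9)
        exact absurd t69 (by norm_num)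
      · by_cases h31 : a11 - b02 = 0
        · have t70 : a11 = b02 := by linear_combination h31
          subst t70
          have t71 : (c11) ^ 1 * (a02) = 0 := by linear_combination (-1 / 2) * r28
          have t72 := (mul_eq_zero.mp t71).resolve_left (pow_ne_zero 1 n1)
          have t73 : 0 = a02 := by linear_combination (-1) * t72
          subst t73
          have t74 : (a11) ^ 1 * (2 * c02 + 2 * s12) = 0 := by linear_combination r26
          have t75 := (mul_eq_zero.mp t74).resolve_left (pow_ne_zero 1 h9)
          have r32 : 2 * c02 + 2 * s12 = 0 := by linear_combination t75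
          have t76 : -s12 = c02 := by linear_combination (-1 / 2) * r32
          subst t76
          exfalso
          have t77 : (c11) ^ 2 * ((a11) ^ 1 * (1)) = 0 := by linear_combination (-1 / 2) * f_3_1
          have t78 := (mul_eq_zero.mp t77).resolve_left (pow_ne_zero 2 n1)
          have t79 := (mul_eq_zero.mp t78).resolve_left (pow_ne_zero 1 h9)
          exact absurd t79 (by norm_num)
        · have t80 : (b02) ^ 1 * ((a11 - b02) ^ 1 * (4 * a11 * c11
              + s12 ^ 2)) = 0 := by linear_combination (2 * a11 * c11) * e1_0_3 + (2 * a11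
              * c02 + a11 * s12) * r28 + (a11 * s12 - b02 * s12) * r26
          have t81 := (mul_eq_zero.mp t80).resolve_left (pow_ne_zero 1 h29)
          have t82 := (mul_eq_zero.mp t81).resolve_left (pow_ne_zero 1 h31)
          have r33 : 4 * a11 * c11 + s12 ^ 2 = 0 := by linear_combination t82
          have r34 : -4 * a11 ^ 2 * s12 + 4 * a11 * b02 * s12 + 2 * a02
              * s12 ^ 2 = 0 := by linear_combination (4 * a11) * r28 + (2 * a02) * r33
          have n35 : -s12 ^ 2 ≠ 0 := by
            intro h0
            have t83 : (a11) ^ 1 * ((c11)) = 0 := by linear_combination (1 / 4) * h0 + (1 / 4) * r33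
            have t84 := (mul_eq_zero.mp t83).resolve_left (pow_ne_zero 1 h9)
            exact n1 (by linear_combination t84)
          have n36 : s12 ≠ 0 := fun h0 => n35 (by linear_combination (-s12) * h0)
          have t85 : (s12) ^ 1 * (-4 * a11 ^ 2 + 4 * a11 * b02 + 2 * a02
              * s12) = 0 := by linear_combination r34
          have t86 := (mul_eq_zero.mp t85).resolve_left (pow_ne_zero 1 n36)
          have r37 : -4 * a11 ^ 2 + 4 * a11 * b02 + 2 * a02 * s12 = 0 := by linear_combination t86
          exfalso
          have t87 : (a11) ^ 1 * ((s12) ^ 4 * (1)) = 0 := by linear_combination (-8 * a11 ^ 2)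
              * f_3_1 + (-4 * a11 ^ 2 * c11 + a11 * s12 ^ 2) * r33
          have t88 := (mul_eq_zero.mp t87).resolve_left (pow_ne_zero 1 h9)
          have t89 := (mul_eq_zero.mp t88).resolve_left (pow_ne_zero 4 n36)
          exact absurd t89 (by norm_num)
  · have t90 : (a20) ^ 1 * (s11) = 0 := by linear_combination e1_3_0
    have t91 := (mul_eq_zero.mp t90).resolve_left (pow_ne_zero 1 h6)
    have t92 : 0 = s11 := by linear_combination (-1) * t91
    subst t92
    have t93 : (c11) ^ 1 * (a20 - s21) = 0 := by linear_combination r2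
    have t94 := (mul_eq_zero.mp t93).resolve_left (pow_ne_zero 1 n1)
    have r38 : a20 - s21 = 0 := by linear_combination t94
    have t95 : a20 = s21 := by linear_combination r38
    subst t95
    have t96 : (c11) ^ 1 * (-a20 ^ 2 * c02 + a20 * b02 * c11 - a20 * c02 * s12 + a11 * c11
        * c02 - a02 * c11 ^ 2 - b02 * c11 * c02 + b02 * c11 * s12) = 0 := by linear_combination r5
    have t97 := (mul_eq_zero.mp t96).resolve_left (pow_ne_zero 1 n1)
    have r39 : -a20 ^ 2 * c02 + a20 * b02 * c11 - a20 * c02 * s12 + a11 * c11 * c02 - a02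
        * c11 ^ 2 - b02 * c11 * c02 + b02 * c11 * s12 = 0 := by linear_combination t97
    have t98 : (c11) ^ 1 * (a20 ^ 2 + a20 * s12 - a11 * c11 + b02 * c11 + c11
        * s22) = 0 := by linear_combination r4
    have t99 := (mul_eq_zero.mp t98).resolve_left (pow_ne_zero 1 n1)
    have r40 : a20 ^ 2 + a20 * s12 - a11 * c11 + b02 * c11 + c11
        * s22 = 0 := by linear_combination t99
    have r41 : a20 ^ 2 + a20 * s12 + a11 * c11 = 0 := by linear_combination e1_2_1
    have r42 : 2 * a20 * a11 * c11 * c02 - a20 * a02 * c11 ^ 2 - a20 * b02 * c11 * c02 - a11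
        * b02 * c11 ^ 2 = 0 := by linear_combination (a20) * r39 + (a20 * c02 - b02 * c11) * r41
    have r43 : -2 * a20 * a11 * c11 + a20 * b02 * c11 + a20 * c11
        * s22 = 0 := by linear_combination (a20) * r40 + (-a20) * r41
    have t100 : (c11) ^ 1 * (2 * a20 * a11 * c02 - a20 * a02 * c11 - a20 * b02 * c02 - a11
        * b02 * c11) = 0 := by linear_combination r42
    have t101 := (mul_eq_zero.mp t100).resolve_left (pow_ne_zero 1 n1)
    have r44 : 2 * a20 * a11 * c02 - a20 * a02 * c11 - a20 * b02 * c02 - a11 * b02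
        * c11 = 0 := by linear_combination t101
    have t102 : (c11) ^ 1 * ((a20) ^ 1 * (-2 * a11 + b02 + s22)) = 0 := by linear_combination r43
    have t103 := (mul_eq_zero.mp t102).resolve_left (pow_ne_zero 1 n1)
    have t104 := (mul_eq_zero.mp t103).resolve_left (pow_ne_zero 1 h6)
    have r45 : -2 * a11 + b02 + s22 = 0 := by linear_combination t104
    have t105 : 2 * a11 - b02 = s22 := by linear_combination (-1) * r45
    subst t105
    by_cases h46 : a11 = 0
    · have t106 : 0 = a11 := by linear_combination (-1) * h46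
      subst t106
      have t107 : (a20) ^ 1 * (-a02 * c11 - b02 * c02) = 0 := by linear_combination r44
      have t108 := (mul_eq_zero.mp t107).resolve_left (pow_ne_zero 1 h6)
      have r47 : -a02 * c11 - b02 * c02 = 0 := by linear_combination t108
      have t109 : (a20) ^ 1 * (a20 + s12) = 0 := by linear_combination r41
      have t110 := (mul_eq_zero.mp t109).resolve_left (pow_ne_zero 1 h6)
      have r48 : a20 + s12 = 0 := by linear_combination t110
      have t111 : -a20 = s12 := by linear_combination (-1) * r48
      subst t111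
      by_cases h49 : b02 = 0
      · have t112 : 0 = b02 := by linear_combination (-1) * h49
        subst t112
        have t113 : (c11) ^ 1 * (a02) = 0 := by linear_combination (-1) * r47
        have t114 := (mul_eq_zero.mp t113).resolve_left (pow_ne_zero 1 n1)
        have t115 : 0 = a02 := by linear_combination (-1) * t114
        subst t115
        exact ⟨by ring, by ring, by ring, n1, h6⟩
      · have t116 : (c11) ^ 1 * ((b02) ^ 1 * (a20 + 2
            * c02)) = 0 := by linear_combination (-c11) * e1_1_2 + (-2 * c11) * r47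
        have t117 := (mul_eq_zero.mp t116).resolve_left (pow_ne_zero 1 n1)
        have t118 := (mul_eq_zero.mp t117).resolve_left (pow_ne_zero 1 h49)
        have t119 : -1 / 2 * a20 = c02 := by linear_combination (-1 / 2) * t118
        subst t119
        have t120 : (b02) ^ 1 * (a20 ^ 2 + 2 * b02 * c11) = 0 := by linear_combination (-2 / 3
            * c11) * e1_0_3 + (2 * a20) * r47
        have t121 := (mul_eq_zero.mp t120).resolve_left (pow_ne_zero 1 h49)
        have r50 : a20 ^ 2 + 2 * b02 * c11 = 0 := by linear_combination t121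
        have r51 : a20 ^ 2 * a02 + a20 * b02 ^ 2 = 0 := by linear_combination (2 * b02) * r47
            + (a02) * r50
        have n52 : -a20 ^ 2 ≠ 0 := by
          intro h0
          have t122 : (b02) ^ 1 * ((c11)) = 0 := by linear_combination (1 / 2) * h0 + (1 / 2) * r50
          have t123 := (mul_eq_zero.mp t122).resolve_left (pow_ne_zero 1 h49)
          exact n1 (by linear_combination t123)
        have t124 : (a20) ^ 1 * (a20 * a02 + b02 ^ 2) = 0 := by linear_combination r51
        have t125 := (mul_eq_zero.mp t124).resolve_left (pow_ne_zero 1 h6)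
        have r53 : a20 * a02 + b02 ^ 2 = 0 := by linear_combination t125
        exfalso
        have t126 : (a20) ^ 3 * ((b02) ^ 1 * (1)) = 0 := by linear_combination (-2 / 3 * b02)
            * f_2_2 + (a20 * b02) * r50
        have t127 := (mul_eq_zero.mp t126).resolve_left (pow_ne_zero 3 h6)
        have t128 := (mul_eq_zero.mp t127).resolve_left (pow_ne_zero 1 h49)
        exact absurd t128 (by norm_num)
    · by_cases h54 : 5 * a11 - 2 * b02 = 0
      · have t129 : 5 / 2 * a11 = b02 := by linear_combination (1 / 2) * h54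
        subst t129
        have t130 : (c11) ^ 1 * ((a20) ^ 1 * ((a11) ^ 1 * (a20 ^ 2 + 4 * a11
            * c11))) = 0 := by linear_combination (-2 / 3 * a20 ^ 2 * c11) * e1_1_2 + (-4 / 3
            * a20 * c11) * r44 + (2 / 3 * a20 * a11 * c11) * r41
        have t131 := (mul_eq_zero.mp t130).resolve_left (pow_ne_zero 1 n1)
        have t132 := (mul_eq_zero.mp t131).resolve_left (pow_ne_zero 1 h6)
        have t133 := (mul_eq_zero.mp t132).resolve_left (pow_ne_zero 1 h46)
        have r55 : a20 ^ 2 + 4 * a11 * c11 = 0 := by linear_combination t133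
        have r56 : a20 ^ 3 * a02 + 5 / 2 * a20 ^ 2 * a11 ^ 2 - 2 * a20 * a11 ^ 2
            * c02 = 0 := by linear_combination (4 * a11) * r44 + (a20 * a02 + 5 / 2 * a11 ^ 2) * r55
        have r57 : 3 * a20 ^ 2 * a11 + 4 * a20 * a11 * s12 = 0 := by linear_combination (4
            * a11) * r41 + (-a11) * r55
        have n58 : -a20 ^ 2 ≠ 0 := by
          intro h0
          have t134 : (a11) ^ 1 * ((c11)) = 0 := by linear_combination (1 / 4) * h0 + (1 / 4) * r55
          have t135 := (mul_eq_zero.mp t134).resolve_left (pow_ne_zero 1 h46)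
          exact n1 (by linear_combination t135)
        have t136 : (a20) ^ 1 * (a20 ^ 2 * a02 + 5 / 2 * a20 * a11 ^ 2 - 2 * a11 ^ 2
            * c02) = 0 := by linear_combination r56
        have t137 := (mul_eq_zero.mp t136).resolve_left (pow_ne_zero 1 h6)
        have r59 : a20 ^ 2 * a02 + 5 / 2 * a20 * a11 ^ 2 - 2 * a11 ^ 2
            * c02 = 0 := by linear_combination t137
        have t138 : (a20) ^ 1 * ((a11) ^ 1 * (3 * a20 + 4 * s12)) = 0 := by linear_combination r57
        have t139 := (mul_eq_zero.mp t138).resolve_left (pow_ne_zero 1 h6)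
        have t140 := (mul_eq_zero.mp t139).resolve_left (pow_ne_zero 1 h46)
        have r60 : 3 * a20 + 4 * s12 = 0 := by linear_combination t140
        have t141 : -3 / 4 * a20 = s12 := by linear_combination (-1 / 4) * r60
        subst t141
        have n61 : -a20 ^ 2 ≠ 0 := by
          intro h0
          have t142 : (a11) ^ 1 * ((c11)) = 0 := by linear_combination (1 / 4) * h0 + (1 / 4) * r55
          have t143 := (mul_eq_zero.mp t142).resolve_left (pow_ne_zero 1 h46)
          exact n1 (by linear_combination t143)
        by_cases h62 : 5 * a20 + 8 * c02 = 0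
        · have t144 : -5 / 8 * a20 = c02 := by linear_combination (-1 / 8) * h62
          subst t144
          have t145 : (a20) ^ 1 * (a20 * a02 + 15 / 4 * a11 ^ 2) = 0 := by linear_combination r59
          have t146 := (mul_eq_zero.mp t145).resolve_left (pow_ne_zero 1 h6)
          have r63 : a20 * a02 + 15 / 4 * a11 ^ 2 = 0 := by linear_combination t146
          have n64 : -a20 ^ 2 ≠ 0 := by
            intro h0
            have t147 : (a11) ^ 1 * ((c11)) = 0 := by linear_combination (1 / 4) * h0 + (1 / 4)
                * r55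
            have t148 := (mul_eq_zero.mp t147).resolve_left (pow_ne_zero 1 h46)
            exact n1 (by linear_combination t148)
          exfalso
          have t149 : (a20) ^ 4 * (1) = 0 := by linear_combination (16 * a11) * f_3_1
              + (a20 ^ 2) * r55
          have t150 := (mul_eq_zero.mp t149).resolve_left (pow_ne_zero 4 h6)
          exact absurd t150 (by norm_num)
        · have t151 : (a11) ^ 2 * ((5 * a20 + 8 * c02) ^ 1 * (11 * a20 - 4
              * c02)) = 0 := by linear_combination (-8 * a20 ^ 2) * e1_0_3 + (-14 * a20 + 16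
              * c02) * r59
          have t152 := (mul_eq_zero.mp t151).resolve_left (pow_ne_zero 2 h46)
          have t153 := (mul_eq_zero.mp t152).resolve_left (pow_ne_zero 1 h62)
          have t154 : 11 / 4 * a20 = c02 := by linear_combination (1 / 4) * t153
          subst t154
          have t155 : (a20) ^ 1 * (a20 * a02 - 3 * a11 ^ 2) = 0 := by linear_combination r59
          have t156 := (mul_eq_zero.mp t155).resolve_left (pow_ne_zero 1 h6)
          have r65 : a20 * a02 - 3 * a11 ^ 2 = 0 := by linear_combination t156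
          have n66 : -a20 ^ 2 ≠ 0 := by
            intro h0
            have t157 : (a11) ^ 1 * ((c11)) = 0 := by linear_combination (1 / 4) * h0 + (1 / 4)
                * r55
            have t158 := (mul_eq_zero.mp t157).resolve_left (pow_ne_zero 1 h46)
            exact n1 (by linear_combination t158)
          exfalso
          have t159 : (a20) ^ 4 * (1) = 0 := by linear_combination (16 * a11) * f_3_1
              + (a20 ^ 2) * r55
          have t160 := (mul_eq_zero.mp t159).resolve_left (pow_ne_zero 4 h6)
          exact absurd t160 (by norm_num)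
      · have t161 : (c11) ^ 1 * ((a20) ^ 1 * (a20 ^ 2 * a11 - a20 ^ 2 * b02 + 5 * a20 * a11
            * c02 - 2 * a20 * b02 * c02 - a11 ^ 2 * c11 - 2 * a11 * b02
            * c11)) = 0 := by linear_combination (a20 ^ 2 * c11) * e1_1_2 + (2 * a20 * c11)
            * r44 + (-a20 * a11 * c11) * r41
        have t162 := (mul_eq_zero.mp t161).resolve_left (pow_ne_zero 1 n1)
        have t163 := (mul_eq_zero.mp t162).resolve_left (pow_ne_zero 1 h6)
        have r67 : a20 ^ 2 * a11 - a20 ^ 2 * b02 + 5 * a20 * a11 * c02 - 2 * a20 * b02 * c02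
            - a11 ^ 2 * c11 - 2 * a11 * b02 * c11 = 0 := by linear_combination t163
        have r68 : -2 * a20 ^ 3 * a11 ^ 2 + 3 * a20 ^ 3 * a11 * b02 - a20 ^ 3 * b02 ^ 2 - 5
            * a20 ^ 2 * a11 * a02 * c11 + 2 * a20 ^ 2 * a02 * b02 * c11 + 2 * a20 * a11 ^ 3
            * c11 - 2 * a20 * a11 ^ 2 * b02 * c11 = 0 := by linear_combination (5 * a20 * a11
            - 2 * a20 * b02) * r44 + (-2 * a20 * a11 + a20 * b02) * r67
        have t164 : (a20) ^ 1 * (-2 * a20 ^ 2 * a11 ^ 2 + 3 * a20 ^ 2 * a11 * b02 - a20 ^ 2
            * b02 ^ 2 - 5 * a20 * a11 * a02 * c11 + 2 * a20 * a02 * b02 * c11 + 2 * a11 ^ 3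
            * c11 - 2 * a11 ^ 2 * b02 * c11) = 0 := by linear_combination r68
        have t165 := (mul_eq_zero.mp t164).resolve_left (pow_ne_zero 1 h6)
        have r69 : -2 * a20 ^ 2 * a11 ^ 2 + 3 * a20 ^ 2 * a11 * b02 - a20 ^ 2 * b02 ^ 2 - 5
            * a20 * a11 * a02 * c11 + 2 * a20 * a02 * b02 * c11 + 2 * a11 ^ 3 * c11 - 2
            * a11 ^ 2 * b02 * c11 = 0 := by linear_combination t165
        by_cases h70 : a11 - b02 = 0
        · have t166 : a11 = b02 := by linear_combination h70
          subst t166
          have t167 : (c11) ^ 1 * ((a20) ^ 1 * ((a11) ^ 1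
              * (a02))) = 0 := by linear_combination (-1 / 3) * r69
          have t168 := (mul_eq_zero.mp t167).resolve_left (pow_ne_zero 1 n1)
          have t169 := (mul_eq_zero.mp t168).resolve_left (pow_ne_zero 1 h6)
          have t170 := (mul_eq_zero.mp t169).resolve_left (pow_ne_zero 1 h46)
          have t171 : 0 = a02 := by linear_combination (-1) * t170
          subst t171
          have t172 : (a11) ^ 1 * (3 * a20 * c02 - 3 * a11 * c11) = 0 := by linear_combination r67
          have t173 := (mul_eq_zero.mp t172).resolve_left (pow_ne_zero 1 h46)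
          have r71 : 3 * a20 * c02 - 3 * a11 * c11 = 0 := by linear_combination t173
          exfalso
          have t174 : (c11) ^ 2 * ((a20) ^ 1 * ((a11) ^ 1
              * (1))) = 0 := by linear_combination (a20) * f_3_1 + (a20 * c11) * r41
          have t175 := (mul_eq_zero.mp t174).resolve_left (pow_ne_zero 2 n1)
          have t176 := (mul_eq_zero.mp t175).resolve_left (pow_ne_zero 1 h6)
          have t177 := (mul_eq_zero.mp t176).resolve_left (pow_ne_zero 1 h46)
          exact absurd t177 (by norm_num)
        · by_cases h72 : a20 ^ 2 - a11 * c11 + 2 * b02 * c11 = 0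
          · have r73 : a20 ^ 2 - a11 * c11 + 2 * b02 * c11 = 0 := by linear_combination h72
            have r74 : -a20 ^ 6 - 4 * a20 ^ 4 * a11 * c11 - 4 * a20 ^ 3 * a02 * c11 ^ 2
                + a20 ^ 2 * a11 ^ 2 * c11 ^ 2 - 16 * a20 * a11 * a02 * c11 ^ 3 + 4 * a11 ^ 3
                * c11 ^ 3 = 0 := by linear_combination (4 * c11 ^ 2) * r69 + (-a20 ^ 4 - 5
                * a20 ^ 2 * a11 * c11 + 2 * a20 ^ 2 * b02 * c11 - 4 * a20 * a02 * c11 ^ 2 + 4
                * a11 ^ 2 * c11 ^ 2) * r73
            have r75 : a20 ^ 4 + 2 * a20 ^ 3 * c02 + 3 * a20 ^ 2 * a11 * c11 + 8 * a20 * a11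
                * c11 * c02 - 4 * a11 ^ 2 * c11 ^ 2 = 0 := by linear_combination (2 * c11)
                * r67 + (a20 ^ 2 + 2 * a20 * c02 + 2 * a11 * c11) * r73
            have n76 : 2 * a20 ^ 2 + 8 * a11 * c11 ≠ 0 := by
              intro h0
              have t178 : (c11) ^ 1 * ((5 * a11 - 2
                  * b02)) = 0 := by linear_combination (1 / 2) * h0 + (-1) * r73
              have t179 := (mul_eq_zero.mp t178).resolve_left (pow_ne_zero 1 n1)
              exact h54 (by linear_combination t179)
            have n77 : a20 ^ 2 + 4 * a11 * c11 ≠ 0 := fun h0 => n76 (by linear_combination (2) * h0)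
            have n78 : a20 ^ 2 + a11 * c11 ≠ 0 := by
              intro h0
              have t180 : (c11) ^ 1 * ((a11 - b02)) = 0 := by linear_combination (1 / 2) * h0
                  + (-1 / 2) * r73
              have t181 := (mul_eq_zero.mp t180).resolve_left (pow_ne_zero 1 n1)
              exact h70 (by linear_combination t181)
            have n79 : a20 ^ 2 + a11 * c11 ≠ 0 := fun h0 => n78 (by linear_combination (1) * h0)
            have t182 : (a20 ^ 2 + 4 * a11 * c11) ^ 1 * (-a20 ^ 4 - 4 * a20 * a02 * c11 ^ 2
                + a11 ^ 2 * c11 ^ 2) = 0 := by linear_combination r74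
            have t183 := (mul_eq_zero.mp t182).resolve_left (pow_ne_zero 1 n77)
            have r80 : -a20 ^ 4 - 4 * a20 * a02 * c11 ^ 2 + a11 ^ 2
                * c11 ^ 2 = 0 := by linear_combination t183
            have t184 : (a20 ^ 2 + 4 * a11 * c11) ^ 1 * (a20 ^ 2 + 2 * a20 * c02 - a11
                * c11) = 0 := by linear_combination r75
            have t185 := (mul_eq_zero.mp t184).resolve_left (pow_ne_zero 1 n77)
            have r81 : a20 ^ 2 + 2 * a20 * c02 - a11 * c11 = 0 := by linear_combination t185
            exfalso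
            have t186 : (c11) ^ 2 * ((a20) ^ 1 * ((a11) ^ 1
                * (1))) = 0 := by linear_combination (a20) * f_3_1 + (a20 * c11) * r41
            have t187 := (mul_eq_zero.mp t186).resolve_left (pow_ne_zero 2 n1)
            have t188 := (mul_eq_zero.mp t187).resolve_left (pow_ne_zero 1 h6)
            have t189 := (mul_eq_zero.mp t188).resolve_left (pow_ne_zero 1 h46)
            exact absurd t189 (by norm_num)
          · have t190 : (a20) ^ 1 * ((a11 - b02) ^ 1 * ((a20 ^ 2 - a11 * c11 + 2 * b02
                * c11) ^ 1 * (4 * a20 ^ 2 * a11 ^ 2 - 4 * a20 ^ 2 * a11 * b02 + a20 ^ 2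
                * b02 ^ 2 + a11 ^ 3 * c11))) = 0 := by linear_combination (25 / 6 * a20 ^ 3
                * a11 ^ 2 * c11 - 10 / 3 * a20 ^ 3 * a11 * b02 * c11 + 2 / 3 * a20 ^ 3
                * b02 ^ 2 * c11) * e1_0_3 + (-5 / 6 * a20 ^ 3 * a11 + 1 / 3 * a20 ^ 3 * b02
                + 5 / 3 * a20 ^ 2 * a11 * c02 + 5 / 6 * a20 ^ 2 * a11 * s12 - 2 / 3 * a20 ^ 2
                * b02 * c02 - 1 / 3 * a20 ^ 2 * b02 * s12) * r69 + (5 / 3 * a20 ^ 3 * a11 ^ 3
                - 19 / 6 * a20 ^ 3 * a11 ^ 2 * b02 + 11 / 6 * a20 ^ 3 * a11 * b02 ^ 2 - 1 / 3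
                * a20 ^ 3 * b02 ^ 3 - 5 / 3 * a20 * a11 ^ 4 * c11 + 7 / 3 * a20 * a11 ^ 3 * b02
                * c11 - 2 / 3 * a20 * a11 ^ 2 * b02 ^ 2 * c11) * r41 + (2 / 3 * a20 ^ 3
                * a11 ^ 2 - a20 ^ 3 * a11 * b02 + 1 / 3 * a20 ^ 3 * b02 ^ 2 - 2 / 3 * a20
                * a11 ^ 3 * c11 + 2 / 3 * a20 * a11 ^ 2 * b02 * c11) * r67
            have t191 := (mul_eq_zero.mp t190).resolve_left (pow_ne_zero 1 h6)
            have t192 := (mul_eq_zero.mp t191).resolve_left (pow_ne_zero 1 h70)
            have t193 := (mul_eq_zero.mp t192).resolve_left (pow_ne_zero 1 h72)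
            have r82 : 4 * a20 ^ 2 * a11 ^ 2 - 4 * a20 ^ 2 * a11 * b02 + a20 ^ 2 * b02 ^ 2
                + a11 ^ 3 * c11 = 0 := by linear_combination t193
            have r83 : 20 * a20 ^ 3 * a11 ^ 3 * a02 - 28 * a20 ^ 3 * a11 ^ 2 * a02 * b02 + 13
                * a20 ^ 3 * a11 * a02 * b02 ^ 2 - 2 * a20 ^ 3 * a02 * b02 ^ 3 - 10 * a20 ^ 2
                * a11 ^ 5 + 19 * a20 ^ 2 * a11 ^ 4 * b02 - 11 * a20 ^ 2 * a11 ^ 3 * b02 ^ 2 + 2
                * a20 ^ 2 * a11 ^ 2 * b02 ^ 3 = 0 := by linear_combination (a11 ^ 3) * r69 + (5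
                * a20 * a11 * a02 - 2 * a20 * a02 * b02 - 2 * a11 ^ 3 + 2 * a11 ^ 2 * b02) * r82
            have r84 : -3 * a20 ^ 2 * a11 ^ 3 + 4 * a20 ^ 2 * a11 ^ 2 * b02 - a20 ^ 2 * a11
                * b02 ^ 2 + a20 * a11 ^ 3 * s12 = 0 := by linear_combination (a11 ^ 3) * r41
                + (-a11) * r82
            have r85 : 5 * a20 ^ 2 * a11 ^ 4 + 3 * a20 ^ 2 * a11 ^ 3 * b02 - 7 * a20 ^ 2
                * a11 ^ 2 * b02 ^ 2 + 2 * a20 ^ 2 * a11 * b02 ^ 3 + 5 * a20 * a11 ^ 4 * c02 - 2
                * a20 * a11 ^ 3 * b02 * c02 = 0 := by linear_combination (a11 ^ 3) * r67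
                + (a11 ^ 2 + 2 * a11 * b02) * r82
            have n86 : -4 * a20 ^ 2 * a11 ^ 2 + 4 * a20 ^ 2 * a11 * b02 - a20 ^ 2
                * b02 ^ 2 ≠ 0 := by
              intro h0
              have t194 : (a11) ^ 3 * ((c11)) = 0 := by linear_combination h0 + r82
              have t195 := (mul_eq_zero.mp t194).resolve_left (pow_ne_zero 3 h46)
              exact n1 (by linear_combination t195)
            have n87 : 2 * a11 - b02 ≠ 0 := fun h0 => n86 (by linear_combination (-2 * a20 ^ 2
                * a11 + a20 ^ 2 * b02) * h0)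
            have n88 : 5 * a20 ^ 2 * a11 ^ 3 - 12 * a20 ^ 2 * a11 ^ 2 * b02 + 9 * a20 ^ 2 * a11
                * b02 ^ 2 - 2 * a20 ^ 2 * b02 ^ 3 ≠ 0 := by
              intro h0
              have t196 : (a11) ^ 3 * ((a20 ^ 2 - a11 * c11 + 2 * b02
                  * c11)) = 0 := by linear_combination h0 + (-a11 + 2 * b02) * r82
              have t197 := (mul_eq_zero.mp t196).resolve_left (pow_ne_zero 3 h46)
              exact h72 (by linear_combination t197)
            have t198 : (a20) ^ 2 * ((5 * a11 - 2 * b02) ^ 1 * ((2 * a11 - b02) ^ 1 * (2 * a20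
                * a11 * a02 - a20 * a02 * b02 - a11 ^ 3 + a11 ^ 2
                * b02))) = 0 := by linear_combination r83
            have t199 := (mul_eq_zero.mp t198).resolve_left (pow_ne_zero 2 h6)
            have t200 := (mul_eq_zero.mp t199).resolve_left (pow_ne_zero 1 h54)
            have t201 := (mul_eq_zero.mp t200).resolve_left (pow_ne_zero 1 n87)
            have r89 : 2 * a20 * a11 * a02 - a20 * a02 * b02 - a11 ^ 3 + a11 ^ 2
                * b02 = 0 := by linear_combination t201
            have t202 : (a20) ^ 1 * ((a11) ^ 1 * (-3 * a20 * a11 ^ 2 + 4 * a20 * a11 * b02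
                - a20 * b02 ^ 2 + a11 ^ 2 * s12)) = 0 := by linear_combination r84
            have t203 := (mul_eq_zero.mp t202).resolve_left (pow_ne_zero 1 h6)
            have t204 := (mul_eq_zero.mp t203).resolve_left (pow_ne_zero 1 h46)
            have r90 : -3 * a20 * a11 ^ 2 + 4 * a20 * a11 * b02 - a20 * b02 ^ 2 + a11 ^ 2
                * s12 = 0 := by linear_combination t204
            have t205 : (a20) ^ 1 * ((a11) ^ 1 * ((5 * a11 - 2 * b02) ^ 1 * (a20 * a11 ^ 2
                + a20 * a11 * b02 - a20 * b02 ^ 2 + a11 ^ 2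
                * c02))) = 0 := by linear_combination r85
            have t206 := (mul_eq_zero.mp t205).resolve_left (pow_ne_zero 1 h6)
            have t207 := (mul_eq_zero.mp t206).resolve_left (pow_ne_zero 1 h46)
            have t208 := (mul_eq_zero.mp t207).resolve_left (pow_ne_zero 1 h54)
            have r91 : a20 * a11 ^ 2 + a20 * a11 * b02 - a20 * b02 ^ 2 + a11 ^ 2
                * c02 = 0 := by linear_combination t208
            exfalso
            have t209 : (a20) ^ 4 * ((2 * a11 - b02) ^ 4
                * (1)) = 0 := by linear_combination (a11 ^ 5) * f_3_1 + (a20 * a11 ^ 3 * c11)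
                * r90 + (4 * a20 ^ 2 * a11 ^ 2 - 4 * a20 ^ 2 * a11 * b02 + a20 ^ 2 * b02 ^ 2) * r82
            have t210 := (mul_eq_zero.mp t209).resolve_left (pow_ne_zero 4 h6)
            have t211 := (mul_eq_zero.mp t210).resolve_left (pow_ne_zero 4 n87)
            exact absurd t211 (by norm_num)

end Pool.Agent.H38.FM
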