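import Mathlib

/-!
# Elimination tree `G2b` (generated)
-/

set_option linter.unusedVariables false
set_option linter.style.longLine false

noncomputable section

namespace Pool.Agent.H38.FM

theorem tree_G2b
    (a20 a11 a02 b11 c02 s11 s12 s21 s22 : ℂ)
    (e1_3_0 : a20 * s11 = 0)
    (e1_2_1 : a20 * b11 + a20 * s12 + a11 * s11 - b11 ^ 2 + b11 * s21 = 0)
    (e1_1_2 : a11 * c02 + a11 * s12 + a02 * s11 + b11 * s22 = 0)
    (e1_0_3 : -a02 * b11 + 2 * a02 * c02 + a02 * s12 = 0)
    (e2_2_1 : b11 * s11 = 0)
    (e2_1_2 : b11 ^ 2 - b11 * c02 + b11 * s12 + c02 * s21 = 0)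
    (e2_0_3 : c02 * s22 = 0)
    (f_1_3 : -2 * a20 * c02 * s22 + a11 * c02 * s12 + a11 * c02 * s21 + 4 * a02 * c02 * s11 + 2
        * b11 ^ 2 * s22 = 0)
    (f_0_4 : -a11 * c02 * s22 + 2 * a02 * c02 * s12 + 2 * a02 * c02 * s21 = 0)
    (n1 : b11 - c02 ≠ 0)
    (hD : ∃ x y : ℂ, (x ^ 2 * a20 + x * y * a11 + y ^ 2 * a02) * (y ^ 2 * c02) - (x * y
        * b11) ^ 2 ≠ 0) :
    ((a20 = 0) ∧ (a11 = 0) ∧ (a02 = 0) ∧ (b11 - c02 ≠ 0) ∧ (b11 ≠ 0)) ∨
    ((a11 = 0) ∧ (a02 = 0) ∧ (c02 = 0) ∧ (a20 ≠ 0) ∧ (b11 ≠ 0)) ∨
    ((a11 = 0) ∧ (a02 = 0) ∧ (b11 - c02 ≠ 0) ∧ (a20 ≠ 0) ∧ (c02 ≠ 0)) := by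
  by_cases h2 : a20 = 0
  · have t1 : 0 = a20 := by linear_combination (-1) * h2
    subst t1
    by_cases h3 : b11 = 0
    · have t2 : 0 = b11 := by linear_combination (-1) * h3
      subst t2
      have n4 : c02 ≠ 0 := fun h0 => n1 (by linear_combination (-1) * h0)
      have t3 : (c02) ^ 1 * (s22) = 0 := by linear_combination e2_0_3
      have t4 := (mul_eq_zero.mp t3).resolve_left (pow_ne_zero 1 n4)
      have t5 : 0 = s22 := by linear_combination (-1) * t4
      subst t5
      have t6 : (c02) ^ 1 * (s21) = 0 := by linear_combination e2_1_2
      have t7 := (mul_eq_zero.mp t6).resolve_left (pow_ne_zero 1 n4)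
      have t8 : 0 = s21 := by linear_combination (-1) * t7
      subst t8
      by_cases h5 : a11 = 0
      · have t9 : 0 = a11 := by linear_combination (-1) * h5
        subst t9
        by_cases h6 : a02 = 0
        · have t10 : 0 = a02 := by linear_combination (-1) * h6
          subst t10
          exfalso
          obtain ⟨x, y, hxy⟩ := hD
          exact hxy (by linear_combination 0)
        · have t11 : (a02) ^ 1 * (s11) = 0 := by linear_combination e1_1_2
          have t12 := (mul_eq_zero.mp t11).resolve_left (pow_ne_zero 1 h6)
          have t13 : 0 = s11 := by linear_combination (-1) * t12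
          subst t13
          have t14 : (a02) ^ 1 * (2 * c02 + s12) = 0 := by linear_combination e1_0_3
          have t15 := (mul_eq_zero.mp t14).resolve_left (pow_ne_zero 1 h6)
          have t16 : -2 * c02 = s12 := by linear_combination (-1) * t15
          subst t16
          exfalso
          have t17 : (c02) ^ 2 * ((a02) ^ 1 * (1)) = 0 := by linear_combination (-1 / 4) * f_0_4
          have t18 := (mul_eq_zero.mp t17).resolve_left (pow_ne_zero 2 n4)
          have t19 := (mul_eq_zero.mp t18).resolve_left (pow_ne_zero 1 h6)
          exact absurd t19 (by norm_num)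
      · have t20 : (a11) ^ 1 * (s11) = 0 := by linear_combination e1_2_1
        have t21 := (mul_eq_zero.mp t20).resolve_left (pow_ne_zero 1 h5)
        have t22 : 0 = s11 := by linear_combination (-1) * t21
        subst t22
        have t23 : (a11) ^ 1 * (c02 + s12) = 0 := by linear_combination e1_1_2
        have t24 := (mul_eq_zero.mp t23).resolve_left (pow_ne_zero 1 h5)
        have t25 : -c02 = s12 := by linear_combination (-1) * t24
        subst t25
        have t26 : (c02) ^ 1 * (a02) = 0 := by linear_combination e1_0_3
        have t27 := (mul_eq_zero.mp t26).resolve_left (pow_ne_zero 1 n4)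
        have t28 : 0 = a02 := by linear_combination (-1) * t27
        subst t28
        exfalso
        have t29 : (c02) ^ 2 * ((a11) ^ 1 * (1)) = 0 := by linear_combination (-1) * f_1_3
        have t30 := (mul_eq_zero.mp t29).resolve_left (pow_ne_zero 2 n4)
        have t31 := (mul_eq_zero.mp t30).resolve_left (pow_ne_zero 1 h5)
        exact absurd t31 (by norm_num)
    · have t32 : (b11) ^ 1 * (s11) = 0 := by linear_combination e2_2_1
      have t33 := (mul_eq_zero.mp t32).resolve_left (pow_ne_zero 1 h3)
      have t34 : 0 = s11 := by linear_combination (-1) * t33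
      subst t34
      have t35 : (b11) ^ 1 * (b11 - s21) = 0 := by linear_combination (-1) * e1_2_1
      have t36 := (mul_eq_zero.mp t35).resolve_left (pow_ne_zero 1 h3)
      have t37 : b11 = s21 := by linear_combination (1) * t36
      subst t37
      have t38 : (b11) ^ 1 * (b11 + s12) = 0 := by linear_combination e2_1_2
      have t39 := (mul_eq_zero.mp t38).resolve_left (pow_ne_zero 1 h3)
      have t40 : -b11 = s12 := by linear_combination (-1) * t39
      subst t40
      have t41 : (b11 - c02) ^ 1 * (a02) = 0 := by linear_combination (-1 / 2) * e1_0_3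
      have t42 := (mul_eq_zero.mp t41).resolve_left (pow_ne_zero 1 n1)
      have t43 : 0 = a02 := by linear_combination (-1) * t42
      subst t43
      have r7 : a11 * b11 - a11 * c02 - b11 * s22 = 0 := by linear_combination (-1) * e1_1_2
      by_cases h8 : a11 = 0
      · have t44 : 0 = a11 := by linear_combination (-1) * h8
        subst t44
        have t45 : (b11) ^ 1 * (s22) = 0 := by linear_combination (-1) * r7
        have t46 := (mul_eq_zero.mp t45).resolve_left (pow_ne_zero 1 h3)
        have t47 : 0 = s22 := by linear_combination (-1) * t46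
        subst t47
        exact Or.inl ⟨by ring, by ring, by ring, n1, h3⟩
      · have t48 : (b11 - c02) ^ 1 * ((a11) ^ 1 * (c02)) = 0 := by linear_combination (b11)
            * e2_0_3 + (c02) * r7
        have t49 := (mul_eq_zero.mp t48).resolve_left (pow_ne_zero 1 n1)
        have t50 := (mul_eq_zero.mp t49).resolve_left (pow_ne_zero 1 h8)
        have t51 : 0 = c02 := by linear_combination (-1) * t50
        subst t51
        have t52 : (b11) ^ 1 * (a11 - s22) = 0 := by linear_combination r7
        have t53 := (mul_eq_zero.mp t52).resolve_left (pow_ne_zero 1 h3)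
        have r9 : a11 - s22 = 0 := by linear_combination t53
        have t54 : a11 = s22 := by linear_combination r9
        subst t54
        exfalso
        have t55 : (b11) ^ 2 * ((a11) ^ 1 * (1)) = 0 := by linear_combination (1 / 2) * f_1_3
        have t56 := (mul_eq_zero.mp t55).resolve_left (pow_ne_zero 2 h3)
        have t57 := (mul_eq_zero.mp t56).resolve_left (pow_ne_zero 1 h8)
        exact absurd t57 (by norm_num)
  · have t58 : (a20) ^ 1 * (s11) = 0 := by linear_combination e1_3_0
    have t59 := (mul_eq_zero.mp t58).resolve_left (pow_ne_zero 1 h2)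
    have t60 : 0 = s11 := by linear_combination (-1) * t59
    subst t60
    have r10 : a20 * b11 + a20 * s12 - b11 ^ 2 + b11 * s21 = 0 := by linear_combination e1_2_1
    by_cases h11 : c02 = 0
    · have t61 : 0 = c02 := by linear_combination (-1) * h11
      subst t61
      have n12 : b11 ≠ 0 := fun h0 => n1 (by linear_combination (1) * h0)
      have t62 : (b11) ^ 2 * (b11 - s21) = 0 := by linear_combination (a20) * e2_1_2 + (-b11) * r10
      have t63 := (mul_eq_zero.mp t62).resolve_left (pow_ne_zero 2 n12)
      have t64 : b11 = s21 := by linear_combination (1) * t63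
      subst t64
      have t65 : (a20) ^ 1 * (b11 + s12) = 0 := by linear_combination r10
      have t66 := (mul_eq_zero.mp t65).resolve_left (pow_ne_zero 1 h2)
      have r13 : b11 + s12 = 0 := by linear_combination t66
      have t67 : -b11 = s12 := by linear_combination (-1) * r13
      subst t67
      have t68 : (b11) ^ 1 * (a02) = 0 := by linear_combination (-1 / 2) * e1_0_3
      have t69 := (mul_eq_zero.mp t68).resolve_left (pow_ne_zero 1 n12)
      have t70 : 0 = a02 := by linear_combination (-1) * t69
      subst t70
      have t71 : (b11) ^ 1 * (a11 - s22) = 0 := by linear_combination (-1) * e1_1_2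
      have t72 := (mul_eq_zero.mp t71).resolve_left (pow_ne_zero 1 n12)
      have t73 : a11 = s22 := by linear_combination (1) * t72
      subst t73
      have t74 : (b11) ^ 2 * (a11) = 0 := by linear_combination (1 / 2) * f_1_3
      have t75 := (mul_eq_zero.mp t74).resolve_left (pow_ne_zero 2 n12)
      have t76 : 0 = a11 := by linear_combination (-1) * t75
      subst t76
      exact Or.inr (Or.inl ⟨by ring, by ring, by ring, h2, n12⟩)
    · have t77 : (c02) ^ 1 * (s22) = 0 := by linear_combination e2_0_3
      have t78 := (mul_eq_zero.mp t77).resolve_left (pow_ne_zero 1 h11)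
      have t79 : 0 = s22 := by linear_combination (-1) * t78
      subst t79
      by_cases h14 : a11 = 0
      · have t80 : 0 = a11 := by linear_combination (-1) * h14
        subst t80
        by_cases h15 : a02 = 0
        · have t81 : 0 = a02 := by linear_combination (-1) * h15
          subst t81
          by_cases h16 : b11 - s21 = 0
          · have t82 : b11 = s21 := by linear_combination h16
            subst t82
            have t83 : (a20) ^ 1 * (b11 + s12) = 0 := by linear_combination r10
            have t84 := (mul_eq_zero.mp t83).resolve_left (pow_ne_zero 1 h2)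
            have r17 : b11 + s12 = 0 := by linear_combination t84
            have t85 : -b11 = s12 := by linear_combination (-1) * r17
            subst t85
            exact Or.inr (Or.inr (⟨by ring, by ring, n1, h2, h11⟩))
          · have t86 : (b11 - s21) ^ 1 * (a20 * c02
                - b11 ^ 2) = 0 := by linear_combination (-a20) * e2_1_2 + (b11) * r10
            have t87 := (mul_eq_zero.mp t86).resolve_left (pow_ne_zero 1 h16)
            have r18 : a20 * c02 - b11 ^ 2 = 0 := by linear_combination t87
            have n19 : a20 * b11 - b11 ^ 2 ≠ 0 := by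
              intro h0
              have t88 : (a20) ^ 1 * ((b11 - c02)) = 0 := by linear_combination h0 + (-1) * r18
              have t89 := (mul_eq_zero.mp t88).resolve_left (pow_ne_zero 1 h2)
              exact n1 (by linear_combination t89)
            have n20 : b11 ≠ 0 := fun h0 => n19 (by linear_combination (a20 - b11) * h0)
            have n21 : a20 - b11 ≠ 0 := fun h0 => n19 (by linear_combination (b11) * h0)
            have n22 : b11 ^ 2 ≠ 0 := by
              intro h0
              have t90 : (a20) ^ 1 * ((c02)) = 0 := by linear_combination h0 + r18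
              have t91 := (mul_eq_zero.mp t90).resolve_left (pow_ne_zero 1 h2)
              exact h11 (by linear_combination t91)
            exfalso
            obtain ⟨x, y, hxy⟩ := hD
            have t92 : (a20) ^ 1 * ((x ^ 2 * y ^ 2 * a20 * c02 - x ^ 2 * y ^ 2
                * b11 ^ 2)) = 0 := by linear_combination (x ^ 2 * y ^ 2 * a20) * r18
            have t93 := (mul_eq_zero.mp t92).resolve_left (pow_ne_zero 1 h2)
            exact hxy (by linear_combination t93)
        · have t94 : (a02) ^ 1 * (2 * a20 * b11 - 2 * a20 * c02 - b11 ^ 2 + b11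
              * s21) = 0 := by linear_combination (-a20) * e1_0_3 + (a02) * r10
          have t95 := (mul_eq_zero.mp t94).resolve_left (pow_ne_zero 1 h15)
          have r23 : 2 * a20 * b11 - 2 * a20 * c02 - b11 ^ 2 + b11
              * s21 = 0 := by linear_combination t95
          have n24 : -b11 ^ 2 + b11 * s21 ≠ 0 := by
            intro h0
            have t96 : (a20) ^ 1 * ((b11 - c02)) = 0 := by linear_combination (-1 / 2) * h0
                + (1 / 2) * r23
            have t97 := (mul_eq_zero.mp t96).resolve_left (pow_ne_zero 1 h2)
            exact n1 (by linear_combination t97)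
          have n25 : b11 ≠ 0 := fun h0 => n24 (by linear_combination (-b11 + s21) * h0)
          have n26 : b11 - s21 ≠ 0 := fun h0 => n24 (by linear_combination (-b11) * h0)
          have n27 : -2 * a20 * b11 + b11 ^ 2 - b11 * s21 ≠ 0 := by
            intro h0
            have t98 : (a20) ^ 1 * ((c02)) = 0 := by linear_combination (-1 / 2) * h0
                + (-1 / 2) * r23
            have t99 := (mul_eq_zero.mp t98).resolve_left (pow_ne_zero 1 h2)
            exact h11 (by linear_combination t99)
          have n28 : 2 * a20 - b11 + s21 ≠ 0 := fun h0 => n27 (by linear_combination (-b11) * h0)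
          have t100 : (a20) ^ 1 * ((b11) ^ 1 * ((b11 - s21) ^ 1 * (2 * a20 - 3 * b11
              + s21))) = 0 := by linear_combination (-2 * a20 ^ 2) * e2_1_2 + (2 * a20 * b11)
              * r10 + (a20 * b11 - a20 * s21) * r23
          have t101 := (mul_eq_zero.mp t100).resolve_left (pow_ne_zero 1 h2)
          have t102 := (mul_eq_zero.mp t101).resolve_left (pow_ne_zero 1 n25)
          have t103 := (mul_eq_zero.mp t102).resolve_left (pow_ne_zero 1 n26)
          have t104 : -2 * a20 + 3 * b11 = s21 := by linear_combination (-1) * t103
          subst t104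
          have n29 : a20 - b11 ≠ 0 := fun h0 => n26 (by linear_combination (2) * h0)
          have n30 : -2 * a20 * b11 + 2 * b11 ^ 2 ≠ 0 := by
            intro h0
            have t105 : (a20) ^ 1 * ((b11 - c02)) = 0 := by linear_combination (-1 / 2) * h0
                + (1 / 2) * r23
            have t106 := (mul_eq_zero.mp t105).resolve_left (pow_ne_zero 1 h2)
            exact n1 (by linear_combination t106)
          have n31 : -2 * b11 ^ 2 ≠ 0 := by
            intro h0
            have t107 : (a20) ^ 1 * ((c02)) = 0 := by linear_combination (-1 / 2) * h0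
                + (-1 / 2) * r23
            have t108 := (mul_eq_zero.mp t107).resolve_left (pow_ne_zero 1 h2)
            exact h11 (by linear_combination t108)
          exfalso
          have t109 : (a02) ^ 1 * ((b11) ^ 2 * ((a20 - b11) ^ 2
              * (1))) = 0 := by linear_combination (-1 / 4 * a20 ^ 2) * f_0_4 + (1 / 2 * a20
              * a02 * c02) * r10 + (1 / 2 * a20 ^ 2 * a02 - a20 * a02 * b11 + 1 / 2 * a02
              * b11 ^ 2) * r23
          have t110 := (mul_eq_zero.mp t109).resolve_left (pow_ne_zero 1 h15)
          have t111 := (mul_eq_zero.mp t110).resolve_left (pow_ne_zero 2 n25)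
          have t112 := (mul_eq_zero.mp t111).resolve_left (pow_ne_zero 2 n29)
          exact absurd t112 (by norm_num)
      · have t113 : (a11) ^ 1 * (a20 * b11 - a20 * c02 - b11 ^ 2 + b11
            * s21) = 0 := by linear_combination (-a20) * e1_1_2 + (a11) * r10
        have t114 := (mul_eq_zero.mp t113).resolve_left (pow_ne_zero 1 h14)
        have r32 : a20 * b11 - a20 * c02 - b11 ^ 2 + b11 * s21 = 0 := by linear_combination t114
        have n33 : -b11 ^ 2 + b11 * s21 ≠ 0 := by
          intro h0
          have t115 : (a20) ^ 1 * ((b11 - c02)) = 0 := by linear_combination (-1) * h0 + r32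
          have t116 := (mul_eq_zero.mp t115).resolve_left (pow_ne_zero 1 h2)
          exact n1 (by linear_combination t116)
        have n34 : b11 ≠ 0 := fun h0 => n33 (by linear_combination (-b11 + s21) * h0)
        have n35 : b11 - s21 ≠ 0 := fun h0 => n33 (by linear_combination (-b11) * h0)
        have n36 : -a20 * b11 + b11 ^ 2 - b11 * s21 ≠ 0 := by
          intro h0
          have t117 : (a20) ^ 1 * ((c02)) = 0 := by linear_combination (-1) * h0 + (-1) * r32
          have t118 := (mul_eq_zero.mp t117).resolve_left (pow_ne_zero 1 h2)
          exact h11 (by linear_combination t118)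
        have n37 : a20 - b11 + s21 ≠ 0 := fun h0 => n36 (by linear_combination (-b11) * h0)
        have t119 : (a20) ^ 1 * ((b11) ^ 1 * ((b11 - s21) ^ 1
            * (a02))) = 0 := by linear_combination (-a20 ^ 2) * e1_0_3 + (a20 * a02) * r10
            + (-2 * a20 * a02) * r32
        have t120 := (mul_eq_zero.mp t119).resolve_left (pow_ne_zero 1 h2)
        have t121 := (mul_eq_zero.mp t120).resolve_left (pow_ne_zero 1 n34)
        have t122 := (mul_eq_zero.mp t121).resolve_left (pow_ne_zero 1 n35)
        have t123 : 0 = a02 := by linear_combination (-1) * t122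
        subst t123
        have n38 : -b11 ^ 2 + b11 * s21 ≠ 0 := by
          intro h0
          have t124 : (a20) ^ 1 * ((b11 - c02)) = 0 := by linear_combination (-1) * h0 + r32
          have t125 := (mul_eq_zero.mp t124).resolve_left (pow_ne_zero 1 h2)
          exact n1 (by linear_combination t125)
        have n39 : -a20 * b11 + b11 ^ 2 - b11 * s21 ≠ 0 := by
          intro h0
          have t126 : (a20) ^ 1 * ((c02)) = 0 := by linear_combination (-1) * h0 + (-1) * r32
          have t127 := (mul_eq_zero.mp t126).resolve_left (pow_ne_zero 1 h2)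
          exact h11 (by linear_combination t127)
        have t128 : (a20) ^ 1 * ((b11) ^ 1 * ((b11 - s21) ^ 1 * (a20 - 2 * b11
            + s21))) = 0 := by linear_combination (-a20 ^ 2) * e2_1_2 + (a20 * b11) * r10
            + (a20 * b11 - a20 * s21) * r32
        have t129 := (mul_eq_zero.mp t128).resolve_left (pow_ne_zero 1 h2)
        have t130 := (mul_eq_zero.mp t129).resolve_left (pow_ne_zero 1 n34)
        have t131 := (mul_eq_zero.mp t130).resolve_left (pow_ne_zero 1 n35)
        have t132 : -a20 + 2 * b11 = s21 := by linear_combination (-1) * t131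
        subst t132
        have n40 : a20 - b11 ≠ 0 := fun h0 => n35 (by linear_combination (1) * h0)
        have n41 : -a20 * b11 + b11 ^ 2 ≠ 0 := by
          intro h0
          have t133 : (a20) ^ 1 * ((b11 - c02)) = 0 := by linear_combination (-1) * h0 + r32
          have t134 := (mul_eq_zero.mp t133).resolve_left (pow_ne_zero 1 h2)
          exact n1 (by linear_combination t134)
        have n42 : -b11 ^ 2 ≠ 0 := by
          intro h0
          have t135 : (a20) ^ 1 * ((c02)) = 0 := by linear_combination (-1) * h0 + (-1) * r32
          have t136 := (mul_eq_zero.mp t135).resolve_left (pow_ne_zero 1 h2)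
          exact h11 (by linear_combination t136)
        exfalso
        have t137 : (a11) ^ 1 * ((b11) ^ 2 * ((a20 - b11) ^ 2
            * (1))) = 0 := by linear_combination (-a20 ^ 2) * f_1_3 + (a20 * a11 * c02) * r10
            + (a20 ^ 2 * a11 - 2 * a20 * a11 * b11 + a11 * b11 ^ 2) * r32
        have t138 := (mul_eq_zero.mp t137).resolve_left (pow_ne_zero 1 h14)
        have t139 := (mul_eq_zero.mp t138).resolve_left (pow_ne_zero 2 n34)
        have t140 := (mul_eq_zero.mp t139).resolve_left (pow_ne_zero 2 n40)
        exact absurd t140 (by norm_num)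

end Pool.Agent.H38.FM
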