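import Mathlib

/-!
# Elimination tree `G2c` (generated)
-/

set_option linter.unusedVariables false
set_option linter.style.longLine false

noncomputable section

namespace Pool.Agent.H38.FM

theorem tree_G2c
    (a20 a02 b11 b02 s11 s12 s21 s22 : ℂ)
    (e1_3_0 : a20 * s11 = 0)
    (e1_2_1 : a20 * b11 + a20 * s12 - b11 ^ 2 + b11 * s21 = 0)
    (e1_1_2 : 2 * a20 * b02 + a02 * s11 - 3 * b11 * b02 + b11 * s22 + b02 * s21 = 0)
    (e1_0_3 : a02 * b11 + a02 * s12 - 2 * b02 ^ 2 + b02 * s22 = 0)
    (e2_2_1 : b11 * s11 = 0)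
    (e2_1_2 : b11 * s12 + b11 * s21 + b02 * s11 = 0)
    (e2_0_3 : b11 * b02 + b11 * s22 + b02 * s12 = 0)
    (f_0_4 : 2 * a02 * b11 * s12 + 2 * a02 * b11 * s21 + 2 * b11 * b02 * s22 - 2 * b02 ^ 2
        * s12 - 2 * b02 ^ 2 * s21 = 0)
    (n1 : a20 - b11 ≠ 0)
    (hD : ∃ x y : ℂ, (x ^ 2 * a20 + y ^ 2 * a02) * (y ^ 2 * b11) - (x * y * b11 + y ^ 2
        * b02) ^ 2 ≠ 0) :
    ((a20 = 0) ∧ (b02 = 0) ∧ (b11 ≠ 0)) ∨
    ((b02 = 0) ∧ (a20 - b11 ≠ 0) ∧ (a20 ≠ 0) ∧ (b11 ≠ 0)) := by
  by_cases h2 : a20 = 0
  · have t1 : 0 = a20 := by linear_combination (-1) * h2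
    subst t1
    have n3 : b11 ≠ 0 := fun h0 => n1 (by linear_combination (-1) * h0)
    have t2 : (b11) ^ 1 * (s11) = 0 := by linear_combination e2_2_1
    have t3 := (mul_eq_zero.mp t2).resolve_left (pow_ne_zero 1 n3)
    have t4 : 0 = s11 := by linear_combination (-1) * t3
    subst t4
    have t5 : (b11) ^ 1 * (b11 - s21) = 0 := by linear_combination (-1) * e1_2_1
    have t6 := (mul_eq_zero.mp t5).resolve_left (pow_ne_zero 1 n3)
    have t7 : b11 = s21 := by linear_combination (1) * t6
    subst t7
    have t8 : (b11) ^ 1 * (2 * b02 - s22) = 0 := by linear_combination (-1) * e1_1_2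
    have t9 := (mul_eq_zero.mp t8).resolve_left (pow_ne_zero 1 n3)
    have t10 : 2 * b02 = s22 := by linear_combination (1) * t9
    subst t10
    have t11 : (b11) ^ 1 * (b11 + s12) = 0 := by linear_combination e2_1_2
    have t12 := (mul_eq_zero.mp t11).resolve_left (pow_ne_zero 1 n3)
    have t13 : -b11 = s12 := by linear_combination (-1) * t12
    subst t13
    have t14 : (b11) ^ 1 * (b02) = 0 := by linear_combination (1 / 2) * e2_0_3
    have t15 := (mul_eq_zero.mp t14).resolve_left (pow_ne_zero 1 n3)
    have t16 : 0 = b02 := by linear_combination (-1) * t15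
    subst t16
    exact Or.inl ⟨by ring, by ring, n3⟩
  · have t17 : (a20) ^ 1 * (s11) = 0 := by linear_combination e1_3_0
    have t18 := (mul_eq_zero.mp t17).resolve_left (pow_ne_zero 1 h2)
    have t19 : 0 = s11 := by linear_combination (-1) * t18
    subst t19
    have r4 : a20 * b11 + a20 * s12 - b11 ^ 2 + b11 * s21 = 0 := by linear_combination e1_2_1
    by_cases h5 : b11 = 0
    · have t20 : 0 = b11 := by linear_combination (-1) * h5
      subst t20
      have t21 : (a20) ^ 1 * (s12) = 0 := by linear_combination r4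
      have t22 := (mul_eq_zero.mp t21).resolve_left (pow_ne_zero 1 h2)
      have t23 : 0 = s12 := by linear_combination (-1) * t22
      subst t23
      by_cases h6 : b02 = 0
      · have t24 : 0 = b02 := by linear_combination (-1) * h6
        subst t24
        exfalso
        obtain ⟨x, y, hxy⟩ := hD
        exact hxy (by linear_combination 0)
      · have t25 : (b02) ^ 1 * (2 * b02 - s22) = 0 := by linear_combination (-1) * e1_0_3
        have t26 := (mul_eq_zero.mp t25).resolve_left (pow_ne_zero 1 h6)
        have t27 : 2 * b02 = s22 := by linear_combination (1) * t26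
        subst t27
        have t28 : (b02) ^ 1 * (2 * a20 + s21) = 0 := by linear_combination e1_1_2
        have t29 := (mul_eq_zero.mp t28).resolve_left (pow_ne_zero 1 h6)
        have t30 : -2 * a20 = s21 := by linear_combination (-1) * t29
        subst t30
        exfalso
        have t31 : (a20) ^ 1 * ((b02) ^ 2 * (1)) = 0 := by linear_combination (1 / 4) * f_0_4
        have t32 := (mul_eq_zero.mp t31).resolve_left (pow_ne_zero 1 h2)
        have t33 := (mul_eq_zero.mp t32).resolve_left (pow_ne_zero 2 h6)
        exact absurd t33 (by norm_num)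
    · have t34 : (a20 - b11) ^ 1 * ((b11) ^ 1 * (b11
          - s21)) = 0 := by linear_combination (-a20) * e2_1_2 + (b11) * r4
      have t35 := (mul_eq_zero.mp t34).resolve_left (pow_ne_zero 1 n1)
      have t36 := (mul_eq_zero.mp t35).resolve_left (pow_ne_zero 1 h5)
      have t37 : b11 = s21 := by linear_combination (1) * t36
      subst t37
      have t38 : (a20) ^ 1 * (b11 + s12) = 0 := by linear_combination r4
      have t39 := (mul_eq_zero.mp t38).resolve_left (pow_ne_zero 1 h2)
      have r7 : b11 + s12 = 0 := by linear_combination t39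
      have t40 : -b11 = s12 := by linear_combination (-1) * r7
      subst t40
      have t41 : (b11) ^ 1 * (s22) = 0 := by linear_combination e2_0_3
      have t42 := (mul_eq_zero.mp t41).resolve_left (pow_ne_zero 1 h5)
      have t43 : 0 = s22 := by linear_combination (-1) * t42
      subst t43
      have t44 : (a20 - b11) ^ 1 * (b02) = 0 := by linear_combination (1 / 2) * e1_1_2
      have t45 := (mul_eq_zero.mp t44).resolve_left (pow_ne_zero 1 n1)
      have t46 : 0 = b02 := by linear_combination (-1) * t45
      subst t46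
      exact Or.inr (⟨by ring, n1, h2, h5⟩)

end Pool.Agent.H38.FM
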