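import Mathlib

/-!
# Elimination tree `G2d` (generated)
-/

set_option linter.unusedVariables false
set_option linter.style.longLine false

noncomputable section

namespace Pool.Agent.H38.FM

theorem tree_G2d
    (a11 a02 b11 b02 s11 s12 s21 s22 : ℂ)
    (e1_3_0 : b11 * s11 = 0)
    (e1_2_1 : a11 * s11 + b11 * s12 + b11 * s21 = 0)
    (e1_1_2 : a11 * b11 + a11 * s12 + a02 * s11 - b11 * b02 + b11 * s22 + b02 * s21 = 0)
    (e1_0_3 : a11 * b02 + a02 * b11 + a02 * s12 - 2 * b02 ^ 2 + b02 * s22 = 0)
    (e2_1_2 : b11 * s12 + b11 * s21 + b02 * s11 = 0)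
    (e2_0_3 : b11 * b02 + b11 * s22 + b02 * s12 = 0)
    (hD : ∃ x y : ℂ, (x ^ 2 * b11 + x * y * a11 + y ^ 2 * a02) * (y ^ 2 * b11) - (x * y * b11
        + y ^ 2 * b02) ^ 2 ≠ 0) :
    ((a11 = 0) ∧ (b11 = 0) ∧ (b02 ≠ 0)) ∨
    ((b11 = 0) ∧ (a11 ≠ 0) ∧ (b02 ≠ 0)) ∨
    ((b02 = 0) ∧ (b11 ≠ 0)) ∨
    ((a11 = 2 * b02) ∧ (b11 ≠ 0) ∧ (b02 ≠ 0)) := by
  by_cases h1 : b11 = 0
  · have t1 : 0 = b11 := by linear_combination (-1) * h1
    subst t1
    by_cases h2 : a11 = 0
    · have t2 : 0 = a11 := by linear_combination (-1) * h2
      subst t2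
      by_cases h3 : b02 = 0
      · have t3 : 0 = b02 := by linear_combination (-1) * h3
        subst t3
        by_cases h4 : a02 = 0
        · have t4 : 0 = a02 := by linear_combination (-1) * h4
          subst t4
          exfalso
          obtain ⟨x, y, hxy⟩ := hD
          exact hxy (by linear_combination 0)
        · have t5 : (a02) ^ 1 * (s12) = 0 := by linear_combination e1_0_3
          have t6 := (mul_eq_zero.mp t5).resolve_left (pow_ne_zero 1 h4)
          have t7 : 0 = s12 := by linear_combination (-1) * t6
          subst t7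
          have t8 : (a02) ^ 1 * (s11) = 0 := by linear_combination e1_1_2
          have t9 := (mul_eq_zero.mp t8).resolve_left (pow_ne_zero 1 h4)
          have t10 : 0 = s11 := by linear_combination (-1) * t9
          subst t10
          exfalso
          obtain ⟨x, y, hxy⟩ := hD
          exact hxy (by linear_combination 0)
      · have t11 : (b02) ^ 1 * (s12) = 0 := by linear_combination e2_0_3
        have t12 := (mul_eq_zero.mp t11).resolve_left (pow_ne_zero 1 h3)
        have t13 : 0 = s12 := by linear_combination (-1) * t12
        subst t13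
        have t14 : (b02) ^ 1 * (s11) = 0 := by linear_combination e2_1_2
        have t15 := (mul_eq_zero.mp t14).resolve_left (pow_ne_zero 1 h3)
        have t16 : 0 = s11 := by linear_combination (-1) * t15
        subst t16
        have t17 : (b02) ^ 1 * (s21) = 0 := by linear_combination e1_1_2
        have t18 := (mul_eq_zero.mp t17).resolve_left (pow_ne_zero 1 h3)
        have t19 : 0 = s21 := by linear_combination (-1) * t18
        subst t19
        have t20 : (b02) ^ 1 * (2 * b02 - s22) = 0 := by linear_combination (-1) * e1_0_3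
        have t21 := (mul_eq_zero.mp t20).resolve_left (pow_ne_zero 1 h3)
        have t22 : 2 * b02 = s22 := by linear_combination (1) * t21
        subst t22
        exact Or.inl ⟨by ring, by ring, h3⟩
    · have t23 : (a11) ^ 1 * (s11) = 0 := by linear_combination e1_2_1
      have t24 := (mul_eq_zero.mp t23).resolve_left (pow_ne_zero 1 h2)
      have t25 : 0 = s11 := by linear_combination (-1) * t24
      subst t25
      have r5 : a11 * s12 + b02 * s21 = 0 := by linear_combination e1_1_2
      by_cases h6 : b02 = 0
      · have t26 : 0 = b02 := by linear_combination (-1) * h6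
        subst t26
        have t27 : (a11) ^ 1 * (s12) = 0 := by linear_combination r5
        have t28 := (mul_eq_zero.mp t27).resolve_left (pow_ne_zero 1 h2)
        have t29 : 0 = s12 := by linear_combination (-1) * t28
        subst t29
        exfalso
        obtain ⟨x, y, hxy⟩ := hD
        exact hxy (by linear_combination 0)
      · have t30 : (b02) ^ 2 * (s21) = 0 := by linear_combination (-a11) * e2_0_3 + (b02) * r5
        have t31 := (mul_eq_zero.mp t30).resolve_left (pow_ne_zero 2 h6)
        have t32 : 0 = s21 := by linear_combination (-1) * t31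
        subst t32
        have t33 : (a11) ^ 1 * (s12) = 0 := by linear_combination r5
        have t34 := (mul_eq_zero.mp t33).resolve_left (pow_ne_zero 1 h2)
        have t35 : 0 = s12 := by linear_combination (-1) * t34
        subst t35
        have t36 : (b02) ^ 1 * (a11 - 2 * b02 + s22) = 0 := by linear_combination e1_0_3
        have t37 := (mul_eq_zero.mp t36).resolve_left (pow_ne_zero 1 h6)
        have t38 : -a11 + 2 * b02 = s22 := by linear_combination (-1) * t37
        subst t38
        exact Or.inr (Or.inl ⟨by ring, h2, h6⟩)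
  · have t39 : (b11) ^ 1 * (s11) = 0 := by linear_combination e1_3_0
    have t40 := (mul_eq_zero.mp t39).resolve_left (pow_ne_zero 1 h1)
    have t41 : 0 = s11 := by linear_combination (-1) * t40
    subst t41
    have t42 : (b11) ^ 1 * (s12 + s21) = 0 := by linear_combination e1_2_1
    have t43 := (mul_eq_zero.mp t42).resolve_left (pow_ne_zero 1 h1)
    have t44 : -s12 = s21 := by linear_combination (-1) * t43
    subst t44
    have r7 : b11 * b02 + b11 * s22 + b02 * s12 = 0 := by linear_combination e2_0_3
    by_cases h8 : b11 + s12 = 0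
    · have t45 : -b11 = s12 := by linear_combination (-1) * h8
      subst t45
      have t46 : (b11) ^ 1 * (s22) = 0 := by linear_combination r7
      have t47 := (mul_eq_zero.mp t46).resolve_left (pow_ne_zero 1 h1)
      have t48 : 0 = s22 := by linear_combination (-1) * t47
      subst t48
      by_cases h9 : b02 = 0
      · have t49 : 0 = b02 := by linear_combination (-1) * h9
        subst t49
        exact Or.inr (Or.inr (Or.inl ⟨by ring, h1⟩))
      · have t50 : (b02) ^ 1 * (a11 - 2 * b02) = 0 := by linear_combination e1_0_3
        have t51 := (mul_eq_zero.mp t50).resolve_left (pow_ne_zero 1 h9)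
        have t52 : 2 * b02 = a11 := by linear_combination (-1) * t51
        subst t52
        exact Or.inr (Or.inr (Or.inr (⟨by ring, h1, h9⟩)))
    · have t53 : (b11) ^ 1 * ((b11 + s12) ^ 1 * (a11 - 2
          * b02)) = 0 := by linear_combination (b11) * e1_1_2 + (-b11) * r7
      have t54 := (mul_eq_zero.mp t53).resolve_left (pow_ne_zero 1 h1)
      have t55 := (mul_eq_zero.mp t54).resolve_left (pow_ne_zero 1 h8)
      have t56 : 1 / 2 * a11 = b02 := by linear_combination (1 / 2) * t55
      subst t56
      have t57 : (b11 + s12) ^ 1 * (a11 ^ 2 - 4 * a02 * b11) = 0 := by linear_combination (-4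
          * b11) * e1_0_3 + (2 * a11) * r7
      have t58 := (mul_eq_zero.mp t57).resolve_left (pow_ne_zero 1 h8)
      have r10 : a11 ^ 2 - 4 * a02 * b11 = 0 := by linear_combination t58
      exfalso
      obtain ⟨x, y, hxy⟩ := hD
      have t59 : (b11) ^ 1 * ((-1 / 4 * y ^ 4 * a11 ^ 2 + y ^ 4 * a02
          * b11)) = 0 := by linear_combination (-1 / 4 * y ^ 4 * b11) * r10
      have t60 := (mul_eq_zero.mp t59).resolve_left (pow_ne_zero 1 h1)
      exact hxy (by linear_combination t60)

end Pool.Agent.H38.FM
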