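import Mathlib

/-!
# Elimination tree `N` (generated)
-/

set_option linter.unusedVariables false
set_option linter.style.longLine false

noncomputable section

namespace Pool.Agent.H38.FM

theorem tree_N
    (a20 a02 b20 b11 b02 c20 c02 u20 u11 u02 v20 v11 v02 q20 q11 q02 s1 s2 s11 s12 s21 s22 l1 l2 : ℂ)
    (e1_1_0 : s1 = 0)
    (e1_2_0 : a20 * s1 + b20 * s2 - b20 + s11 = 0)
    (e1_1_1 : b11 * s2 + s12 = 0)
    (e1_0_2 : a02 * s1 + b02 * s2 + 2 * a02 + b02 = 0)
    (e1_3_0 : a20 * s11 - b20 * b11 + b20 * s21 + u20 * s1 + 1 / 2 * v20 * s2 - 3 / 2 * v20 = 0)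
    (e1_2_1 : a20 * b11 + a20 * s12 + 2 * a02 * c20 - 2 * b20 * b02 + b20 * s22 - b11 ^ 2 + b11
        * s21 + 1 / 2 * u20 * s2 + u11 * s1 + 1 / 2 * v11 * s2 - 1 / 2 * u20 + u11 - v11 + l1 = 0)
    (e1_1_2 : 2 * a20 * b02 - 2 * a02 * b20 + a02 * s11 - 3 * b11 * b02 + b11 * s22 + b02 * s21
        + 1 / 2 * u11 * s2 + u02 * s1 + 1 / 2 * v02 * s2 + 2 * u02 - 1 / 2 * v02 + l2 = 0)
    (e1_0_3 : -a02 * b11 + 2 * a02 * c02 + a02 * s12 - 2 * b02 ^ 2 + b02 * s22 + 1 / 2 * u02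
        * s2 + 1 / 2 * u02 = 0)
    (e1_4_0 : -a20 * v20 + b20 * u20 - 1 / 2 * b20 * v11 - b20 * l1 - 1 / 2 * b11 * v20 + c20
        * u11 + u20 * s11 + 1 / 2 * v20 * s21 + q20 * s1 = 0)
    (e1_3_1 : -1 / 2 * a20 * v11 + a20 * l1 - 1 / 2 * b20 * u11 - b20 * v02 - b20 * l2 + 3 / 2
        * b11 * u20 - b11 * v11 - b11 * l1 - b02 * v20 + 2 * c20 * u02 + u20 * s12 + 1 / 2
        * u20 * s21 + u11 * s11 + 1 / 2 * v20 * s22 + 1 / 2 * v11 * s21 + q20 * s2 + q11 * s1
        - 3 * q20 + q11 = 0)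
    (e1_2_2 : 1 / 2 * a20 * u11 + a20 * l2 - 2 * b20 * u02 - 3 / 2 * b11 * v02 - b11 * l2 + 2
        * b02 * u20 - 3 / 2 * b02 * v11 - b02 * l1 + c02 * u11 + 1 / 2 * u20 * s22 + u11 * s12
        + 1 / 2 * u11 * s21 + u02 * s11 + 1 / 2 * v11 * s22 + 1 / 2 * v02 * s21 + q11 * s2
        + q02 * s1 - 2 * q11 + 2 * q02 = 0)
    (e1_1_3 : a20 * u02 - a02 * u20 + 1 / 2 * a02 * v11 + a02 * l1 - 3 / 2 * b11 * u02 + 1 / 2
        * b02 * u11 - 2 * b02 * v02 - b02 * l2 + 2 * c02 * u02 + 1 / 2 * u11 * s22 + u02 * s12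
        + 1 / 2 * u02 * s21 + 1 / 2 * v02 * s22 + q02 * s2 - q02 = 0)
    (e1_0_4 : -1 / 2 * a02 * u11 + a02 * v02 + a02 * l2 - b02 * u02 + 1 / 2 * u02 * s22 = 0)
    (e2_0_1 : s2 = 0)
    (e2_2_0 : b20 * s1 + c20 * s2 - b20 - 2 * c20 = 0)
    (e2_1_1 : b11 * s1 + s21 = 0)
    (e2_0_2 : b02 * s1 + c02 * s2 + b02 + s22 = 0)
    (e2_3_0 : -2 * a20 * c20 + 2 * b20 ^ 2 + b20 * s11 + b11 * c20 + c20 * s21 + 1 / 2 * v20
        * s1 - 1 / 2 * v20 = 0)
    (e2_2_1 : 3 * b20 * b11 - 2 * b20 * c02 + b20 * s12 + b11 * s11 + 2 * b02 * c20 + c20 * s22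
        + 1 / 2 * u20 * s1 + v20 * s2 + 1 / 2 * v11 * s1 + 1 / 2 * u20 - 2 * v20 - l1 = 0)
    (e2_1_2 : -2 * a02 * c20 + 2 * b20 * b02 + b11 ^ 2 - b11 * c02 + b11 * s12 + b02 * s11
        + c02 * s21 + 1 / 2 * u11 * s1 + v11 * s2 + 1 / 2 * v02 * s1 + u11 - v11 + 1 / 2 * v02
        - l2 = 0)
    (e2_0_3 : b11 * b02 + b02 * s12 + c02 * s22 + 1 / 2 * u02 * s1 + v02 * s2 + 3 / 2 * u02 = 0)
    (e2_3_1 : -2 * a20 * v20 + 2 * b20 * u20 - 1 / 2 * b20 * v11 + b20 * l1 + 3 / 2 * b11 * v20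
        - 1 / 2 * c20 * u11 + c20 * v02 - c20 * l2 - c02 * v20 + 1 / 2 * u20 * s11 + 1 / 2
        * v20 * s12 + v20 * s21 + 1 / 2 * v11 * s11 + q20 * s1 + q20 = 0)
    (e2_2_2 : -a20 * v11 + 3 / 2 * b20 * u11 - 2 * b20 * v02 + b20 * l2 + 3 / 2 * b11 * u20
        + b11 * l1 + 2 * b02 * v20 - 1 / 2 * c02 * v11 - c02 * l1 + 1 / 2 * u20 * s12 + 1 / 2
        * u11 * s11 + v20 * s22 + 1 / 2 * v11 * s12 + v11 * s21 + 1 / 2 * v02 * s11 + q20 * s2
        + q11 * s1 - 2 * q20 + 2 * q11 = 0)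
    (e2_1_3 : -2 * a02 * v20 + b20 * u02 + b11 * u11 - 3 / 2 * b11 * v02 + b11 * l2 + b02 * u20
        + 1 / 2 * b02 * v11 + b02 * l1 + 1 / 2 * c02 * u11 - c02 * l2 + 1 / 2 * u11 * s12
        + 1 / 2 * u02 * s11 + v11 * s22 + 1 / 2 * v02 * s12 + v02 * s21 + q11 * s2 + q02 * s1
        - q11 + 3 * q02 = 0)
    (f_1_1 : -2 * a20 * s2 + 2 * c02 * s1 - b11 - s12 + s21 = 0)
    (f_2_1 : 2 * a20 * c02 * s1 + 2 * a02 * c20 * s1 + 6 * b20 * b11 * s2 - 4 * b20 * b02 * s1
        - 2 * b11 ^ 2 * s1 - a20 * b11 - a20 * s12 - 2 * b20 * c02 + 2 * b02 * c20 - 3 * c20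
        * s22 + 2 * c02 * s11 - 3 * u20 * s2 + 2 * u11 * s1 - 3 * v20 * s2 + 2 * v11 * s1
        + 1 / 2 * u20 - 1 / 2 * v11 - 4 * l1 = 0)
    (f_1_2 : -2 * a20 * c02 * s2 - 2 * a02 * c20 * s2 + 4 * b20 * b02 * s2 + 2 * b11 ^ 2 * s2
        - 6 * b11 * b02 * s1 - 2 * a20 * b02 - 2 * a20 * s22 + 2 * a02 * b20 + 3 * a02 * s11
        - b11 * c02 + c02 * s21 - 2 * u11 * s2 + 3 * u02 * s1 - 2 * v11 * s2 + 3 * v02 * s1
        - 1 / 2 * u11 + 1 / 2 * v02 - 4 * l2 = 0)
    (hD : ∃ x y : ℂ, (x ^ 4 * q20 + x ^ 3 * y * q11 + x ^ 2 * y ^ 2 * q02 + x ^ 3 * u20 + x ^ 2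
        * y * u11 + x * y ^ 2 * u02 + x ^ 2 * a20 + y ^ 2 * a02 + x) * (x ^ 2 * y ^ 2 * q20 + x
        * y ^ 3 * q11 + y ^ 4 * q02 + x ^ 2 * y * v20 + x * y ^ 2 * v11 + y ^ 3 * v02 + x ^ 2
        * c20 + y ^ 2 * c02 + y) - (x ^ 3 * y * q20 + x ^ 2 * y ^ 2 * q11 + x * y ^ 3 * q02
        + 1 / 2 * x ^ 3 * v20 + 1 / 2 * x ^ 2 * y * u20 + 1 / 2 * x ^ 2 * y * v11 + 1 / 2 * x
        * y ^ 2 * u11 + 1 / 2 * x * y ^ 2 * v02 + 1 / 2 * y ^ 3 * u02 + x ^ 2 * b20 + x * y
        * b11 + y ^ 2 * b02) ^ 2 ≠ 0) :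
    ((a02 = 0) ∧ (b20 = 0) ∧ (b11 = 0) ∧ (b02 = 0) ∧ (c20 = 0) ∧ (u20 = 0) ∧ (u11 = 0) ∧ (u02 = 0) ∧ (v20 = 0) ∧ (v11 = 0) ∧ (v02 = 0) ∧ (q20 = 0) ∧ (q11 = 0) ∧ (q02 = 0)) ∨
    ((a02 = 0) ∧ (b20 = 0) ∧ (b11 = 0) ∧ (b02 = 0) ∧ (c20 = 0) ∧ (c02 = a20) ∧ (u11 = -3
        * u20) ∧ (u02 = 0) ∧ (v20 = 0) ∧ (v11 = -3 * u20) ∧ (v02 = u20) ∧ (q20 = 0) ∧ (q11 = -2
        * a20 * u20) ∧ (q02 = 0) ∧ (u20 ≠ 0)) ∨
    ((a20 = -9 * a02) ∧ (b20 = 2 * a02) ∧ (b11 = 0) ∧ (b02 = -2
        * a02) ∧ (c20 = -a02) ∧ (c02 = 9 * a02) ∧ (u20 = 32 * a02 ^ 2) ∧ (u11 = 4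
        * a02 ^ 2) ∧ (u02 = -12 * a02 ^ 2) ∧ (v20 = -12 * a02 ^ 2) ∧ (v11 = 4
        * a02 ^ 2) ∧ (v02 = 32 * a02 ^ 2) ∧ (q20 = -40 * a02 ^ 3) ∧ (q11 = 0) ∧ (q02 = 40
        * a02 ^ 3) ∧ (a02 ≠ 0)) := by
  have t1 : 0 = s2 := by linear_combination (-1) * e2_0_1
  subst t1
  have t2 : 0 = s1 := by linear_combination (-1) * e1_1_0
  subst t2
  have t3 : 0 = s21 := by linear_combination (-1) * e2_1_1
  subst t3
  have t4 : 0 = s12 := by linear_combination (-1) * e1_1_1
  subst t4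
  have t5 : -b02 = s22 := by linear_combination (-1) * e2_0_2
  subst t5
  have t6 : b20 = s11 := by linear_combination (-1) * e1_2_0
  subst t6
  have t7 : -1 / 2 * b20 = c20 := by linear_combination (1 / 2) * e2_2_0
  subst t7
  have t8 : -2 * a02 = b02 := by linear_combination (-1) * e1_0_2
  subst t8
  have t9 : 0 = b11 := by linear_combination f_1_1
  subst t9
  have t10 : 2 / 3 * a20 * b20 = v20 := by linear_combination (2 / 3) * e1_3_0
  subst t10
  have t11 : -4 / 3 * a02 * c02 = u02 := by linear_combination (-2 / 3) * e2_0_3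
  subst t11
  have t12 : 4 * a20 * a02 + a02 * b20 + 8 / 3 * a02 * c02 + 1 / 2
      * v02 = l2 := by linear_combination (-1) * e1_1_2
  subst t12
  have t13 : -5 * a02 * b20 + 1 / 2 * u20 - u11 + v11 = l1 := by linear_combination (-1) * e1_2_1
  subst t13
  have t14 : -4 / 3 * a20 * b20 + 6 * a02 * b20 - 2 * b20 * c02
      + u11 = v11 := by linear_combination e2_2_1
  subst t14
  by_cases h1 : a02 = 0
  · have t15 : 0 = a02 := by linear_combination (-1) * h1
    subst t15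
    by_cases h2 : b20 = 0
    · have t16 : 0 = b20 := by linear_combination (-1) * h2
      subst t16
      have t17 : -1 / 3 * u11 = v02 := by linear_combination (2 / 3) * f_1_2
      subst t17
      have t18 : -3 * u20 = u11 := by linear_combination (2) * f_2_1
      subst t18
      have t19 : 0 = q02 := by linear_combination e1_1_3
      subst t19
      have t20 : 0 = q20 := by linear_combination (-1) * e2_3_1
      subst t20
      have t21 : -2 * a20 * u20 = q11 := by linear_combination (-1) * e1_3_1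
      subst t21
      by_cases h3 : u20 = 0
      · have t22 : 0 = u20 := by linear_combination (-1) * h3
        subst t22
        exact Or.inl ⟨by ring, by ring, by ring, by ring, by ring, by ring, by ring, by ring, by ring, by ring, by ring, by ring, by ring, by ring⟩
      · have t23 : (u20) ^ 1 * (a20 - c02) = 0 := by linear_combination (1 / 3) * e1_2_2
        have t24 := (mul_eq_zero.mp t23).resolve_left (pow_ne_zero 1 h3)
        have t25 : a20 = c02 := by linear_combination (1) * t24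
        subst t25
        exact Or.inr (Or.inl ⟨by ring, by ring, by ring, by ring, by ring, by ring, by ring, by ring, by ring, by ring, by ring, by ring, by ring, by ring, h3⟩)
    · have t26 : (b20) ^ 1 * (2 * a20 + 3 * c02) = 0 := by linear_combination (3 / 2) * e2_1_2
      have t27 := (mul_eq_zero.mp t26).resolve_left (pow_ne_zero 1 h2)
      have t28 : -2 / 3 * a20 = c02 := by linear_combination (-1 / 3) * t27
      subst t28
      have t29 : (b20) ^ 1 * (2 * a20 + 9 * b20) = 0 := by linear_combination (3) * e2_3_0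
      have t30 := (mul_eq_zero.mp t29).resolve_left (pow_ne_zero 1 h2)
      have t31 : -9 / 2 * b20 = a20 := by linear_combination (-1 / 2) * t30
      subst t31
      have t32 : -1 / 3 * u11 = v02 := by linear_combination (2 / 3) * f_1_2
      subst t32
      have t33 : -3 * u20 = u11 := by linear_combination (2) * f_2_1
      subst t33
      have t34 : 0 = q02 := by linear_combination e1_1_3
      subst t34
      have t35 : -9 / 4 * b20 * u20 = q11 := by linear_combination (1 / 2) * e1_2_2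
      subst t35
      have t36 : (b20) ^ 1 * (u20) = 0 := by linear_combination (-4 / 15) * e2_1_3
      have t37 := (mul_eq_zero.mp t36).resolve_left (pow_ne_zero 1 h2)
      have t38 : 0 = u20 := by linear_combination (-1) * t37
      subst t38
      exfalso
      have t39 : (b20) ^ 3 * (1) = 0 := by linear_combination (-2 / 27) * e1_4_0
      have t40 := (mul_eq_zero.mp t39).resolve_left (pow_ne_zero 3 h2)
      exact absurd t40 (by norm_num)
  · have t41 : (a02) ^ 1 * (9 * a02 - c02) = 0 := by linear_combination (-3 / 4) * e1_0_3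
    have t42 := (mul_eq_zero.mp t41).resolve_left (pow_ne_zero 1 h1)
    have t43 : 9 * a02 = c02 := by linear_combination (1) * t42
    subst t43
    by_cases h4 : b20 = 0
    · have t44 : 0 = b20 := by linear_combination (-1) * h4
      subst t44
      have t45 : (a02) ^ 1 * (a20 + 6 * a02) = 0 := by linear_combination (-1 / 4) * e2_1_2
      have t46 := (mul_eq_zero.mp t45).resolve_left (pow_ne_zero 1 h1)
      have t47 : -6 * a02 = a20 := by linear_combination (-1) * t46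
      subst t47
      have t48 : -1 / 3 * u11 = v02 := by linear_combination (2 / 3) * f_1_2
      subst t48
      have t49 : -3 * u20 = u11 := by linear_combination (2) * f_2_1
      subst t49
      have t50 : 0 = q20 := by linear_combination (-1) * e2_3_1
      subst t50
      have t51 : 12 * a02 * u20 = q11 := by linear_combination (-1) * e1_3_1
      subst t51
      have t52 : (a02) ^ 1 * (u20) = 0 := by linear_combination (1 / 15) * e2_2_2
      have t53 := (mul_eq_zero.mp t52).resolve_left (pow_ne_zero 1 h1)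
      have t54 : 0 = u20 := by linear_combination (-1) * t53
      subst t54
      exfalso
      have t55 : (a02) ^ 3 * (1) = 0 := by linear_combination (-1 / 36) * e1_0_4
      have t56 := (mul_eq_zero.mp t55).resolve_left (pow_ne_zero 3 h1)
      exact absurd t56 (by norm_num)
    · have t57 : (b20) ^ 1 * (2 * a20 + 9 * b20) = 0 := by linear_combination (3) * e2_3_0
      have t58 := (mul_eq_zero.mp t57).resolve_left (pow_ne_zero 1 h4)
      have t59 : -9 / 2 * b20 = a20 := by linear_combination (-1 / 2) * t58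
      subst t59
      by_cases h5 : 2 * a02 - b20 = 0
      · have t60 : 2 * a02 = b20 := by linear_combination h5
        subst t60
        have t61 : 100 / 3 * a02 ^ 2 - 1 / 3 * u11 = v02 := by linear_combination (2 / 3) * f_1_2
        subst t61
        have t62 : 100 * a02 ^ 2 - 3 * u20 = u11 := by linear_combination (2) * f_2_1
        subst t62
        have t63 : (a02) ^ 1 * (32 * a02 ^ 2 - u20) = 0 := by linear_combination (-1 / 9) * e1_4_0
        have t64 := (mul_eq_zero.mp t63).resolve_left (pow_ne_zero 1 h1)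
        have t65 : 32 * a02 ^ 2 = u20 := by linear_combination (1) * t64
        subst t65
        have t66 : 40 * a02 ^ 3 = q02 := by linear_combination e1_1_3
        subst t66
        have t67 : 0 = q11 := by linear_combination (1 / 2) * e1_2_2
        subst t67
        have t68 : -40 * a02 ^ 3 = q20 := by linear_combination (1 / 3) * e1_3_1
        subst t68
        exact Or.inr (Or.inr (⟨by ring, by ring, by ring, by ring, by ring, by ring, by ring, by ring, by ring, by ring, by ring, by ring, by ring, by ring, by ring, h1⟩))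
      · exfalso
        have t69 : (2 * a02 - b20) ^ 2 * (1) = 0 := by linear_combination (-1 / 6) * e2_1_2
        have t70 := (mul_eq_zero.mp t69).resolve_left (pow_ne_zero 2 h5)
        exact absurd t70 (by norm_num)

end Pool.Agent.H38.FM
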