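import Pool.Agent.H38.FM.Facts
import Pool.Agent.H38.FM.TreeN
import Pool.Agent.H38.FM.LeafN
import Pool.Agent.H67.FM.T3Types

/-!
# Type `N` is good (generated glue)
-/

set_option linter.unusedVariables false
set_option linter.unusedSimpArgs false
set_option linter.style.longLine false

noncomputable section

namespace Pool.Agent.H38.FM

open FM67

theorem good_TyN {p : Par} (hb : Base p) (ht : TyN p) : Good p := by
  obtain ⟨s, hs⟩ := base_sys hb
  have h_a00 := hb.2.2.1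
  have h_b00 := hb.2.2.2.1
  have h_c00 := hb.2.2.2.2
  have F := facts_of_sys hs h_a00 h_b00 h_c00
  obtain ⟨⟨h_a10, h_a01, h_b10, h_b01, h_c10, h_c01⟩, h_a11, h_c11⟩ := ht
  obtain ⟨x, y, hxy⟩ := hb.1
  have k0 := F.e1_1_0
  simp only [ce1_1_0, h_a10, h_a01, h_b10, h_b01, h_c10, h_c01, h_a11, h_c11] at k0
  have k1 := F.e1_2_0
  simp only [ce1_2_0, h_a10, h_a01, h_b10, h_b01, h_c10, h_c01, h_a11, h_c11] at k1
  have k2 := F.e1_1_1
  simp only [ce1_1_1, h_a10, h_a01, h_b10, h_b01, h_c10, h_c01, h_a11, h_c11] at k2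
  have k3 := F.e1_0_2
  simp only [ce1_0_2, h_a10, h_a01, h_b10, h_b01, h_c10, h_c01, h_a11, h_c11] at k3
  have k4 := F.e1_3_0
  simp only [ce1_3_0, h_a10, h_a01, h_b10, h_b01, h_c10, h_c01, h_a11, h_c11] at k4
  have k5 := F.e1_2_1
  simp only [ce1_2_1, h_a10, h_a01, h_b10, h_b01, h_c10, h_c01, h_a11, h_c11] at k5
  have k6 := F.e1_1_2
  simp only [ce1_1_2, h_a10, h_a01, h_b10, h_b01, h_c10, h_c01, h_a11, h_c11] at k6
  have k7 := F.e1_0_3
  simp only [ce1_0_3, h_a10, h_a01, h_b10, h_b01, h_c10, h_c01, h_a11, h_c11] at k7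
  have k8 := F.e1_4_0
  simp only [ce1_4_0, h_a10, h_a01, h_b10, h_b01, h_c10, h_c01, h_a11, h_c11] at k8
  have k9 := F.e1_3_1
  simp only [ce1_3_1, h_a10, h_a01, h_b10, h_b01, h_c10, h_c01, h_a11, h_c11] at k9
  have k10 := F.e1_2_2
  simp only [ce1_2_2, h_a10, h_a01, h_b10, h_b01, h_c10, h_c01, h_a11, h_c11] at k10
  have k11 := F.e1_1_3
  simp only [ce1_1_3, h_a10, h_a01, h_b10, h_b01, h_c10, h_c01, h_a11, h_c11] at k11
  have k12 := F.e1_0_4
  simp only [ce1_0_4, h_a10, h_a01, h_b10, h_b01, h_c10, h_c01, h_a11, h_c11] at k12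
  have k13 := F.e2_0_1
  simp only [ce2_0_1, h_a10, h_a01, h_b10, h_b01, h_c10, h_c01, h_a11, h_c11] at k13
  have k14 := F.e2_2_0
  simp only [ce2_2_0, h_a10, h_a01, h_b10, h_b01, h_c10, h_c01, h_a11, h_c11] at k14
  have k15 := F.e2_1_1
  simp only [ce2_1_1, h_a10, h_a01, h_b10, h_b01, h_c10, h_c01, h_a11, h_c11] at k15
  have k16 := F.e2_0_2
  simp only [ce2_0_2, h_a10, h_a01, h_b10, h_b01, h_c10, h_c01, h_a11, h_c11] at k16
  have k17 := F.e2_3_0
  simp only [ce2_3_0, h_a10, h_a01, h_b10, h_b01, h_c10, h_c01, h_a11, h_c11] at k17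
  have k18 := F.e2_2_1
  simp only [ce2_2_1, h_a10, h_a01, h_b10, h_b01, h_c10, h_c01, h_a11, h_c11] at k18
  have k19 := F.e2_1_2
  simp only [ce2_1_2, h_a10, h_a01, h_b10, h_b01, h_c10, h_c01, h_a11, h_c11] at k19
  have k20 := F.e2_0_3
  simp only [ce2_0_3, h_a10, h_a01, h_b10, h_b01, h_c10, h_c01, h_a11, h_c11] at k20
  have k21 := F.e2_3_1
  simp only [ce2_3_1, h_a10, h_a01, h_b10, h_b01, h_c10, h_c01, h_a11, h_c11] at k21
  have k22 := F.e2_2_2
  simp only [ce2_2_2, h_a10, h_a01, h_b10, h_b01, h_c10, h_c01, h_a11, h_c11] at k22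
  have k23 := F.e2_1_3
  simp only [ce2_1_3, h_a10, h_a01, h_b10, h_b01, h_c10, h_c01, h_a11, h_c11] at k23
  have k24 := F.f_1_1
  simp only [cf_1_1, h_a10, h_a01, h_b10, h_b01, h_c10, h_c01, h_a11, h_c11] at k24
  have k25 := F.f_2_1
  simp only [cf_2_1, h_a10, h_a01, h_b10, h_b01, h_c10, h_c01, h_a11, h_c11] at k25
  have k26 := F.f_1_2
  simp only [cf_1_2, h_a10, h_a01, h_b10, h_b01, h_c10, h_c01, h_a11, h_c11] at k26
  simp only [Par.D, Par.a, Par.b, Par.c, Par.U, Par.V, Par.Q, h_a00, h_b00, h_c00, h_a10, h_a01,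
      h_b10, h_b01, h_c10, h_c01, h_a11, h_c11] at hxy
  have hT := tree_N p.a20 p.a02 p.b20 p.b11 p.b02 p.c20 p.c02 p.u20 p.u11 p.u02 p.v20 p.v11 p.v02
      p.q20 p.q11 p.q02 s.s1 s.s2 s.s11 s.s12 s.s21 s.s22 s.l1 s.l2 (by linear_combination k0)
      (by linear_combination k1) (by linear_combination k2) (by linear_combination k3)
      (by linear_combination k4) (by linear_combination k5) (by linear_combination k6)
      (by linear_combination k7) (by linear_combination k8) (by linear_combination k9)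
      (by linear_combination k10) (by linear_combination k11) (by linear_combination k12)
      (by linear_combination k13) (by linear_combination k14) (by linear_combination k15)
      (by linear_combination k16) (by linear_combination k17) (by linear_combination k18)
      (by linear_combination k19) (by linear_combination k20) (by linear_combination k21)
      (by linear_combination k22) (by linear_combination k23) (by linear_combination k24)
      (by linear_combination k25) (by linear_combination k26)  ⟨x, y, fun h0 => hxy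
      (by linear_combination h0)⟩
  rcases hT with h | h | h
  · obtain ⟨g_a02, g_b20, g_b11, g_b02, g_c20, g_u20, g_u11, g_u02, g_v20, g_v11, g_v02, g_q20,
        g_q11, g_q02⟩ := h
    exact leaf_N_0 h_a00 h_b00 h_c00 h_a10 h_a01 h_b10 h_b01 h_c10 h_c01 h_a11 g_a02 g_b20 g_b11
        g_b02 g_c20 h_c11 g_u20 g_u11 g_u02 g_v20 g_v11 g_v02 g_q20 g_q11 g_q02
  · obtain ⟨g_a02, g_b20, g_b11, g_b02, g_c20, g_c02, g_u11, g_u02, g_v20, g_v11, g_v02, g_q20,
        g_q11, g_q02, m0⟩ := h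
    exact leaf_N_1 h_a00 h_b00 h_c00 h_a10 h_a01 h_b10 h_b01 h_c10 h_c01 h_a11 g_a02 g_b20 g_b11
        g_b02 g_c20 h_c11 g_c02 g_u11 g_u02 g_v20 g_v11 g_v02 g_q20 g_q11 g_q02 m0
  · obtain ⟨g_a20, g_b20, g_b11, g_b02, g_c20, g_c02, g_u20, g_u11, g_u02, g_v20, g_v11, g_v02,
        g_q20, g_q11, g_q02, m0⟩ := h
    exact leaf_N_2 h_a00 h_b00 h_c00 h_a10 h_a01 h_b10 h_b01 h_c10 h_c01 g_a20 h_a11 g_b20 g_b11
        g_b02 g_c20 h_c11 g_c02 g_u20 g_u11 g_u02 g_v20 g_v11 g_v02 g_q20 g_q11 g_q02 m0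

end Pool.Agent.H38.FM
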