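import Pool.Agent.H38.FM.GoodMk

/-!
# Leaf lemmas for type `T2z (affine-linear metrics)` (generated)
-/

set_option linter.unusedVariables false
set_option linter.unusedSimpArgs false
set_option linter.style.longLine false

noncomputable section

namespace Pool.Agent.H38.FM

/-- Affine-linear metrics with two idempotents. -/
theorem typeI_sep (r1 r2 w : ℂ) {p : Par} (h_a00 : p.a00 = 0) (h_b00 : p.b00 = 0) (h_c00 : p.c00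
    = 0) (h_a10 : p.a10 = 0) (h_a01 : p.a01 = 1) (h_b10 : p.b10 = 0) (h_b01 : p.b01 = 0) (h_c10 :
    p.c10 = 0) (h_c01 : p.c01 = 0) (h_a20 : p.a20 = 0) (h_a11 : p.a11 = 0) (h_a02 : p.a02 = 0)
    (h_b20 : p.b20 = 0) (h_b11 : p.b11 = 0) (h_b02 : p.b02 = (-(r1+r2)/3)) (h_c20 : p.c20 = 0)
    (h_c11 : p.c11 = 0) (h_c02 : p.c02 = 0) (h_u20 : p.u20 = 0) (h_u11 : p.u11 = (r1 * r2-(r1+r2)
    ^ 2/3)) (h_u02 : p.u02 = w) (h_v20 : p.v20 = 0) (h_v11 : p.v11 = 0) (h_v02 : p.v02 = -2 *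
    ((-(r1+r2)/3)) ^ 2-((r1 * r2-(r1+r2) ^ 2/3))) (h_q20 : p.q20 = 0) (h_q11 : p.q11 =
    ((-(r1+r2)/3)) ^ 3+((-(r1+r2)/3)) * ((r1 * r2-(r1+r2) ^ 2/3))) (h_q02 : p.q02 = -(w) *
    ((-(r1+r2)/3))/2) (n0 : r1 ≠ 0) (n1 : r2 ≠ 0) (n2 : r1-r2 ≠ 0) : Good p := by
  refine good_to (NF.sep 0 (2 * r1 ^ 2 * (r1-r2)) 0 0 (2 * r2 ^ 2 * (r2-r1)) 0) (rel_mk (4 / 3 *
      r1 ^ 2 - 2 / 3 * r1 * r2) (-w) (2 * r1) (-2 / 3 * r1 * r2 + 4 / 3 * r2 ^ 2) (-w) (2 * r2) 0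
      1 0 (-2 * r2) (2 * r1) (2 * r1 * w - 2 * r2 * w) 0 0 (-4 * r1 ^ 2 * r2 + 4 * r1 * r2 ^ 2)
      (-2 / 3 * r1 * r2 + 4 / 3 * r2 ^ 2) (-4 / 3 * r1 ^ 2 + 2 / 3 * r1 * r2) (-4 / 3 * r1 ^ 2 *
      w + 4 / 3 * r2 ^ 2 * w) (-4 * r1 * r2 * (r1-r2)) (by ring) (by ring) (by ring) (by ring)
      (by ring) (by ring) (by ring) (by ring) (by ring) (by ring) ?_ ?_)
  · simp [n0, n1, n2]
  · intro X Y Z X' Y' Z' hX hY hZ
    subst hX; subst hY; subst hZ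
    refine ⟨?_, ?_, ?_, ?_, ?_, ?_⟩ <;>
      simp only [ha, hb, hc, hd, he, hf, fSEP, zeroPar, h_a00, h_b00, h_c00, h_a10, h_a01, h_b10,
        h_b01, h_c10, h_c01, h_a20, h_a11, h_a02, h_b20, h_b11, h_b02, h_c20, h_c11, h_c02,
        h_u20, h_u11, h_u02, h_v20, h_v11, h_v02, h_q20, h_q11, h_q02] <;>
      ring1

/-- Affine-linear metrics with nilpotents. -/
theorem typeI_m1 (r w : ℂ) {p : Par} (h_a00 : p.a00 = 0) (h_b00 : p.b00 = 0) (h_c00 : p.c00 = 0)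
    (h_a10 : p.a10 = 0) (h_a01 : p.a01 = 1) (h_b10 : p.b10 = 0) (h_b01 : p.b01 = 0) (h_c10 :
    p.c10 = 0) (h_c01 : p.c01 = 0) (h_a20 : p.a20 = 0) (h_a11 : p.a11 = 0) (h_a02 : p.a02 = 0)
    (h_b20 : p.b20 = 0) (h_b11 : p.b11 = 0) (h_b02 : p.b02 = (-2 * r/3)) (h_c20 : p.c20 = 0)
    (h_c11 : p.c11 = 0) (h_c02 : p.c02 = 0) (h_u20 : p.u20 = 0) (h_u11 : p.u11 = (-r ^ 2/3))
    (h_u02 : p.u02 = w) (h_v20 : p.v20 = 0) (h_v11 : p.v11 = 0) (h_v02 : p.v02 = -2 * ((-2 *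
    r/3)) ^ 2-((-r ^ 2/3))) (h_q20 : p.q20 = 0) (h_q11 : p.q11 = ((-2 * r/3)) ^ 3+((-2 * r/3)) *
    ((-r ^ 2/3))) (h_q02 : p.q02 = -(w) * ((-2 * r/3))/2) (n0 : r ≠ 0) : Good p := by
  refine good_to (NF.m1 0 r 0 0 0 r 0 r 0) (rel_mk (6 * r ^ 2) (3 * w) 0 (2 * r ^ 2) (-3 * w) (6
      * r) 0 (6 * r ^ 2) 0 (-36 * r ^ 3) 0 (18 * r * w) 0 0 (-36 * r ^ 3) (12 * r ^ 4) (-36 * r ^
      4) (-24 * r ^ 2 * w) (-216 * r ^ 5) (by ring) (by ring) (by ring) (by ring) (by ring) (by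
      ring) (by ring) (by ring) (by ring) (by ring) ?_ ?_)
  · simp [n0]
  · intro X Y Z X' Y' Z' hX hY hZ
    subst hX; subst hY; subst hZ
    refine ⟨?_, ?_, ?_, ?_, ?_, ?_⟩ <;>
      simp only [ha, hb, hc, hd, he, hf, fM1, zeroPar, h_a00, h_b00, h_c00, h_a10, h_a01, h_b10,
        h_b01, h_c10, h_c01, h_a20, h_a11, h_a02, h_b20, h_b11, h_b02, h_c20, h_c11, h_c02,
        h_u20, h_u11, h_u02, h_v20, h_v11, h_v02, h_q20, h_q11, h_q02] <;>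
      ring1

/-- Degenerate case `k = 0`. -/
theorem typeI_k0 (s w : ℂ) {p : Par} (h_a00 : p.a00 = 0) (h_b00 : p.b00 = 0) (h_c00 : p.c00 = 0)
    (h_a10 : p.a10 = 0) (h_a01 : p.a01 = 1) (h_b10 : p.b10 = 0) (h_b01 : p.b01 = 0) (h_c10 :
    p.c10 = 0) (h_c01 : p.c01 = 0) (h_a20 : p.a20 = 0) (h_a11 : p.a11 = 0) (h_a02 : p.a02 = 0)
    (h_b20 : p.b20 = 0) (h_b11 : p.b11 = 0) (h_b02 : p.b02 = s) (h_c20 : p.c20 = 0) (h_c11 :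
    p.c11 = 0) (h_c02 : p.c02 = 0) (h_u20 : p.u20 = 0) (h_u11 : p.u11 = (-3 * s ^ 2)) (h_u02 :
    p.u02 = w) (h_v20 : p.v20 = 0) (h_v11 : p.v11 = 0) (h_v02 : p.v02 = -2 * (s) ^ 2-((-3 * s ^
    2))) (h_q20 : p.q20 = 0) (h_q11 : p.q11 = (s) ^ 3+(s) * ((-3 * s ^ 2))) (h_q02 : p.q02 = -(w)
    * (s)/2) (n0 : s ≠ 0) : Good p := by
  refine good_to (NF.sep 0 (9 * s ^ 2) 0 (-3/2 * w * s) 0 0) (rel_mk (-12 * s ^ 2) w (6 * s) (6 *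
      s ^ 2) 0 (6 * s) 0 (6 * s) 0 (-36 * s ^ 2) (36 * s ^ 2) (6 * s * w) 0 0 (108 * s ^ 3) (36 *
      s ^ 3) (72 * s ^ 3) (-6 * s ^ 2 * w) (648 * s ^ 4) (by ring) (by ring) (by ring) (by ring)
      (by ring) (by ring) (by ring) (by ring) (by ring) (by ring) ?_ ?_)
  · simp [n0]
  · intro X Y Z X' Y' Z' hX hY hZ
    subst hX; subst hY; subst hZ
    refine ⟨?_, ?_, ?_, ?_, ?_, ?_⟩ <;>
      simp only [ha, hb, hc, hd, he, hf, fSEP, zeroPar, h_a00, h_b00, h_c00, h_a10, h_a01, h_b10,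
        h_b01, h_c10, h_c01, h_a20, h_a11, h_a02, h_b20, h_b11, h_b02, h_c20, h_c11, h_c02,
        h_u20, h_u11, h_u02, h_v20, h_v11, h_v02, h_q20, h_q11, h_q02] <;>
      ring1

/-- Degenerate case `k = s = 0`. -/
theorem typeI_0 (w : ℂ) {p : Par} (h_a00 : p.a00 = 0) (h_b00 : p.b00 = 0) (h_c00 : p.c00 = 0)
    (h_a10 : p.a10 = 0) (h_a01 : p.a01 = 1) (h_b10 : p.b10 = 0) (h_b01 : p.b01 = 0) (h_c10 :
    p.c10 = 0) (h_c01 : p.c01 = 0) (h_a20 : p.a20 = 0) (h_a11 : p.a11 = 0) (h_a02 : p.a02 = 0)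
    (h_b20 : p.b20 = 0) (h_b11 : p.b11 = 0) (h_b02 : p.b02 = 0) (h_c20 : p.c20 = 0) (h_c11 :
    p.c11 = 0) (h_c02 : p.c02 = 0) (h_u20 : p.u20 = 0) (h_u11 : p.u11 = 0) (h_u02 : p.u02 = w)
    (h_v20 : p.v20 = 0) (h_v11 : p.v11 = 0) (h_v02 : p.v02 = -2 * (0) ^ 2-(0)) (h_q20 : p.q20 =
    0) (h_q11 : p.q11 = (0) ^ 3+(0) * (0)) (h_q02 : p.q02 = -(w) * (0)/2) : Good p := by
  refine good_to (NF.m1 (-w/2) 0 0 0 0 1 0 0 0) (rel_mk 1 0 0 0 0 1 0 1 0 (-1) 0 0 0 0 (-1) 0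
      (-1) 0 (-1) (by ring) (by ring) (by ring) (by ring) (by ring) (by ring) (by ring) (by ring)
      (by ring) (by ring) ?_ ?_)
  · norm_num
  · intro X Y Z X' Y' Z' hX hY hZ
    subst hX; subst hY; subst hZ
    refine ⟨?_, ?_, ?_, ?_, ?_, ?_⟩ <;>
      simp only [ha, hb, hc, hd, he, hf, fM1, zeroPar, h_a00, h_b00, h_c00, h_a10, h_a01, h_b10,
        h_b01, h_c10, h_c01, h_a20, h_a11, h_a02, h_b20, h_b11, h_b02, h_c20, h_c11, h_c02,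
        h_u20, h_u11, h_u02, h_v20, h_v11, h_v02, h_q20, h_q11, h_q02] <;>
      ring1

theorem typeI (s u w : ℂ) {p : Par} (h_a00 : p.a00 = 0) (h_b00 : p.b00 = 0) (h_c00 : p.c00 = 0)
      (h_a10 : p.a10 = 0) (h_a01 : p.a01 = 1) (h_b10 : p.b10 = 0) (h_b01 : p.b01 = 0) (h_c10 :
      p.c10 = 0) (h_c01 : p.c01 = 0) (h_a20 : p.a20 = 0) (h_a11 : p.a11 = 0) (h_a02 : p.a02 = 0)
      (h_b20 : p.b20 = 0) (h_b11 : p.b11 = 0) (h_b02 : p.b02 = s) (h_c20 : p.c20 = 0) (h_c11 :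
      p.c11 = 0) (h_c02 : p.c02 = 0) (h_u20 : p.u20 = 0) (h_u11 : p.u11 = u) (h_u02 : p.u02 = w)
      (h_v20 : p.v20 = 0) (h_v11 : p.v11 = 0) (h_v02 : p.v02 = -2 * (s) ^ 2-(u)) (h_q20 : p.q20 =
      0) (h_q11 : p.q11 = (s) ^ 3+(s) * (u)) (h_q02 : p.q02 = -(w) * (s)/2) : Good p := by
  obtain ⟨d, hd⟩ := IsAlgClosed.exists_pow_nat_eq (-3 * s ^ 2 - 4 * u) (n := 2) (by norm_num)
  obtain ⟨r1, hr1⟩ : ∃ r1, r1 = (-3 * s + d) / 2 := ⟨_, rfl⟩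
  obtain ⟨r2, hr2⟩ : ∃ r2, r2 = (-3 * s - d) / 2 := ⟨_, rfl⟩
  have hs : s = -(r1 + r2) / 3 := by rw [hr1, hr2]; ring
  have hu : u = r1 * r2 - (r1 + r2) ^ 2 / 3 := by rw [hr1, hr2]; linear_combination (1 / 4) * hd
  clear hd hr1 hr2
  subst hs
  subst hu
  by_cases h12 : r1 - r2 = 0
  · have hr : r2 = r1 := by linear_combination -h12
    subst hr
    by_cases h0 : r2 = 0
    · subst h0
      exact typeI_0 w h_a00 h_b00 h_c00 h_a10 h_a01 h_b10 h_b01 h_c10 h_c01 h_a20 h_a11 h_a02 h_b20 h_b11 (h_b02.trans (by ring)) h_c20 h_c11 h_c02 h_u20 (h_u11.trans (by ring)) (h_u02.trans (by ring)) h_v20 h_v11 (h_v02.trans (by ring)) h_q20 (h_q11.trans (by ring)) (h_q02.trans (by ring))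
    · exact typeI_m1 r2 w h_a00 h_b00 h_c00 h_a10 h_a01 h_b10 h_b01 h_c10 h_c01 h_a20 h_a11 h_a02 h_b20 h_b11 (h_b02.trans (by ring)) h_c20 h_c11 h_c02 h_u20 (h_u11.trans (by ring)) (h_u02.trans (by ring)) h_v20 h_v11 (h_v02.trans (by ring)) h_q20 (h_q11.trans (by ring)) (h_q02.trans (by ring)) h0
  · by_cases h1 : r1 = 0
    · subst h1
      have h2 : -(0 + r2) / 3 ≠ 0 := by
        intro h; apply h12; linear_combination 3 * h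
      exact typeI_k0 (-(0 + r2) / 3) w h_a00 h_b00 h_c00 h_a10 h_a01 h_b10 h_b01 h_c10 h_c01 h_a20 h_a11 h_a02 h_b20 h_b11 (h_b02.trans (by ring)) h_c20 h_c11 h_c02 h_u20 (h_u11.trans (by ring)) (h_u02.trans (by ring)) h_v20 h_v11 (h_v02.trans (by ring)) h_q20 (h_q11.trans (by ring)) (h_q02.trans (by ring)) h2
    · by_cases h2 : r2 = 0
      · subst h2
        have h3 : -(r1 + 0) / 3 ≠ 0 := by
          intro h; apply h12; linear_combination (-3) * h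
        exact typeI_k0 (-(r1 + 0) / 3) w h_a00 h_b00 h_c00 h_a10 h_a01 h_b10 h_b01 h_c10 h_c01 h_a20 h_a11 h_a02 h_b20 h_b11 (h_b02.trans (by ring)) h_c20 h_c11 h_c02 h_u20 (h_u11.trans (by ring)) (h_u02.trans (by ring)) h_v20 h_v11 (h_v02.trans (by ring)) h_q20 (h_q11.trans (by ring)) (h_q02.trans (by ring)) h3
      · exact typeI_sep r1 r2 w h_a00 h_b00 h_c00 h_a10 h_a01 h_b10 h_b01 h_c10 h_c01 h_a20 h_a11 h_a02 h_b20 h_b11 (h_b02.trans (by ring)) h_c20 h_c11 h_c02 h_u20 (h_u11.trans (by ring)) (h_u02.trans (by ring)) h_v20 h_v11 (h_v02.trans (by ring)) h_q20 (h_q11.trans (by ring)) (h_q02.trans (by ring)) h1 h2 h12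

end Pool.Agent.H38.FM
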